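import Pool.Agent.EscF.CDefs
import Pool.Agent.helper42.Esc.K

/-!
Project EscF, module C1: kernels of general convex Lagrangians (helper42).
-/

set_option linter.unusedSectionVars false

noncomputable section

namespace EscF

open MeasureTheory Set Filter Topology Esc
open scoped ContDiff

variable {E : Type*} [NormedAddCommGroup E] [InnerProductSpace ℝ E] [FiniteDimensional ℝ E]
  {l : E → E → ℝ → ℝ} {lu : E → E → ℝ → E} {v0 : E} {m Λ : ℝ}

theorem CK.lu_cont (hl : CK l lu v0 m Λ) : Continuous (fun p : E × E × ℝ => lu p.1 p.2.1 p.2.2) := by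
  rw [continuous_iff_continuousAt]
  intro q
  rw [ContinuousAt, tendsto_iff_norm_sub_tendsto_zero]
  have h1 : Tendsto (fun p : E × E × ℝ => Λ * (‖p.1 - q.1‖ + ‖p.2.1 - q.2.1‖ + |p.2.2 - q.2.2|))
      (𝓝 q) (𝓝 0) := by
    have h2 : Continuous (fun p : E × E × ℝ =>
        Λ * (‖p.1 - q.1‖ + ‖p.2.1 - q.2.1‖ + |p.2.2 - q.2.2|)) := by fun_prop
    have h3 := h2.tendsto q
    simpa using h3
  refine squeeze_zero (fun _ => norm_nonneg _) (fun p => ?_) h1
  exact hl.lu_lip _ _ _ _ _ _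

theorem CK.cont (hl : CK l lu v0 m Λ) : Continuous (fun p : E × E × ℝ => l p.1 p.2.1 p.2.2) := by
  rw [continuous_iff_continuousAt]
  intro q
  rw [ContinuousAt, tendsto_iff_norm_sub_tendsto_zero]
  have h1 : Tendsto (fun p : E × E × ℝ => Λ * ‖p.1 - q.1‖ + Λ * |p.2.2 - q.2.2| +
      (‖lu q.1 q.2.1 q.2.2‖ * ‖p.2.1 - q.2.1‖ + Λ * ‖p.2.1 - q.2.1‖ ^ 2)) (𝓝 q) (𝓝 0) := by
    have h2 : Continuous (fun p : E × E × ℝ => Λ * ‖p.1 - q.1‖ + Λ * |p.2.2 - q.2.2| +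
      (‖lu q.1 q.2.1 q.2.2‖ * ‖p.2.1 - q.2.1‖ + Λ * ‖p.2.1 - q.2.1‖ ^ 2)) := by fun_prop
    have h3 := h2.tendsto q
    simpa using h3
  refine squeeze_zero (fun _ => norm_nonneg _) (fun p => ?_) h1
  have a1 := hl.l_x p.1 q.1 p.2.1 p.2.2
  have a2 := hl.l_t q.1 p.2.1 p.2.2 q.2.2
  have a3 := hl.low q.1 p.2.1 q.2.1 q.2.2
  have a4 := hl.upp q.1 p.2.1 q.2.1 q.2.2
  have a5 := abs_le.mp (abs_real_inner_le_norm (lu q.1 q.2.1 q.2.2) (p.2.1 - q.2.1))
  have a6 : 0 ≤ m / 2 * ‖p.2.1 - q.2.1‖ ^ 2 := by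
    have := hl.m_pos
    positivity
  have a7 : |l q.1 p.2.1 q.2.2 - l q.1 q.2.1 q.2.2| ≤
      ‖lu q.1 q.2.1 q.2.2‖ * ‖p.2.1 - q.2.1‖ + Λ * ‖p.2.1 - q.2.1‖ ^ 2 := by
    have a8 : 0 ≤ Λ * ‖p.2.1 - q.2.1‖ ^ 2 := by
      have := hl.Λ_ge
      positivity
    rw [abs_le]
    constructor <;> linarith [a5.1, a5.2]
  have e : l p.1 p.2.1 p.2.2 - l q.1 q.2.1 q.2.2 = (l p.1 p.2.1 p.2.2 - l q.1 p.2.1 p.2.2) +
      (l q.1 p.2.1 p.2.2 - l q.1 p.2.1 q.2.2) + (l q.1 p.2.1 q.2.2 - l q.1 q.2.1 q.2.2) := by ring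
  rw [Real.norm_eq_abs, e]
  exact (abs_add_le _ _).trans (add_le_add ((abs_add_le _ _).trans (add_le_add a1 a2)) a7)

/-- pointwise bounds -/
theorem CK.lower (hl : CK l lu v0 m Λ) (x u : E) (t : ℝ) :
    m / 4 * ‖u - v0‖ ^ 2 - (Λ + Λ ^ 2 / m) ≤ l x u t := by
  have h1 := hl.low x u v0 t
  have h2 := (abs_le.mp (hl.c0 x t)).1
  have h3 := (abs_le.mp (abs_real_inner_le_norm (lu x v0 t) (u - v0))).1
  have h4 : ‖lu x v0 t‖ * ‖u - v0‖ ≤ Λ * ‖u - v0‖ :=
    mul_le_mul_of_nonneg_right (hl.c1 x t) (norm_nonneg _)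
  have hm := hl.m_pos
  have h5 : 0 ≤ (m * ‖u - v0‖ / 2 - Λ) ^ 2 / m := by positivity
  have h6 : (m * ‖u - v0‖ / 2 - Λ) ^ 2 / m = m / 4 * ‖u - v0‖ ^ 2 - Λ * ‖u - v0‖ + Λ ^ 2 / m := by
    field_simp
    ring
  rw [h6] at h5
  linarith

theorem CK.upper (hl : CK l lu v0 m Λ) (x u : E) (t : ℝ) : l x u t ≤ 2 * Λ * (‖u - v0‖ ^ 2 + 1) := by
  have h1 := hl.upp x u v0 t
  have h2 := (abs_le.mp (hl.c0 x t)).2
  have h3 := (abs_le.mp (abs_real_inner_le_norm (lu x v0 t) (u - v0))).2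
  have h4 : ‖lu x v0 t‖ * ‖u - v0‖ ≤ Λ * ‖u - v0‖ :=
    mul_le_mul_of_nonneg_right (hl.c1 x t) (norm_nonneg _)
  have h5 : Λ * ‖u - v0‖ ≤ Λ * (‖u - v0‖ ^ 2 + 1) := by
    refine mul_le_mul_of_nonneg_left ?_ (by linarith [hl.Λ_ge])
    nlinarith [sq_nonneg (‖u - v0‖ - 1), norm_nonneg (u - v0)]
  linarith

theorem CK.ii (hl : CK l lu v0 m Λ) {u : ℝ → E} (hu : Adm u) (a : ℝ) (z : E) (c d : ℝ) :
    IntervalIntegrable (fun t => l (traj a z u t) (u t) t) volume c d := by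
  have hc := traj_cont hu a z
  obtain ⟨hm, C, hC⟩ := hu
  have hΛ := hl.Λ_ge
  have hmp := hl.m_pos
  have hC0 : 0 ≤ C := (norm_nonneg _).trans (hC 0)
  rw [intervalIntegrable_iff]
  refine Measure.integrableOn_of_bounded
    (M := 2 * Λ * ((C + ‖v0‖) ^ 2 + 1) + (Λ + Λ ^ 2 / m)) (by simp) ?_ (ae_of_all _ fun t => ?_)
  · exact (hl.cont.comp_stronglyMeasurable
      (hc.stronglyMeasurable.prodMk (hm.prodMk stronglyMeasurable_id))).aestronglyMeasurable
  · have h1 := hl.lower (traj a z u t) (u t) t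
    have h2 := hl.upper (traj a z u t) (u t) t
    have h3 : ‖u t - v0‖ ≤ C + ‖v0‖ := (norm_sub_le _ _).trans (by linarith [hC t])
    have h4 : ‖u t - v0‖ ^ 2 ≤ (C + ‖v0‖) ^ 2 := pow_le_pow_left₀ (norm_nonneg _) h3 2
    have h5 : 2 * Λ * (‖u t - v0‖ ^ 2 + 1) ≤ 2 * Λ * ((C + ‖v0‖) ^ 2 + 1) :=
      mul_le_mul_of_nonneg_left (by linarith) (by linarith)
    have h6 : 0 ≤ m / 4 * ‖u t - v0‖ ^ 2 := by positivity
    have h7 : 0 ≤ 2 * Λ * ((C + ‖v0‖) ^ 2 + 1) := by positivity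
    have h8 : 0 ≤ Λ + Λ ^ 2 / m := by positivity
    rw [Real.norm_eq_abs, abs_le]
    constructor <;> linarith

theorem C1sq_ii {u : ℝ → E} (hu : Adm u) (v : E) (a b : ℝ) :
    IntervalIntegrable (fun t => ‖u t - v‖ ^ 2) volume a b := by
  have h := ((hu.sub_const v).sq_ii a b).const_mul 2
  refine h.congr fun t _ => ?_
  ring

/-- energy of controls -/
theorem energy_le (hl : CK l lu v0 m Λ) {a b : ℝ} (hab : a < b) (z : E) {u : ℝ → E} (hu : Adm u) :
    (∫ t in a..b, ‖u t - v0‖ ^ 2) ≤ 4 / m * (actl l a b z u + (Λ + Λ ^ 2 / m) * (b - a)) := by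
  have hm := hl.m_pos
  have h1 : (∫ t in a..b, (m / 4 * ‖u t - v0‖ ^ 2 - (Λ + Λ ^ 2 / m))) ≤ actl l a b z u :=
    intervalIntegral.integral_mono_on hab.le (((C1sq_ii hu v0 a b).const_mul _).sub (by simp))
      (hl.ii hu a z a b) fun t _ => hl.lower _ _ _
  rw [intervalIntegral.integral_sub ((C1sq_ii hu v0 a b).const_mul _) (by simp),
    intervalIntegral.integral_const_mul, intervalIntegral.integral_const, smul_eq_mul] at h1
  rw [div_mul_eq_mul_div, le_div_iff₀ hm]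
  linarith

theorem C1act_lower (hl : CK l lu v0 m Λ) {a b : ℝ} (hab : a < b) (z : E) {u : ℝ → E} (hu : Adm u) :
    m / 4 * ‖traj a z u b - z - (b - a) • v0‖ ^ 2 / (b - a) - (Λ + Λ ^ 2 / m) * (b - a) ≤
      actl l a b z u := by
  have hm := hl.m_pos
  have hba : 0 < b - a := by linarith
  have h1 := energy_le hl hab z hu
  have h2 := jensen (hu.sub_const v0) hab
  have h3 : (∫ t in a..b, (u t - v0)) = traj a z u b - z - (b - a) • v0 := by
    rw [intervalIntegral.integral_sub (hu.ii a b) (by simp)]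
    simp [traj]
  rw [h3, intervalIntegral.integral_div, div_le_iff₀ (by positivity)] at h2
  have h4 : ‖traj a z u b - z - (b - a) • v0‖ ^ 2 ≤ (∫ t in a..b, ‖u t - v0‖ ^ 2) * (b - a) := by
    linarith
  have h5 : ‖traj a z u b - z - (b - a) • v0‖ ^ 2 / (b - a) ≤ ∫ t in a..b, ‖u t - v0‖ ^ 2 := by
    rw [div_le_iff₀ hba]; exact h4
  have h6 := h5.trans h1
  rw [div_mul_eq_mul_div, le_div_iff₀ hm] at h6
  rw [mul_div_assoc]
  linarith

theorem C1bdd (hl : CK l lu v0 m Λ) {a b : ℝ} (hab : a < b) (z z' : E) :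
    BddBelow {c | ∃ u : ℝ → E, Adm u ∧ traj a z u b = z' ∧ c = actl l a b z u} := by
  refine ⟨- ((Λ + Λ ^ 2 / m) * (b - a)), ?_⟩
  rintro c ⟨u, hu, -, rfl⟩
  have h := C1act_lower hl hab z hu
  have h2 : 0 ≤ m / 4 * ‖traj a z u b - z - (b - a) • v0‖ ^ 2 / (b - a) := by
    have : 0 < b - a := by linarith
    have := hl.m_pos
    positivity
  linarith

theorem C1ne (l : E → E → ℝ → ℝ) {a b : ℝ} (hab : a < b) (z z' : E) :
    {c | ∃ u : ℝ → E, Adm u ∧ traj a z u b = z' ∧ c = actl l a b z u}.Nonempty :=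
  ⟨_, _, Adm.const _, traj_line z z' hab, rfl⟩

theorem kerl_le (hl : CK l lu v0 m Λ) {a b : ℝ} (hab : a < b) {z z' : E} {u : ℝ → E} (hu : Adm u)
    (h : traj a z u b = z') : kerl l a b z z' ≤ actl l a b z u :=
  csInf_le (C1bdd hl hab z z') ⟨u, hu, h, rfl⟩

theorem exists_kerl_lt (_hl : CK l lu v0 m Λ) {a b : ℝ} (hab : a < b) (z z' : E) {ε : ℝ} (hε : 0 < ε) :
    ∃ u, Adm u ∧ traj a z u b = z' ∧ actl l a b z u < kerl l a b z z' + ε := by
  have := Real.lt_sInf_add_pos (C1ne l hab z z') hε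
  obtain ⟨_, ⟨u, hu, hz, rfl⟩, h⟩ := this
  exact ⟨u, hu, hz, h⟩

theorem le_kerl {l : E → E → ℝ → ℝ} {a b : ℝ} (hab : a < b) (z z' : E) {c : ℝ}
    (h : ∀ u, Adm u → traj a z u b = z' → c ≤ actl l a b z u) : c ≤ kerl l a b z z' := by
  refine le_csInf (C1ne l hab z z') ?_
  rintro _ ⟨u, hu, hz, rfl⟩
  exact h u hu hz

theorem kerl_lower (hl : CK l lu v0 m Λ) {a b : ℝ} (hab : a < b) (z z' : E) :
    m / 4 * ‖z' - z - (b - a) • v0‖ ^ 2 / (b - a) - (Λ + Λ ^ 2 / m) * (b - a) ≤ kerl l a b z z' := by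
  apply le_kerl hab
  rintro u hu rfl
  exact C1act_lower hl hab z hu

theorem kerl_upper (hl : CK l lu v0 m Λ) {a b : ℝ} (hab : a < b) (z z' : E) :
    kerl l a b z z' ≤ 2 * Λ * (‖z' - z - (b - a) • v0‖ ^ 2 / (b - a) + (b - a)) := by
  have hba : 0 < b - a := by linarith
  refine (kerl_le hl hab (Adm.const _) (traj_line z z' hab)).trans ?_
  have h1 : actl l a b z (fun _ => (1 / (b - a)) • (z' - z)) ≤
      ∫ _t in a..b, 2 * Λ * (‖(1 / (b - a)) • (z' - z) - v0‖ ^ 2 + 1) :=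
    intervalIntegral.integral_mono_on hab.le (hl.ii (Adm.const _) a z a b) (by simp)
      fun t _ => hl.upper _ _ _
  refine h1.trans (le_of_eq ?_)
  have e : (1 / (b - a)) • (z' - z) - v0 = (1 / (b - a)) • (z' - z - (b - a) • v0) := by
    rw [smul_sub _ (z' - z), smul_smul, one_div_mul_cancel hba.ne', one_smul]
  rw [intervalIntegral.integral_const, smul_eq_mul, e, norm_smul, mul_pow,
    Real.norm_of_nonneg (by positivity)]
  field_simp

/-- adding an affine function of the velocity -/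
theorem kerl_affine (hl : CK l lu v0 m Λ) (p : E) (c : ℝ) {a b : ℝ} (hab : a < b) (z z' : E) :
    kerl (fun x u t => l x u t - inner ℝ p u - c) a b z z' =
      kerl l a b z z' - inner ℝ p (z' - z) - c * (b - a) := by
  have key : ∀ u, Adm u → traj a z u b = z' → actl (fun x u t => l x u t - inner ℝ p u - c) a b z u =
      actl l a b z u - inner ℝ p (z' - z) - c * (b - a) := by
    rintro u hu rfl
    unfold actl
    rw [intervalIntegral.integral_sub ((hl.ii hu a z a b).sub (hu.inner_ii p a b)) (by simp),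
      intervalIntegral.integral_sub (hl.ii hu a z a b) (hu.inner_ii p a b),
      intervalIntegral.integral_const, smul_eq_mul]
    have e2 : (∫ t in a..b, inner ℝ p (u t)) = inner ℝ p (traj a z u b - z) := by
      have := (innerSL ℝ p).intervalIntegral_comp_comm (hu.ii a b)
      simpa [traj] using this
    rw [e2]
    ring
  have hbdd : BddBelow {x | ∃ u : ℝ → E, Adm u ∧ traj a z u b = z' ∧
      x = actl (fun x u t => l x u t - inner ℝ p u - c) a b z u} := by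
    refine ⟨kerl l a b z z' - inner ℝ p (z' - z) - c * (b - a), ?_⟩
    rintro _ ⟨u, hu, h, rfl⟩
    rw [key u hu h]
    have := kerl_le hl hab hu h
    linarith
  apply le_antisymm
  · have h1 : kerl (fun x u t => l x u t - inner ℝ p u - c) a b z z' + inner ℝ p (z' - z) +
        c * (b - a) ≤ kerl l a b z z' := by
      apply le_kerl hab
      intro u hu h
      have h2 : kerl (fun x u t => l x u t - inner ℝ p u - c) a b z z' ≤
          actl (fun x u t => l x u t - inner ℝ p u - c) a b z u := csInf_le hbdd ⟨u, hu, h, rfl⟩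
      rw [key u hu h] at h2
      linarith
    linarith
  · apply le_kerl hab
    intro u hu h
    rw [key u hu h]
    have := kerl_le hl hab hu h
    linarith

end EscF
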