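import Pool.Agent.EscF.CDefs
import Pool.Agent.EscF.C1
import Pool.Agent.helper42.Esc.K

/-!
Project EscF, module C2: dynamic programming for the kernels of general Lagrangians, invariance
under the time period.
-/

noncomputable section

namespace EscF

open MeasureTheory Set Filter Topology Esc
open scoped ContDiff

namespace C2X

variable {E : Type*} [NormedAddCommGroup E] [InnerProductSpace ℝ E] [FiniteDimensional ℝ E]
  {l : E → E → ℝ → ℝ} {lu : E → E → ℝ → E} {v0 : E} {m Λ : ℝ}

theorem actl_split (hl : CK l lu v0 m Λ) (a b c : ℝ) (z : E) {u : ℝ → E} (hu : Adm u) :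
    actl l a c z u = actl l a b z u + actl l b c (traj a z u b) u := by
  have h1 : actl l b c (traj a z u b) u = ∫ t in b..c, l (traj a z u t) (u t) t := by
    unfold actl
    refine intervalIntegral.integral_congr fun t _ => ?_
    show l (traj b (traj a z u b) u t) (u t) t = l (traj a z u t) (u t) t
    rw [← traj_split hu a b z t]
  rw [h1]
  unfold actl
  rw [intervalIntegral.integral_add_adjacent_intervals (CK.ii hl hu a z _ _) (CK.ii hl hu a z _ _)]

theorem actl_cat (hl : CK l lu v0 m Λ) {a b c : ℝ} (hab : a ≤ b) (hbc : b ≤ c) (z : E)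
    {u₁ u₂ : ℝ → E} (h₁ : Adm u₁) (h₂ : Adm u₂) :
    actl l a c z (cat b u₁ u₂) = actl l a b z u₁ + actl l b c (traj a z u₁ b) u₂ := by
  rw [actl_split hl a b c z (h₁.cat h₂ b), traj_cat_left hab le_rfl]
  congr 1
  · unfold actl
    apply intervalIntegral.integral_congr
    intro t ht
    rw [uIcc_of_le hab] at ht
    simp only
    rw [traj_cat_left hab ht.2]
    simp [cat, ht.2]
  · unfold actl
    apply intervalIntegral.integral_congr_ae
    refine ae_of_all _ fun t ht => ?_
    rw [uIoc_of_le hbc] at ht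
    rw [traj_congr_right _ ht.1.le]
    simp [cat, not_le.mpr ht.1]

theorem actl_comp_add {c : ℝ} (h : ∀ x u t, l x u (t + c) = l x u t) (a b : ℝ)
    (z : E) (u : ℝ → E) : actl l a b z (fun s => u (s + c)) = actl l (a + c) (b + c) z u := by
  unfold actl
  rw [← intervalIntegral.integral_comp_add_right
    (fun t => l (traj (a + c) z u t) (u t) t) c]
  refine intervalIntegral.integral_congr fun t _ => ?_
  show l (traj a z (fun s => u (s + c)) t) (u (t + c)) t =
    l (traj (a + c) z u (t + c)) (u (t + c)) (t + c)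
  rw [traj_comp_add, h]

end C2X

open C2X

variable {E : Type*} [NormedAddCommGroup E] [InnerProductSpace ℝ E] [FiniteDimensional ℝ E]
  {l : E → E → ℝ → ℝ} {lu : E → E → ℝ → E} {v0 : E} {m Λ : ℝ}

/-- dynamic programming -/
theorem kerl_le_add (hl : CK l lu v0 m Λ) {a b c : ℝ} (hab : a < b) (hbc : b < c) (z x z' : E) :
    kerl l a c z z' ≤ kerl l a b z x + kerl l b c x z' := by
  apply le_of_forall_pos_le_add
  intro ε hε
  obtain ⟨u₁, h₁, e₁, l₁⟩ := exists_kerl_lt hl hab z x (half_pos hε)
  obtain ⟨u₂, h₂, e₂, l₂⟩ := exists_kerl_lt hl hbc x z' (half_pos hε)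
  have h3 := kerl_le hl (hab.trans hbc) (z := z) (z' := z') (h₁.cat h₂ b)
    (by rw [traj_cat_right h₁ h₂ hab.le hbc.le, e₁, e₂])
  rw [actl_cat hl hab.le hbc.le z h₁ h₂, e₁] at h3
  linarith

/-- splitting of the action -/
theorem add_kerl_le (hl : CK l lu v0 m Λ) {a b c : ℝ} (hab : a < b) (hbc : b < c) (z : E) {u : ℝ → E}
    (hu : Adm u) : kerl l a b z (traj a z u b) + kerl l b c (traj a z u b) (traj a z u c) ≤
      actl l a c z u := by
  rw [actl_split hl a b c z hu]
  have h1 := kerl_le hl hab (z := z) hu rfl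
  have h2 := kerl_le hl hbc (z := traj a z u b) (z' := traj a z u c) hu
    (traj_split hu a b z c).symm
  linarith

theorem kerl_time (h : ∀ x u t, l x u (t + 1) = l x u t) (a b : ℝ) (z z' : E) :
    kerl l (a + 1) (b + 1) z z' = kerl l a b z z' := by
  unfold kerl
  congr 1
  ext c
  constructor
  · rintro ⟨u, hu, h1, h2⟩
    exact ⟨fun s => u (s + 1), hu.comp_add 1, by rw [traj_comp_add, h1], by rw [h2, actl_comp_add h]⟩
  · rintro ⟨u, hu, h1, h2⟩
    have hu' : (fun s => (fun r => u (r + -1)) (s + 1)) = u := by ext s; simp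
    refine ⟨fun s => u (s + -1), hu.comp_add (-1), ?_, ?_⟩
    · rw [← traj_comp_add (u := fun r => u (r + -1)) a 1 z b, hu', h1]
    · rw [← actl_comp_add h, hu', h2]

end EscF
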