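import Pool.Agent.EscF.C1
import Pool.Agent.helper42.Esc.K

/-!
Project EscF, module C3: dependence of the kernel of a general Lagrangian on the end points.
-/

noncomputable section

namespace EscF

open MeasureTheory Set Filter Topology Esc
open scoped ContDiff

section C

variable {E : Type*} [NormedAddCommGroup E] [InnerProductSpace ℝ E] [FiniteDimensional ℝ E]
  {l : E → E → ℝ → ℝ} {lu : E → E → ℝ → E} {v0 : E} {m Λ : ℝ}

namespace C3

/-- Cauchy-Schwarz for an admissible control -/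
theorem int_norm_le {u : ℝ → E} (hu : Adm u) {a b : ℝ} (hab : a < b) :
    (∫ t in a..b, ‖u t‖) ≤ Real.sqrt ((b - a) * ∫ t in a..b, ‖u t‖ ^ 2) := by
  have hba : 0 < b - a := by linarith
  have hn : IntervalIntegrable (fun t => ‖u t‖) volume a b := (hu.ii a b).norm
  have hs : IntervalIntegrable (fun t => ‖u t‖ ^ 2) volume a b := by
    have h := (hu.sq_ii a b).mul_const 2
    have e : (fun t => ‖u t‖ ^ 2 / 2 * 2) = fun t => ‖u t‖ ^ 2 := by
      funext t
      ring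
    rwa [e] at h
  set I := ∫ t in a..b, ‖u t‖ with hI
  set J := ∫ t in a..b, ‖u t‖ ^ 2 with hJ
  have hI0 : 0 ≤ I := intervalIntegral.integral_nonneg hab.le (fun t _ => norm_nonneg _)
  have h0 : 0 ≤ ∫ t in a..b, (‖u t‖ - I / (b - a)) ^ 2 :=
    intervalIntegral.integral_nonneg hab.le (fun t _ => sq_nonneg _)
  have h1 : (∫ t in a..b, (‖u t‖ - I / (b - a)) ^ 2) =
      J - 2 * (I / (b - a)) * I + (b - a) * (I / (b - a)) ^ 2 := by
    have e1 : ∀ t, (‖u t‖ - I / (b - a)) ^ 2 =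
        ‖u t‖ ^ 2 - 2 * (I / (b - a)) * ‖u t‖ + (I / (b - a)) ^ 2 := by
      intro t
      ring
    simp_rw [e1]
    rw [intervalIntegral.integral_add (hs.sub (hn.const_mul _)) (by simp),
      intervalIntegral.integral_sub hs (hn.const_mul _), intervalIntegral.integral_const_mul]
    simp only [intervalIntegral.integral_const, smul_eq_mul]
    rw [← hI, ← hJ]
  rw [h1] at h0
  have h2 : J - 2 * (I / (b - a)) * I + (b - a) * (I / (b - a)) ^ 2 = J - I ^ 2 / (b - a) := by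
    field_simp
    ring
  rw [h2] at h0
  have h3 : I ^ 2 ≤ (b - a) * J := by
    have h4 : I ^ 2 / (b - a) ≤ J := by linarith
    rw [div_le_iff₀ hba] at h4
    linarith
  calc I = Real.sqrt (I ^ 2) := (Real.sqrt_sq hI0).symm
    _ ≤ _ := Real.sqrt_le_sqrt h3

omit [FiniteDimensional ℝ E] in
theorem lu_bd (hl : CK l lu v0 m Λ) (x v : E) (t : ℝ) : ‖lu x v t‖ ≤ Λ * (1 + ‖v - v0‖) := by
  have h1 := hl.lu_lip x v t x v0 t
  rw [sub_self, sub_self, norm_zero, abs_zero, zero_add, add_zero] at h1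
  have h2 := hl.c1 x t
  have h3 : ‖lu x v t‖ ≤ ‖lu x v t - lu x v0 t‖ + ‖lu x v0 t‖ := by
    have := norm_add_le (lu x v t - lu x v0 t) (lu x v0 t)
    rwa [sub_add_cancel] at this
  linarith

theorem var_eps (hl : CK l lu v0 m Λ) {a b : ℝ} (hab : a < b) (z z' ζ ξ : E) {r N : ℝ}
    (hζ : ‖ζ‖ ≤ r) (hξ : ‖ξ‖ ≤ r) (hN : kerl l a b z z' ≤ N) {ε : ℝ} (hε : 0 < ε) :
    kerl l a b (z + ζ) (z' + ξ) ≤ kerl l a b z z' + ε + Λ * r * (b - a) +
      Λ * ‖ξ - ζ‖ ^ 2 / (b - a) +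
      Λ * ‖ξ - ζ‖ * (1 + Real.sqrt (4 / m * (N + ε + (Λ + Λ ^ 2 / m) * (b - a)) / (b - a))) := by
  have hba : 0 < b - a := by linarith
  have hm := hl.m_pos
  have hΛ : 0 ≤ Λ := by linarith [hl.Λ_ge]
  obtain ⟨u, hu, hz, hact⟩ := exists_kerl_lt hl hab z z' hε
  set w : E := (1 / (b - a)) • (ξ - ζ) with hw
  have hwn : ‖w‖ = ‖ξ - ζ‖ / (b - a) := by
    rw [hw, norm_smul, Real.norm_of_nonneg (by positivity)]
    ring
  have hu' : Adm (fun s => u s + w) := hu.add_const w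
  have htr : ∀ t, traj a (z + ζ) (fun s => u s + w) t = traj a z u t + (ζ + (t - a) • w) := by
    intro t
    rw [traj_shift hu a z (z + ζ) w t, add_sub_cancel_left, add_assoc]
  have hend : traj a (z + ζ) (fun s => u s + w) b = z' + ξ := by
    rw [htr b, hz, hw, smul_smul, mul_one_div_cancel hba.ne', one_smul]
    abel
  have hη : ∀ t ∈ Icc a b, ‖ζ + (t - a) • w‖ ≤ r := by
    intro t ht
    have e : ζ + (t - a) • w = (1 - (t - a) / (b - a)) • ζ + ((t - a) / (b - a)) • ξ := by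
      rw [hw, smul_smul, mul_one_div]
      module
    rw [e]
    refine (norm_add_le _ _).trans ?_
    rw [norm_smul, norm_smul]
    have h6 : 0 ≤ (t - a) / (b - a) := div_nonneg (by linarith [ht.1]) hba.le
    have h7 : (t - a) / (b - a) ≤ 1 := by rw [div_le_one hba]; linarith [ht.2]
    rw [Real.norm_of_nonneg (by linarith), Real.norm_of_nonneg h6]
    nlinarith
  have hsq : IntervalIntegrable (fun t => ‖u t - v0‖) volume a b := ((hu.sub_const v0).ii a b).norm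
  -- pointwise bound
  have hpt : ∀ t ∈ Icc a b, l (traj a (z + ζ) (fun s => u s + w) t) (u t + w) t ≤
      l (traj a z u t) (u t) t + (Λ * ‖w‖ * ‖u t - v0‖ + (Λ * ‖w‖ + Λ * ‖w‖ ^ 2 + Λ * r)) := by
    intro t ht
    have h1 := hl.l_x (traj a (z + ζ) (fun s => u s + w) t) (traj a z u t) (u t + w) t
    rw [htr t, add_sub_cancel_left] at h1
    have h2 := (abs_le.1 h1).2
    have h3 := hl.upp (traj a z u t) (u t + w) (u t) t
    rw [add_sub_cancel_left] at h3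
    have h4 : inner ℝ (lu (traj a z u t) (u t) t) w ≤ Λ * (1 + ‖u t - v0‖) * ‖w‖ := by
      refine (real_inner_le_norm _ _).trans ?_
      exact mul_le_mul_of_nonneg_right (lu_bd hl _ _ _) (norm_nonneg _)
    have h5 : Λ * ‖ζ + (t - a) • w‖ ≤ Λ * r := mul_le_mul_of_nonneg_left (hη t ht) hΛ
    rw [htr t]
    nlinarith
  have h1 : kerl l a b (z + ζ) (z' + ξ) ≤ actl l a b (z + ζ) (fun s => u s + w) :=
    kerl_le hl hab hu' hend
  have h2 : actl l a b (z + ζ) (fun s => u s + w) ≤ actl l a b z u +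
      (Λ * ‖w‖ * (∫ t in a..b, ‖u t - v0‖) + (b - a) * (Λ * ‖w‖ + Λ * ‖w‖ ^ 2 + Λ * r)) := by
    unfold actl
    have h3 := intervalIntegral.integral_mono_on hab.le (hl.ii hu' a (z + ζ) a b)
      ((hl.ii hu a z a b).add ((hsq.const_mul (Λ * ‖w‖)).add
        (intervalIntegrable_const (c := Λ * ‖w‖ + Λ * ‖w‖ ^ 2 + Λ * r)))) hpt
    refine h3.trans (le_of_eq ?_)
    rw [intervalIntegral.integral_add (hl.ii hu a z a b)
        ((hsq.const_mul (Λ * ‖w‖)).add intervalIntegrable_const),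
      intervalIntegral.integral_add (hsq.const_mul (Λ * ‖w‖)) intervalIntegrable_const,
      intervalIntegral.integral_const_mul]
    simp only [intervalIntegral.integral_const, smul_eq_mul]
  have h3 : (∫ t in a..b, ‖u t - v0‖) ≤
      Real.sqrt ((b - a) * (4 / m * (N + ε + (Λ + Λ ^ 2 / m) * (b - a)))) := by
    refine (int_norm_le (hu.sub_const v0) hab).trans (Real.sqrt_le_sqrt ?_)
    refine mul_le_mul_of_nonneg_left ?_ hba.le
    refine (energy_le hl hab z hu).trans ?_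
    refine mul_le_mul_of_nonneg_left ?_ (by positivity)
    linarith
  have h4 : ‖w‖ * Real.sqrt ((b - a) * (4 / m * (N + ε + (Λ + Λ ^ 2 / m) * (b - a)))) =
      ‖ξ - ζ‖ * Real.sqrt (4 / m * (N + ε + (Λ + Λ ^ 2 / m) * (b - a)) / (b - a)) := by
    have e : (b - a) * (4 / m * (N + ε + (Λ + Λ ^ 2 / m) * (b - a))) =
        (b - a) ^ 2 * (4 / m * (N + ε + (Λ + Λ ^ 2 / m) * (b - a)) / (b - a)) := by
      field_simp
    rw [e, Real.sqrt_mul (sq_nonneg _), Real.sqrt_sq hba.le, hwn]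
    field_simp
  have h5 : Λ * ‖w‖ * (∫ t in a..b, ‖u t - v0‖) ≤
      Λ * (‖ξ - ζ‖ * Real.sqrt (4 / m * (N + ε + (Λ + Λ ^ 2 / m) * (b - a)) / (b - a))) := by
    rw [← h4, ← mul_assoc]
    exact mul_le_mul_of_nonneg_left h3 (by positivity)
  have h6 : (b - a) * (Λ * ‖w‖ + Λ * ‖w‖ ^ 2 + Λ * r) =
      Λ * ‖ξ - ζ‖ + Λ * ‖ξ - ζ‖ ^ 2 / (b - a) + Λ * r * (b - a) := by
    rw [hwn]
    field_simp
  rw [h6] at h2
  have h7 : Λ * ‖ξ - ζ‖ * (1 + Real.sqrt (4 / m * (N + ε + (Λ + Λ ^ 2 / m) * (b - a)) / (b - a))) =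
      Λ * ‖ξ - ζ‖ + Λ * (‖ξ - ζ‖ *
        Real.sqrt (4 / m * (N + ε + (Λ + Λ ^ 2 / m) * (b - a)) / (b - a))) := by ring
  rw [h7]
  linarith

end C3

/-- variation of the end points -/
theorem kerl_var (hl : CK l lu v0 m Λ) {a b : ℝ} (hab : a < b) (z z' ζ ξ : E) {r N : ℝ} (hζ : ‖ζ‖ ≤ r)
    (hξ : ‖ξ‖ ≤ r) (hN : kerl l a b z z' ≤ N) :
    kerl l a b (z + ζ) (z' + ξ) ≤ kerl l a b z z' + Λ * r * (b - a) + Λ * ‖ξ - ζ‖ ^ 2 / (b - a) +
      Λ * ‖ξ - ζ‖ * (1 + Real.sqrt (4 / m * (N + (Λ + Λ ^ 2 / m) * (b - a)) / (b - a))) := by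
  have hc : Continuous fun ε : ℝ => kerl l a b z z' + ε + Λ * r * (b - a) +
      Λ * ‖ξ - ζ‖ ^ 2 / (b - a) +
      Λ * ‖ξ - ζ‖ * (1 + Real.sqrt (4 / m * (N + ε + (Λ + Λ ^ 2 / m) * (b - a)) / (b - a))) := by
    fun_prop
  have ht := (hc.tendsto 0).mono_left (nhdsWithin_le_nhds (s := Ioi (0 : ℝ)))
  rw [add_zero, add_zero] at ht
  refine ge_of_tendsto ht ?_
  filter_upwards [self_mem_nhdsWithin] with ε hε
  exact C3.var_eps hl hab z z' ζ ξ hζ hξ hN hε

theorem kerl_continuous (hl : CK l lu v0 m Λ) {a b : ℝ} (hab : a < b) :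
    Continuous (fun p : E × E => kerl l a b p.1 p.2) := by
  rw [continuous_iff_continuousAt]
  rintro ⟨z, z'⟩
  have hba : 0 < b - a := by linarith
  -- the error term with the kernel at `q` bounded by `kerl_upper`
  set U : E × E → ℝ := fun q => 2 * Λ * (‖q.2 - q.1 - (b - a) • v0‖ ^ 2 / (b - a) + (b - a)) with hU
  have hvar : ∀ q p : E × E, kerl l a b p.1 p.2 ≤ kerl l a b q.1 q.2 +
      (Λ * (‖p.1 - q.1‖ + ‖p.2 - q.2‖) * (b - a) +
        Λ * ‖(p.2 - q.2) - (p.1 - q.1)‖ ^ 2 / (b - a) +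
        Λ * ‖(p.2 - q.2) - (p.1 - q.1)‖ *
          (1 + Real.sqrt (4 / m * (U q + (Λ + Λ ^ 2 / m) * (b - a)) / (b - a)))) := by
    intro q p
    have h := kerl_var hl hab q.1 q.2 (p.1 - q.1) (p.2 - q.2)
      (r := ‖p.1 - q.1‖ + ‖p.2 - q.2‖) (N := U q)
      (le_add_of_nonneg_right (norm_nonneg _)) (le_add_of_nonneg_left (norm_nonneg _))
      (kerl_upper hl hab q.1 q.2)
    rw [add_sub_cancel, add_sub_cancel] at h
    linarith
  have hUp : Tendsto (fun p : E × E => kerl l a b z z' +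
      (Λ * (‖p.1 - z‖ + ‖p.2 - z'‖) * (b - a) +
        Λ * ‖(p.2 - z') - (p.1 - z)‖ ^ 2 / (b - a) +
        Λ * ‖(p.2 - z') - (p.1 - z)‖ *
          (1 + Real.sqrt (4 / m * (U (z, z') + (Λ + Λ ^ 2 / m) * (b - a)) / (b - a)))))
      (𝓝 (z, z')) (𝓝 (kerl l a b z z')) := by
    have hc : Continuous (fun p : E × E => kerl l a b z z' +
      (Λ * (‖p.1 - z‖ + ‖p.2 - z'‖) * (b - a) +
        Λ * ‖(p.2 - z') - (p.1 - z)‖ ^ 2 / (b - a) +
        Λ * ‖(p.2 - z') - (p.1 - z)‖ *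
          (1 + Real.sqrt (4 / m * (U (z, z') + (Λ + Λ ^ 2 / m) * (b - a)) / (b - a))))) := by
      fun_prop
    have := hc.tendsto (z, z')
    simpa using this
  have hLo : Tendsto (fun p : E × E => kerl l a b z z' -
      (Λ * (‖z - p.1‖ + ‖z' - p.2‖) * (b - a) +
        Λ * ‖(z' - p.2) - (z - p.1)‖ ^ 2 / (b - a) +
        Λ * ‖(z' - p.2) - (z - p.1)‖ *
          (1 + Real.sqrt (4 / m * (U p + (Λ + Λ ^ 2 / m) * (b - a)) / (b - a)))))
      (𝓝 (z, z')) (𝓝 (kerl l a b z z')) := by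
    have hc : Continuous (fun p : E × E => kerl l a b z z' -
      (Λ * (‖z - p.1‖ + ‖z' - p.2‖) * (b - a) +
        Λ * ‖(z' - p.2) - (z - p.1)‖ ^ 2 / (b - a) +
        Λ * ‖(z' - p.2) - (z - p.1)‖ *
          (1 + Real.sqrt (4 / m * (U p + (Λ + Λ ^ 2 / m) * (b - a)) / (b - a))))) := by
      rw [hU]
      fun_prop
    have := hc.tendsto (z, z')
    simpa using this
  refine tendsto_of_tendsto_of_tendsto_of_le_of_le hLo hUp (fun p => ?_) (fun p => ?_)
  · have := hvar p (z, z')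
    simp only at this ⊢
    linarith
  · exact hvar (z, z') p

end C

end EscF
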