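import Pool.Agent.EscF.Defs
import Pool.Agent.EscF.C1
import Pool.Agent.EscF.C2
import Pool.Agent.EscF.C3
import Pool.Agent.helper42.Esc.K

/-!
Project EscF, module K: kernels at speed `s` (helper42).
-/

set_option linter.unusedSectionVars false

noncomputable section

namespace EscF

open MeasureTheory Set Filter Topology Esc EscN
open scoped ContDiff

section ModuleK

variable {d : ℕ} {E : Type*} [NormedAddCommGroup E] [InnerProductSpace ℝ E] [FiniteDimensional ℝ E]
  (L : SpL d E)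

theorem mem_S (x : E) : x ∈ L.S := by
  rw [L.S_univ]; exact mem_univ x

theorem inS (a b : ℝ) (z : E) (u : ℝ → E) : InS L.S a b z u := fun _ _ => mem_S L _

theorem dk_eq (n : Fin d → ℤ) (x : E) : L.dk n x = x + L.lv n := by
  unfold Sp.dk
  rw [L.O_id]

theorem gd_eq (x : E) : L.gd x = x + L.g := by
  unfold Sp.gd
  rw [L.Og_id]

theorem gi_eq (x : E) : L.gi x = x - L.g := by
  unfold Sp.gi
  have h : L.Og.symm x = x := by
    rw [LinearIsometryEquiv.symm_apply_eq, L.Og_id]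
  rw [h]

theorem klow (x u v : E) (t : ℝ) :
    L.l x v t + inner ℝ (L.lu x v t) (u - v) + L.m / 2 * ‖u - v‖ ^ 2 ≤ L.l x u t := L.l_low x u v t

theorem kupp (x u v : E) (t : ℝ) :
    L.l x u t ≤ L.l x v t + inner ℝ (L.lu x v t) (u - v) + L.Λ * ‖u - v‖ ^ 2 := by
  have h := (abs_le.mp (L.l_tay x v x u t)).2
  rw [sub_self, inner_zero_right, norm_zero, zero_add] at h
  linarith

/-- the Lagrangian at speed `s` -/
theorem lag_ck {M : ℝ} {f : E → ℝ → ℝ} (hf : Good M f) (s : ℝ) :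
    CK (L.lag f s) (fun x u t => L.lu x u t - L.mom s) (L.vel s) L.m (L.Λ + M) where
  m_pos := L.m_pos
  Λ_ge := by linarith [L.Λ_ge, hf.pos]
  low := by
    intro x u v t
    have h := klow L x u v t
    have e : inner ℝ (L.mom s) (u - L.vel s) = inner ℝ (L.mom s) (v - L.vel s) +
        inner ℝ (L.mom s) (u - v) := by
      rw [← inner_add_right]; congr 1; abel
    unfold SpL.lag
    rw [inner_sub_left, e]
    linarith
  upp := by
    intro x u v t
    have h := kupp L x u v t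
    have e : inner ℝ (L.mom s) (u - L.vel s) = inner ℝ (L.mom s) (v - L.vel s) +
        inner ℝ (L.mom s) (u - v) := by
      rw [← inner_add_right]; congr 1; abel
    have h2 : 0 ≤ M * ‖u - v‖ ^ 2 := mul_nonneg hf.pos (sq_nonneg _)
    unfold SpL.lag
    rw [inner_sub_left, e]
    linarith
  l_x := by
    intro x x' v t
    have h1 := L.l_x x x' v t
    have h2 := hf.lipx x x' t
    unfold SpL.lag
    have e : L.l x v t + f x t - L.h (L.vel s) - inner ℝ (L.mom s) (v - L.vel s) -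
        (L.l x' v t + f x' t - L.h (L.vel s) - inner ℝ (L.mom s) (v - L.vel s)) =
        (L.l x v t - L.l x' v t) + (f x t - f x' t) := by ring
    rw [e, add_mul]
    exact (abs_add_le _ _).trans (add_le_add h1 h2)
  l_t := by
    intro x v t t'
    have h1 := L.l_t x v t t'
    have h2 := hf.lipt x t t'
    unfold SpL.lag
    have e : L.l x v t + f x t - L.h (L.vel s) - inner ℝ (L.mom s) (v - L.vel s) -
        (L.l x v t' + f x t' - L.h (L.vel s) - inner ℝ (L.mom s) (v - L.vel s)) =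
        (L.l x v t - L.l x v t') + (f x t - f x t') := by ring
    rw [e, add_mul]
    exact (abs_add_le _ _).trans (add_le_add h1 h2)
  lu_lip := by
    intro x v t x' v' t'
    have h1 := L.lu_lip x v t x' v' t'
    have h2 : 0 ≤ M * (‖x - x'‖ + ‖v - v'‖ + |t - t'|) := mul_nonneg hf.pos (by positivity)
    have e : L.lu x v t - L.mom s - (L.lu x' v' t' - L.mom s) = L.lu x v t - L.lu x' v' t' := by abel
    rw [e, add_mul]
    linarith
  c0 := by
    intro x t
    have h1 := L.l_h x (L.vel s) t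
    have h2 := hf.bd x t
    unfold SpL.lag
    rw [sub_self, inner_zero_right, sub_zero]
    have e : L.l x (L.vel s) t + f x t - L.h (L.vel s) =
        (L.l x (L.vel s) t - L.h (L.vel s)) + f x t := by ring
    rw [e]
    exact (abs_add_le _ _).trans (add_le_add h1 h2)
  c1 := by
    intro x t
    have h1 := L.lu_h x (L.vel s) t
    have h2 := hf.pos
    show ‖L.lu x (L.vel s) t - L.gh (L.vel s)‖ ≤ _
    linarith

theorem lf_ck {M : ℝ} {f : E → ℝ → ℝ} (hf : Good M f) :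
    CK (L.lf f) L.lu 0 L.m (L.Λ + M + |L.h 0| + ‖L.gh 0‖) where
  m_pos := L.m_pos
  Λ_ge := by linarith [L.Λ_ge, hf.pos, abs_nonneg (L.h 0), norm_nonneg (L.gh 0)]
  low := by
    intro x u v t
    have h := klow L x u v t
    unfold SpL.lf
    linarith
  upp := by
    intro x u v t
    have h := kupp L x u v t
    have h2 : 0 ≤ (M + |L.h 0| + ‖L.gh 0‖) * ‖u - v‖ ^ 2 :=
      mul_nonneg (by linarith [hf.pos, abs_nonneg (L.h 0), norm_nonneg (L.gh 0)]) (sq_nonneg _)
    unfold SpL.lf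
    linarith
  l_x := by
    intro x x' v t
    have h1 := L.l_x x x' v t
    have h2 := hf.lipx x x' t
    have h3 : 0 ≤ (|L.h 0| + ‖L.gh 0‖) * ‖x - x'‖ := by positivity
    unfold SpL.lf
    have e : L.l x v t + f x t - (L.l x' v t + f x' t) =
        (L.l x v t - L.l x' v t) + (f x t - f x' t) := by ring
    rw [e]
    refine (abs_add_le _ _).trans ((add_le_add h1 h2).trans ?_)
    linarith
  l_t := by
    intro x v t t'
    have h1 := L.l_t x v t t'
    have h2 := hf.lipt x t t'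
    have h3 : 0 ≤ (|L.h 0| + ‖L.gh 0‖) * |t - t'| := by positivity
    unfold SpL.lf
    have e : L.l x v t + f x t - (L.l x v t' + f x t') =
        (L.l x v t - L.l x v t') + (f x t - f x t') := by ring
    rw [e]
    refine (abs_add_le _ _).trans ((add_le_add h1 h2).trans ?_)
    linarith
  lu_lip := by
    intro x v t x' v' t'
    have h1 := L.lu_lip x v t x' v' t'
    have h2 : 0 ≤ (M + |L.h 0| + ‖L.gh 0‖) * (‖x - x'‖ + ‖v - v'‖ + |t - t'|) :=
      mul_nonneg (by linarith [hf.pos, abs_nonneg (L.h 0), norm_nonneg (L.gh 0)]) (by positivity)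
    linarith
  c0 := by
    intro x t
    have h1 := abs_le.mp (L.l_h x 0 t)
    have h2 := abs_le.mp (hf.bd x t)
    have h3 := abs_le.mp (le_refl |L.h 0|)
    have h4 := norm_nonneg (L.gh 0)
    unfold SpL.lf
    rw [abs_le]
    constructor <;> linarith
  c1 := by
    intro x t
    have h1 := L.lu_h x 0 t
    have h2 : ‖L.lu x 0 t‖ ≤ ‖L.lu x 0 t - L.gh 0‖ + ‖L.gh 0‖ := by
      have := norm_add_le (L.lu x 0 t - L.gh 0) (L.gh 0)
      rwa [sub_add_cancel] at this
    linarith [hf.pos, abs_nonneg (L.h 0)]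

/-- pointwise bounds -/
theorem lag_lower {M : ℝ} {f : E → ℝ → ℝ} (hf : Good M f) (s : ℝ) (x u : E) (t : ℝ) :
    L.m / 2 * ‖u - L.vel s‖ ^ 2 - (L.Λ + M) ≤ L.lag f s x u t := by
  have h1 := (abs_le.mp (L.l_h x u t)).1
  have h2 := (abs_le.mp (hf.bd x t)).1
  have h3 : L.h (L.vel s) + inner ℝ (L.mom s) (u - L.vel s) + L.m / 2 * ‖u - L.vel s‖ ^ 2 ≤ L.h u :=
    L.h_low u (L.vel s)
  unfold SpL.lag
  linarith

theorem lag_upper {M : ℝ} {f : E → ℝ → ℝ} (hf : Good M f) (s : ℝ) (x u : E) (t : ℝ) :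
    L.lag f s x u t ≤ L.Λ * ‖u - L.vel s‖ ^ 2 + (L.Λ + M) := by
  have h1 := (abs_le.mp (L.l_h x u t)).2
  have h2 := (abs_le.mp (hf.bd x t)).2
  have h3 := L.h_low (L.vel s) u
  have h4 := L.gh_lip u (L.vel s)
  have e : inner ℝ (L.gh u) (L.vel s - u) = -(inner ℝ (L.mom s) (u - L.vel s) +
      inner ℝ (L.gh u - L.gh (L.vel s)) (u - L.vel s)) := by
    rw [inner_sub_left]
    show _ = -(inner ℝ (L.gh (L.vel s)) (u - L.vel s) + _)
    rw [← neg_sub u (L.vel s), inner_neg_right]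
    ring
  have h5 : inner ℝ (L.gh u - L.gh (L.vel s)) (u - L.vel s) ≤ L.Λ * ‖u - L.vel s‖ ^ 2 := by
    refine (real_inner_le_norm _ _).trans ?_
    have := mul_le_mul_of_nonneg_right h4 (norm_nonneg (u - L.vel s))
    nlinarith
  have h6 : 0 ≤ L.m / 2 * ‖L.vel s - u‖ ^ 2 := by
    have := L.m_pos
    positivity
  unfold SpL.lag
  rw [e] at h3
  linarith

theorem conn {a b : ℝ} (hab : a < b) {z z' : E} (hz : z ∈ L.S) (hz' : z' ∈ L.S) :
    ∃ u : ℝ → E, Adm u ∧ InS L.S a b z u ∧ traj a z u b = z' :=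
  ⟨_, Adm.const _, inS L a b z _, traj_line z z' hab⟩

theorem ker_eq {M : ℝ} {f : E → ℝ → ℝ} (hf : Good M f) (s : ℝ) {a b : ℝ} (hab : a < b) (z z' : E) :
    L.ker f s a b z z' = kerl (L.lf f) a b z z' - inner ℝ (L.mom s) (z' - z) -
      (b - a) * (L.h (L.vel s) - inner ℝ (L.mom s) (L.vel s)) := by
  have h := kerl_affine (lf_ck L hf) (L.mom s) (L.h (L.vel s) - inner ℝ (L.mom s) (L.vel s)) hab z z'
  have e : L.lag f s = fun x u t => L.lf f x u t - inner ℝ (L.mom s) u -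
      (L.h (L.vel s) - inner ℝ (L.mom s) (L.vel s)) := by
    funext x u t
    unfold SpL.lag SpL.lf
    rw [inner_sub_right]
    ring
  unfold SpL.ker
  rw [e, h]
  ring

theorem act_ii {M : ℝ} {f : E → ℝ → ℝ} (hf : Good M f) (s : ℝ) (a : ℝ) (z : E) {u : ℝ → E}
    (hu : Adm u) (c d : ℝ) :
    IntervalIntegrable (fun t => L.lag f s (traj a z u t) (u t) t) volume c d :=
  (lag_ck L hf s).ii hu a z c d

/-- the energy of a control is bounded by its action -/
theorem energy_le_act {M : ℝ} {f : E → ℝ → ℝ} (hf : Good M f) (s : ℝ) {a b : ℝ} (hab : a ≤ b) (z : E)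
    {u : ℝ → E} (hu : Adm u) :
    L.m * (∫ t in a..b, ‖u t - L.vel s‖ ^ 2 / 2) ≤ L.act f s a b z u + (L.Λ + M) * (b - a) := by
  have h1 : (∫ t in a..b, (L.m * (‖u t - L.vel s‖ ^ 2 / 2) - (L.Λ + M))) ≤ L.act f s a b z u := by
    refine intervalIntegral.integral_mono_on hab
      ((((hu.sub_const (L.vel s)).sq_ii a b).const_mul _).sub (by simp)) (act_ii L hf s a z hu a b)
      fun t _ => ?_
    have := lag_lower L hf s (traj a z u t) (u t) t
    linarith
  rw [intervalIntegral.integral_sub (((hu.sub_const (L.vel s)).sq_ii a b).const_mul _) (by simp),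
    intervalIntegral.integral_const_mul, intervalIntegral.integral_const, smul_eq_mul] at h1
  linarith

theorem act_lower {M : ℝ} {f : E → ℝ → ℝ} (hf : Good M f) (s : ℝ) {a b : ℝ} (hab : a < b) (z : E)
    {u : ℝ → E} (hu : Adm u) :
    L.m * ‖traj a z u b - z - (b - a) • L.vel s‖ ^ 2 / (2 * (b - a)) - (L.Λ + M) * (b - a) ≤
      L.act f s a b z u := by
  have h1 := energy_le_act L hf s hab.le z hu
  have h2 := jensen (hu.sub_const (L.vel s)) hab
  have h3 : (∫ t in a..b, (u t - L.vel s)) = traj a z u b - z - (b - a) • L.vel s := by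
    rw [intervalIntegral.integral_sub (hu.ii a b) (by simp)]
    simp [traj]
  rw [h3] at h2
  have h4 := mul_le_mul_of_nonneg_left h2 L.m_pos.le
  rw [← mul_div_assoc] at h4
  linarith

theorem act_line {M : ℝ} {f : E → ℝ → ℝ} (hf : Good M f) (s : ℝ) {a b : ℝ} (hab : a < b) (z z' : E) :
    L.act f s a b z (fun _ => (1 / (b - a)) • (z' - z)) ≤
      L.Λ * ‖z' - z - (b - a) • L.vel s‖ ^ 2 / (b - a) + (L.Λ + M) * (b - a) := by
  have hba : 0 < b - a := by linarith
  have h1 : L.act f s a b z (fun _ => (1 / (b - a)) • (z' - z)) ≤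
      ∫ _t in a..b, (L.Λ * ‖(1 / (b - a)) • (z' - z) - L.vel s‖ ^ 2 + (L.Λ + M)) := by
    refine intervalIntegral.integral_mono_on hab.le (act_ii L hf s a z (Adm.const _) a b) (by simp)
      fun t _ => ?_
    exact lag_upper L hf s _ _ t
  refine h1.trans (le_of_eq ?_)
  have e : (1 / (b - a)) • (z' - z) - L.vel s = (1 / (b - a)) • (z' - z - (b - a) • L.vel s) := by
    rw [smul_sub _ (z' - z), smul_smul, one_div_mul_cancel hba.ne', one_smul]
  rw [intervalIntegral.integral_const, smul_eq_mul, e, norm_smul, mul_pow,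
    Real.norm_of_nonneg (by positivity)]
  field_simp

theorem ker_le_act' {M : ℝ} {f : E → ℝ → ℝ} (hf : Good M f) (s : ℝ) {a b : ℝ} (hab : a < b) {z z' : E}
    {u : ℝ → E} (hu : Adm u) (_hS : InS L.S a b z u) (hz : traj a z u b = z') :
    L.ker f s a b z z' ≤ L.act f s a b z u := kerl_le (lag_ck L hf s) hab hu hz

theorem ker_le_act {M : ℝ} {f : E → ℝ → ℝ} (hf : Good M f) (s : ℝ) {a b : ℝ} (hab : a < b) (z : E)
    {u : ℝ → E} (hu : Adm u) (hS : InS L.S a b z u) :
    L.ker f s a b z (traj a z u b) ≤ L.act f s a b z u := ker_le_act' L hf s hab hu hS rfl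

theorem le_ker {f : E → ℝ → ℝ} {s : ℝ} {a b : ℝ} (hab : a < b) {z z' : E} (_hz : z ∈ L.S)
    (_hz' : z' ∈ L.S) {c : ℝ}
    (h : ∀ u, Adm u → InS L.S a b z u → traj a z u b = z' → c ≤ L.act f s a b z u) :
    c ≤ L.ker f s a b z z' := le_kerl hab z z' fun u hu hz => h u hu (inS L a b z u) hz

theorem ker_lower {M : ℝ} {f : E → ℝ → ℝ} (hf : Good M f) (s : ℝ) {a b : ℝ} (hab : a < b) {z z' : E}
    (hz : z ∈ L.S) (hz' : z' ∈ L.S) :
    L.m * ‖z' - z - (b - a) • L.vel s‖ ^ 2 / (2 * (b - a)) - (L.Λ + M) * (b - a) ≤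
      L.ker f s a b z z' := by
  apply le_ker L hab hz hz'
  rintro u hu - rfl
  exact act_lower L hf s hab z hu

theorem ker_upper {M : ℝ} {f : E → ℝ → ℝ} (hf : Good M f) (s : ℝ) {a b : ℝ} (hab : a < b)
    {z z' : E} (_hz : z ∈ L.S) (_hz' : z' ∈ L.S) :
    L.ker f s a b z z' ≤ L.Λ * ‖z' - z - (b - a) • L.vel s‖ ^ 2 / (b - a) + (L.Λ + M) * (b - a) :=
  (ker_le_act' L hf s hab (Adm.const _) (inS L a b z _) (traj_line z z' hab)).trans
    (act_line L hf s hab z z')

theorem exists_act_lt {M : ℝ} {f : E → ℝ → ℝ} (hf : Good M f) (s : ℝ) {a b : ℝ} (hab : a < b) {z z' : E}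
    (_hz : z ∈ L.S) (_hz' : z' ∈ L.S) {ε : ℝ} (hε : 0 < ε) :
    ∃ u, Adm u ∧ InS L.S a b z u ∧ traj a z u b = z' ∧ L.act f s a b z u < L.ker f s a b z z' + ε := by
  obtain ⟨u, h1, h2, h3⟩ := exists_kerl_lt (lag_ck L hf s) hab z z' hε
  exact ⟨u, h1, inS L a b z u, h2, h3⟩

theorem good_zero {M : ℝ} (hM : 0 ≤ M) : Good M (fun (_ : E) (_ : ℝ) => (0 : ℝ)) where
  pos := hM
  cont := continuous_const
  bd := fun _ _ => by simpa using hM
  lipx := fun x x' _ => by simpa using mul_nonneg hM (norm_nonneg (x - x'))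
  lipt := fun _ t t' => by simpa using mul_nonneg hM (abs_nonneg (t - t'))

/-- the action as kinetic part plus potential part -/
theorem act_eq {M : ℝ} {f : E → ℝ → ℝ} (hf : Good M f) (s : ℝ) (a b : ℝ) (z : E) {u : ℝ → E}
    (hu : Adm u) : L.act f s a b z u =
      L.act (fun _ _ => 0) s a b z u + ∫ t in a..b, f (traj a z u t) t := by
  unfold SpL.act actl
  rw [← intervalIntegral.integral_add (act_ii L (good_zero hf.pos) s a z hu a b)
    (f_traj_ii hf hu a z a b)]
  refine intervalIntegral.integral_congr fun t _ => ?_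
  unfold SpL.lag
  ring

theorem act_sub_le {M ρ : ℝ} {f f' : E → ℝ → ℝ} (hf : Good M f) (hf' : Good M f')
    (h : ∀ x ∈ L.S, ∀ t, f x t ≤ f' x t + ρ) (s : ℝ) {a b : ℝ} (hab : a ≤ b) (z : E) {u : ℝ → E}
    (hu : Adm u) : L.act f s a b z u ≤ L.act f' s a b z u + ρ * (b - a) := by
  rw [act_eq L hf s a b z hu, act_eq L hf' s a b z hu]
  have h1 : (∫ t in a..b, f (traj a z u t) t) ≤ ∫ t in a..b, (f' (traj a z u t) t + ρ) :=
    intervalIntegral.integral_mono_on hab (f_traj_ii hf hu a z a b)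
      ((f_traj_ii hf' hu a z a b).add (by simp)) (fun t _ => h _ (mem_S L _) _)
  rw [intervalIntegral.integral_add (f_traj_ii hf' hu a z a b) (by simp)] at h1
  simp only [intervalIntegral.integral_const, smul_eq_mul] at h1
  linarith

theorem ker_le_add {M ρ : ℝ} {f f' : E → ℝ → ℝ} (hf : Good M f) (hf' : Good M f')
    (h : ∀ x ∈ L.S, ∀ t, f x t ≤ f' x t + ρ) (s : ℝ) {a b : ℝ} (hab : a < b) {z z' : E}
    (hz : z ∈ L.S) (hz' : z' ∈ L.S) :
    L.ker f s a b z z' ≤ L.ker f' s a b z z' + ρ * (b - a) := by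
  have : L.ker f s a b z z' - ρ * (b - a) ≤ L.ker f' s a b z z' := by
    apply le_ker L hab hz hz'
    intro u hu hS hz
    have h1 := ker_le_act' L hf s hab hu hS hz
    have h2 := act_sub_le L hf hf' h s hab.le z hu
    linarith
  linarith

theorem ker_sub_le {M ρ : ℝ} {f f' : E → ℝ → ℝ} (hf : Good M f) (hf' : Good M f')
    (h : ∀ x ∈ L.S, ∀ t, |f x t - f' x t| ≤ ρ) (s : ℝ) {a b : ℝ} (hab : a < b) {z z' : E}
    (hz : z ∈ L.S) (hz' : z' ∈ L.S) :
    |L.ker f s a b z z' - L.ker f' s a b z z'| ≤ ρ * (b - a) := by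
  have h1 := ker_le_add L (ρ := ρ) hf hf'
    (fun x hx t => by linarith [(abs_le.mp (h x hx t)).2]) s hab hz hz'
  have h2 := ker_le_add L (ρ := ρ) hf' hf
    (fun x hx t => by linarith [(abs_le.mp (h x hx t)).1]) s hab hz hz'
  rw [abs_le]; constructor <;> linarith

theorem ker_mono {M : ℝ} {f f' : E → ℝ → ℝ} (hf : Good M f) (hf' : Good M f')
    (h : ∀ x t, f x t ≤ f' x t) (s : ℝ) {a b : ℝ} (hab : a < b) {z z' : E}
    (hz : z ∈ L.S) (hz' : z' ∈ L.S) : L.ker f s a b z z' ≤ L.ker f' s a b z z' := by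
  have := ker_le_add L (ρ := 0) hf hf' (fun x _ t => by linarith [h x t]) s hab hz hz'
  simpa using this

theorem ker_continuousOn {M : ℝ} {f : E → ℝ → ℝ} (hf : Good M f) (s : ℝ) {a b : ℝ} (hab : a < b) :
    ContinuousOn (fun p : E × E => L.ker f s a b p.1 p.2) (L.S ×ˢ L.S) :=
  (kerl_continuous (lag_ck L hf s) hab).continuousOn

theorem traj_trans (c : E) (u : ℝ → E) (a : ℝ) (z : E) (t : ℝ) :
    traj a (z + c) u t = traj a z u t + c := by
  unfold traj; abel

/-- translation invariance of kernels -/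
theorem kerl_trans {l : E → E → ℝ → ℝ} (c : E) (h : ∀ x u t, l (x + c) u t = l x u t) (a b : ℝ)
    (z z' : E) : kerl l a b (z + c) (z' + c) = kerl l a b z z' := by
  have e : ∀ u, actl l a b (z + c) u = actl l a b z u := by
    intro u
    unfold actl
    refine intervalIntegral.integral_congr fun t _ => ?_
    simp only [traj_trans, h]
  unfold kerl
  congr 1
  ext x
  constructor
  · rintro ⟨u, hu, h1, h2⟩
    exact ⟨u, hu, by rw [traj_trans] at h1; exact add_right_cancel h1, by rw [h2, e]⟩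
  · rintro ⟨u, hu, h1, h2⟩
    exact ⟨u, hu, by rw [traj_trans, h1], by rw [h2, e]⟩

theorem ker_dk {f : E → ℝ → ℝ} (n : Fin d → ℤ) (h : ∀ x t, f (L.dk n x) t = f x t) (s : ℝ)
    (a b : ℝ) (z z' : E) : L.ker f s a b (L.dk n z) (L.dk n z') = L.ker f s a b z z' := by
  unfold SpL.ker
  rw [dk_eq, dk_eq]
  refine kerl_trans (L.lv n) (fun x u t => ?_) a b z z'
  unfold SpL.lag
  rw [← dk_eq, L.l_dk, h]

theorem ker_gd {f : E → ℝ → ℝ} (h : ∀ x t, f (L.gd x) t = f x t) (s : ℝ)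
    (a b : ℝ) (z z' : E) : L.ker f s a b (L.gd z) (L.gd z') = L.ker f s a b z z' := by
  unfold SpL.ker
  rw [gd_eq, gd_eq]
  refine kerl_trans L.g (fun x u t => ?_) a b z z'
  unfold SpL.lag
  rw [← gd_eq, L.l_gd, h]

theorem ker_time {f : E → ℝ → ℝ} (h : ∀ x t, f x (t + 1) = f x t) (s : ℝ) (a b : ℝ) (z z' : E) :
    L.ker f s (a + 1) (b + 1) z z' = L.ker f s a b z z' := by
  unfold SpL.ker
  refine kerl_time (fun x u t => ?_) a b z z'
  unfold SpL.lag
  rw [L.l_per, h]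

theorem ker_le_ker_add {M : ℝ} {f : E → ℝ → ℝ} (hf : Good M f) (s : ℝ) {a b c : ℝ} (hab : a < b)
    (hbc : b < c) {z x z' : E} (_hz : z ∈ L.S) (_hx : x ∈ L.S) (_hz' : z' ∈ L.S) :
    L.ker f s a c z z' ≤ L.ker f s a b z x + L.ker f s b c x z' :=
  kerl_le_add (lag_ck L hf s) hab hbc z x z'

theorem energy01 {M B : ℝ} {f : E → ℝ → ℝ} (hf : Good M f) {s : ℝ} {u : ℝ → E} (hu : Adm u) {z : E}
    (hB : L.act f s 0 1 z u ≤ B + 1) :
    (∫ t in (0:ℝ)..1, ‖u t - L.vel s‖ ^ 2 / 2) ≤ L.tb B M / 2 := by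
  have h1 := energy_le_act L hf s zero_le_one z hu
  have h2 := L.m_pos
  unfold SpL.tb
  rw [div_div, le_div_iff₀ (by positivity)]
  linarith

/-- near-minimizers stay close to the free motion -/
theorem near_start {M B w : ℝ} {f : E → ℝ → ℝ} (hf : Good M f) {s : ℝ} {u : ℝ → E} (hu : Adm u) {z : E}
    (hB : L.act f s 0 1 z u ≤ B + 1) (hw : w ≤ 1) {t : ℝ} (ht : t ∈ Icc 0 w) :
    ‖traj 0 z u t - (z + t • L.vel s)‖ ≤ Real.sqrt (L.tb B M * w) := by
  have hE := energy01 L hf hu hB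
  rcases eq_or_lt_of_le ht.1 with h0 | h0
  · rw [← h0]
    simp [traj, Real.sqrt_nonneg]
  have h1 := jensen (hu.sub_const (L.vel s)) h0
  have e1 : (∫ r in (0:ℝ)..t, (u r - L.vel s)) = traj 0 z u t - (z + t • L.vel s) := by
    rw [intervalIntegral.integral_sub (hu.ii 0 t) (by simp)]
    simp only [traj, intervalIntegral.integral_const, sub_zero]
    abel
  rw [e1, sub_zero] at h1
  have h2 : (∫ r in (0:ℝ)..t, ‖u r - L.vel s‖ ^ 2 / 2) ≤ ∫ r in (0:ℝ)..1, ‖u r - L.vel s‖ ^ 2 / 2 := by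
    rw [← intervalIntegral.integral_add_adjacent_intervals ((hu.sub_const (L.vel s)).sq_ii 0 t)
      ((hu.sub_const (L.vel s)).sq_ii t 1)]
    have : 0 ≤ ∫ r in t..1, ‖u r - L.vel s‖ ^ 2 / 2 :=
      intervalIntegral.integral_nonneg (by linarith [ht.2]) fun r _ => by positivity
    linarith
  have h3 : 0 ≤ ∫ r in (0:ℝ)..t, ‖u r - L.vel s‖ ^ 2 / 2 :=
    intervalIntegral.integral_nonneg ht.1 fun r _ => by positivity
  apply Real.le_sqrt_of_sq_le
  rw [div_le_iff₀ (by positivity)] at h1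
  have h4 : (∫ r in (0:ℝ)..t, ‖u r - L.vel s‖ ^ 2 / 2) * (2 * t) ≤ (L.tb B M / 2) * (2 * w) := by
    apply mul_le_mul (h2.trans hE) (by linarith [ht.2]) (by linarith) (by linarith)
  linarith

theorem near_end {M B w : ℝ} {f : E → ℝ → ℝ} (hf : Good M f) {s : ℝ} {u : ℝ → E} (hu : Adm u) {z : E}
    (hB : L.act f s 0 1 z u ≤ B + 1) (hw : w ≤ 1) {t : ℝ} (ht : t ∈ Icc (1 - w) 1) :
    ‖traj 0 z u t - (traj 0 z u 1 - (1 - t) • L.vel s)‖ ≤ Real.sqrt (L.tb B M * w) := by
  have hE := energy01 L hf hu hB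
  rcases eq_or_lt_of_le ht.2 with h0 | h0
  · rw [h0]
    simp [Real.sqrt_nonneg]
  have h1 := jensen (hu.sub_const (L.vel s)) h0
  have e1 : (∫ r in t..1, (u r - L.vel s)) = -(traj 0 z u t - (traj 0 z u 1 - (1 - t) • L.vel s)) := by
    rw [intervalIntegral.integral_sub (hu.ii t 1) (by simp)]
    have : traj 0 z u 1 = traj 0 z u t + ∫ r in t..1, u r := by
      unfold traj
      rw [add_assoc, intervalIntegral.integral_add_adjacent_intervals (hu.ii 0 t) (hu.ii t 1)]
    rw [this]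
    simp only [intervalIntegral.integral_const]
    abel
  rw [e1, norm_neg] at h1
  have ht0 : 0 ≤ t := by linarith [ht.1]
  have h2 : (∫ r in t..1, ‖u r - L.vel s‖ ^ 2 / 2) ≤ ∫ r in (0:ℝ)..1, ‖u r - L.vel s‖ ^ 2 / 2 := by
    rw [← intervalIntegral.integral_add_adjacent_intervals ((hu.sub_const (L.vel s)).sq_ii 0 t)
      ((hu.sub_const (L.vel s)).sq_ii t 1)]
    have : 0 ≤ ∫ r in (0:ℝ)..t, ‖u r - L.vel s‖ ^ 2 / 2 :=
      intervalIntegral.integral_nonneg ht0 fun r _ => by positivity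
    linarith
  have h3 : 0 ≤ ∫ r in t..1, ‖u r - L.vel s‖ ^ 2 / 2 :=
    intervalIntegral.integral_nonneg h0.le fun r _ => by positivity
  apply Real.le_sqrt_of_sq_le
  have h5 : 0 < 1 - t := by linarith
  rw [div_le_iff₀ (by positivity)] at h1
  have h4 : (∫ r in t..1, ‖u r - L.vel s‖ ^ 2 / 2) * (2 * (1 - t)) ≤ (L.tb B M / 2) * (2 * w) := by
    apply mul_le_mul (h2.trans hE) (by linarith [ht.1]) (by linarith) (by linarith)
  linarith

end ModuleK

end EscF
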