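import Pool.Agent.EscF.K
import Pool.Agent.EscN.K2

/-!
Project EscF, module K2: the periodic kernel at speed `s`.
-/

set_option linter.unusedSectionVars false

noncomputable section

namespace EscF

open MeasureTheory Set Filter Topology Esc EscN intervalIntegral
open scoped ContDiff

section ModuleK2

variable {d : ℕ} {E : Type*} [NormedAddCommGroup E] [InnerProductSpace ℝ E] [FiniteDimensional ℝ E]
  (L : SpL d E)



theorem ker_ge_neg {M : ℝ} {f : E → ℝ → ℝ} (hf : Good M f) (s : ℝ) {z z' : E} (hz : z ∈ L.S)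
    (hz' : z' ∈ L.S) : -(L.Λ + M) ≤ L.ker f s 0 1 z z' := by
  have h1 := ker_lower L hf s one_pos hz hz'
  have h2 : 0 ≤ L.m * ‖z' - z - ((1:ℝ) - 0) • L.vel s‖ ^ 2 / (2 * (1 - 0)) := by
    have := L.m_pos
    positivity
  linarith

theorem kbar_bdd {M : ℝ} {f : E → ℝ → ℝ} (hf : Good M f) (s : ℝ) {z z' : E} (hz : z ∈ L.S)
    (hz' : z' ∈ L.S) :
    BddBelow (range fun n : Fin d → ℤ => L.ker f s 0 1 z (L.dk n z')) := by
  refine ⟨-(L.Λ + M), ?_⟩
  rintro _ ⟨n, rfl⟩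
  exact ker_ge_neg L hf s hz ((S_dk L.toSp n).mpr hz')

theorem kbar_le_ker {M : ℝ} {f : E → ℝ → ℝ} (hf : Good M f) (s : ℝ) {z z' : E} (hz : z ∈ L.S)
    (hz' : z' ∈ L.S) (n : Fin d → ℤ) : L.kbar f s z z' ≤ L.ker f s 0 1 z (L.dk n z') :=
  ciInf_le (kbar_bdd L hf s hz hz') n

theorem disp_bd {M B : ℝ} {f : E → ℝ → ℝ} (hf : Good M f) (s : ℝ) {z z' : E} (hz : z ∈ L.S)
    (hz' : z' ∈ L.S) (h : L.ker f s 0 1 z z' ≤ B) :
    ‖z' - z - L.vel s‖ ≤ Real.sqrt (2 * (B + (L.Λ + M)) / L.m) := by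
  have h1 := ker_lower L hf s one_pos hz hz'
  have hm := L.m_pos
  rw [sub_zero, one_smul] at h1
  apply Real.le_sqrt_of_sq_le
  rw [le_div_iff₀ hm]
  have h2 : L.m * ‖z' - z - L.vel s‖ ^ 2 / (2 * 1) = ‖z' - z - L.vel s‖ ^ 2 * L.m / 2 := by ring
  rw [h2] at h1
  linarith

/-- the infimum over the lattice is attained -/
theorem kbar_attained {M : ℝ} {f : E → ℝ → ℝ} (hf : Good M f) (s : ℝ) {z z' : E} (hz : z ∈ L.S)
    (hz' : z' ∈ L.S) : ∃ n : Fin d → ℤ, L.kbar f s z z' = L.ker f s 0 1 z (L.dk n z') := by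
  set F : (Fin d → ℤ) → ℝ := fun n => L.ker f s 0 1 z (L.dk n z') with hF
  have hfin : {n | F n ≤ F 0}.Finite := by
    apply (k2_dk_finite L.toSp (L.vel s) z z' (Real.sqrt (2 * (F 0 + (L.Λ + M)) / L.m))).subset
    intro n hn
    have hn' : F n ≤ F 0 := hn
    exact disp_bd L hf s hz ((S_dk L.toSp n).mpr hz') hn'
  obtain ⟨n, hn, hmin⟩ := Set.exists_min_image _ F hfin ⟨0, le_refl (F 0)⟩
  refine ⟨n, le_antisymm (kbar_le_ker L hf s hz hz' n) ?_⟩
  apply le_ciInf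
  intro k
  by_cases hk : F k ≤ F 0
  · exact hmin k hk
  · have h1 : F n ≤ F 0 := hn
    exact h1.trans (not_le.mp hk).le

theorem kbar_ge {M : ℝ} {f : E → ℝ → ℝ} (hf : Good M f) (s : ℝ) {z z' : E} (hz : z ∈ L.S)
    (hz' : z' ∈ L.S) : -(L.Λ + M) ≤ L.kbar f s z z' :=
  le_ciInf fun n => ker_ge_neg L hf s hz ((S_dk L.toSp n).mpr hz')

theorem kbar_le_of {M : ℝ} {f : E → ℝ → ℝ} (hf : Good M f) (s : ℝ) {z z' : E} (hz : z ∈ L.S)
    (hz' : z' ∈ L.S) (h : |L.y z - L.y z'| ≤ 2) :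
    L.kbar f s z z' ≤ L.Λ * k2C L.toSp ^ 2 + (L.Λ + M) := by
  obtain ⟨n, hn⟩ := k2_good L.toSp s hz hz' h
  refine (kbar_le_ker L hf s hz hz' n).trans ((ker_upper L hf s one_pos hz
    ((S_dk L.toSp n).mpr hz')).trans ?_)
  have e : L.dk n z' - z - ((1:ℝ) - 0) • L.vel s = L.dk n z' - z - L.vel s := by
    rw [sub_zero, one_smul]
  rw [e]
  have h0 := norm_nonneg (L.dk n z' - z - L.vel s)
  have h2 : ‖L.dk n z' - z - L.vel s‖ ^ 2 ≤ k2C L.toSp ^ 2 := by gcongr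
  have h3 := L.Λ_ge
  have h4 : L.Λ * ‖L.dk n z' - z - L.vel s‖ ^ 2 ≤ L.Λ * k2C L.toSp ^ 2 := by
    apply mul_le_mul_of_nonneg_left h2; linarith
  norm_num
  linarith

theorem kbar_sub_le {M ρ : ℝ} {f f' : E → ℝ → ℝ} (hf : Good M f) (hf' : Good M f')
    (h : ∀ x ∈ L.S, ∀ t, |f x t - f' x t| ≤ ρ) (s : ℝ) {z z' : E} (hz : z ∈ L.S) (hz' : z' ∈ L.S) :
    |L.kbar f s z z' - L.kbar f' s z z'| ≤ ρ := by
  have key : ∀ {g g' : E → ℝ → ℝ}, Good M g → Good M g' → (∀ x ∈ L.S, ∀ t, |g x t - g' x t| ≤ ρ) →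
      L.kbar g s z z' ≤ L.kbar g' s z z' + ρ := by
    intro g g' hg hg' h
    obtain ⟨n, hn⟩ := kbar_attained L hg' s hz hz'
    rw [hn]
    have h1 := kbar_le_ker L hg s hz hz' n
    have h2 := (abs_le.mp (ker_sub_le L hg hg' h s one_pos hz ((S_dk L.toSp n).mpr hz'))).2
    linarith
  have h1 := key hf hf' h
  have h2 := key hf' hf (fun x hx t => by rw [abs_sub_comm]; exact h x hx t)
  rw [abs_le]; constructor <;> linarith

theorem kbar_mono {M : ℝ} {f f' : E → ℝ → ℝ} (hf : Good M f) (hf' : Good M f')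
    (h : ∀ x t, f x t ≤ f' x t) (s : ℝ) {z z' : E} (hz : z ∈ L.S) (hz' : z' ∈ L.S) :
    L.kbar f s z z' ≤ L.kbar f' s z z' := by
  obtain ⟨n, hn⟩ := kbar_attained L hf' s hz hz'
  rw [hn]
  exact (kbar_le_ker L hf s hz hz' n).trans
    (ker_mono L hf hf' h s one_pos hz ((S_dk L.toSp n).mpr hz'))

/-- concavity in the potential (finite averages) -/
theorem kbar_concave {M : ℝ} {ι : Type*} (I : Finset ι) (hI : I.Nonempty) {f : ι → E → ℝ → ℝ}
    (hf : ∀ i ∈ I, Good M (f i)) (s : ℝ) {z z' : E} (hz : z ∈ L.S) (hz' : z' ∈ L.S) :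
    (∑ i ∈ I, L.kbar (f i) s z z') / I.card ≤
      L.kbar (fun x t => (∑ i ∈ I, f i x t) / I.card) s z z' := by
  have hc : (0:ℝ) < I.card := by exact_mod_cast hI.card_pos
  have hg := good_avg I hI hf
  obtain ⟨n, hn⟩ := kbar_attained L hg s hz hz'
  rw [hn]
  apply le_ker L one_pos hz ((S_dk L.toSp n).mpr hz')
  intro u hu hS hzz
  rw [div_le_iff₀ hc]
  have h1 : ∀ i ∈ I, L.kbar (f i) s z z' ≤ L.act (f i) s 0 1 z u := fun i hi =>
    (kbar_le_ker L (hf i hi) s hz hz' n).trans (ker_le_act' L (hf i hi) s one_pos hu hS hzz)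
  refine (Finset.sum_le_sum h1).trans (le_of_eq ?_)
  rw [act_eq L hg _ _ _ _ hu]
  have h2 : ∀ i ∈ I, L.act (f i) s 0 1 z u
      = L.act (fun _ _ => 0) s 0 1 z u + ∫ t in (0:ℝ)..1, f i (traj 0 z u t) t :=
    fun i hi => act_eq L (hf i hi) _ _ _ _ hu
  have h3 : (∫ t in (0:ℝ)..1, (∑ i ∈ I, f i (traj 0 z u t) t) / (I.card : ℝ))
      = (∑ i ∈ I, ∫ t in (0:ℝ)..1, f i (traj 0 z u t) t) / I.card := by
    rw [intervalIntegral.integral_div, intervalIntegral.integral_finsetSum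
      (fun i hi => f_traj_ii (hf i hi) hu 0 z 0 1)]
  rw [Finset.sum_congr rfl h2, Finset.sum_add_distrib, Finset.sum_const, nsmul_eq_mul, h3]
  field_simp

theorem kbar_per {f : E → ℝ → ℝ} (h : ∀ n x t, f (L.dk n x) t = f x t) (s : ℝ) (z z' : E)
    (n m : Fin d → ℤ) : L.kbar f s (L.dk n z) (L.dk m z') = L.kbar f s z z' := by
  unfold SpL.kbar
  have h1 : ∀ k : Fin d → ℤ, L.ker f s 0 1 (L.dk n z) (L.dk k (L.dk m z'))
      = L.ker f s 0 1 z (L.dk (m + k - n) z') := by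
    intro k
    have : L.dk k (L.dk m z') = L.dk n (L.dk (m + k - n) z') := by
      rw [← dk_add, ← dk_add]
      congr 1; abel
    rw [this, ker_dk L n (h n) s]
  simp_rw [h1]
  exact (Equiv.subRight n |>.trans (Equiv.addLeft m)).iInf_congr fun k => by
    simp only [Equiv.trans_apply, Equiv.subRight_apply, Equiv.coe_addLeft, add_sub_assoc]

theorem kbar_perg {f : E → ℝ → ℝ} (h : ∀ x t, f (L.gd x) t = f x t) (s : ℝ) (z z' : E) :
    L.kbar f s (L.gd z) (L.gd z') = L.kbar f s z z' := by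
  unfold SpL.kbar
  congr 1
  ext k
  rw [dk_gd, ker_gd L h s]

/-! ### uniform bounds -/

/-- uniform bound and Lipschitz constant -/
theorem kbar_bd_lip (M : ℝ) : ∃ B Λ : ℝ, 0 < B ∧ 0 < Λ ∧ ∀ f : E → ℝ → ℝ, Good M f →
    (∀ n x t, f (L.dk n x) t = f x t) → ∀ s : ℝ,
    (∀ z ∈ L.S, ∀ z' ∈ L.S, |L.y z - L.y z'| ≤ 2 → |L.kbar f s z z'| ≤ B) ∧
    (∀ z ∈ L.S, ∀ z' ∈ L.S, ∀ w ∈ L.S, ∀ w' ∈ L.S, |L.y z - L.y z'| ≤ 2 → |L.y w - L.y w'| ≤ 2 →
      |L.kbar f s z z' - L.kbar f s w w'| ≤ Λ * (dist z w + dist z' w')) := by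
  have hL := L.Λ_ge
  have hm := L.m_pos
  have hM' := abs_nonneg M
  set A : ℝ := L.Λ + |M| with hA
  have hA1 : 1 ≤ A := by rw [hA]; linarith
  set B : ℝ := L.Λ * k2C L.toSp ^ 2 + A with hB
  have hB2 : 0 < B := by
    have : 0 ≤ L.Λ * k2C L.toSp ^ 2 := by positivity
    linarith
  set T : ℝ := Real.sqrt (4 / L.m * (B + (A + A ^ 2 / L.m))) with hT
  have hT0 : 0 ≤ T := Real.sqrt_nonneg _
  set Λ : ℝ := A + A + A * (1 + T) + 2 * B with hΛ
  have hΛ0 : 0 < Λ := by positivity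
  refine ⟨B, Λ, hB2, hΛ0, fun f hf _ s => ?_⟩
  have hM : |M| = M := abs_of_nonneg hf.pos
  have hbd : ∀ z ∈ L.S, ∀ z' ∈ L.S, |L.y z - L.y z'| ≤ 2 → |L.kbar f s z z'| ≤ B := by
    intro z hz z' hz' h
    have h1 := kbar_ge L hf s hz hz'
    have h2 := kbar_le_of L hf s hz hz' h
    have h3 : 0 ≤ L.Λ * k2C L.toSp ^ 2 := by positivity
    rw [abs_le]
    constructor
    · rw [hB, hA, hM]; linarith
    · rw [hB, hA, hM]; linarith
  refine ⟨hbd, ?_⟩
  have key : ∀ z ∈ L.S, ∀ z' ∈ L.S, ∀ w ∈ L.S, ∀ w' ∈ L.S, |L.y z - L.y z'| ≤ 2 →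
      |L.y w - L.y w'| ≤ 2 →
      L.kbar f s z z' ≤ L.kbar f s w w' + Λ * (dist z w + dist z' w') := by
    intro z hz z' hz' w hw w' hw' hzz hww
    have hd1 := dist_nonneg (x := z) (y := w)
    have hd2 := dist_nonneg (x := z') (y := w')
    set D := dist z w + dist z' w' with hD
    have hD0 : 0 ≤ D := by positivity
    rcases le_total 1 D with h | h
    · have h1 := (abs_le.mp (hbd z hz z' hz' hzz)).2
      have h2 := (abs_le.mp (hbd w hw w' hw' hww)).1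
      have h3 : 2 * B ≤ Λ * D := by
        have h4 : 2 * B ≤ Λ := by
          have : 0 ≤ A + A + A * (1 + T) := by positivity
          rw [hΛ]; linarith
        have h5 : Λ * 1 ≤ Λ * D := mul_le_mul_of_nonneg_left h hΛ0.le
        linarith
      linarith
    · obtain ⟨n, hn⟩ := kbar_attained L hf s hw hw'
      have h1 := kbar_le_ker L hf s hz hz' n
      have h3 : L.ker f s 0 1 w (L.dk n w') ≤ B := by
        rw [← hn]; exact (abs_le.mp (hbd w hw w' hw' hww)).2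
      have hck := lag_ck L hf s
      have hζ : ‖z - w‖ ≤ D := by rw [← dist_eq_norm]; linarith
      have hξ : ‖L.dk n z' - L.dk n w'‖ ≤ D := by rw [← dist_eq_norm, dist_dk]; linarith
      have h2 := kerl_var hck one_pos w (L.dk n w') (z - w) (L.dk n z' - L.dk n w') hζ hξ h3
      have e1 : w + (z - w) = z := by abel
      have e2 : L.dk n w' + (L.dk n z' - L.dk n w') = L.dk n z' := by abel
      rw [e1, e2] at h2
      simp only [sub_zero, div_one, mul_one] at h2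
      rw [← hM, ← hA] at h2
      set δ := L.dk n z' - L.dk n w' - (z - w) with hδ
      have h5 : ‖δ‖ ≤ D := by
        refine (norm_sub_le _ _).trans ?_
        rw [← dist_eq_norm, ← dist_eq_norm, dist_dk]; linarith
      have h6 : ‖δ‖ ^ 2 ≤ D := by
        have := norm_nonneg δ
        nlinarith
      have h7 : A * ‖δ‖ ^ 2 ≤ A * D := mul_le_mul_of_nonneg_left h6 (by linarith)
      have h8 : A * ‖δ‖ * (1 + T) ≤ A * D * (1 + T) := by gcongr
      have e3 : L.ker f s 0 1 z (L.dk n z') = kerl (L.lag f s) 0 1 z (L.dk n z') := rfl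
      have e4 : L.ker f s 0 1 w (L.dk n w') = kerl (L.lag f s) 0 1 w (L.dk n w') := rfl
      rw [← e3, ← e4, ← hT] at h2
      have h10 : 0 ≤ 2 * B * D := by positivity
      have h11 : Λ * D = A * D + A * D + A * D * (1 + T) + 2 * B * D := by
        rw [hΛ]; ring
      rw [hn]
      linarith
  intro z hz z' hz' w hw w' hw' h1 h2
  have h3 := key z hz z' hz' w hw w' hw' h1 h2
  have h4 := key w hw w' hw' z hz z' hz' h2 h1
  rw [dist_comm w z, dist_comm w' z'] at h4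
  rw [abs_le]; constructor <;> linarith

/-- dependence on the speed -/
theorem kbar_speed (M : ℝ) : ∃ C : ℝ, 0 < C ∧ ∀ f : E → ℝ → ℝ, Good M f → ∀ s s' : ℝ,
    ‖L.vel s - L.vel s'‖ ≤ 1 → ∀ z ∈ L.S, ∀ z' ∈ L.S, |L.y z - L.y z'| ≤ 2 →
    |L.kbar f s z z' - L.kbar f s' z z'| ≤ C * ‖L.vel s - L.vel s'‖ := by
  have hL := L.Λ_ge
  have hm := L.m_pos
  have hM' := abs_nonneg M
  set A : ℝ := L.Λ + |M| with hA
  set B : ℝ := L.Λ * k2C L.toSp ^ 2 + A with hB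
  set T : ℝ := Real.sqrt (2 * (B + A) / L.m) with hT
  have hT0 : 0 ≤ T := Real.sqrt_nonneg _
  refine ⟨L.Λ * T + L.Λ, by positivity, fun f hf s s' hs z hz z' hz' h => ?_⟩
  have hM : |M| = M := abs_of_nonneg hf.pos
  have key : ∀ r r', ‖L.vel r - L.vel r'‖ ≤ 1 →
      L.kbar f r z z' ≤ L.kbar f r' z z' + (L.Λ * T + L.Λ) * ‖L.vel r - L.vel r'‖ := by
    intro r r' hr
    obtain ⟨n, hn⟩ := kbar_attained L hf r' hz hz'
    have hSz := (S_dk L.toSp n).mpr hz'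
    have h1 := kbar_le_ker L hf r hz hz' n
    have h3 : L.ker f r' 0 1 z (L.dk n z') ≤ B := by
      rw [← hn, hB, hA, hM]; exact kbar_le_of L hf r' hz hz' h
    have h4 := disp_bd L hf _ hz hSz h3
    rw [ker_eq L hf r one_pos] at h1
    rw [ker_eq L hf r' one_pos] at hn
    rw [← hM, ← hA, ← hT] at h4
    set a := L.dk n z' - z with ha
    set δ := L.vel r - L.vel r' with hδ
    have h5 := L.h_low (L.vel r') (L.vel r)
    have h6 : ‖L.mom r - L.mom r'‖ ≤ L.Λ * ‖δ‖ := L.gh_lip _ _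
    have h7 : inner ℝ (L.gh (L.vel r)) (L.vel r' - L.vel r) = - inner ℝ (L.mom r) δ := by
      rw [hδ, ← inner_neg_right, neg_sub]; rfl
    have h8 := L.h_low (L.vel r) (L.vel r')
    have h9 : inner ℝ (L.gh (L.vel r')) (L.vel r - L.vel r') = inner ℝ (L.mom r') δ := rfl
    rw [h7] at h5
    rw [h9] at h8
    have hq1 : 0 ≤ L.m / 2 * ‖L.vel r' - L.vel r‖ ^ 2 := by positivity
    have hq2 : 0 ≤ L.m / 2 * ‖L.vel r - L.vel r'‖ ^ 2 := by positivity
    -- the difference of the affine corrections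
    have e1 : (- inner ℝ (L.mom r) a - (1 - 0) * (L.h (L.vel r) - inner ℝ (L.mom r) (L.vel r)))
        - (- inner ℝ (L.mom r') a - (1 - 0) * (L.h (L.vel r') - inner ℝ (L.mom r') (L.vel r')))
        = - inner ℝ (L.mom r - L.mom r') (a - L.vel r')
          - (L.h (L.vel r) - L.h (L.vel r') - inner ℝ (L.mom r) δ) := by
      rw [hδ]
      simp only [inner_sub_left, inner_sub_right]
      ring
    have h10 : - inner ℝ (L.mom r - L.mom r') (a - L.vel r') ≤ L.Λ * T * ‖δ‖ := by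
      have := (abs_le.mp (abs_real_inner_le_norm (L.mom r - L.mom r') (a - L.vel r'))).1
      have h11 : ‖L.mom r - L.mom r'‖ * ‖a - L.vel r'‖ ≤ (L.Λ * ‖δ‖) * T := by gcongr
      have h12 : (L.Λ * ‖δ‖) * T = L.Λ * T * ‖δ‖ := by ring
      linarith
    have h13 : - (L.h (L.vel r) - L.h (L.vel r') - inner ℝ (L.mom r) δ) ≤ L.Λ * ‖δ‖ := by
      have h14 : inner ℝ (L.mom r) δ - inner ℝ (L.mom r') δ ≤ L.Λ * ‖δ‖ * ‖δ‖ := by
        rw [← inner_sub_left]
        refine (real_inner_le_norm _ _).trans ?_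
        gcongr
      have h15 : L.Λ * ‖δ‖ * ‖δ‖ ≤ L.Λ * ‖δ‖ * 1 := by gcongr
      linarith
    have h16 : (L.Λ * T + L.Λ) * ‖δ‖ = L.Λ * T * ‖δ‖ + L.Λ * ‖δ‖ := by ring
    rw [h16]
    linarith
  have h1 := key s s' hs
  have h2 := key s' s (by rw [norm_sub_rev]; exact hs)
  rw [norm_sub_rev] at h2
  rw [abs_le]; constructor <;> linarith

end ModuleK2

end EscF
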