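import Pool.Agent.EscF.C1
import Pool.Agent.EscF.K
import Pool.Agent.EscF.K2
import Pool.Agent.EscN.K2
import Pool.Agent.EscN.Prep

/-!
Module A1 of project EscF (MP_6acca1_an): the kernels of the general Lagrangian are asymptotic to
the kernels of the quadratic Lagrangian. Near-minimizers are replaced by piecewise constant controls.
-/

set_option linter.unusedSectionVars false

noncomputable section

namespace EscF

open MeasureTheory Set Filter Topology Esc EscN intervalIntegral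
open scoped ContDiff

namespace A1X

variable {E : Type*} [NormedAddCommGroup E] [InnerProductSpace ℝ E] [FiniteDimensional ℝ E]

/-! ### piecewise averages -/

/-- averages over the pieces `[k/N, (k+1)/N]` -/
def gk' (N : ℕ) (w : ℝ → E) (k : ℤ) : E := (N : ℝ) • ∫ s in ((k : ℝ) / N)..(((k : ℝ) + 1) / N), w s

/-- the piecewise average -/
def pav (N : ℕ) (w : ℝ → E) (t : ℝ) : E := gk' N w ⌊(N : ℝ) * t⌋

theorem pav_adm {w : ℝ → E} (hw : Adm w) {N : ℕ} (hN : 0 < N) : Adm (pav N w) := by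
  have hN' : (0 : ℝ) < N := by exact_mod_cast hN
  obtain ⟨hm, C, hC⟩ := hw
  refine ⟨?_, C, fun t => ?_⟩
  · have h1 : StronglyMeasurable (gk' N w) := StronglyMeasurable.of_discrete
    exact h1.comp_measurable (Int.measurable_floor.comp (measurable_const_mul (N : ℝ)))
  · unfold pav gk'
    rw [norm_smul, Real.norm_of_nonneg hN'.le]
    set k : ℤ := ⌊(N : ℝ) * t⌋
    have h1 := norm_integral_le_of_norm_le_const (a := (k : ℝ) / N) (b := ((k : ℝ) + 1) / N) (C := C)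
      (f := w) (fun t _ => hC t)
    have h2 : |((k : ℝ) + 1) / N - (k : ℝ) / N| = 1 / N := by
      rw [← sub_div, add_sub_cancel_left, abs_of_pos (by positivity)]
    rw [h2] at h1
    calc (N : ℝ) * ‖∫ s in ((k : ℝ) / N)..(((k : ℝ) + 1) / N), w s‖ ≤ N * (C * (1 / N)) := by gcongr
      _ = C := by field_simp

theorem pav_eq {w : ℝ → E} {N : ℕ} (hN : 0 < N) (k : ℤ) {t : ℝ}
    (ht : t ∈ Ico ((k : ℝ) / N) (((k : ℝ) + 1) / N)) : pav N w t = gk' N w k := by
  have hN' : (0 : ℝ) < N := by exact_mod_cast hN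
  unfold pav
  congr 1
  rw [Int.floor_eq_iff]
  obtain ⟨h1, h2⟩ := ht
  rw [div_le_iff₀ hN'] at h1
  rw [lt_div_iff₀ hN'] at h2
  constructor <;> linarith

variable {w : ℝ → E} {N : ℕ}

theorem piece_zero (hw : Adm w) (hN : 0 < N) (k : ℤ) :
    ∫ t in ((k : ℝ) / N)..(((k : ℝ) + 1) / N), (w t - pav N w t) = 0 := by
  have hN' : (0 : ℝ) < N := by exact_mod_cast hN
  have hle : (k : ℝ) / N ≤ ((k : ℝ) + 1) / N := by gcongr; linarith
  have h1 : (∫ t in ((k : ℝ) / N)..(((k : ℝ) + 1) / N), (w t - pav N w t)) =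
      ∫ t in ((k : ℝ) / N)..(((k : ℝ) + 1) / N), (w t - gk' N w k) :=
    integral_congr_Ioo_of_le hle fun t ht => by
      rw [pav_eq hN k ⟨ht.1.le, ht.2⟩]
  rw [h1, integral_sub (hw.ii _ _) (by simp), intervalIntegral.integral_const, gk', smul_smul]
  have h2 : (((k : ℝ) + 1) / N - (k : ℝ) / N) * N = 1 := by field_simp; ring
  rw [h2, one_smul, sub_self]

theorem sub_adm (hw : Adm w) {w' : ℝ → E} (hw' : Adm w') : Adm (fun t => w t - w' t) := by
  obtain ⟨hm, C, hC⟩ := hw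
  obtain ⟨hm', C', hC'⟩ := hw'
  exact ⟨hm.sub hm', C + C', fun t => (norm_sub_le _ _).trans (add_le_add (hC t) (hC' t))⟩

theorem norm_adm (hw : Adm w) : Adm (fun t => ‖w t‖) := by
  obtain ⟨hm, C, hC⟩ := hw
  exact ⟨hm.norm, C, fun t => by rw [norm_norm]; exact hC t⟩

theorem inner_ii' (hw : Adm w) {w' : ℝ → E} (hw' : Adm w') (a b : ℝ) :
    IntervalIntegrable (fun t => (inner ℝ (w t) (w' t) : ℝ)) volume a b := by
  obtain ⟨hm, C, hC⟩ := hw
  obtain ⟨hm', C', hC'⟩ := hw'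
  rw [intervalIntegrable_iff]
  refine Measure.integrableOn_of_bounded (M := C * C') (by simp) ?_ (ae_of_all _ fun t => ?_)
  · exact (hm.inner hm').aestronglyMeasurable
  · refine (norm_inner_le_norm _ _).trans ?_
    exact mul_le_mul (hC t) (hC' t) (norm_nonneg _) ((norm_nonneg _).trans (hC t))

theorem piece_inner (hw : Adm w) (hN : 0 < N) (k : ℤ) :
    ∫ t in ((k : ℝ) / N)..(((k : ℝ) + 1) / N), (inner ℝ (pav N w t) (w t - pav N w t) : ℝ) = 0 := by
  have hN' : (0 : ℝ) < N := by exact_mod_cast hN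
  have hle : (k : ℝ) / N ≤ ((k : ℝ) + 1) / N := by gcongr; linarith
  have h1 : (∫ t in ((k : ℝ) / N)..(((k : ℝ) + 1) / N), (inner ℝ (pav N w t) (w t - pav N w t) : ℝ)) =
      ∫ t in ((k : ℝ) / N)..(((k : ℝ) + 1) / N), (inner ℝ (gk' N w k) (w t - pav N w t) : ℝ) :=
    integral_congr_Ioo_of_le hle fun t ht => by
      rw [pav_eq hN k ⟨ht.1.le, ht.2⟩]
  rw [h1]
  have h2 := (innerSL ℝ (gk' N w k)).intervalIntegral_comp_comm
    ((sub_adm hw (pav_adm hw hN)).ii ((k : ℝ) / N) (((k : ℝ) + 1) / N))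
  rw [piece_zero hw hN, map_zero] at h2
  exact h2

/-- summation over the pieces -/
theorem sum_zero {F : Type*} [NormedAddCommGroup F] [NormedSpace ℝ F] {f : ℝ → F}
    (hf : ∀ a b, IntervalIntegrable f volume a b)
    (h : ∀ k : ℤ, ∫ t in ((k : ℝ) / N)..(((k : ℝ) + 1) / N), f t = 0) (n : ℕ) :
    ∫ t in (0 : ℝ)..((n : ℝ) / N), f t = 0 := by
  have h1 := sum_integral_adjacent_intervals (f := f) (μ := volume) (a := fun k : ℕ => (k : ℝ) / N)
    (n := n) (fun k _ => hf _ _)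
  simp only [Nat.cast_zero, zero_div] at h1
  rw [← h1]
  refine Finset.sum_eq_zero fun k _ => ?_
  have h2 := h (k : ℤ)
  push_cast at h2 ⊢
  exact h2

/-- Cauchy-Schwarz -/
theorem int_norm_le (hw : Adm w) {a b : ℝ} (hab : a < b) {e0 : ℝ} (ha : 0 ≤ a) (hb : b ≤ 1)
    (he : (∫ t in (0 : ℝ)..1, ‖w t‖ ^ 2 / 2) ≤ e0) :
    (∫ t in a..b, ‖w t‖) ≤ Real.sqrt (2 * e0 * (b - a)) := by
  have h1 := jensen (norm_adm hw) hab
  have h2 : (∫ t in a..b, ‖‖w t‖‖ ^ 2 / 2) ≤ e0 := by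
    simp only [norm_norm]
    refine le_trans ?_ he
    refine integral_mono_interval ha hab.le hb (ae_of_all _ fun t => by positivity) (hw.sq_ii 0 1)
  have hba : 0 < b - a := by linarith
  have h3 := h1.trans h2
  rw [div_le_iff₀ (by positivity)] at h3
  refine Real.le_sqrt_of_sq_le ?_
  rw [Real.norm_eq_abs, sq_abs] at h3
  linarith

theorem energy_split {w' : ℝ → E} (hw : Adm w) (hw' : Adm w')
    (h : (∫ t in (0 : ℝ)..1, (inner ℝ (w' t) (w t - w' t) : ℝ)) = 0) :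
    (∫ t in (0 : ℝ)..1, ‖w t‖ ^ 2 / 2) = (∫ t in (0 : ℝ)..1, ‖w' t‖ ^ 2 / 2) +
      ∫ t in (0 : ℝ)..1, ‖w t - w' t‖ ^ 2 / 2 := by
  have e : ∀ t, ‖w t‖ ^ 2 / 2 = (‖w' t‖ ^ 2 / 2 + ‖w t - w' t‖ ^ 2 / 2) +
      inner ℝ (w' t) (w t - w' t) := by
    intro t
    have h1 : w t = w' t + (w t - w' t) := by abel
    conv_lhs => rw [h1, norm_add_sq_real]
    ring
  rw [integral_congr (g := fun t => (‖w' t‖ ^ 2 / 2 + ‖w t - w' t‖ ^ 2 / 2) +
      inner ℝ (w' t) (w t - w' t)) (fun t _ => e t),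
    integral_add ((hw'.sq_ii 0 1).add ((sub_adm hw hw').sq_ii 0 1))
      (inner_ii' hw' (sub_adm hw hw') 0 1), h, add_zero,
    integral_add (hw'.sq_ii 0 1) ((sub_adm hw hw').sq_ii 0 1)]

/-- Piecewise constant controls. -/
theorem exists_pav (hw : Adm w) (hN : 0 < N) {e0 : ℝ}
    (he : (∫ t in (0 : ℝ)..1, ‖w t‖ ^ 2 / 2) ≤ e0) :
    ∃ w' : ℝ → E, Adm w' ∧ (∫ t in (0 : ℝ)..1, (inner ℝ (w' t) (w t - w' t) : ℝ)) = 0 ∧
      (∫ t in (0 : ℝ)..1, (w t - w' t)) = 0 ∧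
      (∀ t ∈ Icc (0 : ℝ) 1, ‖∫ s in (0 : ℝ)..t, (w s - w' s)‖ ≤ 2 * Real.sqrt (2 * e0 / N)) ∧
      (∀ t ∈ Ioo (0 : ℝ) 1, ‖w' t‖ ≤ Real.sqrt (2 * e0 * N)) ∧
      (∫ t in (0 : ℝ)..1, ‖w t - w' t‖) ≤ Real.sqrt (2 * e0) := by
  have hN' : (0 : ℝ) < N := by exact_mod_cast hN
  have hp := pav_adm hw hN
  have hs := sub_adm hw hp
  have hone : ((N : ℕ) : ℝ) / N = 1 := by field_simp
  have e00 : 0 ≤ e0 := le_trans (integral_nonneg zero_le_one fun t _ => by positivity) he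
  have hin : (∫ t in (0 : ℝ)..1, (inner ℝ (pav N w t) (w t - pav N w t) : ℝ)) = 0 := by
    have h := sum_zero (N := N) (f := fun t => (inner ℝ (pav N w t) (w t - pav N w t) : ℝ))
      (inner_ii' hp hs) (piece_inner hw hN) N
    rwa [hone] at h
  have hD : ∀ n : ℕ, ∫ t in (0 : ℝ)..((n : ℝ) / N), (w t - pav N w t) = 0 :=
    sum_zero (N := N) (fun a b => hs.ii a b) (piece_zero hw hN)
  -- bound of the averages
  have hg : ∀ k : ℕ, (k : ℝ) + 1 ≤ N →
      (∫ s in ((k : ℝ) / N)..(((k : ℝ) + 1) / N), ‖w s‖) ≤ Real.sqrt (2 * e0 / N) := by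
    intro k hk
    have h1 := int_norm_le hw (a := (k : ℝ) / N) (b := ((k : ℝ) + 1) / N) (by gcongr; linarith)
      (by positivity) (by rw [div_le_one hN']; exact hk) he
    have h2 : ((k : ℝ) + 1) / N - (k : ℝ) / N = 1 / N := by ring
    rw [h2] at h1
    rwa [mul_one_div] at h1
  have hgk : ∀ k : ℕ, (k : ℝ) + 1 ≤ N → ‖gk' N w k‖ ≤ N * Real.sqrt (2 * e0 / N) := by
    intro k hk
    unfold gk'
    rw [norm_smul, Real.norm_of_nonneg hN'.le]
    have hle : (k : ℝ) / N ≤ ((k : ℝ) + 1) / N := by gcongr; linarith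
    have h1 := intervalIntegral.norm_integral_le_integral_norm (f := w) (μ := volume) hle
    push_cast
    exact mul_le_mul_of_nonneg_left (h1.trans (hg k hk)) hN'.le
  -- location of t
  have hloc : ∀ t ∈ Ico (0 : ℝ) 1, ∃ k : ℕ, (k : ℝ) + 1 ≤ N ∧ (k : ℝ) / N ≤ t ∧
      t < ((k : ℝ) + 1) / N := by
    intro t ht
    refine ⟨⌊(N : ℝ) * t⌋₊, ?_, ?_, ?_⟩
    · have h1 : (N : ℝ) * t < N := by nlinarith [ht.2]
      have h2 : ⌊(N : ℝ) * t⌋₊ < N := (Nat.floor_lt (by nlinarith [ht.1])).2 h1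
      exact_mod_cast h2
    · rw [div_le_iff₀ hN', mul_comm]
      exact Nat.floor_le (by nlinarith [ht.1])
    · rw [lt_div_iff₀ hN', mul_comm]
      exact Nat.lt_floor_add_one _
  refine ⟨pav N w, hp, hin, ?_, ?_, ?_, ?_⟩
  · have h := hD N
    rwa [hone] at h
  · intro t ht
    rcases ht.2.lt_or_eq with h | h
    · obtain ⟨k, hk, h1, h2⟩ := hloc t ⟨ht.1, h⟩
      have hle : (k : ℝ) / N ≤ ((k : ℝ) + 1) / N := h1.trans h2.le
      rw [← integral_add_adjacent_intervals (hs.ii 0 ((k : ℝ) / N)) (hs.ii ((k : ℝ) / N) t), hD k,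
        zero_add]
      refine (intervalIntegral.norm_integral_le_integral_norm h1).trans ?_
      have h3 : (∫ s in ((k : ℝ) / N)..t, ‖w s - pav N w s‖) ≤
          ∫ s in ((k : ℝ) / N)..(((k : ℝ) + 1) / N), ‖w s - pav N w s‖ :=
        integral_mono_interval le_rfl h1 h2.le (ae_of_all _ fun t => norm_nonneg _)
          ((norm_adm hs).ii _ _)
      have h4 : (∫ s in ((k : ℝ) / N)..(((k : ℝ) + 1) / N), ‖w s - pav N w s‖) ≤
          ∫ s in ((k : ℝ) / N)..(((k : ℝ) + 1) / N), (‖w s‖ + ‖gk' N w k‖) := by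
        refine integral_mono_on_of_le_Ioo hle ((norm_adm hs).ii _ _)
          (((norm_adm hw).ii _ _).add (by simp)) fun s hs' => ?_
        rw [pav_eq hN (k : ℤ) (by push_cast; exact ⟨hs'.1.le, hs'.2⟩)]
        exact norm_sub_le _ _
      rw [integral_add ((norm_adm hw).ii _ _) (by simp), intervalIntegral.integral_const,
        smul_eq_mul] at h4
      have h5 : ((k : ℝ) + 1) / N - (k : ℝ) / N = 1 / N := by ring
      rw [h5] at h4
      have h6 : 1 / (N : ℝ) * ‖gk' N w k‖ ≤ Real.sqrt (2 * e0 / N) := by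
        calc 1 / (N : ℝ) * ‖gk' N w k‖ ≤ 1 / N * (N * Real.sqrt (2 * e0 / N)) := by
              gcongr
              exact hgk k hk
          _ = Real.sqrt (2 * e0 / N) := by field_simp
      linarith [hg k hk]
    · rw [h]
      have h1 := hD N
      rw [hone] at h1
      rw [h1, norm_zero]
      positivity
  · intro t ht
    obtain ⟨k, hk, h1, h2⟩ := hloc t ⟨ht.1.le, ht.2⟩
    rw [pav_eq hN (k : ℤ) (by push_cast; exact ⟨h1, h2⟩)]
    refine (hgk k hk).trans (le_of_eq ?_)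
    have h3 : (2 * e0 * N : ℝ) = (N : ℝ) ^ 2 * (2 * e0 / N) := by field_simp
    rw [h3, Real.sqrt_mul (by positivity), Real.sqrt_sq hN'.le]
  · have h1 := energy_split hw hp hin
    have h2 : 0 ≤ ∫ t in (0 : ℝ)..1, ‖pav N w t‖ ^ 2 / 2 :=
      integral_nonneg zero_le_one fun t _ => by positivity
    have h3 := int_norm_le hs (a := 0) (b := 1) (e0 := e0) one_pos le_rfl le_rfl (by linarith)
    rwa [sub_zero, mul_one] at h3

/-- Comparison of two actions along a piecewise constant control. -/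
theorem cmp_act {v : E} {q₁ q₂ : E → E → ℝ → ℝ} {A δ R ε₂ : ℝ} (hA : 0 ≤ A) (hδ : 0 ≤ δ)
    (h1 : ∀ x x' u u' t, ‖u' - v‖ ≤ R →
      q₁ x' u' t + inner ℝ (u' - v) (u - u') - A * ‖x - x'‖ - δ * ‖u - u'‖ ≤ q₁ x u t)
    (h2 : ∀ x u' t, ‖u' - v‖ ≤ R → q₂ x u' t ≤ q₁ x u' t + ε₂)
    (i1 : ∀ z u, Adm u → IntervalIntegrable (fun t => q₁ (traj 0 z u t) (u t) t) volume 0 1)
    (i2 : ∀ z u, Adm u → IntervalIntegrable (fun t => q₂ (traj 0 z u t) (u t) t) volume 0 1)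
    {u : ℝ → E} (hu : Adm u) (z : E) {e0 : ℝ}
    (he : (∫ t in (0 : ℝ)..1, ‖u t - v‖ ^ 2 / 2) ≤ e0) {N : ℕ} (hN : 0 < N)
    (hR : Real.sqrt (2 * e0 * N) ≤ R) :
    ∃ u', Adm u' ∧ traj 0 z u' 1 = traj 0 z u 1 ∧
      actl q₂ 0 1 z u' ≤ actl q₁ 0 1 z u + ε₂ + A * (2 * Real.sqrt (2 * e0 / N)) +
        δ * Real.sqrt (2 * e0) := by
  have hw := hu.sub_const v
  obtain ⟨w', hw', hin, h0, hD, hb, hn⟩ := exists_pav hw hN he
  have hu' : Adm (fun t => w' t + v) := hw'.add_const v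
  have hdif : ∀ t, u t - (w' t + v) = (u t - v) - w' t := fun t => by abel
  have htr : ∀ t, traj 0 z u t - traj 0 z (fun t => w' t + v) t =
      ∫ s in (0 : ℝ)..t, ((u s - v) - w' s) := by
    intro t
    unfold traj
    rw [add_sub_add_left_eq_sub, ← integral_sub (hu.ii 0 t) (hu'.ii 0 t)]
    exact integral_congr fun s _ => hdif s
  have hend : traj 0 z (fun t => w' t + v) 1 = traj 0 z u 1 := by
    have := htr 1
    rw [h0, sub_eq_zero] at this
    exact this.symm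
  refine ⟨fun t => w' t + v, hu', hend, ?_⟩
  set K := 2 * Real.sqrt (2 * e0 / N) with hK
  have hs := sub_adm hw hw'
  have key : (∫ t in (0 : ℝ)..1, q₂ (traj 0 z (fun t => w' t + v) t) (w' t + v) t) ≤
      ∫ t in (0 : ℝ)..1, (((q₁ (traj 0 z u t) (u t) t - inner ℝ (w' t) ((u t - v) - w' t)) +
        (A * K + ε₂)) + δ * ‖(u t - v) - w' t‖) := by
    refine integral_mono_on_of_le_Ioo zero_le_one (i2 z _ hu')
      ((((i1 z u hu).sub (inner_ii' hw' hs 0 1)).add (by simp)).add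
        (((norm_adm hs).ii 0 1).const_mul δ)) fun t ht => ?_
    have hR' : ‖(w' t + v) - v‖ ≤ R := by
      rw [add_sub_cancel_right]
      exact (hb t ht).trans hR
    have a1 := h2 (traj 0 z (fun t => w' t + v) t) (w' t + v) t hR'
    have a2 := h1 (traj 0 z u t) (traj 0 z (fun t => w' t + v) t) (u t) (w' t + v) t hR'
    rw [htr, hdif, add_sub_cancel_right] at a2
    have a3 : A * ‖∫ s in (0 : ℝ)..t, ((u s - v) - w' s)‖ ≤ A * K :=
      mul_le_mul_of_nonneg_left (hD t ⟨ht.1.le, ht.2.le⟩) hA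
    linarith
  have e2 : (∫ t in (0 : ℝ)..1, (((q₁ (traj 0 z u t) (u t) t - inner ℝ (w' t) ((u t - v) - w' t)) +
        (A * K + ε₂)) + δ * ‖(u t - v) - w' t‖)) =
      (∫ t in (0 : ℝ)..1, q₁ (traj 0 z u t) (u t) t) + (A * K + ε₂) +
        δ * ∫ t in (0 : ℝ)..1, ‖(u t - v) - w' t‖ := by
    rw [integral_add (((i1 z u hu).sub (inner_ii' hw' hs 0 1)).add (by simp))
        (((norm_adm hs).ii 0 1).const_mul δ),
      integral_add ((i1 z u hu).sub (inner_ii' hw' hs 0 1)) (by simp),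
      integral_sub (i1 z u hu) (inner_ii' hw' hs 0 1), hin, intervalIntegral.integral_const,
      intervalIntegral.integral_const_mul]
    simp
  rw [e2] at key
  have a4 : δ * (∫ t in (0 : ℝ)..1, ‖(u t - v) - w' t‖) ≤ δ * Real.sqrt (2 * e0) :=
    mul_le_mul_of_nonneg_left hn hδ
  unfold actl
  linarith

section main

variable {d : ℕ} (L : SpL d E)

/-- the gradients are close as well -/
theorem grad_close {V : E → ℝ → ℝ} {R δ ε₃ s : ℝ} (hδ : 0 < δ) (hδ1 : δ ≤ 1)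
    (hε : ε₃ ≤ δ ^ 2 / 4)
    (h : ∀ x w t, ‖w‖ ≤ R + 1 →
      |L.l x (L.vel s + w) t - L.h (L.vel s) - inner ℝ (L.mom s) w - ‖w‖ ^ 2 / 2 - V x t| ≤ ε₃)
    (x u' : E) (t : ℝ) (hu' : ‖u' - L.vel s‖ ≤ R) :
    ‖L.lu x u' t - L.mom s - (u' - L.vel s)‖ ≤ δ := by
  set G := L.lu x u' t - L.mom s - (u' - L.vel s) with hG
  by_contra hcon
  rw [not_le] at hcon
  have hGn : 0 < ‖G‖ := hδ.trans hcon
  set ξ : E := (δ / ‖G‖) • G with hξ
  have hξn : ‖ξ‖ = δ := by
    rw [hξ, norm_smul, Real.norm_of_nonneg (by positivity)]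
    field_simp
  have h1 := h x (u' - L.vel s) t (by linarith)
  have h2 := h x (u' - L.vel s + ξ) t (by
    refine (norm_add_le _ _).trans ?_
    rw [hξn]; linarith)
  have e1 : L.vel s + (u' - L.vel s) = u' := by abel
  have e2 : L.vel s + (u' - L.vel s + ξ) = u' + ξ := by abel
  rw [e1] at h1
  rw [e2, norm_add_sq_real, hξn, inner_add_right] at h2
  have h3 := L.l_low x (u' + ξ) u' t
  rw [add_sub_cancel_left, hξn] at h3
  have h4 : inner ℝ G ξ = (δ * ‖G‖ : ℝ) := by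
    rw [hξ, real_inner_smul_right, real_inner_self_eq_norm_sq]
    field_simp
  have h5 : (inner ℝ G ξ : ℝ) = inner ℝ (L.lu x u' t) ξ - inner ℝ (L.mom s) ξ -
      inner ℝ (u' - L.vel s) ξ := by
    rw [hG, inner_sub_left, inner_sub_left]
  have h6 := (abs_le.1 h1).1
  have h7 := (abs_le.1 h2).2
  have h8 : 0 ≤ L.m / 2 * δ ^ 2 := by
    have := L.m_pos
    positivity
  have h9 : δ * ‖G‖ ≤ δ ^ 2 := by
    rw [← h4, h5]
    nlinarith
  nlinarith

end main

end A1X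

section ModuleA

variable {d : ℕ} {E : Type*} [NormedAddCommGroup E] [InnerProductSpace ℝ E] [FiniteDimensional ℝ E]
  (L : SpL d E)

open A1X

/-- the kernels are asymptotic to the quadratic kernels -/
theorem kbar_asym {V : E → ℝ → ℝ} (hV : L.Asym V) (M : ℝ) {ε : ℝ} (hε : 0 < ε) : ∃ s0 : ℝ,
    ∀ f : E → ℝ → ℝ, Good M f → (∀ n x t, f (L.dk n x) t = f x t) → ∀ s, s0 ≤ s → ∀ z z' : E,
    |L.y z - L.y z'| ≤ 2 →
      |L.kbar f s z z' - L.toSp.kbar (fun x t => V x t + f x t) s z z'| ≤ ε := by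
  obtain ⟨MV, hMV⟩ := isPot_good L.toSp hV.pot
  obtain ⟨B₁, Λ₁, hB₁, -, hb₁⟩ := EscN.kbar_bd_lip L.toSp (MV + M)
  obtain ⟨B₂, Λ₂, hB₂, -, hb₂⟩ := EscF.kbar_bd_lip L M
  have hm := L.m_pos
  have hΛ := L.Λ_ge
  -- energies
  set e0 : ℝ := (B₁ + 1 + |MV + M|) + (B₂ + 1 + L.Λ + |M|) / L.m with he0
  have e0pos : 0 < e0 := by positivity
  have he01 : B₁ + 1 + (MV + M) ≤ e0 := by
    have h1 : 0 ≤ (B₂ + 1 + L.Λ + |M|) / L.m := by positivity
    linarith [le_abs_self (MV + M)]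
  have he02 : (B₂ + 1 + L.Λ + M) / L.m ≤ e0 := by
    have h1 : (B₂ + 1 + L.Λ + M) / L.m ≤ (B₂ + 1 + L.Λ + |M|) / L.m := by
      gcongr
      exact le_abs_self M
    linarith [abs_nonneg (MV + M)]
  set A : ℝ := L.Λ + |M| + |MV + M| with hA
  have hApos : 0 < A := by positivity
  -- number of pieces
  obtain ⟨N, hN⟩ := exists_nat_gt (max 0 (2 * e0 * (8 * A / ε) ^ 2))
  have hN0 : (0 : ℝ) < N := (le_max_left _ _).trans_lt hN
  have hNpos : 0 < N := by exact_mod_cast hN0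
  have hNA : A * (2 * Real.sqrt (2 * e0 / N)) ≤ ε / 4 := by
    have h1 : Real.sqrt (2 * e0 / N) ≤ ε / (8 * A) := by
      rw [Real.sqrt_le_left (by positivity)]
      have h2 : 2 * e0 * (8 * A / ε) ^ 2 < N := (le_max_right _ _).trans_lt hN
      rw [div_le_iff₀ hN0]
      have h3 : 2 * e0 = (2 * e0 * (8 * A / ε) ^ 2) * (ε / (8 * A)) ^ 2 := by
        field_simp
      calc 2 * e0 = (2 * e0 * (8 * A / ε) ^ 2) * (ε / (8 * A)) ^ 2 := h3
        _ ≤ N * (ε / (8 * A)) ^ 2 := by gcongr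
        _ = (ε / (8 * A)) ^ 2 * N := mul_comm _ _
    calc A * (2 * Real.sqrt (2 * e0 / N)) ≤ A * (2 * (ε / (8 * A))) := by gcongr
      _ = ε / 4 := by field_simp; ring
  set R : ℝ := Real.sqrt (2 * e0 * N) with hR
  -- gradients
  set δ : ℝ := min 1 (ε / (4 * (Real.sqrt (2 * e0) + 1))) with hδ
  have hδ0 : 0 < δ := lt_min one_pos (by positivity)
  have hδ1 : δ ≤ 1 := min_le_left _ _
  have hδe : δ * Real.sqrt (2 * e0) ≤ ε / 4 := by
    have h1 : δ ≤ ε / (4 * (Real.sqrt (2 * e0) + 1)) := min_le_right _ _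
    have h2 := Real.sqrt_nonneg (2 * e0)
    calc δ * Real.sqrt (2 * e0) ≤ ε / (4 * (Real.sqrt (2 * e0) + 1)) * (Real.sqrt (2 * e0) + 1) := by
          gcongr
          linarith
      _ = ε / 4 := by field_simp
  set ε₃ : ℝ := min (ε / 4) (δ ^ 2 / 4) with hε₃
  have hε₃0 : 0 < ε₃ := lt_min (by positivity) (by positivity)
  have hε₃1 : ε₃ ≤ ε / 4 := min_le_left _ _
  have hε₃2 : ε₃ ≤ δ ^ 2 / 4 := min_le_right _ _
  obtain ⟨s0, hs0⟩ := hV.lim (R + 1) ε₃ hε₃0
  refine ⟨s0, fun f hf hper s hs z z' hy => ?_⟩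
  have hlim := hs0 s hs
  have hgrad := grad_close L hδ0 hδ1 hε₃2 hlim
  set v := L.vel s with hv
  have hVf : Good (MV + M) (fun x t => V x t + f x t) := EscN.good_add hMV hf
  have hVper : ∀ n x t, V (L.dk n x) t + f (L.dk n x) t = V x t + f x t := fun n x t => by
    rw [hV.pot.perd, hper]
  have hz := mem_S L z
  have hz' := mem_S L z'
  have hbd1 := (hb₁ _ hVf hVper s).1 z hz z' hz' hy
  have hbd2 := (hb₂ f hf hper s).1 z hz z' hz' hy
  -- the two Lagrangians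
  set q : E → E → ℝ → ℝ := fun x u t => ‖u - v‖ ^ 2 / 2 + (V x t + f x t) with hq
  have hlagq : ∀ x u' t, ‖u' - v‖ ≤ R → |L.lag f s x u' t - q x u' t| ≤ ε₃ := by
    intro x u' t h
    have h1 := hlim x (u' - v) t (by linarith)
    have e1 : L.vel s + (u' - v) = u' := by rw [hv]; abel
    rw [e1] at h1
    have e2 : L.lag f s x u' t - q x u' t =
        L.l x u' t - L.h (L.vel s) - inner ℝ (L.mom s) (u' - v) - ‖u' - v‖ ^ 2 / 2 - V x t := by
      simp only [SpL.lag, hq, hv]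
      ring
    rw [e2]
    exact h1
  have hqlow : ∀ x x' u u' t, ‖u' - v‖ ≤ R →
      q x' u' t + inner ℝ (u' - v) (u - u') - A * ‖x - x'‖ - δ * ‖u - u'‖ ≤ q x u t := by
    intro x x' u u' t _
    have h1 : ‖u - v‖ ^ 2 = ‖u' - v‖ ^ 2 + 2 * inner ℝ (u' - v) (u - u') + ‖u - u'‖ ^ 2 := by
      have e1 : u - v = (u' - v) + (u - u') := by abel
      rw [e1, norm_add_sq_real]
    have h2 := (abs_le.1 (hVf.lipx x' x t)).2
    have h3 : (MV + M) * ‖x' - x‖ ≤ A * ‖x - x'‖ := by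
      rw [norm_sub_rev]
      have : MV + M ≤ A := by
        rw [hA]
        linarith [le_abs_self (MV + M), abs_nonneg M]
      gcongr
    have h4 : 0 ≤ δ * ‖u - u'‖ := by positivity
    have h5 : 0 ≤ ‖u - u'‖ ^ 2 := by positivity
    simp only [hq]
    linarith
  have hllow : ∀ x x' u u' t, ‖u' - v‖ ≤ R →
      L.lag f s x' u' t + inner ℝ (u' - v) (u - u') - A * ‖x - x'‖ - δ * ‖u - u'‖ ≤
        L.lag f s x u t := by
    intro x x' u u' t h
    have h1 := L.l_low x' u u' t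
    have h2 := hgrad x' u' t h
    have h3 := (abs_le.1 (L.l_x x' x u t)).2
    have h4 := (abs_le.1 (hf.lipx x' x t)).2
    have h5 : (inner ℝ (L.lu x' u' t - L.mom s - (u' - v)) (u - u') : ℝ) ≥ -(δ * ‖u - u'‖) := by
      have h6 := abs_real_inner_le_norm (L.lu x' u' t - L.mom s - (u' - v)) (u - u')
      have h7 : ‖L.lu x' u' t - L.mom s - (u' - v)‖ * ‖u - u'‖ ≤ δ * ‖u - u'‖ := by gcongr
      linarith [(abs_le.1 h6).1]
    rw [inner_sub_left, inner_sub_left] at h5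
    have h8 : (L.Λ + M) * ‖x - x'‖ ≤ A * ‖x - x'‖ := by
      have : L.Λ + M ≤ A := by
        rw [hA]
        linarith [le_abs_self M, abs_nonneg (MV + M)]
      gcongr
    have h9 : 0 ≤ L.m / 2 * ‖u - u'‖ ^ 2 := by positivity
    have h10 : ‖x' - x‖ = ‖x - x'‖ := norm_sub_rev _ _
    rw [h10] at h3 h4
    have h11 : (inner ℝ (L.mom s) (u - L.vel s) : ℝ) =
        inner ℝ (L.mom s) (u' - L.vel s) + inner ℝ (L.mom s) (u - u') := by
      rw [← inner_add_right]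
      congr 1
      abel
    unfold SpL.lag
    rw [h11]
    nlinarith
  have iq : ∀ z u, Adm u → IntervalIntegrable (fun t => q (traj 0 z u t) (u t) t) volume 0 1 :=
    fun z u hu => Esc.act_ii hVf v 0 z hu 0 1
  have il : ∀ z u, Adm u →
      IntervalIntegrable (fun t => L.lag f s (traj 0 z u t) (u t) t) volume 0 1 :=
    fun z u hu => (lag_ck L hf s).ii hu 0 z 0 1
  have hsl : 0 < min (ε / 4) 1 := lt_min (by positivity) one_pos
  rw [abs_le]
  constructor
  · -- from a near-minimizer of the general action to the quadratic one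
    obtain ⟨n, hn⟩ := EscF.kbar_attained L hf s hz hz'
    obtain ⟨u, hu, -, hend, hact⟩ := EscF.exists_act_lt L hf s one_pos hz (mem_S L (L.dk n z')) hsl
    rw [← hn] at hact
    have hlow : L.m * (∫ t in (0 : ℝ)..1, ‖u t - v‖ ^ 2 / 2) - (L.Λ + M) ≤ L.act f s 0 1 z u := by
      have h1 : (∫ t in (0 : ℝ)..1, (L.m * (‖u t - v‖ ^ 2 / 2) - (L.Λ + M))) ≤
          ∫ t in (0 : ℝ)..1, L.lag f s (traj 0 z u t) (u t) t := by
        refine integral_mono_on zero_le_one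
          ((((hu.sub_const v).sq_ii 0 1).const_mul L.m).sub (by simp)) (il z u hu) fun t _ => ?_
        have h2 := lag_lower L hf s (traj 0 z u t) (u t) t
        calc L.m * (‖u t - v‖ ^ 2 / 2) - (L.Λ + M) = L.m / 2 * ‖u t - L.vel s‖ ^ 2 - (L.Λ + M) := by
              rw [hv]; ring
          _ ≤ _ := h2
      rw [integral_sub (((hu.sub_const v).sq_ii 0 1).const_mul L.m) (by simp),
        intervalIntegral.integral_const_mul, intervalIntegral.integral_const, sub_zero, one_smul] at h1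
      exact h1
    have he : (∫ t in (0 : ℝ)..1, ‖u t - v‖ ^ 2 / 2) ≤ e0 := by
      refine le_trans ?_ he02
      rw [le_div_iff₀ hm]
      have h1 := (abs_le.1 hbd2).2
      have h2 := min_le_right (ε / 4) 1
      linarith
    obtain ⟨u', hu', htr, hle⟩ := cmp_act (v := v) (q₁ := L.lag f s) (q₂ := q) hApos.le hδ0.le
      hllow (ε₂ := ε₃) (fun x u' t h => by linarith [(abs_le.1 (hlagq x u' t h)).1]) il iq hu z he
      hNpos le_rfl
    have h1 := EscN.kbar_le_ker L.toSp hVf s hz hz' n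
    have h2 := EscN.ker_le_act' (S := L.S) hVf (L.vel s) one_pos (z := z) (z' := L.dk n z') hu'
      (inS L 0 1 z u') (by rw [htr, hend])
    have h3 : act (fun x t => V x t + f x t) (L.vel s) 0 1 z u' = actl q 0 1 z u' := rfl
    have h4 : L.act f s 0 1 z u = actl (L.lag f s) 0 1 z u := rfl
    rw [h3] at h2
    rw [h4] at hact
    have h5 := min_le_left (ε / 4) 1
    linarith
  · obtain ⟨n, hn⟩ := EscN.kbar_attained L.toSp hVf s hz hz'
    obtain ⟨u, hu, -, hend, hact⟩ := EscN.exists_act_lt L.toSp hVf (L.vel s) one_pos hz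
      (mem_S L (L.dk n z')) hsl
    rw [← hn] at hact
    have he : (∫ t in (0 : ℝ)..1, ‖u t - v‖ ^ 2 / 2) ≤ e0 := by
      have h1 := Esc.energy_le_act hVf v zero_le_one z hu
      have h2 := (abs_le.1 hbd1).2
      have h3 := min_le_right (ε / 4) 1
      linarith
    obtain ⟨u', hu', htr, hle⟩ := cmp_act (v := v) (q₁ := q) (q₂ := L.lag f s) hApos.le hδ0.le
      hqlow (ε₂ := ε₃) (fun x u' t h => by linarith [(abs_le.1 (hlagq x u' t h)).2]) iq il hu z he
      hNpos le_rfl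
    have h1 := EscF.kbar_le_ker L hf s hz hz' n
    have h2 := EscF.ker_le_act' L hf s one_pos (z := z) (z' := L.dk n z') hu'
      (inS L 0 1 z u') (by rw [htr, hend])
    have h3 : act (fun x t => V x t + f x t) (L.vel s) 0 1 z u = actl q 0 1 z u := rfl
    have h4 : L.act f s 0 1 z u' = actl (L.lag f s) 0 1 z u' := rfl
    rw [h3] at hact
    rw [h4] at h2
    have h5 := min_le_left (ε / 4) 1
    linarith

end ModuleA

end EscF
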