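import Pool.Agent.helper33.Esc.Defs

/-!
Project EscF: actions and kernels of general convex Lagrangians on a Euclidean space.
-/

noncomputable section

namespace EscF

open MeasureTheory Set Filter Topology Esc
open scoped ContDiff

variable {E : Type*} [NormedAddCommGroup E] [InnerProductSpace ℝ E]

/-- action of the Lagrangian `l x u t` -/
def actl (l : E → E → ℝ → ℝ) (a b : ℝ) (z : E) (u : ℝ → E) : ℝ :=
  ∫ t in a..b, l (traj a z u t) (u t) t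

/-- minimal action kernel -/
def kerl (l : E → E → ℝ → ℝ) (a b : ℝ) (z z' : E) : ℝ :=
  sInf {c | ∃ u : ℝ → E, Adm u ∧ traj a z u b = z' ∧ c = actl l a b z u}

/-- `l` is strongly convex in the velocity with gradient `lu`, Lipschitz in position and time, and
controlled at the velocity `v0` -/
structure CK (l : E → E → ℝ → ℝ) (lu : E → E → ℝ → E) (v0 : E) (m Λ : ℝ) : Prop where
  m_pos : 0 < m
  Λ_ge : 1 ≤ Λ
  low : ∀ x u v t, l x v t + inner ℝ (lu x v t) (u - v) + m / 2 * ‖u - v‖ ^ 2 ≤ l x u t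
  upp : ∀ x u v t, l x u t ≤ l x v t + inner ℝ (lu x v t) (u - v) + Λ * ‖u - v‖ ^ 2
  l_x : ∀ x x' v t, |l x v t - l x' v t| ≤ Λ * ‖x - x'‖
  l_t : ∀ x v t t', |l x v t - l x v t'| ≤ Λ * |t - t'|
  lu_lip : ∀ x v t x' v' t', ‖lu x v t - lu x' v' t'‖ ≤ Λ * (‖x - x'‖ + ‖v - v'‖ + |t - t'|)
  c0 : ∀ x t, |l x v0 t| ≤ Λ
  c1 : ∀ x t, ‖lu x v0 t‖ ≤ Λ

/-- moreover `l` is `C^{1,1}`, with gradient `lx` in the position -/
structure CL (l : E → E → ℝ → ℝ) (lx lu : E → E → ℝ → E) (v0 : E) (m Λ : ℝ) : Prop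
    extends CK l lu v0 m Λ where
  tay : ∀ x v x' v' t,
    |l x' v' t - l x v t - inner ℝ (lx x v t) (x' - x) - inner ℝ (lu x v t) (v' - v)| ≤
      Λ * (‖x' - x‖ + ‖v' - v‖) ^ 2
  lx_bd : ∀ x v t, ‖lx x v t‖ ≤ Λ
  lx_lip : ∀ x v t x' v' t', ‖lx x v t - lx x' v' t'‖ ≤ Λ * (‖x - x'‖ + ‖v - v'‖ + |t - t'|)

end EscF
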