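import Pool.Agent.EscF.K2b
import Pool.Agent.EscN.Red

/-!
Module Red of project EscF: reduction to one-dimensional sequences, geometry of the rooms.
-/

noncomputable section

namespace EscF

open MeasureTheory Set Filter Topology Esc EscN

variable {d : ℕ} {E : Type*} [NormedAddCommGroup E] [InnerProductSpace ℝ E] [FiniteDimensional ℝ E]
  (L : SpL d E)

omit [FiniteDimensional ℝ E] in
/-- the slow coordinate is `1`-Lipschitz -/
theorem y_lip (a b : E) : |L.y a - L.y b| ≤ dist a b := EscN.y_lip L.toSp a b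

theorem room_eq (p : ℝ) : Rm L.S L.y p = L.room p := rfl

theorem y_setY (x : E) (η : ℝ) : L.y (L.setY x η) = η := EscN.y_setY L.toSp x η

theorem setY_self (x : E) : L.setY x (L.y x) = x := EscN.setY_self L.toSp x

theorem geo (p : ℝ) : Geo L.S (L.cell p) L.y L.gi L.gd (EscN.Rl L.toSp) p := EscN.geo L.toSp p

theorem kInv {f : E → ℝ → ℝ} (hf : L.IsPot f) (s : ℝ) :
    KInv (L.kbar f s) L.S L.gi (EscN.Rl L.toSp) where
  shift := fun z _ w _ => by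
    have := kbar_perg L hf.perg s (L.gi z) (L.gi w)
    rw [gd_gi, gd_gi] at this
    exact this.symm
  left := fun z w x _ _ _ h => by
    obtain ⟨n, rfl⟩ := h
    have := kbar_per L hf.perd s z x n 0
    rw [dk_zero] at this
    exact this.symm
  right := fun z w x _ _ _ h => by
    obtain ⟨n, rfl⟩ := h
    have := kbar_per L hf.perd s x z 0 n
    rw [dk_zero] at this
    exact this.symm

theorem setY_ok : SetY L.S L.y L.setY := EscN.setY_ok L.toSp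

theorem nearSum {M0 κ s : ℝ} {Sy : ℝ → ℝ → ℝ} {f : E → ℝ → ℝ} (hW : L.DatW M0 Sy κ f) (hs : M0 ≤ s) :
    NearSum (L.kbar f s) L.S L.y L.setY Sy κ := by
  obtain ⟨R, h1, h2⟩ := hW s hs
  exact ⟨R, fun z _ z' _ η η' => h1 z z' η η', h2⟩

/-- the one-dimensional data of a potential of the data class -/
theorem sdata_of_dat {p β M0 : ℝ} {f : E → ℝ → ℝ} (hD : L.Dat p β M0 f) :
    ∃ (Sy : ℝ → ℝ → ℝ) (e0 : ℝ), SData Sy p β 0 e0 (β ^ 2 / 200) ∧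
      ∃ κ, 0 ≤ κ ∧ κ < β ^ 2 / 200 ∧ L.DatW M0 Sy κ f := by
  obtain ⟨Sy, e0, κ, h1, h2, h3, h4⟩ := hD.ex
  exact ⟨Sy, e0, h1, κ, h2, h3, h4⟩

/-- minimal paths have near-minimal slow sequences -/
theorem nmin_of_datW {p β M0 κ s : ℝ} {Sy : ℝ → ℝ → ℝ} {f : E → ℝ → ℝ} {B Λ : ℝ}
    (hK : KD (L.kbar f s) (L.cell p) (L.room p) B Λ) (hW : L.DatW M0 Sy κ f)
    (hκ : κ ≤ β ^ 2 / 200) (hs : M0 ≤ s) :
    NMin (L.kbar f s) (L.cell p) (L.room p) L.y Sy p (β ^ 2 / 200) := by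
  intro T x hT hx hmin
  exact EscN.NM.mono (nmin_of_near (S := L.S) (p := p) (setY_ok L) hK (nearSum L hW hs) T x hT hx hmin) hκ

theorem nm_of_min {p β M0 κ s : ℝ} {Sy : ℝ → ℝ → ℝ} {f : E → ℝ → ℝ} {B Λ : ℝ}
    (hK : KD (L.kbar f s) (L.cell p) (L.room p) B Λ) (hW : L.DatW M0 Sy κ f)
    (hκ : κ ≤ β ^ 2 / 200) (hs : M0 ≤ s)
    {T : ℕ} (hT : 1 ≤ T) {x : ℕ → E} (hx : ∀ k ≤ T, x k ∈ L.room p)
    (hmin : cost (L.kbar f s) x T ≤ kp (L.kbar f s) (L.cell p) T (x 0) (x T)) :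
    NM Sy p (β ^ 2 / 200) T (fun k => L.y (x k)) :=
  nmin_of_datW L hK hW hκ hs T x hT hx hmin

/-- minimal paths of transitions stay away from the boundary of the room -/
theorem trans_room_dat {p β M0 s : ℝ} {f : E → ℝ → ℝ} {B Λ : ℝ} (hD : L.Dat p β M0 f)
    (hK : KD (L.kbar f s) (L.cell p) (L.room p) B Λ) (hs : M0 ≤ s)
    {T : ℕ} (hT : 2 * Lat.R1 β + 2 ≤ T) {x : ℕ → E} (hx : ∀ k ≤ T, x k ∈ L.room p)
    (hmin : cost (L.kbar f s) x T = kp (L.kbar f s) (L.cell p) T (x 0) (x T))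
    (h0 : -(3/4) ≤ L.y (x 0) - p ∧ L.y (x 0) - p ≤ -(1/4)) (h1 : 1/4 ≤ L.y (x T) - p ∧ L.y (x T) - p ≤ 3/4)
    {k : ℕ} (hk : k ≤ T) : |L.y (x k) - p| ≤ 3 / 4 := by
  obtain ⟨Sy, e0, hS, κ, _, hκ, hW⟩ := sdata_of_dat L hD
  exact trans_room (S := L.S) hS (nmin_of_datW L hK hW hκ.le hs) hT hx hmin h0 h1 hk

/-- a point of the middle strip where the sum of the barriers is almost minimal -/
theorem mid_point_dat {p β M0 s s' δ : ℝ} {f : E → ℝ → ℝ} (hf : L.IsPot f) (hD : L.Dat p β M0 f)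
    (hs : M0 ≤ s) (hs' : M0 ≤ s')
    (hδ : ∀ z ∈ L.room p, ∀ z' ∈ L.room p, |L.kbar f s z z' - L.kbar f s' z z'| ≤ δ)
    {zs : E} (hzs : zs ∈ L.room p) :
    ∃ z0 ∈ L.S, 3 / 8 ≤ L.y z0 - p ∧ L.y z0 - p ≤ 5 / 8 ∧
      ∀ z ∈ L.S, 1 / 8 ≤ L.y z - p → L.y z - p ≤ 7 / 8 →
      bar (L.kbar f s) (L.cell p) zs z0 + bar (L.kbar f s') (L.cell p) (L.gi z0) zs ≤
      bar (L.kbar f s) (L.cell p) zs z + bar (L.kbar f s') (L.cell p) (L.gi z) zs
        + 2 * Lat.R1 β * δ := by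
  obtain ⟨M, hM⟩ := isPot_good L.toSp hf
  obtain ⟨B, Λ, hB, hΛ, hKD⟩ := kd_kbar L M
  have hK : ∀ s, KD (L.kbar f s) (L.cell p) (L.room p) B Λ := fun s => hKD f hM hf.perd s p
  obtain ⟨Sy, e0, hS, κ, _, hκ, hW⟩ := sdata_of_dat L hD
  exact mid_point (geo L p) (hK s) (hK s') (kInv L hf s) (kInv L hf s') hS
    (nmin_of_datW L (hK s) hW hκ.le hs) (nmin_of_datW L (hK s') hW hκ.le hs') hδ hzs

end EscF
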