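import Pool.Agent.EscN.Dec
import Pool.Agent.EscF.Red

/-!
Approximate decoupling at a given speed is open and dense.
-/

noncomputable section

set_option linter.unusedSectionVars false

namespace EscF

open MeasureTheory Set Filter Topology Esc EscN
open scoped ContDiff

variable {d : ℕ} {E : Type*} [NormedAddCommGroup E] [InnerProductSpace ℝ E] [FiniteDimensional ℝ E]
  (L : SpL d E)

/-! ### Locality lemma -/

theorem kbar_tubeS {M B : ℝ} {f f' : E → ℝ → ℝ} (hf : Good M f) (hf' : Good M f')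
    (hp : ∀ n x t, f (L.dk n x) t = f x t) (hp' : ∀ n x t, f' (L.dk n x) t = f' x t)
    (s : ℝ) {z z' : E} (hz : z ∈ L.S) (hz' : z' ∈ L.S)
    (hB : L.kbar f' s z z' ≤ B) {w : ℝ} (hw : 0 < w) (hw' : w < 1 / 2)
    (κ : ℝ → ℝ) (hκ : IntervalIntegrable κ volume 0 1)
    (h0 : ∀ t ∈ Icc 0 w, ∀ r : E, z + t • L.vel s + r ∈ L.S →
      ‖r‖ ≤ Real.sqrt (L.tb B M * w) →
      f (z + t • L.vel s + r) t + κ t ≤ f' (z + t • L.vel s + r) t)
    (h1 : ∀ t ∈ Icc (1 - w) 1, ∀ r : E, z' - (1 - t) • L.vel s + r ∈ L.S →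
      ‖r‖ ≤ Real.sqrt (L.tb B M * w) →
      f (z' - (1 - t) • L.vel s + r) t + κ t ≤ f' (z' - (1 - t) • L.vel s + r) t)
    (hm : ∀ t ∈ Ioo w (1 - w), ∀ x ∈ L.S, f x t + κ t ≤ f' x t) :
    L.kbar f s z z' + ∫ t in (0:ℝ)..1, κ t ≤ L.kbar f' s z z' := by
  have hS : ∀ x : E, x ∈ L.S := fun x => by rw [L.S_univ]; exact mem_univ x
  exact kbar_tube L hf hf' hp hp' s hz hz' hB hw hw' κ hκ
    (fun t ht r hr => h0 t ht r (hS _) hr) (fun t ht r hr => h1 t ht r (hS _) hr)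
    (fun t ht x => hm t ht x (hS x))

/-! ### The decoupling property -/

/-- the segment kernel at speed `s` is decoupled up to an error `< η` for some finite set of durations -/
def Dec (p s η : ℝ) (f : E → ℝ → ℝ) : Prop :=
  ∃ (F : Finset ℕ) (c : ℕ → ℝ) (η' : ℝ), F.Nonempty ∧ (∀ T ∈ F, 1 ≤ T) ∧ η' < η ∧
    ∀ z ∈ L.room p, ∀ z' ∈ L.room p, ∀ w ∈ L.room p, ∀ w' ∈ L.room p,
      |L.seg f p s F c z z' + L.seg f p s F c w w' - L.seg f p s F c z w' - L.seg f p s F c w z'| ≤ η'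

theorem DecB.seg_sub_le {p ρ : ℝ} {f f' : E → ℝ → ℝ} (hf : L.IsPot f) (hf' : L.IsPot f')
    (h : ∀ x t, |f x t - f' x t| ≤ ρ) (s : ℝ) {F : Finset ℕ} (hF : F.Nonempty) (hF1 : ∀ T ∈ F, 1 ≤ T)
    (c : ℕ → ℝ) {z z' : E} (hz : z ∈ L.room p) (hz' : z' ∈ L.room p) :
    |L.seg f p s F c z z' - L.seg f' p s F c z z'| ≤ ρ * F.sup id := by
  obtain ⟨M, hM⟩ := isPot_good L.toSp hf
  obtain ⟨M', hM'⟩ := isPot_good L.toSp hf'
  have h1 := DecB.mono hM (le_max_left M M')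
  have h2 := DecB.mono hM' (le_max_right M M')
  obtain ⟨B, Λ, hB, hΛ, hKD⟩ := kd_kbar L (max M M')
  exact gk_sub_le (hKD f h1 hf.perd s p) (hKD f' h2 hf'.perd s p)
    (fun z hz z' hz' => kbar_sub_le L h1 h2 (fun x _ t => h x t) s hz.1 hz'.1) hF hF1 c hz hz'

theorem dec_open {p s η : ℝ} {f : E → ℝ → ℝ} (hf : L.IsPot f) (h : Dec L p s η f) :
    ∃ ρ > 0, ∀ f', L.IsPot f' → (∀ x t, |f x t - f' x t| ≤ ρ) → Dec L p s η f' := by
  obtain ⟨F, c, η', hF, hF1, hη', hd⟩ := h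
  have hpos : (0:ℝ) < 4 * ((F.sup id : ℕ) + 1) := by positivity
  refine ⟨(η - η') / 2 / (4 * ((F.sup id : ℕ) + 1)), by
    have : 0 < (η - η') / 2 := by linarith
    positivity, fun f' hf' hff => ?_⟩
  refine ⟨F, c, (η + η') / 2, hF, hF1, by linarith, fun z hz z' hz' w hw w' hw' => ?_⟩
  have hs : ∀ a ∈ L.room p, ∀ b ∈ L.room p,
      |L.seg f p s F c a b - L.seg f' p s F c a b| ≤ (η - η') / 8 := by
    intro a ha b hb
    refine (DecB.seg_sub_le L hf hf' hff s hF hF1 c ha hb).trans ?_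
    have e1 : (η - η') / 2 / (4 * ((F.sup id : ℕ) + 1)) * ((F.sup id : ℕ) : ℝ) ≤
        (η - η') / 2 / (4 * ((F.sup id : ℕ) + 1)) * ((F.sup id : ℕ) + 1) := by
      apply mul_le_mul_of_nonneg_left (by linarith)
      have : 0 < (η - η') / 2 := by linarith
      positivity
    refine e1.trans (le_of_eq ?_)
    field_simp
    ring
  have k1 := abs_le.1 (hs z hz z' hz')
  have k2 := abs_le.1 (hs w hw w' hw')
  have k3 := abs_le.1 (hs z hz w' hw')
  have k4 := abs_le.1 (hs w hw z' hz')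
  have k5 := abs_le.1 (hd z hz z' hz' w hw w' hw')
  rw [abs_le]
  constructor <;> linarith [k1.1, k1.2, k2.1, k2.2, k3.1, k3.2, k4.1, k4.2, k5.1, k5.2]

/-- consequence for the barrier -/
theorem dec_bar {p s η : ℝ} {f : E → ℝ → ℝ} (hf : L.IsPot f) (h : Dec L p s η f) :
    ∀ z ∈ L.room p, ∀ z' ∈ L.room p, ∀ w ∈ L.room p, ∀ w' ∈ L.room p,
      |bar (L.kbar f s) (L.cell p) z z' + bar (L.kbar f s) (L.cell p) w w'
        - bar (L.kbar f s) (L.cell p) z w' - bar (L.kbar f s) (L.cell p) w z'| ≤ 4 * η := by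
  obtain ⟨F, c, η', hF, hF1, hη', hd⟩ := h
  obtain ⟨M, hM⟩ := isPot_good L.toSp hf
  obtain ⟨B, Λ, hB, hΛ, hKD⟩ := kd_kbar L M
  have hK := hKD f hM hf.perd s p
  obtain ⟨z0, hz0⟩ := hK.ne
  have hz0 := hK.sub hz0
  obtain ⟨b', hb'⟩ := bar_decoupled hK hF hF1 c (a := fun z => L.seg f p s F c z z0)
    (b := fun z' => L.seg f p s F c z0 z' - L.seg f p s F c z0 z0) (ε := η') (fun z hz z' hz' => by
      have := hd z hz z' hz' z0 hz0 z0 hz0
      refine le_trans (le_of_eq ?_) this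
      congr 1
      simp only [SpL.seg]
      ring)
  intro z hz z' hz' w hw w' hw'
  have k1 := abs_le.1 (hb' z hz z' hz')
  have k2 := abs_le.1 (hb' w hw w' hw')
  have k3 := abs_le.1 (hb' z hz w' hw')
  have k4 := abs_le.1 (hb' w hw z' hz')
  rw [abs_le]
  constructor <;> linarith [k1.1, k1.2, k2.1, k2.2, k3.1, k3.2, k4.1, k4.2]

/-! ### Preparations -/

/-- the data class is `C^0`-open -/
theorem DecB.dat_open {p β M0 : ℝ} {f : E → ℝ → ℝ} (hf : L.IsPot f) (h : L.Dat p β M0 f) :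
    ∃ ρ > 0, ∀ f', L.IsPot f' → (∀ x t, |f x t - f' x t| ≤ ρ) → L.Dat p β M0 f' := by
  obtain ⟨Sy, e0, κ, hS, hκ0, hκ, hDW⟩ := h.ex
  refine ⟨(β ^ 2 / 200 - κ) / 2, by linarith, fun f' hf' hff => ⟨h.β_pos, h.β_le, h.M0_ge, Sy, e0,
    κ + (β ^ 2 / 200 - κ) / 2, hS, by linarith, by linarith, fun s hs => ?_⟩⟩
  obtain ⟨M, hM⟩ := isPot_good L.toSp hf
  obtain ⟨M', hM'⟩ := isPot_good L.toSp hf'
  obtain ⟨R, h1, h2⟩ := hDW s hs
  refine ⟨R, h1, fun z hz z' hz' hy => ?_⟩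
  have h3 := h2 z hz z' hz' hy
  have h4 := kbar_sub_le L (DecB.mono hM (le_max_left M M')) (DecB.mono hM' (le_max_right M M'))
    (fun x _ t => hff x t) s hz hz'
  rw [abs_le] at h3 h4 ⊢
  constructor <;> linarith [h3.1, h3.2, h4.1, h4.2]

/-- the data class gives near-minimality of optimal paths -/
lemma DecB.nmin {p β M0 s : ℝ} {f : E → ℝ → ℝ} (hD : L.Dat p β M0 f) (hs : M0 ≤ s)
    {B Λ : ℝ} (hK : KD (L.kbar f s) (L.cell p) (L.room p) B Λ) :
    ∃ (Sy : ℝ → ℝ → ℝ) (β Φ e0 ε : ℝ), SData Sy p β Φ e0 ε ∧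
      NMin (L.kbar f s) (L.cell p) (Rm L.S L.y p) L.y Sy p ε := by
  obtain ⟨Sy, e0, κ, hS, hκ0, hκ, hDW⟩ := hD.ex
  refine ⟨Sy, β, 0, e0, β ^ 2 / 200, hS, nmin_of_near (DecB.setY L.toSp) hK ?_⟩
  obtain ⟨R, hR1, hR2⟩ := hDW s hs
  exact ⟨R, fun z _ z' _ η η' => hR1 z z' η η', fun z hz z' hz' hy =>
    (hR2 z hz z' hz' hy).trans hκ.le⟩

theorem dec_dense (hd : 0 < d) {p β M0 s η : ℝ} {f : E → ℝ → ℝ} (hf : L.IsPot f)
    (hD : L.Dat p β M0 f) (hs : M0 ≤ s) (hη : 0 < η) (N : L.SmNorm) {ε : ℝ} (hε : 0 < ε) :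
    ∃ G, L.IsSm G ∧ N.nm G < ε ∧ Good ε G ∧ Dec L p s η (fun x t => f x t + G x t) := by
  classical
  have _ := hd
  obtain ⟨M, hM⟩ := isPot_good L.toSp hf
  obtain ⟨B, Λ, hB, hΛ, hKD⟩ := kd_kbar L (M + 1)
  obtain ⟨ρ, hρ, hopen⟩ := DecB.dat_open L hf hD
  have hM0 := hM.pos
  obtain ⟨ρ1, hρ1, hcells⟩ := DecB.cells L.toSp
  obtain ⟨ρ2, hρ2, hbump⟩ := exists_bump L.toSp
  -- radius
  obtain ⟨r, hr0, hrρ1, hrρ2, hr16, hrη⟩ : ∃ r : ℝ, 0 < r ∧ r ≤ ρ1 ∧ r ≤ ρ2 ∧ r ≤ 1 / 16 ∧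
      8 * (Λ * (8 * r)) ≤ η / 2 := by
    refine ⟨min (min ρ1 ρ2) (min (1 / 16) (η / (128 * Λ))), ?_, ?_, ?_, ?_, ?_⟩
    · exact lt_min (lt_min hρ1 hρ2) (lt_min (by norm_num) (by positivity))
    · exact (min_le_left _ _).trans (min_le_left _ _)
    · exact (min_le_left _ _).trans (min_le_right _ _)
    · exact (min_le_right _ _).trans (min_le_left _ _)
    · have h1 : min (min ρ1 ρ2) (min (1 / 16) (η / (128 * Λ))) ≤ η / (128 * Λ) :=
        (min_le_right _ _).trans (min_le_right _ _)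
      rw [le_div_iff₀ (by positivity)] at h1
      linarith
  set rr : ℝ := Λ * (8 * r) with hrr
  have hrr0 : 0 ≤ rr := by rw [hrr]; positivity
  obtain ⟨C, hCne, hCS, hcov⟩ := hcells p r hr0 hrρ1
  choose! g hg using fun c (hc : c ∈ L.S) => hbump r hr0 hrρ2 c hc
  have hg0 : ∀ c ∈ C, ∀ x, 0 ≤ g c x := fun c hc x => ((hg c (hCS c hc).1).1 x).1
  have hg1 : ∀ c ∈ C, ∀ x, cl L.toSp (2 * r) c x → g c x = 1 := fun c hc => (hg c (hCS c hc).1).2.1
  have hgz : ∀ c ∈ C, ∀ x, ¬ cl L.toSp (3 * r) c x → g c x = 0 := fun c hc => (hg c (hCS c hc).1).2.2.1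
  have hgs : ∀ c ∈ C, ∀ w : ℝ, L.IsSm (fun x t => g c x * H33.zt w t) :=
    fun c hc => (hg c (hCS c hc).1).2.2.2
  have hsum : ∀ x ∈ L.S, 1 ≤ ∑ c ∈ C, g c x := by
    intro x hx
    obtain ⟨c, hc, hcl⟩ := hcov x hx
    have h1 := hg1 c hc x (DecB.cl_mono L.toSp hcl (by linarith))
    rw [← h1]
    exact Finset.single_le_sum (f := fun c => g c x) (fun c hc => hg0 c hc x) hc
  -- time width
  obtain ⟨w, hw0, hw2, hw⟩ := DecB.exists_w ‖L.vel s‖ (L.tb B (M + 1)) r hr0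
  have htube : ∀ t ∈ Icc (0:ℝ) w, ∀ a : E, ‖a‖ ≤ Real.sqrt (L.tb B (M + 1) * w) →
      ‖t • L.vel s + a‖ ≤ r := by
    intro t ht a ha
    refine le_trans ?_ hw
    refine (norm_add_le _ _).trans (add_le_add ?_ ha)
    rw [norm_smul, Real.norm_eq_abs, abs_of_nonneg ht.1]
    exact mul_le_mul_of_nonneg_right ht.2 (norm_nonneg _)
  -- amplitude
  have hgood : ∀ c, ∃ Ck, c ∈ C → Good Ck (fun x t => g c x * H33.zt w t) := fun c => by
    by_cases hc : c ∈ C
    · obtain ⟨Ck, h⟩ := isPot_good L.toSp (isSm_isPot L.toSp (hgs c hc w))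
      exact ⟨Ck, fun _ => h⟩
    · exact ⟨0, fun h => absurd h hc⟩
  choose Ck hCk using hgood
  set gz : E → E → ℝ → ℝ := fun c x t => g c x * H33.zt w t with hgz'
  set Kb : ℝ := 1 + ∑ c ∈ C, (Ck c + |N.nm (gz c)|) with hKb
  have hterm : ∀ c ∈ C, 0 ≤ Ck c + |N.nm (gz c)| := fun c hc =>
    add_nonneg (hCk c hc).pos (abs_nonneg _)
  have hKbk : ∀ c ∈ C, Ck c + |N.nm (gz c)| ≤ Kb := by
    intro c hc
    have := Finset.single_le_sum (f := fun c => Ck c + |N.nm (gz c)|)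
      (fun c hc => hterm c hc) hc
    linarith
  have hKb1 : 1 ≤ Kb := by
    have : 0 ≤ ∑ c ∈ C, (Ck c + |N.nm (gz c)|) := Finset.sum_nonneg fun c hc => hterm c hc
    linarith
  set mm : ℝ := min (min ρ 1) ε with hmm
  have hmm0 : 0 < mm := lt_min (lt_min hρ one_pos) hε
  set τ : ℝ := mm / (2 * Kb) with hτ
  have hτ0 : 0 < τ := by positivity
  have hτC : ∀ c ∈ C, τ * (Ck c + |N.nm (gz c)|) ≤ mm / 2 := by
    intro c hc
    have h1 := mul_le_mul_of_nonneg_left (hKbk c hc) hτ0.le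
    have h2 : τ * Kb = mm / 2 := by rw [hτ]; field_simp
    linarith
  have hτ1 : ∀ c ∈ C, τ * Ck c ≤ mm / 2 := fun c hc => by
    have := hτC c hc
    have h2 : 0 ≤ τ * |N.nm (gz c)| := by positivity
    linarith
  have hτ2 : ∀ c ∈ C, τ * |N.nm (gz c)| ≤ mm / 2 := fun c hc => by
    have := hτC c hc
    have h2 : 0 ≤ τ * Ck c := mul_nonneg hτ0.le (hCk c hc).pos
    linarith
  have hmε : mm ≤ ε := min_le_right _ _
  have hmρ : mm ≤ ρ := (min_le_left _ _).trans (min_le_left _ _)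
  have hm1 : mm ≤ 1 := (min_le_left _ _).trans (min_le_right _ _)
  set G : E → E → ℝ → ℝ := fun c x t => (-τ) * gz c x t with hG
  have hGsm : ∀ c ∈ C, L.IsSm (G c) := fun c hc => DecB.isSm_smul L.toSp (hgs c hc w) (-τ)
  have hGg : ∀ c ∈ C, Good (mm / 2) (G c) := fun c hc => by
    refine DecB.mono (DecB.good_smul (hCk c hc) (-τ)) ?_
    rw [abs_neg, abs_of_pos hτ0]; exact hτ1 c hc
  set fk : E → E → ℝ → ℝ := fun c x t => f x t + G c x t with hfk
  have hfkg : ∀ c ∈ C, Good (M + 1) (fk c) := fun c hc =>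
    DecB.mono (DecB.good_add hM (hGg c hc)) (by linarith)
  have hfkp : ∀ c ∈ C, L.IsPot (fk c) := fun c hc => isPot_add L.toSp hf (isSm_isPot L.toSp (hGsm c hc))
  have hM1 : Good (M + 1) f := DecB.mono hM (by linarith)
  have hK := hKD f hM1 hf.perd s p
  have hKk : ∀ c ∈ C, KD (L.kbar (fk c) s) (L.cell p) (L.room p) B Λ := fun c hc =>
    hKD (fk c) (hfkg c hc) (hfkp c hc).perd s p
  have hcard : (0:ℝ) < C.card := by exact_mod_cast hCne.card_pos
  -- the average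
  have hav : ∀ z ∈ L.room p, ∀ z' ∈ L.room p,
      (∑ c ∈ C, L.kbar (fk c) s z z') / C.card ≤ L.kbar f s z z' - τ / C.card := by
    intro z hz z' hz'
    refine (kbar_concave L C hCne hfkg s hz.1 hz'.1).trans ?_
    have hFg := DecB.good_avg C hCne hfkg
    have hpt : ∀ x ∈ L.S, ∀ t, (∑ c ∈ C, fk c x t) / C.card + τ / C.card * H33.zt w t ≤ f x t := by
      intro x hx t
      have e1 : ∑ c ∈ C, fk c x t = C.card * f x t - τ * ((∑ c ∈ C, g c x) * H33.zt w t) := by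
        simp only [hfk, hG, hgz']
        rw [Finset.sum_add_distrib, Finset.sum_const, nsmul_eq_mul, ← Finset.mul_sum,
          ← Finset.sum_mul]
        ring
      have e2 := hsum x hx
      have e3 := H33.zt_nonneg hw0 hw2.le t
      have e4 : H33.zt w t ≤ (∑ c ∈ C, g c x) * H33.zt w t := by nlinarith
      have e6 : τ / C.card * H33.zt w t = τ * H33.zt w t / C.card := by ring
      rw [e1, e6, ← add_div, div_le_iff₀ hcard]
      have e5 := mul_le_mul_of_nonneg_left e4 hτ0.le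
      linarith
    have htb := kbar_tubeS L (B := B) hFg hM1 (fun n x t => by
        congr 1
        exact Finset.sum_congr rfl fun c hc => (hfkp c hc).perd n x t) hf.perd s hz.1 hz'.1
      ((abs_le.1 (hK.bd z hz z' hz')).2) hw0 hw2
      (fun t => τ / C.card * H33.zt w t)
      ((continuous_const.mul (H33.zt_cont w)).intervalIntegrable _ _)
      (fun t _ a ha _ => hpt _ ha _) (fun t _ a ha _ => hpt _ ha _) (fun t _ x hx => hpt _ hx _)
    rw [intervalIntegral.integral_const_mul, H33.zt_integral hw0 hw2.le, mul_one] at htb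
    linarith
  -- outside of the cell the kernels agree
  have hcmp : ∀ c ∈ C, ∀ z ∈ L.room p, ∀ z' ∈ L.room p, z ∉ {x : E | cl L.toSp (4 * r) c x} →
      z' ∉ {x : E | cl L.toSp (4 * r) c x} → L.kbar f s z z' ≤ L.kbar (fk c) s z z' := by
    intro c hc z hz z' hz' hzV hzV'
    have hzero : ∀ x a : E, x ∉ {x : E | cl L.toSp (4 * r) c x} → ‖a‖ ≤ r → g c (x + a) = 0 := by
      intro x a hx ha
      refine hgz c hc _ fun hcl => hx ?_
      have h1 := cl_shift L.toSp (x' := x) (s := r) hcl (by rw [dist_eq_norm, add_sub_cancel_left]; exact ha)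
      have e : 3 * r + r = 4 * r := by ring
      rw [e] at h1
      exact h1
    have htb := kbar_tubeS L (B := B) (f := f) (f' := fk c) hM1 (hfkg c hc) hf.perd (hfkp c hc).perd s
      hz.1 hz'.1 ((abs_le.1 ((hKk c hc).bd z hz z' hz')).2) hw0 hw2 (fun _ => 0)
      intervalIntegrable_const
      (fun t ht a _ ha => by
        have h1 := hzero z (t • L.vel s + a) hzV (htube t ht a ha)
        rw [← add_assoc] at h1
        simp only [hfk, hG, hgz', h1]
        simp)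
      (fun t ht a _ ha => by
        have h0 : ‖-((1 - t) • L.vel s) + a‖ ≤ r := by
          have h1 := htube (1 - t) ⟨by linarith [ht.2], by linarith [ht.1]⟩ (-a) (by rwa [norm_neg])
          have h2 : ‖-((1 - t) • L.vel s) + a‖ = ‖(1 - t) • L.vel s + -a‖ := by
            rw [← norm_neg]; congr 1; abel
          rwa [h2]
        have h1 := hzero z' (-((1 - t) • L.vel s) + a) hzV' h0
        have h2 : z' + (-((1 - t) • L.vel s) + a) = z' - (1 - t) • L.vel s + a := by abel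
        rw [h2] at h1
        simp only [hfk, hG, hgz', h1]
        simp)
      (fun t ht x _ => by
        have h1 := H33.zt_mid hw0 hw2.le (t := t) ⟨ht.1.le, ht.2.le⟩
        simp only [hfk, hG, hgz', h1]
        simp)
    simpa using htb
  -- barriers are almost constant on the visible part
  have hbar : ∀ c ∈ C, ∀ x ∈ L.room p, ∀ x' ∈ L.room p, x ∈ {x : E | cl L.toSp (4 * r) c x} →
      x' ∈ {x : E | cl L.toSp (4 * r) c x} → |L.y x - p| ≤ 1 / 8 → |L.y x' - p| ≤ 1 / 8 → ∀ z ∈ L.room p,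
      |bar (L.kbar (fk c) s) (L.cell p) z x - bar (L.kbar (fk c) s) (L.cell p) z x'| ≤ rr ∧
      |bar (L.kbar (fk c) s) (L.cell p) x z - bar (L.kbar (fk c) s) (L.cell p) x' z| ≤ rr := by
    intro c hc x hx x' hx' hxV hxV' hy hy' z hz
    have hK' := hKk c hc
    obtain ⟨m, hm⟩ := DecB.close L.toSp (by linarith) (hCS c hc).2 hxV hxV' hy hy'
    have hmr : L.dk m x' ∈ L.room p := by
      refine ⟨(S_dk L.toSp m).2 hx'.1, ?_⟩
      rw [y_dk]
      exact hx'.2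
    have e1 : bar (L.kbar (fk c) s) (L.cell p) z (L.dk m x') =
        bar (L.kbar (fk c) s) (L.cell p) z x' := by
      refine bar_red_right hK' (fun u _ => ?_) hz
      have := kbar_per L (hfkp c hc).perd s u x' 0 m
      rwa [dk_zero] at this
    have e2 : bar (L.kbar (fk c) s) (L.cell p) (L.dk m x') z =
        bar (L.kbar (fk c) s) (L.cell p) x' z := by
      refine bar_red_left hK' (fun u _ => ?_) hz
      have := kbar_per L (hfkp c hc).perd s x' u m 0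
      rwa [dk_zero] at this
    rw [← e1, ← e2]
    have b1 := bar_lip hK' hz hx hz hmr
    have b2 := bar_lip hK' hx hz hmr hz
    rw [dist_self, zero_add] at b1
    rw [dist_self, add_zero] at b2
    have b3 : Λ * dist x (L.dk m x') ≤ rr := mul_le_mul_of_nonneg_left hm hΛ.le
    exact ⟨b1.trans b3, b2.trans b3⟩
  obtain ⟨c, hc, hwin⟩ := dec_abs (S := L.S) (y := L.y) (p := p) hK C hCne
    (Ks := fun c => L.kbar (fk c) s) hKk (τ := τ / C.card) (by positivity) hav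
    (fun c => {x : E | cl L.toSp (4 * r) c x}) hcmp
    (fun c hc => DecB.nmin L (hopen (fk c) (hfkp c hc) fun x t => by
      have e : f x t - fk c x t = - G c x t := by simp only [hfk]; ring
      rw [e, abs_neg]
      exact ((hGg c hc).bd x t).trans (by linarith)) hs (hKk c hc)) (r := rr) hbar
  obtain ⟨F, hF, hF1, hFd⟩ := hwin (η / 32) (by positivity)
  refine ⟨G c, hGsm c hc, ?_, DecB.mono (hGg c hc) (by linarith), F, _, 8 * (η / 32 + rr), hF, hF1,
    by linarith, hFd⟩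
  refine (N.smul_le (-τ) _ (hgs c hc w)).trans_lt ?_
  rw [abs_neg, abs_of_pos hτ0]
  have h1 := hτ2 c hc
  have h2 := mul_le_mul_of_nonneg_left (le_abs_self (N.nm (gz c))) hτ0.le
  linarith

theorem dec_dense_fin' (hd : 0 < d) {p β M0 η : ℝ} {f : E → ℝ → ℝ} (hf : L.IsPot f)
    (hD : L.Dat p β M0 f) (s : ℕ → ℝ) (J : ℕ) (hs : ∀ i ≤ J, M0 ≤ s i) (hη : 0 < η) (N : L.SmNorm) :
    ∀ {ε : ℝ}, 0 < ε →
    ∃ G, L.IsSm G ∧ N.nm G < ε ∧ Good ε G ∧ L.Dat p β M0 (fun x t => f x t + G x t) ∧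
      ∀ i ≤ J, Dec L p (s i) η (fun x t => f x t + G x t) := by
  induction J with
  | zero =>
    intro ε hε
    obtain ⟨ρ, hρ, hopen⟩ := DecB.dat_open L hf hD
    obtain ⟨G, h1, h2, h3, h4⟩ := dec_dense L hd hf hD (hs 0 le_rfl) hη N (lt_min hε hρ)
    refine ⟨G, h1, h2.trans_le (min_le_left _ _), DecB.mono h3 (min_le_left _ _),
      hopen _ (isPot_add L.toSp hf (isSm_isPot L.toSp h1)) (fun x t => ?_), fun i hi => by
        rw [Nat.le_zero.1 hi]; exact h4⟩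
    have e : f x t - (f x t + G x t) = - G x t := by ring
    rw [e, abs_neg]
    exact (h3.bd x t).trans (min_le_right _ _)
  | succ J ih =>
    intro ε hε
    obtain ⟨G1, a1, a2, a3, a4, a5⟩ := ih (fun i hi => hs i (hi.trans (Nat.le_succ J))) (half_pos hε)
    have hf1 := isPot_add L.toSp hf (isSm_isPot L.toSp a1)
    obtain ⟨ρ, hρ, hopen⟩ := DecB.dat_open L hf1 a4
    obtain ⟨ρ', hρ', hopen'⟩ := DecB.fin_rho J (P := fun i ρ => ∀ f', L.IsPot f' →
      (∀ x t, |(f x t + G1 x t) - f' x t| ≤ ρ) → Dec L p (s i) η f')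
      (fun i hi => dec_open L hf1 (a5 i hi))
      (fun i ρ ρ' hρ h f' hf' hff => h f' hf' fun x t => (hff x t).trans hρ)
    obtain ⟨G2, b1, b2, b3, b4⟩ := dec_dense L hd hf1 a4 (hs (J + 1) le_rfl) hη N
      (lt_min (half_pos hε) (lt_min hρ hρ'))
    have hf2 := isPot_add L.toSp hf1 (isSm_isPot L.toSp b1)
    have hdiff : ∀ x t, |(f x t + G1 x t) - (f x t + G1 x t + G2 x t)| ≤ min ρ ρ' := by
      intro x t
      have e : (f x t + G1 x t) - (f x t + G1 x t + G2 x t) = - G2 x t := by ring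
      rw [e, abs_neg]
      exact (b3.bd x t).trans (min_le_right _ _)
    have heq : (fun x t => f x t + (G1 x t + G2 x t)) = fun x t => f x t + G1 x t + G2 x t := by
      funext x t; ring
    refine ⟨fun x t => G1 x t + G2 x t, DecB.isSm_add L.toSp a1 b1, ?_, ?_, ?_, ?_⟩
    · have := N.add_le G1 G2 a1 b1
      have h5 : N.nm G2 < ε / 2 := b2.trans_le (min_le_left _ _)
      linarith
    · refine DecB.mono (DecB.good_add a3 b3) ?_
      have : min (ε / 2) (min ρ ρ') ≤ ε / 2 := min_le_left _ _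
      linarith
    · rw [heq]
      exact hopen _ hf2 fun x t => (hdiff x t).trans (min_le_left _ _)
    · intro i hi
      rw [heq]
      rcases hi.lt_or_eq with h1 | h1
      · exact hopen' i (Nat.lt_succ_iff.1 h1) _ hf2 fun x t => (hdiff x t).trans (min_le_right _ _)
      · rw [h1]; exact b4

/-- finitely many speeds -/
theorem dec_dense_fin (hd : 0 < d) {p β M0 η : ℝ} {f : E → ℝ → ℝ} (hf : L.IsPot f)
    (hD : L.Dat p β M0 f) (s : ℕ → ℝ) (J : ℕ) (hs : ∀ i ≤ J, M0 ≤ s i) (hη : 0 < η) (N : L.SmNorm)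
    {ε : ℝ} (hε : 0 < ε) :
    ∃ G, L.IsSm G ∧ N.nm G < ε ∧ Good ε G ∧ ∀ i ≤ J, Dec L p (s i) η (fun x t => f x t + G x t) := by
  obtain ⟨G, h1, h2, h3, _, h5⟩ := dec_dense_fin' L hd hf hD s J hs hη N hε
  exact ⟨G, h1, h2, h3, h5⟩

end EscF
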