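import Pool.Agent.EscN.B0
import Pool.Agent.EscF.CDefs

/-!
Project EscF (MP_6acca1_an): escaping orbits for Lagrangians on `T^n` that are asymptotic, for large
velocities, to a kinetic energy independent of the position. Core definitions.
-/

noncomputable section

namespace EscF

open MeasureTheory Set Filter Topology Esc EscN
open scoped ContDiff

/-- A lattice (a state space `Sp` with `S = E` and without rotations) with a Lagrangian `l` which is,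
up to bounded terms, the kinetic energy `h`. `lx`, `lu`, `gh` are the gradients. -/
structure SpL (d : ℕ) (E : Type*) [NormedAddCommGroup E] [InnerProductSpace ℝ E] extends Sp d E where
  S_univ : toSp.S = Set.univ
  O_id : ∀ n x, toSp.O n x = x
  Og_id : ∀ x, toSp.Og x = x
  /-- kinetic energy and its gradient -/
  h : E → ℝ
  gh : E → E
  /-- Lagrangian `l x v t` and its gradients in `x` and in `v` -/
  l : E → E → ℝ → ℝ
  lx : E → E → ℝ → E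
  lu : E → E → ℝ → E
  m : ℝ
  Λ : ℝ
  m_pos : 0 < m
  Λ_ge : 1 ≤ Λ
  h_low : ∀ u v, h v + inner ℝ (gh v) (u - v) + m / 2 * ‖u - v‖ ^ 2 ≤ h u
  gh_lip : ∀ u v, ‖gh u - gh v‖ ≤ Λ * ‖u - v‖
  l_low : ∀ x u v t, l x v t + inner ℝ (lu x v t) (u - v) + m / 2 * ‖u - v‖ ^ 2 ≤ l x u t
  l_tay : ∀ x v x' v' t,
    |l x' v' t - l x v t - inner ℝ (lx x v t) (x' - x) - inner ℝ (lu x v t) (v' - v)| ≤
      Λ * (‖x' - x‖ + ‖v' - v‖) ^ 2
  l_x : ∀ x x' v t, |l x v t - l x' v t| ≤ Λ * ‖x - x'‖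
  l_t : ∀ x v t t', |l x v t - l x v t'| ≤ Λ * |t - t'|
  lx_bd : ∀ x v t, ‖lx x v t‖ ≤ Λ
  lx_lip : ∀ x v t x' v' t', ‖lx x v t - lx x' v' t'‖ ≤ Λ * (‖x - x'‖ + ‖v - v'‖ + |t - t'|)
  lu_lip : ∀ x v t x' v' t', ‖lu x v t - lu x' v' t'‖ ≤ Λ * (‖x - x'‖ + ‖v - v'‖ + |t - t'|)
  l_h : ∀ x v t, |l x v t - h v| ≤ Λ
  lu_h : ∀ x v t, ‖lu x v t - gh v‖ ≤ Λ
  l_dk : ∀ n x v t, l (toSp.dk n x) v t = l x v t
  l_gd : ∀ x v t, l (toSp.gd x) v t = l x v t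
  l_per : ∀ x v t, l x v (t + 1) = l x v t

instance {d : ℕ} {E : Type*} [NormedAddCommGroup E] [InnerProductSpace ℝ E] : Coe (SpL d E) (Sp d E) :=
  ⟨SpL.toSp⟩

namespace SpL

variable {d : ℕ} {E : Type*} [NormedAddCommGroup E] [InnerProductSpace ℝ E] (L : SpL d E)

/-- momentum of the fast velocities -/
def mom (s : ℝ) : E := L.gh (L.vel s)

/-- the Lagrangian `l + f` without the affine part at `vel s` of the kinetic energy -/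
def lag (f : E → ℝ → ℝ) (s : ℝ) (x u : E) (t : ℝ) : ℝ :=
  L.l x u t + f x t - L.h (L.vel s) - inner ℝ (L.mom s) (u - L.vel s)

/-- action at speed `s` -/
def act (f : E → ℝ → ℝ) (s a b : ℝ) (z : E) (u : ℝ → E) : ℝ := actl (L.lag f s) a b z u

/-- kernel at speed `s` -/
def ker (f : E → ℝ → ℝ) (s a b : ℝ) (z z' : E) : ℝ := kerl (L.lag f s) a b z z'

/-- the Lagrangian `l + f` -/
def lf (f : E → ℝ → ℝ) : E → E → ℝ → ℝ := fun x u t => L.l x u t + f x t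

/-- periodic kernel at speed `s` -/
def kbar (f : E → ℝ → ℝ) (s : ℝ) (z z' : E) : ℝ :=
  ⨅ n : Fin d → ℤ, L.ker f s 0 1 z (L.dk n z')

/-- squared tube radius per unit of time -/
def tb (B M : ℝ) : ℝ := 2 * (B + M + L.Λ + 1) / L.m

/-- Data with witness -/
def DatW (M0 : ℝ) (Sy : ℝ → ℝ → ℝ) (κ : ℝ) (f : E → ℝ → ℝ) : Prop :=
  ∀ s, M0 ≤ s → ∃ R : E → E → ℝ, (∀ z z' η η', R (L.setY z η) (L.setY z' η') = R z z') ∧
    ∀ z ∈ L.S, ∀ z' ∈ L.S, |L.y z - L.y z'| ≤ 2 →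
      |L.kbar f s z z' - R z z' - Sy (L.y z) (L.y z')| ≤ κ

/-- Data class -/
structure Dat (p β M0 : ℝ) (f : E → ℝ → ℝ) : Prop where
  β_pos : 0 < β
  β_le : β ≤ 1 / 1000
  M0_ge : 1 ≤ M0
  ex : ∃ (Sy : ℝ → ℝ → ℝ) (e0 κ : ℝ), SData Sy p β 0 e0 (β ^ 2 / 200) ∧ 0 ≤ κ ∧ κ < β ^ 2 / 200 ∧
    L.DatW M0 Sy κ f

/-- kernel of a segment -/
def seg (f : E → ℝ → ℝ) (p s : ℝ) (F : Finset ℕ) (c : ℕ → ℝ) (z z' : E) : ℝ :=
  gk (L.kbar f s) (L.cell p) F c z z'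

/-- Stage `q` of the chain -/
def Stage (p β : ℝ) (q : ℕ) (f : E → ℝ → ℝ) : Prop :=
  ∃ (J : ℕ) (s : ℕ → ℝ) (F : ℕ → Finset ℕ) (c : ℕ → ℕ → ℝ) (D : ℕ → Set E) (δ : ℝ),
    0 < J ∧ 0 < δ ∧ s 0 = q ∧ s J = q + 1 ∧ (∀ i ≤ J, (q : ℝ) ≤ s i ∧ s i ≤ q + 1) ∧
    (∀ i, (F i).Nonempty ∧ ∀ T ∈ F i, 2 * Lat.R1 β + 2 ≤ T) ∧
    ∀ i < J, IsCompact (D i) ∧ (D i).Nonempty ∧ D i ⊆ L.S ∧
      (∀ z ∈ D i, 1 / 4 ≤ L.y z - p ∧ L.y z - p ≤ 3 / 4) ∧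
      ∀ z ∈ L.fr (D i), ∃ w ∈ D i, ∀ x ∈ L.room p, ∀ x' ∈ L.room p,
        L.seg f p (s i) (F i) (c i) x w + L.seg f p (s (i + 1)) (F (i + 1)) (c (i + 1)) (L.gi w) x'
            - inner ℝ (L.mom (s (i + 1)) - L.mom (s i)) w + δ ≤
          L.seg f p (s i) (F i) (c i) x z + L.seg f p (s (i + 1)) (F (i + 1)) (c (i + 1)) (L.gi z) x'
            - inner ℝ (L.mom (s (i + 1)) - L.mom (s i)) z

/-- an orbit of the Euler-Lagrange equation of `l + f` on `(0,∞)` whose velocity stays at bounded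
distance of fast velocities tending to infinity -/
def Escapes (f : E → ℝ → ℝ) : Prop :=
  ∃ (x v g : ℝ → E) (σ : ℝ → ℝ) (C : ℝ), (∀ t, 0 < t → HasDerivAt x (v t) t) ∧ ContinuousOn v (Ioi 0) ∧
    (∀ t, 0 < t → ∀ ξ, inner ℝ (g t) ξ = fderiv ℝ (fun z => f z t) (x t) ξ) ∧
    (∀ t, 0 < t → HasDerivAt (fun t => L.lu (x t) (v t) t) (L.lx (x t) (v t) t + g t) t) ∧
    Tendsto σ atTop atTop ∧ ∀ t, 0 < t → ‖v t - L.vel (σ t)‖ ≤ C

/-- `V` is the limit, for large speeds, of the bounded part of the Lagrangian, and the norm of `E` is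
the second derivative of the kinetic energy -/
structure Asym (V : E → ℝ → ℝ) : Prop where
  pot : L.IsPot V
  lim : ∀ R ε : ℝ, 0 < ε → ∃ s0 : ℝ, ∀ s, s0 ≤ s → ∀ x w t, ‖w‖ ≤ R →
    |L.l x (L.vel s + w) t - L.h (L.vel s) - inner ℝ (L.mom s) w - ‖w‖ ^ 2 / 2 - V x t| ≤ ε

end SpL

end EscF
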