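import Pool.Agent.EscF.Dense
import Pool.Agent.EscN.Prep
import Pool.Agent.helper1.EscN.Clu
import Pool.Agent.helper1.EscN.Net

/-!
Density of the stages: assembly.
-/

noncomputable section

namespace EscF

open MeasureTheory Set Filter Topology Esc EscN
open scoped ContDiff

variable {d : ℕ} {E : Type*} [NormedAddCommGroup E] [InnerProductSpace ℝ E] [FiniteDimensional ℝ E]
  (L : SpL d E)

/-- small time scale -/
lemma exists_w (b c r : ℝ) (hr : 0 < r) :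
    ∃ w : ℝ, 0 < w ∧ w < 1 / 2 ∧ w * b + Real.sqrt (c * w) ≤ r := by
  have h1 : Continuous (fun w : ℝ => w * b + Real.sqrt (c * w)) := by fun_prop
  have h2 : Tendsto (fun w : ℝ => w * b + Real.sqrt (c * w)) (𝓝[>] 0) (𝓝 0) := by
    have := (h1.tendsto 0).mono_left (nhdsWithin_le_nhds (s := Ioi (0:ℝ)))
    simpa using this
  have h3 : ∀ᶠ w in 𝓝[>] (0:ℝ), w * b + Real.sqrt (c * w) < r := h2.eventually_lt_const hr
  have h4 : ∀ᶠ w in 𝓝[>] (0:ℝ), w < 1 / 2 :=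
    mem_nhdsWithin_of_mem_nhds (Iio_mem_nhds (by norm_num))
  have h5 : ∀ᶠ w in 𝓝[>] (0:ℝ), 0 < w := self_mem_nhdsWithin
  obtain ⟨w, h6, h7, h8⟩ := (h3.and (h4.and h5)).exists
  exact ⟨w, h8, h7, h6.le⟩

/-- the data condition for nearby potentials -/
lemma datW_close {M M0 κ ρ : ℝ} {Sy : ℝ → ℝ → ℝ} {f f' : E → ℝ → ℝ} (hf : Good M f) (hf' : Good M f')
    (hW : L.DatW M0 Sy κ f) (h : ∀ x t, |f x t - f' x t| ≤ ρ) : L.DatW M0 Sy (κ + ρ) f' := by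
  intro s hs
  obtain ⟨R, h1, h2⟩ := hW s hs
  refine ⟨R, h1, fun z hz z' hz' hy => ?_⟩
  have h3 := h2 z hz z' hz' hy
  have h4 := kbar_sub_le L hf hf' (fun x _ t => h x t) s hz hz'
  rw [abs_le] at h3 h4 ⊢
  constructor <;> linarith [h3.1, h3.2, h4.1, h4.2]

/-- the gate inequality from decoupled barriers -/
lemma gate_ineq {f : E → ℝ → ℝ} {p s s' δ η η2 h κ : ℝ} {F F' : Finset ℕ} {c c' : ℕ → ℝ} {zs z0 z x x' : E}
    (hz0S : z0 ∈ L.S) (hzS : z ∈ L.S)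
    (hz0 : 1 / 8 ≤ L.y z0 - p ∧ L.y z0 - p ≤ 7 / 8) (hz : 1 / 8 ≤ L.y z - p ∧ L.y z - p ≤ 7 / 8)
    (hx : x ∈ L.room p) (hx' : x' ∈ L.room p) (hzs : zs ∈ L.room p)
    (hw : ∀ z ∈ L.room p, ∀ z' ∈ L.room p,
      |L.seg f p s F c z z' - bar (L.kbar f s) (L.cell p) z z'| ≤ η2)
    (hw' : ∀ z ∈ L.room p, ∀ z' ∈ L.room p,
      |L.seg f p s' F' c' z z' - bar (L.kbar f s') (L.cell p) z z'| ≤ η2)
    (hd : ∀ z ∈ L.room p, ∀ z' ∈ L.room p, ∀ w ∈ L.room p, ∀ w' ∈ L.room p,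
      |bar (L.kbar f s) (L.cell p) z z' + bar (L.kbar f s) (L.cell p) w w'
        - bar (L.kbar f s) (L.cell p) z w' - bar (L.kbar f s) (L.cell p) w z'| ≤ η)
    (hd' : ∀ z ∈ L.room p, ∀ z' ∈ L.room p, ∀ w ∈ L.room p, ∀ w' ∈ L.room p,
      |bar (L.kbar f s') (L.cell p) z z' + bar (L.kbar f s') (L.cell p) w w'
        - bar (L.kbar f s') (L.cell p) z w' - bar (L.kbar f s') (L.cell p) w z'| ≤ η)
    (hW : Wg L f p s s' zs z0 + h < Wg L f p s s' zs z)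
    (hκ : |inner ℝ (L.mom s' - L.mom s) (z - z0)| ≤ κ) (hδ : δ + 2 * η + 4 * η2 + κ ≤ h) :
    L.seg f p s F c x z0 + L.seg f p s' F' c' (L.gi z0) x' - inner ℝ (L.mom s' - L.mom s) z0 + δ ≤
      L.seg f p s F c x z + L.seg f p s' F' c' (L.gi z) x' - inner ℝ (L.mom s' - L.mom s) z := by
  have r0 := O_room L hz0S hz0.1 hz0.2
  have r := O_room L hzS hz.1 hz.2
  have a1 := abs_le.1 (hw x hx z0 r0.1)
  have a2 := abs_le.1 (hw x hx z r.1)
  have a3 := abs_le.1 (hw' _ r0.2 x' hx')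
  have a4 := abs_le.1 (hw' _ r.2 x' hx')
  have b1 := abs_le.1 (hd x hx z r.1 zs hzs z0 r0.1)
  have b2 := abs_le.1 (hd' _ r.2 x' hx' _ r0.2 zs hzs)
  rw [inner_sub_right] at hκ
  have k := abs_le.1 hκ
  unfold Wg at hW
  linarith [a1.1, a1.2, a2.1, a2.2, a3.1, a3.2, a4.1, a4.2, b1.1, b1.2, b2.1, b2.2, k.1, k.2]

/-- far cells with their bumps -/
structure CellP {I : Type*} (ct : I → E) (gb : I → E → ℝ) (r : ℝ) (D : ℕ) (p : ℝ) : Prop where
  ct_S : ∀ c, ct c ∈ L.S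
  ct_lo : ∀ c, 1 / 4 ≤ L.y (ct c) - p
  ct_hi : ∀ c, L.y (ct c) - p ≤ 3 / 4
  r_pos : 0 < r
  r_le : r ≤ 1 / 64
  g01 : ∀ c x, 0 ≤ gb c x ∧ gb c x ≤ 1
  g1 : ∀ c x, cl L.toSp (2 * r) (ct c) x → gb c x = 1
  g0 : ∀ c x, ¬ cl L.toSp (3 * r) (ct c) x → gb c x = 0
  sm : ∀ c w, L.IsSm (fun x t => gb c x * H33.zt w t)
  mult : ∀ x, ∀ C' : Finset I, (∀ c ∈ C', cl L.toSp (4 * r) (ct c) x) → C'.card ≤ D

/-- a far perturbation setup: everything except the number of speeds -/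
theorem exists_far_setup {I : Type*} [Fintype I] {ct : I → E} {gb : I → E → ℝ} {r : ℝ} {D : ℕ}
    {p β M0 Vm κ : ℝ} {Sy : ℝ → ℝ → ℝ} {e0 : ℝ} (hC : CellP L ct gb r D p) {f : E → ℝ → ℝ}
    (hf : L.IsPot f) (hS : SData Sy p β 0 e0 (β ^ 2 / 200)) (hκ : κ < β ^ 2 / 200)
    (hW : L.DatW M0 Sy κ f) (N : L.SmNorm) {ε : ℝ} (hε : 0 < ε) :
    ∃ M B Λ w ε' ε1 : ℝ, 0 < ε' ∧ 0 < ε1 ∧ 0 < w ∧ w < 1 / 2 ∧ ε1 ≤ ε / 2 ∧
      (∀ f1 : E → ℝ → ℝ, (∃ G, L.IsSm G ∧ Good ε1 G ∧ f1 = fun x t => f x t + G x t) →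
        FarS L ct gb r D Sy e0 f1 p β M0 M B Λ Vm w ε') ∧
      ∀ σ : I → ℝ, Alw ε' σ → L.IsSm (fun x t => ∑ c : I, σ c * (gb c x * H33.zt w t)) ∧
        N.nm (fun x t => ∑ c : I, σ c * (gb c x * H33.zt w t)) ≤ ε / 2 := by
  obtain ⟨Mf, hMf⟩ := isPot_good L.toSp hf
  obtain ⟨B, Λ, hB, hΛ, hKD⟩ := kd_kbar L (Mf + 1)
  have hMf0 := hMf.pos
  obtain ⟨w, hw0, hw1, hw2⟩ := exists_w Vm (L.tb B (Mf + 1)) r hC.r_pos
  set ρ0 : ℝ := β ^ 2 / 200 - κ with hρ0def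
  have hρ0 : 0 < ρ0 := by rw [hρ0def]; linarith
  -- bounds of the bumps
  set gz : I → E → ℝ → ℝ := fun c x t => gb c x * H33.zt w t with hgz
  have hsm : ∀ c : I, L.IsSm (gz c) := fun c => hC.sm c w
  choose Mc hMc using fun c : I => isPot_good L.toSp (isSm_isPot L.toSp (hsm c))
  set Kg : ℝ := ∑ c : I, (Mc c + N.nm (gz c)) + 1 with hKg
  have hterm : ∀ c : I, 0 ≤ Mc c + N.nm (gz c) := fun c =>
    add_nonneg (hMc c).pos (nm_nonneg L.toSp N (hsm c))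
  have hKg1 : 1 ≤ Kg := by
    have : 0 ≤ ∑ c : I, (Mc c + N.nm (gz c)) := Finset.sum_nonneg fun c _ => hterm c
    linarith
  have hKgc : ∀ c : I, Mc c + N.nm (gz c) ≤ Kg := fun c => by
    have := Finset.single_le_sum (f := fun c : I => Mc c + N.nm (gz c)) (fun c _ => hterm c)
      (Finset.mem_univ c)
    linarith
  have hgood : ∀ c : I, Good Kg (gz c) := fun c =>
    good_mono (hMc c) (by have := hKgc c; have := nm_nonneg L.toSp N (hsm c); linarith)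
  have hnm : ∀ c : I, N.nm (gz c) ≤ Kg := fun c => by
    have := hKgc c; have := (hMc c).pos; linarith
  set NF : ℝ := ((Fintype.card I : ℕ) : ℝ) with hNF
  have hNF0 : 0 ≤ NF := by rw [hNF]; positivity
  set a : ℝ := min (ε / 2) (min (ρ0 / 2) (1 / 2)) with ha
  have ha0 : 0 < a := by
    rw [ha]; exact lt_min (by linarith) (lt_min (by linarith) (by norm_num))
  have ha1 : a ≤ ε / 2 := min_le_left _ _
  have ha2 : a ≤ ρ0 / 2 := (min_le_right _ _).trans (min_le_left _ _)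
  have ha4 : a ≤ 1 / 2 := (min_le_right _ _).trans (min_le_right _ _)
  set ε' : ℝ := a / ((NF + 1) * Kg) with hε'
  have hε'0 : 0 < ε' := by rw [hε']; positivity
  have hsz : NF * (ε' * Kg) ≤ a := by
    have e : ε' * Kg = a / (NF + 1) := by rw [hε']; field_simp
    rw [e]
    have : NF * (a / (NF + 1)) = a * (NF / (NF + 1)) := by ring
    rw [this]
    have h1 : NF / (NF + 1) ≤ 1 := by rw [div_le_one (by linarith)]; linarith
    nlinarith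
  have hsumgood : ∀ σ : I → ℝ, Alw ε' σ → Good a (fun x t => ∑ c : I, σ c * gz c x t) := by
    intro σ hσ
    have h1 := good_sum Finset.univ σ gz (K := Kg) (ε' := ε') (by linarith)
      (fun c _ => hgood c) (fun c _ => hσ c)
    exact good_mono h1 (by rw [Finset.card_univ]; exact hsz)
  have hsumsm : ∀ σ : I → ℝ, L.IsSm (fun x t => ∑ c : I, σ c * gz c x t) := fun σ =>
    isSm_sum L.toSp Finset.univ σ gz (fun c _ => hsm c)
  set ε1 : ℝ := min (ε / 2) (min (ρ0 / 2) (1 / 2)) with hε1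
  have hε10 : 0 < ε1 := by rw [hε1]; exact lt_min (by linarith) (lt_min (by linarith) (by norm_num))
  have hε1a : ε1 ≤ ε / 2 := min_le_left _ _
  have hε1b : ε1 ≤ ρ0 / 2 := (min_le_right _ _).trans (min_le_left _ _)
  have hε1c : ε1 ≤ 1 / 2 := (min_le_right _ _).trans (min_le_right _ _)
  refine ⟨Mf + 1, B, Λ, w, ε', ε1, hε'0, hε10, hw0, hw1, hε1a, ?_, fun σ hσ => ⟨hsumsm σ, ?_⟩⟩
  · rintro f1 ⟨G, hG, hGg, rfl⟩
    have hpot1 : L.IsPot (fun x t => f x t + G x t) := isPot_add L.toSp hf (isSm_isPot L.toSp hG)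
    have hpot : ∀ σ : I → ℝ, L.IsPot (pf gb (fun x t => f x t + G x t) w σ) := fun σ =>
      isPot_add L.toSp hpot1 (isSm_isPot L.toSp (hsumsm σ))
    have hgd : ∀ σ : I → ℝ, Alw ε' σ → Good (Mf + 1) (pf gb (fun x t => f x t + G x t) w σ) := by
      intro σ hσ
      exact good_mono (good_add (good_add hMf hGg) (hsumgood σ hσ)) (by linarith)
    exact
      { ct_S := hC.ct_S
        ct_lo := hC.ct_lo
        ct_hi := hC.ct_hi
        r_pos := hC.r_pos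
        r_le := hC.r_le
        g01 := hC.g01
        g1 := hC.g1
        g0 := hC.g0
        mult := hC.mult
        M_nonneg := by linarith
        B_nonneg := hB.le
        w_pos := hw0
        w_lt := hw1
        hw := hw2
        ε'_pos := hε'0
        sdata := hS
        kd := fun σ hσ s => hKD _ (hgd σ hσ) (hpot σ).perd s p
        good := hgd
        datW := fun σ hσ => by
          refine ⟨κ + ρ0, by rw [hρ0def]; linarith, ?_⟩
          refine datW_close L (good_mono hMf (by linarith)) (hgd σ hσ) hW fun x t => ?_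
          have h1 := abs_le.1 (hGg.bd x t)
          have h2 := abs_le.1 ((hsumgood σ hσ).bd x t)
          have e : f x t - pf gb (fun x t => f x t + G x t) w σ x t =
            -(G x t + ∑ c : I, σ c * gz c x t) := by unfold pf; ring
          rw [e, abs_neg, abs_le]
          constructor <;> linarith [h1.1, h1.2, h2.1, h2.2]
        pot := fun σ _ => hpot σ }
  · have h1 := nm_sum L.toSp N Finset.univ σ gz (K := Kg) (ε' := ε') (by linarith)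
      (fun c _ => hsm c) (fun c _ => hnm c) (fun c _ => hσ c)
    refine h1.trans ?_
    rw [Finset.card_univ]
    exact hsz.trans ha1

/-- cluster of touched cells in the state space -/
theorem cluster_dat {C : Finset E} {r ρ0 p ℓ : ℝ} {N0 : ℕ} (hr : 0 < r)
    (hcov : ∀ z ∈ L.S, 1 / 4 ≤ L.y z - p → L.y z - p ≤ 3 / 4 → ∃ c ∈ C, ∃ n : Fin d → ℤ,
      dist z (L.dk n c) ≤ r)
    (hsep : ∀ c ∈ C, ∀ c' ∈ C, ∀ n n' : Fin d → ℤ, L.dk n c ≠ L.dk n' c' →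
        r ≤ dist (L.dk n c) (L.dk n' c'))
    (hdisp : ∀ (n n' : Fin d → ℤ) (x : E), n ≠ n' → ρ0 ≤ dist (L.dk n x) (L.dk n' x))
    (hN1 : 4 * r * (N0 + 3) ≤ ρ0) (hN2 : 4 * r * (N0 + 3) ≤ 1 / 8) (W : E → ℝ) {z0 : E}
    (hz0 : z0 ∈ L.S) (h0 : 3 / 8 ≤ L.y z0 - p) (h0' : L.y z0 - p ≤ 5 / 8) (hW0 : W z0 ≤ ℓ)
    (hcard : ∀ J : Finset {c // c ∈ C}, (∀ k ∈ J, ∃ z ∈ L.S, cl L.toSp r k.1 z ∧
      1 / 4 ≤ L.y z - p ∧ L.y z - p ≤ 3 / 4 ∧ W z ≤ ℓ) → J.card ≤ N0) :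
    ∃ D : Set E, IsCompact D ∧ D ⊆ L.S ∧ z0 ∈ D ∧ (∀ z ∈ D, 1 / 4 ≤ L.y z - p ∧ L.y z - p ≤ 3 / 4) ∧
      (∀ z ∈ D, ‖z - z0‖ ≤ 1) ∧ ∀ z ∈ L.fr D, ℓ < W z := by
  classical
  have : ProperSpace E := FiniteDimensional.proper ℝ E
  set Z : Set E := {x | ∃ c ∈ C, ∃ n : Fin d → ℤ, x = L.dk n c} with hZ
  have hsel : ∀ x : E, ∃ c : E, x ∈ Z → c ∈ C ∧ ∃ n : Fin d → ℤ, x = L.dk n c := by
    intro x
    by_cases hx : x ∈ Z
    · obtain ⟨c, hc, n, hn⟩ := hx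
      exact ⟨c, fun _ => ⟨hc, n, hn⟩⟩
    · exact ⟨x, fun h => absurd h hx⟩
  choose κ hκ using hsel
  have hsepZ : ∀ a ∈ Z, ∀ b ∈ Z, a ≠ b → r ≤ dist a b := by
    rintro a ⟨c, hc, n, rfl⟩ b ⟨c', hc', n', rfl⟩ hab
    exact hsep c hc c' hc' n n' hab
  obtain ⟨D, hD1, hD2, hD3, hD4, hD5, hD6⟩ := cluster (S := L.S) (Z := Z) L.ret.closed hr κ
    (fun x R => finite_of_sep (isCompact_closedBall x R) hr inter_subset_right
      fun a ha b hb hab => hsepZ a ha.1 b hb.1 hab)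
    (y := L.y) (p := p) (fun z hz h1 h2 => by
      obtain ⟨c, hc, n, hn⟩ := hcov z hz h1 h2
      exact ⟨_, ⟨c, hc, n, rfl⟩, hn⟩)
    (ρ := ρ0) (fun a ha b hb hab hd hk => by
      obtain ⟨h1, n, h2⟩ := hκ a ha
      obtain ⟨h3, n', h4⟩ := hκ b hb
      rw [← hk] at h4
      have hne : n ≠ n' := by
        intro h
        apply hab
        rw [h2, h4, h]
      have := hdisp n n' (κ a) hne
      rw [← h2, ← h4] at this
      linarith)
    (N0 := N0) hN1 hN2 (y_lip L) (ℓ := ℓ) W hz0 h0 h0' hW0 (fun J hJ => by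
      have hJC : ∀ k ∈ J, k ∈ C := by
        intro k hk
        obtain ⟨ζ, hζ, rfl, _⟩ := hJ k hk
        exact (hκ ζ hζ).1
      have h1 := hcard (J.subtype (· ∈ C)) (fun k hk => by
        rw [Finset.mem_subtype] at hk
        obtain ⟨ζ, hζ, hζk, z, hz, hzd, hz1, hz2, hz3⟩ := hJ k.1 hk
        obtain ⟨_, n, hn⟩ := hκ ζ hζ
        refine ⟨z, hz, cl_of_dk L.toSp (n := n) ?_, hz1, hz2, hz3⟩
        rw [← hζk, ← hn]
        exact hzd)
      have h2 : (J.subtype (· ∈ C)).card = J.card := by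
        rw [Finset.card_subtype, Finset.filter_true_of_mem hJC]
      rwa [h2] at h1)
  refine ⟨D, hD1, hD2, hD3, hD4, fun z hz => ?_, fun z hz => ?_⟩
  · have h1 := hD5 z hz
    rw [dist_eq_norm] at h1
    have h2 : (0:ℝ) ≤ N0 := Nat.cast_nonneg _
    nlinarith
  · refine hD6 z hz.1 fun hn => ?_
    obtain ⟨U, hU, hzU, hUD⟩ := mem_nhdsWithin.1 hn
    obtain ⟨x, hxU, hxS, hxD⟩ := mem_closure_iff.1 hz.2 U hU hzU
    exact hxD (hUD ⟨hxU, hxS⟩)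

end EscF
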