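import Pool.Agent.EscN.Far2
import Pool.Agent.EscF.Far

/-!
Far perturbations and the barrier.
-/

noncomputable section

namespace EscF

open MeasureTheory Set Filter Topology Esc EscN
open scoped ContDiff

variable {d : ℕ} {E : Type*} [NormedAddCommGroup E] [InnerProductSpace ℝ E] [FiniteDimensional ℝ E]
  (L : SpL d E) {I : Type*} [Fintype I] {ct : I → E} {gb : I → E → ℝ} {r : ℝ} {D : ℕ}
  {Sy : ℝ → ℝ → ℝ} {e0 : ℝ} {f : E → ℝ → ℝ} {p β M0 M B Λ Vm w ε' : ℝ}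

omit [FiniteDimensional ℝ E] in
/-- wide near points -/
def Nf (Sy : ℝ → ℝ → ℝ) (e0 p β : ℝ) (x : E) : Prop := x ∈ L.room p ∧ Nw Sy p β e0 (L.y x)

omit [Fintype I] in
lemma nr_nf (hS : SData Sy p β 0 e0 (β ^ 2 / 200)) {x : E} (hx : x ∈ L.room p)
    (h : Nr Sy p β e0 (L.y x)) : Nf L Sy e0 p β x := ⟨hx, h.wide hS⟩

/-- minimal paths have near-minimal slow sequences (for the perturbed potentials) -/
lemma far_nm (hF : FarS L ct gb r D Sy e0 f p β M0 M B Λ Vm w ε') {σ : I → ℝ} (hσ : Alw ε' σ)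
    {s : ℝ} (hs : M0 ≤ s) (T : ℕ) (x : ℕ → E) (hT : 1 ≤ T) (hx : ∀ k ≤ T, x k ∈ L.room p)
    (hmin : cost (L.kbar (pf gb f w σ) s) x T ≤ kp (L.kbar (pf gb f w σ) s) (L.cell p) T (x 0) (x T)) :
    NM Sy p (β ^ 2 / 200) T (fun k => L.y (x k)) := by
  obtain ⟨κ, hκ, hW⟩ := hF.datW σ hσ
  exact nm_of_min L (hF.kd σ hσ s) hW hκ hs hT hx hmin

/-- powers of the kernel between near points do not change -/
lemma kp_near (hF : FarS L ct gb r D Sy e0 f p β M0 M B Λ Vm w ε') {σ : I → ℝ} (hσ : Alw ε' σ)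
    {s : ℝ} (hs : M0 ≤ s) (hv : ‖L.vel s‖ ≤ Vm) {x1 x2 : E} (h1 : Nf L Sy e0 p β x1)
    (h2 : Nf L Sy e0 p β x2) {T : ℕ} (hT : 1 ≤ T) :
    kp (L.kbar (pf gb f w σ) s) (L.cell p) T x1 x2 = kp (L.kbar f s) (L.cell p) T x1 x2 := by
  have hal0 : Alw ε' (0 : I → ℝ) := alw_zero hF.ε'_pos.le
  have hK0 := hF.kd 0 hal0 s
  rw [pf_zero] at hK0
  have hKσ := hF.kd σ hσ s
  have hle0 : (0 : I → ℝ) ≤ σ := fun c => (hσ c).1
  apply le_antisymm
  · -- an f-minimal path has no far point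
    obtain ⟨X, hX, hXc⟩ := Esc.exists_path hK0 hT h1.1 h2.1
    have hXr := path_room (cell_subset L.toSp p) hX h1.1 h2.1
    have hnm := far_nm L hF hal0 hs T X hT hXr (by rw [pf_zero, hXc, hX.1, hX.2.1])
    have hnear : ∀ k ≤ T, |L.y (X k) - p| < 1 / 8 := by
      intro k hk
      have := surg2 hF.sdata hnm (i := 0) (j := T) (Nat.zero_le _) le_rfl
        (by show Nw _ _ _ _ (L.y (X 0)); rw [hX.1]; exact h1.2)
        (by show Nw _ _ _ _ (L.y (X T)); rw [hX.2.1]; exact h2.2) (k := k) (Nat.zero_le _) hk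
      exact this
    have hcost : cost (L.kbar (pf gb f w σ) s) X T = cost (L.kbar f s) X T := by
      unfold cost
      refine Finset.sum_congr rfl fun k hk => ?_
      rw [Finset.mem_range] at hk
      have e := kbar_local L hF hσ hal0 hv (hXr k hk.le) (hXr (k + 1) hk)
        (fun c hc => absurd hc (not_vs_near L hF c (hnear k hk.le).le))
        (fun c hc => absurd hc (not_vs_near L hF c (hnear (k + 1) hk).le))
      rw [pf_zero] at e
      exact e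
    have h4 := kp_le_cost hKσ hT hXr
    rw [hX.1, hX.2.1, hcost, hXc] at h4
    exact h4
  · apply kp_mono hK0 hKσ _ hT h1.1 h2.1
    intro z hz z' hz'
    have := kbar_local_le L hF hal0 hσ hv hz hz' (fun c _ => hle0 c) (fun c _ => hle0 c)
    rwa [pf_zero] at this

/-- there is a near point -/
lemma exists_nf (hS : SData Sy p β 0 e0 (β ^ 2 / 200)) : ∃ x, Nf L Sy e0 p β x := by
  obtain ⟨v, hv, hv'⟩ := hS.p0
  obtain ⟨z, hz⟩ := L.S_ne
  have h1 : |v - p| ≤ 7 / 8 := by linarith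
  refine ⟨L.setY z v, ⟨S_setY L.toSp _ hz, by rw [EscN.y_setY]; exact h1⟩, ?_⟩
  rw [EscN.y_setY]
  refine ⟨h1, ?_⟩
  rw [hv']
  have := hS.β_pos
  linarith

lemma al_near (hF : FarS L ct gb r D Sy e0 f p β M0 M B Λ Vm w ε') {σ : I → ℝ} (hσ : Alw ε' σ)
    {s : ℝ} (hs : M0 ≤ s) (hv : ‖L.vel s‖ ≤ Vm) :
    al (L.kbar (pf gb f w σ) s) (L.cell p) = al (L.kbar f s) (L.cell p) := by
  have hal0 : Alw ε' (0 : I → ℝ) := alw_zero hF.ε'_pos.le
  have hK0 := hF.kd 0 hal0 s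
  rw [pf_zero] at hK0
  have hKσ := hF.kd σ hσ s
  obtain ⟨x, hx⟩ := exists_nf L hF.sdata
  apply le_antisymm
  · apply al_le hKσ (C' := 4 * B)
    intro m
    refine ⟨m + 1, by omega, by omega, x, hx.1, x, hx.1, ?_⟩
    rw [kp_near L hF hσ hs hv hx hx (by omega)]
    exact (abs_le.1 (al_spec hK0 (by omega) hx.1 hx.1)).1
  · apply le_al hKσ (C' := 4 * B)
    intro m
    refine ⟨m + 1, by omega, by omega, x, hx.1, x, hx.1, ?_⟩
    rw [kp_near L hF hσ hs hv hx hx (by omega)]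
    exact (abs_le.1 (al_spec hK0 (by omega) hx.1 hx.1)).2

lemma bar_near (hF : FarS L ct gb r D Sy e0 f p β M0 M B Λ Vm w ε') {σ : I → ℝ} (hσ : Alw ε' σ)
    {s : ℝ} (hs : M0 ≤ s) (hv : ‖L.vel s‖ ≤ Vm) {x1 x2 : E} (h1 : Nf L Sy e0 p β x1)
    (h2 : Nf L Sy e0 p β x2) :
    bar (L.kbar (pf gb f w σ) s) (L.cell p) x1 x2 = bar (L.kbar f s) (L.cell p) x1 x2 := by
  unfold bar
  rw [al_near L hF hσ hs hv]
  congr 1
  funext S
  congr 1
  funext j
  rw [kp_near L hF hσ hs hv h1 h2 (by omega)]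

/-- first near visit (forward) -/
lemma rep_left (hF : FarS L ct gb r D Sy e0 f p β M0 M B Λ Vm w ε') {σ : I → ℝ} (hσ : Alw ε' σ)
    {s : ℝ} (hs : M0 ≤ s) {z z' : E} (hz : z ∈ L.room p) (hz' : z' ∈ L.room p) :
    ∃ (k : ℕ) (X : ℕ → E), 1 ≤ k ∧ k ≤ Lat.R1 β ∧ X 0 = z ∧ (∀ i ≤ k, X i ∈ L.room p) ∧
      Nf L Sy e0 p β (X k) ∧
      bar (L.kbar (pf gb f w σ) s) (L.cell p) z z' =
        cost (L.kbar (pf gb f w σ) s) X k + al (L.kbar (pf gb f w σ) s) (L.cell p) * k +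
          bar (L.kbar (pf gb f w σ) s) (L.cell p) (X k) z' := by
  have hK := hF.kd σ hσ s
  set K := L.kbar (pf gb f w σ) s with hKdef
  have hR : 1 ≤ Lat.R1 β := by unfold Lat.R1; omega
  obtain ⟨x, hx, hbar⟩ := bar_left_eq hK hR hz hz'
  have hxr := cell_subset L.toSp p hx
  obtain ⟨X, hX, hXc⟩ := Esc.exists_path hK hR hz hxr
  have hXr := path_room (cell_subset L.toSp p) hX hz hxr
  have h1 := far_nm L hF hσ hs _ X hR hXr (by rw [hX.1, hX.2.1]; exact hXc.le)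
  obtain ⟨k, hk0, hk1, hk2⟩ := surg1 hF.sdata h1 (i := 0) (by omega)
  rw [zero_add] at hk1
  refine ⟨k, X, hk0, hk1.le, hX.1, fun i hi => hXr i (by omega),
    nr_nf L hF.sdata (hXr k hk1.le) hk2, ?_⟩
  apply le_antisymm
  · have a := bar_left_le hK hk0 hz (hXr k hk1.le) hz'
    have b := kp_le_cost hK (x := X) (T := k) hk0 (fun i hi => hXr i (by omega))
    rw [hX.1] at b
    linarith
  · rw [hbar, ← hXc, cost_split K X hk1.le]
    have hT : 1 ≤ Lat.R1 β - k := by omega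
    have a := bar_left_le hK hT (hXr k hk1.le) hxr hz'
    have b := kp_le_cost hK (x := fun i => X (k + i)) hT (fun i hi => hXr (k + i) (by omega))
    simp only [add_zero] at b
    have e : k + (Lat.R1 β - k) = Lat.R1 β := by omega
    rw [e, hX.2.1] at b
    have c : ((Lat.R1 β - k : ℕ) : ℝ) = (Lat.R1 β : ℝ) - k := by rw [Nat.cast_sub hk1.le]
    rw [c] at a
    linarith

/-- last near visit (backward) -/
lemma rep_right (hF : FarS L ct gb r D Sy e0 f p β M0 M B Λ Vm w ε') {σ : I → ℝ} (hσ : Alw ε' σ)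
    {s : ℝ} (hs : M0 ≤ s) {z z' : E} (hz : z ∈ L.room p) (hz' : z' ∈ L.room p) :
    ∃ (k : ℕ) (X : ℕ → E), 1 ≤ k ∧ k ≤ Lat.R1 β ∧ X k = z' ∧ (∀ i ≤ k, X i ∈ L.room p) ∧
      Nf L Sy e0 p β (X 0) ∧
      bar (L.kbar (pf gb f w σ) s) (L.cell p) z z' =
        bar (L.kbar (pf gb f w σ) s) (L.cell p) z (X 0) +
        (cost (L.kbar (pf gb f w σ) s) X k + al (L.kbar (pf gb f w σ) s) (L.cell p) * k) := by
  have hK := hF.kd σ hσ s
  set K := L.kbar (pf gb f w σ) s with hKdef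
  have hR : 1 ≤ Lat.R1 β := by unfold Lat.R1; omega
  obtain ⟨x, hx, hbar⟩ := bar_right_eq hK hR hz hz'
  have hxr := cell_subset L.toSp p hx
  obtain ⟨X, hX, hXc⟩ := Esc.exists_path hK hR hxr hz'
  have hXr := path_room (cell_subset L.toSp p) hX hxr hz'
  have h1 := far_nm L hF hσ hs _ X hR hXr (by rw [hX.1, hX.2.1]; exact hXc.le)
  obtain ⟨j, hj0, hj1, hj2⟩ := surg1 hF.sdata h1 (i := 0) (by omega)
  rw [zero_add] at hj1
  have hk : 1 ≤ Lat.R1 β - j := by omega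
  refine ⟨Lat.R1 β - j, fun i => X (j + i), hk, by omega, ?_, fun i hi => hXr (j + i) (by omega), ?_, ?_⟩
  · show X (j + (Lat.R1 β - j)) = z'
    rw [show j + (Lat.R1 β - j) = Lat.R1 β by omega]; exact hX.2.1
  · exact nr_nf L hF.sdata (hXr j hj1.le) hj2
  · have hT2 : X (j + (Lat.R1 β - j)) = z' := by
      rw [show j + (Lat.R1 β - j) = Lat.R1 β by omega]; exact hX.2.1
    apply le_antisymm
    · have a := bar_right_le hK hk hz (hXr j hj1.le) hz'
      have b := kp_le_cost hK (x := fun i => X (j + i)) hk (fun i hi => hXr (j + i) (by omega))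
      simp only [add_zero] at b ⊢
      rw [hT2] at b
      linarith
    · rw [hbar, ← hXc, cost_split K X hj1.le]
      have a := bar_right_le hK hj0 hz hxr (hXr j hj1.le)
      have b := kp_le_cost hK (x := X) (T := j) hj0 (fun i hi => hXr i (by omega))
      rw [hX.1] at b
      have c : ((Lat.R1 β - j : ℕ) : ℝ) = (Lat.R1 β : ℝ) - j := by rw [Nat.cast_sub hj1.le]
      rw [c]
      simp only [add_zero]
      linarith

/-- the four point decoupling inequality is inherited by far perturbations -/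
lemma dec_far (hF : FarS L ct gb r D Sy e0 f p β M0 M B Λ Vm w ε') {σ : I → ℝ} (hσ : Alw ε' σ)
    {s : ℝ} (hs : M0 ≤ s) (hv : ‖L.vel s‖ ≤ Vm) {η : ℝ}
    (H : ∀ z ∈ L.room p, ∀ z' ∈ L.room p, ∀ x ∈ L.room p, ∀ x' ∈ L.room p,
      |bar (L.kbar f s) (L.cell p) z z' + bar (L.kbar f s) (L.cell p) x x'
        - bar (L.kbar f s) (L.cell p) z x' - bar (L.kbar f s) (L.cell p) x z'| ≤ η) :
    ∀ z ∈ L.room p, ∀ z' ∈ L.room p, ∀ x ∈ L.room p, ∀ x' ∈ L.room p,
      |bar (L.kbar (pf gb f w σ) s) (L.cell p) z z' + bar (L.kbar (pf gb f w σ) s) (L.cell p) x x'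
        - bar (L.kbar (pf gb f w σ) s) (L.cell p) z x' - bar (L.kbar (pf gb f w σ) s) (L.cell p) x z'| ≤ η := by
  have hK := hF.kd σ hσ s
  -- one sided
  have key : ∀ z ∈ L.room p, ∀ z' ∈ L.room p, ∀ x ∈ L.room p, ∀ x' ∈ L.room p,
      bar (L.kbar (pf gb f w σ) s) (L.cell p) z x' + bar (L.kbar (pf gb f w σ) s) (L.cell p) x z' ≤
      bar (L.kbar (pf gb f w σ) s) (L.cell p) z z' + bar (L.kbar (pf gb f w σ) s) (L.cell p) x x' + η := by
    intro z hz z' hz' x hx x' hx'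
    obtain ⟨k1, X1, hk1, _, hX1, hX1r, hN1, e1⟩ := rep_left L hF hσ hs hz hz'
    obtain ⟨k2, X2, hk2, _, hX2, hX2r, hN2, e2⟩ := rep_right L hF hσ hs (hX1r k1 le_rfl) hz'
    obtain ⟨k3, X3, hk3, _, hX3, hX3r, hN3, e3⟩ := rep_left L hF hσ hs hx hx'
    obtain ⟨k4, X4, hk4, _, hX4, hX4r, hN4, e4⟩ := rep_right L hF hσ hs (hX3r k3 le_rfl) hx'
    have c1 := kp_le_cost hK (x := X1) hk1 hX1r
    have c2 := kp_le_cost hK (x := X2) hk2 hX2r
    have c3 := kp_le_cost hK (x := X3) hk3 hX3r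
    have c4 := kp_le_cost hK (x := X4) hk4 hX4r
    rw [hX1] at c1
    rw [hX2] at c2
    rw [hX3] at c3
    rw [hX4] at c4
    have a1 := bar_left_le hK hk1 hz (hX1r k1 le_rfl) hx'
    have a2 := bar_right_le hK hk4 (hX1r k1 le_rfl) (hX4r 0 (by omega)) hx'
    have a3 := bar_left_le hK hk3 hx (hX3r k3 le_rfl) hz'
    have a4 := bar_right_le hK hk2 (hX3r k3 le_rfl) (hX2r 0 (by omega)) hz'
    have b1 := bar_near L hF hσ hs hv hN1 hN4
    have b2 := bar_near L hF hσ hs hv hN3 hN2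
    have b3 := bar_near L hF hσ hs hv hN1 hN2
    have b4 := bar_near L hF hσ hs hv hN3 hN4
    have h := (abs_le.1 (H (X1 k1) (hX1r k1 le_rfl) (X2 0) (hX2r 0 (by omega)) (X3 k3) (hX3r k3 le_rfl)
      (X4 0) (hX4r 0 (by omega)))).1
    linarith
  intro z hz z' hz' x hx x' hx'
  rw [abs_le]
  constructor
  · have := key z hz z' hz' x hx x' hx'
    linarith
  · have := key z hz x' hx' x hx z' hz'
    linarith

open Classical in
/-- cells visited by the first `k+1` points of a path -/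
def vis (ct : I → E) (r : ℝ) (X : ℕ → E) (k : ℕ) : Finset I :=
  Finset.univ.filter (fun c => ∃ i ≤ k, cl L.toSp (4 * r) (ct c) (X i))

lemma mem_vis {X : ℕ → E} {k : ℕ} {c : I} :
    c ∈ vis L ct r X k ↔ ∃ i ≤ k, cl L.toSp (4 * r) (ct c) (X i) := by
  unfold vis; simp

lemma card_vis_le (hm : ∀ x, ∀ C' : Finset I, (∀ c ∈ C', cl L.toSp (4 * r) (ct c) x) → C'.card ≤ D)
    (X : ℕ → E) (k : ℕ) : (vis L ct r X k).card ≤ (k + 1) * D := by
  classical
  have h1 : vis L ct r X k ⊆ (Finset.range (k + 1)).biUnion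
      (fun i => Finset.univ.filter (fun c : I => cl L.toSp (4 * r) (ct c) (X i))) := by
    intro c hc
    rw [mem_vis] at hc
    obtain ⟨i, hi, h⟩ := hc
    rw [Finset.mem_biUnion]
    exact ⟨i, Finset.mem_range.2 (by omega), by simp [h]⟩
  refine (Finset.card_le_card h1).trans (Finset.card_biUnion_le.trans ?_)
  have h2 : ∀ i ∈ Finset.range (k + 1),
      (Finset.univ.filter (fun c : I => cl L.toSp (4 * r) (ct c) (X i))).card ≤ D := by
    intro i _
    refine hm (X i) _ fun c hc => ?_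
    rw [Finset.mem_filter] at hc
    exact hc.2
  calc ∑ i ∈ Finset.range (k + 1), (Finset.univ.filter (fun c : I => cl L.toSp (4 * r) (ct c) (X i))).card
      ≤ ∑ _i ∈ Finset.range (k + 1), D := Finset.sum_le_sum h2
    _ = (k + 1) * D := by simp

/-- costs depend only on visited cells -/
lemma cost_vis (hF : FarS L ct gb r D Sy e0 f p β M0 M B Λ Vm w ε') {σ σ' : I → ℝ} (hσ : Alw ε' σ)
    (hσ' : Alw ε' σ') {s : ℝ} (hv : ‖L.vel s‖ ≤ Vm) {X : ℕ → E} {k : ℕ} (hX : ∀ i ≤ k, X i ∈ L.room p)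
    (h : ∀ c ∈ vis L ct r X k, σ c = σ' c) :
    cost (L.kbar (pf gb f w σ) s) X k = cost (L.kbar (pf gb f w σ') s) X k := by
  unfold cost
  refine Finset.sum_congr rfl fun i hi => ?_
  rw [Finset.mem_range] at hi
  exact kbar_local L hF hσ hσ' hv (hX i hi.le) (hX (i + 1) hi)
    (fun c hc => h c ((mem_vis L).2 ⟨i, hi.le, hc⟩)) (fun c hc => h c ((mem_vis L).2 ⟨i + 1, hi, hc⟩))

lemma kbar_mono_pf (hF : FarS L ct gb r D Sy e0 f p β M0 M B Λ Vm w ε') {σ σ' : I → ℝ} (hσ : Alw ε' σ)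
    (hσ' : Alw ε' σ') (hle : σ ≤ σ') {s : ℝ} (hv : ‖L.vel s‖ ≤ Vm) {z z' : E} (hz : z ∈ L.room p)
    (hz' : z' ∈ L.room p) : L.kbar (pf gb f w σ) s z z' ≤ L.kbar (pf gb f w σ') s z z' :=
  kbar_local_le L hF hσ hσ' hv hz hz' (fun c _ => hle c) (fun c _ => hle c)

/-- monotonicity and growth of the outgoing barrier -/
lemma bar_out_grow (hF : FarS L ct gb r D Sy e0 f p β M0 M B Λ Vm w ε') {σ σ' : I → ℝ} (hσ : Alw ε' σ)
    (hσ' : Alw ε' σ') (hle : σ ≤ σ') {s : ℝ} (hs : M0 ≤ s) (hv : ‖L.vel s‖ ≤ Vm) {z zs : E}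
    (hz : z ∈ L.room p) (hzs : Nf L Sy e0 p β zs) {A : ℝ}
    (hA : ∀ z' ∈ L.room p, L.kbar (pf gb f w σ) s z z' + A ≤ L.kbar (pf gb f w σ') s z z') :
    bar (L.kbar (pf gb f w σ) s) (L.cell p) z zs + A ≤ bar (L.kbar (pf gb f w σ') s) (L.cell p) z zs := by
  obtain ⟨k, X, hk, _, hX0, hXr, hN, e⟩ := rep_left L hF hσ' hs hz hzs.1
  have hK := hF.kd σ hσ s
  have a := bar_left_le hK hk hz (hXr k le_rfl) hzs.1
  have b := kp_le_cost hK (x := X) hk hXr
  rw [hX0] at b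
  rw [bar_near L hF hσ' hs hv hN hzs, al_near L hF hσ' hs hv] at e
  rw [bar_near L hF hσ hs hv hN hzs, al_near L hF hσ hs hv] at a
  have c : cost (L.kbar (pf gb f w σ) s) X k + A ≤ cost (L.kbar (pf gb f w σ') s) X k := by
    unfold cost
    obtain ⟨k', rfl⟩ : ∃ k', k = k' + 1 := ⟨k - 1, by omega⟩
    rw [Finset.sum_range_succ', Finset.sum_range_succ']
    have h1 : ∑ i ∈ Finset.range k', L.kbar (pf gb f w σ) s (X (i + 1)) (X (i + 1 + 1)) ≤
        ∑ i ∈ Finset.range k', L.kbar (pf gb f w σ') s (X (i + 1)) (X (i + 1 + 1)) := by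
      apply Finset.sum_le_sum
      intro i hi
      rw [Finset.mem_range] at hi
      exact kbar_mono_pf L hF hσ hσ' hle hv (hXr _ (by omega)) (hXr _ (by omega))
    have h2 := hA (X (0 + 1)) (hXr _ (by omega))
    rw [← hX0] at h2
    linarith
  linarith

/-- monotonicity and growth of the incoming barrier -/
lemma bar_in_grow (hF : FarS L ct gb r D Sy e0 f p β M0 M B Λ Vm w ε') {σ σ' : I → ℝ} (hσ : Alw ε' σ)
    (hσ' : Alw ε' σ') (hle : σ ≤ σ') {s : ℝ} (hs : M0 ≤ s) (hv : ‖L.vel s‖ ≤ Vm) {z zs : E}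
    (hz : z ∈ L.room p) (hzs : Nf L Sy e0 p β zs) {A : ℝ}
    (hA : ∀ z' ∈ L.room p, L.kbar (pf gb f w σ) s z' z + A ≤ L.kbar (pf gb f w σ') s z' z) :
    bar (L.kbar (pf gb f w σ) s) (L.cell p) zs z + A ≤ bar (L.kbar (pf gb f w σ') s) (L.cell p) zs z := by
  obtain ⟨k, X, hk, _, hXk, hXr, hN, e⟩ := rep_right L hF hσ' hs hzs.1 hz
  have hK := hF.kd σ hσ s
  have a := bar_right_le hK hk hzs.1 (hXr 0 (by omega)) hz
  have b := kp_le_cost hK (x := X) hk hXr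
  rw [hXk] at b
  rw [bar_near L hF hσ' hs hv hzs hN, al_near L hF hσ' hs hv] at e
  rw [bar_near L hF hσ hs hv hzs hN, al_near L hF hσ hs hv] at a
  have c : cost (L.kbar (pf gb f w σ) s) X k + A ≤ cost (L.kbar (pf gb f w σ') s) X k := by
    unfold cost
    obtain ⟨k', rfl⟩ : ∃ k', k = k' + 1 := ⟨k - 1, by omega⟩
    rw [Finset.sum_range_succ, Finset.sum_range_succ]
    have h1 : ∑ i ∈ Finset.range k', L.kbar (pf gb f w σ) s (X i) (X (i + 1)) ≤
        ∑ i ∈ Finset.range k', L.kbar (pf gb f w σ') s (X i) (X (i + 1)) := by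
      apply Finset.sum_le_sum
      intro i hi
      rw [Finset.mem_range] at hi
      exact kbar_mono_pf L hF hσ hσ' hle hv (hXr _ (by omega)) (hXr _ (by omega))
    have h2 := hA (X k') (hXr _ (by omega))
    rw [← hXk] at h2
    linarith
  linarith

end EscF
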