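import Pool.Agent.EscF.Flat
import Pool.Agent.EscN.Lift

/-!
From the chain data to a sitewise locally minimal sequence in the universal cover.
-/

set_option linter.unusedSectionVars false

noncomputable section

namespace EscF

open MeasureTheory Set Filter Topology Esc EscN
open Esc.H33 (gI gI_continuousOn gI_realize)

variable {d : ℕ} {E : Type*} [NormedAddCommGroup E] [InnerProductSpace ℝ E] [FiniteDimensional ℝ E]
  (L : SpL d E)

lemma site_min {M : ℝ} {f : E → ℝ → ℝ} (hf : Good M f) (s s' : ℝ) (a b m : E)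
    (h : ∀ᶠ x in 𝓝[L.S] m, L.ker f s 0 1 a m + L.ker f s' 0 1 m b - inner ℝ (L.mom s' - L.mom s) m ≤
      L.ker f s 0 1 a x + L.ker f s' 0 1 x b - inner ℝ (L.mom s' - L.mom s) x) :
    IsLocalMin (fun x => kerl (L.lf f) 0 1 a x + kerl (L.lf f) 0 1 x b) m := by
  rw [L.S_univ, nhdsWithin_univ] at h
  filter_upwards [h] with x hx
  rw [ker_eq L hf s one_pos a m, ker_eq L hf s' one_pos m b, ker_eq L hf s one_pos a x,
    ker_eq L hf s' one_pos x b] at hx
  simp only [inner_sub_right, inner_sub_left] at hx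
  linarith

/-! ### deck maps -/

/-- properties of the elements of the deck group -/
structure Deck (f : E → ℝ → ℝ) (γ : Equiv.Perm E) : Prop where
  mem : ∀ x, γ x ∈ L.S ↔ x ∈ L.S
  cont : Continuous γ.symm
  ker : ∀ s z z', L.ker f s 0 1 (γ z) (γ z') = L.ker f s 0 1 z z'
  lin : ∀ V : E, ∃ c : ℝ, ∀ x, inner ℝ V (γ x) = inner ℝ V x + c

lemma Deck.one (f : E → ℝ → ℝ) : Deck L f 1 :=
  ⟨fun _ => Iff.rfl, continuous_id, fun _ _ _ => rfl, fun _ => ⟨0, fun x => by simp⟩⟩

lemma Deck.mul {f : E → ℝ → ℝ} {γ γ' : Equiv.Perm E} (h : Deck L f γ) (h' : Deck L f γ') :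
    Deck L f (γ * γ') := by
  refine ⟨fun x => ?_, ?_, fun s z z' => ?_, fun V => ?_⟩
  · show γ (γ' x) ∈ L.S ↔ _
    rw [h.mem, h'.mem]
  · show Continuous fun x => γ'.symm (γ.symm x)
    exact h'.cont.comp h.cont
  · show L.ker f s 0 1 (γ (γ' z)) (γ (γ' z')) = _
    rw [h.ker s, h'.ker s]
  · obtain ⟨c, hc⟩ := h.lin V
    obtain ⟨c', hc'⟩ := h'.lin V
    refine ⟨c' + c, fun x => ?_⟩
    show inner ℝ V (γ (γ' x)) = _
    rw [hc, hc', add_assoc]

lemma deck_dk {f : E → ℝ → ℝ} (h : ∀ n x t, f (L.dk n x) t = f x t) (n : Fin d → ℤ) :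
    Deck L f (dkE L.toSp n) := by
  refine ⟨fun x => S_dk L.toSp n, ?_, fun s z z' => ker_dk L n (h n) s 0 1 z z', fun V => ?_⟩
  · show Continuous (L.dk (-n))
    unfold Sp.dk
    exact (L.O (-n)).continuous.add continuous_const
  · refine ⟨inner ℝ V (L.lv n), fun x => ?_⟩
    show inner ℝ V (L.dk n x) = _
    rw [dk_eq, inner_add_right]

lemma deck_gd {f : E → ℝ → ℝ} (h : ∀ x t, f (L.gd x) t = f x t) : Deck L f (gdE L.toSp) := by
  refine ⟨fun x => S_gd L.toSp, ?_, fun s z z' => ker_gd L h s 0 1 z z', fun V => ?_⟩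
  · show Continuous L.gi
    unfold Sp.gi
    exact L.Og.symm.continuous.sub continuous_const
  · refine ⟨inner ℝ V L.g, fun x => ?_⟩
    show inner ℝ V (L.gd x) = _
    rw [gd_eq, inner_add_right]

lemma deck_pk {f : E → ℝ → ℝ} (h : ∀ n x t, f (L.dk n x) t = f x t) (ν : ℕ → Fin d → ℤ) (k : ℕ) :
    Deck L f (pk L.toSp ν k) := by
  induction k with
  | zero => exact Deck.one L f
  | succ k ih => exact ih.mul L (deck_dk L h _)

lemma deck_g0 {f : E → ℝ → ℝ} (h : ∀ n x t, f (L.dk n x) t = f x t) (hg : ∀ x t, f (L.gd x) t = f x t)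
    (T : ℕ → ℕ) (ν : ℕ → ℕ → Fin d → ℤ) (n : ℕ) : Deck L f (g0 L.toSp T ν n) := by
  induction n with
  | zero => exact Deck.one L f
  | succ n ih => exact (ih.mul L (deck_pk L h _ _)).mul L (deck_gd L hg)

/-! ### transitions stay in the room -/

lemma lift_room {p β M0 s : ℝ} {f : E → ℝ → ℝ} {B Λ : ℝ} (hD : L.Dat p β M0 f)
    (hK : KD (L.kbar f s) (L.cell p) (L.room p) B Λ) (hs : M0 ≤ s)
    {T : ℕ} (hT : 2 * Lat.R1 β + 2 ≤ T) {x : ℕ → E} (hx : ∀ k ≤ T, x k ∈ L.room p)
    (hmin : cost (L.kbar f s) x T = kp (L.kbar f s) (L.cell p) T (x 0) (x T))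
    (h0 : -(3/4) ≤ L.y (x 0) - p ∧ L.y (x 0) - p ≤ -(1/4)) (h1 : 1/4 ≤ L.y (x T) - p ∧ L.y (x T) - p ≤ 3/4)
    {k : ℕ} (hk : k ≤ T) : |L.y (x k) - p| ≤ 3 / 4 := by
  obtain ⟨Sy, e0, κ, hS, _, hκ, hW⟩ := hD.ex
  obtain ⟨R, hR, hR2⟩ := hW s hs
  have hY : SetY L.S L.y L.setY := ⟨fun z hz η => S_setY L.toSp η hz, fun z _ η => (setY_struct' L.toSp).1 z η,
    fun z _ => (setY_struct' L.toSp).2 z⟩
  have hN : NearSum (L.kbar f s) L.S L.y L.setY Sy (β ^ 2 / 200) :=
    ⟨R, fun z _ z' _ η η' => hR z z' η η', fun z hz z' hz' hy => (hR2 z hz z' hz' hy).trans hκ.le⟩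
  exact trans_room hS (nmin_of_near hY hK hN) hT hx hmin h0 h1 hk

theorem exists_seq {p β M0 : ℝ} {f : E → ℝ → ℝ} (hf : L.IsPot f)
    (hD : L.Dat p β M0 f) {σ : ℕ → ℝ} {I : ℕ → Finset (ℕ × ℕ)} {cc : ℕ → ℕ × ℕ → ℝ} {D : ℕ → Set E}
    (hC : Chn L p β M0 f σ I cc D) :
    ∃ (w : ℕ → E) (ν : ℕ → ℕ) (B : ℝ), Tendsto ν atTop atTop ∧
      (∀ j, w j ∈ L.S) ∧
      (∀ j, IsLocalMin (fun x => kerl (L.lf f) 0 1 (w j) x + kerl (L.lf f) 0 1 x (w (j + 2))) (w (j + 1))) ∧
      ∀ j, L.ker f (σ (ν j)) 0 1 (w j) (w (j + 1)) ≤ B := by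
  classical
  obtain ⟨M, hM⟩ := isPot_good L.toSp hf
  obtain ⟨B, Λ', hB, hΛ', hKD⟩ := kd_kbar L M
  have hK : ∀ s, KD (L.kbar f s) (L.cell p) (L.room p) B Λ' := fun s => hKD f hM hf.perd s p
  have hI1 : ∀ n, ∀ q ∈ I n, 1 ≤ q.1 + q.2 := fun n q hq => by have := hC.le n q hq; omega
  have hroom : ∀ n, ∀ z ∈ D n, z ∈ L.room p := fun n z hz => strip_room L (hC.sub n hz) (hC.strip n z hz)
  have hroomg : ∀ n, ∀ z ∈ D n, L.gi z ∈ L.room p := fun n z hz =>
    strip_room_g L (hC.sub n hz) (hC.strip n z hz)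
  have hgi : Continuous L.gi := by
    unfold Sp.gi
    exact L.Og.symm.continuous.sub continuous_const
  set G : ℕ → E → E → ℝ := fun n => gI (L.kbar f (σ n)) (L.cell p) (I n) (cc n) with hG
  set τ : ℕ → E := fun n => L.mom (σ n) - L.mom (σ (n - 1)) with hτ
  have hτ1 : ∀ n, τ (n + 1) = L.mom (σ (n + 1)) - L.mom (σ n) := fun n => by simp [hτ]
  obtain ⟨z, hzD, hzint, hzopt⟩ := chain_points L.S (L.room p) L.gi hgi G D τ L.ret.closed hC.comp hC.Dne
    hC.sub hroom hroomg
    (fun n => gI_continuousOn (hK _) (hC.ne n) (hI1 n) _)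
    (fun n ζ hζ => by
      obtain ⟨w, hw, h⟩ := hC.gate n ζ hζ
      refine ⟨w, hw, fun x hx x' hx' => ?_⟩
      rw [hτ1]
      exact h x hx x' hx')
  -- realization of the segments
  have hreal : ∀ n, ∃ (T : ℕ) (c0 : ℝ) (x : ℕ → E), 2 * Lat.R1 β + 2 ≤ T ∧ x 0 = L.gi (z n) ∧
      x T = z (n + 1) ∧ (∀ k ≤ T, x k ∈ L.room p) ∧
      G n (L.gi (z n)) (z (n + 1)) = cost (L.kbar f (σ n)) x T + c0 ∧
      cost (L.kbar f (σ n)) x T = kp (L.kbar f (σ n)) (L.cell p) T (L.gi (z n)) (z (n + 1)) ∧
      ∀ x' : ℕ → E, (∀ k ≤ T, x' k ∈ L.room p) → G n (x' 0) (x' T) ≤ cost (L.kbar f (σ n)) x' T + c0 :=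
    fun n => gI_realize (hK _) (hC.ne n) _ _ (by omega) (hC.le n) (hroomg n _ (hzD n)) (hroom _ _ (hzD _))
  choose T c0 X hT hX0 hXT hXr hXc hXk hXopt using hreal
  have hTpos : ∀ n, 0 < T n := fun n => by have := hT n; omega
  have hXS : ∀ n k, k ≤ T n → X n k ∈ L.S := fun n k hk => (hXr n k hk).1
  have hXin : ∀ n k, k ≤ T n → |L.y (X n k) - p| ≤ 3 / 4 := by
    intro n k hk
    refine lift_room L hD (hK _) (hC.M0le n) (hT n) (hXr n) ?_ ?_ ?_ hk
    · rw [hXk n, hX0, hXT]
    · rw [hX0, y_gi L.toSp]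
      have := hC.strip n _ (hzD n)
      constructor <;> linarith [this.1, this.2]
    · rw [hXT]
      exact hC.strip _ _ (hzD _)
  -- lifts
  have hlift : ∀ n k, ∃ ν : Fin d → ℤ, k < T n → L.kbar f (σ n) (X n k) (X n (k + 1)) =
      L.ker f (σ n) 0 1 (X n k) (L.dk ν (X n (k + 1))) := by
    intro n k
    by_cases hk : k < T n
    · obtain ⟨ν, h⟩ := kbar_attained L hM (σ n) (hXS n k hk.le) (hXS n (k + 1) hk)
      exact ⟨ν, fun _ => h⟩
    · exact ⟨0, fun h => absurd h hk⟩
  choose ν hν using hlift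
  set Γ : ℕ → ℕ → Equiv.Perm E := fun n k => g0 L.toSp T ν n * pk L.toSp (ν n) k with hΓ
  have hΓs : ∀ n k x, Γ n (k + 1) x = Γ n k (L.dk (ν n k) x) := fun n k x => rfl
  have hΓn : ∀ n x, Γ (n + 1) 0 x = Γ n (T n) (L.gd x) := fun n x => rfl
  have hdeck : ∀ n k, Deck L f (Γ n k) := fun n k =>
    (deck_g0 L hf.perd hf.perg T ν n).mul L (deck_pk L hf.perd (ν n) k)
  have hΓS : ∀ n k x, (Γ n k).symm x ∈ L.S ↔ x ∈ L.S := by
    intro n k x
    rw [← (hdeck n k).mem, Equiv.apply_symm_apply]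
  set S := st T with hSdef
  have hlt : ∀ j, (S j).2 < T (S j).1 := st_lt hTpos
  have hS1 : ∀ j, S (j + 1) = if (S j).2 + 1 < T (S j).1 then ((S j).1, (S j).2 + 1)
      else ((S j).1 + 1, 0) := fun j => rfl
  set w : ℕ → E := fun j => Γ (S j).1 (S j).2 (X (S j).1 (S j).2) with hw
  have hw1 : ∀ j, w (j + 1) = Γ (S j).1 ((S j).2 + 1) (X (S j).1 ((S j).2 + 1)) := by
    intro j
    simp only [hw]
    rw [hS1]
    by_cases h : (S j).2 + 1 < T (S j).1
    · rw [if_pos h]
    · rw [if_neg h]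
      simp only
      have h2 : (S j).2 + 1 = T (S j).1 := by have := hlt j; omega
      rw [h2, hX0, hΓn, gd_gi L.toSp, hXT]
  have hwS : ∀ j, w j ∈ L.S := fun j => ((hdeck _ _).mem _).2 (hXS _ _ (hlt j).le)
  -- lower bounds of kernels near a site
  have hlow1 : ∀ n k (x : E), k < T n → x ∈ L.S → L.kbar f (σ n) (X n k) ((Γ n (k + 1)).symm x) ≤
      L.ker f (σ n) 0 1 (Γ n k (X n k)) x := by
    intro n k x hk hx
    have h1 := (hdeck n k).ker (σ n) (X n k) (L.dk (ν n k) ((Γ n (k + 1)).symm x))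
    rw [← hΓs, Equiv.apply_symm_apply] at h1
    rw [h1]
    exact kbar_le_ker L hM _ (hXS n k hk.le) ((hΓS n (k + 1) x).2 hx) _
  have hlow2 : ∀ n k (x : E), k < T n → x ∈ L.S → L.kbar f (σ n) ((Γ n k).symm x) (X n (k + 1)) ≤
      L.ker f (σ n) 0 1 x (Γ n (k + 1) (X n (k + 1))) := by
    intro n k x hk hx
    have h1 := (hdeck n k).ker (σ n) ((Γ n k).symm x) (L.dk (ν n k) (X n (k + 1)))
    rw [← hΓs, Equiv.apply_symm_apply] at h1
    rw [h1]
    exact kbar_le_ker L hM _ ((hΓS n k x).2 hx) (hXS n (k + 1) hk) _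
  have heq : ∀ n k, k < T n → L.ker f (σ n) 0 1 (Γ n k (X n k)) (Γ n (k + 1) (X n (k + 1))) =
      L.kbar f (σ n) (X n k) (X n (k + 1)) := by
    intro n k hk
    rw [hν n k hk, hΓs]
    exact (hdeck n k).ker (σ n) _ _
  refine ⟨w, fun j => (S j).1, B, st_tendsto hTpos, hwS, ?_, ?_⟩
  · intro j
    by_cases h : (S j).2 + 1 < T (S j).1
    · -- interior site of segment n
      have hlj := hlt j
      have hwS1 := hwS j
      have hwS2 := hwS (j + 1)
      have hwS3 := hwS (j + 2)
      set n := (S j).1 with hn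
      set k := (S j).2 with hk
      have hS' : S (j + 1) = (n, k + 1) := by rw [hS1]; exact if_pos h
      have e0 : w j = Γ n k (X n k) := rfl
      have e1 : w (j + 1) = Γ n (k + 1) (X n (k + 1)) := hw1 j
      have e2 : w (j + 2) = Γ n (k + 1 + 1) (X n (k + 1 + 1)) := by
        have := hw1 (j + 1)
        rw [hS'] at this
        exact this
      apply site_min L hM (σ n) (σ n)
      have hopen : ∀ᶠ x in 𝓝[L.S] (w (j + 1)), (Γ n (k + 1)).symm x ∈ L.room p := by
        have hc : Continuous (fun x : E => |L.y ((Γ n (k + 1)).symm x) - p|) :=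
          (((y_cont L.toSp).comp (hdeck n (k + 1)).cont).sub continuous_const).abs
        have h1 : |L.y ((Γ n (k + 1)).symm (w (j + 1))) - p| < 7 / 8 := by
          rw [e1, Equiv.symm_apply_apply]
          have := hXin n (k + 1) (by omega)
          linarith
        filter_upwards [mem_nhdsWithin_of_mem_nhds (hc.continuousAt.eventually (gt_mem_nhds h1)),
          self_mem_nhdsWithin] with x hx hxS
        exact ⟨(hΓS n (k + 1) x).2 hxS, hx.le⟩
      filter_upwards [hopen, self_mem_nhdsWithin] with x hx hxS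
      rw [sub_self, inner_zero_left, inner_zero_left, sub_zero, sub_zero, e0, e2]
      have a1 := hlow1 n k x (by omega) hxS
      have a2 := hlow2 n (k + 1) x h hxS
      have b1 := heq n k (by omega)
      have b2 := heq n (k + 1) h
      rw [e1, b1, b2]
      -- optimality
      set ξ : E := (Γ n (k + 1)).symm x with hξ
      set x' : ℕ → E := Function.update (X n) (k + 1) ξ with hx'
      have hx'r : ∀ l ≤ T n, x' l ∈ L.room p := by
        intro l hl
        by_cases hlk : l = k + 1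
        · subst hlk; simp only [hx', Function.update_self]; exact hx
        · simp only [hx', Function.update_of_ne hlk]; exact hXr n l hl
      have h3 := hXopt n x' hx'r
      have h4 : x' 0 = L.gi (z n) := by
        simp only [hx', Function.update_of_ne (show (0:ℕ) ≠ k + 1 by omega)]; exact hX0 n
      have h5 : x' (T n) = z (n + 1) := by
        simp only [hx', Function.update_of_ne (show T n ≠ k + 1 by omega)]; exact hXT n
      rw [h4, h5, hXc n] at h3
      have h6 : cost (L.kbar f (σ n)) (X n) (T n) ≤ cost (L.kbar f (σ n)) x' (T n) := by linarith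
      unfold cost at h6
      have hdiff : ∑ l ∈ Finset.range (T n), (L.kbar f (σ n) (x' l) (x' (l + 1)) -
          L.kbar f (σ n) (X n l) (X n (l + 1))) =
          (L.kbar f (σ n) (x' k) (x' (k + 1)) - L.kbar f (σ n) (X n k) (X n (k + 1))) +
          (L.kbar f (σ n) (x' (k + 1)) (x' (k + 1 + 1)) -
            L.kbar f (σ n) (X n (k + 1)) (X n (k + 1 + 1))) := by
        have hsub : ({k, k + 1} : Finset ℕ) ⊆ Finset.range (T n) := by
          intro l hl
          simp only [Finset.mem_insert, Finset.mem_singleton] at hl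
          rw [Finset.mem_range]
          omega
        rw [← Finset.sum_subset hsub, Finset.sum_pair (by omega)]
        intro l _ hl
        simp only [Finset.mem_insert, Finset.mem_singleton, not_or] at hl
        have q1 : x' l = X n l := by simp only [hx', Function.update_of_ne (show l ≠ k + 1 by omega)]
        have q2 : x' (l + 1) = X n (l + 1) := by
          simp only [hx', Function.update_of_ne (show l + 1 ≠ k + 1 by omega)]
        rw [q1, q2, sub_self]
      have q1 : x' k = X n k := by simp only [hx', Function.update_of_ne (show k ≠ k + 1 by omega)]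
      have q2 : x' (k + 1) = ξ := by simp only [hx', Function.update_self]
      have q3 : x' (k + 1 + 1) = X n (k + 1 + 1) := by
        simp only [hx', Function.update_of_ne (show k + 1 + 1 ≠ k + 1 by omega)]
      rw [q1, q2, q3, Finset.sum_sub_distrib] at hdiff
      linarith
    · -- gate
      have hlj := hlt j
      have hwS1 := hwS j
      have hwS2 := hwS (j + 1)
      have hwS3 := hwS (j + 2)
      set n := (S j).1 with hn
      set k := (S j).2 with hk
      have hkT : k + 1 = T n := by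
        have h' : k < T n := hlt j
        omega
      have hS' : S (j + 1) = (n + 1, 0) := by rw [hS1]; exact if_neg h
      have e0 : w j = Γ n k (X n k) := rfl
      have e1 : w (j + 1) = Γ n (k + 1) (z (n + 1)) := by
        have := hw1 j
        rw [← hn, ← hk, hkT, hXT] at this
        rw [hkT]; exact this
      have e2 : w (j + 2) = Γ (n + 1) (0 + 1) (X (n + 1) (0 + 1)) := by
        have := hw1 (j + 1)
        rw [hS'] at this
        exact this
      have hΓg : ∀ x, (Γ (n + 1) 0).symm x = L.gi ((Γ n (k + 1)).symm x) := by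
        intro x
        rw [Equiv.symm_apply_eq, hΓn, gd_gi L.toSp, ← hkT, Equiv.apply_symm_apply]
      apply site_min L hM (σ n) (σ (n + 1))
      have hopen : ∀ᶠ x in 𝓝[L.S] (w (j + 1)), (Γ n (k + 1)).symm x ∈ D (n + 1) := by
        have hc : Continuous (Γ n (k + 1)).symm := (hdeck n (k + 1)).cont
        have h1 : (Γ n (k + 1)).symm (w (j + 1)) ∈ (closure (L.S \ D (n + 1)))ᶜ := by
          rw [e1, Equiv.symm_apply_apply]; exact hzint n
        filter_upwards [mem_nhdsWithin_of_mem_nhds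
          (hc.continuousAt.eventually (isClosed_closure.isOpen_compl.mem_nhds h1)),
          self_mem_nhdsWithin] with x hx hxS
        by_contra hxD
        exact hx (subset_closure ⟨(hΓS n (k + 1) x).2 hxS, hxD⟩)
      filter_upwards [hopen, self_mem_nhdsWithin] with x hx hxS
      rw [e0, e2]
      have a1 := hlow1 n k x (by omega) hxS
      have a2 := hlow2 (n + 1) 0 x (hTpos _) hxS
      have b1 := heq n k (by omega)
      have b2 := heq (n + 1) 0 (hTpos _)
      have c1 : w (j + 1) = Γ n (k + 1) (X n (k + 1)) := hw1 j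
      have c2 : w (j + 1) = Γ (n + 1) 0 (X (n + 1) 0) := by
        rw [e1, hX0, hΓn, gd_gi L.toSp, hkT]
      rw [← c1] at b1
      rw [← c2] at b2
      rw [b1, b2]
      -- optimality at the gate
      rw [hΓg] at a2
      set ξ := (Γ n (k + 1)).symm x with hξ
      have hξx : Γ n (k + 1) ξ = x := Equiv.apply_symm_apply _ _
      have hξD : ξ ∈ D (n + 1) := hx
      have h3 := hzopt n ξ hξD
      rw [hτ1] at h3
      -- modified left path
      set x' : ℕ → E := Function.update (X n) (k + 1) ξ with hx'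
      have hx'r : ∀ l ≤ T n, x' l ∈ L.room p := by
        intro l hl
        by_cases hlk : l = k + 1
        · subst hlk; simp only [hx', Function.update_self]; exact hroom _ _ hξD
        · simp only [hx', Function.update_of_ne hlk]; exact hXr n l hl
      have h4 := hXopt n x' hx'r
      have h5 : x' 0 = L.gi (z n) := by
        simp only [hx', Function.update_of_ne (show (0:ℕ) ≠ k + 1 by omega)]; exact hX0 n
      have h6 : x' (T n) = ξ := by rw [← hkT]; simp only [hx', Function.update_self]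
      rw [h5, h6] at h4
      -- modified right path
      set x'' : ℕ → E := Function.update (X (n + 1)) 0 (L.gi ξ) with hx''
      have hx''r : ∀ l ≤ T (n + 1), x'' l ∈ L.room p := by
        intro l hl
        by_cases hlk : l = 0
        · subst hlk; simp only [hx'', Function.update_self]; exact hroomg _ _ hξD
        · simp only [hx'', Function.update_of_ne hlk]; exact hXr (n + 1) l hl
      have h7 := hXopt (n + 1) x'' hx''r
      have h8 : x'' 0 = L.gi ξ := by simp only [hx'', Function.update_self]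
      have h9 : x'' (T (n + 1)) = z (n + 2) := by
        simp only [hx'', Function.update_of_ne (show T (n + 1) ≠ 0 by have := hTpos (n + 1); omega)]
        exact hXT (n + 1)
      rw [h8, h9] at h7
      -- costs of the modified paths
      have hd1 : cost (L.kbar f (σ n)) x' (T n) - cost (L.kbar f (σ n)) (X n) (T n) =
          L.kbar f (σ n) (X n k) ξ - L.kbar f (σ n) (X n k) (X n (k + 1)) := by
        unfold cost
        rw [← hkT, Finset.sum_range_succ, Finset.sum_range_succ]
        have : ∑ l ∈ Finset.range k, L.kbar f (σ n) (x' l) (x' (l + 1)) =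
            ∑ l ∈ Finset.range k, L.kbar f (σ n) (X n l) (X n (l + 1)) := by
          refine Finset.sum_congr rfl fun l hl => ?_
          rw [Finset.mem_range] at hl
          have q1 : x' l = X n l := by simp only [hx', Function.update_of_ne (show l ≠ k + 1 by omega)]
          have q2 : x' (l + 1) = X n (l + 1) := by
            simp only [hx', Function.update_of_ne (show l + 1 ≠ k + 1 by omega)]
          rw [q1, q2]
        have q1 : x' k = X n k := by simp only [hx', Function.update_of_ne (show k ≠ k + 1 by omega)]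
        have q2 : x' (k + 1) = ξ := by simp only [hx', Function.update_self]
        rw [this, q1, q2]; ring
      have hd2 : cost (L.kbar f (σ (n + 1))) x'' (T (n + 1)) - cost (L.kbar f (σ (n + 1))) (X (n + 1)) (T (n + 1)) =
          L.kbar f (σ (n + 1)) (L.gi ξ) (X (n + 1) (0 + 1)) -
            L.kbar f (σ (n + 1)) (X (n + 1) 0) (X (n + 1) (0 + 1)) := by
        unfold cost
        obtain ⟨T', hT'⟩ : ∃ T', T (n + 1) = T' + 1 := ⟨T (n + 1) - 1, by have := hTpos (n + 1); omega⟩
        rw [hT', Finset.sum_range_succ', Finset.sum_range_succ']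
        have : ∑ l ∈ Finset.range T', L.kbar f (σ (n + 1)) (x'' (l + 1)) (x'' (l + 1 + 1)) =
            ∑ l ∈ Finset.range T', L.kbar f (σ (n + 1)) (X (n + 1) (l + 1)) (X (n + 1) (l + 1 + 1)) := by
          refine Finset.sum_congr rfl fun l _ => ?_
          have q1 : x'' (l + 1) = X (n + 1) (l + 1) := by
            simp only [hx'', Function.update_of_ne (show l + 1 ≠ 0 by omega)]
          have q2 : x'' (l + 1 + 1) = X (n + 1) (l + 1 + 1) := by
            simp only [hx'', Function.update_of_ne (show l + 1 + 1 ≠ 0 by omega)]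
          rw [q1, q2]
        have q2 : x'' (0 + 1) = X (n + 1) (0 + 1) := by
          simp only [hx'', Function.update_of_ne (show 0 + 1 ≠ 0 by omega)]
        rw [this, h8, q2]; ring
      obtain ⟨cw, hcw⟩ := (hdeck n (k + 1)).lin (L.mom (σ (n + 1)) - L.mom (σ n))
      have i1 : inner ℝ (L.mom (σ (n + 1)) - L.mom (σ n)) (w (j + 1)) =
          inner ℝ (L.mom (σ (n + 1)) - L.mom (σ n)) (z (n + 1)) + cw := by rw [e1, hcw]
      have i2 : inner ℝ (L.mom (σ (n + 1)) - L.mom (σ n)) x =
          inner ℝ (L.mom (σ (n + 1)) - L.mom (σ n)) ξ + cw := by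
        rw [← hcw ξ, hξx]
      rw [i1, i2]
      have hc1 := hXc n
      have hc2 := hXc (n + 1)
      simp only [zero_add] at *
      linarith
  · intro j
    have h2 := hlt j
    rw [hw1 j]
    have h1 := heq (S j).1 (S j).2 h2
    simp only [hw] at *
    rw [h1]
    have h3 := (hK (σ (S j).1)).bd _ (hXr (S j).1 (S j).2 h2.le) _ (hXr (S j).1 ((S j).2 + 1) h2)
    exact (abs_le.1 h3).2

end EscF
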