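import Pool.Agent.EscF.ODefs
import Pool.Agent.EscF.C2
import Pool.Agent.EscF.C3

/-!
Project EscF, module O3: existence of kernel geodesics of general convex Lagrangians.
-/

noncomputable section

namespace EscF

open MeasureTheory Set Filter Topology Esc
open scoped ContDiff

variable {E : Type*} [NormedAddCommGroup E] [InnerProductSpace ℝ E] [FiniteDimensional ℝ E]
  {l : E → E → ℝ → ℝ} {lx lu : E → E → ℝ → E} {v0 : E} {m Λ : ℝ}

namespace O3

/-- the kernel on a degenerate interval vanishes -/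
theorem kerl_self (l : E → E → ℝ → ℝ) (a : ℝ) (z z' : E) : kerl l a a z z' = 0 := by
  unfold kerl
  have h : {c | ∃ u : ℝ → E, Adm u ∧ traj a z u a = z' ∧ c = actl l a a z u} ⊆ {0} := by
    rintro c ⟨u, -, -, rfl⟩
    simp [actl]
  rcases subset_singleton_iff_eq.mp h with h | h
  · rw [h, Real.sInf_empty]
  · rw [h, csInf_singleton]

theorem traj_self (a : ℝ) (z : E) (u : ℝ → E) : traj a z u a = z := by simp [traj]

/-- splitting of the action -/
theorem actl_split (hl : CK l lu v0 m Λ) (a b c : ℝ) (z : E) {u : ℝ → E} (hu : Adm u) :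
    actl l a c z u = actl l a b z u + actl l b c (traj a z u b) u := by
  have : actl l b c (traj a z u b) u = ∫ t in b..c, l (traj a z u t) (u t) t := by
    unfold actl
    congr 1
    ext t
    rw [traj_split hu a b z t]
  rw [this]
  unfold actl
  rw [intervalIntegral.integral_add_adjacent_intervals (hl.ii hu a z a b) (hl.ii hu a z b c)]

/-- kernel and action, degenerate intervals allowed -/
theorem kerl_le' (hl : CK l lu v0 m Λ) {a b : ℝ} (hab : a ≤ b) {z z' : E} {u : ℝ → E} (hu : Adm u)
    (h : traj a z u b = z') : kerl l a b z z' ≤ actl l a b z u := by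
  rcases hab.eq_or_lt with rfl | h1
  · rw [kerl_self]
    simp [actl]
  · exact kerl_le hl h1 hu h

/-- continuity, degenerate intervals allowed -/
theorem kerl_continuous' (hl : CK l lu v0 m Λ) {a b : ℝ} (hab : a ≤ b) :
    Continuous (fun p : E × E => kerl l a b p.1 p.2) := by
  rcases hab.eq_or_lt with rfl | h1
  · simp only [kerl_self]
    exact continuous_const
  · exact kerl_continuous hl h1

/-- concatenation, degenerate intervals allowed -/
theorem kerl_le_add' (hl : CK l lu v0 m Λ) {a b c : ℝ} (hab : a ≤ b) (hbc : b ≤ c) (Z : ℝ → E) :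
    kerl l a c (Z a) (Z c) ≤ kerl l a b (Z a) (Z b) + kerl l b c (Z b) (Z c) := by
  rcases hab.eq_or_lt with rfl | h1
  · rw [kerl_self]; linarith
  rcases hbc.eq_or_lt with rfl | h2
  · rw [kerl_self l b]; linarith
  exact kerl_le_add hl h1 h2 _ _ _

theorem tendsto_kerl (hl : CK l lu v0 m Λ) {p q : ℝ} (hpq : p ≤ q) {ι : Type*} {F : Filter ι}
    {x y : ι → E} {x0 y0 : E} (hx : Tendsto x F (𝓝 x0)) (hy : Tendsto y F (𝓝 y0)) :
    Tendsto (fun k => kerl l p q (x k) (y k)) F (𝓝 (kerl l p q x0 y0)) := by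
  have h1 : Tendsto (fun k => (x k, y k)) F (𝓝 (x0, y0)) := hx.prodMk_nhds hy
  have h2 : Tendsto (fun p' : E × E => kerl l p q p'.1 p'.2) (𝓝 (x0, y0))
      (𝓝 (kerl l p q x0 y0)) := (kerl_continuous' hl hpq).tendsto (x0, y0)
  have h3 := h2.comp h1
  simp only [Function.comp_def] at h3
  exact h3

end O3

open O3 in
theorem exists_kgeo (hl : CK l lu 0 m Λ) {a b : ℝ} (hab : a < b) (z z' : E) :
    ∃ Z : ℝ → E, Z a = z ∧ Z b = z' ∧ KGeo l a b Z := by
  have hba : 0 < b - a := by linarith
  have hm := hl.m_pos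
  set K := kerl l a b z z' with hK
  have hex : ∀ k : ℕ, ∃ u, Adm u ∧ traj a z u b = z' ∧ actl l a b z u < K + 1 / ((k:ℝ) + 1) :=
    fun k => exists_kerl_lt hl hab z z' (by positivity)
  choose u hu hend hact using hex
  set γ : ℕ → ℝ → E := fun k => traj a z (u k) with hγ
  have hact1 : ∀ k, actl l a b z (u k) ≤ K + 1 := by
    intro k
    have h1 : 1 / ((k:ℝ) + 1) ≤ 1 := by
      rw [div_le_one (by positivity)]
      have : (0:ℝ) ≤ k := by positivity
      linarith
    linarith [hact k]
  set E0 : ℝ := 4 / m * (K + 1 + (Λ + Λ ^ 2 / m) * (b - a)) with hE0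
  -- energy
  have hen : ∀ k, (∫ t in a..b, ‖u k t‖ ^ 2) ≤ E0 := by
    intro k
    have h1 := energy_le hl hab z (hu k)
    simp only [sub_zero] at h1
    have h2 := hact1 k
    have h3 : 4 / m * (actl l a b z (u k) + (Λ + Λ ^ 2 / m) * (b - a)) ≤ E0 := by
      rw [hE0]
      exact mul_le_mul_of_nonneg_left (by linarith) (by positivity)
    exact h1.trans h3
  have hE0n : 0 ≤ E0 :=
    (intervalIntegral.integral_nonneg hab.le fun t _ => by positivity).trans (hen 0)
  -- Hoelder bound
  have hh1 : ∀ k, ∀ s t, a ≤ s → s ≤ t → t ≤ b → ‖γ k t - γ k s‖ ^ 2 ≤ E0 * (t - s) := by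
    intro k s t h1 h2 h3
    rcases h2.eq_or_lt with rfl | h2'
    · simp
    have hts : 0 < t - s := by linarith
    have e1 : γ k t - γ k s = ∫ r in s..t, u k r := by
      rw [hγ]
      simp only
      rw [traj_split (hu k) a s z t]
      simp [traj]
    have e2 := jensen (hu k) h2'
    have e3 : (∫ r in s..t, ‖u k r‖ ^ 2 / 2) ≤ ∫ r in a..b, ‖u k r‖ ^ 2 / 2 :=
      intervalIntegral.integral_mono_interval h1 h2 h3
        (ae_of_all _ fun r => by simp only [Pi.zero_apply]; positivity) ((hu k).sq_ii a b)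
    have e4 : (∫ r in a..b, ‖u k r‖ ^ 2 / 2) = (∫ r in a..b, ‖u k r‖ ^ 2) / 2 := by
      rw [intervalIntegral.integral_div]
    rw [e1]
    have e5 := e2.trans e3
    rw [e4, div_le_iff₀ (by positivity)] at e5
    have e6 : (∫ r in a..b, ‖u k r‖ ^ 2) / 2 * (2 * (t - s)) ≤ E0 / 2 * (2 * (t - s)) :=
      mul_le_mul_of_nonneg_right (by linarith [hen k]) (by positivity)
    linarith
  have hh : ∀ k, ∀ s ∈ Icc a b, ∀ t ∈ Icc a b, ‖γ k t - γ k s‖ ^ 2 ≤ E0 * |t - s| := by
    intro k s hs t ht
    rcases le_total s t with h | h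
    · rw [abs_of_nonneg (by linarith)]
      exact hh1 k s t hs.1 h ht.2
    · rw [abs_of_nonpos (by linarith), norm_sub_rev]
      have := hh1 k t s ht.1 h hs.2
      linarith
  have hγa : ∀ k, γ k a = z := fun k => traj_self a z (u k)
  -- limits along an ultrafilter
  set U : Ultrafilter ℕ := Filter.hyperfilter ℕ with hU
  have hUtop : (U : Filter ℕ) ≤ atTop := by
    rw [hU, ← Nat.cofinite_eq_atTop]
    exact Filter.hyperfilter_le_cofinite
  set ρ : ℝ := Real.sqrt (E0 * (b - a)) with hρ
  have hball : ∀ k, ∀ t ∈ Icc a b, γ k t ∈ Metric.closedBall z ρ := by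
    intro k t ht
    rw [mem_closedBall_iff_norm, hρ]
    apply Real.le_sqrt_of_sq_le
    have h1 := hh k a ⟨le_rfl, hab.le⟩ t ht
    rw [hγa, abs_of_nonneg (by linarith [ht.1])] at h1
    exact h1.trans (mul_le_mul_of_nonneg_left (by linarith [ht.2]) hE0n)
  have hlim : ∀ t, ∃ x : E, t ∈ Icc a b → Tendsto (fun k => γ k t) U (𝓝 x) := by
    intro t
    by_cases ht : t ∈ Icc a b
    · have hcomp : IsCompact (Metric.closedBall z ρ) := isCompact_closedBall z ρ
      obtain ⟨x, -, hx⟩ := hcomp.ultrafilter_le_nhds' (U.map (fun k => γ k t)) (by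
        rw [Ultrafilter.mem_map]
        exact Filter.univ_mem' (fun k => hball k t ht))
      exact ⟨x, fun _ => hx⟩
    · exact ⟨0, fun h => absurd h ht⟩
  choose Z hZ using hlim
  have hamem : a ∈ Icc a b := ⟨le_rfl, hab.le⟩
  have hbmem : b ∈ Icc a b := ⟨hab.le, le_rfl⟩
  have hZa : Z a = z := by
    have h1 := hZ a hamem
    simp only [hγa] at h1
    exact tendsto_nhds_unique h1 tendsto_const_nhds
  have hZb : Z b = z' := by
    have h1 := hZ b hbmem
    have h2 : (fun k => γ k b) = fun _ => z' := funext fun k => hend k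
    rw [h2] at h1
    exact tendsto_nhds_unique h1 tendsto_const_nhds
  refine ⟨Z, hZa, hZb, ⟨E0, fun s hs t ht => ?_⟩, fun s t has hst htb => ?_⟩
  · have h1 : Tendsto (fun k => ‖γ k t - γ k s‖ ^ 2) U (𝓝 (‖Z t - Z s‖ ^ 2)) :=
      (((hZ t ht).sub (hZ s hs)).norm).pow 2
    exact le_of_tendsto h1 (Filter.Eventually.of_forall fun k => hh k s hs t ht)
  · have hs : s ∈ Icc a b := ⟨has, hst.trans htb⟩
    have ht : t ∈ Icc a b := ⟨has.trans hst, htb⟩
    apply le_antisymm
    · -- the kernels converge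
      have key : ∀ p q, a ≤ p → p ≤ q → q ≤ b →
          Tendsto (fun k => kerl l p q (γ k p) (γ k q)) U (𝓝 (kerl l p q (Z p) (Z q))) := by
        intro p q hap hpq hqb
        have hp : p ∈ Icc a b := ⟨hap, hpq.trans hqb⟩
        have hq : q ∈ Icc a b := ⟨hap.trans hpq, hqb⟩
        exact tendsto_kerl hl hpq (hZ p hp) (hZ q hq)
      have hup : ∀ k, kerl l a s (γ k a) (γ k s) + kerl l s t (γ k s) (γ k t) +
          kerl l t b (γ k t) (γ k b) ≤ K + 1 / ((k:ℝ) + 1) := by
        intro k
        have e1 := actl_split hl a s b z (hu k)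
        have e2 := actl_split hl s t b (γ k s) (hu k)
        have e3 : traj a z (u k) s = γ k s := rfl
        have e4 : traj s (γ k s) (u k) t = γ k t := (traj_split (hu k) a s z t).symm
        have e5 : traj t (γ k t) (u k) b = γ k b := (traj_split (hu k) a t z b).symm
        have k1 := kerl_le' hl has (hu k) e3
        have k2 := kerl_le' hl hst (hu k) e4
        have k3 := kerl_le' hl htb (hu k) e5
        rw [e3] at e1
        rw [e4] at e2
        rw [hγa]
        linarith [(hact k).le]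
      have hlimK : Tendsto (fun k : ℕ => K + 1 / ((k:ℝ) + 1)) U (𝓝 K) := by
        have h1 : Tendsto (fun k : ℕ => 1 / ((k:ℝ) + 1)) atTop (𝓝 0) :=
          tendsto_one_div_add_atTop_nhds_zero_nat
        have h2 := (tendsto_const_nhds (x := K)).add (h1.mono_left hUtop)
        rw [add_zero] at h2
        exact h2
      rw [hZa, hZb, ← hK]
      have hl3 := ((key a s le_rfl has hs.2).add (key s t has hst htb)).add (key t b ht.1 htb le_rfl)
      rw [hZa, hZb] at hl3
      exact le_of_tendsto_of_tendsto' hl3 hlimK hup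
    · have h1 := kerl_le_add' hl (hst.trans' has) htb Z
      have h2 := kerl_le_add' hl has hst Z
      linarith

end EscF
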