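import Pool.Agent.EscF.C1
import Pool.Agent.helper42.Esc.K

/-!
Module O4s of project EscF: short kernels of a convex Lagrangian and the discrete momentum equation
at a local minimum of the sum of two short kernels.
-/

noncomputable section

namespace EscF

open MeasureTheory Set Filter Topology Esc
open scoped ContDiff

variable {E : Type*} [NormedAddCommGroup E] [InnerProductSpace ℝ E] [FiniteDimensional ℝ E]
  {l : E → E → ℝ → ℝ} {lx lu : E → E → ℝ → E} {m Λ : ℝ}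

/-! ### integrability -/

theorem o4s_nii {u : ℝ → E} (hu : Adm u) (v : E) (a b : ℝ) :
    IntervalIntegrable (fun t => ‖u t - v‖) volume a b :=
  ((hu.sub_const v).ii a b).norm

theorem o4s_lu_bd (hl : CK l lu 0 m Λ) (x v : E) (t : ℝ) : ‖lu x v t‖ ≤ Λ + Λ * ‖v‖ := by
  have h1 := hl.c1 x t
  have h2 := hl.lu_lip x v t x 0 t
  have h3 : ‖lu x v t‖ ≤ ‖lu x 0 t‖ + ‖lu x v t - lu x 0 t‖ := by
    have := norm_add_le (lu x 0 t) (lu x v t - lu x 0 t)
    rwa [add_sub_cancel] at this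
  simp at h2
  linarith

theorem o4s_lu_ii (hl : CK l lu 0 m Λ) {u : ℝ → E} (hu : Adm u) {γ : ℝ → E} (hγ : Continuous γ)
    (c d : ℝ) : IntervalIntegrable (fun t => lu (γ t) (u t) t) volume c d := by
  obtain ⟨hm, C, hC⟩ := hu
  rw [intervalIntegrable_iff]
  have h1 : StronglyMeasurable (fun t => lu (γ t) (u t) t) :=
    hl.lu_cont.comp_stronglyMeasurable (hγ.stronglyMeasurable.prodMk
      (hm.prodMk stronglyMeasurable_id))
  refine Measure.integrableOn_of_bounded (M := Λ + Λ * C) (by simp) h1.aestronglyMeasurable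
    (ae_of_all _ fun t => ?_)
  have h2 := o4s_lu_bd hl (γ t) (u t) t
  have h3 : Λ * ‖u t‖ ≤ Λ * C := mul_le_mul_of_nonneg_left (hC t) (by linarith [hl.Λ_ge])
  linarith

/-! ### trajectories -/

theorem o4s_traj_const (a : ℝ) (z v : E) (t : ℝ) : traj a z (fun _ => v) t = z + (t - a) • v := by
  simp [traj]

theorem o4s_traj_sub {u : ℝ → E} (hu : Adm u) (a : ℝ) (z v : E) (t : ℝ) :
    traj a z u t - traj a z (fun _ => v) t = ∫ s in a..t, (u s - v) := by
  rw [intervalIntegral.integral_sub (hu.ii a t) (by simp)]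
  simp [traj]

theorem o4s_int_le {u : ℝ → E} (hu : Adm u) (v : E) {a b s t : ℝ} (has : a ≤ s) (hst : s ≤ t)
    (htb : t ≤ b) : ‖∫ r in s..t, (u r - v)‖ ≤ ∫ r in a..b, ‖u r - v‖ := by
  refine (intervalIntegral.norm_integral_le_integral_norm hst).trans ?_
  refine intervalIntegral.integral_mono_interval has hst htb
    (ae_of_all _ fun r => norm_nonneg _) (o4s_nii hu v a b)

theorem o4s_traj_near {u : ℝ → E} (hu : Adm u) {a b : ℝ} (z v : E) {t : ℝ} (ht : t ∈ Icc a b) :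
    ‖traj a z u t - traj a z (fun _ => v) t‖ ≤ ∫ r in a..b, ‖u r - v‖ := by
  rw [o4s_traj_sub hu]
  exact o4s_int_le hu v le_rfl ht.1 ht.2

/-! ### lower bound of the action on a short interval -/

theorem o4s_lower (hl : CK l lu 0 m Λ) {a b h : ℝ} (hb : b = a + h) (hh : 0 < h)
    (h4 : 4 * Λ * h ≤ m) (z v : E) {u : ℝ → E} (hu : Adm u) (hz : traj a z u b = z + h • v) :
    actl l a b z (fun _ => v) + m / 4 * (∫ r in a..b, ‖u r - v‖) ^ 2 / h -
      Λ * h * (2 + ‖v‖) * (∫ r in a..b, ‖u r - v‖) ≤ actl l a b z u := by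
  subst hb
  have hab : a ≤ a + h := by linarith
  set I := ∫ r in a..(a + h), ‖u r - v‖ with hI
  have hI0 : 0 ≤ I := intervalIntegral.integral_nonneg hab (fun t _ => norm_nonneg _)
  have hΛ : 0 < Λ := by linarith [hl.Λ_ge]
  have hm := hl.m_pos
  set p := lu z v a with hp
  -- the pointwise estimate
  have hpt : ∀ t ∈ Icc a (a + h),
      l (traj a z (fun _ => v) t) v t + inner ℝ p (u t - v) +
        (m * (I / h) - Λ * (I + h * ‖v‖ + h)) * ‖u t - v‖ - (m / 2 * (I / h) ^ 2 + Λ * I) ≤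
      l (traj a z u t) (u t) t := by
    intro t ht
    set γ := traj a z u t with hγ
    set ℓ := traj a z (fun _ => v) t with hℓ
    have e1 : ‖γ - ℓ‖ ≤ I := o4s_traj_near hu z v ht
    have e2 : ‖ℓ - z‖ ≤ h * ‖v‖ := by
      rw [hℓ, o4s_traj_const, add_sub_cancel_left, norm_smul, Real.norm_of_nonneg (by linarith [ht.1])]
      exact mul_le_mul_of_nonneg_right (by linarith [ht.2]) (norm_nonneg _)
    have e3 : ‖γ - z‖ ≤ I + h * ‖v‖ := by
      have := norm_add_le (γ - ℓ) (ℓ - z)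
      rw [sub_add_sub_cancel] at this
      linarith
    have e4 : |t - a| ≤ h := by rw [abs_of_nonneg (by linarith [ht.1])]; linarith [ht.2]
    have e5 := hl.low γ (u t) v t
    have e6 := abs_le.mp (hl.l_x γ ℓ v t)
    have e7 : ‖lu γ v t - p‖ ≤ Λ * (I + h * ‖v‖ + h) := by
      refine (hl.lu_lip γ v t z v a).trans ?_
      refine mul_le_mul_of_nonneg_left ?_ hΛ.le
      simp only [sub_self, norm_zero, add_zero]
      linarith
    have e8 : inner ℝ (lu γ v t) (u t - v) = inner ℝ p (u t - v) + inner ℝ (lu γ v t - p) (u t - v) := by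
      rw [inner_sub_left]; ring
    have e9 : -(Λ * (I + h * ‖v‖ + h) * ‖u t - v‖) ≤ inner ℝ (lu γ v t - p) (u t - v) := by
      have h1 := abs_le.mp (abs_real_inner_le_norm (lu γ v t - p) (u t - v))
      have h2 := mul_le_mul_of_nonneg_right e7 (norm_nonneg (u t - v))
      linarith [h1.1]
    have e10 : m * (I / h) * ‖u t - v‖ - m / 2 * (I / h) ^ 2 ≤ m / 2 * ‖u t - v‖ ^ 2 := by
      nlinarith [mul_nonneg hm.le (sq_nonneg (‖u t - v‖ - I / h))]
    have e11 : Λ * ‖γ - ℓ‖ ≤ Λ * I := mul_le_mul_of_nonneg_left e1 hΛ.le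
    have e12 : (m * (I / h) - Λ * (I + h * ‖v‖ + h)) * ‖u t - v‖ =
      m * (I / h) * ‖u t - v‖ - Λ * (I + h * ‖v‖ + h) * ‖u t - v‖ := by ring
    linarith [e6.1]
  have i1 : IntervalIntegrable (fun t => l (traj a z (fun _ => v) t) v t) volume a (a + h) :=
    hl.ii (Adm.const v) a z a (a + h)
  have i2 : IntervalIntegrable (fun t => inner ℝ p (u t - v)) volume a (a + h) :=
    (hu.sub_const v).inner_ii p a (a + h)
  have i3 : IntervalIntegrable (fun t => ‖u t - v‖) volume a (a + h) := o4s_nii hu v a (a + h)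
  have i4 := hl.ii hu a z a (a + h)
  have key := intervalIntegral.integral_mono_on hab
    (((i1.add i2).add (i3.const_mul (m * (I / h) - Λ * (I + h * ‖v‖ + h)))).sub
      (intervalIntegrable_const (c := m / 2 * (I / h) ^ 2 + Λ * I))) i4 hpt
  rw [intervalIntegral.integral_sub ((i1.add i2).add (i3.const_mul _)) intervalIntegrable_const,
    intervalIntegral.integral_add (i1.add i2) (i3.const_mul _),
    intervalIntegral.integral_add i1 i2, intervalIntegral.integral_const_mul,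
    intervalIntegral.integral_const] at key
  have k2 : (∫ t in a..(a + h), inner ℝ p (u t - v)) = 0 := by
    have h1 := (innerSL ℝ p).intervalIntegral_comp_comm ((hu.sub_const v).ii a (a + h))
    have h2 : (∫ t in a..(a + h), inner ℝ p (u t - v)) =
        ∫ t in a..(a + h), (innerSL ℝ p) (u t - v) := by simp
    rw [h2, h1, ← o4s_traj_sub hu a z v, hz, o4s_traj_const]
    simp
  rw [k2, ← hI, add_sub_cancel_left, smul_eq_mul] at key
  have k3 : actl l a (a + h) z (fun _ => v) = ∫ t in a..(a + h), l (traj a z (fun _ => v) t) v t := rfl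
  have k4 : actl l a (a + h) z u = ∫ t in a..(a + h), l (traj a z u t) (u t) t := rfl
  rw [k3, k4]
  refine le_trans ?_ key
  have k5 : (m * (I / h) - Λ * (I + h * ‖v‖ + h)) * I - h * (m / 2 * (I / h) ^ 2 + Λ * I) =
      m / 2 * I ^ 2 / h - Λ * I ^ 2 - Λ * h * (2 + ‖v‖) * I := by
    field_simp
    ring
  have k6 : Λ * I ^ 2 ≤ m / 4 * I ^ 2 / h := by
    rw [le_div_iff₀ hh]
    nlinarith [mul_le_mul_of_nonneg_right h4 (sq_nonneg I)]
  have k7 : m / 2 * I ^ 2 / h = m / 4 * I ^ 2 / h + m / 4 * I ^ 2 / h := by ring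
  linarith

/-! ### short kernels -/

theorem kerl_short (hl : CL l lx lu 0 m Λ) : ∃ C h0 : ℝ, 0 ≤ C ∧ 0 < h0 ∧ ∀ a h : ℝ, 0 < h → h ≤ h0 →
    ∀ z v : E, |kerl l a (a + h) z (z + h • v) - actl l a (a + h) z (fun _ => v)| ≤
      C * h ^ 3 * (1 + ‖v‖) ^ 2 := by
  have hΛ : 0 < Λ := by linarith [hl.Λ_ge]
  have hm := hl.m_pos
  refine ⟨4 * Λ ^ 2 / m, m / (4 * Λ), by positivity, by positivity, fun a h hh hh0 z v => ?_⟩
  have h4 : 4 * Λ * h ≤ m := by
    rw [le_div_iff₀ (by positivity)] at hh0; linarith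
  have hab : a < a + h := by linarith
  have hline : traj a z (fun _ => v) (a + h) = z + h • v := by
    rw [o4s_traj_const, add_sub_cancel_left]
  have hup := kerl_le hl.toCK hab (Adm.const v) hline
  have hC : 0 ≤ 4 * Λ ^ 2 / m * h ^ 3 * (1 + ‖v‖) ^ 2 := by positivity
  have hlo : actl l a (a + h) z (fun _ => v) - 4 * Λ ^ 2 / m * h ^ 3 * (1 + ‖v‖) ^ 2 ≤
      kerl l a (a + h) z (z + h • v) := by
    refine le_kerl hab _ _ fun u hu hz => ?_
    have h1 := o4s_lower hl.toCK rfl hh h4 z v hu hz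
    set I := ∫ r in a..(a + h), ‖u r - v‖ with hI
    have h2 : 0 ≤ m / (4 * h) * (I - 2 * h * (Λ * h * (2 + ‖v‖)) / m) ^ 2 := by positivity
    have h3 : m / (4 * h) * (I - 2 * h * (Λ * h * (2 + ‖v‖)) / m) ^ 2 =
        m / 4 * I ^ 2 / h - Λ * h * (2 + ‖v‖) * I + Λ ^ 2 / m * h ^ 3 * (2 + ‖v‖) ^ 2 := by
      field_simp
      ring
    have h5 : Λ ^ 2 / m * h ^ 3 * (2 + ‖v‖) ^ 2 ≤ 4 * Λ ^ 2 / m * h ^ 3 * (1 + ‖v‖) ^ 2 := by
      have h6 : (2 + ‖v‖) ^ 2 ≤ 4 * (1 + ‖v‖) ^ 2 := by nlinarith [norm_nonneg v]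
      calc Λ ^ 2 / m * h ^ 3 * (2 + ‖v‖) ^ 2 ≤ Λ ^ 2 / m * h ^ 3 * (4 * (1 + ‖v‖) ^ 2) :=
            mul_le_mul_of_nonneg_left h6 (by positivity)
        _ = _ := by ring
    linarith
  rw [abs_le]
  constructor <;> linarith

/-- near-minimizers of short kernels -/
theorem o4s_near (hl : CK l lu 0 m Λ) {a b h : ℝ} (hb : b = a + h) (hh : 0 < h)
    (h4 : 4 * Λ * h ≤ m) (z v : E) {δ : ℝ} (hδ : 0 < δ) :
    ∃ u : ℝ → E, Adm u ∧ traj a z u b = z + h • v ∧
      actl l a b z u < kerl l a b z (z + h • v) + δ ∧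
      (∫ r in a..b, ‖u r - v‖) ≤ h * (4 * Λ / m * h * (2 + ‖v‖) + δ) := by
  subst hb
  have hab : a < a + h := by linarith
  have hΛ : 0 < Λ := by linarith [hl.Λ_ge]
  have hm := hl.m_pos
  have hε : 0 < min δ (m / 4 * δ ^ 2 * h) := lt_min hδ (by positivity)
  obtain ⟨u, hu, hz, hlt⟩ := exists_kerl_lt hl hab z (z + h • v) hε
  refine ⟨u, hu, hz, hlt.trans_le (by linarith [min_le_left δ (m / 4 * δ ^ 2 * h)]), ?_⟩
  have h1 := o4s_lower hl rfl hh h4 z v hu hz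
  set I := ∫ r in a..(a + h), ‖u r - v‖ with hI
  have hline : traj a z (fun _ => v) (a + h) = z + h • v := by
    rw [o4s_traj_const, add_sub_cancel_left]
  have hup := kerl_le hl hab (Adm.const v) hline
  by_contra hcon
  push Not at hcon
  have h2 : m / 4 * I ^ 2 / h - Λ * h * (2 + ‖v‖) * I < m / 4 * δ ^ 2 * h := by
    linarith [min_le_right δ (m / 4 * δ ^ 2 * h)]
  obtain ⟨q, hq⟩ : ∃ q, q = I / h := ⟨_, rfl⟩
  have hIq : I = h * q := by rw [hq]; field_simp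
  rw [hIq] at h2 hcon
  have h3 : 4 * Λ / m * h * (2 + ‖v‖) + δ < q := lt_of_mul_lt_mul_left hcon hh.le
  have h5 : m / 4 * (h * q) ^ 2 / h - Λ * h * (2 + ‖v‖) * (h * q) =
      m / 4 * h * (q * (q - 4 * Λ / m * h * (2 + ‖v‖))) := by
    field_simp
  rw [h5] at h2
  have h6 : δ ^ 2 < q * (q - 4 * Λ / m * h * (2 + ‖v‖)) := by
    have h7 : δ < q - 4 * Λ / m * h * (2 + ‖v‖) := by linarith
    have h8 : 0 ≤ 4 * Λ / m * h * (2 + ‖v‖) := by positivity
    nlinarith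
  have h9 : m / 4 * δ ^ 2 * h < m / 4 * h * (q * (q - 4 * Λ / m * h * (2 + ‖v‖))) := by
    have := mul_lt_mul_of_pos_left h6 (show 0 < m / 4 * h by positivity)
    linarith
  linarith

/-! ### variation of the action -/

theorem o4s_traj_var {u : ℝ → E} (hu : Adm u) (a : ℝ) (z ζ η : E) (t : ℝ) :
    traj a (z + ζ) (fun s => u s + η) t = traj a z u t + (ζ + (t - a) • η) := by
  rw [traj_shift hu a z (z + ζ) η t]
  rw [add_sub_cancel_left, add_assoc]

theorem o4s_var (hl : CL l lx lu 0 m Λ) {a b h r : ℝ} (hb : b = a + h) (hh : 0 < h) (hh1 : h ≤ 1)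
    (hr : 0 ≤ r) (z ζ η : E) {u : ℝ → E} (hu : Adm u) (hη : ‖η‖ ≤ r / h)
    (hζ : ∀ t ∈ Icc a b, ‖ζ + (t - a) • η‖ ≤ r) :
    actl l a b (z + ζ) (fun s => u s + η) ≤ actl l a b z u + Λ * r * h +
      inner ℝ (∫ t in a..b, lu (traj a z u t) (u t) t) η + 4 * Λ * r ^ 2 / h := by
  subst hb
  have hab : a ≤ a + h := by linarith
  have hΛ : 0 < Λ := by linarith [hl.Λ_ge]
  have hpt : ∀ t ∈ Icc a (a + h), l (traj a (z + ζ) (fun s => u s + η) t) (u t + η) t ≤
      l (traj a z u t) (u t) t + inner ℝ η (lu (traj a z u t) (u t) t) +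
        (Λ * r + 4 * Λ * r ^ 2 / h ^ 2) := by
    intro t ht
    rw [o4s_traj_var hu]
    set γ := traj a z u t with hγ
    set wv := ζ + (t - a) • η with hwv
    have e1 := (abs_le.mp (hl.tay γ (u t) (γ + wv) (u t + η) t)).2
    rw [add_sub_cancel_left, add_sub_cancel_left] at e1
    have e2 : ‖wv‖ ≤ r := hζ t ht
    have e3 : inner ℝ (lx γ (u t) t) wv ≤ Λ * r := by
      have h1 := real_inner_le_norm (lx γ (u t) t) wv
      have h2 := hl.lx_bd γ (u t) t
      have h3 : ‖lx γ (u t) t‖ * ‖wv‖ ≤ Λ * r :=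
        mul_le_mul h2 e2 (norm_nonneg _) hΛ.le
      linarith
    have e4 : (‖wv‖ + ‖η‖) ^ 2 ≤ 4 * r ^ 2 / h ^ 2 := by
      have h1 : r ≤ r / h := by
        rw [le_div_iff₀ hh]
        nlinarith
      have h2 : ‖wv‖ + ‖η‖ ≤ 2 * (r / h) := by linarith
      have h3 : 0 ≤ ‖wv‖ + ‖η‖ := by positivity
      calc (‖wv‖ + ‖η‖) ^ 2 ≤ (2 * (r / h)) ^ 2 := by gcongr
        _ = 4 * r ^ 2 / h ^ 2 := by ring
    have e5 : Λ * (‖wv‖ + ‖η‖) ^ 2 ≤ 4 * Λ * r ^ 2 / h ^ 2 := by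
      have := mul_le_mul_of_nonneg_left e4 hΛ.le
      calc Λ * (‖wv‖ + ‖η‖) ^ 2 ≤ Λ * (4 * r ^ 2 / h ^ 2) := this
        _ = _ := by ring
    have e6 : inner ℝ (lu γ (u t) t) η = inner ℝ η (lu γ (u t) t) := real_inner_comm _ _
    linarith
  have i1 := hl.toCK.ii hu a z a (a + h)
  have i0 := hl.toCK.ii (hu.add_const η) a (z + ζ) a (a + h)
  have i2 := o4s_lu_ii hl.toCK hu (traj_cont hu a z) a (a + h)
  have i3 : IntervalIntegrable (fun t => inner ℝ η (lu (traj a z u t) (u t) t)) volume a (a + h) := by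
    have := (innerSL ℝ η).integrable_comp (μ := volume.restrict (Set.uIoc a (a + h)))
      (φ := fun t => lu (traj a z u t) (u t) t) (by
        rw [intervalIntegrable_iff] at i2; exact i2)
    rw [intervalIntegrable_iff]
    have h2 : Integrable (fun t => inner ℝ η (lu (traj a z u t) (u t) t))
      (volume.restrict (Set.uIoc a (a + h))) := by simpa using this
    exact h2
  have key := intervalIntegral.integral_mono_on hab i0
    ((i1.add i3).add (intervalIntegrable_const (c := Λ * r + 4 * Λ * r ^ 2 / h ^ 2))) hpt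
  rw [intervalIntegral.integral_add (i1.add i3) intervalIntegrable_const,
    intervalIntegral.integral_add i1 i3, intervalIntegral.integral_const,
    add_sub_cancel_left, smul_eq_mul] at key
  have k1 : (∫ t in a..(a + h), inner ℝ η (lu (traj a z u t) (u t) t)) =
      inner ℝ (∫ t in a..(a + h), lu (traj a z u t) (u t) t) η := by
    have h1 := (innerSL ℝ η).intervalIntegral_comp_comm i2
    rw [real_inner_comm]
    simpa using h1
  rw [k1] at key
  have k2 : h * (Λ * r + 4 * Λ * r ^ 2 / h ^ 2) = Λ * r * h + 4 * Λ * r ^ 2 / h := by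
    field_simp
  rw [k2] at key
  have k3 : actl l a (a + h) z u = ∫ t in a..(a + h), l (traj a z u t) (u t) t := rfl
  have k4 : actl l a (a + h) (z + ζ) (fun s => u s + η) =
    ∫ t in a..(a + h), l (traj a (z + ζ) (fun s => u s + η) t) (u t + η) t := rfl
  rw [k3, k4]
  linarith

/-- mean momentum of a near-minimizer -/
theorem o4s_mean (hl : CK l lu 0 m Λ) {a b h q : ℝ} (hb : b = a + h) (hh : 0 < h) (hh1 : h ≤ 1)
    (z z0 v : E) {t0 : ℝ} (ht0 : t0 ∈ Icc a b) {u : ℝ → E} (hu : Adm u) (hz0 : traj a z u t0 = z0)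
    (hq : (∫ r in a..b, ‖u r - v‖) ≤ h * q) (ξ : E) :
    inner ℝ (∫ t in a..b, lu (traj a z u t) (u t) t) ξ ≤
      h * inner ℝ (lu z0 v t0) ξ + h * (Λ * (h * (1 + ‖v‖) + 2 * q)) * ‖ξ‖ := by
  subst hb
  have hab : a ≤ a + h := by linarith
  have hΛ : 0 < Λ := by linarith [hl.Λ_ge]
  set I := ∫ r in a..(a + h), ‖u r - v‖ with hI
  have hI0 : 0 ≤ I := intervalIntegral.integral_nonneg hab (fun t _ => norm_nonneg _)
  set p := lu z0 v t0 with hp
  have i2 := o4s_lu_ii hl hu (traj_cont hu a z) a (a + h)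
  have i3 := o4s_nii hu v a (a + h)
  have hpt : ∀ t ∈ Icc a (a + h), ‖lu (traj a z u t) (u t) t - p‖ ≤
      Λ * (I + h * ‖v‖ + h) + Λ * ‖u t - v‖ := by
    intro t ht
    have e1 : ‖traj a z u t - z0‖ ≤ I + h * ‖v‖ := by
      have h1 : traj a z u t - z0 = (∫ s in t0..t, (u s - v)) + (t - t0) • v := by
        rw [← hz0, intervalIntegral.integral_sub (hu.ii t0 t) (by simp)]
        have h2 := intervalIntegral.integral_add_adjacent_intervals (hu.ii a t0) (hu.ii t0 t)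
        simp only [traj, intervalIntegral.integral_const]
        rw [← h2]
        abel
      rw [h1]
      refine (norm_add_le _ _).trans (add_le_add ?_ ?_)
      · rcases le_total t0 t with h3 | h3
        · exact o4s_int_le hu v ht0.1 h3 ht.2
        · rw [intervalIntegral.integral_symm, norm_neg]
          exact o4s_int_le hu v ht.1 h3 ht0.2
      · rw [norm_smul, Real.norm_eq_abs]
        refine mul_le_mul_of_nonneg_right ?_ (norm_nonneg _)
        rw [abs_le]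
        constructor <;> linarith [ht0.1, ht0.2, ht.1, ht.2]
    have e2 : |t - t0| ≤ h := by
      rw [abs_le]
      constructor <;> linarith [ht0.1, ht0.2, ht.1, ht.2]
    have e3 := hl.lu_lip (traj a z u t) (u t) t z0 v t0
    refine e3.trans ?_
    rw [← mul_add]
    refine mul_le_mul_of_nonneg_left ?_ hΛ.le
    linarith
  have k1 : ‖∫ t in a..(a + h), (lu (traj a z u t) (u t) t - p)‖ ≤
      h * (Λ * (I + h * ‖v‖ + h)) + Λ * I := by
    refine (intervalIntegral.norm_integral_le_integral_norm hab).trans ?_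
    have h1 := intervalIntegral.integral_mono_on hab (i2.sub (intervalIntegrable_const (c := p))).norm
      ((intervalIntegrable_const (c := Λ * (I + h * ‖v‖ + h))).add (i3.const_mul Λ)) hpt
    refine h1.trans ?_
    rw [intervalIntegral.integral_add intervalIntegrable_const (i3.const_mul Λ),
      intervalIntegral.integral_const, intervalIntegral.integral_const_mul, ← hI,
      add_sub_cancel_left, smul_eq_mul]
  rw [intervalIntegral.integral_sub i2 intervalIntegrable_const, intervalIntegral.integral_const,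
    add_sub_cancel_left] at k1
  set A := ∫ t in a..(a + h), lu (traj a z u t) (u t) t with hA
  have k2 : inner ℝ A ξ = h * inner ℝ p ξ + inner ℝ (A - h • p) ξ := by
    rw [inner_sub_left, real_inner_smul_left]; ring
  have k3 := real_inner_le_norm (A - h • p) ξ
  have k4 : h * (Λ * (I + h * ‖v‖ + h)) + Λ * I ≤ h * (Λ * (h * (1 + ‖v‖) + 2 * q)) := by
    have h1 : I * h ≤ I := by nlinarith
    have h2 : Λ * (I * h) ≤ Λ * (h * q) := mul_le_mul_of_nonneg_left (h1.trans hq) hΛ.le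
    have h3 : Λ * I ≤ Λ * (h * q) := mul_le_mul_of_nonneg_left hq hΛ.le
    nlinarith
  have k5 : ‖A - h • p‖ * ‖ξ‖ ≤ h * (Λ * (h * (1 + ‖v‖) + 2 * q)) * ‖ξ‖ :=
    mul_le_mul_of_nonneg_right (k1.trans k4) (norm_nonneg _)
  linarith

/-- the inequality at a competitor -/
theorem o4s_compare (hl : CL l lx lu 0 m Λ) {t h : ℝ} (hh : 0 < h) (hh1 : h ≤ 1)
    (h4 : 4 * Λ * h ≤ m) (z v1 v2 ξ : E)
    (hmin : kerl l (t - h) t (z - h • v1) z + kerl l t (t + h) z (z + h • v2) ≤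
      kerl l (t - h) t (z - h • v1) (z + ξ) + kerl l t (t + h) (z + ξ) (z + h • v2)) :
    0 ≤ inner ℝ (lu z v1 t - lu z v2 t) ξ +
      (4 * Λ + 32 * Λ ^ 2 / m) * h * (1 + ‖v1‖ + ‖v2‖) * ‖ξ‖ + 8 * Λ * ‖ξ‖ ^ 2 / h := by
  have hΛ : 0 < Λ := by linarith [hl.Λ_ge]
  have hm := hl.m_pos
  refine le_of_forall_pos_le_add fun δ' hδ' => ?_
  -- choose `δ` with `δ * (2 + 4 Λ ‖ξ‖) ≤ δ'`
  obtain ⟨δ, hδ, hδ2⟩ : ∃ δ : ℝ, 0 < δ ∧ δ * (2 + 4 * Λ * ‖ξ‖) ≤ δ' := by
    have h1 : 0 < 2 + 4 * Λ * ‖ξ‖ := by positivity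
    refine ⟨δ' / (2 + 4 * Λ * ‖ξ‖), by positivity, ?_⟩
    rw [div_mul_cancel₀ _ h1.ne']
  obtain ⟨u1, hu1, hz1, hact1, hI1⟩ := o4s_near hl.toCK (a := t - h) (b := t) (by ring) hh h4
    (z - h • v1) v1 hδ
  obtain ⟨u2, hu2, hz2, hact2, hI2⟩ := o4s_near hl.toCK (a := t) (b := t + h) rfl hh h4 z v2 hδ
  rw [sub_add_cancel] at hz1 hact1
  have hr : 0 ≤ ‖ξ‖ := norm_nonneg _
  have hn1 : ‖(1 / h) • ξ‖ ≤ ‖ξ‖ / h := by
    rw [norm_smul, Real.norm_of_nonneg (by positivity)]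
    exact le_of_eq (by ring)
  have hn2 : ‖(-(1 / h)) • ξ‖ ≤ ‖ξ‖ / h := by
    rw [neg_smul, norm_neg]; exact hn1
  have V1 := o4s_var hl (a := t - h) (b := t) (r := ‖ξ‖) (by ring) hh hh1 hr (z - h • v1) 0
    ((1 / h) • ξ) hu1 hn1 (fun τ hτ => by
      rw [zero_add, smul_smul, norm_smul, Real.norm_eq_abs]
      refine mul_le_of_le_one_left hr ?_
      rw [abs_of_nonneg (mul_nonneg (by linarith [hτ.1]) (by positivity)), mul_one_div,
        div_le_one hh]
      linarith [hτ.2])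
  have V2 := o4s_var hl (a := t) (b := t + h) (r := ‖ξ‖) rfl hh hh1 hr z ξ
    ((-(1 / h)) • ξ) hu2 hn2 (fun τ hτ => by
      have e1 : ξ + (τ - t) • (-(1 / h)) • ξ = (1 - (τ - t) / h) • ξ := by
        rw [smul_smul, sub_smul, one_smul, mul_neg, neg_smul, mul_one_div]
        abel
      rw [e1, norm_smul, Real.norm_eq_abs]
      refine mul_le_of_le_one_left hr ?_
      have e2 : 0 ≤ (τ - t) / h := div_nonneg (by linarith [hτ.1]) hh.le
      have e3 : (τ - t) / h ≤ 1 := by rw [div_le_one hh]; linarith [hτ.2]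
      rw [abs_of_nonneg (by linarith)]
      linarith)
  -- competitors
  have hT1 : traj (t - h) (z - h • v1 + 0) (fun s => u1 s + (1 / h) • ξ) t = z + ξ := by
    rw [o4s_traj_var hu1, hz1, zero_add, sub_sub_cancel, smul_smul, mul_one_div_cancel hh.ne',
      one_smul]
  have hT2 : traj t (z + ξ) (fun s => u2 s + (-(1 / h)) • ξ) (t + h) = z + h • v2 := by
    rw [o4s_traj_var hu2, hz2, add_sub_cancel_left, smul_smul, mul_neg, mul_one_div_cancel hh.ne',
      neg_smul, one_smul, add_neg_cancel, add_zero]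
  have K1 := kerl_le hl.toCK (show t - h < t by linarith) (hu1.add_const _) hT1
  have K2 := kerl_le hl.toCK (show t < t + h by linarith) (hu2.add_const _) hT2
  rw [add_zero] at K1 V1
  have M1 := o4s_mean hl.toCK (a := t - h) (b := t) (by ring) hh hh1 (z - h • v1) z v1
    (t0 := t) ⟨by linarith, le_rfl⟩ hu1 hz1 hI1 ξ
  have M2 := o4s_mean hl.toCK (a := t) (b := t + h) rfl hh hh1 z z v2
    (t0 := t) ⟨le_rfl, by linarith⟩ hu2 (by simp [traj]) hI2 (-ξ)
  set A1 := ∫ τ in (t - h)..t, lu (traj (t - h) (z - h • v1) u1 τ) (u1 τ) τ with hA1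
  set A2 := ∫ τ in t..(t + h), lu (traj t z u2 τ) (u2 τ) τ with hA2
  rw [real_inner_smul_right] at V1
  rw [real_inner_smul_right] at V2
  rw [inner_neg_right, inner_neg_right, norm_neg] at M2
  have N1 : 1 / h * inner ℝ A1 ξ ≤ inner ℝ (lu z v1 t) ξ +
      Λ * (h * (1 + ‖v1‖) + 2 * (4 * Λ / m * h * (2 + ‖v1‖) + δ)) * ‖ξ‖ := by
    have := mul_le_mul_of_nonneg_left M1 (show (0:ℝ) ≤ 1 / h by positivity)
    refine this.trans (le_of_eq ?_)
    field_simp
  have N2 : -(1 / h) * inner ℝ A2 ξ ≤ -inner ℝ (lu z v2 t) ξ +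
      Λ * (h * (1 + ‖v2‖) + 2 * (4 * Λ / m * h * (2 + ‖v2‖) + δ)) * ‖ξ‖ := by
    have := mul_le_mul_of_nonneg_left M2 (show (0:ℝ) ≤ 1 / h by positivity)
    have e : -(1 / h) * inner ℝ A2 ξ = 1 / h * -inner ℝ A2 ξ := by ring
    rw [e]
    refine this.trans (le_of_eq ?_)
    field_simp
  have hW : Λ * (h * (1 + ‖v1‖) + 2 * (4 * Λ / m * h * (2 + ‖v1‖) + δ)) * ‖ξ‖ +
      Λ * (h * (1 + ‖v2‖) + 2 * (4 * Λ / m * h * (2 + ‖v2‖) + δ)) * ‖ξ‖ + 2 * (Λ * ‖ξ‖ * h) ≤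
      (4 * Λ + 32 * Λ ^ 2 / m) * h * (1 + ‖v1‖ + ‖v2‖) * ‖ξ‖ + 4 * Λ * ‖ξ‖ * δ := by
    have g1 := norm_nonneg v1
    have g2 := norm_nonneg v2
    have e : (4 * Λ + 32 * Λ ^ 2 / m) * h * (1 + ‖v1‖ + ‖v2‖) * ‖ξ‖ + 4 * Λ * ‖ξ‖ * δ -
      (Λ * (h * (1 + ‖v1‖) + 2 * (4 * Λ / m * h * (2 + ‖v1‖) + δ)) * ‖ξ‖ +
      Λ * (h * (1 + ‖v2‖) + 2 * (4 * Λ / m * h * (2 + ‖v2‖) + δ)) * ‖ξ‖ + 2 * (Λ * ‖ξ‖ * h)) =
      Λ * h * ‖ξ‖ * (3 * (‖v1‖ + ‖v2‖)) + 24 * (Λ ^ 2 / m) * h * ‖ξ‖ * (‖v1‖ + ‖v2‖) := by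
      field_simp
      ring
    have e2 : 0 ≤ Λ * h * ‖ξ‖ * (3 * (‖v1‖ + ‖v2‖)) +
        24 * (Λ ^ 2 / m) * h * ‖ξ‖ * (‖v1‖ + ‖v2‖) := by positivity
    linarith
  have hin : inner ℝ (lu z v1 t - lu z v2 t) ξ = inner ℝ (lu z v1 t) ξ - inner ℝ (lu z v2 t) ξ :=
    inner_sub_left _ _ _
  rw [hin]
  have h8 : 8 * Λ * ‖ξ‖ ^ 2 / h = 4 * Λ * ‖ξ‖ ^ 2 / h + 4 * Λ * ‖ξ‖ ^ 2 / h := by ring
  have hδ3 : δ * (2 + 4 * Λ * ‖ξ‖) = 2 * δ + 4 * Λ * ‖ξ‖ * δ := by ring
  linarith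

theorem mom_diff (hl : CL l lx lu 0 m Λ) : ∃ C h0 : ℝ, 0 ≤ C ∧ 0 < h0 ∧ ∀ t h : ℝ, 0 < h → h ≤ h0 →
    ∀ z v1 v2 : E,
      IsLocalMin (fun w => kerl l (t - h) t (z - h • v1) w + kerl l t (t + h) w (z + h • v2)) z →
      ‖lu z v2 t - lu z v1 t‖ ≤ C * h * (1 + ‖v1‖ + ‖v2‖) := by
  have hΛ : 0 < Λ := by linarith [hl.Λ_ge]
  have hm := hl.m_pos
  refine ⟨4 * Λ + 32 * Λ ^ 2 / m, min 1 (m / (4 * Λ)), by positivity, lt_min one_pos (by positivity),
    fun t h hh hh0 z v1 v2 hloc => ?_⟩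
  have hh1 : h ≤ 1 := hh0.trans (min_le_left _ _)
  have h4 : 4 * Λ * h ≤ m := by
    have := hh0.trans (min_le_right _ _)
    rw [le_div_iff₀ (by positivity)] at this; linarith
  set K := (4 * Λ + 32 * Λ ^ 2 / m) * h * (1 + ‖v1‖ + ‖v2‖) with hK
  set D := lu z v1 t - lu z v2 t with hD
  have hsw : ‖lu z v2 t - lu z v1 t‖ = ‖D‖ := norm_sub_rev _ _
  rw [hsw]
  -- competitors `z - η D`
  have htend : Tendsto (fun η : ℝ => z + (-η) • D) (𝓝[>] 0) (𝓝 z) := by
    have h1 : Continuous (fun η : ℝ => z + (-η) • D) := by fun_prop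
    have h2 := (h1.tendsto 0).mono_left (nhdsWithin_le_nhds (s := Ioi (0:ℝ)))
    simpa using h2
  have hev := htend.eventually hloc
  have hev2 : ∀ᶠ η : ℝ in 𝓝[>] 0, ‖D‖ * ‖D‖ ≤ ‖D‖ * K + η * (8 * Λ * ‖D‖ ^ 2 / h) := by
    filter_upwards [hev, self_mem_nhdsWithin] with η hη hη0
    have hη0 : 0 < η := hη0
    have h1 := o4s_compare hl hh hh1 h4 z v1 v2 ((-η) • D) hη
    rw [← hK, ← hD, real_inner_smul_right, real_inner_self_eq_norm_sq, norm_smul, norm_neg,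
      Real.norm_of_nonneg hη0.le] at h1
    have h2 : 0 ≤ η * (-(‖D‖ * ‖D‖) + ‖D‖ * K + η * (8 * Λ * ‖D‖ ^ 2 / h)) := by
      refine h1.trans (le_of_eq ?_)
      ring
    have h3 := nonneg_of_mul_nonneg_right h2 hη0
    linarith
  have hlim : Tendsto (fun η : ℝ => ‖D‖ * K + η * (8 * Λ * ‖D‖ ^ 2 / h)) (𝓝[>] 0)
      (𝓝 (‖D‖ * K)) := by
    have h1 : Continuous (fun η : ℝ => ‖D‖ * K + η * (8 * Λ * ‖D‖ ^ 2 / h)) := by fun_prop
    have h2 := (h1.tendsto 0).mono_left (nhdsWithin_le_nhds (s := Ioi (0:ℝ)))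
    simpa using h2
  have hfin : ‖D‖ * ‖D‖ ≤ ‖D‖ * K := ge_of_tendsto hlim hev2
  rcases (norm_nonneg D).eq_or_lt with h0 | h0
  · rw [← h0]
    positivity
  · exact le_of_mul_le_mul_left hfin h0

end EscF
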