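import Pool.Agent.EscF.ODefs
import Pool.Agent.EscF.O4s
import Pool.Agent.EscF.C2
import Pool.Agent.EscN.O4a
import Pool.Agent.EscN.O4b

/-!
Module O4 of project EscF: regularity of kernel geodesics.
-/

noncomputable section

namespace EscF

open MeasureTheory Set Filter Topology Esc
open scoped ContDiff

section O4

variable {E : Type*} [NormedAddCommGroup E] [InnerProductSpace ℝ E]
  {l : E → E → ℝ → ℝ} {lx lu : E → E → ℝ → E} {m Λ : ℝ}

/-- the kernel of an interval of length zero -/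
theorem o4_kerl_self (l : E → E → ℝ → ℝ) (t : ℝ) (z : E) : kerl l t t z z = 0 := by
  have h1 : {c | ∃ u : ℝ → E, Adm u ∧ traj t z u t = z ∧ c = actl l t t z u} = {0} := by
    ext c
    constructor
    · rintro ⟨u, -, -, rfl⟩
      simp [actl]
    · rintro rfl
      exact ⟨fun _ => 0, ⟨stronglyMeasurable_const, 0, fun _ => by simp⟩, by simp [traj], by simp [actl]⟩
  rw [kerl, h1, csInf_singleton]

/-- strong monotonicity of the momentum in the velocity -/
theorem o4_mono (hl : CK l lu 0 m Λ) (z v1 v2 : E) (t : ℝ) :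
    m * ‖v2 - v1‖ ≤ ‖lu z v2 t - lu z v1 t‖ := by
  have h1 := hl.low z v2 v1 t
  have h2 := hl.low z v1 v2 t
  have e1 : inner ℝ (lu z v2 t) (v1 - v2) = - inner ℝ (lu z v2 t) (v2 - v1) := by
    rw [← inner_neg_right, neg_sub]
  have e2 : ‖v1 - v2‖ = ‖v2 - v1‖ := norm_sub_rev _ _
  rw [e1, e2] at h2
  have h3 := real_inner_le_norm (lu z v2 t - lu z v1 t) (v2 - v1)
  rw [inner_sub_left] at h3
  rcases eq_or_lt_of_le (norm_nonneg (v2 - v1)) with h0 | h0
  · rw [← h0, mul_zero]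
    exact norm_nonneg _
  · have h4 : m * ‖v2 - v1‖ * ‖v2 - v1‖ ≤ ‖lu z v2 t - lu z v1 t‖ * ‖v2 - v1‖ := by nlinarith
    exact le_of_mul_le_mul_right h4 h0

end O4

section O4'

variable {E : Type*} [NormedAddCommGroup E] [InnerProductSpace ℝ E] [FiniteDimensional ℝ E]
  {l : E → E → ℝ → ℝ} {lx lu : E → E → ℝ → E} {m Λ : ℝ}

/-- a kernel geodesic minimizes on both sides of each time -/
theorem o4_min (hl : CK l lu 0 m Λ) {a b : ℝ} {Z : ℝ → E}
    (hZ : KGeo l a b Z) {t h : ℝ} (hh : 0 < h) (ha : a ≤ t - h) (hb : t + h ≤ b) :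
    IsLocalMin (fun w => kerl l (t - h) t (Z (t - h)) w + kerl l t (t + h) w (Z (t + h))) (Z t) := by
  have k1 := hZ.add (t - h) t ha (by linarith) (by linarith)
  have k2 := hZ.add t (t + h) (by linarith) (by linarith) hb
  have k3 := hZ.add t t (by linarith) le_rfl (by linarith)
  have k4 := hZ.add (t - h) (t + h) ha (by linarith) hb
  rw [o4_kerl_self] at k3
  refine Eventually.of_forall fun w => ?_
  have := kerl_le_add hl (by linarith : t - h < t) (by linarith : t < t + h) (Z (t - h)) w (Z (t + h))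
  change kerl l (t - h) t (Z (t - h)) (Z t) + kerl l t (t + h) (Z t) (Z (t + h)) ≤
    kerl l (t - h) t (Z (t - h)) w + kerl l t (t + h) w (Z (t + h))
  linarith

/-- a kernel geodesic is `C^{1,1}` -/
theorem kgeo_c11 (hl : CL l lx lu 0 m Λ) {a b : ℝ} (hab : a < b) {Z : ℝ → E} (hZ : KGeo l a b Z) :
    ∃ v : ℝ → E, (∃ C, ∀ s ∈ Icc a b, ∀ t ∈ Icc a b, ‖v t - v s‖ ≤ C * |t - s|) ∧
      ∀ s ∈ Icc a b, ∀ t ∈ Icc a b, Z t - Z s = ∫ r in s..t, v r := by
  obtain ⟨C, h0, hC, hh0, hmom⟩ := mom_diff hl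
  have hm := hl.m_pos
  obtain ⟨C0', hH'⟩ := hZ.holder
  set C0 := max C0' 0 with hC0
  have hC0p : 0 ≤ C0 := le_max_right _ _
  have hH : ∀ s ∈ Icc a b, ∀ t ∈ Icc a b, ‖Z t - Z s‖ ^ 2 ≤ C0 * |t - s| := fun s hs t ht =>
    (hH' s hs t ht).trans (mul_le_mul_of_nonneg_right (le_max_left _ _) (abs_nonneg _))
  have hba : 0 < b - a := by linarith
  set K := C / m with hK
  have hKp : 0 ≤ K := by positivity
  -- the second difference
  have sd : ∀ t h, 0 < h → h ≤ h0 → a ≤ t - h → t + h ≤ b → ‖Z (t + h) - (2:ℝ) • Z t + Z (t - h)‖ ≤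
      K * h * (h + ‖Z t - Z (t - h)‖ + ‖Z (t + h) - Z t‖) := by
    intro t h hh hhh ha hb
    set v1 := h⁻¹ • (Z t - Z (t - h)) with hv1
    set v2 := h⁻¹ • (Z (t + h) - Z t) with hv2
    have f1 : h • v1 = Z t - Z (t - h) := by rw [hv1, smul_inv_smul₀ hh.ne']
    have f2 : h • v2 = Z (t + h) - Z t := by rw [hv2, smul_inv_smul₀ hh.ne']
    have e1 := hmom t h hh hhh (Z t) v1 v2 (by
      rw [f1, f2, sub_sub_cancel, add_sub_cancel]
      exact o4_min hl.toCK hZ hh ha hb)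
    have e2 := o4_mono hl.toCK (Z t) v1 v2 t
    have e3 : ‖v2 - v1‖ ≤ K * h * (1 + ‖v1‖ + ‖v2‖) := by
      have e4 : m * ‖v2 - v1‖ ≤ C * h * (1 + ‖v1‖ + ‖v2‖) := e2.trans e1
      calc ‖v2 - v1‖ = m * ‖v2 - v1‖ / m := by field_simp
        _ ≤ (C * h * (1 + ‖v1‖ + ‖v2‖)) / m := by gcongr
        _ = K * h * (1 + ‖v1‖ + ‖v2‖) := by rw [hK]; ring
    have n1 : ‖Z t - Z (t - h)‖ = h * ‖v1‖ := by
      rw [← f1, norm_smul h v1, Real.norm_of_nonneg hh.le]
    have n2 : ‖Z (t + h) - Z t‖ = h * ‖v2‖ := by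
      rw [← f2, norm_smul h v2, Real.norm_of_nonneg hh.le]
    have e5 : Z (t + h) - (2:ℝ) • Z t + Z (t - h) = h • (v2 - v1) := by
      rw [smul_sub, f1, f2]
      module
    rw [e5, norm_smul, Real.norm_of_nonneg hh.le, n1, n2]
    calc h * ‖v2 - v1‖ ≤ h * (K * h * (1 + ‖v1‖ + ‖v2‖)) := mul_le_mul_of_nonneg_left e3 hh.le
      _ = _ := by ring
  -- coarse bound of the first differences
  set B0 := √(C0 * (b - a)) with hB0
  have hB0p : 0 ≤ B0 := Real.sqrt_nonneg _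
  have fd : ∀ s ∈ Icc a b, ∀ t ∈ Icc a b, ‖Z t - Z s‖ ≤ B0 := by
    intro s hs t ht
    apply Real.le_sqrt_of_sq_le
    refine (hH s hs t ht).trans (mul_le_mul_of_nonneg_left ?_ hC0p)
    rw [abs_le]
    constructor <;> linarith [hs.1, hs.2, ht.1, ht.2]
  have sd0 : ∀ t h, 0 < h → a ≤ t - h → t + h ≤ b → ‖Z (t + h) - (2:ℝ) • Z t + Z (t - h)‖ ≤ 2 * B0 := by
    intro t h hh ha hb
    have e1 := fd (t - h) ⟨ha, by linarith⟩ t ⟨by linarith, by linarith⟩
    have e2 := fd t ⟨by linarith, by linarith⟩ (t + h) ⟨by linarith, hb⟩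
    have e3 : Z (t + h) - (2:ℝ) • Z t + Z (t - h) = (Z (t + h) - Z t) - (Z t - Z (t - h)) := by module
    rw [e3]
    exact (norm_sub_le _ _).trans (by linarith)
  have hD1 : ∀ t h, 0 < h → a ≤ t - h → t + h ≤ b → ‖Z (t + h) - (2:ℝ) • Z t + Z (t - h)‖ ≤
      (K * ((b - a) + 2 * B0) + 2 * B0 / h0) * h := by
    intro t h hh ha hb
    have q1 : 0 ≤ K * ((b - a) + 2 * B0) * h := by positivity
    have q2 : 0 ≤ 2 * B0 / h0 * h := by positivity
    rcases le_or_gt h h0 with hle | hgt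
    · have e1 := fd (t - h) ⟨ha, by linarith⟩ t ⟨by linarith, by linarith⟩
      have e2 := fd t ⟨by linarith, by linarith⟩ (t + h) ⟨by linarith, hb⟩
      calc _ ≤ K * h * (h + ‖Z t - Z (t - h)‖ + ‖Z (t + h) - Z t‖) := sd t h hh hle ha hb
        _ ≤ K * h * ((b - a) + 2 * B0) := mul_le_mul_of_nonneg_left (by linarith) (by positivity)
        _ = K * ((b - a) + 2 * B0) * h := by ring
        _ ≤ _ := by rw [add_mul]; linarith
    · have e1 := sd0 t h hh ha hb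
      have e2 : 2 * B0 ≤ 2 * B0 / h0 * h := by
        rw [div_mul_eq_mul_div, le_div_iff₀ hh0]
        exact mul_le_mul_of_nonneg_left hgt.le (by positivity)
      rw [add_mul]
      linarith
  have hD2 : ∀ t h, 0 < h → h ≤ h0 → a ≤ t - h → t + h ≤ b → ‖Z (t + h) - (2:ℝ) • Z t + Z (t - h)‖ ≤
      (2 * K) * (‖Z t - Z (t - h)‖ ^ 2 + ‖Z (t + h) - Z t‖ ^ 2 + h ^ 2) := by
    intro t h hh hhh ha hb
    have e1 := sd t h hh hhh ha hb
    set p := ‖Z t - Z (t - h)‖ with hp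
    set n := ‖Z (t + h) - Z t‖ with hn
    have e2 : h * (h + p + n) ≤ 2 * (p ^ 2 + n ^ 2 + h ^ 2) := by
      nlinarith [sq_nonneg (h - p), sq_nonneg (h - n), sq_nonneg p, sq_nonneg n]
    calc _ ≤ K * h * (h + p + n) := e1
      _ = K * (h * (h + p + n)) := by ring
      _ ≤ K * (2 * (p ^ 2 + n ^ 2 + h ^ 2)) := mul_le_mul_of_nonneg_left e2 hKp
      _ = _ := by ring
  obtain ⟨B, hB, hlip⟩ := EscN.o4_lip hab hC0p (by positivity) (by positivity) hh0 hH hD1 hD2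
  -- quadratic bound
  have hd : ∀ t h, 0 < h → a ≤ t - h → t + h ≤ b → ‖Z (t + h) - (2:ℝ) • Z t + Z (t - h)‖ ≤
      (K * (1 + 2 * B) + 2 * B0 / h0 ^ 2) * h ^ 2 := by
    intro t h hh ha hb
    have q1 : 0 ≤ K * (1 + 2 * B) * h ^ 2 := by positivity
    have q2 : 0 ≤ 2 * B0 / h0 ^ 2 * h ^ 2 := by positivity
    rcases le_or_gt h h0 with hle | hgt
    · have e1 := hlip (t - h) ⟨ha, by linarith⟩ t ⟨by linarith, by linarith⟩
      have e2 := hlip t ⟨by linarith, by linarith⟩ (t + h) ⟨by linarith, hb⟩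
      rw [sub_sub_cancel, abs_of_pos hh] at e1
      rw [add_sub_cancel_left, abs_of_pos hh] at e2
      calc _ ≤ K * h * (h + ‖Z t - Z (t - h)‖ + ‖Z (t + h) - Z t‖) := sd t h hh hle ha hb
        _ ≤ K * h * (h + B * h + B * h) := mul_le_mul_of_nonneg_left (by linarith) (by positivity)
        _ = K * (1 + 2 * B) * h ^ 2 := by ring
        _ ≤ _ := by rw [add_mul]; linarith
    · have e1 := sd0 t h hh ha hb
      have e2 : 2 * B0 ≤ 2 * B0 / h0 ^ 2 * h ^ 2 := by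
        rw [div_mul_eq_mul_div, le_div_iff₀ (by positivity)]
        exact mul_le_mul_of_nonneg_left (pow_le_pow_left₀ hh0.le hgt.le 2) (by positivity)
      rw [add_mul]
      linarith
  exact EscN.o4_of_second hab hd hH

end O4'

end EscF
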