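import Pool.Agent.EscF.ODefs
import Pool.Agent.EscF.C1
import Pool.Agent.EscF.O4s
import Pool.Agent.helper42.Esc.K

/-!
Module O5 of project EscF: the action of a `C^{1,1}` kernel geodesic is the kernel; Euler-Lagrange
equation in integral form.
-/

noncomputable section

namespace EscF

open MeasureTheory Set Filter Topology Esc
open scoped ContDiff

variable {E : Type*} [NormedAddCommGroup E] [InnerProductSpace ℝ E]

namespace O5

theorem kerl_self (l : E → E → ℝ → ℝ) (a : ℝ) (z : E) : kerl l a a z z = 0 := by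
  have h : {c | ∃ u : ℝ → E, Adm u ∧ traj a z u a = z ∧ c = actl l a a z u} = {0} := by
    ext c
    constructor
    · rintro ⟨u, _, _, rfl⟩
      simp [actl]
    · rintro rfl
      exact ⟨fun _ => 0, Adm.const 0, by simp [traj], by simp [actl]⟩
  unfold kerl
  rw [h, csInf_singleton]

variable {l : E → E → ℝ → ℝ} {lx lu : E → E → ℝ → E} {v0 : E} {m Λ : ℝ}

/-- bound for the momentum -/
theorem lu_bd (hl : CL l lx lu 0 m Λ) (x v : E) (t : ℝ) : ‖lu x v t‖ ≤ Λ * (1 + ‖v‖) := by
  have h1 := hl.lu_lip x v t x 0 t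
  have h2 := hl.c1 x t
  have h3 : ‖lu x v t‖ ≤ ‖lu x v t - lu x 0 t‖ + ‖lu x 0 t‖ := by
    have := norm_add_le (lu x v t - lu x 0 t) (lu x 0 t)
    rwa [sub_add_cancel] at this
  simp only [sub_self, norm_zero, sub_zero, abs_zero, zero_add, add_zero] at h1
  linarith

theorem l_sub_le (hl : CL l lx lu 0 m Λ) {W : ℝ} (x : E) {u v : E} (hu : ‖u‖ ≤ W) (hv : ‖v‖ ≤ W)
    (t : ℝ) : l x u t - l x v t ≤ Λ * (1 + 3 * W) * ‖u - v‖ := by
  have hΛ := hl.Λ_ge
  have hW : 0 ≤ W := (norm_nonneg _).trans hu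
  have h1 := hl.upp x u v t
  have h2 := real_inner_le_norm (lu x v t) (u - v)
  have h3 := lu_bd hl x v t
  have h4 : ‖u - v‖ ≤ 2 * W := (norm_sub_le _ _).trans (by linarith)
  have h5 : ‖lu x v t‖ * ‖u - v‖ ≤ Λ * (1 + W) * ‖u - v‖ :=
    mul_le_mul_of_nonneg_right (h3.trans (mul_le_mul_of_nonneg_left (by linarith) (by linarith)))
      (norm_nonneg _)
  have h6 : ‖u - v‖ ^ 2 ≤ 2 * W * ‖u - v‖ := by
    rw [sq]
    exact mul_le_mul_of_nonneg_right h4 (norm_nonneg _)
  have h7 := mul_le_mul_of_nonneg_left h6 (by linarith : (0:ℝ) ≤ Λ)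
  nlinarith

/-- local Lipschitz bound of the Lagrangian -/
theorem l_lip (hl : CL l lx lu 0 m Λ) {W : ℝ} (x x' : E) {u v : E} (hu : ‖u‖ ≤ W) (hv : ‖v‖ ≤ W)
    (t : ℝ) : |l x u t - l x' v t| ≤ Λ * ‖x - x'‖ + Λ * (1 + 3 * W) * ‖u - v‖ := by
  have h1 := l_sub_le hl x hu hv t
  have h2 := l_sub_le hl x hv hu t
  rw [norm_sub_rev v u] at h2
  have h3 := abs_le.mp (hl.l_x x x' v t)
  rw [abs_le]
  constructor
  · linarith [h3.1]
  · linarith [h3.2]

/-- the projection to an interval -/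
theorem pi_lip {a b : ℝ} (hab : a ≤ b) (s t : ℝ) :
    |(projIcc a b hab t : ℝ) - projIcc a b hab s| ≤ |t - s| := by
  have h := (LipschitzWith.projIcc hab).dist_le_mul t s
  simpa [Subtype.dist_eq, Real.dist_eq] using h

variable [FiniteDimensional ℝ E]

/-- data of a `C^{1,1}` curve extended to the line -/
theorem extend {a b : ℝ} (hab : a < b) {Z v : ℝ → E}
    (hv : ∃ C, ∀ s ∈ Icc a b, ∀ t ∈ Icc a b, ‖v t - v s‖ ≤ C * |t - s|)
    (hZv : ∀ s ∈ Icc a b, ∀ t ∈ Icc a b, Z t - Z s = ∫ r in s..t, v r) :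
    ∃ (w : ℝ → E) (C W : ℝ), 0 ≤ C ∧ 0 ≤ W ∧ (∀ s t, ‖w t - w s‖ ≤ C * |t - s|) ∧ (∀ t, ‖w t‖ ≤ W) ∧
      Continuous w ∧ Adm w ∧ (∀ t ∈ Icc a b, w t = v t) ∧
      (∀ s ∈ Icc a b, ∀ t ∈ Icc a b, ∫ r in s..t, w r = Z t - Z s) ∧
      ∀ s ∈ Icc a b, ∀ t ∈ Icc a b, traj s (Z s) w t = Z t := by
  obtain ⟨C0, hC0⟩ := hv
  set C := max C0 0 with hC
  have hCp : 0 ≤ C := le_max_right _ _
  set w : ℝ → E := fun t => v (projIcc a b hab.le t) with hw
  have hwl : ∀ s t, ‖w t - w s‖ ≤ C * |t - s| := by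
    intro s t
    have h1 := hC0 _ (projIcc a b hab.le s).2 _ (projIcc a b hab.le t).2
    have h2 := pi_lip hab.le s t
    calc ‖w t - w s‖ ≤ C0 * |(projIcc a b hab.le t : ℝ) - projIcc a b hab.le s| := h1
      _ ≤ C * |(projIcc a b hab.le t : ℝ) - projIcc a b hab.le s| :=
        mul_le_mul_of_nonneg_right (le_max_left _ _) (abs_nonneg _)
      _ ≤ C * |t - s| := mul_le_mul_of_nonneg_left h2 hCp
  have hwc : Continuous w := by
    refine (LipschitzWith.of_dist_le_mul (K := ⟨C, hCp⟩) fun t s => ?_).continuous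
    rw [dist_eq_norm, Real.dist_eq]
    exact hwl s t
  have hwe : ∀ t ∈ Icc a b, w t = v t := by
    intro t ht
    simp only [hw, projIcc_of_mem hab.le ht]
  have hvc : ContinuousOn v (Icc a b) := hwc.continuousOn.congr fun t ht => (hwe t ht).symm
  obtain ⟨W, hW'⟩ := (isCompact_Icc (a := a) (b := b)).exists_bound_of_continuousOn hvc
  have hW : ∀ t, ‖w t‖ ≤ W := fun t => hW' _ (projIcc a b hab.le t).2
  have hint : ∀ s ∈ Icc a b, ∀ t ∈ Icc a b, ∫ r in s..t, w r = Z t - Z s := by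
    intro s hs t ht
    rw [hZv s hs t ht]
    refine intervalIntegral.integral_congr fun r hr => hwe r ?_
    exact (uIcc_subset_Icc hs ht) hr
  refine ⟨w, C, W, hCp, (norm_nonneg _).trans (hW 0), hwl, hW, hwc, ⟨hwc.stronglyMeasurable, W, hW⟩,
    hwe, hint, fun s hs t ht => ?_⟩
  simp [traj, hint s hs t ht]

/-- action of a short piece against the action of the segment -/
theorem piece (hl : CL l lx lu 0 m Λ) {w : ℝ → E} {C W : ℝ} (hC : 0 ≤ C) (hW : 0 ≤ W)
    (hwl : ∀ s t, ‖w t - w s‖ ≤ C * |t - s|) (hwb : ∀ t, ‖w t‖ ≤ W) (hwc : Continuous w)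
    {s h : ℝ} (hh : 0 < h) (z : E) :
    ∃ V : E, ‖V‖ ≤ W ∧ traj s z w (s + h) = z + h • V ∧
      |actl l s (s + h) z (fun _ => V) - ∫ r in s..(s + h), l (traj s z w r) (w r) r| ≤
        (Λ * (2 * W) + Λ * (1 + 3 * W) * C) * h ^ 2 := by
  have : CompleteSpace E := FiniteDimensional.complete ℝ E
  have hΛ := hl.Λ_ge
  have hst : s ≤ s + h := by linarith
  have hwi : ∀ p q : ℝ, IntervalIntegrable w volume p q := fun p q => hwc.intervalIntegrable p q
  set V : E := h⁻¹ • ∫ r in s..(s + h), w r with hVdef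
  have hhV : h • V = ∫ r in s..(s + h), w r := by
    rw [hVdef, smul_smul, mul_inv_cancel₀ hh.ne', one_smul]
  have hint : ‖∫ r in s..(s + h), w r‖ ≤ W * h := by
    have := intervalIntegral.norm_integral_le_of_norm_le_const (a := s) (b := s + h) (C := W)
      (f := w) (fun r _ => hwb r)
    rwa [add_sub_cancel_left, abs_of_pos hh] at this
  have hVW : ‖V‖ ≤ W := by
    rw [hVdef, norm_smul, norm_inv, Real.norm_of_nonneg hh.le, inv_mul_le_iff₀ hh]
    linarith
  have hVw : ∀ r ∈ Icc s (s + h), ‖V - w r‖ ≤ C * h := by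
    intro r hr
    have e1 : h • (V - w r) = ∫ q in s..(s + h), (w q - w r) := by
      rw [intervalIntegral.integral_sub (hwi _ _) intervalIntegrable_const,
        intervalIntegral.integral_const, add_sub_cancel_left, smul_sub, hhV]
    have e2 : ‖∫ q in s..(s + h), (w q - w r)‖ ≤ C * h * h := by
      have := intervalIntegral.norm_integral_le_of_norm_le_const (a := s) (b := s + h) (C := C * h)
        (f := fun q => w q - w r) (fun q hq => ?_)
      · rwa [add_sub_cancel_left, abs_of_pos hh] at this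
      · rw [uIoc_of_le hst] at hq
        refine (hwl r q).trans (mul_le_mul_of_nonneg_left ?_ hC)
        rw [abs_le]
        constructor <;> linarith [hq.1, hq.2, hr.1, hr.2]
    rw [← e1, norm_smul, Real.norm_of_nonneg hh.le, mul_comm h] at e2
    exact le_of_mul_le_mul_right e2 hh
  have htr : ∀ r ∈ Icc s (s + h), ‖traj s z (fun _ => V) r - traj s z w r‖ ≤ 2 * W * h := by
    intro r hr
    have e1 : traj s z (fun _ => V) r - traj s z w r = (∫ _ in s..r, V) - ∫ q in s..r, w q := by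
      simp only [traj]
      abel
    have e2 : ‖∫ _ in s..r, V‖ ≤ W * |r - s| :=
      intervalIntegral.norm_integral_le_of_norm_le_const fun q _ => hVW
    have e3 : ‖∫ q in s..r, w q‖ ≤ W * |r - s| :=
      intervalIntegral.norm_integral_le_of_norm_le_const fun q _ => hwb q
    have e4 : |r - s| ≤ h := by
      rw [abs_of_nonneg (by linarith [hr.1])]
      linarith [hr.2]
    have e5 := mul_le_mul_of_nonneg_left e4 hW
    rw [e1]
    refine (norm_sub_le _ _).trans ?_
    linarith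
  refine ⟨V, hVW, by simp only [traj, hhV], ?_⟩
  have hi1 : IntervalIntegrable (fun r => l (traj s z (fun _ => V) r) V r) volume s (s + h) :=
    hl.toCK.ii (Adm.const V) s z _ _
  have hi2 : IntervalIntegrable (fun r => l (traj s z w r) (w r) r) volume s (s + h) :=
    hl.toCK.ii ⟨hwc.stronglyMeasurable, W, hwb⟩ s z _ _
  unfold actl
  rw [← intervalIntegral.integral_sub hi1 hi2]
  have hb := intervalIntegral.norm_integral_le_of_norm_le_const (a := s) (b := s + h)
    (C := (Λ * (2 * W) + Λ * (1 + 3 * W) * C) * h)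
    (f := fun r => l (traj s z (fun _ => V) r) V r - l (traj s z w r) (w r) r) (fun r hr => ?_)
  · rw [add_sub_cancel_left, abs_of_pos hh, Real.norm_eq_abs] at hb
    refine hb.trans (le_of_eq ?_)
    ring
  · rw [uIoc_of_le hst] at hr
    have hrI : r ∈ Icc s (s + h) := ⟨hr.1.le, hr.2⟩
    have h1 := l_lip hl (traj s z (fun _ => V) r) (traj s z w r) hVW (hwb r) r
    have h2 := mul_le_mul_of_nonneg_left (htr r hrI) (by linarith : (0:ℝ) ≤ Λ)
    have h3 := mul_le_mul_of_nonneg_left (hVw r hrI)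
      (by positivity : (0:ℝ) ≤ Λ * (1 + 3 * W))
    rw [Real.norm_eq_abs]
    nlinarith

end O5

open O5

variable [FiniteDimensional ℝ E]
  {l : E → E → ℝ → ℝ} {lx lu : E → E → ℝ → E} {v0 : E} {m Λ : ℝ}

/-- the action of a `C^{1,1}` kernel geodesic is the kernel -/
theorem kgeo_act (hl : CL l lx lu 0 m Λ) {a b : ℝ} (hab : a < b) {Z : ℝ → E} (hZ : KGeo l a b Z)
    {v : ℝ → E} (hv : ∃ C, ∀ s ∈ Icc a b, ∀ t ∈ Icc a b, ‖v t - v s‖ ≤ C * |t - s|)
    (hZv : ∀ s ∈ Icc a b, ∀ t ∈ Icc a b, Z t - Z s = ∫ r in s..t, v r) :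
    ∫ t in a..b, l (Z t) (v t) t = kerl l a b (Z a) (Z b) := by
  obtain ⟨w, C, W, hC, hW, hwl, hwb, hwc, hwa, hwe, hint, htraj⟩ := extend hab hv hZv
  have ha : a ∈ Icc a b := ⟨le_rfl, hab.le⟩
  have hb : b ∈ Icc a b := ⟨hab.le, le_rfl⟩
  have hΛ := hl.Λ_ge
  set L : ℝ → ℝ := fun t => l (traj a (Z a) w t) (w t) t with hLdef
  have hLi : ∀ p q : ℝ, IntervalIntegrable L volume p q := fun p q => hl.toCK.ii hwa a (Z a) p q
  have hLs : ∀ s ∈ Icc a b, ∀ t ∈ Icc a b,
      ∫ r in s..t, l (traj s (Z s) w r) (w r) r = ∫ r in s..t, L r := by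
    intro s hs t ht
    refine intervalIntegral.integral_congr fun r hr => ?_
    have hr' : r ∈ Icc a b := (uIcc_subset_Icc hs ht) hr
    simp only [hLdef, htraj s hs r hr', htraj a ha r hr']
  -- additivity
  have hadd : ∀ s ∈ Icc a b, ∀ t ∈ Icc a b, s ≤ t →
      kerl l a t (Z a) (Z t) = kerl l a s (Z a) (Z s) + kerl l s t (Z s) (Z t) := by
    intro s hs t ht hst
    have h1 := hZ.add s t hs.1 hst ht.2
    have h2 := hZ.add t t ht.1 le_rfl ht.2
    rw [kerl_self l t (Z t)] at h2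
    linarith
  obtain ⟨K, h0, hK, hh0, hshort⟩ := kerl_short hl
  set G : ℝ → ℝ := fun t => kerl l a t (Z a) (Z t) - ∫ r in a..t, L r with hGdef
  have hGdiff : ∀ s ∈ Icc a b, ∀ t ∈ Icc a b, s ≤ t →
      G t - G s = kerl l s t (Z s) (Z t) - ∫ r in s..t, L r := by
    intro s hs t ht hst
    have h1 := hadd s hs t ht hst
    have h2 : (∫ r in a..t, L r) = (∫ r in a..s, L r) + ∫ r in s..t, L r :=
      (intervalIntegral.integral_add_adjacent_intervals (hLi _ _) (hLi _ _)).symm
    simp only [hGdef]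
    rw [h1, h2]
    ring
  set K' := K * h0 * (1 + W) ^ 2 + (Λ * (2 * W) + Λ * (1 + 3 * W) * C) with hK'
  have hK'0 : 0 ≤ K' := by positivity
  have hest : ∀ s ∈ Icc a b, ∀ t ∈ Icc a b, s < t → t - s ≤ h0 →
      |G t - G s| ≤ K' * (t - s) ^ 2 := by
    intro s hs t ht hst hth
    have hh : 0 < t - s := by linarith
    obtain ⟨V, hV, hVt, hVp⟩ := piece hl hC hW hwl hwb hwc (s := s) hh (Z s)
    have hst' : s + (t - s) = t := by ring
    rw [hst'] at hVt hVp
    rw [htraj s hs t ht] at hVt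
    have h1 := hshort s (t - s) hh hth (Z s) V
    rw [hst', ← hVt] at h1
    rw [hLs s hs t ht] at hVp
    have h2 := hGdiff s hs t ht hst.le
    have h3 : K * (t - s) ^ 3 * (1 + ‖V‖) ^ 2 ≤ K * h0 * (1 + W) ^ 2 * (t - s) ^ 2 := by
      have e1 : (1 + ‖V‖) ^ 2 ≤ (1 + W) ^ 2 :=
        pow_le_pow_left₀ (by positivity) (by linarith) 2
      have e2 : (t - s) ^ 3 ≤ h0 * (t - s) ^ 2 := by
        have := mul_le_mul_of_nonneg_right hth (sq_nonneg (t - s))
        calc (t - s) ^ 3 = (t - s) * (t - s) ^ 2 := by ring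
          _ ≤ _ := this
      calc K * (t - s) ^ 3 * (1 + ‖V‖) ^ 2 ≤ K * (h0 * (t - s) ^ 2) * (1 + W) ^ 2 := by
            gcongr
        _ = _ := by ring
    have h4 := abs_le.mp h1
    have h5 := abs_le.mp hVp
    rw [h2, abs_le, hK']
    constructor
    · nlinarith [h4.1, h4.2, h5.1, h5.2]
    · nlinarith [h4.1, h4.2, h5.1, h5.2]
  have hest' : ∀ s ∈ Icc a b, ∀ t ∈ Icc a b, |t - s| ≤ h0 → |G t - G s| ≤ K' * |t - s| ^ 2 := by
    intro s hs t ht hth
    rcases lt_trichotomy s t with h | h | h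
    · rw [abs_of_pos (by linarith : 0 < t - s)] at hth ⊢
      exact hest s hs t ht h hth
    · subst h
      simp
    · rw [abs_sub_comm, abs_of_pos (by linarith : 0 < s - t)] at hth
      rw [abs_sub_comm, abs_sub_comm t s, abs_of_pos (by linarith : 0 < s - t)]
      exact hest t ht s hs h hth
  have hGd : ∀ x ∈ Icc a b, HasDerivWithinAt G 0 (Icc a b) x := by
    intro x hx
    rw [hasDerivWithinAt_iff_isLittleO, Asymptotics.isLittleO_iff]
    intro c hc
    have hδ : 0 < min h0 (c / (K' + 1)) := lt_min hh0 (by positivity)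
    have hmem : Metric.ball x (min h0 (c / (K' + 1))) ∩ Icc a b ∈ 𝓝[Icc a b] x :=
      inter_mem (mem_nhdsWithin_of_mem_nhds (Metric.ball_mem_nhds x hδ)) self_mem_nhdsWithin
    filter_upwards [hmem] with y hy
    have hyd : |y - x| < min h0 (c / (K' + 1)) := by
      have := hy.1
      rwa [Metric.mem_ball, Real.dist_eq] at this
    have h1 := hest' x hx y hy.2 (hyd.le.trans (min_le_left _ _))
    have h2 : K' * |y - x| ≤ c := by
      have h3 : |y - x| ≤ c / (K' + 1) := hyd.le.trans (min_le_right _ _)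
      rw [le_div_iff₀ (by linarith)] at h3
      nlinarith [abs_nonneg (y - x)]
    rw [smul_zero, sub_zero, Real.norm_eq_abs, Real.norm_eq_abs]
    calc |G y - G x| ≤ K' * |y - x| ^ 2 := h1
      _ = K' * |y - x| * |y - x| := by ring
      _ ≤ c * |y - x| := mul_le_mul_of_nonneg_right h2 (abs_nonneg _)
  have hGc : ContinuousOn G (Icc a b) := fun x hx => (hGd x hx).continuousWithinAt
  have hGd' : ∀ x ∈ Ico a b, HasDerivWithinAt G 0 (Ici x) x := by
    intro x hx
    have h1 := hGd x ⟨hx.1, hx.2.le⟩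
    refine h1.mono_of_mem_nhdsWithin ?_
    exact mem_of_superset (Icc_mem_nhdsGE hx.2) (Icc_subset_Icc_left hx.1)
  have hG := constant_of_has_deriv_right_zero hGc hGd' b hb
  have hGa : G a = 0 := by
    simp only [hGdef, intervalIntegral.integral_same, kerl_self l a (Z a), sub_zero]
  rw [hGa] at hG
  have h1 : kerl l a b (Z a) (Z b) = ∫ r in a..b, L r := by
    simp only [hGdef] at hG
    linarith
  rw [h1]
  refine intervalIntegral.integral_congr fun r hr => ?_
  rw [uIcc_of_le hab.le] at hr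
  simp only [hLdef, htraj a ha r hr, hwe r hr]

namespace O5

omit [FiniteDimensional ℝ E] in
/-- continuity of the force -/
theorem lx_cont (hl : CL l lx lu v0 m Λ) : Continuous (fun p : E × E × ℝ => lx p.1 p.2.1 p.2.2) := by
  have hΛ := hl.Λ_ge
  refine (LipschitzWith.of_dist_le_mul (K := ⟨3 * Λ, by linarith⟩) fun p q => ?_).continuous
  have h1 := hl.lx_lip p.1 p.2.1 p.2.2 q.1 q.2.1 q.2.2
  have h2 : ‖p.1 - q.1‖ ≤ dist p q := by
    rw [← dist_eq_norm]
    exact le_max_left _ _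
  have h3 : dist p.2 q.2 ≤ dist p q := le_max_right _ _
  have h4 : ‖p.2.1 - q.2.1‖ ≤ dist p.2 q.2 := by
    rw [← dist_eq_norm]
    exact le_max_left _ _
  have h5 : |p.2.2 - q.2.2| ≤ dist p.2 q.2 := by
    rw [← Real.dist_eq]
    exact le_max_right _ _
  rw [dist_eq_norm]
  have h6 : Λ * (‖p.1 - q.1‖ + ‖p.2.1 - q.2.1‖ + |p.2.2 - q.2.2|) ≤ Λ * (3 * dist p q) :=
    mul_le_mul_of_nonneg_left (by linarith) (by linarith)
  calc ‖lx p.1 p.2.1 p.2.2 - lx q.1 q.2.1 q.2.2‖ ≤ Λ * (3 * dist p q) := h1.trans h6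
    _ = 3 * Λ * dist p q := by ring

theorem cont_traj {u : ℝ → E} (hu : Continuous u) (a : ℝ) (z : E) : Continuous (traj a z u) :=
  continuous_const.add (intervalIntegral.continuous_primitive (fun x y => hu.intervalIntegrable x y) a)

theorem deriv_traj {u : ℝ → E} (hu : Continuous u) (a : ℝ) (z : E) (t : ℝ) :
    HasDerivAt (traj a z u) (u t) t := by
  have : CompleteSpace E := FiniteDimensional.complete ℝ E
  exact (intervalIntegral.integral_hasDerivAt_right (hu.intervalIntegrable _ _)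
    hu.stronglyMeasurable.stronglyMeasurableAtFilter hu.continuousAt).const_add z

/-- the lemma of du Bois-Reymond -/
theorem dbr {a b : ℝ} (hab : a < b) {P G : ℝ → E} (hP : Continuous P) (hG : Continuous G)
    (h : ∀ w : ℝ → E, Continuous w → (∃ C, ∀ t, ‖w t‖ ≤ C) → ∫ t in a..b, w t = 0 →
      ∫ t in a..b, (inner ℝ (G t) (traj a 0 w t) + inner ℝ (P t) (w t) : ℝ) = 0) :
    ∃ c : E, ∀ t ∈ Icc a b, P t = traj a 0 G t + c := by
  have : CompleteSpace E := FiniteDimensional.complete ℝ E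
  set π : ℝ → ℝ := fun t => (projIcc a b hab.le t : ℝ) with hπ
  have hπc : Continuous π := continuous_subtype_val.comp continuous_projIcc
  have hπm : ∀ t, π t ∈ Icc a b := fun t => (projIcc a b hab.le t).2
  have hπe : ∀ t ∈ Icc a b, π t = t := fun t ht => by
    rw [hπ]; simp only [projIcc_of_mem hab.le ht]
  set Γ : ℝ → E := traj a 0 G with hΓ
  have hΓc : Continuous Γ := cont_traj hG a _
  set c : E := (b - a)⁻¹ • ∫ t in a..b, (P t - Γ t) with hcdef
  set w : ℝ → E := fun t => P (π t) - Γ (π t) - c with hw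
  have hwc : Continuous w := ((hP.comp hπc).sub (hΓc.comp hπc)).sub continuous_const
  have hwe : ∀ t ∈ Icc a b, w t = P t - Γ t - c := fun t ht => by rw [hw]; simp only [hπe t ht]
  have hwb : ∃ C, ∀ t, ‖w t‖ ≤ C := by
    have hcc : ContinuousOn (fun t => P t - Γ t - c) (Icc a b) :=
      ((hP.sub hΓc).sub continuous_const).continuousOn
    obtain ⟨C, hC⟩ := (isCompact_Icc (a := a) (b := b)).exists_bound_of_continuousOn hcc
    exact ⟨C, fun t => hC _ (hπm t)⟩
  set η : ℝ → E := traj a 0 w with hη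
  have hηc : Continuous η := cont_traj hwc a _
  have hηa : η a = 0 := by show (0:E) + ∫ r in a..a, w r = 0; simp
  have hw0 : ∫ t in a..b, w t = 0 := by
    have h1 : ∫ t in a..b, w t = ∫ t in a..b, (P t - Γ t - c) := by
      refine intervalIntegral.integral_congr fun t ht => hwe t ?_
      rwa [uIcc_of_le hab.le] at ht
    have h2 : Continuous fun t => P t - Γ t := hP.sub hΓc
    have hba : b - a ≠ 0 := by linarith
    rw [h1, intervalIntegral.integral_sub (f := fun t => P t - Γ t) (h2.intervalIntegrable _ _)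
      intervalIntegrable_const, intervalIntegral.integral_const, hcdef, smul_smul,
      mul_inv_cancel₀ hba, one_smul, sub_self]
  have hηb : η b = 0 := by show (0:E) + ∫ r in a..b, w r = 0; rw [hw0, add_zero]
  have hweak := h w hwc hwb hw0
  have hparts : ∫ t in a..b, (inner ℝ (G t) (η t) + inner ℝ (Γ t) (w t)) = 0 := by
    have h1 : ∀ t ∈ uIcc a b, HasDerivAt (fun s => (inner ℝ (Γ s) (η s) : ℝ))
        (inner ℝ (G t) (η t) + inner ℝ (Γ t) (w t)) t := by
      intro t _
      have := (deriv_traj hG a 0 t).inner ℝ (deriv_traj hwc a 0 t)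
      refine this.congr_deriv ?_
      ring
    have hci : Continuous fun t => (inner ℝ (G t) (η t) : ℝ) + inner ℝ (Γ t) (w t) :=
      (hG.inner hηc).add (hΓc.inner hwc)
    rw [intervalIntegral.integral_eq_sub_of_hasDerivAt h1 (hci.intervalIntegrable _ _), hηa, hηb]
    simp
  have hVΓ : ∫ t in a..b, (inner ℝ (P t - Γ t) (w t) : ℝ) = 0 := by
    have hci1 : Continuous fun t => (inner ℝ (G t) (η t) : ℝ) + inner ℝ (P t) (w t) :=
      (hG.inner hηc).add (hP.inner hwc)
    have hci2 : Continuous fun t => (inner ℝ (G t) (η t) : ℝ) + inner ℝ (Γ t) (w t) :=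
      (hG.inner hηc).add (hΓc.inner hwc)
    have h1 : ∫ t in a..b, ((inner ℝ (G t) (η t) + inner ℝ (P t) (w t)) -
        (inner ℝ (G t) (η t) + inner ℝ (Γ t) (w t)) : ℝ) = 0 := by
      rw [intervalIntegral.integral_sub (hci1.intervalIntegrable _ _) (hci2.intervalIntegrable _ _),
        hweak, hparts, sub_zero]
    rw [← h1]
    refine intervalIntegral.integral_congr fun t _ => ?_
    simp only [inner_sub_left]
    ring
  have hc0 : ∫ t in a..b, (inner ℝ c (w t) : ℝ) = 0 := by
    have h1 := (innerSL ℝ c).intervalIntegral_comp_comm (hwc.intervalIntegrable (μ := volume) a b)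
    simp only [innerSL_apply_apply] at h1
    rw [h1, hw0, inner_zero_right]
  have hww : ∫ t in a..b, ‖w t‖ ^ 2 = 0 := by
    have hci1 : Continuous fun t => (inner ℝ (P t - Γ t) (w t) : ℝ) := (hP.sub hΓc).inner hwc
    have hci2 : Continuous fun t => (inner ℝ c (w t) : ℝ) := continuous_const.inner hwc
    have h1 : ∫ t in a..b, ((inner ℝ (P t - Γ t) (w t) : ℝ) - inner ℝ c (w t)) = 0 := by
      rw [intervalIntegral.integral_sub (hci1.intervalIntegrable _ _) (hci2.intervalIntegrable _ _),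
        hVΓ, hc0, sub_zero]
    rw [← h1]
    refine intervalIntegral.integral_congr fun t ht => ?_
    rw [uIcc_of_le hab.le] at ht
    rw [← inner_sub_left, ← hwe t ht, real_inner_self_eq_norm_sq]
  have hwz : ∀ t ∈ Icc a b, w t = 0 := by
    intro t ht
    by_contra hne
    have hpos := intervalIntegral.integral_pos hab (f := fun t => ‖w t‖ ^ 2)
      (hwc.norm.pow 2).continuousOn (fun s _ => by positivity) ⟨t, ht, by
        have : 0 < ‖w t‖ := norm_pos_iff.2 hne
        positivity⟩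
    rw [hww] at hpos
    exact lt_irrefl _ hpos
  refine ⟨c, fun t ht => ?_⟩
  have h1 := hwz t ht
  rw [hwe t ht] at h1
  rw [← sub_eq_zero, ← h1]
  abel

theorem eq_zero_of_quad {D Q : ℝ} (h : ∀ ε : ℝ, 0 ≤ ε * D + ε ^ 2 * Q) : D = 0 := by
  by_contra hD
  have hQ : 0 < |Q| + 1 := by positivity
  have h1 := h (-D / (|Q| + 1))
  have h2 : -D / (|Q| + 1) * D + (-D / (|Q| + 1)) ^ 2 * Q =
      D ^ 2 / (|Q| + 1) ^ 2 * (Q - (|Q| + 1)) := by
    field_simp
    ring
  rw [h2] at h1
  have h3 : 0 < D ^ 2 / (|Q| + 1) ^ 2 := by positivity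
  have h4 : Q - (|Q| + 1) < 0 := by
    have := le_abs_self Q
    linarith
  have h5 := mul_neg_of_pos_of_neg h3 h4
  linarith

end O5

/-- Euler-Lagrange equation in integral form -/
theorem kgeo_el (hl : CL l lx lu 0 m Λ) {a b : ℝ} (hab : a < b) {Z : ℝ → E} (hZ : KGeo l a b Z)
    {v : ℝ → E} (hv : ∃ C, ∀ s ∈ Icc a b, ∀ t ∈ Icc a b, ‖v t - v s‖ ≤ C * |t - s|)
    (hZv : ∀ s ∈ Icc a b, ∀ t ∈ Icc a b, Z t - Z s = ∫ r in s..t, v r) :
    ∀ s ∈ Icc a b, ∀ t ∈ Icc a b,
      lu (Z t) (v t) t - lu (Z s) (v s) s = ∫ r in s..t, lx (Z r) (v r) r := by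
  have hact := kgeo_act hl hab hZ hv hZv
  obtain ⟨V, C, W, hC, hW, hVl, hVb, hVc, hVa, hVe, hint, htraj⟩ := extend hab hv hZv
  have ha : a ∈ Icc a b := ⟨le_rfl, hab.le⟩
  have hb : b ∈ Icc a b := ⟨hab.le, le_rfl⟩
  set X : ℝ → E := traj a (Z a) V with hX
  have hXc : Continuous X := cont_traj hVc a _
  have hXe : ∀ t ∈ Icc a b, X t = Z t := fun t ht => htraj a ha t ht
  set P : ℝ → E := fun t => lu (X t) (V t) t with hP
  have hPc : Continuous P := hl.toCK.lu_cont.comp (hXc.prodMk (hVc.prodMk continuous_id))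
  set G : ℝ → E := fun t => lx (X t) (V t) t with hG
  have hGc : Continuous G := (lx_cont hl).comp (hXc.prodMk (hVc.prodMk continuous_id))
  have hLc : Continuous fun t => l (X t) (V t) t :=
    hl.toCK.cont.comp (hXc.prodMk (hVc.prodMk continuous_id))
  have hact' : kerl l a b (Z a) (Z b) = ∫ t in a..b, l (X t) (V t) t := by
    rw [← hact]
    refine intervalIntegral.integral_congr fun r hr => ?_
    rw [uIcc_of_le hab.le] at hr
    simp only [hXe r hr, hVe r hr]
  obtain ⟨c, hc⟩ := dbr hab hPc hGc (fun w hwc hwb hw0 => by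
    obtain ⟨Cw, hCw⟩ := hwb
    set η : ℝ → E := traj a 0 w with hη
    have hηc : Continuous η := cont_traj hwc a _
    have hηb : η b = 0 := by show (0:E) + ∫ r in a..b, w r = 0; rw [hw0, add_zero]
    refine eq_zero_of_quad (Q := ∫ t in a..b, Λ * (‖η t‖ + ‖w t‖) ^ 2) fun ε => ?_
    have hu : Adm fun t => V t + ε • w t := by
      refine ⟨(hVc.add (hwc.const_smul ε)).stronglyMeasurable, W + |ε| * Cw, fun t => ?_⟩
      refine (norm_add_le _ _).trans (add_le_add (hVb t) ?_)
      rw [norm_smul, Real.norm_eq_abs]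
      exact mul_le_mul_of_nonneg_left (hCw t) (abs_nonneg _)
    have htr : ∀ t, traj a (Z a) (fun s => V s + ε • w s) t = X t + ε • η t := by
      intro t
      show Z a + (∫ s in a..t, (V s + ε • w s)) = Z a + (∫ s in a..t, V s) +
        ε • ((0:E) + ∫ s in a..t, w s)
      have j1 : IntervalIntegrable (fun s => V s) volume a t := hVc.intervalIntegrable _ _
      have j2 : IntervalIntegrable (fun s => ε • w s) volume a t :=
        (hwc.const_smul ε).intervalIntegrable _ _
      rw [intervalIntegral.integral_add j1 j2, intervalIntegral.integral_smul, zero_add, add_assoc]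
    have h1 : kerl l a b (Z a) (Z b) ≤ actl l a b (Z a) fun t => V t + ε • w t := by
      refine kerl_le hl.toCK hab hu ?_
      rw [htr, hηb, smul_zero, add_zero, hXe b hb]
    have hc1 : Continuous fun t => (inner ℝ (G t) (η t) : ℝ) + inner ℝ (P t) (w t) :=
      (hGc.inner hηc).add (hPc.inner hwc)
    have hc2 : Continuous fun t => Λ * (‖η t‖ + ‖w t‖) ^ 2 :=
      continuous_const.mul ((hηc.norm.add hwc.norm).pow 2)
    have hc3 : Continuous fun t => l (X t + ε • η t) (V t + ε • w t) t :=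
      hl.toCK.cont.comp ((hXc.add (hηc.const_smul ε)).prodMk
        ((hVc.add (hwc.const_smul ε)).prodMk continuous_id))
    have h2 : actl l a b (Z a) (fun t => V t + ε • w t) =
        ∫ t in a..b, l (X t + ε • η t) (V t + ε • w t) t := by
      unfold actl
      refine intervalIntegral.integral_congr fun t _ => ?_
      simp only [htr]
    have h3 : ∫ t in a..b, l (X t + ε • η t) (V t + ε • w t) t ≤
        ∫ t in a..b, (l (X t) (V t) t + (ε * (inner ℝ (G t) (η t) + inner ℝ (P t) (w t)) +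
          ε ^ 2 * (Λ * (‖η t‖ + ‖w t‖) ^ 2))) := by
      refine intervalIntegral.integral_mono_on hab.le (hc3.intervalIntegrable _ _)
        ((hLc.add ((continuous_const.mul hc1).add (continuous_const.mul hc2))).intervalIntegrable _ _)
        fun t _ => ?_
      have h4 := hl.tay (X t) (V t) (X t + ε • η t) (V t + ε • w t) t
      rw [add_sub_cancel_left, add_sub_cancel_left, real_inner_smul_right, real_inner_smul_right,
        norm_smul, norm_smul, Real.norm_eq_abs] at h4
      have h5 : Λ * (|ε| * ‖η t‖ + |ε| * ‖w t‖) ^ 2 = ε ^ 2 * (Λ * (‖η t‖ + ‖w t‖) ^ 2) := by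
        rw [← sq_abs ε]
        ring
      rw [h5] at h4
      have h6 := (abs_le.mp h4).2
      have h7 : inner ℝ (lx (X t) (V t) t) (η t) = (inner ℝ (G t) (η t) : ℝ) := rfl
      have h8 : inner ℝ (lu (X t) (V t) t) (w t) = (inner ℝ (P t) (w t) : ℝ) := rfl
      rw [h7, h8] at h6
      linarith
    have i0 : IntervalIntegrable (fun t => l (X t) (V t) t) volume a b := hLc.intervalIntegrable _ _
    have i1 : IntervalIntegrable (fun t => ε * (inner ℝ (G t) (η t) + inner ℝ (P t) (w t)))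
        volume a b := (continuous_const.mul hc1).intervalIntegrable _ _
    have i2 : IntervalIntegrable (fun t => ε ^ 2 * (Λ * (‖η t‖ + ‖w t‖) ^ 2)) volume a b :=
      (continuous_const.mul hc2).intervalIntegrable _ _
    have i3 : IntervalIntegrable (fun t => ε * (inner ℝ (G t) (η t) + inner ℝ (P t) (w t)) +
        ε ^ 2 * (Λ * (‖η t‖ + ‖w t‖) ^ 2)) volume a b := i1.add i2
    rw [intervalIntegral.integral_add i0 i3, intervalIntegral.integral_add i1 i2,
      intervalIntegral.integral_const_mul, intervalIntegral.integral_const_mul] at h3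
    rw [h2, hact'] at h1
    linarith)
  intro s hs t ht
  have e1 : lu (Z t) (v t) t = traj a 0 G t + c := by
    rw [← hc t ht, hP, ← hXe t ht, ← hVe t ht]
  have e2 : lu (Z s) (v s) s = traj a 0 G s + c := by
    rw [← hc s hs, hP, ← hXe s hs, ← hVe s hs]
  rw [e1, e2]
  have h1 : traj a 0 G t + c - (traj a 0 G s + c) = ∫ r in s..t, G r := by
    show (0:E) + (∫ r in a..t, G r) + c - ((0:E) + (∫ r in a..s, G r) + c) = _
    rw [← intervalIntegral.integral_interval_sub_left (hGc.intervalIntegrable a t)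
      (hGc.intervalIntegrable a s)]
    abel
  rw [h1]
  refine intervalIntegral.integral_congr fun r hr => ?_
  have hrI := uIcc_subset_Icc hs ht hr
  simp only [hG, hXe r hrI, hVe r hrI]

end EscF
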