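import Pool.Agent.EscF.C1
import Pool.Agent.EscF.C2
import Pool.Agent.EscF.C3
import Pool.Agent.EscF.O3
import Pool.Agent.EscF.O4s
import Pool.Agent.EscF.O4
import Pool.Agent.EscF.O5
import Pool.Agent.EscN.O6

/-!
Project EscF, module O6: an orbit from a sitewise locally minimal sequence (helper42, after
EscN/O6).
-/

noncomputable section

namespace EscF

open MeasureTheory Set Filter Topology Esc EscN
open scoped ContDiff

variable {E : Type*} [NormedAddCommGroup E] [InnerProductSpace ℝ E] [FiniteDimensional ℝ E]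
  {l : E → E → ℝ → ℝ} {lx lu : E → E → ℝ → E} {v0 : E} {m Λ : ℝ}

set_option linter.unusedSectionVars false

namespace O6

omit [FiniteDimensional ℝ E] in
lemma kerl_self (l : E → E → ℝ → ℝ) (a : ℝ) (z z' : E) : kerl l a a z z' = 0 := by
  have h : {c | ∃ u : ℝ → E, Adm u ∧ traj a z u a = z' ∧ c = actl l a a z u} ⊆ {0} := by
    rintro c ⟨u, -, -, rfl⟩
    simp [actl]
  unfold kerl
  rcases Set.subset_singleton_iff_eq.1 h with h | h
  · rw [h]; simp
  · rw [h]; simp

lemma kerl_nat (h : ∀ x v t, l x v (t + 1) = l x v t) (j : ℕ) (z z' : E) :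
    kerl l (j : ℝ) ((j : ℝ) + 1) z z' = kerl l 0 1 z z' := by
  induction j with
  | zero => simp
  | succ j ih =>
    rw [← ih, ← kerl_time h (j : ℝ) ((j : ℝ) + 1) z z']
    push_cast
    rfl

/-- strong monotonicity of the momentum -/
lemma mono (hl : CK l lu v0 m Λ) (x v v' : E) (t : ℝ) (h : lu x v t = lu x v' t) : v = v' := by
  have h1 := hl.low x v v' t
  have h2 := hl.low x v' v t
  have hm := hl.m_pos
  rw [h] at h2
  have h3 : inner ℝ (lu x v' t) (v' - v) = - inner ℝ (lu x v' t) (v - v') := by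
    rw [← inner_neg_right]; congr 1; abel
  rw [h3, norm_sub_rev v' v] at h2
  have h4 : ‖v - v'‖ ^ 2 ≤ 0 := by nlinarith
  have h5 : ‖v - v'‖ = 0 := by
    have := norm_nonneg (v - v')
    nlinarith
  exact sub_eq_zero.1 (norm_eq_zero.1 h5)

/-- at a local minimum the velocities of two kernel geodesics agree -/
lemma vel_eq (hl : CL l lx lu 0 m Λ) {a b c : ℝ} (hab : a < b) (hbc : b < c) {X Y v v' : ℝ → E}
    (hX : KGeo l a b X) (hY : KGeo l b c Y) (hXY : X b = Y b) {C C' : ℝ}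
    (hv : ∀ s ∈ Icc a b, ∀ t ∈ Icc a b, ‖v t - v s‖ ≤ C * |t - s|)
    (hv' : ∀ s ∈ Icc b c, ∀ t ∈ Icc b c, ‖v' t - v' s‖ ≤ C' * |t - s|)
    (hXv : ∀ s ∈ Icc a b, ∀ t ∈ Icc a b, X t - X s = ∫ r in s..t, v r)
    (hYv : ∀ s ∈ Icc b c, ∀ t ∈ Icc b c, Y t - Y s = ∫ r in s..t, v' r)
    (hmin : IsLocalMin (fun x => kerl l a b (X a) x + kerl l b c x (Y c)) (X b)) :
    v b = v' b := by
  obtain ⟨Cs, h0, hCs, hh0, hmd⟩ := mom_diff hl
  have hΛ : 0 ≤ Λ := by linarith [hl.Λ_ge]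
  -- averages
  set V1 : ℝ → E := fun h => (1 / h) • (X b - X (b - h)) with hV1
  set V2 : ℝ → E := fun h => (1 / h) • (Y (b + h) - Y b) with hV2
  set K : ℝ := |C| + |C'| with hK
  have hK0 : 0 ≤ K := by positivity
  have key : ∀ h : ℝ, 0 < h → h ≤ 1 → h ≤ h0 → h < b - a → h < c - b →
      ‖lu (X b) (v' b) b - lu (X b) (v b) b‖ ≤ (Cs * (1 + ‖v b‖ + ‖v' b‖ + K) + Λ * K) * h := by
    intro h hh h1' h00 h1 h2
    have m1 : b - h ∈ Icc a b := ⟨by linarith, by linarith⟩
    have m2 : b + h ∈ Icc b c := ⟨by linarith, by linarith⟩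
    have mb : b ∈ Icc a b := ⟨hab.le, le_rfl⟩
    have mb' : b ∈ Icc b c := ⟨le_rfl, hbc.le⟩
    have e1 := hX.add (b - h) b m1.1 m1.2 le_rfl
    rw [kerl_self, add_zero] at e1
    have e2 := hY.add b (b + h) le_rfl m2.1 m2.2
    rw [kerl_self, zero_add] at e2
    have f1 : X b - h • V1 h = X (b - h) := by
      show X b - h • (1 / h) • (X b - X (b - h)) = _
      rw [smul_smul, mul_one_div_cancel hh.ne', one_smul]
      abel
    have f2 : X b + h • V2 h = Y (b + h) := by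
      show X b + h • (1 / h) • (Y (b + h) - Y b) = _
      rw [smul_smul, mul_one_div_cancel hh.ne', one_smul, hXY]
      abel
    have hlm : IsLocalMin (fun w => kerl l (b - h) b (X b - h • V1 h) w +
        kerl l b (b + h) w (X b + h • V2 h)) (X b) := by
      rw [f1, f2]
      filter_upwards [hmin] with w hw
      have i1 := kerl_le_add hl.toCK (a := a) (b := b - h) (c := b) (by linarith) (by linarith)
        (X a) (X (b - h)) w
      have i2 := kerl_le_add hl.toCK (a := b) (b := b + h) (c := c) (by linarith) (by linarith)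
        w (Y (b + h)) (Y c)
      have hw' : kerl l a b (X a) (X b) + kerl l b c (X b) (Y c) ≤
        kerl l a b (X a) w + kerl l b c w (Y c) := hw
      rw [hXY] at hw' e1 ⊢
      linarith
    have h3 := hmd b h hh h00 _ _ _ hlm
    have a1 := EscN.O6.int_approx hv (s := b - h) (t := b) (r := b) m1.1 m1.2 le_rfl ⟨m1.2, le_rfl⟩
    have a2 := EscN.O6.int_approx hv' (s := b) (t := b + h) (r := b) le_rfl m2.1 m2.2
      ⟨le_rfl, m2.1⟩
    have e3 : b - (b - h) = h := by ring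
    have e4 : b + h - b = h := by ring
    rw [← hXv _ m1 _ mb, e3] at a1
    rw [← hYv _ mb' _ m2, e4] at a2
    have g1 : ‖V1 h - v b‖ ≤ |C| * h := by
      have : V1 h - v b = (1 / h) • (X b - X (b - h) - h • v b) := by
        rw [smul_sub _ (X b - X (b - h)), smul_smul (1 / h) h, one_div_mul_cancel hh.ne', one_smul]
      rw [this, norm_smul, Real.norm_of_nonneg (by positivity)]
      calc 1 / h * ‖X b - X (b - h) - h • v b‖ ≤ 1 / h * (|C| * h * h) := by gcongr
        _ = |C| * h := by field_simp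
    have g2 : ‖V2 h - v' b‖ ≤ |C'| * h := by
      have : V2 h - v' b = (1 / h) • (Y (b + h) - Y b - h • v' b) := by
        rw [smul_sub _ (Y (b + h) - Y b), smul_smul (1 / h) h, one_div_mul_cancel hh.ne', one_smul]
      rw [this, norm_smul, Real.norm_of_nonneg (by positivity)]
      calc 1 / h * ‖Y (b + h) - Y b - h • v' b‖ ≤ 1 / h * (|C'| * h * h) := by gcongr
        _ = |C'| * h := by field_simp
    have n1 : ‖V1 h‖ ≤ ‖v b‖ + |C| := by
      have q1 := norm_add_le (V1 h - v b) (v b)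
      rw [sub_add_cancel] at q1
      have : |C| * h ≤ |C| := by nlinarith [abs_nonneg C]
      linarith
    have n2 : ‖V2 h‖ ≤ ‖v' b‖ + |C'| := by
      have q1 := norm_add_le (V2 h - v' b) (v' b)
      rw [sub_add_cancel] at q1
      have : |C'| * h ≤ |C'| := by nlinarith [abs_nonneg C']
      linarith
    have l1 := hl.lu_lip (X b) (v b) b (X b) (V1 h) b
    have l2 := hl.lu_lip (X b) (v' b) b (X b) (V2 h) b
    rw [sub_self, norm_zero, sub_self, abs_zero, zero_add, add_zero] at l1 l2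
    have l1' : ‖lu (X b) (v b) b - lu (X b) (V1 h) b‖ ≤ Λ * (|C| * h) := by
      refine l1.trans (mul_le_mul_of_nonneg_left ?_ hΛ)
      rw [norm_sub_rev]; exact g1
    have l2' : ‖lu (X b) (v' b) b - lu (X b) (V2 h) b‖ ≤ Λ * (|C'| * h) := by
      refine l2.trans (mul_le_mul_of_nonneg_left ?_ hΛ)
      rw [norm_sub_rev]; exact g2
    have e5 : lu (X b) (v' b) b - lu (X b) (v b) b =
        (lu (X b) (v' b) b - lu (X b) (V2 h) b) - (lu (X b) (v b) b - lu (X b) (V1 h) b) +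
          (lu (X b) (V2 h) b - lu (X b) (V1 h) b) := by abel
    rw [e5]
    have h4 : Cs * h * (1 + ‖V1 h‖ + ‖V2 h‖) ≤ Cs * h * (1 + ‖v b‖ + ‖v' b‖ + K) := by
      refine mul_le_mul_of_nonneg_left ?_ (by positivity)
      rw [hK]; linarith
    calc ‖(lu (X b) (v' b) b - lu (X b) (V2 h) b) - (lu (X b) (v b) b - lu (X b) (V1 h) b) +
          (lu (X b) (V2 h) b - lu (X b) (V1 h) b)‖
        ≤ Λ * (|C'| * h) + Λ * (|C| * h) + Cs * h * (1 + ‖v b‖ + ‖v' b‖ + K) :=
          (norm_add_le _ _).trans (add_le_add ((norm_sub_le _ _).trans (add_le_add l2' l1'))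
            (h3.trans h4))
      _ = (Cs * (1 + ‖v b‖ + ‖v' b‖ + K) + Λ * K) * h := by rw [hK]; ring
  set Q : ℝ := Cs * (1 + ‖v b‖ + ‖v' b‖ + K) + Λ * K with hQ
  have hQ0 : 0 ≤ Q := by
    have := norm_nonneg (v b)
    have := norm_nonneg (v' b)
    positivity
  have h0' : ‖lu (X b) (v' b) b - lu (X b) (v b) b‖ ≤ 0 := by
    apply le_of_forall_pos_le_add
    intro ε hε
    have hm : 0 < min (min (min ((b - a) / 2) ((c - b) / 2)) (min h0 1)) (ε / (Q + 1)) := by
      refine lt_min (lt_min (lt_min (by linarith) (by linarith)) (lt_min hh0 one_pos))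
        (by positivity)
    set h := min (min (min ((b - a) / 2) ((c - b) / 2)) (min h0 1)) (ε / (Q + 1)) with hh
    have l1 : h ≤ (b - a) / 2 := ((min_le_left _ _).trans (min_le_left _ _)).trans (min_le_left _ _)
    have l2 : h ≤ (c - b) / 2 := ((min_le_left _ _).trans (min_le_left _ _)).trans (min_le_right _ _)
    have l4 : h ≤ h0 := ((min_le_left _ _).trans (min_le_right _ _)).trans (min_le_left _ _)
    have l5 : h ≤ 1 := ((min_le_left _ _).trans (min_le_right _ _)).trans (min_le_right _ _)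
    have l3 : h ≤ ε / (Q + 1) := min_le_right _ _
    have h8 := key h hm l5 l4 (by linarith) (by linarith)
    rw [le_div_iff₀ (by positivity)] at l3
    nlinarith
  have h9 := sub_eq_zero.1 (norm_le_zero_iff.1 h0')
  exact (mono hl.toCK (X b) (v' b) (v b) b h9).symm

end O6

open O6 in
theorem orbit_of_sitewise (hl : CL l lx lu 0 m Λ) (hper : ∀ x v t, l x v (t + 1) = l x v t)
    (w : ℕ → E)
    (hmin : ∀ j, IsLocalMin (fun x => kerl l 0 1 (w j) x + kerl l 0 1 x (w (j + 2))) (w (j + 1))) :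
    ∃ x v : ℝ → E, (∀ t, 0 < t → HasDerivAt x (v t) t) ∧ ContinuousOn v (Ici 0) ∧
      (∀ t, 0 < t → HasDerivAt (fun t => lu (x t) (v t) t) (lx (x t) (v t) t) t) ∧
      (∀ j : ℕ, x j = w j) ∧
      (∀ j : ℕ, ∫ t in (j:ℝ)..(j+1), l (x t) (v t) t = kerl l 0 1 (w j) (w (j + 1))) := by
  have hj1 : ∀ j : ℕ, (j:ℝ) < (j:ℝ) + 1 := fun j => by linarith
  choose Z hZ0 hZ1 hZ using fun j : ℕ => exists_kgeo hl.toCK (hj1 j) (w j) (w (j + 1))
  choose V hVl hVi using fun j : ℕ => kgeo_c11 hl (hj1 j) (hZ j)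
  have hVe := fun j : ℕ => kgeo_el hl (hj1 j) (hZ j) (hVl j) (hVi j)
  have hVa := fun j : ℕ => kgeo_act hl (hj1 j) (hZ j) (hVl j) (hVi j)
  choose C hC using hVl
  have hVc : ∀ j : ℕ, ContinuousOn (V j) (Icc (j:ℝ) ((j:ℝ) + 1)) := fun j => EscN.O6.lip_cont (hC j)
  have hnat := fun j z z' => kerl_nat (l := l) hper j z z'
  have hZZ : ∀ j : ℕ, Z j ((j:ℝ) + 1) = Z (j + 1) ((j:ℝ) + 1) := by
    intro j
    rw [hZ1 j]
    have := hZ0 (j + 1)
    push_cast at this
    rw [this]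
  have hVV : ∀ j : ℕ, V j ((j:ℝ) + 1) = V (j + 1) ((j:ℝ) + 1) := by
    intro j
    have e1 : ((j + 1 : ℕ) : ℝ) = (j:ℝ) + 1 := by push_cast; ring
    have k1 := hZ (j + 1)
    have k2 := hC (j + 1)
    have k3 := hVi (j + 1)
    have k4 := hZ1 (j + 1)
    rw [e1] at k1 k2 k3 k4
    refine O6.vel_eq hl (hj1 j) (by linarith : (j:ℝ) + 1 < (j:ℝ) + 1 + 1) (hZ j) k1 (hZZ j)
      (hC j) k2 (hVi j) k3 ?_
    rw [hZ1 j, hZ0 j, k4]
    have e2 : (fun x => kerl l (j:ℝ) ((j:ℝ) + 1) (w j) x +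
        kerl l ((j:ℝ) + 1) ((j:ℝ) + 1 + 1) x (w (j + 2))) =
        fun x => kerl l 0 1 (w j) x + kerl l 0 1 x (w (j + 2)) := by
      funext x
      rw [hnat j]
      have := hnat (j + 1) x (w (j + 2))
      rw [e1] at this
      rw [this]
    rw [e2]
    exact hmin j
  set x := EscN.O6.gl Z with hx
  set v := EscN.O6.gl V with hv
  have hxe : ∀ (j : ℕ) {t : ℝ}, t ∈ Icc (j:ℝ) ((j:ℝ) + 1) → x t = Z j t :=
    fun j t ht => EscN.O6.gl_eq hZZ j ht
  have hve : ∀ (j : ℕ) {t : ℝ}, t ∈ Icc (j:ℝ) ((j:ℝ) + 1) → v t = V j t :=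
    fun j t ht => EscN.O6.gl_eq hVV j ht
  have hmemj : ∀ j : ℕ, (j:ℝ) ∈ Icc (j:ℝ) ((j:ℝ) + 1) := fun j => ⟨le_rfl, (hj1 j).le⟩
  have hvc : ContinuousOn v (Ici 0) :=
    EscN.O6.glue_cont fun j => (hVc j).congr fun t ht => hve j ht
  -- clamped functions
  set v1 : ℝ → E := fun t => v (max 0 t) with hv1
  have hv1c : Continuous v1 :=
    hvc.comp_continuous (by fun_prop) (fun t => Set.mem_Ici.2 (le_max_left _ _))
  have hv1e : ∀ t, 0 ≤ t → v1 t = v t := fun t ht => by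
    simp only [hv1]; rw [max_eq_right ht]
  have hxi : ∀ t, 0 ≤ t → x t = x 0 + ∫ s in (0:ℝ)..t, v1 s := by
    intro t ht
    refine EscN.O6.glue_int hv1c ?_ ht
    intro j t ht
    rw [hxe j ht, hxe j (hmemj j), hVi j _ (hmemj j) _ ht]
    apply intervalIntegral.integral_congr
    intro s hs
    rw [uIcc_of_le ht.1] at hs
    have : (0:ℝ) ≤ s := (Nat.cast_nonneg j).trans hs.1
    rw [hv1e s this, hve j ⟨hs.1, hs.2.trans ht.2⟩]
  set x1 : ℝ → E := fun t => x 0 + ∫ s in (0:ℝ)..t, v1 s with hx1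
  have hx1d : ∀ t, HasDerivAt x1 (v1 t) t := by
    intro t
    have := intervalIntegral.integral_hasDerivAt_right (hv1c.intervalIntegrable 0 t)
      (hv1c.stronglyMeasurableAtFilter _ _) hv1c.continuousAt
    exact this.const_add (x 0)
  have hx1c : Continuous x1 := continuous_iff_continuousAt.2 fun t => (hx1d t).continuousAt
  have hx1e : ∀ t, 0 ≤ t → x1 t = x t := fun t ht => (hxi t ht).symm
  have hΛ : 0 ≤ Λ := by linarith [hl.Λ_ge]
  have hlxc : Continuous fun q : E × E × ℝ => lx q.1 q.2.1 q.2.2 := by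
    rw [continuous_iff_continuousAt]
    intro q
    rw [ContinuousAt, tendsto_iff_norm_sub_tendsto_zero]
    have h1 : Tendsto (fun p : E × E × ℝ => Λ * (‖p.1 - q.1‖ + ‖p.2.1 - q.2.1‖ + |p.2.2 - q.2.2|))
        (𝓝 q) (𝓝 0) := by
      have h2 : Continuous (fun p : E × E × ℝ =>
          Λ * (‖p.1 - q.1‖ + ‖p.2.1 - q.2.1‖ + |p.2.2 - q.2.2|)) := by fun_prop
      have h3 := h2.tendsto q
      simpa using h3
    refine squeeze_zero (fun _ => norm_nonneg _) (fun p => ?_) h1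
    exact hl.lx_lip _ _ _ _ _ _
  have hFc : Continuous (fun t => lx (x1 t) (v1 t) t) :=
    EscN.O6.comp3 (F := lx) hlxc hx1c hv1c
  have hpi : ∀ t, 0 ≤ t → (fun t => lu (x t) (v t) t) t = (fun t => lu (x t) (v t) t) 0 +
      ∫ s in (0:ℝ)..t, lx (x1 s) (v1 s) s := by
    intro t ht
    refine EscN.O6.glue_int (x := fun t => lu (x t) (v t) t) hFc ?_ ht
    intro j t ht
    show lu (x t) (v t) t - lu (x j) (v j) j = _
    rw [hxe j ht, hxe j (hmemj j), hve j ht, hve j (hmemj j), hVe j _ (hmemj j) _ ht]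
    apply intervalIntegral.integral_congr
    intro s hs
    rw [uIcc_of_le ht.1] at hs
    have h0 : (0:ℝ) ≤ s := (Nat.cast_nonneg j).trans hs.1
    have hm : s ∈ Icc (j:ℝ) ((j:ℝ) + 1) := ⟨hs.1, hs.2.trans ht.2⟩
    simp only
    rw [hv1e s h0, hve j hm, hx1e s h0, hxe j hm]
  have hpd : ∀ t, 0 < t → HasDerivAt (fun t => lu (x1 t) (v1 t) t) (lx (x1 t) (v1 t) t) t := by
    intro t ht
    have h1 := (intervalIntegral.integral_hasDerivAt_right (hFc.intervalIntegrable 0 t)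
      (hFc.stronglyMeasurableAtFilter _ _) hFc.continuousAt).const_add (lu (x 0) (v 0) 0)
    refine h1.congr_of_eventuallyEq ?_
    filter_upwards [lt_mem_nhds ht] with s hs
    rw [hv1e s hs.le, hx1e s hs.le]
    exact hpi s hs.le
  refine ⟨x1, v1, fun t _ => hx1d t, hv1c.continuousOn, hpd, ?_, ?_⟩
  · intro j
    rw [hx1e _ (Nat.cast_nonneg j), hxe j (hmemj j), hZ0]
  · intro j
    have h1 := hVa j
    rw [hZ0, hZ1, hnat] at h1
    rw [← h1]
    apply intervalIntegral.integral_congr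
    intro s hs
    rw [uIcc_of_le (hj1 j).le] at hs
    have h0 : (0:ℝ) ≤ s := (Nat.cast_nonneg j).trans hs.1
    simp only
    rw [hv1e s h0, hve j hs, hx1e s h0, hxe j hs]

end EscF
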