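import Pool.Agent.EscF.Flat
import Pool.Agent.EscF.Lift
import Pool.Agent.EscF.O6

/-!
Escape from the stages.
-/

noncomputable section

namespace EscF

open MeasureTheory Set Filter Topology Esc EscN
open scoped ContDiff

set_option linter.unusedSectionVars false

variable {d : ℕ} {E : Type*} [NormedAddCommGroup E] [InnerProductSpace ℝ E] [FiniteDimensional ℝ E]
  (L : SpL d E)

/-- larger constants -/
theorem fin_ck_mono {l : E → E → ℝ → ℝ} {lu : E → E → ℝ → E} {v0 : E} {m Λ Λ' : ℝ} (h : CK l lu v0 m Λ)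
    (hle : Λ ≤ Λ') : CK l lu v0 m Λ' where
  m_pos := h.m_pos
  Λ_ge := h.Λ_ge.trans hle
  low := h.low
  upp := fun x u v t => (h.upp x u v t).trans (by
    have := mul_le_mul_of_nonneg_right hle (sq_nonneg ‖u - v‖)
    linarith)
  l_x := fun x x' v t => (h.l_x x x' v t).trans (mul_le_mul_of_nonneg_right hle (norm_nonneg _))
  l_t := fun x v t t' => (h.l_t x v t t').trans (mul_le_mul_of_nonneg_right hle (abs_nonneg _))
  lu_lip := fun x v t x' v' t' => (h.lu_lip x v t x' v' t').trans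
    (mul_le_mul_of_nonneg_right hle (by positivity))
  c0 := fun x t => (h.c0 x t).trans hle
  c1 := fun x t => (h.c1 x t).trans hle

section second

variable {W : Type*} [NormedAddCommGroup W] [NormedSpace ℝ W]

/-- norm of the second derivative -/
def fin_snd2 (F : W → ℝ) (p : W) : ℝ := ‖fderiv ℝ (fderiv ℝ F) p‖

/-- invariance of the second derivative under translations -/
theorem fin_snd_inv {F : W → ℝ} (c : W) (h : ∀ p, F (p + c) = F p) (p : W) :
    fin_snd2 F (p + c) = fin_snd2 F p := by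
  have h1 : ∀ p, fderiv ℝ F (p + c) = fderiv ℝ F p := by
    intro p
    rw [← fderiv_comp_add_right]
    congr 1
    funext q
    exact h q
  unfold fin_snd2
  rw [← fderiv_comp_add_right]
  congr 2
  funext q
  exact h1 q

/-- a `C^1` map with bounded derivative is Lipschitz -/
theorem fin_lip_of_snd {F : W → ℝ} (hF : ContDiff ℝ 2 F) {K : ℝ}
    (h : ∀ p, fin_snd2 F p ≤ K) (p q : W) :
    ‖fderiv ℝ F p - fderiv ℝ F q‖ ≤ K * ‖p - q‖ := by
  have h1 : ContDiff ℝ 1 (fderiv ℝ F) := hF.fderiv_right (by norm_num)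
  exact Convex.norm_image_sub_le_of_norm_fderiv_le (s := univ)
    (fun z _ => (h1.differentiable (by norm_num)) z) (fun z _ => h z) convex_univ (mem_univ q)
    (mem_univ p)

theorem fin_cont_snd {F : W → ℝ} (hF : ContDiff ℝ 2 F) : Continuous (fin_snd2 F) := by
  have h1 : ContDiff ℝ 1 (fderiv ℝ F) := hF.fderiv_right (by norm_num)
  exact (h1.continuous_fderiv (by norm_num)).norm

end second

theorem fin_pot_snd {f : E → ℝ → ℝ} (hf : L.IsPot f) : ∃ K : ℝ, ∀ p : E × ℝ,
    fin_snd2 (fun p : E × ℝ => f p.1 p.2) p ≤ K := by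
  set F : E × ℝ → ℝ := fun p => f p.1 p.2 with hFdef
  have hF2 : ContDiff ℝ 2 F := hf.smooth
  set G : E → ℝ → ℝ := fun x t => fin_snd2 F (x, t) with hG
  have hGc : Continuous (fun p : E × ℝ => G p.1 p.2) := fin_cont_snd hF2
  have hdk : ∀ n x t, G x t = G (L.dk n x) t := by
    intro n x t
    have := fin_snd_inv (F := F) (L.lv n, 0) (fun p => by
      show f (p.1 + L.lv n) (p.2 + 0) = f p.1 p.2
      rw [add_zero, ← dk_eq, hf.perd]) (x, t)
    show fin_snd2 F (x, t) = fin_snd2 F (L.dk n x, t)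
    rw [dk_eq, ← this, Prod.mk_add_mk, add_zero]
  have hgd : ∀ x t, G x t = G (L.gd x) t := by
    intro x t
    have := fin_snd_inv (F := F) (L.g, 0) (fun p => by
      show f (p.1 + L.g) (p.2 + 0) = f p.1 p.2
      rw [add_zero, ← gd_eq, hf.perg]) (x, t)
    show fin_snd2 F (x, t) = fin_snd2 F (L.gd x, t)
    rw [gd_eq, ← this, Prod.mk_add_mk, add_zero]
  have hgi : ∀ x t, G x t = G (L.gi x) t := by
    intro x t
    have := hgd (L.gi x) t
    rw [gd_gi] at this
    exact this.symm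
  have hpt : ∀ (m : ℤ) (x : E) (t : ℝ), G x t = G x (t + m) := by
    intro m x t
    have h1 : ∀ (m : ℤ) (x : E) (t : ℝ), f x (t + m) = f x t := by
      intro m x
      have h2 : Function.Periodic (f x) 1 := hf.pert x
      intro t
      have := h2.int_mul m t
      rwa [mul_one] at this
    have := fin_snd_inv (F := F) (0, (m : ℝ)) (fun p => by
      show f (p.1 + 0) (p.2 + m) = f p.1 p.2
      rw [add_zero, h1]) (x, t)
    show fin_snd2 F (x, t) = fin_snd2 F (x, t + m)
    rw [← this, Prod.mk_add_mk, add_zero]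
  set ρ : ℝ := (∑ i, ‖L.b i‖) + 1 + L.R0 with hρ
  obtain ⟨C, hC⟩ := ((isCompact_closedBall (0 : E) ρ).prod
    (isCompact_Icc (a := (0 : ℝ)) (b := 1))).bddAbove_image (f := fun p : E × ℝ => G p.1 p.2)
    hGc.continuousOn
  refine ⟨C, fun p => ?_⟩
  obtain ⟨x', h1, h2, h3⟩ := exists_dom L.toSp (fun n x t => (hdk n x t).le) (fun x t => (hgd x t).le)
    (fun x t => (hgi x t).le) p.1
  have hQ : ‖L.Q p.1‖ ≤ L.R0 := L.S_bd p.1 (mem_S L p.1)
  have h4 : G x' (p.2 + (-⌊p.2⌋ : ℤ)) ≤ C := by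
    refine hC ⟨(x', p.2 + (-⌊p.2⌋ : ℤ)), ⟨?_, ?_, ?_⟩, rfl⟩
    · simp only [Metric.mem_closedBall, dist_zero_right]
      linarith
    · push_cast
      linarith [Int.floor_le p.2]
    · push_cast
      linarith [Int.lt_floor_add_one p.2]
  calc fin_snd2 F p = G p.1 p.2 := rfl
    _ ≤ G x' p.2 := h3 p.2
    _ = G x' (p.2 + (-⌊p.2⌋ : ℤ)) := hpt _ _ _
    _ ≤ C := h4

/-- the gradient of a potential -/
theorem fin_pot_grad {M : ℝ} {f : E → ℝ → ℝ} (hf : L.IsPot f) (hM : Good M f) :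
    ∃ (G : E → ℝ → E) (K : ℝ), 0 ≤ K ∧ (∀ x t ξ, inner ℝ (G x t) ξ = fderiv ℝ (fun z => f z t) x ξ) ∧
      (∀ x t, ‖G x t‖ ≤ M) ∧ (∀ x t x' t', ‖G x t - G x' t'‖ ≤ K * (‖x - x'‖ + |t - t'|)) ∧
      ∀ x x' t, |f x' t - f x t - inner ℝ (G x t) (x' - x)| ≤ K * ‖x' - x‖ ^ 2 := by
  have : CompleteSpace E := FiniteDimensional.complete ℝ E
  obtain ⟨K0, hK0⟩ := fin_pot_snd L hf
  set F : E × ℝ → ℝ := fun p => f p.1 p.2 with hFdef
  have hF2 : ContDiff ℝ 2 F := hf.smooth
  have hFd : Differentiable ℝ F := hF2.differentiable (by norm_num)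
  set K : ℝ := max K0 0 with hK
  have hK' : ∀ p q : E × ℝ, ‖fderiv ℝ F p - fderiv ℝ F q‖ ≤ K * ‖p - q‖ := fun p q =>
    fin_lip_of_snd hF2 (fun p => (hK0 p).trans (le_max_left _ _)) p q
  have hpart : ∀ x t, HasFDerivAt (fun z => f z t)
      ((fderiv ℝ F (x, t)).comp (ContinuousLinearMap.inl ℝ E ℝ)) x := by
    intro x t
    have h1 : HasFDerivAt F (fderiv ℝ F (x, t)) (x, t) := (hFd (x, t)).hasFDerivAt
    exact HasFDerivAt.comp (g := F) (f := fun z : E => (z, t)) x h1 (hasFDerivAt_prodMk_left x t)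
  set G : E → ℝ → E := fun x t => (InnerProductSpace.toDual ℝ E).symm (fderiv ℝ (fun z => f z t) x)
    with hG
  have hGi : ∀ x t ξ, inner ℝ (G x t) ξ = fderiv ℝ (fun z => f z t) x ξ := by
    intro x t ξ
    rw [hG]
    exact InnerProductSpace.toDual_symm_apply
  have hGl : ∀ x t x' t', ‖G x t - G x' t'‖ ≤ K * (‖x - x'‖ + |t - t'|) := by
    intro x t x' t'
    have h1 : ‖G x t - G x' t'‖ = ‖fderiv ℝ (fun z => f z t) x - fderiv ℝ (fun z => f z t') x'‖ := by
      rw [hG]
      simp only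
      rw [← map_sub, LinearIsometryEquiv.norm_map]
    rw [h1]
    refine ContinuousLinearMap.opNorm_le_bound _ (by positivity) fun ξ => ?_
    have h2 : (fderiv ℝ (fun z => f z t) x - fderiv ℝ (fun z => f z t') x') ξ =
        (fderiv ℝ F (x, t) - fderiv ℝ F (x', t')) (ξ, 0) := by
      rw [(hpart x t).fderiv, (hpart x' t').fderiv]
      rfl
    rw [h2]
    refine (ContinuousLinearMap.le_opNorm _ _).trans ?_
    have h3 : ‖((ξ, 0) : E × ℝ)‖ = ‖ξ‖ := by
      rw [Prod.norm_mk, norm_zero, max_eq_left (norm_nonneg _)]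
    rw [h3]
    refine mul_le_mul_of_nonneg_right ((hK' _ _).trans ?_) (norm_nonneg _)
    refine mul_le_mul_of_nonneg_left ?_ (le_max_right _ _)
    rw [Prod.mk_sub_mk, Prod.norm_mk, Real.norm_eq_abs]
    exact max_le (by linarith [abs_nonneg (t - t')]) (by linarith [norm_nonneg (x - x')])
  refine ⟨G, K, le_max_right _ _, hGi, ?_, hGl, ?_⟩
  · intro x t
    have h1 : ‖G x t‖ = ‖fderiv ℝ (fun z => f z t) x‖ := by
      rw [hG]
      exact LinearIsometryEquiv.norm_map _ _
    rw [h1]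
    apply norm_fderiv_le_of_lip' ℝ hM.pos
    exact Filter.Eventually.of_forall fun z' => by
      have := hM.lipx z' x t
      simpa [Real.norm_eq_abs] using this
  · intro x x' t
    have h1 : ∀ y ∈ Metric.closedBall x ‖x' - x‖, HasFDerivWithinAt
        (fun y => f y t - inner ℝ (G x t) y) (innerSL ℝ (G y t) - innerSL ℝ (G x t))
        (Metric.closedBall x ‖x' - x‖) y := by
      intro y _
      have h2 : HasFDerivAt (fun z => f z t) (innerSL ℝ (G y t)) y := by
        have h3 := hpart y t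
        convert h3 using 1
        ext ξ
        rw [innerSL_apply_apply, hGi, h3.fderiv]
      have h3 : HasFDerivAt (fun y => inner ℝ (G x t) y) (innerSL ℝ (G x t)) y :=
        (innerSL ℝ (G x t)).hasFDerivAt
      exact (h2.sub h3).hasFDerivWithinAt
    have h2 : ∀ y ∈ Metric.closedBall x ‖x' - x‖, ‖innerSL ℝ (G y t) - innerSL ℝ (G x t)‖ ≤
        K * ‖x' - x‖ := by
      intro y hy
      rw [← map_sub, innerSL_apply_norm]
      refine (hGl y t x t).trans ?_
      rw [sub_self, abs_zero, add_zero]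
      refine mul_le_mul_of_nonneg_left ?_ (le_max_right _ _)
      simpa [dist_eq_norm] using hy
    have h3 := Convex.norm_image_sub_le_of_norm_hasFDerivWithin_le h1 h2
      (convex_closedBall x ‖x' - x‖) (Metric.mem_closedBall_self (norm_nonneg _))
      (show x' ∈ Metric.closedBall x ‖x' - x‖ by simp [dist_eq_norm])
    rw [Real.norm_eq_abs] at h3
    have e : f x' t - inner ℝ (G x t) x' - (f x t - inner ℝ (G x t) x) =
        f x' t - f x t - inner ℝ (G x t) (x' - x) := by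
      rw [inner_sub_right]
      ring
    rw [e] at h3
    calc _ ≤ _ := h3
      _ = _ := by ring

/-- the Lagrangian `l + f` -/
theorem lf_cl {M : ℝ} {f : E → ℝ → ℝ} (hf : L.IsPot f) (hM : Good M f) :
    ∃ (G : E → ℝ → E) (Λ' : ℝ), (∀ x t ξ, inner ℝ (G x t) ξ = fderiv ℝ (fun z => f z t) x ξ) ∧
      CL (L.lf f) (fun x v t => L.lx x v t + G x t) L.lu 0 L.m Λ' := by
  obtain ⟨G, K, hK, hGi, hGb, hGl, hGt⟩ := fin_pot_grad L hf hM
  have hM0 := hM.pos
  have hL0 : 0 ≤ L.Λ := zero_le_one.trans L.Λ_ge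
  have hh0 := abs_nonneg (L.h 0)
  have hg0 := norm_nonneg (L.gh 0)
  refine ⟨G, L.Λ + M + |L.h 0| + ‖L.gh 0‖ + K, hGi, ⟨fin_ck_mono (lf_ck L hM) (by linarith), ?_, ?_, ?_⟩⟩
  · intro x v x' v' t
    have h1 := L.l_tay x v x' v' t
    have h2 := hGt x x' t
    have e : L.lf f x' v' t - L.lf f x v t - inner ℝ (L.lx x v t + G x t) (x' - x) -
        inner ℝ (L.lu x v t) (v' - v) =
        (L.l x' v' t - L.l x v t - inner ℝ (L.lx x v t) (x' - x) - inner ℝ (L.lu x v t) (v' - v)) +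
        (f x' t - f x t - inner ℝ (G x t) (x' - x)) := by
      unfold SpL.lf
      rw [inner_add_left]
      ring
    rw [e]
    refine (abs_add_le _ _).trans ((add_le_add h1 h2).trans ?_)
    have h3 : ‖x' - x‖ ^ 2 ≤ (‖x' - x‖ + ‖v' - v‖) ^ 2 := by
      apply pow_le_pow_left₀ (norm_nonneg _)
      linarith [norm_nonneg (v' - v)]
    have h4 := mul_le_mul_of_nonneg_left h3 hK
    have h5 : 0 ≤ (M + |L.h 0| + ‖L.gh 0‖) * (‖x' - x‖ + ‖v' - v‖) ^ 2 := by positivity
    nlinarith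
  · intro x v t
    refine (norm_add_le _ _).trans ?_
    have := L.lx_bd x v t
    have := hGb x t
    linarith
  · intro x v t x' v' t'
    have e : L.lx x v t + G x t - (L.lx x' v' t' + G x' t') =
        (L.lx x v t - L.lx x' v' t') + (G x t - G x' t') := by abel
    rw [e]
    refine (norm_add_le _ _).trans ((add_le_add (L.lx_lip x v t x' v' t') (hGl x t x' t')).trans ?_)
    have h3 : ‖x - x'‖ + |t - t'| ≤ ‖x - x'‖ + ‖v - v'‖ + |t - t'| := by
      linarith [norm_nonneg (v - v')]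
    have h4 := mul_le_mul_of_nonneg_left h3 hK
    have h5 : 0 ≤ (M + |L.h 0| + ‖L.gh 0‖) * (‖x - x'‖ + ‖v - v'‖ + |t - t'|) := by positivity
    nlinarith

/-- strong monotonicity of the gradient of the kinetic energy -/
theorem fin_gh_mono (u v : E) : L.m * ‖u - v‖ ≤ ‖L.gh u - L.gh v‖ := by
  have h1 := L.h_low u v
  have h2 := L.h_low v u
  have h3 : inner ℝ (L.gh u - L.gh v) (u - v) ≤ ‖L.gh u - L.gh v‖ * ‖u - v‖ :=
    real_inner_le_norm _ _
  have h4 : inner ℝ (L.gh u) (v - u) = -inner ℝ (L.gh u) (u - v) := by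
    rw [← inner_neg_right, neg_sub]
  rw [h4, norm_sub_rev v u] at h2
  rw [inner_sub_left] at h3
  rcases eq_or_lt_of_le (norm_nonneg (u - v)) with h | h
  · rw [← h, mul_zero]
    exact norm_nonneg _
  · have h5 : L.m * ‖u - v‖ * ‖u - v‖ ≤ ‖L.gh u - L.gh v‖ * ‖u - v‖ := by nlinarith
    exact le_of_mul_le_mul_right h5 h

theorem escapes_of_stages (_hd : 0 < d) {p β M0 : ℝ} {f : E → ℝ → ℝ} (hf : L.IsPot f)
    (hD : L.Dat p β M0 f) (hS : ∀ q : ℕ, M0 ≤ q → L.Stage p β q f) : L.Escapes f := by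
  obtain ⟨M, hM⟩ := isPot_good L.toSp hf
  obtain ⟨σ, I, cc, D, hC⟩ := exists_chn L hf hS
  obtain ⟨w, ν, B, hν, hwS, hmin, hB⟩ := exists_seq L hf hD hC
  obtain ⟨G, Λ', hGi, hcl⟩ := lf_cl L hf hM
  obtain ⟨x, v, hx, hv, hel, hxw, hact⟩ := orbit_of_sitewise hcl (fun x v t => by
    unfold SpL.lf
    rw [L.l_per, hf.pert]) w hmin
  have hM0 := hM.pos
  have hm := L.m_pos
  have hL0 : 0 ≤ L.Λ := zero_le_one.trans L.Λ_ge
  have hΛ' : 0 ≤ Λ' := zero_le_one.trans hcl.Λ_ge
  have hvc : ContinuousOn v (Ioi 0) := hv.mono Ioi_subset_Ici_self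
  have hxc : ContinuousOn x (Ioi 0) := fun t ht => (hx t ht).continuousAt.continuousWithinAt
  have hlc := hcl.toCK.cont
  -- the momentum is Lipschitz
  have hlip : ∀ s t, 0 < s → 0 < t →
      ‖L.lu (x s) (v s) s - L.lu (x t) (v t) t‖ ≤ Λ' * |s - t| := by
    intro s t hs ht
    have := Convex.norm_image_sub_le_of_norm_hasDerivWithin_le
      (f := fun t => L.lu (x t) (v t) t) (C := Λ')
      (fun r hr => (hel r hr).hasDerivWithinAt) (fun r _ => hcl.lx_bd (x r) (v r) r)
      (convex_Ioi 0) (mem_Ioi.2 ht) (mem_Ioi.2 hs)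
    simpa [Real.norm_eq_abs] using this
  -- energy estimate on unit intervals
  have hen : ∀ j : ℕ, 0 < j → ∫ t in (j:ℝ)..(j+1), L.m / 2 * ‖v t - L.vel (σ (ν j))‖ ^ 2 ≤
      B + L.Λ + M := by
    intro j hj
    have hj' : (0:ℝ) < j := by exact_mod_cast hj
    have hsub : uIcc (j:ℝ) (j+1) ⊆ Ioi 0 := by
      rw [uIcc_of_le (by linarith)]
      intro t ht
      exact lt_of_lt_of_le hj' ht.1
    have hvc' : ContinuousOn v (uIcc (j:ℝ) (j+1)) := hvc.mono hsub
    have hxc' : ContinuousOn x (uIcc (j:ℝ) (j+1)) := hxc.mono hsub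
    set s := σ (ν j) with hs
    have hint1 : IntervalIntegrable (fun t => L.lf f (x t) (v t) t) volume (j:ℝ) (j+1) :=
      (hlc.comp_continuousOn (hxc'.prodMk (hvc'.prodMk continuousOn_id))).intervalIntegrable
    have hint2 : IntervalIntegrable (fun t => inner ℝ (L.mom s) (v t)) volume (j:ℝ) (j+1) :=
      (continuousOn_const.inner hvc').intervalIntegrable
    have hint3 : IntervalIntegrable (fun t => L.m / 2 * ‖v t - L.vel s‖ ^ 2) volume (j:ℝ) (j+1) :=
      (continuousOn_const.mul ((hvc'.sub continuousOn_const).norm.pow 2)).intervalIntegrable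
    have hFTC : ∫ t in (j:ℝ)..(j+1), inner ℝ (L.mom s) (v t) = inner ℝ (L.mom s) (w (j + 1) - w j) := by
      have h1 : ∫ t in (j:ℝ)..(j+1), v t = x (j + 1) - x j :=
        intervalIntegral.integral_eq_sub_of_hasDerivAt (fun t ht => hx t (hsub ht)) hvc'.intervalIntegrable
      have h3 : ∫ t in (j:ℝ)..(j+1), inner ℝ (L.mom s) (v t) =
          inner ℝ (L.mom s) (∫ t in (j:ℝ)..(j+1), v t) :=
        (innerSL ℝ (L.mom s)).intervalIntegral_comp_comm hvc'.intervalIntegrable
      rw [h3, h1]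
      have h4 : x ((j:ℝ) + 1) = w (j + 1) := by
        have := hxw (j + 1)
        push_cast at this
        exact this
      rw [h4, hxw j]
    have hpw : ∀ t, L.m / 2 * ‖v t - L.vel s‖ ^ 2 ≤ L.lf f (x t) (v t) t - inner ℝ (L.mom s) (v t) +
        (L.Λ + M - (L.h (L.vel s) - inner ℝ (L.mom s) (L.vel s))) := by
      intro t
      have h1 := lag_lower L hM s (x t) (v t) t
      unfold SpL.lag at h1
      rw [inner_sub_right] at h1
      unfold SpL.lf
      linarith
    have hmono : ∫ t in (j:ℝ)..(j+1), L.m / 2 * ‖v t - L.vel s‖ ^ 2 ≤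
        ∫ t in (j:ℝ)..(j+1), (L.lf f (x t) (v t) t - inner ℝ (L.mom s) (v t) +
        (L.Λ + M - (L.h (L.vel s) - inner ℝ (L.mom s) (L.vel s)))) :=
      intervalIntegral.integral_mono_on (by linarith) hint3
        ((hint1.sub hint2).add intervalIntegrable_const) (fun t _ => hpw t)
    rw [intervalIntegral.integral_add (hint1.sub hint2) intervalIntegrable_const,
      intervalIntegral.integral_sub hint1 hint2, hact j, hFTC, intervalIntegral.integral_const] at hmono
    have hg := ker_eq L hM s (a := 0) (b := 1) one_pos (w j) (w (j + 1))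
    have hBj := hB j
    rw [← hs, hg] at hBj
    have h5 : ((j:ℝ) + 1 - j) = 1 := by ring
    rw [h5, one_smul] at hmono
    linarith
  -- pointwise estimate
  set r : ℝ := Real.sqrt (2 * (B + L.Λ + M) / L.m) with hr
  have hpt : ∀ j : ℕ, 0 < j → ∀ t ∈ Icc (j:ℝ) (j+1),
      ‖v t - L.vel (σ (ν j))‖ ≤ (2 * L.Λ + Λ') / L.m + r := by
    intro j hj t ht
    have hj' : (0:ℝ) < j := by exact_mod_cast hj
    set V := L.vel (σ (ν j)) with hV
    obtain ⟨t0, ht0, h0⟩ : ∃ t0 ∈ Icc (j:ℝ) (j+1), L.m / 2 * ‖v t0 - V‖ ^ 2 ≤ B + L.Λ + M := by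
      by_contra hcon
      push Not at hcon
      have hc : ContinuousOn (fun t => L.m / 2 * ‖v t - V‖ ^ 2) (Icc (j:ℝ) (j+1)) := by
        have h1 : ContinuousOn v (Icc (j:ℝ) (j+1)) :=
          hvc.mono fun t ht => lt_of_lt_of_le hj' ht.1
        exact continuousOn_const.mul ((h1.sub continuousOn_const).norm.pow 2)
      have h1 : ∫ t in (j:ℝ)..(j+1), (B + L.Λ + M) < ∫ t in (j:ℝ)..(j+1), L.m / 2 * ‖v t - V‖ ^ 2 := by
        apply intervalIntegral.integral_lt_integral_of_continuousOn_of_le_of_exists_lt (by linarith)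
          continuousOn_const hc
        · intro t ht'
          exact (hcon t (Ioc_subset_Icc_self ht')).le
        · exact ⟨j, left_mem_Icc.2 (by linarith), hcon j (left_mem_Icc.2 (by linarith))⟩
      rw [intervalIntegral.integral_const] at h1
      have h5 : ((j:ℝ) + 1 - j) = 1 := by ring
      rw [h5, one_smul] at h1
      exact absurd (hen j hj) (not_le.2 h1)
    have h1 : ‖v t0 - V‖ ≤ r := by
      apply Real.le_sqrt_of_sq_le
      rw [le_div_iff₀ hm]
      linarith
    have h2 : ‖L.lu (x t) (v t) t - L.lu (x t0) (v t0) t0‖ ≤ Λ' := by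
      refine (hlip t t0 (lt_of_lt_of_le hj' ht.1) (lt_of_lt_of_le hj' ht0.1)).trans ?_
      have : |t - t0| ≤ 1 := by
        rw [abs_le]; constructor <;> linarith [ht.1, ht.2, ht0.1, ht0.2]
      nlinarith [abs_nonneg (t - t0)]
    have h3 : ‖L.gh (v t) - L.gh (v t0)‖ ≤ 2 * L.Λ + Λ' := by
      have e : L.gh (v t) - L.gh (v t0) = -(L.lu (x t) (v t) t - L.gh (v t)) +
          (L.lu (x t) (v t) t - L.lu (x t0) (v t0) t0) + (L.lu (x t0) (v t0) t0 - L.gh (v t0)) := by
        abel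
      rw [e]
      refine norm_add₃_le.trans ?_
      rw [norm_neg]
      have a1 := L.lu_h (x t) (v t) t
      have a2 := L.lu_h (x t0) (v t0) t0
      linarith
    have h4 : ‖v t - v t0‖ ≤ (2 * L.Λ + Λ') / L.m := by
      rw [le_div_iff₀ hm, mul_comm]
      exact (fin_gh_mono L _ _).trans h3
    have e : v t - V = (v t - v t0) + (v t0 - V) := by abel
    rw [e]
    exact (norm_add_le _ _).trans (add_le_add h4 h1)
  -- the first interval
  obtain ⟨C0, hC0⟩ := (isCompact_Icc (a := (0:ℝ)) (b := 1)).exists_bound_of_continuousOn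
    (f := fun t => v t - L.vel (σ (ν 0))) ((hv.mono Icc_subset_Ici_self).sub continuousOn_const)
  refine ⟨x, v, fun t => G (x t) t, fun t => σ (ν ⌊t⌋₊), max C0 ((2 * L.Λ + Λ') / L.m + r), hx, hvc,
    fun t _ ξ => hGi (x t) t ξ, hel, ?_, ?_⟩
  · exact (hC.tend.comp hν).comp tendsto_nat_floor_atTop
  · intro t ht
    rcases Nat.eq_zero_or_pos ⌊t⌋₊ with h | h
    · simp only [h]
      refine (hC0 t ⟨ht.le, ?_⟩).trans (le_max_left _ _)
      exact (Nat.floor_eq_zero.1 h).le
    · exact (hpt _ h t ⟨Nat.floor_le ht.le, (Nat.lt_floor_add_one t).le⟩).trans (le_max_right _ _)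

end EscF
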