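import Pool.Agent.EscN.K2b
import Pool.Agent.EscF.K2

/-!
Project EscF, periodic kernel, second part: locality, cells.
-/

noncomputable section

namespace EscF

open MeasureTheory Set Filter Topology Esc EscN
open scoped ContDiff

variable {d : ℕ} {E : Type*} [NormedAddCommGroup E] [InnerProductSpace ℝ E] [FiniteDimensional ℝ E]
  (L : SpL d E)

/-- Locality / growth lemma. Near-minimizers of `f'` stay in the tube of radius
`sqrt (tb B M * w)` around the free motion during `[0,w]` and `[1-w,1]`. -/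
theorem kbar_tube {M B : ℝ} {f f' : E → ℝ → ℝ} (hf : Good M f) (hf' : Good M f')
    (hp : ∀ n x t, f (L.dk n x) t = f x t) (hp' : ∀ n x t, f' (L.dk n x) t = f' x t)
    (s : ℝ) {z z' : E} (hz : z ∈ L.S) (hz' : z' ∈ L.S)
    (hB : L.kbar f' s z z' ≤ B) {w : ℝ} (hw : 0 < w) (hw' : w < 1 / 2)
    (κ : ℝ → ℝ) (hκ : IntervalIntegrable κ volume 0 1)
    (h0 : ∀ t ∈ Icc 0 w, ∀ r : E, ‖r‖ ≤ Real.sqrt (L.tb B M * w) →
      f (z + t • L.vel s + r) t + κ t ≤ f' (z + t • L.vel s + r) t)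
    (h1 : ∀ t ∈ Icc (1 - w) 1, ∀ r : E, ‖r‖ ≤ Real.sqrt (L.tb B M * w) →
      f (z' - (1 - t) • L.vel s + r) t + κ t ≤ f' (z' - (1 - t) • L.vel s + r) t)
    (hm : ∀ t ∈ Ioo w (1 - w), ∀ x, f x t + κ t ≤ f' x t) :
    L.kbar f s z z' + ∫ t in (0:ℝ)..1, κ t ≤ L.kbar f' s z z' := by
  apply le_of_forall_pos_le_add
  intro ε hε
  obtain ⟨n, hn⟩ := kbar_attained L hf' s hz hz'
  have hdz' : L.dk n z' ∈ L.S := (S_dk L.toSp n).2 hz'
  obtain ⟨u, hu, hS, hzu, hact⟩ := exists_act_lt L hf' s one_pos hz hdz'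
    (lt_min hε one_pos)
  rw [← hn] at hact
  have hact1 : L.act f' s 0 1 z u ≤ B + 1 := by linarith [min_le_right ε 1]
  have hact2 : L.act f' s 0 1 z u ≤ L.kbar f' s z z' + ε := by linarith [min_le_left ε 1]
  have h2a := ker_le_act L hf s one_pos z hu hS
  rw [hzu] at h2a
  have h2 := (kbar_le_ker L hf s hz hz' n).trans h2a
  have h3 : (∫ t in (0:ℝ)..1, f (traj 0 z u t) t) + (∫ t in (0:ℝ)..1, κ t)
      ≤ ∫ t in (0:ℝ)..1, f' (traj 0 z u t) t := by
    rw [← intervalIntegral.integral_add (f_traj_ii hf hu 0 z 0 1) hκ]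
    apply intervalIntegral.integral_mono_on zero_le_one ((f_traj_ii hf hu 0 z 0 1).add hκ)
      (f_traj_ii hf' hu 0 z 0 1)
    intro t ht
    by_cases hA : t ≤ w
    · have h4 := near_start L hf' hu hact1 (by linarith) (t := t) ⟨ht.1, hA⟩
      have h5 := h0 t ⟨ht.1, hA⟩ _ h4
      have e : z + t • L.vel s + (traj 0 z u t - (z + t • L.vel s)) = traj 0 z u t := by abel
      rwa [e] at h5
    by_cases hB' : 1 - w ≤ t
    · have h4 := near_end L hf' hu hact1 (by linarith) (t := t) ⟨hB', ht.2⟩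
      rw [hzu] at h4
      have hinv : L.dk (-n) (L.dk n z') = z' := by
        rw [← dk_add, neg_add_cancel, dk_zero]
      have hW : L.Q (-((1 - t) • L.vel s)) = 0 := by
        rw [← neg_smul, k2_Q_smul, Q_vel, smul_zero]
      have e1 : L.dk (-n) (L.dk n z' - (1 - t) • L.vel s) = z' - (1 - t) • L.vel s := by
        rw [sub_eq_add_neg, dk_add_W L.toSp (-n) _ _ hW, hinv, ← sub_eq_add_neg]
      have h6 : ‖L.dk (-n) (traj 0 z u t) - (z' - (1 - t) • L.vel s)‖ ≤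
          Real.sqrt (L.tb B M * w) := by
        rw [← e1, ← dist_eq_norm, dist_dk, dist_eq_norm]
        exact h4
      have h5 := h1 t ⟨hB', ht.2⟩ _ h6
      have e : z' - (1 - t) • L.vel s + (L.dk (-n) (traj 0 z u t) - (z' - (1 - t) • L.vel s))
          = L.dk (-n) (traj 0 z u t) := by abel
      rwa [e, hp, hp'] at h5
    · exact hm t ⟨not_le.mp hA, not_le.mp hB'⟩ _
  rw [act_eq L hf _ _ _ _ hu] at h2
  rw [act_eq L hf' _ _ _ _ hu] at hact2
  linarith

/-- hence the standing assumptions of module D -/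
theorem kd_kbar (M : ℝ) : ∃ B Λ : ℝ, 0 < B ∧ 0 < Λ ∧ ∀ f : E → ℝ → ℝ, Good M f →
    (∀ n x t, f (L.dk n x) t = f x t) → ∀ s p : ℝ,
    KD (L.kbar f s) (L.cell p) (L.room p) B Λ := by
  obtain ⟨B, Λ, hB, hΛ, h⟩ := kbar_bd_lip L M
  refine ⟨B, Λ, hB, hΛ, fun f hf hp s p => ?_⟩
  obtain ⟨h1, h2⟩ := h f hf hp s
  have hroom : ∀ z ∈ L.room p, ∀ z' ∈ L.room p, |L.y z - L.y z'| ≤ 2 := by
    intro z hz z' hz'
    have a1 := abs_le.mp (show |L.y z - p| ≤ 7 / 8 from hz.2)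
    have a2 := abs_le.mp (show |L.y z' - p| ≤ 7 / 8 from hz'.2)
    rw [abs_le]; constructor <;> linarith [a1.1, a1.2, a2.1, a2.2]
  refine ⟨EscN.cell_subset L.toSp p, EscN.cell_compact L.toSp p, EscN.cell_nonempty L.toSp p,
    fun z hz z' hz' => h1 z hz.1 z' hz'.1 (hroom z hz z' hz'),
    fun z hz w hw z' hz' w' hw' => h2 z hz.1 z' hz'.1 w hw.1 w' hw'.1 (hroom z hz z' hz') (hroom w hw w' hw'), ?_⟩
  intro z hz
  obtain ⟨n, hn⟩ := EscN.exists_dk_cell L.toSp p z hz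
  refine ⟨_, hn, fun x _ => ⟨?_, ?_⟩⟩
  · have := kbar_per L hp s z x n 0
    rw [dk_zero] at this
    exact this.symm
  · have := kbar_per L hp s x z 0 n
    rw [dk_zero] at this
    exact this.symm

end EscF
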