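import Pool.Agent.EscF.K
import Pool.Agent.EscF.K2
import Pool.Agent.EscF.K2b
import Pool.Agent.EscN.Flat
import Pool.Agent.helper33.Esc.Seg

/-!
Concatenation of the stages into one sequence of gates.
-/

set_option linter.unusedSectionVars false

noncomputable section

namespace EscF

open MeasureTheory Set Filter Topology Esc Esc.H33 EscN

variable {d : ℕ} {E : Type*} [NormedAddCommGroup E] [InnerProductSpace ℝ E] [FiniteDimensional ℝ E]
  (L : SpL d E)

/-- the chain data -/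
structure Chn (p β M0 : ℝ) (f : E → ℝ → ℝ) (σ : ℕ → ℝ) (I : ℕ → Finset (ℕ × ℕ)) (cc : ℕ → ℕ × ℕ → ℝ)
    (D : ℕ → Set E) : Prop where
  ne : ∀ n, (I n).Nonempty
  le : ∀ n, ∀ q ∈ I n, 2 * Lat.R1 β + 2 ≤ q.1 + q.2
  comp : ∀ n, IsCompact (D n)
  Dne : ∀ n, (D n).Nonempty
  sub : ∀ n, D n ⊆ L.S
  strip : ∀ n, ∀ z ∈ D n, 1 / 4 ≤ L.y z - p ∧ L.y z - p ≤ 3 / 4
  M0le : ∀ n, M0 ≤ σ n
  tend : Tendsto σ atTop atTop
  gate : ∀ n, ∀ z ∈ L.fr (D (n + 1)), ∃ w ∈ D (n + 1), ∀ x ∈ L.room p, ∀ x' ∈ L.room p,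
    gI (L.kbar f (σ n)) (L.cell p) (I n) (cc n) x w
      + gI (L.kbar f (σ (n + 1))) (L.cell p) (I (n + 1)) (cc (n + 1)) (L.gi w) x'
      - inner ℝ (L.mom (σ (n + 1)) - L.mom (σ n)) w <
    gI (L.kbar f (σ n)) (L.cell p) (I n) (cc n) x z
      + gI (L.kbar f (σ (n + 1))) (L.cell p) (I (n + 1)) (cc (n + 1)) (L.gi z) x'
      - inner ℝ (L.mom (σ (n + 1)) - L.mom (σ n)) z

omit [FiniteDimensional ℝ E] in
lemma strip_room {p : ℝ} {z : E} (hz : z ∈ L.S) (h : 1 / 4 ≤ L.y z - p ∧ L.y z - p ≤ 3 / 4) : z ∈ L.room p := by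
  refine ⟨hz, ?_⟩
  rw [abs_le]; constructor <;> linarith [h.1, h.2]

lemma strip_room_g {p : ℝ} {z : E} (hz : z ∈ L.S) (h : 1 / 4 ≤ L.y z - p ∧ L.y z - p ≤ 3 / 4) : L.gi z ∈ L.room p := by
  refine ⟨(S_gi L.toSp).2 hz, ?_⟩
  rw [y_gi L.toSp, abs_le]; constructor <;> linarith [h.1, h.2]

theorem exists_chn {p β M0 : ℝ} {f : E → ℝ → ℝ} (hf : L.IsPot f)
    (hS : ∀ m : ℕ, M0 ≤ m → L.Stage p β m f) :
    ∃ σ I cc D, Chn L p β M0 f σ I cc D := by
  classical
  obtain ⟨M, hM⟩ := isPot_good L.toSp hf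
  obtain ⟨B, Λ, hB, hΛ, hKD⟩ := kd_kbar L M
  have hK : ∀ s, KD (L.kbar f s) (L.cell p) (L.room p) B Λ := fun s => hKD f hM hf.perd s p
  set m0 : ℕ := ⌈M0⌉₊ with hm0
  have hm0' : M0 ≤ m0 := Nat.le_ceil _
  have hS' : ∀ k : ℕ, L.Stage p β (m0 + k) f := fun k => hS _ (by push_cast; linarith [Nat.cast_nonneg (α := ℝ) k])
  choose J s F c D δ hJ hδ hs0 hsJ hsb hF hgate using hS'
  have hF1 : ∀ k i, ∀ T ∈ F k i, 1 ≤ T := fun k i T hT => by have := (hF k i).2 T hT; omega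
  -- abbreviations
  set S := st J with hSdef
  have hlt : ∀ n, (S n).2 < J (S n).1 := st_lt hJ
  set σ : ℕ → ℝ := fun n => s (S n).1 ((S n).2 + 1) with hσ
  set I : ℕ → Finset (ℕ × ℕ) := fun n =>
    if (S n).2 + 1 < J (S n).1 then F (S n).1 ((S n).2 + 1) ×ˢ {0}
    else F (S n).1 ((S n).2 + 1) ×ˢ F ((S n).1 + 1) 0 with hI
  set cc : ℕ → ℕ × ℕ → ℝ := fun n q => c (S n).1 ((S n).2 + 1) q.1 +
    (if (S n).2 + 1 < J (S n).1 then 0 else c ((S n).1 + 1) 0 q.2) with hcc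
  set D' : ℕ → Set E := fun n => D (S n).1 (S n).2 with hD'
  have hS1 : ∀ n, S (n + 1) = if (S n).2 + 1 < J (S n).1 then ((S n).1, (S n).2 + 1)
      else ((S n).1 + 1, 0) := fun n => rfl
  -- right exposure: the segment after gate n
  have hR : ∀ n, ∀ z ∈ L.room p, ∀ x ∈ L.room p, ∃ ξ ∈ L.room p, ∃ k : ℝ,
      gI (L.kbar f (σ n)) (L.cell p) (I n) (cc n) z x =
        k + L.seg f p (s (S n).1 ((S n).2 + 1)) (F (S n).1 ((S n).2 + 1)) (c (S n).1 ((S n).2 + 1)) z ξ ∧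
      ∀ w ∈ L.room p, gI (L.kbar f (σ n)) (L.cell p) (I n) (cc n) w x ≤
        k + L.seg f p (s (S n).1 ((S n).2 + 1)) (F (S n).1 ((S n).2 + 1)) (c (S n).1 ((S n).2 + 1)) w ξ := by
    intro n z hz x hx
    by_cases h : (S n).2 + 1 < J (S n).1
    · have e : ∀ w w', gI (L.kbar f (σ n)) (L.cell p) (I n) (cc n) w w' =
          L.seg f p (s (S n).1 ((S n).2 + 1)) (F (S n).1 ((S n).2 + 1)) (c (S n).1 ((S n).2 + 1)) w w' := by
        intro w w'
        have h1 : I n = F (S n).1 ((S n).2 + 1) ×ˢ {0} := by simp only [hI]; rw [if_pos h]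
        rw [h1, gI_single _ (hF _ _).1]
        unfold SpL.seg
        have h2 : (fun T => cc n (T, 0)) = c (S n).1 ((S n).2 + 1) := by
          funext T
          simp only [hcc]; rw [if_pos h, add_zero]
        rw [h2]
      refine ⟨x, hx, 0, by rw [e, zero_add], fun w _ => by rw [e, zero_add]⟩
    · have h1 : I n = F (S n).1 ((S n).2 + 1) ×ˢ F ((S n).1 + 1) 0 := by
        simp only [hI]; rw [if_neg h]
      rw [h1]
      exact gI_right (hK _) (hF _ _).1 (hF _ _).1 (hF1 _ _) (hF1 _ _) _ _ (c ((S n).1 + 1) 0)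
        (fun q => by simp only [hcc]; rw [if_neg h]) hx hz
  -- speeds match
  have hσm : ∀ n, σ n = s (S (n + 1)).1 (S (n + 1)).2 := by
    intro n
    simp only [hσ]
    rw [hS1]
    by_cases h : (S n).2 + 1 < J (S n).1
    · rw [if_pos h]
    · rw [if_neg h]
      simp only
      have hl := hlt n
      have h2 : (S n).2 + 1 = J (S n).1 := by omega
      rw [h2, hsJ, hs0]
      push_cast; ring
  -- left exposure: the segment before gate n+1
  have hL : ∀ n, ∀ x ∈ L.room p, ∀ z ∈ L.room p, ∃ ξ ∈ L.room p, ∃ k : ℝ,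
      gI (L.kbar f (σ n)) (L.cell p) (I n) (cc n) x z =
        k + L.seg f p (s (S (n + 1)).1 (S (n + 1)).2) (F (S (n + 1)).1 (S (n + 1)).2)
          (c (S (n + 1)).1 (S (n + 1)).2) ξ z ∧
      ∀ w ∈ L.room p, gI (L.kbar f (σ n)) (L.cell p) (I n) (cc n) x w ≤
        k + L.seg f p (s (S (n + 1)).1 (S (n + 1)).2) (F (S (n + 1)).1 (S (n + 1)).2)
          (c (S (n + 1)).1 (S (n + 1)).2) ξ w := by
    intro n x hx z hz
    rw [← hσm n, hS1]
    by_cases h : (S n).2 + 1 < J (S n).1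
    · rw [if_pos h]
      simp only
      have e : ∀ w w', gI (L.kbar f (σ n)) (L.cell p) (I n) (cc n) w w' =
          L.seg f p (σ n) (F (S n).1 ((S n).2 + 1)) (c (S n).1 ((S n).2 + 1)) w w' := by
        intro w w'
        have h1 : I n = F (S n).1 ((S n).2 + 1) ×ˢ {0} := by simp only [hI]; rw [if_pos h]
        rw [h1, gI_single _ (hF _ _).1]
        unfold SpL.seg
        have h2 : (fun T => cc n (T, 0)) = c (S n).1 ((S n).2 + 1) := by
          funext T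
          simp only [hcc]; rw [if_pos h, add_zero]
        rw [h2]
      refine ⟨x, hx, 0, by rw [e, zero_add], fun w _ => by rw [e, zero_add]⟩
    · rw [if_neg h]
      simp only
      have h1 : I n = F (S n).1 ((S n).2 + 1) ×ˢ F ((S n).1 + 1) 0 := by
        simp only [hI]; rw [if_neg h]
      rw [h1]
      exact gI_left (hK _) (hF _ _).1 (hF _ _).1 (hF1 _ _) (hF1 _ _) _ (c (S n).1 ((S n).2 + 1)) _
        (fun q => by simp only [hcc]; rw [if_neg h]) hx hz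
  refine ⟨σ, I, cc, D', ⟨?_, ?_, ?_, ?_, ?_, ?_, ?_, ?_, ?_⟩⟩
  · intro n
    simp only [hI]
    split_ifs with h
    · simpa using (hF _ _).1
    · exact (hF _ _).1.product (hF _ _).1
  · intro n q hq
    simp only [hI] at hq
    split_ifs at hq with h
    · rw [Finset.mem_product] at hq
      have := (hF _ _).2 _ hq.1
      omega
    · rw [Finset.mem_product] at hq
      have := (hF _ _).2 _ hq.1
      omega
  · intro n; exact (hgate (S n).1 (S n).2 (hlt n)).1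
  · intro n; exact (hgate (S n).1 (S n).2 (hlt n)).2.1
  · intro n; exact (hgate (S n).1 (S n).2 (hlt n)).2.2.1
  · intro n; exact (hgate (S n).1 (S n).2 (hlt n)).2.2.2.1
  · intro n
    have h1 := (hsb (S n).1 ((S n).2 + 1) (hlt n)).1
    push_cast at h1
    have h2 : (0:ℝ) ≤ ((S n).1 : ℝ) := Nat.cast_nonneg _
    simp only [hσ]
    linarith
  · refine tendsto_atTop_mono (f := fun n => ((S n).1 : ℝ)) (fun n => ?_) ?_
    · have h1 := (hsb (S n).1 ((S n).2 + 1) (hlt n)).1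
      push_cast at h1
      have h2 : (0:ℝ) ≤ (m0 : ℝ) := Nat.cast_nonneg _
      simp only [hσ]
      linarith
    · exact tendsto_natCast_atTop_atTop.comp (st_tendsto hJ)
  · intro n z hz
    obtain ⟨w, hw, hw'⟩ := (hgate (S (n + 1)).1 (S (n + 1)).2 (hlt (n + 1))).2.2.2.2 z hz
    have hstrip := (hgate (S (n + 1)).1 (S (n + 1)).2 (hlt (n + 1))).2.2.2.1
    have hsub := (hgate (S (n + 1)).1 (S (n + 1)).2 (hlt (n + 1))).2.2.1
    have hzD : z ∈ D' (n + 1) := hz.1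
    refine ⟨w, hw, fun x hx x' hx' => ?_⟩
    have hzr := strip_room L (hsub hzD) (hstrip z hzD)
    have hwr := strip_room L (hsub hw) (hstrip w hw)
    have hzg := strip_room_g L (hsub hzD) (hstrip z hzD)
    have hwg := strip_room_g L (hsub hw) (hstrip w hw)
    obtain ⟨ξ, hξ, k, e1, e2⟩ := hL n x hx z hzr
    obtain ⟨ξ', hξ', k', e1', e2'⟩ := hR (n + 1) (L.gi z) hzg x' hx'
    have a := hw' ξ hξ ξ' hξ'
    have b := e2 w hwr
    have b' := e2' (L.gi w) hwg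
    rw [e1, e1', hσm n]
    have hδ' := hδ (S (n + 1)).1
    simp only [hσ] at b' ⊢
    rw [hσm n] at b
    linarith

end EscF
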