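import Pool.Agent.EscF.Defs
import Pool.Agent.helper1.Esc.ModD

/-!
INTERFACE of project EscF. All statements with sorry; every module proves its statements in its own
file. Never import this file in a final module.
-/

noncomputable section

namespace EscF

open MeasureTheory Set Filter Topology Esc EscN
open scoped ContDiff

/-! ## MODULE C (general Lagrangians, file C.lean) -/

section C

variable {E : Type*} [NormedAddCommGroup E] [InnerProductSpace ℝ E] [FiniteDimensional ℝ E]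
  {l : E → E → ℝ → ℝ} {lu : E → E → ℝ → E} {v0 : E} {m Λ : ℝ}

theorem CK.cont (hl : CK l lu v0 m Λ) : Continuous (fun p : E × E × ℝ => l p.1 p.2.1 p.2.2) := sorry
theorem CK.lu_cont (hl : CK l lu v0 m Λ) : Continuous (fun p : E × E × ℝ => lu p.1 p.2.1 p.2.2) := sorry
theorem CK.ii (hl : CK l lu v0 m Λ) {u : ℝ → E} (hu : Adm u) (a : ℝ) (z : E) (c d : ℝ) :
    IntervalIntegrable (fun t => l (traj a z u t) (u t) t) volume c d := sorry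
/-- pointwise bounds -/
theorem CK.lower (hl : CK l lu v0 m Λ) (x u : E) (t : ℝ) :
    m / 4 * ‖u - v0‖ ^ 2 - (Λ + Λ ^ 2 / m) ≤ l x u t := sorry
theorem CK.upper (hl : CK l lu v0 m Λ) (x u : E) (t : ℝ) : l x u t ≤ 2 * Λ * (‖u - v0‖ ^ 2 + 1) := sorry
theorem kerl_le (hl : CK l lu v0 m Λ) {a b : ℝ} (hab : a < b) {z z' : E} {u : ℝ → E} (hu : Adm u)
    (h : traj a z u b = z') : kerl l a b z z' ≤ actl l a b z u := sorry
theorem exists_kerl_lt (hl : CK l lu v0 m Λ) {a b : ℝ} (hab : a < b) (z z' : E) {ε : ℝ} (hε : 0 < ε) :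
    ∃ u, Adm u ∧ traj a z u b = z' ∧ actl l a b z u < kerl l a b z z' + ε := sorry
theorem le_kerl {l : E → E → ℝ → ℝ} {a b : ℝ} (hab : a < b) (z z' : E) {c : ℝ}
    (h : ∀ u, Adm u → traj a z u b = z' → c ≤ actl l a b z u) : c ≤ kerl l a b z z' := sorry
theorem kerl_lower (hl : CK l lu v0 m Λ) {a b : ℝ} (hab : a < b) (z z' : E) :
    m / 4 * ‖z' - z - (b - a) • v0‖ ^ 2 / (b - a) - (Λ + Λ ^ 2 / m) * (b - a) ≤ kerl l a b z z' := sorry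
theorem kerl_upper (hl : CK l lu v0 m Λ) {a b : ℝ} (hab : a < b) (z z' : E) :
    kerl l a b z z' ≤ 2 * Λ * (‖z' - z - (b - a) • v0‖ ^ 2 / (b - a) + (b - a)) := sorry
/-- energy of controls -/
theorem energy_le (hl : CK l lu v0 m Λ) {a b : ℝ} (hab : a < b) (z : E) {u : ℝ → E} (hu : Adm u) :
    (∫ t in a..b, ‖u t - v0‖ ^ 2) ≤ 4 / m * (actl l a b z u + (Λ + Λ ^ 2 / m) * (b - a)) := sorry
/-- dynamic programming -/
theorem kerl_le_add (hl : CK l lu v0 m Λ) {a b c : ℝ} (hab : a < b) (hbc : b < c) (z x z' : E) :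
    kerl l a c z z' ≤ kerl l a b z x + kerl l b c x z' := sorry
/-- splitting of the action -/
theorem add_kerl_le (hl : CK l lu v0 m Λ) {a b c : ℝ} (hab : a < b) (hbc : b < c) (z : E) {u : ℝ → E}
    (hu : Adm u) : kerl l a b z (traj a z u b) + kerl l b c (traj a z u b) (traj a z u c) ≤
      actl l a c z u := sorry
theorem kerl_time (h : ∀ x u t, l x u (t + 1) = l x u t) (a b : ℝ) (z z' : E) :
    kerl l (a + 1) (b + 1) z z' = kerl l a b z z' := sorry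
/-- variation of the end points -/
theorem kerl_var (hl : CK l lu v0 m Λ) {a b : ℝ} (hab : a < b) (z z' ζ ξ : E) {r N : ℝ} (hζ : ‖ζ‖ ≤ r)
    (hξ : ‖ξ‖ ≤ r) (hN : kerl l a b z z' ≤ N) :
    kerl l a b (z + ζ) (z' + ξ) ≤ kerl l a b z z' + Λ * r * (b - a) + Λ * ‖ξ - ζ‖ ^ 2 / (b - a) +
      Λ * ‖ξ - ζ‖ * (1 + Real.sqrt (4 / m * (N + (Λ + Λ ^ 2 / m) * (b - a)) / (b - a))) := sorry
theorem kerl_continuous (hl : CK l lu v0 m Λ) {a b : ℝ} (hab : a < b) :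
    Continuous (fun p : E × E => kerl l a b p.1 p.2) := sorry
/-- adding an affine function of the velocity -/
theorem kerl_affine (hl : CK l lu v0 m Λ) (p : E) (c : ℝ) {a b : ℝ} (hab : a < b) (z z' : E) :
    kerl (fun x u t => l x u t - inner ℝ p u - c) a b z z' =
      kerl l a b z z' - inner ℝ p (z' - z) - c * (b - a) := sorry

end C

/-! ## MODULE K (kernels at speed `s`, file K.lean) -/

section ModuleK

variable {d : ℕ} {E : Type*} [NormedAddCommGroup E] [InnerProductSpace ℝ E] [FiniteDimensional ℝ E]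
  (L : SpL d E)

theorem mem_S (x : E) : x ∈ L.S := sorry
theorem inS (a b : ℝ) (z : E) (u : ℝ → E) : InS L.S a b z u := sorry
theorem dk_eq (n : Fin d → ℤ) (x : E) : L.dk n x = x + L.lv n := sorry
theorem gd_eq (x : E) : L.gd x = x + L.g := sorry
theorem gi_eq (x : E) : L.gi x = x - L.g := sorry
/-- the Lagrangian at speed `s` -/
theorem lag_ck {M : ℝ} {f : E → ℝ → ℝ} (hf : Good M f) (s : ℝ) :
    CK (L.lag f s) (fun x u t => L.lu x u t - L.mom s) (L.vel s) L.m (L.Λ + M) := sorry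
theorem lf_ck {M : ℝ} {f : E → ℝ → ℝ} (hf : Good M f) :
    CK (L.lf f) L.lu 0 L.m (L.Λ + M + |L.h 0| + ‖L.gh 0‖) := sorry
/-- pointwise bounds -/
theorem lag_lower {M : ℝ} {f : E → ℝ → ℝ} (hf : Good M f) (s : ℝ) (x u : E) (t : ℝ) :
    L.m / 2 * ‖u - L.vel s‖ ^ 2 - (L.Λ + M) ≤ L.lag f s x u t := sorry
theorem lag_upper {M : ℝ} {f : E → ℝ → ℝ} (hf : Good M f) (s : ℝ) (x u : E) (t : ℝ) :
    L.lag f s x u t ≤ L.Λ * ‖u - L.vel s‖ ^ 2 + (L.Λ + M) := sorry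
theorem conn {a b : ℝ} (hab : a < b) {z z' : E} (hz : z ∈ L.S) (hz' : z' ∈ L.S) :
    ∃ u : ℝ → E, Adm u ∧ InS L.S a b z u ∧ traj a z u b = z' := sorry
theorem ker_eq {M : ℝ} {f : E → ℝ → ℝ} (hf : Good M f) (s : ℝ) {a b : ℝ} (hab : a < b) (z z' : E) :
    L.ker f s a b z z' = kerl (L.lf f) a b z z' - inner ℝ (L.mom s) (z' - z) -
      (b - a) * (L.h (L.vel s) - inner ℝ (L.mom s) (L.vel s)) := sorry
theorem ker_lower {M : ℝ} {f : E → ℝ → ℝ} (hf : Good M f) (s : ℝ) {a b : ℝ} (hab : a < b) {z z' : E}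
    (hz : z ∈ L.S) (hz' : z' ∈ L.S) :
    L.m * ‖z' - z - (b - a) • L.vel s‖ ^ 2 / (2 * (b - a)) - (L.Λ + M) * (b - a) ≤ L.ker f s a b z z' := sorry
theorem ker_upper {M : ℝ} {f : E → ℝ → ℝ} (hf : Good M f) (s : ℝ) {a b : ℝ} (hab : a < b)
    {z z' : E} (hz : z ∈ L.S) (hz' : z' ∈ L.S) :
    L.ker f s a b z z' ≤ L.Λ * ‖z' - z - (b - a) • L.vel s‖ ^ 2 / (b - a) + (L.Λ + M) * (b - a) := sorry
theorem ker_le_act {M : ℝ} {f : E → ℝ → ℝ} (hf : Good M f) (s : ℝ) {a b : ℝ} (hab : a < b) (z : E)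
    {u : ℝ → E} (hu : Adm u) (hS : InS L.S a b z u) :
    L.ker f s a b z (traj a z u b) ≤ L.act f s a b z u := sorry
theorem ker_le_act' {M : ℝ} {f : E → ℝ → ℝ} (hf : Good M f) (s : ℝ) {a b : ℝ} (hab : a < b) {z z' : E}
    {u : ℝ → E} (hu : Adm u) (hS : InS L.S a b z u) (hz : traj a z u b = z') :
    L.ker f s a b z z' ≤ L.act f s a b z u := sorry
theorem le_ker {f : E → ℝ → ℝ} {s : ℝ} {a b : ℝ} (hab : a < b) {z z' : E} (hz : z ∈ L.S)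
    (hz' : z' ∈ L.S) {c : ℝ}
    (h : ∀ u, Adm u → InS L.S a b z u → traj a z u b = z' → c ≤ L.act f s a b z u) :
    c ≤ L.ker f s a b z z' := sorry
theorem exists_act_lt {M : ℝ} {f : E → ℝ → ℝ} (hf : Good M f) (s : ℝ) {a b : ℝ} (hab : a < b) {z z' : E}
    (hz : z ∈ L.S) (hz' : z' ∈ L.S) {ε : ℝ} (hε : 0 < ε) :
    ∃ u, Adm u ∧ InS L.S a b z u ∧ traj a z u b = z' ∧ L.act f s a b z u < L.ker f s a b z z' + ε := sorry
/-- the action as kinetic part plus potential part -/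
theorem act_eq {M : ℝ} {f : E → ℝ → ℝ} (hf : Good M f) (s : ℝ) (a b : ℝ) (z : E) {u : ℝ → E}
    (hu : Adm u) : L.act f s a b z u =
      L.act (fun _ _ => 0) s a b z u + ∫ t in a..b, f (traj a z u t) t := sorry
theorem ker_sub_le {M ρ : ℝ} {f f' : E → ℝ → ℝ} (hf : Good M f) (hf' : Good M f')
    (h : ∀ x ∈ L.S, ∀ t, |f x t - f' x t| ≤ ρ) (s : ℝ) {a b : ℝ} (hab : a < b) {z z' : E}
    (hz : z ∈ L.S) (hz' : z' ∈ L.S) :
    |L.ker f s a b z z' - L.ker f' s a b z z'| ≤ ρ * (b - a) := sorry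
theorem ker_mono {M : ℝ} {f f' : E → ℝ → ℝ} (hf : Good M f) (hf' : Good M f')
    (h : ∀ x t, f x t ≤ f' x t) (s : ℝ) {a b : ℝ} (hab : a < b) {z z' : E}
    (hz : z ∈ L.S) (hz' : z' ∈ L.S) : L.ker f s a b z z' ≤ L.ker f' s a b z z' := sorry
theorem ker_continuousOn {M : ℝ} {f : E → ℝ → ℝ} (hf : Good M f) (s : ℝ) {a b : ℝ} (hab : a < b) :
    ContinuousOn (fun p : E × E => L.ker f s a b p.1 p.2) (L.S ×ˢ L.S) := sorry
theorem ker_dk {f : E → ℝ → ℝ} (n : Fin d → ℤ) (h : ∀ x t, f (L.dk n x) t = f x t) (s : ℝ)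
    (a b : ℝ) (z z' : E) : L.ker f s a b (L.dk n z) (L.dk n z') = L.ker f s a b z z' := sorry
theorem ker_gd {f : E → ℝ → ℝ} (h : ∀ x t, f (L.gd x) t = f x t) (s : ℝ)
    (a b : ℝ) (z z' : E) : L.ker f s a b (L.gd z) (L.gd z') = L.ker f s a b z z' := sorry
theorem ker_time {f : E → ℝ → ℝ} (h : ∀ x t, f x (t + 1) = f x t) (s : ℝ) (a b : ℝ) (z z' : E) :
    L.ker f s (a + 1) (b + 1) z z' = L.ker f s a b z z' := sorry
theorem ker_le_ker_add {M : ℝ} {f : E → ℝ → ℝ} (hf : Good M f) (s : ℝ) {a b c : ℝ} (hab : a < b)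
    (hbc : b < c) {z x z' : E} (hz : z ∈ L.S) (hx : x ∈ L.S) (hz' : z' ∈ L.S) :
    L.ker f s a c z z' ≤ L.ker f s a b z x + L.ker f s b c x z' := sorry
/-- near-minimizers stay close to the free motion -/
theorem near_start {M B w : ℝ} {f : E → ℝ → ℝ} (hf : Good M f) {s : ℝ} {u : ℝ → E} (hu : Adm u) {z : E}
    (hB : L.act f s 0 1 z u ≤ B + 1) (hw : w ≤ 1) {t : ℝ} (ht : t ∈ Icc 0 w) :
    ‖traj 0 z u t - (z + t • L.vel s)‖ ≤ Real.sqrt (L.tb B M * w) := sorry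
theorem near_end {M B w : ℝ} {f : E → ℝ → ℝ} (hf : Good M f) {s : ℝ} {u : ℝ → E} (hu : Adm u) {z : E}
    (hB : L.act f s 0 1 z u ≤ B + 1) (hw : w ≤ 1) {t : ℝ} (ht : t ∈ Icc (1 - w) 1) :
    ‖traj 0 z u t - (traj 0 z u 1 - (1 - t) • L.vel s)‖ ≤ Real.sqrt (L.tb B M * w) := sorry
end ModuleK

/-! ## MODULE K2 (periodic kernel, files K2.lean, K2b.lean) -/

section ModuleK2

variable {d : ℕ} {E : Type*} [NormedAddCommGroup E] [InnerProductSpace ℝ E] [FiniteDimensional ℝ E]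
  (L : SpL d E)

theorem kbar_attained {M : ℝ} {f : E → ℝ → ℝ} (hf : Good M f) (s : ℝ) {z z' : E} (hz : z ∈ L.S)
    (hz' : z' ∈ L.S) : ∃ n : Fin d → ℤ, L.kbar f s z z' = L.ker f s 0 1 z (L.dk n z') := sorry
theorem kbar_le_ker {M : ℝ} {f : E → ℝ → ℝ} (hf : Good M f) (s : ℝ) {z z' : E} (hz : z ∈ L.S)
    (hz' : z' ∈ L.S) (n : Fin d → ℤ) : L.kbar f s z z' ≤ L.ker f s 0 1 z (L.dk n z') := sorry
theorem kbar_ge {M : ℝ} {f : E → ℝ → ℝ} (hf : Good M f) (s : ℝ) {z z' : E} (hz : z ∈ L.S)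
    (hz' : z' ∈ L.S) : -(L.Λ + M) ≤ L.kbar f s z z' := sorry
theorem kbar_bd_lip (M : ℝ) : ∃ B Λ : ℝ, 0 < B ∧ 0 < Λ ∧ ∀ f : E → ℝ → ℝ, Good M f →
    (∀ n x t, f (L.dk n x) t = f x t) → ∀ s : ℝ,
    (∀ z ∈ L.S, ∀ z' ∈ L.S, |L.y z - L.y z'| ≤ 2 → |L.kbar f s z z'| ≤ B) ∧
    (∀ z ∈ L.S, ∀ z' ∈ L.S, ∀ w ∈ L.S, ∀ w' ∈ L.S, |L.y z - L.y z'| ≤ 2 → |L.y w - L.y w'| ≤ 2 →
      |L.kbar f s z z' - L.kbar f s w w'| ≤ Λ * (dist z w + dist z' w')) := sorry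
theorem kbar_sub_le {M ρ : ℝ} {f f' : E → ℝ → ℝ} (hf : Good M f) (hf' : Good M f')
    (h : ∀ x ∈ L.S, ∀ t, |f x t - f' x t| ≤ ρ) (s : ℝ) {z z' : E} (hz : z ∈ L.S) (hz' : z' ∈ L.S) :
    |L.kbar f s z z' - L.kbar f' s z z'| ≤ ρ := sorry
theorem kbar_mono {M : ℝ} {f f' : E → ℝ → ℝ} (hf : Good M f) (hf' : Good M f')
    (h : ∀ x t, f x t ≤ f' x t) (s : ℝ) {z z' : E} (hz : z ∈ L.S) (hz' : z' ∈ L.S) :
    L.kbar f s z z' ≤ L.kbar f' s z z' := sorry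
theorem kbar_concave {M : ℝ} {ι : Type*} (I : Finset ι) (hI : I.Nonempty) {f : ι → E → ℝ → ℝ}
    (hf : ∀ i ∈ I, Good M (f i)) (s : ℝ) {z z' : E} (hz : z ∈ L.S) (hz' : z' ∈ L.S) :
    (∑ i ∈ I, L.kbar (f i) s z z') / I.card ≤
      L.kbar (fun x t => (∑ i ∈ I, f i x t) / I.card) s z z' := sorry
theorem kbar_per {f : E → ℝ → ℝ} (h : ∀ n x t, f (L.dk n x) t = f x t) (s : ℝ) (z z' : E)
    (n m : Fin d → ℤ) : L.kbar f s (L.dk n z) (L.dk m z') = L.kbar f s z z' := sorry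
theorem kbar_perg {f : E → ℝ → ℝ} (h : ∀ x t, f (L.gd x) t = f x t) (s : ℝ) (z z' : E) :
    L.kbar f s (L.gd z) (L.gd z') = L.kbar f s z z' := sorry
theorem kbar_speed (M : ℝ) : ∃ C : ℝ, 0 < C ∧ ∀ f : E → ℝ → ℝ, Good M f → ∀ s s' : ℝ,
    ‖L.vel s - L.vel s'‖ ≤ 1 → ∀ z ∈ L.S, ∀ z' ∈ L.S, |L.y z - L.y z'| ≤ 2 →
    |L.kbar f s z z' - L.kbar f s' z z'| ≤ C * ‖L.vel s - L.vel s'‖ := sorry
theorem kbar_tube {M B : ℝ} {f f' : E → ℝ → ℝ} (hf : Good M f) (hf' : Good M f')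
    (hp : ∀ n x t, f (L.dk n x) t = f x t) (hp' : ∀ n x t, f' (L.dk n x) t = f' x t)
    (s : ℝ) {z z' : E} (hz : z ∈ L.S) (hz' : z' ∈ L.S)
    (hB : L.kbar f' s z z' ≤ B) {w : ℝ} (hw : 0 < w) (hw' : w < 1 / 2)
    (κ : ℝ → ℝ) (hκ : IntervalIntegrable κ volume 0 1)
    (h0 : ∀ t ∈ Icc 0 w, ∀ r : E, ‖r‖ ≤ Real.sqrt (L.tb B M * w) →
      f (z + t • L.vel s + r) t + κ t ≤ f' (z + t • L.vel s + r) t)
    (h1 : ∀ t ∈ Icc (1 - w) 1, ∀ r : E, ‖r‖ ≤ Real.sqrt (L.tb B M * w) →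
      f (z' - (1 - t) • L.vel s + r) t + κ t ≤ f' (z' - (1 - t) • L.vel s + r) t)
    (hm : ∀ t ∈ Ioo w (1 - w), ∀ x, f x t + κ t ≤ f' x t) :
    L.kbar f s z z' + ∫ t in (0:ℝ)..1, κ t ≤ L.kbar f' s z z' := sorry
theorem kd_kbar (M : ℝ) : ∃ B Λ : ℝ, 0 < B ∧ 0 < Λ ∧ ∀ f : E → ℝ → ℝ, Good M f →
    (∀ n x t, f (L.dk n x) t = f x t) → ∀ s p : ℝ,
    KD (L.kbar f s) (L.cell p) (L.room p) B Λ := sorry
end ModuleK2

/-! ## MODULE A (data class, file A.lean) -/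

section ModuleA

variable {d : ℕ} {E : Type*} [NormedAddCommGroup E] [InnerProductSpace ℝ E] [FiniteDimensional ℝ E]
  (L : SpL d E)

/-- the kernels are asymptotic to the quadratic kernels -/
theorem kbar_asym {V : E → ℝ → ℝ} (hV : L.Asym V) (M : ℝ) {ε : ℝ} (hε : 0 < ε) : ∃ s0 : ℝ,
    ∀ f : E → ℝ → ℝ, Good M f → (∀ n x t, f (L.dk n x) t = f x t) → ∀ s, s0 ≤ s → ∀ z z' : E,
    |L.y z - L.y z'| ≤ 2 →
      |L.kbar f s z z' - L.toSp.kbar (fun x t => V x t + f x t) s z z'| ≤ ε := sorry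
/-- data classes -/
theorem dat_of_asym {V : E → ℝ → ℝ} (hV : L.Asym V) {f : E → ℝ → ℝ} (hf : L.IsPot f) {p β M0 : ℝ}
    (h : L.toSp.Dat p β M0 (fun x t => V x t + f x t)) : ∃ M1 : ℕ, M0 ≤ M1 ∧ L.Dat p β M1 f := sorry
/-- the data class is `C^0`-open -/
theorem dat_open {p β M0 : ℝ} {f : E → ℝ → ℝ} (hf : L.IsPot f) (h : L.Dat p β M0 f) :
    ∃ ρ > 0, ∀ f', L.IsPot f' → (∀ x t, |f x t - f' x t| ≤ ρ) → L.Dat p β M0 f' := sorry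
end ModuleA

/-! ## MODULE G: stages (files Red, Far, Far2, Dense, Dense2, Dec, Stage, Open, Flat, Lift, Final) -/

section ModuleG

variable {d : ℕ} {E : Type*} [NormedAddCommGroup E] [InnerProductSpace ℝ E] [FiniteDimensional ℝ E]
  (L : SpL d E)

theorem stage_open {p β : ℝ} {f : E → ℝ → ℝ} (hf : L.IsPot f) {q : ℕ} (h : L.Stage p β q f) :
    ∃ ρ > 0, ∀ f', L.IsPot f' → (∀ x t, |f x t - f' x t| ≤ ρ) → L.Stage p β q f' := sorry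
theorem stage_dense (hd : 0 < d) {p β M0 : ℝ} {f : E → ℝ → ℝ} (hf : L.IsPot f)
    (hD : L.Dat p β M0 f) {q : ℕ} (hq : M0 ≤ q) (N : L.SmNorm) {ε : ℝ} (hε : 0 < ε) :
    ∃ G, L.IsSm G ∧ N.nm G < ε ∧ L.Stage p β q (fun x t => f x t + G x t) := sorry
theorem escapes_of_stages (hd : 0 < d) {p β M0 : ℝ} {f : E → ℝ → ℝ} (hf : L.IsPot f)
    (hD : L.Dat p β M0 f) (hS : ∀ q : ℕ, M0 ≤ q → L.Stage p β q f) : L.Escapes f := sorry
end ModuleG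

/-! ## MODULE O (kernel geodesics; files O3, O4, O5, O6) -/

section ModuleO

variable {E : Type*} [NormedAddCommGroup E] [InnerProductSpace ℝ E] [FiniteDimensional ℝ E]
  {l : E → E → ℝ → ℝ} {lx lu : E → E → ℝ → E} {v0 : E} {m Λ : ℝ}

/-- `Z` is a kernel geodesic on `[a,b]` -/
structure KGeo (l : E → E → ℝ → ℝ) (a b : ℝ) (Z : ℝ → E) : Prop where
  holder : ∃ C : ℝ, ∀ s ∈ Icc a b, ∀ t ∈ Icc a b, ‖Z t - Z s‖ ^ 2 ≤ C * |t - s|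
  add : ∀ s t, a ≤ s → s ≤ t → t ≤ b →
    kerl l a s (Z a) (Z s) + kerl l s t (Z s) (Z t) + kerl l t b (Z t) (Z b) = kerl l a b (Z a) (Z b)

theorem exists_kgeo (hl : CK l lu 0 m Λ) {a b : ℝ} (hab : a < b) (z z' : E) :
    ∃ Z : ℝ → E, Z a = z ∧ Z b = z' ∧ KGeo l a b Z := sorry
/-- short kernels -/
theorem kerl_short (hl : CL l lx lu 0 m Λ) : ∃ C h0 : ℝ, 0 ≤ C ∧ 0 < h0 ∧ ∀ a h : ℝ, 0 < h → h ≤ h0 →
    ∀ z v : E, |kerl l a (a + h) z (z + h • v) - actl l a (a + h) z (fun _ => v)| ≤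
      C * h ^ 3 * (1 + ‖v‖) ^ 2 := sorry
/-- discrete momentum equation at a local minimum -/
theorem mom_diff (hl : CL l lx lu 0 m Λ) : ∃ C h0 : ℝ, 0 ≤ C ∧ 0 < h0 ∧ ∀ t h : ℝ, 0 < h → h ≤ h0 →
    ∀ z v1 v2 : E,
      IsLocalMin (fun w => kerl l (t - h) t (z - h • v1) w + kerl l t (t + h) w (z + h • v2)) z →
      ‖lu z v2 t - lu z v1 t‖ ≤ C * h * (1 + ‖v1‖ + ‖v2‖) := sorry
/-- a kernel geodesic is `C^{1,1}` -/
theorem kgeo_c11 (hl : CL l lx lu 0 m Λ) {a b : ℝ} (hab : a < b) {Z : ℝ → E} (hZ : KGeo l a b Z) :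
    ∃ v : ℝ → E, (∃ C, ∀ s ∈ Icc a b, ∀ t ∈ Icc a b, ‖v t - v s‖ ≤ C * |t - s|) ∧
      ∀ s ∈ Icc a b, ∀ t ∈ Icc a b, Z t - Z s = ∫ r in s..t, v r := sorry
/-- the action of a `C^{1,1}` kernel geodesic is the kernel -/
theorem kgeo_act (hl : CL l lx lu 0 m Λ) {a b : ℝ} (hab : a < b) {Z : ℝ → E} (hZ : KGeo l a b Z)
    {v : ℝ → E} (hv : ∃ C, ∀ s ∈ Icc a b, ∀ t ∈ Icc a b, ‖v t - v s‖ ≤ C * |t - s|)
    (hZv : ∀ s ∈ Icc a b, ∀ t ∈ Icc a b, Z t - Z s = ∫ r in s..t, v r) :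
    ∫ t in a..b, l (Z t) (v t) t = kerl l a b (Z a) (Z b) := sorry
/-- Euler-Lagrange equation in integral form -/
theorem kgeo_el (hl : CL l lx lu 0 m Λ) {a b : ℝ} (hab : a < b) {Z : ℝ → E} (hZ : KGeo l a b Z)
    {v : ℝ → E} (hv : ∃ C, ∀ s ∈ Icc a b, ∀ t ∈ Icc a b, ‖v t - v s‖ ≤ C * |t - s|)
    (hZv : ∀ s ∈ Icc a b, ∀ t ∈ Icc a b, Z t - Z s = ∫ r in s..t, v r) :
    ∀ s ∈ Icc a b, ∀ t ∈ Icc a b,
      lu (Z t) (v t) t - lu (Z s) (v s) s = ∫ r in s..t, lx (Z r) (v r) r := sorry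
/-- orbit from a sitewise locally minimal sequence -/
theorem orbit_of_sitewise (hl : CL l lx lu 0 m Λ) (hper : ∀ x v t, l x v (t + 1) = l x v t)
    (w : ℕ → E)
    (hmin : ∀ j, IsLocalMin (fun x => kerl l 0 1 (w j) x + kerl l 0 1 x (w (j + 2))) (w (j + 1))) :
    ∃ x v : ℝ → E, (∀ t, 0 < t → HasDerivAt x (v t) t) ∧ ContinuousOn v (Ici 0) ∧
      (∀ t, 0 < t → HasDerivAt (fun t => lu (x t) (v t) t) (lx (x t) (v t) t) t) ∧
      (∀ j : ℕ, x j = w j) ∧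
      (∀ j : ℕ, ∫ t in (j:ℝ)..(j+1), l (x t) (v t) t = kerl l 0 1 (w j) (w (j + 1))) := sorry
end ModuleO

end EscF
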