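import Pool.Agent.EscF.CDefs

/-!
Project EscF: kernel geodesics.
-/

noncomputable section

namespace EscF

open MeasureTheory Set Filter Topology Esc

variable {E : Type*} [NormedAddCommGroup E] [InnerProductSpace ℝ E]

/-- `Z` is a kernel geodesic on `[a,b]` -/
structure KGeo (l : E → E → ℝ → ℝ) (a b : ℝ) (Z : ℝ → E) : Prop where
  holder : ∃ C : ℝ, ∀ s ∈ Icc a b, ∀ t ∈ Icc a b, ‖Z t - Z s‖ ^ 2 ≤ C * |t - s|
  add : ∀ s t, a ≤ s → s ≤ t → t ≤ b →
    kerl l a s (Z a) (Z s) + kerl l s t (Z s) (Z t) + kerl l t b (Z t) (Z b) = kerl l a b (Z a) (Z b)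

end EscF
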