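import Pool.Agent.EscF.TDefs

/-!
Sanity checks for the definitions of project EscF (never used in the proof): flat metrics and Randers
norms are kinetic energies on the cone of all nonzero velocities, mechanical Lagrangians are asymptotic to
them, and there are small open cones around every direction.
-/

namespace EscF.T.Sane

open Filter Topology Set
open scoped ContDiff

variable {n : ℕ}

/-- the cone of all nonzero velocities -/
def Full (n : ℕ) : Set (Vec n) := {v | v ≠ 0}

theorem full_isOpenCone : IsOpenCone (Full n) := by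
  refine ⟨isOpen_compl_singleton, fun h => h rfl, fun v hv c hc => ?_⟩
  exact smul_ne_zero hc.ne' hv

theorem full_nonempty (hn : 1 ≤ n) : (Full n).Nonempty := by
  refine ⟨EuclideanSpace.single ⟨0, hn⟩ 1, ?_⟩
  intro h
  have := congrArg (fun v : Vec n => v ⟨0, hn⟩) h
  simp at this

/-- the open cone of opening `ε` around the direction `w` -/
def Around (w : Vec n) (ε : ℝ) : Set (Vec n) := {v | v ≠ 0 ∧ ‖v - ‖v‖ • w‖ < ε * ‖v‖}

theorem around_isOpenCone (w : Vec n) (ε : ℝ) : IsOpenCone (Around w ε) := by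
  refine ⟨?_, fun h => h.1 rfl, ?_⟩
  · have h1 : IsOpen {v : Vec n | ‖v - ‖v‖ • w‖ < ε * ‖v‖} :=
      isOpen_lt (by fun_prop) (by fun_prop)
    exact IsOpen.inter (isOpen_compl_singleton (x := (0 : Vec n))) h1
  · rintro v ⟨hv, h⟩ c hc
    refine ⟨smul_ne_zero hc.ne' hv, ?_⟩
    rw [norm_smul, Real.norm_of_nonneg hc.le, mul_smul, ← smul_sub, norm_smul,
      Real.norm_of_nonneg hc.le]
    nlinarith

/-- around every unit vector there are arbitrarily small open cones -/
theorem mem_around (w : Vec n) (hw : ‖w‖ = 1) {ε : ℝ} (hε : 0 < ε) : w ∈ Around w ε := by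
  refine ⟨fun h => ?_, ?_⟩
  · rw [h, norm_zero] at hw
    exact zero_ne_one hw
  · rw [hw, one_smul, sub_self, norm_zero, mul_one]
    exact hε

/-! ## Randers norms -/

section Randers

variable (B : Vec n →L[ℝ] Vec n →L[ℝ] ℝ) (α : Vec n →L[ℝ] ℝ)

/-- The energy `F² / 2` of the Randers norm `F(v) = √B(v,v) + α(v)`. -/
noncomputable def randers (v : Vec n) : ℝ := (√(B v v) + α v) ^ 2 / 2

variable {B α} (hs : ∀ v w, B v w = B w v) (hp : ∀ v, v ≠ 0 → 0 < B v v)

include hs hp in
theorem hasFDerivAt_norm {v : Vec n} (hv : v ≠ 0) :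
    HasFDerivAt (fun v : Vec n => √(B v v)) ((√(B v v))⁻¹ • B v) v := by
  have h0 := hp v hv
  have h1 : HasFDerivAt (fun v : Vec n => B v v) ((2 : ℝ) • B v) v := by
    have := (B.hasFDerivAt (x := v)).clm_apply (hasFDerivAt_id v)
    refine this.congr_fderiv ?_
    ext w
    simp [hs w v, two_mul]
  have h2 := h1.sqrt h0.ne'
  refine h2.congr_fderiv ?_
  rw [smul_smul]
  congr 1
  field_simp

include hs hp in
theorem hasFDerivAt_randers {v : Vec n} (hv : v ≠ 0) :
    HasFDerivAt (randers B α) ((√(B v v) + α v) • ((√(B v v))⁻¹ • B v + α)) v := by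
  have h1 := ((hasFDerivAt_norm hs hp hv).add (α.hasFDerivAt (x := v))).pow 2
  have h2 := h1.const_mul (1 / 2 : ℝ)
  have h3 : randers B α = fun v => 1 / 2 * ((fun v : Vec n => √(B v v)) + α) v ^ 2 := by
    funext v
    simp only [randers, Pi.add_apply]
    ring
  rw [h3]
  refine h2.congr_fderiv ?_
  ext w
  simp
  ring

include hs hp in
theorem hess_randers {v : Vec n} (hv : v ≠ 0) (w : Vec n) :
    iteratedFDeriv ℝ 2 (randers B α) v ![w, w] =
      ((√(B v v))⁻¹ * B v w + α w) ^ 2 +
        (√(B v v) + α v) * (√(B v v))⁻¹ * (B w w - ((√(B v v))⁻¹ * B v w) ^ 2) := by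
  rw [iteratedFDeriv_two_apply]
  have h0 := hp v hv
  have hN : 0 < √(B v v) := Real.sqrt_pos.2 h0
  have h1 : fderiv ℝ (randers B α) =ᶠ[𝓝 v]
      fun u => (√(B u u) + α u) • ((√(B u u))⁻¹ • B u + α) := by
    filter_upwards [isOpen_compl_singleton.mem_nhds hv] with u hu
    exact (hasFDerivAt_randers hs hp hu).fderiv
  have hNd := hasFDerivAt_norm hs hp hv
  have hFd := hNd.add (α.hasFDerivAt (x := v))
  have hI := (hasDerivAt_inv hN.ne').comp_hasFDerivAt v hNd
  have hB := (hI.smul (B.hasFDerivAt (x := v))).add_const α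
  have hA := hFd.smul hB
  have h2 : fderiv ℝ (fderiv ℝ (randers B α)) v = _ := (h1.fderiv_eq).trans hA.fderiv
  rw [h2]
  simp
  field_simp
  ring

include hs hp in
theorem randers_isKinetic (ha : ∀ v, v ≠ 0 → α v ^ 2 < B v v) :
    IsKinetic (Full n) (randers B α) := by
  refine ⟨?_, ?_, ?_⟩
  · intro v hv
    have h0 := hp v hv
    have hQ : ContDiffAt ℝ 2 (fun v : Vec n => B v v) v := by fun_prop
    have h1 : ContDiffAt ℝ 2 (randers B α) v := by
      unfold randers
      exact (((hQ.sqrt h0.ne').add α.contDiff.contDiffAt).pow 2).div_const 2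
    exact h1.contDiffWithinAt
  · intro v hv c hc
    have h1 : B (c • v) (c • v) = c ^ 2 * B v v := by
      simp [pow_two, mul_assoc]
    simp only [randers]
    rw [h1, Real.sqrt_mul (by positivity), Real.sqrt_sq hc.le, map_smul, smul_eq_mul]
    ring
  · intro v hv w hw
    have h0 := hp v hv
    have hN : 0 < √(B v v) := Real.sqrt_pos.2 h0
    have hNN : √(B v v) ^ 2 = B v v := Real.sq_sqrt h0.le
    have hF : 0 < √(B v v) + α v := by
      have h1 := ha v hv
      rw [← hNN] at h1
      have h2 := abs_lt_of_sq_lt_sq h1 hN.le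
      have h3 := (abs_lt.1 h2).1
      linarith
    rw [hess_randers hs hp hv w]
    set c : ℝ := B v w / B v v with hc
    have hw' : B w w - ((√(B v v))⁻¹ * B v w) ^ 2 = B (w - c • v) (w - c • v) := by
      have h1 : ((√(B v v))⁻¹ * B v w) ^ 2 = B v w ^ 2 / B v v := by
        rw [mul_pow, inv_pow, hNN]; ring
      rw [h1]
      simp only [map_sub, map_smul, sub_apply, smul_apply,
        smul_eq_mul]
      rw [hs w v, hc]
      field_simp
      ring
    by_cases h : w - c • v = 0
    · have hwc : w = c • v := sub_eq_zero.1 h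
      have hc0 : c ≠ 0 := by
        intro h1
        rw [h1, zero_smul] at hwc
        exact hw hwc
      rw [hw', h]
      have h1 : (√(B v v))⁻¹ * B v w + α w = c * (√(B v v) + α v) := by
        have h2 : (√(B v v))⁻¹ * (c * B v v) = c * √(B v v) := by
          nth_rewrite 2 [← hNN]
          field_simp
        rw [hwc, map_smul, map_smul, smul_eq_mul, smul_eq_mul, h2]
        ring
      rw [h1]
      simp only [map_zero, mul_zero, add_zero]
      positivity
    · rw [hw']
      have h1 := hp _ h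
      positivity

end Randers

/-! ## Mechanical Lagrangians -/

/-- `L(x,v,t) = h(v) + V(x,t)` is asymptotic to `h`. -/
theorem mech_isAsymptotic (h : Vec n → ℝ) {k : ℕ∞} (V : Fun n) (hV : ContDiff ℝ k V)
    (hp : IsPeriodic V) : IsAsymptotic (Full n) h k (fun q => h q.2.1 + V (q.1, q.2.2)) := by
  refine ⟨fun q => V (q.1, q.2.2), fun _ => 0, 0, ⟨?_, ?_, ?_⟩, ⟨contDiffOn_const, ?_, ?_⟩, ?_⟩
  · have h1 : ContDiff ℝ k (fun q : Vec n × Vec n × ℝ => (q.1, q.2.2)) := by fun_prop
    exact (hV.comp h1).contDiffOn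
  · intro x v t _ c _
    rfl
  · intro m l x v t _
    exact hp m l x t
  · intro j _ ε hε
    refine ⟨0, fun x v t _ _ => ?_⟩
    have h1 : iteratedFDeriv ℝ j (fun _ : Vec n × Vec n × ℝ => (0 : ℝ)) = 0 := by
      exact iteratedFDeriv_fun_zero
    rw [h1]
    simpa using hε.le
  · intro _ _ _ _ _ _ _
    rfl
  · intro x v t _ _
    simp

/-- A flat metric is a kinetic energy, and all mechanical Lagrangians with this kinetic energy satisfy
the hypotheses of the theorem. -/
theorem flat_metric (B : Vec n →L[ℝ] Vec n →L[ℝ] ℝ) (hs : ∀ v w, B v w = B w v)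
    (hp : ∀ v, v ≠ 0 → 0 < B v v) {k : ℕ∞} (V : Fun n) (hV : ContDiff ℝ k V) (hper : IsPeriodic V) :
    IsKinetic (Full n) (fun v => B v v / 2) ∧
      IsAsymptotic (Full n) (fun v => B v v / 2) k (fun q => B q.2.1 q.2.1 / 2 + V (q.1, q.2.2)) := by
  refine ⟨?_, mech_isAsymptotic _ V hV hper⟩
  have h1 := randers_isKinetic (α := 0) hs hp fun v hv => by simpa using hp v hv
  have h2 : (fun v => B v v / 2) = randers B 0 := by
    funext v
    have h3 : 0 ≤ B v v := by
      by_cases hv : v = 0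
      · simp [hv]
      · exact (hp v hv).le
    simp only [randers, zero_apply, add_zero, Real.sq_sqrt h3]
  rw [h2]
  exact h1

/-- The same for Randers norms, translation invariant Finsler metrics which are in general not
reversible. -/
theorem randers_metric (B : Vec n →L[ℝ] Vec n →L[ℝ] ℝ) (hs : ∀ v w, B v w = B w v)
    (hp : ∀ v, v ≠ 0 → 0 < B v v) (α : Vec n →L[ℝ] ℝ) (ha : ∀ v, v ≠ 0 → α v ^ 2 < B v v)
    {k : ℕ∞} (V : Fun n) (hV : ContDiff ℝ k V) (hper : IsPeriodic V) :
    IsKinetic (Full n) (randers B α) ∧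
      IsAsymptotic (Full n) (randers B α) k (fun q => randers B α q.2.1 + V (q.1, q.2.2)) :=
  ⟨randers_isKinetic hs hp ha, mech_isAsymptotic _ V hV hper⟩

/-- A potential may also depend on the direction of the velocity: `V(x,t) g(v/|v|)`. -/
theorem degreeZero_of_direction {k : ℕ∞} (V : Fun n) (hV : ContDiff ℝ k V) (hper : IsPeriodic V)
    (g : Vec n → ℝ) (hg : ContDiffOn ℝ k g (Full n)) :
    IsDegreeZero (Full n) k (fun q => V (q.1, q.2.2) * g (‖q.2.1‖⁻¹ • q.2.1)) := by
  refine ⟨?_, ?_, ?_⟩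
  · have h1 : ContDiff ℝ k (fun q : Vec n × Vec n × ℝ => (q.1, q.2.2)) := by fun_prop
    refine (hV.comp h1).contDiffOn.mul ?_
    have h2 : ContDiffOn ℝ k (fun q : Vec n × Vec n × ℝ => ‖q.2.1‖⁻¹ • q.2.1)
        {q | q.2.1 ∈ Full n} := by
      have h3 : ContDiffOn ℝ k (fun q : Vec n × Vec n × ℝ => q.2.1) {q | q.2.1 ∈ Full n} :=
        (contDiff_fst.comp contDiff_snd).contDiffOn
      exact ((h3.norm ℝ fun q hq => hq).inv fun q hq => norm_ne_zero_iff.2 hq).smul h3
    refine hg.comp h2 fun q hq => ?_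
    exact smul_ne_zero (inv_ne_zero (norm_ne_zero_iff.2 hq)) hq
  · intro x v t hv c hc
    have h1 : ‖c • v‖⁻¹ • c • v = ‖v‖⁻¹ • v := by
      rw [norm_smul, Real.norm_of_nonneg hc.le, smul_smul]
      congr 1
      have : ‖v‖ ≠ 0 := norm_ne_zero_iff.2 hv
      field_simp
    show V (x, t) * g (‖c • v‖⁻¹ • c • v) = V (x, t) * g (‖v‖⁻¹ • v)
    rw [h1]
  · intro m l x v t _
    show V (x + vz m, t + l) * g (‖v‖⁻¹ • v) = V (x, t) * g (‖v‖⁻¹ • v)
    rw [hper m l x t]

end EscF.T.Sane
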