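import Mathlib

/-!
Outer definitions of project EscF: the space `C^k(𝕋ⁿ × 𝕋)`, Lagrangians on `𝕋ⁿ` which are asymptotic to a
kinetic energy on a cone of velocities, orbits. (To be copied to the hand-in file.)
-/

namespace EscF.T

open Filter Topology Set
open scoped ContDiff UniformConvergence

/-- The space `ℝⁿ`. -/
abbrev Vec (n : ℕ) := EuclideanSpace ℝ (Fin n)

/-- The integer vector `m`. -/
noncomputable def vz {n : ℕ} (m : Fin n → ℤ) : Vec n := WithLp.toLp 2 (fun i => (m i : ℝ))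

/-- Functions on `ℝⁿ × ℝ` (position and time). -/
abbrev Fun (n : ℕ) := Vec n × ℝ → ℝ

/-- A function on `ℝⁿ × ℝ` that descends to `𝕋ⁿ × 𝕋`. -/
def IsPeriodic {n : ℕ} (f : Fun n) : Prop :=
  ∀ (m : Fin n → ℤ) (l : ℤ) (x : Vec n) (t : ℝ), f (x + vz m, t + l) = f (x, t)

/-- The space `C^k(𝕋ⁿ × 𝕋)` of potentials (`k = ∞` is allowed). -/
structure Pot (n : ℕ) (k : ℕ∞) where
  /-- the underlying function -/
  toFun : Fun n
  contDiff : ContDiff ℝ k toFun
  periodic : IsPeriodic toFun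

/-- The derivatives of order `j ≤ k` of a potential, as elements of the spaces of functions with
the topology of uniform convergence. -/
noncomputable def jet {n : ℕ} {k : ℕ∞} (f : Pot n k) (j : {j : ℕ // (j : ℕ∞) ≤ k}) :
    (Vec n × ℝ) →ᵤ ContinuousMultilinearMap ℝ (fun _ : Fin j.1 => Vec n × ℝ) ℝ :=
  UniformFun.ofFun (iteratedFDeriv ℝ j.1 f.toFun)

/-- The `C^k` topology: uniform convergence of all derivatives of order at most `k`. -/
noncomputable instance (n : ℕ) (k : ℕ∞) : TopologicalSpace (Pot n k) :=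
  TopologicalSpace.induced jet inferInstance

/-- Functions of position, velocity and time: Lagrangians on `𝕋ⁿ`, lifted to `ℝⁿ`. -/
abbrev Lag (n : ℕ) := Vec n × Vec n × ℝ → ℝ

variable {n : ℕ}

/-- An open cone of velocities, without the zero vector. -/
def IsOpenCone (C : Set (Vec n)) : Prop :=
  IsOpen C ∧ (0 : Vec n) ∉ C ∧ ∀ v ∈ C, ∀ c : ℝ, 0 < c → c • v ∈ C

/-- A kinetic energy on the cone `C`: of class `C²`, positively homogeneous of degree two, with
positive definite second derivative. (On the cone of all nonzero velocities: `h = F²/2` for a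
Minkowski norm `F`, that is, a translation invariant Finsler metric.) -/
structure IsKinetic (C : Set (Vec n)) (h : Vec n → ℝ) : Prop where
  smooth : ContDiffOn ℝ 2 h C
  hom : ∀ v ∈ C, ∀ c : ℝ, 0 < c → h (c • v) = c ^ 2 * h v
  pos : ∀ v ∈ C, ∀ w, w ≠ 0 → 0 < iteratedFDeriv ℝ 2 h v ![w, w]

/-- `V` is, on `𝕋ⁿ × C × 𝕋`, periodic in position and time, of class `C^k`, and positively
homogeneous of degree zero in the velocity. -/
structure IsDegreeZero (C : Set (Vec n)) (k : ℕ∞) (V : Lag n) : Prop where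
  smooth : ContDiffOn ℝ k V {q | q.2.1 ∈ C}
  hom : ∀ x v t, v ∈ C → ∀ c : ℝ, 0 < c → V (x, c • v, t) = V (x, v, t)
  periodic : ∀ (m : Fin n → ℤ) (l : ℤ) x v t, v ∈ C → V (x + vz m, v, t + l) = V (x, v, t)

/-- `r` is periodic and of class `C²` for velocities `v` in `C` with `|v| > R`, and tends to zero as
`|v| → ∞`, together with its derivatives of order one and two. -/
structure IsSmallAtInfinity (C : Set (Vec n)) (R : ℝ) (r : Lag n) : Prop where
  smooth : ContDiffOn ℝ 2 r {q | q.2.1 ∈ C ∧ R < ‖q.2.1‖}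
  small : ∀ j ≤ 2, ∀ ε : ℝ, 0 < ε → ∃ R', ∀ x v t, v ∈ C → R' < ‖v‖ →
    ‖iteratedFDeriv ℝ j r (x, v, t)‖ ≤ ε
  periodic : ∀ (m : Fin n → ℤ) (l : ℤ) x v t, v ∈ C → R < ‖v‖ → r (x + vz m, v, t + l) = r (x, v, t)

/-- For velocities `v` in the cone `C` with `|v| > R`, the Lagrangian `L` is the sum of the kinetic
energy `h`, a term of degree zero and a term that vanishes at infinity. -/
def IsAsymptotic (C : Set (Vec n)) (h : Vec n → ℝ) (k : ℕ∞) (L : Lag n) : Prop :=
  ∃ (V r : Lag n) (R : ℝ), IsDegreeZero C k V ∧ IsSmallAtInfinity C R r ∧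
    ∀ x v t, v ∈ C → R < ‖v‖ → L (x, v, t) = h v + V (x, v, t) + r (x, v, t)

/-- `L + f` -/
def addPot (L : Lag n) (f : Fun n) : Lag n := fun q => L q + f (q.1, q.2.2)

/-- `x` is an orbit, on `(0,∞)`, of the Euler-Lagrange flow of `L`: it is twice continuously
differentiable, `L` is of class `C²` near the points `(x, x', t)`, and `d/dt (∂L/∂v) = ∂L/∂x`. -/
def IsOrbit (L : Lag n) (x : ℝ → Vec n) : Prop :=
  ContDiffOn ℝ 2 x (Ioi 0) ∧
    ∀ t, 0 < t → ContDiffAt ℝ 2 L (x t, deriv x t, t) ∧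
      HasDerivAt (fun s => fderiv ℝ (fun v => L (x s, v, s)) (deriv x s))
        (fderiv ℝ (fun y => L (y, deriv x t, t)) (x t)) t

/-- The Euler-Lagrange flow of `L` has an orbit that tends to infinity with velocity in `D`. -/
def HasEscapingOrbit (L : Lag n) (D : Set (Vec n)) : Prop :=
  ∃ x : ℝ → Vec n, IsOrbit L x ∧ (∀ t, 0 < t → deriv x t ∈ D) ∧
    Tendsto (fun t => ‖deriv x t‖) atTop atTop

end EscF.T
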