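import Pool.Agent.EscF.Defs
import Pool.Agent.EscF.TDefs

/-!
Auxiliary definitions of the outer modules of project EscF.
-/

noncomputable section

namespace EscF.T

open Filter Topology Set Esc EscN
open scoped ContDiff

/-- normalised data: a kinetic energy `h` on all of `ℝⁿ` and a bounded term `B` -/
structure GLag {n : ℕ} (h : Vec n → ℝ) (B : Lag n) (m Λ : ℝ) : Prop where
  m_pos : 0 < m
  Λ_ge : 1 ≤ Λ
  h_smooth : ContDiff ℝ 2 h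
  h_bd : ∀ v, ‖fderiv ℝ (fderiv ℝ h) v‖ ≤ Λ
  B_smooth : ContDiff ℝ 2 B
  B0 : ∀ q, |B q| ≤ Λ
  B1 : ∀ q, ‖fderiv ℝ B q‖ ≤ Λ
  B2 : ∀ q, ‖fderiv ℝ (fderiv ℝ B) q‖ ≤ Λ
  B_per : ∀ (m : Fin n → ℤ) (l : ℤ) x v t, B (x + vz m, v, t + l) = B (x, v, t)
  conv_h : ∀ v w, m * ‖w‖ ^ 2 ≤ fderiv ℝ (fderiv ℝ h) v w w
  conv : ∀ x v t w, m * ‖w‖ ^ 2 ≤ fderiv ℝ (fderiv ℝ h) v w w +
    fderiv ℝ (fderiv ℝ B) (x, v, t) (0, w, 0) (0, w, 0)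

/-- `h' + B` is a global Lagrangian which agrees with `L` for large velocities in `C` -/
structure Ext {n : ℕ} (C : Set (Vec n)) (h : Vec n → ℝ) (V L : Lag n) (h' : Vec n → ℝ) (B : Lag n)
    (m Λ R : ℝ) : Prop where
  gl : GLag h' B m Λ
  h_eq : ∀ v ∈ C, R ≤ ‖v‖ → h' v = h v
  L_eq : ∀ x v t, v ∈ C → R ≤ ‖v‖ → L (x, v, t) = h' v + B (x, v, t)
  lim : ∀ ε : ℝ, 0 < ε → ∃ R', ∀ x v t, v ∈ C → R' ≤ ‖v‖ → |B (x, v, t) - V (x, v, t)| ≤ ε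

/-- `τ` is a basis of `ℤⁿ` -/
def IsZBasis {n : ℕ} (τ : Fin n → Vec n) : Prop :=
  (∀ i, ∃ m : Fin n → ℤ, τ i = vz m) ∧
    ∀ j, ∃ m : Fin n → ℤ, EuclideanSpace.single j (1 : ℝ) = ∑ i, (m i : ℝ) • τ i

/-- the lattice basis in the direction `K` -/
def rho {d : ℕ} (τ : Fin (d + 1) → Vec (d + 1)) (K : ℕ) : Fin (d + 1) → Vec (d + 1) :=
  Fin.snoc (fun i : Fin d => τ i.castSucc - (K : ℝ) • τ (Fin.last d)) (τ (Fin.last d))

/-- the limit direction of the fast velocities -/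
def top {d : ℕ} (τ : Fin (d + 1) → Vec (d + 1)) (K : ℕ) (hd : 0 < d) : Vec (d + 1) :=
  τ (Fin.castSucc ⟨d - 1, Nat.sub_lt hd one_pos⟩) - (K : ℝ) • τ (Fin.last d)

/-- second derivative of `h` -/
def hess {n : ℕ} (h : Vec n → ℝ) (v : Vec n) : Vec n →L[ℝ] Vec n →L[ℝ] ℝ := fderiv ℝ (fderiv ℝ h) v

/-- a frame: linear change of variables `A` adapted to the form `Q` and the basis `ρ` -/
structure Frame (d : ℕ) (Q : Vec (d + 1) →L[ℝ] Vec (d + 1) →L[ℝ] ℝ)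
    (ρ : Fin (d + 1) → Vec (d + 1)) where
  A : Vec (d + 1) ≃L[ℝ] Vec (d + 1)
  c : ℝ
  c_pos : 0 < c
  L : Lat d (Vec (d + 1))
  hT : ∀ v w, inner ℝ (A v) (A w) = c * Q v w
  hb : ∀ i : Fin d, L.b i = A (ρ i.castSucc)
  hg : L.g = A (ρ (Fin.last d))

/-- the potential on `E` -/
def core {d : ℕ} {Q : Vec (d + 1) →L[ℝ] Vec (d + 1) →L[ℝ] ℝ}
    {ρ : Fin (d + 1) → Vec (d + 1)} (F : Frame d Q ρ) (f : Fun (d + 1)) : Vec (d + 1) → ℝ → ℝ := fun X t => F.c * f (F.A.symm X, t)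

/-- sum of potentials -/
def Pot.add {n : ℕ} {k : ℕ∞} (f g : Pot n k) : Pot n k where
  toFun := f.toFun + g.toFun
  contDiff := f.contDiff.add g.contDiff
  periodic := fun m l x t => by simp only [Pi.add_apply]; rw [f.periodic, g.periodic]

end EscF.T
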