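import Pool.Agent.EscF.TDa

/-!
Project EscF, TD: slices of periodic functions of position, velocity and time. Uniform continuity of
the derivatives.
-/

noncomputable section

namespace EscF.T.TD

open Filter Topology Set Finset
open scoped ContDiff

variable {n : ℕ} {k : ℕ∞}

/-- the linear map `(x, t) ↦ (x, 0, t)` -/
def ins (n : ℕ) : Vec n × ℝ →L[ℝ] Vec n × Vec n × ℝ :=
  (ContinuousLinearMap.fst ℝ (Vec n) ℝ).prod ((0 : Vec n × ℝ →L[ℝ] Vec n).prod (ContinuousLinearMap.snd ℝ (Vec n) ℝ))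

lemma ins_apply (p : Vec n × ℝ) : ins n p = (p.1, 0, p.2) := rfl

lemma norm_ins_le : ‖ins n‖ ≤ 1 := by
  refine ContinuousLinearMap.opNorm_le_bound _ zero_le_one fun p => ?_
  rw [ins_apply, one_mul]
  simp [Prod.norm_def]

lemma isOpen_vel {C : Set (Vec n)} (hC : IsOpen C) : IsOpen {q : Vec n × Vec n × ℝ | q.2.1 ∈ C} :=
  hC.preimage (continuous_fst.comp continuous_snd)

/-- slice at the velocity `u` -/
def sl (Φ : Lag n) (u : Vec n) : Fun n := fun p => Φ (p.1, u, p.2)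

lemma sl_contDiff {Φ : Lag n} {C : Set (Vec n)}
    (hΦ : ContDiffOn ℝ k Φ {q | q.2.1 ∈ C}) {u : Vec n} (hu : u ∈ C) : ContDiff ℝ k (sl Φ u) := by
  have h1 : ContDiff ℝ k (fun p : Vec n × ℝ => (p.1, u, p.2)) :=
    contDiff_fst.prodMk (contDiff_const.prodMk contDiff_snd)
  rw [← contDiffOn_univ]
  exact hΦ.comp h1.contDiffOn fun p _ => hu

lemma sl_iter {Φ : Lag n} {C : Set (Vec n)} (hC : IsOpen C)
    (hΦ : ContDiffOn ℝ k Φ {q | q.2.1 ∈ C}) {u : Vec n} (hu : u ∈ C) {j : ℕ} (hj : (j : ℕ∞) ≤ k)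
    (p : Vec n × ℝ) : iteratedFDeriv ℝ j (sl Φ u) p =
      (iteratedFDeriv ℝ j Φ (p.1, u, p.2)).compContinuousLinearMap (fun _ => ins n) := by
  set s : Set (Vec n × Vec n × ℝ) := (fun q => q + (0, u, 0)) ⁻¹' {q | q.2.1 ∈ C} with hs
  have hso : IsOpen s := (isOpen_vel hC).preimage (continuous_id.add continuous_const)
  have hΦ' : ContDiffOn ℝ k (fun q => Φ (q + (0, u, 0))) s :=
    hΦ.comp (contDiffOn_id.add contDiffOn_const) fun q hq => hq
  have hpre : ins n ⁻¹' s = univ := by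
    ext q
    simp only [hs, Set.mem_preimage, Set.mem_ofPred_eq, Set.mem_univ, iff_true]
    change (0 : Vec n) + u ∈ C
    rwa [zero_add]
  have hmem : ins n p ∈ s := by
    have : p ∈ ins n ⁻¹' s := by rw [hpre]; trivial
    exact this
  have h1 := (ins n).iteratedFDerivWithin_comp_right hΦ' hso.uniqueDiffOn
    (by rw [hpre]; exact uniqueDiffOn_univ) hmem (i := j) (by exact_mod_cast hj)
  rw [hpre, iteratedFDerivWithin_univ, iteratedFDerivWithin_of_isOpen _ hso hmem] at h1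
  have e1 : ((fun q => Φ (q + (0, u, 0))) ∘ ins n) = sl Φ u := by
    funext q
    change Φ ((q.1, 0, q.2) + (0, u, 0)) = Φ (q.1, u, q.2)
    simp
  have e2 : ins n p + (0, u, 0) = (p.1, u, p.2) := by
    rw [ins_apply]; simp
  rw [e1, iteratedFDeriv_comp_add_right, e2] at h1
  exact h1

lemma norm_comp_ins_le {j : ℕ} (A : ContinuousMultilinearMap ℝ (fun _ : Fin j => Vec n × Vec n × ℝ) ℝ) :
    ‖A.compContinuousLinearMap (fun _ => ins n)‖ ≤ ‖A‖ := by
  refine (A.norm_compContinuousLinearMap_le _).trans ?_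
  refine mul_le_of_le_one_right (norm_nonneg _) ?_
  exact Finset.prod_le_one (fun _ _ => norm_nonneg _) fun _ _ => norm_ins_le

/-- periodicity of the derivatives -/
lemma iter_per' {Φ : Lag n} {C : Set (Vec n)} (hC : IsOpen C)
    (hper : ∀ (m : Fin n → ℤ) (l : ℤ) x v t, v ∈ C → Φ (x + vz m, v, t + l) = Φ (x, v, t)) (j : ℕ)
    (m : Fin n → ℤ) (l : ℤ) (x : Vec n) {v : Vec n} (hv : v ∈ C) (t : ℝ) :
    iteratedFDeriv ℝ j Φ (x + vz m, v, t + l) = iteratedFDeriv ℝ j Φ (x, v, t) := by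
  have h := iteratedFDeriv_comp_add_right (𝕜 := ℝ) (f := Φ) j (vz m, (0 : Vec n), (l : ℝ)) (x, v, t)
  have e : (x, v, t) + (vz m, (0 : Vec n), (l : ℝ)) = (x + vz m, v, t + l) := by simp
  rw [e] at h
  rw [← h]
  have hev : (fun q : Vec n × Vec n × ℝ => Φ (q + (vz m, (0 : Vec n), (l : ℝ)))) =ᶠ[𝓝 (x, v, t)] Φ := by
    filter_upwards [(isOpen_vel hC).mem_nhds (show (x, v, t) ∈ {q : Vec n × Vec n × ℝ | q.2.1 ∈ C} from hv)] with q hq
    have e2 : q + (vz m, (0 : Vec n), (l : ℝ)) = (q.1 + vz m, q.2.1, q.2.2 + l) := by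
      ext <;> simp
    rw [e2]
    exact hper m l q.1 q.2.1 q.2.2 hq
  exact (hev.iteratedFDeriv ℝ j).eq_of_nhds

/-- the derivatives are uniformly continuous in the position -/
theorem iter_uc {Φ : Lag n} {C : Set (Vec n)} (hC : IsOpen C)
    (hΦ : ContDiffOn ℝ k Φ {q | q.2.1 ∈ C})
    (hper : ∀ (m : Fin n → ℤ) (l : ℤ) x v t, v ∈ C → Φ (x + vz m, v, t + l) = Φ (x, v, t))
    {j : ℕ} (hj : (j : ℕ∞) ≤ k) {S : Set (Vec n)} (hS : IsCompact S) (hSC : S ⊆ C) {ε : ℝ} (hε : 0 < ε) :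
    ∃ ρ > 0, ∀ x x' v t, v ∈ S → ‖x' - x‖ ≤ ρ →
      ‖iteratedFDeriv ℝ j Φ (x', v, t) - iteratedFDeriv ℝ j Φ (x, v, t)‖ ≤ ε := by
  have hc : ContinuousOn (iteratedFDeriv ℝ j Φ) {q | q.2.1 ∈ C} := by
    have h1 := hΦ.continuousOn_iteratedFDerivWithin (m := j) (by exact_mod_cast hj) (isOpen_vel hC).uniqueDiffOn
    exact h1.congr fun q hq => (iteratedFDerivWithin_of_isOpen _ (isOpen_vel hC) hq).symm
  set T : Set (Vec n × Vec n × ℝ) := box n (-1) 2 ×ˢ (S ×ˢ Icc (0 : ℝ) 1) with hT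
  have hTc : IsCompact T := (isCompact_box _ _).prod (hS.prod isCompact_Icc)
  have hTC : T ⊆ {q | q.2.1 ∈ C} := fun q hq => hSC hq.2.1
  have huc := hTc.uniformContinuousOn_of_continuous (hc.mono hTC)
  rw [Metric.uniformContinuousOn_iff_le] at huc
  obtain ⟨ρ, hρ, h⟩ := huc ε hε
  refine ⟨min ρ 1, lt_min hρ one_pos, fun x x' v t hv hx => ?_⟩
  obtain ⟨m, hm⟩ := exists_int x
  have hm' : ∀ i, (x' - vz m) i ∈ Icc (-1 : ℝ) 2 := by
    intro i
    have h1 := hm i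
    have h2 : |(x' - x) i| ≤ 1 := by
      have := EuclideanSpace.norm_eq (x' - x)
      have h3 : ‖(x' - x) i‖ ≤ ‖x' - x‖ := PiLp.norm_apply_le (x' - x) i
      rw [Real.norm_eq_abs] at h3
      exact h3.trans (hx.trans (min_le_right _ _))
    have e : (x' - vz m) i = (x - vz m) i + (x' - x) i := by
      simp only [PiLp.sub_apply]; ring
    rw [e]
    rw [abs_le] at h2
    constructor <;> linarith [h1.1, h1.2]
  have ht : t - ⌊t⌋ ∈ Icc (0 : ℝ) 1 := ⟨Int.fract_nonneg t, (Int.fract_lt_one t).le⟩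
  have h1 := h (x' - vz m, v, t - ⌊t⌋) ⟨hm', hv, ht⟩ (x - vz m, v, t - ⌊t⌋)
    ⟨fun i => ⟨by linarith [(hm i).1], by linarith [(hm i).2]⟩, hv, ht⟩ (by
      rw [Prod.dist_eq, Prod.dist_eq, dist_self, dist_self, max_self, dist_eq_norm, sub_sub_sub_cancel_right,
        max_eq_left (norm_nonneg _)]
      exact hx.trans (min_le_left _ _))
  have e1 := iter_per' hC hper j m ⌊t⌋ (x' - vz m) (hSC hv) (t - ⌊t⌋)
  have e2 := iter_per' hC hper j m ⌊t⌋ (x - vz m) (hSC hv) (t - ⌊t⌋)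
  rw [sub_add_cancel, sub_add_cancel] at e1 e2
  rw [dist_eq_norm, ← e1, ← e2] at h1
  exact h1

/-! ### Means along a period -/

section means
variable {W V : Type*} [NormedAddCommGroup W] [NormedSpace ℝ W] [NormedAddCommGroup V] [NormedSpace ℝ V]

lemma mn_shift {q B : ℕ} (hq : 0 < q) {w : W} {h : W → V} (hw : ∀ x, h (x + w) = h x) (i : ℕ) (x : W) :
    EscN.mn q B w h (x + ((i : ℝ) / q) • w) = EscN.mn q B w h x := by
  have hqR : (q : ℝ) ≠ 0 := by exact_mod_cast hq.ne'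
  have hB : ∀ (b : ℕ) x, h (x + (b : ℝ) • w) = h x := by
    intro b
    induction b with
    | zero => intro x; simp
    | succ b ih =>
      intro x
      rw [Nat.cast_succ, add_smul, one_smul, ← add_assoc, hw, ih]
  induction i generalizing x with
  | zero => simp
  | succ i ih =>
    have e : x + (((i + 1 : ℕ) : ℝ) / q) • w = (x + ((i : ℝ) / q) • w) + ((1 : ℝ) / q) • w := by
      rw [Nat.cast_succ, add_div, add_smul, add_assoc]
    rw [e]
    set y := x + ((i : ℝ) / q) • w with hy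
    rw [← ih x, ← hy]
    unfold EscN.mn
    congr 1
    have e1 : ∀ l : ℕ, y + ((1 : ℝ) / q) • w + ((l : ℝ) / q) • w = y + (((l + 1 : ℕ) : ℝ) / q) • w := by
      intro l
      rw [Nat.cast_succ, add_div, add_smul, add_assoc, add_comm (((1 : ℝ) / q) • w)]
    simp only [e1]
    have h1 := Finset.sum_range_succ (fun l : ℕ => h (y + ((l : ℝ) / q) • w)) (q * B)
    have h2 := Finset.sum_range_succ' (fun l : ℕ => h (y + ((l : ℝ) / q) • w)) (q * B)
    have e2 : h (y + (((q * B : ℕ) : ℝ) / q) • w) = h y := by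
      have : (((q * B : ℕ) : ℝ) / q) = (B : ℝ) := by
        rw [Nat.cast_mul, mul_div_cancel_left₀ _ hqR]
      rw [this, hB]
    have e3 : h (y + (((0 : ℕ) : ℝ) / q) • w) = h y := by simp
    rw [e2] at h1
    rw [e3, h1] at h2
    exact (add_right_cancel h2).symm

end means

/-- the means along the tilted vectors do not see the difference between the derivatives and their
means along the last vector, uniformly for velocities in a compact set -/
theorem small_mean {Φ : Lag n} {C : Set (Vec n)} (hC : IsOpen C)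
    (hΦ : ContDiffOn ℝ k Φ {q | q.2.1 ∈ C})
    (hper : ∀ (m : Fin n → ℤ) (l : ℤ) x v t, v ∈ C → Φ (x + vz m, v, t + l) = Φ (x, v, t))
    (r : ℕ) (hr : (r : ℕ∞) ≤ k) {S : Set (Vec n)} (hS : IsCompact S) (hSC : S ⊆ C) (a : Fin n → ℤ) (b : Vec n)
    {ε : ℝ} (hε : 0 < ε) : ∃ B1 : ℕ, ∀ B' : ℕ, B1 ≤ B' → 0 < B' → ∀ u ∈ S, ∀ q B : ℕ, 0 < q → 0 < B →
      ∀ j ≤ r, ∀ x t, ‖EscN.mn (B' ^ 2 * q) 1 (-(b - (B' ^ 2 : ℝ) • vz a))
        (fun z => iteratedFDeriv ℝ j (sl Φ u) (z, t) -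
          EscN.mn q B (vz a) (fun z => iteratedFDeriv ℝ j (sl Φ u) (z, t)) z) x‖ ≤ ε := by
  have h1 : ∀ j : ℕ, ∃ ρ > 0, j ≤ r → ∀ x x' v t, v ∈ S → ‖x' - x‖ ≤ ρ →
      ‖iteratedFDeriv ℝ j Φ (x', v, t) - iteratedFDeriv ℝ j Φ (x, v, t)‖ ≤ ε / 2 := by
    intro j
    by_cases hj : j ≤ r
    · obtain ⟨ρ, hρ, h⟩ := iter_uc hC hΦ hper (j := j) (le_trans (by exact_mod_cast hj) hr) hS hSC
        (half_pos hε)
      exact ⟨ρ, hρ, fun _ => h⟩
    · exact ⟨1, one_pos, fun h => absurd h hj⟩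
  choose ρ hρ huc using h1
  obtain ⟨ρ0, hρ0, hle⟩ : ∃ ρ0 > 0, ∀ j ≤ r, ρ0 ≤ ρ j := by
    have hne : (Finset.range (r + 1)).Nonempty := ⟨0, by simp⟩
    obtain ⟨j0, _, hmin⟩ := (Finset.range (r + 1)).exists_min_image ρ hne
    exact ⟨ρ j0, hρ j0, fun j hj => hmin j (Finset.mem_range.2 (Nat.lt_succ_of_le hj))⟩
  obtain ⟨B1, hB1⟩ := exists_nat_ge (‖b‖ / ρ0)
  refine ⟨B1, fun B' hB' hpos u hu q B hq hB j hj x t => ?_⟩
  have hBR : (0 : ℝ) < B' := by exact_mod_cast hpos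
  have hjk : (j : ℕ∞) ≤ k := le_trans (by exact_mod_cast hj) hr
  have hv : ‖b‖ / B' ≤ ρ0 := by
    have h1 : (B1 : ℝ) ≤ B' := by exact_mod_cast hB'
    have h2 := hB1.trans h1
    rw [div_le_iff₀ hρ0] at h2
    rw [div_le_iff₀ hBR]
    linarith
  have hs : 0 + 2 * (ε / 2) = ε := by ring
  rw [← hs]
  have huS := hSC hu
  refine EscN.block_mean hq hB hpos ?_ ?_ x
  · intro y s hs hs'
    rw [sl_iter hC hΦ huS hjk, sl_iter hC hΦ huS hjk]
    have e : ((iteratedFDeriv ℝ j Φ (y - s • b, u, t)).compContinuousLinearMap fun _ => ins n) -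
        ((iteratedFDeriv ℝ j Φ (y, u, t)).compContinuousLinearMap fun _ => ins n) =
        (iteratedFDeriv ℝ j Φ (y - s • b, u, t) - iteratedFDeriv ℝ j Φ (y, u, t)).compContinuousLinearMap
          fun _ => ins n := rfl
    rw [e]
    refine (norm_comp_ins_le _).trans (huc j hj y (y - s • b) u t hu ?_)
    rw [sub_sub_cancel_left, norm_neg, norm_smul, Real.norm_eq_abs, abs_of_nonneg hs]
    refine le_trans (mul_le_mul_of_nonneg_right hs' (norm_nonneg _)) ?_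
    rw [one_div, inv_mul_eq_div]
    exact hv.trans (hle j hj)
  · intro y i
    have hw : ∀ z : Vec n, iteratedFDeriv ℝ j (sl Φ u) (z + vz a, t) = iteratedFDeriv ℝ j (sl Φ u) (z, t) := by
      intro z
      rw [sl_iter hC hΦ huS hjk, sl_iter hC hΦ huS hjk]
      have := iter_per' hC hper j a 0 z huS t
      rw [Int.cast_zero, add_zero] at this
      rw [this]
    rw [mn_shift hq hw, sub_self, norm_zero]

end EscF.T.TD
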