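import Pool.Agent.EscF.TP
import Pool.Agent.EscF.TDb
import Pool.Agent.EscN.T3b
import Pool.Agent.EscN.SpAP

/-!
Project EscF, TD: density of the data classes.
-/

noncomputable section

namespace EscF.T

open Filter Topology Set Esc EscN
open scoped ContDiff

namespace TD

lemma mn_lift {W : Type*} [NormedAddCommGroup W] [NormedSpace ℝ W] (A : W ≃L[ℝ] W) (Φ : W → ℝ) (Q B : ℕ)
    (w X : W) : EscN.mn Q B (A w) (fun Z => Φ (A.symm Z)) X = EscN.mn Q B w Φ (A.symm X) := by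
  unfold EscN.mn
  congr 1
  refine Finset.sum_congr rfl fun l _ => ?_
  simp only
  rw [map_add, map_smul, A.symm_apply_apply]

lemma mn_mul (Q B : ℕ) {W : Type*} [NormedAddCommGroup W] [NormedSpace ℝ W] (w : W) (c : ℝ) (g : W → ℝ)
    (z : W) : EscN.mn Q B w (fun z => c * g z) z = c * EscN.mn Q B w g z := by
  unfold EscN.mn
  rw [← Finset.mul_sum, smul_eq_mul, smul_eq_mul]
  ring

lemma vz_sum {n : ℕ} (m : Fin n → ℤ) : vz m = ∑ j, (m j : ℝ) • EuclideanSpace.single j (1 : ℝ) := by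
  ext i
  simp [vz, Finset.sum_apply, Pi.single_apply]

/-- a linear functional with integer values on a basis of `ℤⁿ` has integer values on `ℤⁿ` -/
lemma int_of_basis {n : ℕ} {τ : Fin n → Vec n} (hτ : IsZBasis τ) (y : Vec n →L[ℝ] ℝ)
    (hy : ∀ i, ∃ z : ℤ, y (τ i) = z) (m : Fin n → ℤ) : ∃ z : ℤ, y (vz m) = z := by
  choose z hz using hy
  choose c hc using hτ.2
  refine ⟨∑ j, m j * ∑ i, c j i * z i, ?_⟩
  rw [vz_sum, map_sum]
  push_cast
  refine Finset.sum_congr rfl fun j _ => ?_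
  rw [map_smul, hc, map_sum, smul_eq_mul]
  congr 1
  refine Finset.sum_congr rfl fun i _ => ?_
  rw [map_smul, hz, smul_eq_mul]

end TD

variable {d : ℕ}

theorem dense_dat (hd : 0 < d) {k : ℕ∞} (hk : 2 ≤ k) {τ : Fin (d + 1) → Vec (d + 1)} (hτ : IsZBasis τ)
    {C : Set (Vec (d + 1))} (hC : IsOpenCone C) (hτC : -τ (Fin.last d) ∈ C) {V : Lag (d + 1)}
    (hV : IsDegreeZero C k V) (K0 : ℕ) (hK0 : ∀ K, K0 ≤ K → top τ K hd ∈ C)
    (Q : ℕ → Vec (d + 1) →L[ℝ] Vec (d + 1) →L[ℝ] ℝ) (F : ∀ K, K0 ≤ K → Frame d (Q K) (rho τ K))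
    (f : Pot (d + 1) k) (r : ℕ) (hr : (r : ℕ∞) ≤ k) {ε : ℝ} (hε : 0 < ε) :
    ∃ G : Pot (d + 1) k, (∀ j ≤ r, ∀ q, ‖iteratedFDeriv ℝ j G.toFun q‖ < ε) ∧
      ∃ (K : ℕ) (hK : K0 ≤ K) (p β : ℚ) (M0 : ℕ), (sp (F K hK).L).Dat p β M0 (fun X t =>
        (F K hK).c * V ((F K hK).A.symm X, top τ K hd, t) + core (F K hK) (Pot.add f G).toFun X t) := by
  obtain ⟨δ, hδ, hball⟩ := Metric.isOpen_iff.1 hC.1 _ hτC
  set S : Set (Vec (d + 1)) := Metric.closedBall (-τ (Fin.last d)) (δ / 2) with hS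
  have hSc : IsCompact S := isCompact_closedBall _ _
  have hSC : S ⊆ C := (Metric.closedBall_subset_ball (half_lt_self hδ)).trans hball
  obtain ⟨a, ha⟩ := hτ.1 (Fin.last d)
  set i0 : Fin d := ⟨0, hd⟩ with hi0
  set Φ : Lag (d + 1) := fun q => V q + f.toFun (q.1, q.2.2) with hΦdef
  have hΦ : ContDiffOn ℝ k Φ {q | q.2.1 ∈ C} := by
    refine hV.smooth.add ?_
    exact (f.contDiff.comp (contDiff_fst.prodMk (contDiff_snd.comp contDiff_snd))).contDiffOn
  have hper : ∀ (m : Fin (d + 1) → ℤ) (l : ℤ) x v t, v ∈ C → Φ (x + vz m, v, t + l) = Φ (x, v, t) := by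
    intro m l x v t hv
    rw [hΦdef]
    simp only
    rw [hV.periodic m l x v t hv, f.periodic m l]
  obtain ⟨B1, hB1⟩ := TD.small_mean hC.1 hΦ hper r hr hSc hSC a (τ i0.castSucc) (show 0 < ε / 4 by positivity)
  set jt : Fin (d + 1) := Fin.castSucc ⟨d - 1, Nat.sub_lt hd one_pos⟩ with hjt
  obtain ⟨K1, hK1⟩ := exists_nat_ge (‖τ jt‖ / (δ / 2))
  obtain ⟨B', hB'⟩ : ∃ B' : ℕ, B' = B1 + K0 + K1 + 1 := ⟨_, rfl⟩
  have hB'0 : 0 < B' := by omega
  obtain ⟨K, hKdef⟩ : ∃ K : ℕ, K = B' ^ 2 := ⟨_, rfl⟩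
  have hBK : B' ≤ K := by rw [hKdef]; nlinarith
  have hK : K0 ≤ K := by omega
  have hKpos : 0 < K := by omega
  have hKR : ((K : ℕ) : ℝ) = (B' : ℝ) ^ 2 := by rw [hKdef]; push_cast; rfl
  have hKR0 : (0 : ℝ) < K := by exact_mod_cast hKpos
  -- the direction
  set u : Vec (d + 1) := (K : ℝ)⁻¹ • top τ K hd with hu
  have hKu : (K : ℝ) • u = top τ K hd := by rw [hu, smul_inv_smul₀ hKR0.ne']
  have huS : u ∈ S := by
    rw [hS, Metric.mem_closedBall, dist_eq_norm]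
    have e : u - -τ (Fin.last d) = (K : ℝ)⁻¹ • τ jt := by
      rw [hu, top, smul_sub, inv_smul_smul₀ hKR0.ne', ← hjt]
      abel
    rw [e, norm_smul, norm_inv, Real.norm_eq_abs, abs_of_pos hKR0, inv_mul_eq_div, div_le_iff₀ hKR0]
    rw [div_le_iff₀ (half_pos hδ)] at hK1
    have h1 : (K1 : ℝ) ≤ K := by exact_mod_cast (by omega : K1 ≤ K)
    have h2 : (K1 : ℝ) * (δ / 2) ≤ K * (δ / 2) := mul_le_mul_of_nonneg_right h1 (half_pos hδ).le
    linarith
  have huC : u ∈ C := hSC huS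
  have hVu : ∀ x t, V (x, top τ K hd, t) = V (x, u, t) := fun x t => by
    rw [← hKu]
    exact hV.hom x u t huC K hKR0
  -- the frame
  obtain ⟨Fr, hFr⟩ : ∃ Fr : Frame d (Q K) (rho τ K), Fr = F K hK := ⟨_, rfl⟩
  have hc := Fr.c_pos
  have hρ := zbasis_rho hτ K
  obtain ⟨FK, hFK⟩ : ∃ FK : Pot (d + 1) k, FK.toFun = TD.sl Φ u := by
    refine ⟨⟨TD.sl Φ u, TD.sl_contDiff hΦ huC, fun m l x t => hper m l x u t huC⟩, rfl⟩
  -- the slow functional
  set y : Vec (d + 1) →L[ℝ] ℝ := (innerSL ℝ Fr.L.e).comp (Fr.A : Vec (d + 1) →L[ℝ] Vec (d + 1)) with hy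
  have hyx : ∀ x, y x = inner ℝ Fr.L.e (Fr.A x) := fun x => rfl
  have hρl : rho τ K (Fin.last d) = τ (Fin.last d) := by rw [rho, Fin.snoc_last]
  have hρi : ∀ i : Fin d, rho τ K i.castSucc = τ i.castSucc - (K : ℝ) • τ (Fin.last d) := fun i => by
    rw [rho, Fin.snoc_castSucc]
  have hylast : y (τ (Fin.last d)) = 1 := by
    rw [hyx, ← hρl, ← Fr.hg, Fr.L.eg]
  have hyi : ∀ i : Fin d, y (τ i.castSucc) = K := by
    intro i
    have h2 : y (rho τ K i.castSucc) = 0 := by rw [hyx, ← Fr.hb, Fr.L.eb]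
    rw [hρi, map_sub, map_smul, hylast, smul_eq_mul, mul_one] at h2
    linarith
  have hyint : ∀ i, ∃ z : ℤ, y (τ i) = z := by
    intro i
    refine Fin.lastCases ⟨1, by rw [hylast]; simp⟩ (fun i => ⟨K, by rw [hyi]; simp⟩) i
  set W : Pot (d + 1) k := TD.well y (TD.int_of_basis hτ y hyint) with hW
  have hjk : ∀ j ≤ r, (j : ℕ∞) ≤ k := fun j hj => le_trans (by exact_mod_cast hj) hr
  obtain ⟨Bw, hBw0, hBw⟩ : ∃ Bw : ℝ, 0 ≤ Bw ∧ ∀ j ≤ r, ∀ p, ‖iteratedFDeriv ℝ j W.toFun p‖ ≤ Bw := by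
    have h1 : ∀ j : Fin (r + 1), ∃ B : ℝ, 0 ≤ B ∧ ∀ p, ‖iteratedFDeriv ℝ j W.toFun p‖ ≤ B :=
      fun j => TD.iter_bdd W (hjk j (Nat.lt_succ_iff.1 j.2))
    choose B hB0 hB using h1
    refine ⟨∑ j, B j, Finset.sum_nonneg fun j _ => hB0 j, fun j hj p => ?_⟩
    refine (hB ⟨j, Nat.lt_succ_of_le hj⟩ p).trans ?_
    exact Finset.single_le_sum (f := B) (fun j _ => hB0 j) (Finset.mem_univ _)
  -- the amplitude
  obtain ⟨e, he0, he1⟩ := exists_rat_btwn (show (0:ℝ) < min (1 / 10000) (Fr.c * (ε / (4 * (Bw + 1)))) by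
    positivity)
  have he2 : (e : ℝ) ≤ 1 / 10000 := he1.le.trans (min_le_left _ _)
  have he3 : (e : ℝ) ≤ Fr.c * (ε / (4 * (Bw + 1))) := he1.le.trans (min_le_right _ _)
  obtain ⟨amp, hamp⟩ : ∃ amp : ℝ, amp = e / Fr.c := ⟨_, rfl⟩
  have hamp0 : 0 < amp := by rw [hamp]; positivity
  have hampe : Fr.c * amp = e := by rw [hamp]; field_simp
  have hampB : amp * Bw ≤ ε / 4 := by
    have h1 : amp ≤ ε / (4 * (Bw + 1)) := by
      rw [hamp, div_le_iff₀ (by positivity)]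
      linarith
    calc amp * Bw ≤ ε / (4 * (Bw + 1)) * (Bw + 1) := mul_le_mul h1 (by linarith) hBw0 (by positivity)
      _ = ε / 4 := by field_simp
  obtain ⟨η, hη, hη'⟩ : ∃ η : ℝ, 0 < η ∧ (d + 2) * η < ((e : ℝ) / 50) ^ 2 / 200 := by
    refine ⟨((e : ℝ) / 50) ^ 2 / 200 / (d + 3), by positivity, ?_⟩
    rw [mul_div_assoc', div_lt_iff₀ (by positivity), mul_comm]
    exact mul_lt_mul_of_pos_left (by linarith) (by positivity)
  have hPF := core_isPot Fr hρ hk FK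
  obtain ⟨q, B, hq, hB, hni⟩ := ninv_of_ap (sp Fr.L) hPF (ap_g (sp Fr.L) hPF) hη
  -- the perturbation
  set v : Vec (d + 1) := -(τ i0.castSucc - (K : ℝ) • vz a) with hv
  set D : Pot (d + 1) k := TD.lin (-1) FK (TD.mn q B (vz a) FK) with hD
  set G : Pot (d + 1) k := TD.lin (-1) (TD.smul amp W) (TD.mn (K * q) 1 v D) with hG
  refine ⟨G, fun j hj p => ?_, K, hK, 0, e / 50, ?_⟩
  · obtain ⟨x, t⟩ := p
    have hj' := hjk j hj
    rw [hG, TD.lin_iter _ _ _ hj', TD.smul_iter _ _ hj', TD.mn_iter _ _ _ _ hj']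
    have e1 : (fun z => iteratedFDeriv ℝ j D.toFun (z, t)) = fun z =>
        iteratedFDeriv ℝ j (TD.sl Φ u) (z, t) -
          EscN.mn q B (vz a) (fun z => iteratedFDeriv ℝ j (TD.sl Φ u) (z, t)) z := by
      funext z
      rw [hD, TD.lin_iter _ _ _ hj', TD.mn_iter _ _ _ _ hj', neg_one_smul, sub_eq_add_neg, hFK]
    rw [e1]
    have h1 := hB1 B' (by omega) hB'0 u huS q B hq hB j hj x t
    rw [← hKR, ← hKdef] at h1
    have h2 := hBw j hj (x, t)
    refine (norm_add_le _ _).trans_lt ?_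
    rw [norm_smul, norm_smul, norm_neg, norm_one, one_mul, Real.norm_eq_abs, abs_of_pos hamp0]
    have h3 : amp * ‖iteratedFDeriv ℝ j W.toFun (x, t)‖ ≤ ε / 4 :=
      (mul_le_mul_of_nonneg_left h2 hamp0.le).trans hampB
    linarith
  · rw [← hFr]
    have hPG := core_isPot Fr hρ hk (Pot.add FK G)
    have hP : (fun X t => Fr.c * V (Fr.A.symm X, top τ K hd, t) + core Fr (Pot.add f G).toFun X t) =
        core Fr (Pot.add FK G).toFun := by
      funext X t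
      change Fr.c * V (Fr.A.symm X, top τ K hd, t) + Fr.c * (f.toFun (Fr.A.symm X, t) + G.toFun (Fr.A.symm X, t)) =
        Fr.c * (FK.toFun (Fr.A.symm X, t) + G.toFun (Fr.A.symm X, t))
      rw [hFK, hVu]
      change _ = Fr.c * (V (Fr.A.symm X, u, t) + f.toFun (Fr.A.symm X, t) + G.toFun (Fr.A.symm X, t))
      ring
    rw [hP]
    have hgv : (sp Fr.L).g = Fr.A (vz a) := by
      rw [sp_g, Fr.hg, hρl, ha]
    have hbv : -(sp Fr.L).b i0 = Fr.A v := by
      rw [sp_b, Fr.hb, hρi, hv, ha, map_neg]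
    have hform : ∀ X ∈ (sp Fr.L).S, ∀ t, core Fr (Pot.add FK G).toFun X t = core Fr FK.toFun X t -
        EscN.mn (K * q) 1 (-(sp Fr.L).b i0) (fun Z => core Fr FK.toFun Z t -
          EscN.mn q B (sp Fr.L).g (fun Z => core Fr FK.toFun Z t) Z) X +
        e * (1 - Real.cos (2 * Real.pi * ((sp Fr.L).y X - 0))) := by
      intro X _ t
      rw [hbv, hgv]
      have e1 : ∀ Z, EscN.mn q B (Fr.A (vz a)) (fun Z => core Fr FK.toFun Z t) Z =
          EscN.mn q B (vz a) (fun z => Fr.c * FK.toFun (z, t)) (Fr.A.symm Z) := fun Z =>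
        TD.mn_lift Fr.A (fun z => Fr.c * FK.toFun (z, t)) q B (vz a) Z
      have e2 := TD.mn_lift Fr.A (fun z => Fr.c * FK.toFun (z, t) -
        EscN.mn q B (vz a) (fun z => Fr.c * FK.toFun (z, t)) z) (K * q) 1 v X
      have e3 : (fun Z => core Fr FK.toFun Z t -
          EscN.mn q B (Fr.A (vz a)) (fun Z => core Fr FK.toFun Z t) Z) = fun Z =>
          Fr.c * FK.toFun (Fr.A.symm Z, t) - EscN.mn q B (vz a) (fun z => Fr.c * FK.toFun (z, t)) (Fr.A.symm Z) := by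
        funext Z
        rw [e1 Z]
        rfl
      rw [e3, e2]
      have e5 : (fun z => Fr.c * FK.toFun (z, t) -
          EscN.mn q B (vz a) (fun z => Fr.c * FK.toFun (z, t)) z) =
          fun z => Fr.c * (FK.toFun (z, t) - EscN.mn q B (vz a) (fun z => FK.toFun (z, t)) z) := by
        funext z
        rw [TD.mn_mul, mul_sub]
      rw [e5, TD.mn_mul]
      set x := Fr.A.symm X with hx
      have hyX : (sp Fr.L).y X = y x := by
        change inner ℝ (sp Fr.L).e X = _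
        rw [sp_e, hyx, hx, Fr.A.apply_symm_apply]
      have e6 : G.toFun (x, t) = amp * (1 - Real.cos (2 * Real.pi * y x)) -
          EscN.mn (K * q) 1 v (fun z => FK.toFun (z, t) - EscN.mn q B (vz a) (fun z => FK.toFun (z, t)) z) x := by
        have a2 : (fun z => D.toFun (z, t)) =
            fun z => FK.toFun (z, t) - EscN.mn q B (vz a) (fun z => FK.toFun (z, t)) z := by
          funext z
          change FK.toFun (z, t) + (-1) * EscN.mn q B (vz a) (fun z => FK.toFun (z, t)) z = _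
          ring
        change amp * (1 - Real.cos (2 * Real.pi * y x)) + (-1) * EscN.mn (K * q) 1 v (fun z => D.toFun (z, t)) x = _
        rw [a2]
        ring
      change Fr.c * (FK.toFun (x, t) + G.toFun (x, t)) = Fr.c * FK.toFun (x, t) - _ + _
      rw [e6, ← hampe, sub_zero, hyX]
      ring
    obtain ⟨M0, hM0⟩ := dat_of_form (sp Fr.L) hd (P := core Fr (Pot.add FK G).toFun) (h := core Fr FK.toFun)
      hPG hPF i0 (N1 := K * q) (Nat.mul_pos hKpos hq) hq hB 0 he0 he2 hη hη' hform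
      (fun t s => hni q le_rfl B le_rfl t s)
    refine ⟨M0, ?_⟩
    push_cast
    exact hM0

end EscF.T
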