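import Pool.Agent.EscF.TCore
import Pool.Agent.EscN.T3a

/-!
Project EscF, TD: algebra of potentials on the torus, derivatives of slices of periodic functions.
-/

noncomputable section

namespace EscF.T.TD

open Filter Topology Set Finset
open scoped ContDiff

variable {n : ℕ} {k : ℕ∞}

lemma cda (f : Pot n k) {j : ℕ} (hj : (j : ℕ∞) ≤ k) (p : Vec n × ℝ) : ContDiffAt ℝ j f.toFun p :=
  (f.contDiff.of_le (by exact_mod_cast hj)).contDiffAt

/-- `f + c g` -/
def lin (c : ℝ) (f g : Pot n k) : Pot n k where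
  toFun := fun p => f.toFun p + c * g.toFun p
  contDiff := f.contDiff.add (contDiff_const.mul g.contDiff)
  periodic := fun m l x t => by simp only; rw [f.periodic, g.periodic]

lemma lin_iter (c : ℝ) (f g : Pot n k) {j : ℕ} (hj : (j : ℕ∞) ≤ k) (p : Vec n × ℝ) :
    iteratedFDeriv ℝ j (lin c f g).toFun p =
      iteratedFDeriv ℝ j f.toFun p + c • iteratedFDeriv ℝ j g.toFun p := by
  have e : (lin c f g).toFun = f.toFun + c • g.toFun := rfl
  have h1 : ContDiffAt ℝ j (c • g.toFun) p := (cda g hj p).const_smul c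
  rw [e, iteratedFDeriv_add_apply (cda f hj p) h1, iteratedFDeriv_const_smul_apply (cda g hj p)]

/-- `c f` -/
def smul (c : ℝ) (f : Pot n k) : Pot n k where
  toFun := fun p => c * f.toFun p
  contDiff := contDiff_const.mul f.contDiff
  periodic := fun m l x t => by simp only; rw [f.periodic]

lemma smul_iter (c : ℝ) (f : Pot n k) {j : ℕ} (hj : (j : ℕ∞) ≤ k) (p : Vec n × ℝ) :
    iteratedFDeriv ℝ j (smul c f).toFun p = c • iteratedFDeriv ℝ j f.toFun p :=
  iteratedFDeriv_const_smul_apply (a := c) (cda f hj p)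

lemma mn_fun_eq (Q B : ℕ) (w : Vec n) (F : Vec n × ℝ → ℝ) :
    (fun p : Vec n × ℝ => EscN.mn Q B w (fun x => F (x, p.2)) p.1) =
      ((Q * B : ℕ) : ℝ)⁻¹ • ∑ l ∈ range (Q * B),
        fun p : Vec n × ℝ => F (p + (((l : ℝ) / Q) • w, 0)) := by
  ext p
  simp only [EscN.mn, Pi.smul_apply, Finset.sum_apply]
  congr 1
  refine Finset.sum_congr rfl fun l _ => ?_
  congr 1
  simp [Prod.ext_iff]

lemma trans_cd (f : Pot n k) (v : Vec n) : ContDiff ℝ k (fun p : Vec n × ℝ => f.toFun (p + (v, 0))) :=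
  f.contDiff.comp (contDiff_id.add contDiff_const)

/-- finite average in the direction `w` -/
def mn (Q B : ℕ) (w : Vec n) (f : Pot n k) : Pot n k where
  toFun := fun p => EscN.mn Q B w (fun x => f.toFun (x, p.2)) p.1
  contDiff := by
    rw [mn_fun_eq]
    have h1 : ∀ l ∈ range (Q * B), ContDiff ℝ k
        (fun p : Vec n × ℝ => f.toFun (p + (((l : ℝ) / Q) • w, 0))) := fun l _ => trans_cd f _
    have h2 := (ContDiff.sum h1).const_smul (((Q * B : ℕ) : ℝ)⁻¹)
    have e : (((Q * B : ℕ) : ℝ)⁻¹ • ∑ l ∈ range (Q * B),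
        fun p : Vec n × ℝ => f.toFun (p + (((l : ℝ) / Q) • w, 0))) = fun p => ((Q * B : ℕ) : ℝ)⁻¹ •
          ∑ l ∈ range (Q * B), f.toFun (p + (((l : ℝ) / Q) • w, 0)) := by
      funext p
      rw [Pi.smul_apply, Finset.sum_apply]
    rw [e]
    exact h2
  periodic := by
    intro m l x t
    simp only [EscN.mn]
    congr 1
    refine Finset.sum_congr rfl fun i _ => ?_
    rw [add_right_comm, f.periodic m l]

lemma mn_toFun (Q B : ℕ) (w : Vec n) (f : Pot n k) (p : Vec n × ℝ) :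
    (mn Q B w f).toFun p = EscN.mn Q B w (fun x => f.toFun (x, p.2)) p.1 := rfl

lemma iter_sum {ι : Type*} (s : Finset ι) (F : ι → Vec n × ℝ → ℝ) {j : ℕ} {p : Vec n × ℝ}
    (h : ∀ i ∈ s, ContDiffAt ℝ j (F i) p) :
    ContDiffAt ℝ j (∑ i ∈ s, F i) p ∧
      iteratedFDeriv ℝ j (∑ i ∈ s, F i) p = ∑ i ∈ s, iteratedFDeriv ℝ j (F i) p := by
  classical
  induction s using Finset.induction_on with
  | empty =>
    simp only [Finset.sum_empty]
    refine ⟨contDiffAt_const (c := (0 : ℝ)), ?_⟩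
    exact congrFun (iteratedFDeriv_fun_zero (𝕜 := ℝ) (E := Vec n × ℝ) (F := ℝ) (n := j)) p
  | insert a s ha ih =>
    have h1 := h a (Finset.mem_insert_self a s)
    obtain ⟨h2, h3⟩ := ih fun i hi => h i (Finset.mem_insert_of_mem hi)
    rw [Finset.sum_insert ha, Finset.sum_insert ha]
    refine ⟨h1.add h2, ?_⟩
    rw [iteratedFDeriv_add_apply h1 h2, h3]

lemma mn_iter (Q B : ℕ) (w : Vec n) (f : Pot n k) {j : ℕ} (hj : (j : ℕ∞) ≤ k) (x : Vec n) (t : ℝ) :
    iteratedFDeriv ℝ j (mn Q B w f).toFun (x, t) =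
      EscN.mn Q B w (fun z => iteratedFDeriv ℝ j f.toFun (z, t)) x := by
  have e0 : (mn Q B w f).toFun = ((Q * B : ℕ) : ℝ)⁻¹ • ∑ l ∈ range (Q * B),
        fun p : Vec n × ℝ => f.toFun (p + (((l : ℝ) / Q) • w, 0)) := mn_fun_eq Q B w f.toFun
  have h1 : ∀ l ∈ range (Q * B), ContDiffAt ℝ j
      (fun p : Vec n × ℝ => f.toFun (p + (((l : ℝ) / Q) • w, 0))) (x, t) := by
    intro l _
    exact ((trans_cd f _).of_le (by exact_mod_cast hj)).contDiffAt
  obtain ⟨h2, h3⟩ := iter_sum (range (Q * B))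
    (fun l : ℕ => fun p : Vec n × ℝ => f.toFun (p + (((l : ℝ) / Q) • w, 0))) h1
  rw [e0, iteratedFDeriv_const_smul_apply h2, h3]
  unfold EscN.mn
  congr 1
  refine Finset.sum_congr rfl fun l _ => ?_
  rw [iteratedFDeriv_comp_add_right]
  congr 1
  simp

/-- the well `1 - cos (2π y)` -/
def well (y : Vec n →L[ℝ] ℝ) (hy : ∀ m : Fin n → ℤ, ∃ z : ℤ, y (vz m) = z) : Pot n k where
  toFun := fun p => 1 - Real.cos (2 * Real.pi * y p.1)
  contDiff := contDiff_const.sub (Real.contDiff_cos.comp (contDiff_const.mul (y.contDiff.comp contDiff_fst)))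
  periodic := by
    intro m l x t
    simp only
    obtain ⟨z, hz⟩ := hy m
    rw [map_add, hz, mul_add, mul_comm (2 * Real.pi) (z : ℝ), Real.cos_add_int_mul_two_pi]

/-! ### Bounds -/

lemma iter_per (f : Pot n k) (j : ℕ) (m : Fin n → ℤ) (l : ℤ) (x : Vec n) (t : ℝ) :
    iteratedFDeriv ℝ j f.toFun (x + vz m, t + l) = iteratedFDeriv ℝ j f.toFun (x, t) := by
  have e : (fun p : Vec n × ℝ => f.toFun (p + (vz m, (l : ℝ)))) = f.toFun := by
    funext p
    exact f.periodic m l p.1 p.2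
  have h := iteratedFDeriv_comp_add_right (𝕜 := ℝ) (f := f.toFun) j (vz m, (l : ℝ)) (x, t)
  rw [e] at h
  rw [h]
  rfl

lemma exists_int (x : Vec n) : ∃ m : Fin n → ℤ, ∀ i, (x - vz m) i ∈ Icc (0 : ℝ) 1 := by
  refine ⟨fun i => ⌊x i⌋, fun i => ?_⟩
  have e : (x - vz fun i => ⌊x i⌋) i = Int.fract (x i) := rfl
  rw [e]
  exact ⟨Int.fract_nonneg _, (Int.fract_lt_one _).le⟩

/-- points all of whose coordinates are in `[a, b]` -/
def box (n : ℕ) (a b : ℝ) : Set (Vec n) := {x | ∀ i, x i ∈ Icc a b}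

lemma isCompact_box (a b : ℝ) : IsCompact (box n a b) := by
  have h : box n a b = (EuclideanSpace.equiv (Fin n) ℝ).toHomeomorph ⁻¹' (Set.pi univ fun _ => Icc a b) := by
    ext x
    exact (Set.mem_univ_pi (t := fun _ : Fin n => Icc a b) (f := x.ofLp)).symm
  rw [h, Homeomorph.isCompact_preimage]
  exact isCompact_univ_pi fun _ => isCompact_Icc

lemma iter_bdd (f : Pot n k) {j : ℕ} (hj : (j : ℕ∞) ≤ k) :
    ∃ B : ℝ, 0 ≤ B ∧ ∀ p, ‖iteratedFDeriv ℝ j f.toFun p‖ ≤ B := by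
  have hc : Continuous (iteratedFDeriv ℝ j f.toFun) :=
    (f.contDiff.of_le (show ((j : ℕ) : WithTop ℕ∞) ≤ k by exact_mod_cast hj)).continuous_iteratedFDeriv le_rfl
  obtain ⟨B, hB⟩ := ((isCompact_box (n := n) 0 1).prod (isCompact_Icc (a := (0:ℝ)) (b := 1))).exists_bound_of_continuousOn
    hc.norm.continuousOn
  refine ⟨max B 0, le_max_right _ _, fun p => ?_⟩
  obtain ⟨m, hm⟩ := exists_int p.1
  have h1 := iter_per f j m ⌊p.2⌋ (p.1 - vz m) (p.2 - ⌊p.2⌋)
  rw [sub_add_cancel, sub_add_cancel] at h1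
  have h2 := hB (p.1 - vz m, p.2 - ⌊p.2⌋) ⟨hm, ⟨Int.fract_nonneg p.2, (Int.fract_lt_one p.2).le⟩⟩
  rw [← h1, norm_norm] at h2
  exact h2.trans (le_max_left _ _)

end EscF.T.TD
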