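import Pool.Agent.EscF.TCore
import Pool.Agent.helper37.Esc.Flat

/-!
Project EscF, module TF: lattices, bases of the lattice of integer vectors, frames.
-/

noncomputable section

namespace EscF.T

open Filter Topology Set Esc EscN
open scoped ContDiff

namespace TFX

lemma vz_ap {n : ℕ} (m : Fin n → ℤ) (i : Fin n) : vz m i = (m i : ℝ) := rfl

/-- far in the direction of an element of an open cone -/
lemma cone_large {n : ℕ} {D : Set (Vec n)} (hD : IsOpenCone D) {w : Vec n} (hw : w ∈ D) (u : Vec n) :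
    ∃ K0 : ℕ, ∀ K : ℕ, K0 ≤ K → u + (K : ℝ) • w ∈ D := by
  have h1 : Tendsto (fun K : ℕ => w + ((K : ℝ))⁻¹ • u) atTop (𝓝 w) := by
    have h2 : Tendsto (fun K : ℕ => ((K : ℝ))⁻¹ • u) atTop (𝓝 ((0 : ℝ) • u)) :=
      tendsto_inv_atTop_nhds_zero_nat.smul_const u
    rw [zero_smul] at h2
    simpa using tendsto_const_nhds.add h2
  have h3 := h1.eventually (hD.1.mem_nhds hw)
  obtain ⟨K1, hK1⟩ := eventually_atTop.1 h3
  refine ⟨max K1 1, fun K hK => ?_⟩
  have hK0 : (0 : ℝ) < K := by
    have : 1 ≤ K := (le_max_right _ _).trans hK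
    exact_mod_cast this
  have h4 := hD.2.2 _ (hK1 K ((le_max_left _ _).trans hK)) K hK0
  have h5 : (K : ℝ) • (w + ((K : ℝ))⁻¹ • u) = u + (K : ℝ) • w := by
    rw [smul_add, smul_smul, mul_inv_cancel₀ hK0.ne', one_smul, add_comm]
  rwa [h5] at h4

lemma zbasis_of_int {n : ℕ} (T : Fin n → Fin n → ℤ)
    (h : ∀ j, ∃ m : Fin n → ℤ, ∀ l, ∑ i, m i * T i l = if l = j then 1 else 0) :
    IsZBasis (fun i => vz (T i)) := by
  refine ⟨fun i => ⟨T i, rfl⟩, fun j => ?_⟩
  obtain ⟨m, hm⟩ := h j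
  refine ⟨m, ?_⟩
  ext l
  have h1 : (∑ i, (m i : ℝ) • vz (T i)) l = ∑ i, (m i : ℝ) * (T i l : ℝ) := by
    rw [WithLp.ofLp_sum, Finset.sum_apply]
    rfl
  rw [h1]
  rw [show ∑ i, (m i : ℝ) * (T i l : ℝ) = ((∑ i, m i * T i l : ℤ) : ℝ) by push_cast; rfl, hm l]
  by_cases hl : l = j
  · subst hl
    simp
  · simp [hl]

/-- an integer vector with two explicitly coprime coordinates belongs to a basis -/
lemma zbasis_of_bezout {d : ℕ} (hd : 0 < d) (a : Fin (d + 1) → ℤ) (s t : ℤ)
    (h : s * a 0 + t * a (Fin.last d) = 1) :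
    ∃ τ : Fin (d + 1) → Vec (d + 1), IsZBasis τ ∧ τ (Fin.last d) = -vz a := by
  have h0 : (0 : Fin (d + 1)) ≠ Fin.last d := by
    intro h1
    have h2 := congrArg Fin.val h1
    simp at h2
    omega
  set T : Fin (d + 1) → Fin (d + 1) → ℤ := fun i l => (if i = l then 1 else 0) +
    (if i = 0 then (if l = 0 then -t else if l = Fin.last d then s else 0) - (if l = 0 then 1 else 0)
      else 0) + (if i = Fin.last d then -a l - (if l = Fin.last d then 1 else 0) else 0) with hT
  have hsum : ∀ (m : Fin (d + 1) → ℤ) l, ∑ i, m i * T i l = m l +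
      m 0 * ((if l = 0 then -t else if l = Fin.last d then s else 0) - (if l = 0 then 1 else 0)) +
      m (Fin.last d) * (-a l - (if l = Fin.last d then 1 else 0)) := by
    intro m l
    simp only [hT, mul_add, Finset.sum_add_distrib, mul_ite, mul_one, mul_zero]
    simp
  refine ⟨fun i => vz (T i), zbasis_of_int T fun j => ?_, ?_⟩
  · by_cases hj0 : j = 0
    · refine ⟨fun i => if i = 0 then -a (Fin.last d) else if i = Fin.last d then -s else -s * a i,
        fun l => ?_⟩
      rw [hsum]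
      by_cases hl0 : l = 0
      · subst hl0
        simp only [hj0, h0, h0.symm, if_true, if_false]
        linear_combination h
      · by_cases hll : l = Fin.last d
        · subst hll
          simp only [hj0, h0.symm, if_true, if_false]
          ring
        · simp only [hj0, hl0, hll, h0.symm, if_true, if_false]
          ring
    · by_cases hjl : j = Fin.last d
      · refine ⟨fun i => if i = 0 then a 0 else if i = Fin.last d then -t else -t * a i,
          fun l => ?_⟩
        rw [hsum]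
        by_cases hl0 : l = 0
        · subst hl0
          simp only [hjl, h0, h0.symm, if_true, if_false]
          ring
        · by_cases hll : l = Fin.last d
          · subst hll
            simp only [hjl, h0.symm, if_true, if_false]
            linear_combination h
          · simp only [hjl, hl0, hll, h0.symm, if_true, if_false]
            ring
      · refine ⟨fun i => if i = j then 1 else 0, fun l => ?_⟩
        rw [hsum]
        simp only [Ne.symm hj0, Ne.symm hjl, if_false, zero_mul, add_zero]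
  · ext l
    rw [vz_ap]
    have h1 : (-vz a : Vec (d + 1)) l = -(a l : ℝ) := rfl
    rw [h1, hT]
    simp only [h0.symm, if_false, if_true, add_zero]
    by_cases hl : l = Fin.last d
    · subst hl
      simp
    · simp [hl, Ne.symm hl]

/-- an open cone contains integer vectors with first coordinate not zero -/
lemma exists_int {d : ℕ} {D : Set (Vec (d + 1))} (hD : IsOpenCone D) (hne : D.Nonempty) :
    ∃ c : Fin (d + 1) → ℤ, c 0 ≠ 0 ∧ vz c ∈ D := by
  obtain ⟨x, hx⟩ := hne
  -- first coordinate not zero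
  obtain ⟨K0, hK0⟩ := cone_large hD hx (EuclideanSpace.single 0 1)
  have h1 : ∃ y ∈ D, y 0 ≠ 0 := by
    by_cases h : x 0 = 0
    · refine ⟨_, hK0 K0 le_rfl, ?_⟩
      simp [h]
    · exact ⟨x, hx, h⟩
  obtain ⟨y, hy, hy0⟩ := h1
  have hO : IsOpen (D ∩ {z : Vec (d + 1) | z 0 ≠ 0}) := by
    refine hD.1.inter ?_
    exact isOpen_ne_fun (by fun_prop) continuous_const
  have hd : DenseRange (fun q : Fin (d + 1) → ℚ => (WithLp.toLp 2 (fun i => (q i : ℝ)) : Vec (d + 1))) := by
    have h2 : DenseRange (fun q : Fin (d + 1) → ℚ => (fun i => (q i : ℝ) : Fin (d + 1) → ℝ)) :=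
      DenseRange.piMap (fun _ => Rat.denseRange_cast)
    exact (WithLp.toLp_surjective 2).denseRange.comp h2 (PiLp.continuous_toLp 2 _)
  obtain ⟨q, hq1, hq2⟩ := hd.exists_mem_open hO ⟨y, hy, hy0⟩
  set N : ℤ := ∏ i, ((q i).den : ℤ) with hN
  have hNpos : 0 < N := Finset.prod_pos fun i _ => by exact_mod_cast (q i).den_pos
  have hint : ∀ i, ∃ c : ℤ, (c : ℝ) = N * (q i : ℝ) := by
    intro i
    have h2 : ((q i).den : ℤ) ∣ N := Finset.dvd_prod_of_mem _ (Finset.mem_univ i)
    obtain ⟨e, he⟩ := h2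
    refine ⟨e * (q i).num, ?_⟩
    have h3 : (q i : ℝ) = (q i).num / (q i).den := by
      exact_mod_cast (Rat.cast_def (K := ℝ) (q i))
    have h4 : ((q i).den : ℝ) ≠ 0 := by exact_mod_cast (q i).den_ne_zero
    rw [h3, he]
    push_cast
    field_simp
  choose c hc using hint
  have hNr : (0 : ℝ) < N := by exact_mod_cast hNpos
  refine ⟨c, ?_, ?_⟩
  · intro h
    have h2 := hc 0
    rw [h, Int.cast_zero] at h2
    rcases mul_eq_zero.1 h2.symm with h3 | h3
    · exact hNr.ne' h3
    · exact hq2 h3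
  · have h2 := hD.2.2 _ hq1 N hNr
    have h3 : (N : ℝ) • (WithLp.toLp 2 (fun i => (q i : ℝ)) : Vec (d + 1)) = vz c := by
      ext i
      rw [vz_ap, hc]
      rfl
    rwa [h3] at h2

end TFX

open TFX

section TF
variable {d : ℕ}

theorem zbasis_li {n : ℕ} {τ : Fin n → Vec n} (h : IsZBasis τ) : LinearIndependent ℝ τ := by
  refine linearIndependent_of_top_le_span_of_card_eq_finrank ?_ (by simp)
  have h1 : ∀ j, (EuclideanSpace.single j (1 : ℝ) : Vec n) ∈ Submodule.span ℝ (Set.range τ) := by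
    intro j
    obtain ⟨m, hm⟩ := h.2 j
    rw [hm]
    exact Submodule.sum_mem _ fun i _ => Submodule.smul_mem _ _ (Submodule.subset_span ⟨i, rfl⟩)
  intro x _
  have h2 : x = ∑ j, x j • (EuclideanSpace.single j (1 : ℝ) : Vec n) := by
    have := (EuclideanSpace.basisFun (Fin n) ℝ).sum_repr x
    simpa using this.symm
  rw [h2]
  exact Submodule.sum_mem _ fun j _ => Submodule.smul_mem _ _ (h1 j)

theorem zbasis_rho {τ : Fin (d + 1) → Vec (d + 1)} (h : IsZBasis τ) (K : ℕ) : IsZBasis (rho τ K) := by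
  have hl : rho τ K (Fin.last d) = τ (Fin.last d) := by
    unfold rho; rw [Fin.snoc_last]
  have hc : ∀ i : Fin d, rho τ K i.castSucc = τ i.castSucc - (K : ℝ) • τ (Fin.last d) := fun i => by
    unfold rho; rw [Fin.snoc_castSucc]
  refine ⟨fun i => ?_, fun j => ?_⟩
  · refine Fin.lastCases ?_ (fun i => ?_) i
    · rw [hl]; exact h.1 _
    · rw [hc]
      obtain ⟨m, hm⟩ := h.1 i.castSucc
      obtain ⟨m', hm'⟩ := h.1 (Fin.last d)
      refine ⟨fun l => m l - K * m' l, ?_⟩
      rw [hm, hm']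
      ext l
      show (m l : ℝ) - (K : ℝ) * (m' l : ℝ) = ((m l - K * m' l : ℤ) : ℝ)
      push_cast; ring
  · obtain ⟨m, hm⟩ := h.2 j
    refine ⟨Fin.snoc (fun i : Fin d => m i.castSucc) (m (Fin.last d) + K * ∑ i : Fin d, m i.castSucc), ?_⟩
    rw [hm, Fin.sum_univ_castSucc, Fin.sum_univ_castSucc, Fin.snoc_last, hl]
    have h1 : ∀ i : Fin d, ((Fin.snoc (fun i : Fin d => m i.castSucc)
        (m (Fin.last d) + K * ∑ i : Fin d, m i.castSucc) : Fin (d + 1) → ℤ) i.castSucc : ℝ) •
          rho τ K i.castSucc = (m i.castSucc : ℝ) • τ i.castSucc -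
            ((K : ℝ) * (m i.castSucc : ℝ)) • τ (Fin.last d) := fun i => by
      rw [Fin.snoc_castSucc, hc, smul_sub, smul_smul, mul_comm (m i.castSucc : ℝ) (K : ℝ)]
    rw [Finset.sum_congr rfl fun i _ => h1 i, Finset.sum_sub_distrib, ← Finset.sum_smul,
      ← Finset.mul_sum]
    push_cast
    rw [add_smul]
    abel

theorem exists_zbasis {D : Set (Vec (d + 1))} (hD : IsOpenCone D) (hne : D.Nonempty) :
    ∃ τ : Fin (d + 1) → Vec (d + 1), IsZBasis τ ∧ -τ (Fin.last d) ∈ D := by
  obtain ⟨c, hc0, hc⟩ := exists_int hD hne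
  rcases Nat.eq_zero_or_pos d with hd | hd
  · subst hd
    refine ⟨fun i => vz (fun _ => -Int.sign (c 0)), zbasis_of_int (fun _ _ => -Int.sign (c 0)) ?_, ?_⟩
    · intro j
      refine ⟨fun _ => -Int.sign (c 0), fun l => ?_⟩
      have h1 : l = j := Fin.ext (by omega)
      rw [if_pos h1]
      simp only [Finset.univ_unique, Finset.sum_singleton]
      rcases lt_or_gt_of_ne hc0 with h | h
      · rw [Int.sign_eq_neg_one_of_neg h]; norm_num
      · rw [Int.sign_eq_one_of_pos h]; norm_num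
    · have h1 : (0 : ℝ) < (|(c 0 : ℝ)|)⁻¹ := inv_pos.2 (abs_pos.2 (by exact_mod_cast hc0))
      have h2 := hD.2.2 _ hc _ h1
      have h3 : (|(c 0 : ℝ)|)⁻¹ • vz c = -vz (fun _ : Fin (0 + 1) => -Int.sign (c 0)) := by
        ext i
        have hi : i = 0 := Fin.ext (by omega)
        subst hi
        show (|(c 0 : ℝ)|)⁻¹ * (c 0 : ℝ) = -((-Int.sign (c 0) : ℤ) : ℝ)
        rcases lt_or_gt_of_ne hc0 with h | h
        · have h' : (c 0 : ℝ) < 0 := by exact_mod_cast h
          rw [Int.sign_eq_neg_one_of_neg h, abs_of_neg h']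
          field_simp
          norm_num
        · have h' : (0 : ℝ) < (c 0 : ℝ) := by exact_mod_cast h
          rw [Int.sign_eq_one_of_pos h, abs_of_pos h']
          field_simp
          norm_num
      rwa [h3] at h2
  · have hw : ((c 0 : ℝ) ^ 2) • vz c ∈ D := by
      refine hD.2.2 _ hc _ ?_
      have : (c 0 : ℝ) ≠ 0 := by exact_mod_cast hc0
      positivity
    obtain ⟨K0, hK0⟩ := cone_large hD hw (EuclideanSpace.single (Fin.last d) 1)
    have h1 := hK0 K0 le_rfl
    set X : ℤ := K0 * c 0 ^ 2 with hX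
    have h0 : (0 : Fin (d + 1)) ≠ Fin.last d := by
      intro h1
      have h2 := congrArg Fin.val h1
      simp at h2
      omega
    set a : Fin (d + 1) → ℤ := fun i => X * c i + if i = Fin.last d then 1 else 0 with ha
    obtain ⟨τ, hτ, hτl⟩ := zbasis_of_bezout hd a (K0 * c 0 * c (Fin.last d) ^ 2)
      (1 - X * c (Fin.last d)) (by
        simp only [ha, h0, if_false, if_true, hX]
        ring)
    refine ⟨τ, hτ, ?_⟩
    rw [hτl, neg_neg]
    have h2 : vz a = EuclideanSpace.single (Fin.last d) (1 : ℝ) + (K0 : ℝ) • ((c 0 : ℝ) ^ 2) • vz c := by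
      ext i
      rw [vz_ap, ha]
      have h3 : (EuclideanSpace.single (Fin.last d) (1 : ℝ) + (K0 : ℝ) • ((c 0 : ℝ) ^ 2) • vz c :
          Vec (d + 1)) i = (EuclideanSpace.single (Fin.last d) (1 : ℝ) : Vec (d + 1)) i +
            (K0 : ℝ) * ((c 0 : ℝ) ^ 2 * (c i : ℝ)) := rfl
      rw [h3]
      by_cases hi : i = Fin.last d
      · subst hi
        simp [hX]
        ring
      · simp [hX, hi]
        ring
    rw [h2]
    exact h1

theorem top_mem {D : Set (Vec (d + 1))} (hD : IsOpenCone D) (hd : 0 < d)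
    {τ : Fin (d + 1) → Vec (d + 1)} (h : -τ (Fin.last d) ∈ D) : ∃ K0, ∀ K ≥ K0, top τ K hd ∈ D := by
  obtain ⟨K0, hK0⟩ := cone_large hD h (τ (Fin.castSucc ⟨d - 1, Nat.sub_lt hd one_pos⟩))
  refine ⟨K0, fun K hK => ?_⟩
  have h1 := hK0 K hK
  rw [smul_neg, ← sub_eq_add_neg] at h1
  exact h1

theorem exists_frame' (Q : Vec (d + 1) →L[ℝ] Vec (d + 1) →L[ℝ] ℝ) (hs : ∀ v w, Q v w = Q w v)
    (hp : ∀ v, v ≠ 0 → 0 < Q v v) (ρ : Fin (d + 1) → Vec (d + 1)) (hρ : LinearIndependent ℝ ρ) :
    Nonempty (Frame d Q ρ) := by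
  set bρ := basisOfLinearIndependentOfCardEqFinrank hρ (by simp) with hbρ
  have hbρa : ∀ i, bρ i = ρ i := fun i => by
    rw [hbρ, coe_basisOfLinearIndependentOfCardEqFinrank]
  set R : Vec (d + 1) ≃L[ℝ] Vec (d + 1) :=
    ((EuclideanSpace.basisFun (Fin (d + 1)) ℝ).toBasis.equiv bρ (Equiv.refl _)).toContinuousLinearEquiv
    with hR
  have hRa : ∀ i, R (EuclideanSpace.single i 1) = ρ i := fun i => by
    have h1 := (EuclideanSpace.basisFun (Fin (d + 1)) ℝ).toBasis.equiv_apply i bρ (Equiv.refl _)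
    simp only [OrthonormalBasis.coe_toBasis, EuclideanSpace.basisFun_apply, Equiv.refl_apply] at h1
    rw [← hbρa i]
    exact h1
  set Q' : Vec (d + 1) →L[ℝ] Vec (d + 1) →L[ℝ] ℝ :=
    (Q.bilinearComp (R : Vec (d + 1) →L[ℝ] Vec (d + 1)) (R : Vec (d + 1) →L[ℝ] Vec (d + 1))) with hQ'
  have hQ'a : ∀ v w, Q' v w = Q (R v) (R w) := fun v w => rfl
  obtain ⟨T, c, L, hc, hT, hb, hg⟩ := Esc.exists_frame Q' (fun v w => by rw [hQ'a, hQ'a, hs])
    (fun v hv => by
      rw [hQ'a]
      exact hp _ (fun h => hv (by rw [← R.symm_apply_apply v, h, map_zero])))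
  refine ⟨⟨R.symm.trans T, c, hc, L, fun v w => ?_, fun i => ?_, ?_⟩⟩
  · show inner ℝ (T (R.symm v)) (T (R.symm w)) = _
    rw [hT, hQ'a, R.apply_symm_apply, R.apply_symm_apply]
  · show L.b i = T (R.symm (ρ i.castSucc))
    rw [hb, ← hRa i.castSucc, R.symm_apply_apply]
  · show L.g = T (R.symm (ρ (Fin.last d)))
    rw [hg, ← hRa (Fin.last d), R.symm_apply_apply]

/-- the orthogonal projection to the fast directions -/
def spP (L : Lat d (Vec (d + 1))) : Vec (d + 1) →L[ℝ] Vec (d + 1) :=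
  ContinuousLinearMap.id ℝ _ - (innerSL ℝ L.e).smulRight L.e

lemma spP_ap (L : Lat d (Vec (d + 1))) (x) : spP L x = x - (inner ℝ L.e x : ℝ) • L.e := rfl

lemma spP_e (L : Lat d (Vec (d + 1))) (x) : inner ℝ L.e (spP L x) = 0 := by
  rw [spP_ap, inner_sub_right, inner_smul_right, real_inner_self_eq_norm_sq, L.norm_e]
  ring

/-- the flat state space of a lattice -/
def sp (L : Lat d (Vec (d + 1))) : Sp d (Vec (d + 1)) where
  b := L.b
  g := L.g
  e := L.e
  norm_e := L.norm_e
  eb := L.eb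
  eg := L.eg
  li := L.li
  P := spP L
  P_b i := by rw [spP_ap, L.eb, zero_smul, sub_zero]
  P_e := by rw [spP_ap, real_inner_self_eq_norm_sq, L.norm_e]; simp
  P_mem x := L.span _ (spP_e L x)
  P_sym x x' := by
    rw [spP_ap, spP_ap, inner_sub_left, inner_sub_right, inner_smul_left, inner_smul_right,
      real_inner_comm L.e x]
    simp only [conj_trivial]
    ring
  g_eq := by rw [spP_ap, L.eg, one_smul]; abel
  O _ := LinearIsometryEquiv.refl ℝ _
  O_zero _ := rfl
  O_add _ _ _ := rfl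
  O_b _ _ := rfl
  O_e _ := rfl
  Og := LinearIsometryEquiv.refl ℝ _
  Og_b _ := rfl
  Og_e := rfl
  Og_O _ _ := rfl
  S := univ
  S_ne := univ_nonempty
  S_b _ _ _ _ := trivial
  S_e _ _ _ := trivial
  S_O _ _ _ := trivial
  S_Og _ _ := trivial
  S_Og' _ _ := trivial
  R0 := 0
  S_bd x _ := by
    rw [spP_ap]; simp
  Cc := 0
  S_conn x _ x' _ h1 h2 := by
    have h3 : x = x' := by
      rw [spP_ap, spP_ap, h2] at h1
      exact sub_left_injective h1
    subst h3
    refine ⟨fun _ => 0, ?_, fun t => by simp, fun t => by simp, fun _ _ => trivial, ?_⟩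
    · exact ⟨MeasureTheory.stronglyMeasurable_const, 0, fun t => by simp⟩
    · show x + ∫ _ in (0:ℝ)..1, (0 : Vec (d + 1)) = x
      simp
  rt := id
  r0 := 1
  Cr := 1
  ret := {
    closed := isClosed_univ
    smooth := contDiff_id
    r0_pos := one_pos
    mem := fun _ _ _ _ => trivial
    id := fun _ _ => rfl
    sym := fun x _ v w => by simp
    bd := fun x => by
      rw [fderiv_id]
      exact ContinuousLinearMap.norm_id_le
    lip := fun x x' => by
      rw [fderiv_id, fderiv_id, sub_self, norm_zero]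
      positivity }
  rt_b _ _ _ := rfl
  rt_e _ _ := rfl

theorem sp_b (L : Lat d (Vec (d + 1))) : (sp L).b = L.b := rfl
theorem sp_g (L : Lat d (Vec (d + 1))) : (sp L).g = L.g := rfl
theorem sp_e (L : Lat d (Vec (d + 1))) : (sp L).e = L.e := rfl
theorem sp_S (L : Lat d (Vec (d + 1))) : (sp L).S = univ := rfl
theorem sp_O (L : Lat d (Vec (d + 1))) (n x) : (sp L).O n x = x := rfl
theorem sp_Og (L : Lat d (Vec (d + 1))) (x) : (sp L).Og x = x := rfl
theorem sp_P (L : Lat d (Vec (d + 1))) (x) : (sp L).P x = x - (inner ℝ L.e x : ℝ) • L.e := rfl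
theorem sp_Q (L : Lat d (Vec (d + 1))) (x) : (sp L).Q x = 0 := by
  show x - spP L x - (inner ℝ L.e x : ℝ) • L.e = 0
  rw [spP_ap]; abel
theorem sp_R0 (L : Lat d (Vec (d + 1))) : (sp L).R0 = 0 := rfl

end TF

end EscF.T
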