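import Pool.Agent.EscF.TCore

/-!
INTERFACE of the outer modules of project EscF (all statements with sorry). Never import this file in
a final module.
-/

noncomputable section

namespace EscF.T

open Filter Topology Set Esc EscN
open scoped ContDiff

/-! ## TX: global Lagrangian -/

section TX
variable {n : ℕ}
/-- cutoff near a direction: smooth, homogeneous of degree zero for `|v| ≥ 2`, zero for `|v| ≤ 1` and
outside the cone of opening `δ`, equal to one in the cone of opening `δ/2` for `|v| ≥ 2` -/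
theorem exists_cutoff (w : Vec n) (hw : ‖w‖ = 1) : ∃ C : ℝ, 1 ≤ C ∧ ∀ δ : ℝ, 0 < δ → δ ≤ 1 / 2 →
    ∃ χ : Vec n → ℝ, ContDiff ℝ ∞ χ ∧ (∀ v, 0 ≤ χ v ∧ χ v ≤ 1) ∧
      (∀ v, ‖v‖ ≤ 1 → χ v = 0) ∧ (∀ v, δ * ‖v‖ ≤ ‖v - ‖v‖ • w‖ → χ v = 0) ∧
      (∀ v, 2 ≤ ‖v‖ → ‖v - ‖v‖ • w‖ ≤ δ / 2 * ‖v‖ → χ v = 1) ∧
      (∀ v, ‖fderiv ℝ χ v‖ ≤ C / (δ * (1 + ‖v‖))) ∧
      (∀ v, ‖fderiv ℝ (fderiv ℝ χ) v‖ ≤ C / (δ * (1 + ‖v‖)) ^ 2) := sorry
theorem exists_ext {C : Set (Vec n)} (hC : IsOpenCone C) {h : Vec n → ℝ} (hh : IsKinetic C h) {k : ℕ∞}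
    (hk : 2 ≤ k) {V r L : Lag n} (hV : IsDegreeZero C k V) {R : ℝ} (hr : IsSmallAtInfinity C R r)
    (hL : ∀ x v t, v ∈ C → R < ‖v‖ → L (x, v, t) = h v + V (x, v, t) + r (x, v, t))
    {w : Vec n} (hw : w ∈ C) : ∃ (C' : Set (Vec n)) (h' : Vec n → ℝ) (B : Lag n) (m Λ R' : ℝ),
      IsOpenCone C' ∧ w ∈ C' ∧ C' ⊆ C ∧ Ext C' h V L h' B m Λ R' := sorry
end TX

/-! ## TF: lattices and frames -/

section TF
variable {d : ℕ}

theorem zbasis_li {n : ℕ} {τ : Fin n → Vec n} (h : IsZBasis τ) : LinearIndependent ℝ τ := sorry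
theorem zbasis_rho {τ : Fin (d + 1) → Vec (d + 1)} (h : IsZBasis τ) (K : ℕ) : IsZBasis (rho τ K) := sorry
/-- every open cone contains `-τ (last)` for some basis -/
theorem exists_zbasis {D : Set (Vec (d + 1))} (hD : IsOpenCone D) (hne : D.Nonempty) :
    ∃ τ : Fin (d + 1) → Vec (d + 1), IsZBasis τ ∧ -τ (Fin.last d) ∈ D := sorry
theorem top_mem {D : Set (Vec (d + 1))} (hD : IsOpenCone D) (hd : 0 < d)
    {τ : Fin (d + 1) → Vec (d + 1)} (h : -τ (Fin.last d) ∈ D) : ∃ K0, ∀ K ≥ K0, top τ K hd ∈ D := sorry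
theorem exists_frame' (Q : Vec (d + 1) →L[ℝ] Vec (d + 1) →L[ℝ] ℝ) (hs : ∀ v w, Q v w = Q w v)
    (hp : ∀ v, v ≠ 0 → 0 < Q v v) (ρ : Fin (d + 1) → Vec (d + 1)) (hρ : LinearIndependent ℝ ρ) :
    Nonempty (Frame d Q ρ) := sorry
/-- the flat state space of a lattice -/
def sp (L : Lat d (Vec (d + 1))) : Sp d (Vec (d + 1)) := sorry
theorem sp_b (L : Lat d (Vec (d + 1))) : (sp L).b = L.b := sorry
theorem sp_g (L : Lat d (Vec (d + 1))) : (sp L).g = L.g := sorry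
theorem sp_e (L : Lat d (Vec (d + 1))) : (sp L).e = L.e := sorry
theorem sp_S (L : Lat d (Vec (d + 1))) : (sp L).S = univ := sorry
theorem sp_O (L : Lat d (Vec (d + 1))) (n x) : (sp L).O n x = x := sorry
theorem sp_Og (L : Lat d (Vec (d + 1))) (x) : (sp L).Og x = x := sorry
theorem sp_P (L : Lat d (Vec (d + 1))) (x) : (sp L).P x = x - (inner ℝ L.e x : ℝ) • L.e := sorry
theorem sp_Q (L : Lat d (Vec (d + 1))) (x) : (sp L).Q x = 0 := sorry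
theorem sp_R0 (L : Lat d (Vec (d + 1))) : (sp L).R0 = 0 := sorry
end TF

/-! ## TS: the structure `SpL` of a global Lagrangian -/

section TS
variable {d : ℕ} {Q : Vec (d + 1) →L[ℝ] Vec (d + 1) →L[ℝ] ℝ} {ρ : Fin (d + 1) → Vec (d + 1)}
  {h : Vec (d + 1) → ℝ} {B : Lag (d + 1)} {m Λ : ℝ}

def mkL (F : Frame d Q ρ) (hρ : IsZBasis ρ) (hG : GLag h B m Λ) : SpL d (Vec (d + 1)) := sorry

variable (F : Frame d Q ρ) (hρ : IsZBasis ρ) (hG : GLag h B m Λ)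

theorem mkL_sp : (mkL F hρ hG).toSp = sp F.L := sorry
theorem mkL_l (X U t) : (mkL F hρ hG).l X U t = F.c * (h (F.A.symm U) + B (F.A.symm X, F.A.symm U, t)) := sorry
theorem mkL_h (U) : (mkL F hρ hG).h U = F.c * h (F.A.symm U) := sorry
theorem mkL_gh (U ξ) : inner ℝ ((mkL F hρ hG).gh U) (F.A ξ) = F.c * fderiv ℝ h (F.A.symm U) ξ := sorry
theorem mkL_lu (X U t ξ) : inner ℝ ((mkL F hρ hG).lu X U t) (F.A ξ) =
    F.c * (fderiv ℝ h (F.A.symm U) ξ + fderiv ℝ B (F.A.symm X, F.A.symm U, t) (0, ξ, 0)) := sorry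
theorem mkL_lx (X U t ξ) : inner ℝ ((mkL F hρ hG).lx X U t) (F.A ξ) =
    F.c * fderiv ℝ B (F.A.symm X, F.A.symm U, t) (ξ, 0, 0) := sorry

/-- asymptotics -/
theorem mkL_asym (hd : 0 < d) {τ : Fin (d + 1) → Vec (d + 1)} {K : ℕ} (hτ : ρ = rho τ K)
    {C : Set (Vec (d + 1))} (hC : IsOpenCone C) {g : Vec (d + 1) → ℝ} (hg : IsKinetic C g) {k : ℕ∞}
    (hk : 2 ≤ k) {V L : Lag (d + 1)} (hV : IsDegreeZero C k V) {R : ℝ} (hE : Ext C g V L h B m Λ R)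
    (hK : top τ K hd ∈ C) (hQ : Q = hess g (top τ K hd)) :
    (mkL F hρ hG).Asym (fun X t => F.c * V (F.A.symm X, top τ K hd, t)) := sorry
end TS

/-! ## TP: potentials -/

section TP
variable {d : ℕ} {Q : Vec (d + 1) →L[ℝ] Vec (d + 1) →L[ℝ] ℝ} {ρ : Fin (d + 1) → Vec (d + 1)}
  (F : Frame d Q ρ)

theorem core_isPot (hρ : IsZBasis ρ) {k : ℕ∞} (hk : 2 ≤ k) (f : Pot (d + 1) k) :
    (sp F.L).IsPot (core F f.toFun) := sorry
/-- open sets of potentials -/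
theorem isOpen_of {k : ℕ∞} (hk : 2 ≤ k) (hρ : IsZBasis ρ) (P : (Vec (d + 1) → ℝ → ℝ) → Prop)
    (hP : ∀ f, (sp F.L).IsPot f → P f → ∃ ρ > 0, ∀ f', (sp F.L).IsPot f' →
      (∀ x t, |f x t - f' x t| ≤ ρ) → P f') : IsOpen {f : Pot (d + 1) k | P (core F f.toFun)} := sorry
/-- dense sets of potentials -/
theorem dense_of {k : ℕ∞} (hk : 2 ≤ k) (hρ : IsZBasis ρ) (P : (Vec (d + 1) → ℝ → ℝ) → Prop)
    (f : Pot (d + 1) k)
    (hP : ∀ (N : (sp F.L).SmNorm) (ε : ℝ), 0 < ε → ∃ G, (sp F.L).IsSm G ∧ N.nm G < ε ∧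
      P (fun x t => core F f.toFun x t + G x t)) (r : ℕ) {ε : ℝ} (hε : 0 < ε) :
    ∃ G : Pot (d + 1) k, (∀ j ≤ r, ∀ q, ‖iteratedFDeriv ℝ j G.toFun q‖ < ε) ∧
      P (core F (Pot.add f G).toFun) := sorry
end TP

/-! ## TD: density of the data classes -/

section TD
variable {d : ℕ}
theorem dense_dat (hd : 0 < d) {k : ℕ∞} (hk : 2 ≤ k) {τ : Fin (d + 1) → Vec (d + 1)} (hτ : IsZBasis τ)
    {C : Set (Vec (d + 1))} (hC : IsOpenCone C) (hτC : -τ (Fin.last d) ∈ C) {V : Lag (d + 1)}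
    (hV : IsDegreeZero C k V) (K0 : ℕ) (hK0 : ∀ K, K0 ≤ K → top τ K hd ∈ C)
    (Q : ℕ → Vec (d + 1) →L[ℝ] Vec (d + 1) →L[ℝ] ℝ) (F : ∀ K, K0 ≤ K → Frame d (Q K) (rho τ K))
    (f : Pot (d + 1) k) (r : ℕ) (hr : (r : ℕ∞) ≤ k) {ε : ℝ} (hε : 0 < ε) :
    ∃ G : Pot (d + 1) k, (∀ j ≤ r, ∀ q, ‖iteratedFDeriv ℝ j G.toFun q‖ < ε) ∧
      ∃ (K : ℕ) (hK : K0 ≤ K) (p β : ℚ) (M0 : ℕ), (sp (F K hK).L).Dat p β M0 (fun X t =>
        (F K hK).c * V ((F K hK).A.symm X, top τ K hd, t) + core (F K hK) (Pot.add f G).toFun X t) := sorry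
end TD

/-! ## TO: orbits -/

section TO
variable {d : ℕ} {Q : Vec (d + 1) →L[ℝ] Vec (d + 1) →L[ℝ] ℝ} {τ : Fin (d + 1) → Vec (d + 1)} {K : ℕ}
  (F : Frame d Q (rho τ K)) (hρ : IsZBasis (rho τ K)) {h : Vec (d + 1) → ℝ} {B : Lag (d + 1)}
  {m Λ : ℝ} (hG : GLag h B m Λ)

/-- orbit of `h + B + f` in the original coordinates; `x` is `C¹` -/
theorem orbit_of_escapes {k : ℕ∞} (hk : 2 ≤ k) (f : Pot (d + 1) k)
    (hE : (mkL F hρ hG).Escapes (core F f.toFun)) :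
    ∃ (x v : ℝ → Vec (d + 1)) (σ : ℝ → ℝ) (c : ℝ), (∀ t, 0 < t → HasDerivAt x (v t) t) ∧
      ContinuousOn v (Ioi 0) ∧
      (∀ t, 0 < t → HasDerivAt (fun s => fderiv ℝ (fun w => h w + B (x s, w, s) + f.toFun (x s, s)) (v s))
        (fderiv ℝ (fun y => h (v t) + B (y, v t, t) + f.toFun (y, t)) (x t)) t) ∧
      Tendsto σ atTop atTop ∧
      ∀ t, 0 < t → ‖v t - ∑ i : Fin d, σ t ^ ((i : ℕ) + 1) • rho τ K i.castSucc‖ ≤ c := sorry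

/-- regularity: a `C¹` solution is `C²` -/
theorem c2_of_c1 {n : ℕ} {h : Vec n → ℝ} {B : Lag n} {m Λ : ℝ} (hG : GLag h B m Λ) {k : ℕ∞} (hk : 2 ≤ k)
    (f : Pot n k) {x v : ℝ → Vec n} (hx : ∀ t, 0 < t → HasDerivAt x (v t) t)
    (hv : ContinuousOn v (Ioi 0))
    (he : ∀ t, 0 < t → HasDerivAt (fun s => fderiv ℝ (fun w => h w + B (x s, w, s) + f.toFun (x s, s)) (v s))
        (fderiv ℝ (fun y => h (v t) + B (y, v t, t) + f.toFun (y, t)) (x t)) t) :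
    ContDiffOn ℝ 2 x (Ioi 0) := sorry

/-- escaping orbits in a cone -/
theorem escaping_of_escapes (hd : 0 < d) {C : Set (Vec (d + 1))} (hC : IsOpenCone C)
    {g : Vec (d + 1) → ℝ} {V L : Lag (d + 1)} {R : ℝ} (hE : Ext C g V L h B m Λ R)
    (hper : ∀ (m : Fin (d + 1) → ℤ) (l : ℤ) x v t, v ∈ C → R ≤ ‖v‖ → L (x + vz m, v, t + l) = L (x, v, t))
    (hK : top τ K hd ∈ C) {k : ℕ∞} (hk : 2 ≤ k) (f : Pot (d + 1) k)
    (hEs : (mkL F hρ hG).Escapes (core F f.toFun)) :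
    HasEscapingOrbit (addPot L f.toFun) C := sorry
end TO

/-! ## TT: topology of `C^k(𝕋ⁿ × 𝕋)` (copy of FlatTorusGeneric) -/

section TT
variable {n : ℕ} {k : ℕ∞}
theorem baire (n : ℕ) (k : ℕ∞) : BaireSpace (Pot n k) := sorry
theorem mem_nhds_zero (f : Pot n k) {ρ : ℝ} (hρ : 0 < ρ) :
    {f' : Pot n k | ∀ q, |f.toFun q - f'.toFun q| ≤ ρ} ∈ 𝓝 f := sorry
theorem nhds_small (f : Pot n k) {O : Set (Pot n k)} (hO : O ∈ 𝓝 f) :
    ∃ (r : ℕ) (ε : ℝ), 0 < ε ∧ (r : ℕ∞) ≤ k ∧ ∀ f' : Pot n k,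
      (∀ j ≤ r, ∀ q, ‖iteratedFDeriv ℝ j f'.toFun q - iteratedFDeriv ℝ j f.toFun q‖ < ε) →
        f' ∈ O := sorry
end TT

/-! ## TR: the result -/

section TR

/-- residual set for one cone -/
theorem residual_cone {n : ℕ} (hn : 2 ≤ n) {k : ℕ∞} (hk : 2 ≤ k) {C : Set (Vec n)} (hC : IsOpenCone C)
    {h : Vec n → ℝ} (hh : IsKinetic C h) {L : Lag n} (hL : IsAsymptotic C h k L) {D : Set (Vec n)}
    (hD : IsOpenCone D) (hne : D.Nonempty) (hDC : D ⊆ C) :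
    {f : Pot n k | HasEscapingOrbit (addPot L f.toFun) D} ∈ residual (Pot n k) := sorry

/-- the result -/
theorem result {n : ℕ} (hn : 2 ≤ n) {k : ℕ∞} (hk : 2 ≤ k) {C : Set (Vec n)} (hC : IsOpenCone C)
    {h : Vec n → ℝ} (hh : IsKinetic C h) {L : Lag n} (hL : IsAsymptotic C h k L) :
    {f : Pot n k | ∀ D : Set (Vec n), IsOpenCone D → D.Nonempty → D ⊆ C →
        HasEscapingOrbit (addPot L f.toFun) D} ∈ residual (Pot n k) ∧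
      Dense {f : Pot n k | ∀ D : Set (Vec n), IsOpenCone D → D.Nonempty → D ⊆ C →
        HasEscapingOrbit (addPot L f.toFun) D} := sorry
end TR

end EscF.T
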