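import Pool.Agent.EscF.TS1

/-!
Module TO1 of project EscF: escaping orbits in the original coordinates.
-/

noncomputable section

namespace EscF.T

open Filter Topology Set Esc EscN
open scoped ContDiff

namespace TO1

variable {n : ℕ} {h : Vec n → ℝ} {B : Lag n} {m Λ : ℝ}

/-- derivative of the Lagrangian in the velocity -/
theorem deriv_v (hG : GLag h B m Λ) (x v : Vec n) (t c : ℝ) :
    HasFDerivAt (fun w => h w + B (x, w, t) + c)
      (fderiv ℝ h v + (fderiv ℝ B (x, v, t)).comp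
        ((ContinuousLinearMap.inr ℝ (Vec n) (Vec n × ℝ)).comp (ContinuousLinearMap.inl ℝ (Vec n) ℝ))) v := by
  have h1 : HasFDerivAt h (fderiv ℝ h v) v :=
    ((hG.h_smooth.differentiable (by norm_num)) v).hasFDerivAt
  have h2 : HasFDerivAt B (fderiv ℝ B (x, v, t)) (x, v, t) :=
    ((hG.B_smooth.differentiable (by norm_num)) (x, v, t)).hasFDerivAt
  have h3 : HasFDerivAt (fun w : Vec n => (x, w, t))
      ((ContinuousLinearMap.inr ℝ (Vec n) (Vec n × ℝ)).comp (ContinuousLinearMap.inl ℝ (Vec n) ℝ)) v := by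
    have e : ((ContinuousLinearMap.inr ℝ (Vec n) (Vec n × ℝ)).comp
        (ContinuousLinearMap.inl ℝ (Vec n) ℝ)) =
        (0 : Vec n →L[ℝ] Vec n).prod ((ContinuousLinearMap.id ℝ (Vec n)).prod (0 : Vec n →L[ℝ] ℝ)) := by
      ext w <;> simp
    rw [e]
    exact (hasFDerivAt_const x v).prodMk ((hasFDerivAt_id v).prodMk (hasFDerivAt_const t v))
  exact (h1.add (h2.comp v h3)).add_const c

/-- derivative of the Lagrangian in the position -/
theorem deriv_x (hG : GLag h B m Λ) {f : Vec n × ℝ → ℝ} (hf : Differentiable ℝ f) (x v : Vec n)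
    (t c : ℝ) :
    HasFDerivAt (fun y => c + B (y, v, t) + f (y, t))
      ((fderiv ℝ B (x, v, t)).comp (ContinuousLinearMap.inl ℝ (Vec n) (Vec n × ℝ)) +
        (fderiv ℝ f (x, t)).comp (ContinuousLinearMap.inl ℝ (Vec n) ℝ)) x := by
  have h2 : HasFDerivAt B (fderiv ℝ B (x, v, t)) (x, v, t) :=
    ((hG.B_smooth.differentiable (by norm_num)) (x, v, t)).hasFDerivAt
  have h3 : HasFDerivAt (fun y : Vec n => (y, v, t))
      (ContinuousLinearMap.inl ℝ (Vec n) (Vec n × ℝ)) x :=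
    hasFDerivAt_prodMk_left x (v, t)
  have h4 : HasFDerivAt (fun y : Vec n => (y, t)) (ContinuousLinearMap.inl ℝ (Vec n) ℝ) x :=
    hasFDerivAt_prodMk_left x t
  have h5 : HasFDerivAt f (fderiv ℝ f (x, t)) (x, t) := (hf (x, t)).hasFDerivAt
  exact ((h2.comp x h3).const_add c).add (h5.comp x h4)

end TO1

section TO
variable {d : ℕ} {Q : Vec (d + 1) →L[ℝ] Vec (d + 1) →L[ℝ] ℝ} {τ : Fin (d + 1) → Vec (d + 1)} {K : ℕ}
  (F : Frame d Q (rho τ K)) (hρ : IsZBasis (rho τ K)) {h : Vec (d + 1) → ℝ} {B : Lag (d + 1)}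
  {m Λ : ℝ} (hG : GLag h B m Λ)

namespace TO1

/-- covectors from gradients -/
def cov : Vec (d + 1) →L[ℝ] (Vec (d + 1) →L[ℝ] ℝ) :=
  F.c⁻¹ • ((ContinuousLinearMap.compL ℝ (Vec (d + 1)) (Vec (d + 1)) ℝ).flip
    (F.A : Vec (d + 1) →L[ℝ] Vec (d + 1))).comp (innerSL ℝ)

theorem cov_apply (w ξ : Vec (d + 1)) : cov F w ξ = F.c⁻¹ * inner ℝ w (F.A ξ) := by
  simp [cov]

end TO1

/-- orbit of `h + B + f` in the original coordinates; `x` is `C¹` -/
theorem orbit_of_escapes {k : ℕ∞} (hk : 2 ≤ k) (f : Pot (d + 1) k)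
    (hE : (mkL F hρ hG).Escapes (core F f.toFun)) :
    ∃ (x v : ℝ → Vec (d + 1)) (σ : ℝ → ℝ) (c : ℝ), (∀ t, 0 < t → HasDerivAt x (v t) t) ∧
      ContinuousOn v (Ioi 0) ∧
      (∀ t, 0 < t → HasDerivAt (fun s => fderiv ℝ (fun w => h w + B (x s, w, s) + f.toFun (x s, s)) (v s))
        (fderiv ℝ (fun y => h (v t) + B (y, v t, t) + f.toFun (y, t)) (x t)) t) ∧
      Tendsto σ atTop atTop ∧
      ∀ t, 0 < t → ‖v t - ∑ i : Fin d, σ t ^ ((i : ℕ) + 1) • rho τ K i.castSucc‖ ≤ c := by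
  obtain ⟨X, V, g, σ, C, hX, hV, hg, hEL, hσ, hC⟩ := hE
  have hfd : Differentiable ℝ f.toFun := by
    refine f.contDiff.differentiable ?_
    intro h0
    have h1 : k = 0 := by exact_mod_cast h0
    rw [h1] at hk
    exact absurd hk (by decide)
  have hc : F.c ≠ 0 := F.c_pos.ne'
  set S : Vec (d + 1) →L[ℝ] Vec (d + 1) := (F.A.symm : Vec (d + 1) →L[ℝ] Vec (d + 1)) with hS
  have hSA : ∀ w, S w = F.A.symm w := fun w => rfl
  refine ⟨fun t => S (X t), fun t => S (V t), σ, ‖S‖ * C, ?_, ?_, ?_, hσ, ?_⟩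
  · intro t ht
    exact S.hasFDerivAt.comp_hasDerivAt t (hX t ht)
  · exact S.continuous.comp_continuousOn hV
  · intro t ht
    -- the covector of the Lagrangian
    have e1 : (fun s => fderiv ℝ (fun w => h w + B (S (X s), w, s) + f.toFun (S (X s), s)) (S (V s))) =
        fun s => TO1.cov F ((mkL F hρ hG).lu (X s) (V s) s) := by
      funext s
      rw [(TO1.deriv_v hG (S (X s)) (S (V s)) s (f.toFun (S (X s), s))).fderiv]
      ext ξ
      rw [TO1.cov_apply, mkL_lu, ← mul_assoc, inv_mul_cancel₀ hc, one_mul]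
      simp [hSA]
    have e2 : fderiv ℝ (fun y => h (S (V t)) + B (y, S (V t), t) + f.toFun (y, t)) (S (X t)) =
        TO1.cov F ((mkL F hρ hG).lx (X t) (V t) t + g t) := by
      rw [(TO1.deriv_x hG hfd (S (X t)) (S (V t)) t (h (S (V t)))).fderiv]
      ext ξ
      rw [TO1.cov_apply, inner_add_left, mkL_lx, hg t ht]
      have e3 : HasFDerivAt (fun z => core F f.toFun z t)
          (F.c • (((fderiv ℝ f.toFun (S (X t), t)).comp
            (ContinuousLinearMap.inl ℝ (Vec (d + 1)) ℝ)).comp S)) (X t) := by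
        have h4 : HasFDerivAt (fun y : Vec (d + 1) => (y, t))
            (ContinuousLinearMap.inl ℝ (Vec (d + 1)) ℝ) (S (X t)) := hasFDerivAt_prodMk_left _ t
        have h5 : HasFDerivAt f.toFun (fderiv ℝ f.toFun (S (X t), t)) (S (X t), t) :=
          (hfd (S (X t), t)).hasFDerivAt
        have h6 := ((h5.comp (S (X t)) h4).comp (X t) S.hasFDerivAt).const_smul F.c
        exact h6
      rw [e3.fderiv]
      have e4 : S (F.A ξ) = ξ := F.A.symm_apply_apply ξ
      simp only [_root_.smul_apply, _root_.add_apply, ContinuousLinearMap.comp_apply, smul_eq_mul, e4,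
        ContinuousLinearMap.inl_apply]
      rw [← mul_add, ← mul_assoc, inv_mul_cancel₀ hc, one_mul]
      rfl
    show HasDerivAt (fun s => fderiv ℝ (fun w => h w + B (S (X s), w, s) + f.toFun (S (X s), s))
      (S (V s))) (fderiv ℝ (fun y => h (S (V t)) + B (y, S (V t), t) + f.toFun (y, t)) (S (X t))) t
    rw [e1, e2]
    exact (TO1.cov F).hasFDerivAt.comp_hasDerivAt t (hEL t ht)
  · intro t ht
    have e5 : S ((mkL F hρ hG).vel (σ t)) = ∑ i : Fin d, σ t ^ ((i : ℕ) + 1) • rho τ K i.castSucc := by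
      unfold Sp.vel
      rw [mkL_sp, sp_b, map_sum]
      refine Finset.sum_congr rfl fun i _ => ?_
      rw [map_smul, F.hb, hSA, ContinuousLinearEquiv.symm_apply_apply]
    show ‖S (V t) - ∑ i : Fin d, σ t ^ ((i : ℕ) + 1) • rho τ K i.castSucc‖ ≤ ‖S‖ * C
    rw [← e5, ← map_sub]
    exact (S.le_opNorm _).trans (mul_le_mul_of_nonneg_left (hC t ht) (norm_nonneg _))

end TO

end EscF.T
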