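import Pool.Agent.EscF.TCore

/-!
Module TO2 of project EscF: a `C¹` solution of the Euler-Lagrange equation is `C²`.
-/

noncomputable section

namespace EscF.T

open Filter Topology Set
open scoped ContDiff

section TO2

variable {n : ℕ}

/-- inclusion of the velocities -/
def to2J (n : ℕ) : Vec n →L[ℝ] Vec n × Vec n × ℝ :=
  (ContinuousLinearMap.inr ℝ (Vec n) (Vec n × ℝ)).comp (ContinuousLinearMap.inl ℝ (Vec n) ℝ)

theorem to2J_apply (w : Vec n) : to2J n w = (0, w, 0) := rfl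

/-- composition with the inclusion of the velocities -/
def to2R (n : ℕ) : ((Vec n × Vec n × ℝ) →L[ℝ] ℝ) →L[ℝ] (Vec n →L[ℝ] ℝ) :=
  (ContinuousLinearMap.compL ℝ (Vec n) (Vec n × Vec n × ℝ) ℝ).flip (to2J n)

theorem to2R_apply (A : (Vec n × Vec n × ℝ) →L[ℝ] ℝ) (w : Vec n) : to2R n A w = A (0, w, 0) := rfl

/-- the momentum map -/
def to2G (h : Vec n → ℝ) (B : Lag n) (q : Vec n × Vec n × ℝ) : Vec n × (Vec n →L[ℝ] ℝ) × ℝ :=
  (q.1, fderiv ℝ h q.2.1 + to2R n (fderiv ℝ B q), q.2.2)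

/-- its derivative -/
def to2G' (h : Vec n → ℝ) (B : Lag n) (q : Vec n × Vec n × ℝ) :
    (Vec n × Vec n × ℝ) →L[ℝ] (Vec n × (Vec n →L[ℝ] ℝ) × ℝ) :=
  (ContinuousLinearMap.fst ℝ (Vec n) (Vec n × ℝ)).prod
    (((fderiv ℝ (fderiv ℝ h) q.2.1).comp ((ContinuousLinearMap.fst ℝ (Vec n) ℝ).comp
        (ContinuousLinearMap.snd ℝ (Vec n) (Vec n × ℝ))) +
      (to2R n).comp (fderiv ℝ (fderiv ℝ B) q)).prod
      ((ContinuousLinearMap.snd ℝ (Vec n) ℝ).comp (ContinuousLinearMap.snd ℝ (Vec n) (Vec n × ℝ))))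

theorem to2_smooth {h : Vec n → ℝ} {B : Lag n} {m Λ : ℝ} (hG : GLag h B m Λ) :
    ContDiff ℝ 1 (to2G h B) := by
  have h1 : ContDiff ℝ 1 (fderiv ℝ h) := hG.h_smooth.fderiv_right (by norm_num)
  have h2 : ContDiff ℝ 1 (fderiv ℝ B) := hG.B_smooth.fderiv_right (by norm_num)
  exact contDiff_fst.prodMk (((h1.comp (contDiff_fst.comp contDiff_snd)).add
    ((to2R n).contDiff.comp h2)).prodMk (contDiff_snd.comp contDiff_snd))

theorem to2_hasFDerivAt {h : Vec n → ℝ} {B : Lag n} {m Λ : ℝ} (hG : GLag h B m Λ)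
    (q : Vec n × Vec n × ℝ) : HasFDerivAt (to2G h B) (to2G' h B q) q := by
  have h1 : ContDiff ℝ 1 (fderiv ℝ h) := hG.h_smooth.fderiv_right (by norm_num)
  have h2 : ContDiff ℝ 1 (fderiv ℝ B) := hG.B_smooth.fderiv_right (by norm_num)
  have e1 : HasFDerivAt (fun q : Vec n × Vec n × ℝ => q.2.1)
      ((ContinuousLinearMap.fst ℝ (Vec n) ℝ).comp
        (ContinuousLinearMap.snd ℝ (Vec n) (Vec n × ℝ))) q :=
    ((ContinuousLinearMap.fst ℝ (Vec n) ℝ).comp
        (ContinuousLinearMap.snd ℝ (Vec n) (Vec n × ℝ))).hasFDerivAt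
  have e2 : HasFDerivAt (fun q : Vec n × Vec n × ℝ => q.2.2)
      ((ContinuousLinearMap.snd ℝ (Vec n) ℝ).comp
        (ContinuousLinearMap.snd ℝ (Vec n) (Vec n × ℝ))) q :=
    ((ContinuousLinearMap.snd ℝ (Vec n) ℝ).comp
        (ContinuousLinearMap.snd ℝ (Vec n) (Vec n × ℝ))).hasFDerivAt
  have e3 : HasFDerivAt (fderiv ℝ h) (fderiv ℝ (fderiv ℝ h) q.2.1) q.2.1 :=
    (h1.differentiable (by norm_num) q.2.1).hasFDerivAt
  have e4 : HasFDerivAt (fderiv ℝ B) (fderiv ℝ (fderiv ℝ B) q) q :=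
    (h2.differentiable (by norm_num) q).hasFDerivAt
  exact hasFDerivAt_fst.prodMk (((e3.comp q e1).add ((to2R n).hasFDerivAt.comp q e4)).prodMk e2)

theorem to2_injective {h : Vec n → ℝ} {B : Lag n} {m Λ : ℝ} (hG : GLag h B m Λ)
    (q : Vec n × Vec n × ℝ) : Function.Injective (to2G' h B q) := by
  rw [injective_iff_map_eq_zero]
  rintro ⟨ξ, w, τ⟩ h0
  have h1 : ξ = 0 := congrArg Prod.fst h0
  have h2 : τ = 0 := congrArg (fun p => p.2.2) h0
  have h3 : fderiv ℝ (fderiv ℝ h) q.2.1 w + to2R n (fderiv ℝ (fderiv ℝ B) q (ξ, w, τ)) = 0 :=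
    congrArg (fun p => p.2.1) h0
  subst h1 h2
  have h4 := congrArg (fun A : Vec n →L[ℝ] ℝ => A w) h3
  have h5 : fderiv ℝ (fderiv ℝ h) q.2.1 w w + fderiv ℝ (fderiv ℝ B) q (0, w, 0) (0, w, 0) = 0 := h4
  have h6 := hG.conv q.1 q.2.1 q.2.2 w
  have h7 : m * ‖w‖ ^ 2 ≤ 0 := by
    rw [← h5]; exact h6
  have h8 : ‖w‖ ^ 2 ≤ 0 := by
    by_contra hc
    push Not at hc
    nlinarith [hG.m_pos, mul_pos hG.m_pos hc]
  have h9 : w = 0 := by
    have : ‖w‖ = 0 := by nlinarith [norm_nonneg w]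
    exact norm_eq_zero.mp this
  rw [h9]
  rfl

theorem to2_finrank : Module.finrank ℝ (Vec n × Vec n × ℝ) =
    Module.finrank ℝ (Vec n × (Vec n →L[ℝ] ℝ) × ℝ) := by
  have h1 : Module.finrank ℝ (Vec n →L[ℝ] ℝ) = Module.finrank ℝ (Vec n) := by
    rw [← (LinearMap.toContinuousLinearMap (𝕜 := ℝ) (E := Vec n) (F' := ℝ)).finrank_eq,
      Module.finrank_linearMap]
    simp
  rw [Module.finrank_prod, Module.finrank_prod, Module.finrank_prod, Module.finrank_prod, h1]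

/-- the derivative as an equivalence -/
theorem to2_exists_equiv {h : Vec n → ℝ} {B : Lag n} {m Λ : ℝ} (hG : GLag h B m Λ)
    (q : Vec n × Vec n × ℝ) :
    ∃ e : (Vec n × Vec n × ℝ) ≃L[ℝ] (Vec n × (Vec n →L[ℝ] ℝ) × ℝ),
      (e : (Vec n × Vec n × ℝ) →L[ℝ] (Vec n × (Vec n →L[ℝ] ℝ) × ℝ)) = to2G' h B q := by
  have hi := to2_injective hG q
  have hs : Function.Surjective (to2G' h B q).toLinearMap :=
    (LinearMap.injective_iff_surjective_of_finrank_eq_finrank to2_finrank).mp hi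
  refine ⟨(LinearEquiv.ofBijective (to2G' h B q).toLinearMap ⟨hi, hs⟩).toContinuousLinearEquiv, ?_⟩
  ext p <;> rfl

theorem to2_v {h : Vec n → ℝ} {B : Lag n} {m Λ : ℝ} (hG : GLag h B m Λ) {x v : ℝ → Vec n}
    {P : ℝ → Vec n →L[ℝ] ℝ} {t : ℝ} (hx : ContDiffAt ℝ 1 x t) (hv : ContinuousAt v t)
    (hP : ContDiffAt ℝ 1 P t)
    (hPe : ∀ᶠ s in 𝓝 t, P s = fderiv ℝ h (v s) + to2R n (fderiv ℝ B (x s, v s, s))) :
    ContDiffAt ℝ 1 v t := by
  obtain ⟨e, he⟩ := to2_exists_equiv hG (x t, v t, t)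
  have hsm : ContDiffAt ℝ 1 (to2G h B) (x t, v t, t) := (to2_smooth hG).contDiffAt
  have hd : HasFDerivAt (to2G h B)
      (e : (Vec n × Vec n × ℝ) →L[ℝ] (Vec n × (Vec n →L[ℝ] ℝ) × ℝ)) (x t, v t, t) := by
    rw [he]; exact to2_hasFDerivAt hG _
  have hinv := hsm.to_localInverse hd (by norm_num)
  set g := hsm.localInverse hd (by norm_num) with hg
  have hleft : ∀ᶠ q in 𝓝 (x t, v t, t), g (to2G h B q) = q :=
    (hsm.hasStrictFDerivAt' hd (by norm_num)).eventually_left_inverse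
  have hcurve : ContinuousAt (fun s => (x s, v s, s)) t :=
    hx.continuousAt.prodMk (hv.prodMk continuousAt_id)
  have h1 : ∀ᶠ s in 𝓝 t, g (to2G h B (x s, v s, s)) = (x s, v s, s) := hcurve.eventually hleft
  have h2 : ∀ᶠ s in 𝓝 t, v s = (g (x s, P s, s)).2.1 := by
    filter_upwards [h1, hPe] with s hs hs'
    have h3 : to2G h B (x s, v s, s) = (x s, P s, s) := by
      rw [hs']; rfl
    rw [h3] at hs
    rw [hs]
  have h4 : ContDiffAt ℝ 1 (fun s => (x s, P s, s)) t := hx.prodMk (hP.prodMk contDiffAt_id)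
  have h5 : (x t, P t, t) = to2G h B (x t, v t, t) := by
    rw [hPe.self_of_nhds]; rfl
  have h6 : ContDiffAt ℝ 1 (fun s => g (x s, P s, s)) t := by
    refine ContDiffAt.comp t (g := g) (f := fun s => (x s, P s, s)) ?_ h4
    rw [h5]; exact hinv
  have h7 : ContDiffAt ℝ 1 (fun s => (g (x s, P s, s)).2.1) t :=
    (contDiffAt_fst.comp _ (contDiffAt_snd.comp t h6))
  exact h7.congr_of_eventuallyEq h2

/-- a function on `(0,∞)` with a continuous derivative is `C¹` -/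
theorem to2_c1 {F : Type*} [NormedAddCommGroup F] [NormedSpace ℝ F] {P P' : ℝ → F}
    (hP : ∀ t, 0 < t → HasDerivAt P (P' t) t) (hP' : ContinuousOn P' (Ioi 0)) :
    ContDiffOn ℝ 1 P (Ioi 0) := by
  rw [show (1 : WithTop ℕ∞) = 0 + 1 from (zero_add 1).symm,
    contDiffOn_succ_iff_deriv_of_isOpen isOpen_Ioi]
  refine ⟨fun t ht => (hP t ht).differentiableAt.differentiableWithinAt, by simp, ?_⟩
  rw [contDiffOn_zero]
  exact hP'.congr fun t ht => (hP t ht).deriv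

/-- regularity: a `C¹` solution is `C²` -/
theorem c2_of_c1 {n : ℕ} {h : Vec n → ℝ} {B : Lag n} {m Λ : ℝ} (hG : GLag h B m Λ) {k : ℕ∞} (hk : 2 ≤ k)
    (f : Pot n k) {x v : ℝ → Vec n} (hx : ∀ t, 0 < t → HasDerivAt x (v t) t)
    (hv : ContinuousOn v (Ioi 0))
    (he : ∀ t, 0 < t → HasDerivAt (fun s => fderiv ℝ (fun w => h w + B (x s, w, s) + f.toFun (x s, s)) (v s))
        (fderiv ℝ (fun y => h (v t) + B (y, v t, t) + f.toFun (y, t)) (x t)) t) :
    ContDiffOn ℝ 2 x (Ioi 0) := by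
  have hx1 : ContDiffOn ℝ 1 x (Ioi 0) := to2_c1 hx hv
  have hk1 : ContDiff ℝ 1 f.toFun := f.contDiff.of_le (by
    have : ((1 : ℕ∞) : WithTop ℕ∞) ≤ ((k : ℕ∞) : WithTop ℕ∞) :=
      WithTop.coe_le_coe.mpr (le_trans (by norm_num) hk)
    exact this)
  have hh1 : Differentiable ℝ h := hG.h_smooth.differentiable (by norm_num)
  have hB1 : Differentiable ℝ B := hG.B_smooth.differentiable (by norm_num)
  have hf1 : Differentiable ℝ f.toFun := hk1.differentiable (by norm_num)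
  -- the momentum
  have hmom : ∀ s, fderiv ℝ (fun w => h w + B (x s, w, s) + f.toFun (x s, s)) (v s) =
      fderiv ℝ h (v s) + to2R n (fderiv ℝ B (x s, v s, s)) := by
    intro s
    have e1 : HasFDerivAt (fun w : Vec n => ((x s, w, s) : Vec n × Vec n × ℝ)) (to2J n) (v s) := by
      have h1 : HasFDerivAt (fun w : Vec n => w) (ContinuousLinearMap.id ℝ (Vec n)) (v s) :=
        hasFDerivAt_id _
      exact (hasFDerivAt_const (x s) (v s)).prodMk (h1.prodMk (hasFDerivAt_const s (v s)))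
    have e2 : HasFDerivAt (fun w : Vec n => B (x s, w, s)) ((fderiv ℝ B (x s, v s, s)).comp (to2J n))
        (v s) := (hB1 (x s, v s, s)).hasFDerivAt.comp (v s) e1
    have e3 := (((hh1 (v s)).hasFDerivAt.add e2).add_const (f.toFun (x s, s))).fderiv
    exact e3
  -- the force
  have hforce : ∀ t, fderiv ℝ (fun y => h (v t) + B (y, v t, t) + f.toFun (y, t)) (x t) =
      (fderiv ℝ B (x t, v t, t)).comp (ContinuousLinearMap.inl ℝ (Vec n) (Vec n × ℝ)) +
        (fderiv ℝ f.toFun (x t, t)).comp (ContinuousLinearMap.inl ℝ (Vec n) ℝ) := by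
    intro t
    have h1 : HasFDerivAt (fun y : Vec n => y) (ContinuousLinearMap.id ℝ (Vec n)) (x t) :=
      hasFDerivAt_id _
    have e1 : HasFDerivAt (fun y : Vec n => ((y, v t, t) : Vec n × Vec n × ℝ))
        (ContinuousLinearMap.inl ℝ (Vec n) (Vec n × ℝ)) (x t) :=
      h1.prodMk (hasFDerivAt_const (v t, t) (x t))
    have e2 : HasFDerivAt (fun y : Vec n => ((y, t) : Vec n × ℝ))
        (ContinuousLinearMap.inl ℝ (Vec n) ℝ) (x t) := h1.prodMk (hasFDerivAt_const t (x t))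
    have e3 := (hB1 (x t, v t, t)).hasFDerivAt.comp (x t) e1
    have e4 := (hf1 (x t, t)).hasFDerivAt.comp (x t) e2
    exact ((e3.const_add (h (v t))).add e4).fderiv
  have hxc : ContinuousOn x (Ioi 0) := hx1.continuousOn
  have hBc : Continuous (fderiv ℝ B) := hG.B_smooth.continuous_fderiv (by norm_num)
  have hfc : Continuous (fderiv ℝ f.toFun) := hk1.continuous_fderiv (by norm_num)
  have hPc : ContinuousOn (fun t => fderiv ℝ (fun y => h (v t) + B (y, v t, t) + f.toFun (y, t)) (x t))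
      (Ioi 0) := by
    simp_rw [hforce]
    have c1 : ContinuousOn (fun t => fderiv ℝ B (x t, v t, t)) (Ioi 0) :=
      hBc.comp_continuousOn (hxc.prodMk (hv.prodMk continuousOn_id))
    have c2 : ContinuousOn (fun t => fderiv ℝ f.toFun (x t, t)) (Ioi 0) :=
      hfc.comp_continuousOn (hxc.prodMk continuousOn_id)
    exact (c1.clm_comp continuousOn_const).add (c2.clm_comp continuousOn_const)
  have hP1 := to2_c1 he hPc
  have hv1 : ContDiffOn ℝ 1 v (Ioi 0) := by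
    intro t ht
    have hnt : Ioi (0:ℝ) ∈ 𝓝 t := isOpen_Ioi.mem_nhds ht
    refine (to2_v hG (hx1.contDiffAt hnt) (hv.continuousAt hnt) (hP1.contDiffAt hnt)
      (Eventually.of_forall hmom)).contDiffWithinAt
  rw [show (2 : WithTop ℕ∞) = 1 + 1 from one_add_one_eq_two.symm,
    contDiffOn_succ_iff_deriv_of_isOpen isOpen_Ioi]
  refine ⟨hx1.differentiableOn (by norm_num), by simp, ?_⟩
  exact hv1.congr fun t ht => (hx t ht).deriv

end TO2

end EscF.T
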