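import Pool.Agent.EscF.TS1
import Pool.Agent.EscF.TO1
import Pool.Agent.EscF.TO2

/-!
Module TO3 of project EscF: escaping orbits in a cone.
-/

noncomputable section

namespace EscF.T

open Filter Topology Set Esc EscN
open scoped ContDiff

namespace TO3

theorem rho_castSucc {d : ℕ} (τ : Fin (d + 1) → Vec (d + 1)) (K : ℕ) (i : Fin d) :
    rho τ K i.castSucc = τ i.castSucc - (K : ℝ) • τ (Fin.last d) := by
  unfold rho
  rw [Fin.snoc_castSucc]

/-- the powers of `σ` divided by the highest one -/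
theorem pow_lim {σ : ℝ → ℝ} (hσ : Tendsto σ atTop atTop) {d : ℕ} {j : ℕ} (hj : j ≤ d) :
    Tendsto (fun t => (σ t ^ d)⁻¹ * σ t ^ j) atTop (𝓝 (if j = d then 1 else 0)) := by
  have hpos : ∀ᶠ t in atTop, 0 < σ t := hσ.eventually_gt_atTop 0
  split_ifs with h
  · subst h
    refine tendsto_const_nhds.congr' ?_
    filter_upwards [hpos] with t ht
    rw [inv_mul_cancel₀ (pow_pos ht _).ne']
  · have h1 : d - j ≠ 0 := by omega
    have h2 : Tendsto (fun t => (σ t ^ (d - j))⁻¹) atTop (𝓝 0) :=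
      tendsto_inv_atTop_zero.comp ((tendsto_pow_atTop h1).comp hσ)
    refine h2.congr' ?_
    filter_upwards [hpos] with t ht
    have h3 : σ t ^ d = σ t ^ (d - j) * σ t ^ j := by
      rw [← pow_add]
      congr 1
      omega
    have h4 : σ t ^ j ≠ 0 := (pow_pos ht _).ne'
    have h5 : σ t ^ (d - j) ≠ 0 := (pow_pos ht _).ne'
    rw [h3, mul_inv, mul_assoc, inv_mul_cancel₀ h4, mul_one]

/-- the limit direction -/
theorem dir_lim {d : ℕ} (hd : 0 < d) (τ : Fin (d + 1) → Vec (d + 1)) (K : ℕ)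
    {v : ℝ → Vec (d + 1)} {σ : ℝ → ℝ} {c : ℝ} (hσ : Tendsto σ atTop atTop)
    (hv : ∀ t, 0 < t → ‖v t - ∑ i : Fin d, σ t ^ ((i : ℕ) + 1) • rho τ K i.castSucc‖ ≤ c) :
    Tendsto (fun t => (σ t ^ d)⁻¹ • v t) atTop (𝓝 (top τ K hd)) := by
  have hpd : Tendsto (fun t => σ t ^ d) atTop atTop := (tendsto_pow_atTop hd.ne').comp hσ
  have hinv : Tendsto (fun t => (σ t ^ d)⁻¹) atTop (𝓝 0) := tendsto_inv_atTop_zero.comp hpd
  have h1 : Tendsto (fun t => (σ t ^ d)⁻¹ •
      (v t - ∑ i : Fin d, σ t ^ ((i : ℕ) + 1) • rho τ K i.castSucc)) atTop (𝓝 0) := by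
    rw [tendsto_zero_iff_norm_tendsto_zero]
    have h2 : Tendsto (fun t => (σ t ^ d)⁻¹ * c) atTop (𝓝 0) := by
      have := hinv.mul_const c
      rwa [zero_mul] at this
    refine squeeze_zero' (Eventually.of_forall fun t => norm_nonneg _) ?_ h2
    filter_upwards [eventually_gt_atTop 0, hσ.eventually_gt_atTop 0] with t ht hs
    rw [norm_smul, Real.norm_of_nonneg (inv_nonneg.2 (pow_pos hs _).le)]
    exact mul_le_mul_of_nonneg_left (hv t ht) (inv_nonneg.2 (pow_pos hs _).le)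
  have h3 : Tendsto (fun t => ∑ i : Fin d, ((σ t ^ d)⁻¹ * σ t ^ ((i : ℕ) + 1)) • rho τ K i.castSucc)
      atTop (𝓝 (∑ i : Fin d, (if (i : ℕ) + 1 = d then (1 : ℝ) else 0) • rho τ K i.castSucc)) :=
    tendsto_finsetSum _ fun i _ => (pow_lim hσ (by omega)).smul_const _
  have h4 : ∑ i : Fin d, (if (i : ℕ) + 1 = d then (1 : ℝ) else 0) • rho τ K i.castSucc =
      top τ K hd := by
    rw [Finset.sum_eq_single ⟨d - 1, Nat.sub_lt hd one_pos⟩]
    · have : (d - 1) + 1 = d := by omega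
      simp only [this, if_true, one_smul]
      rw [rho_castSucc]
      rfl
    · intro i _ hi
      have : (i : ℕ) + 1 ≠ d := by
        intro h
        exact hi (Fin.ext (by simp only; omega))
      rw [if_neg this, zero_smul]
    · intro h
      exact absurd (Finset.mem_univ _) h
  rw [h4] at h3
  have h5 := h1.add h3
  rw [zero_add] at h5
  refine h5.congr fun t => ?_
  rw [smul_sub, Finset.smul_sum]
  simp only [smul_smul]
  abel

theorem vz_zero {n : ℕ} : vz (0 : Fin n → ℤ) = 0 := by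
  ext i
  simp [vz]

/-- the shifted orbit -/
theorem shift {n : ℕ} {C : Set (Vec n)} (hC : IsOpenCone C) {h : Vec n → ℝ} {B L : Lag n} {R : ℝ}
    (hL : ∀ x v t, v ∈ C → R ≤ ‖v‖ → L (x, v, t) = h v + B (x, v, t))
    (hper : ∀ (m : Fin n → ℤ) (l : ℤ) x v t, v ∈ C → R ≤ ‖v‖ → L (x + vz m, v, t + l) = L (x, v, t))
    (hh2 : ContDiff ℝ 2 h) (hB2 : ContDiff ℝ 2 B) {f : Fun n} (hf2 : ContDiff ℝ 2 f)
    (hf : IsPeriodic f) {x v : ℝ → Vec n} (hx : ∀ t, 0 < t → HasDerivAt x (v t) t)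
    (he : ∀ t, 0 < t → HasDerivAt (fun s => fderiv ℝ (fun w => h w + B (x s, w, s) + f (x s, s)) (v s))
        (fderiv ℝ (fun y => h (v t) + B (y, v t, t) + f (y, t)) (x t)) t)
    (hx2 : ContDiffOn ℝ 2 x (Ioi 0)) {T : ℕ} (hT : ∀ t : ℝ, (T : ℝ) < t → v t ∈ C ∧ R < ‖v t‖)
    (hlim : Tendsto (fun t => ‖v t‖) atTop atTop) :
    HasEscapingOrbit (addPot L f) C := by
  have hT0 : (0 : ℝ) ≤ T := Nat.cast_nonneg T
  set y : ℝ → Vec n := fun t => x (t + T) with hy
  have hyd : ∀ t, 0 < t → HasDerivAt y (v (t + T)) t := fun t ht =>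
    (hx (t + T) (by linarith)).comp_add_const t T
  have hyd' : ∀ t, 0 < t → deriv y t = v (t + T) := fun t ht => (hyd t ht).deriv
  have hLs : ∀ z w (s : ℝ), w ∈ C → R ≤ ‖w‖ → L (z, w, s) = h w + B (z, w, s + T) := by
    intro z w s hw hR
    rw [← hL z w (s + T) hw hR, ← hper 0 T z w s hw hR, vz_zero, add_zero, Int.cast_natCast]
  have hfs : ∀ z (s : ℝ), f (z, s) = f (z, s + T) := by
    intro z s
    rw [← hf 0 T z s, vz_zero, add_zero, Int.cast_natCast]
  have hmem : ∀ s, 0 < s → v (s + T) ∈ C ∧ R < ‖v (s + T)‖ := fun s hs => hT _ (by linarith)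
  have hgerm : ∀ s, 0 < s → fderiv ℝ (fun w => addPot L f (y s, w, s)) (deriv y s) =
      fderiv ℝ (fun w => h w + B (x (s + T), w, s + T) + f (x (s + T), s + T)) (v (s + T)) := by
    intro s hs
    rw [hyd' s hs]
    refine Filter.EventuallyEq.fderiv_eq ?_
    have h1 : ∀ᶠ w in 𝓝 (v (s + T)), w ∈ C := hC.1.mem_nhds (hmem s hs).1
    have h2 : ∀ᶠ w in 𝓝 (v (s + T)), R < ‖w‖ :=
      continuous_norm.continuousAt.eventually (lt_mem_nhds (hmem s hs).2)
    filter_upwards [h1, h2] with w hw hR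
    simp only [addPot, hy]
    rw [hLs _ w s hw hR.le, hfs]
  refine ⟨y, ⟨?_, ?_⟩, ?_, ?_⟩
  · refine hx2.comp (contDiff_id.add contDiff_const).contDiffOn fun t ht => ?_
    have : (0 : ℝ) < t := ht
    show (0 : ℝ) < t + T
    linarith
  · intro t ht
    refine ⟨?_, ?_⟩
    · -- the Lagrangian is of class `C²` near the orbit
      have g1 : ContDiff ℝ 2 fun q : Vec n × Vec n × ℝ =>
          h q.2.1 + B (q.1, q.2.1, q.2.2 + T) + f (q.1, q.2.2 + T) := by
        have a1 : ContDiff ℝ 2 fun q : Vec n × Vec n × ℝ => h q.2.1 :=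
          hh2.comp (contDiff_fst.comp contDiff_snd)
        have a0 : ContDiff ℝ 2 fun q : Vec n × Vec n × ℝ => q.2.2 + (T : ℝ) :=
          (contDiff_snd.comp contDiff_snd).add contDiff_const
        have a2 : ContDiff ℝ 2 fun q : Vec n × Vec n × ℝ => B (q.1, q.2.1, q.2.2 + T) :=
          hB2.comp (contDiff_fst.prodMk ((contDiff_fst.comp contDiff_snd).prodMk a0))
        have a3 : ContDiff ℝ 2 fun q : Vec n × Vec n × ℝ => f (q.1, q.2.2 + T) :=
          hf2.comp (contDiff_fst.prodMk a0)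
        exact (a1.add a2).add a3
      have g2 : addPot L f =ᶠ[𝓝 (y t, deriv y t, t)] fun q : Vec n × Vec n × ℝ =>
          h q.2.1 + B (q.1, q.2.1, q.2.2 + T) + f (q.1, q.2.2 + T) := by
        have c1 : ContinuousAt (fun q : Vec n × Vec n × ℝ => q.2.1) (y t, deriv y t, t) :=
          (continuous_fst.comp continuous_snd).continuousAt
        have h1 : ∀ᶠ q : Vec n × Vec n × ℝ in 𝓝 (y t, deriv y t, t), q.2.1 ∈ C := by
          refine c1.eventually (hC.1.mem_nhds ?_)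
          rw [hyd' t ht]
          exact (hmem t ht).1
        have h2 : ∀ᶠ q : Vec n × Vec n × ℝ in 𝓝 (y t, deriv y t, t), R < ‖q.2.1‖ := by
          refine c1.norm.eventually (lt_mem_nhds ?_)
          show R < ‖deriv y t‖
          rw [hyd' t ht]
          exact (hmem t ht).2
        filter_upwards [h1, h2] with q hq hR
        simp only [addPot]
        rw [hLs q.1 q.2.1 q.2.2 hq hR.le, hfs]
      exact g1.contDiffAt.congr_of_eventuallyEq g2
    have h1 := (he (t + T) (by linarith)).comp_add_const t T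
    have h2 : (fun s => fderiv ℝ (fun w => addPot L f (y s, w, s)) (deriv y s)) =ᶠ[𝓝 t]
        fun s => fderiv ℝ (fun w => h w + B (x (s + T), w, s + T) + f (x (s + T), s + T))
          (v (s + T)) := by
      filter_upwards [lt_mem_nhds ht] with s hs using hgerm s hs
    have h3 : (fun z => addPot L f (z, deriv y t, t)) =
        fun z => h (v (t + T)) + B (z, v (t + T), t + T) + f (z, t + T) := by
      funext z
      rw [hyd' t ht]
      simp only [addPot]
      rw [hLs z _ t (hmem t ht).1 (hmem t ht).2.le, hfs]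
    rw [h3]
    exact h1.congr_of_eventuallyEq h2
  · intro t ht
    rw [hyd' t ht]
    exact (hmem t ht).1
  · have h1 : Tendsto (fun t : ℝ => ‖v (t + T)‖) atTop atTop :=
      hlim.comp (tendsto_atTop_add_const_right _ _ tendsto_id)
    refine h1.congr' ?_
    filter_upwards [eventually_gt_atTop 0] with t ht
    rw [hyd' t ht]

end TO3

open TO3

variable {d : ℕ} {Q : Vec (d + 1) →L[ℝ] Vec (d + 1) →L[ℝ] ℝ} {τ : Fin (d + 1) → Vec (d + 1)} {K : ℕ}
  (F : Frame d Q (rho τ K)) (hρ : IsZBasis (rho τ K)) {h : Vec (d + 1) → ℝ} {B : Lag (d + 1)}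
  {m Λ : ℝ} (hG : GLag h B m Λ)

/-- escaping orbits in a cone -/
theorem escaping_of_escapes (hd : 0 < d) {C : Set (Vec (d + 1))} (hC : IsOpenCone C)
    {g : Vec (d + 1) → ℝ} {V L : Lag (d + 1)} {R : ℝ} (hE : Ext C g V L h B m Λ R)
    (hper : ∀ (m : Fin (d + 1) → ℤ) (l : ℤ) x v t, v ∈ C → R ≤ ‖v‖ → L (x + vz m, v, t + l) = L (x, v, t))
    (hK : top τ K hd ∈ C) {k : ℕ∞} (hk : 2 ≤ k) (f : Pot (d + 1) k)
    (hEs : (mkL F hρ hG).Escapes (core F f.toFun)) :
    HasEscapingOrbit (addPot L f.toFun) C := by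
  obtain ⟨x, v, σ, c, hx, hv, he, hσ, hvσ⟩ := orbit_of_escapes F hρ hG hk f hEs
  have hx2 := c2_of_c1 hG hk f hx hv he
  have hdir := dir_lim hd τ K hσ hvσ
  have hpd : Tendsto (fun t => σ t ^ d) atTop atTop := (tendsto_pow_atTop hd.ne').comp hσ
  have hpos : ∀ᶠ t in atTop, 0 < σ t ^ d := hpd.eventually_gt_atTop 0
  have htop : top τ K hd ≠ 0 := fun h0 => hC.2.1 (h0 ▸ hK)
  -- the velocity tends to infinity
  have hlim : Tendsto (fun t => ‖v t‖) atTop atTop := by
    have h1 : Tendsto (fun t => σ t ^ d * ‖(σ t ^ d)⁻¹ • v t‖) atTop atTop :=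
      hpd.atTop_mul_pos (norm_pos_iff.2 htop) hdir.norm
    refine h1.congr' ?_
    filter_upwards [hpos] with t ht
    rw [norm_smul, norm_inv, Real.norm_of_nonneg ht.le, ← mul_assoc, mul_inv_cancel₀ ht.ne', one_mul]
  -- the velocity is in the cone
  have hcone : ∀ᶠ t in atTop, v t ∈ C := by
    have h1 : ∀ᶠ t in atTop, (σ t ^ d)⁻¹ • v t ∈ C := hdir.eventually (hC.1.mem_nhds hK)
    filter_upwards [h1, hpos] with t h2 ht
    have h3 := hC.2.2 _ h2 _ ht
    rwa [smul_smul, mul_inv_cancel₀ ht.ne', one_smul] at h3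
  obtain ⟨T0, hT0⟩ := eventually_atTop.1 (hcone.and (hlim.eventually_gt_atTop R))
  obtain ⟨T, hT⟩ := exists_nat_ge T0
  have hf2 : ContDiff ℝ 2 f.toFun := f.contDiff.of_le (WithTop.coe_le_coe.2 hk)
  exact shift hC hE.L_eq hper hG.h_smooth hG.B_smooth hf2 f.periodic hx he hx2 (T := T)
    (fun t ht => hT0 t (by linarith)) hlim

end EscF.T
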