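import Pool.Agent.EscF.TDefs

/-!
Module TT of project EscF: the topology of `C^k(𝕋ⁿ × 𝕋)` (neighbourhoods, Baire property).
-/

namespace EscF.T

open Filter Topology Set
open scoped ContDiff UniformConvergence

section TT
variable {n : ℕ} {k : ℕ∞}

theorem mem_nhds_zero (f : Pot n k) {ρ : ℝ} (hρ : 0 < ρ) :
    {f' : Pot n k | ∀ q, |f.toFun q - f'.toFun q| ≤ ρ} ∈ 𝓝 f := by
  have hc : Continuous (jet : Pot n k → _) := continuous_induced_dom
  have h0 : Continuous fun f : Pot n k => jet f ⟨0, by simp⟩ := (continuous_pi_iff.1 hc) _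
  have hb := UniformFun.hasBasis_nhds_of_basis (Vec n × ℝ)
    (ContinuousMultilinearMap ℝ (fun _ : Fin 0 => Vec n × ℝ) ℝ) (jet f ⟨0, by simp⟩)
    Metric.uniformity_basis_dist
  have h1 := h0.continuousAt.preimage_mem_nhds (hb.mem_of_mem hρ)
  refine mem_of_superset h1 fun f' hf' q => ?_
  have h2 := hf' q
  simp only [jet, UniformFun.toFun_ofFun] at h2
  have h3 : dist (iteratedFDeriv ℝ 0 f.toFun q) (iteratedFDeriv ℝ 0 f'.toFun q) = |f.toFun q - f'.toFun q| := by
    rw [dist_eq_norm, iteratedFDeriv_zero_eq_comp, iteratedFDeriv_zero_eq_comp]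
    simp only [Function.comp]
    rw [← map_sub, LinearIsometryEquiv.norm_map, Real.norm_eq_abs]
  rw [← h3]
  exact le_of_lt h2

theorem nhds_small (f : Pot n k) {O : Set (Pot n k)} (hO : O ∈ 𝓝 f) :
    ∃ (r : ℕ) (ε : ℝ), 0 < ε ∧ (r : ℕ∞) ≤ k ∧ ∀ f' : Pot n k,
      (∀ j ≤ r, ∀ q, ‖iteratedFDeriv ℝ j f'.toFun q - iteratedFDeriv ℝ j f.toFun q‖ < ε) →
        f' ∈ O := by
  rw [nhds_induced, mem_comap] at hO
  obtain ⟨t, ht, htO⟩ := hO
  rw [nhds_pi, Filter.mem_pi] at ht
  obtain ⟨I, hI, s, hs, hst⟩ := ht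
  have hε : ∀ j : {j : ℕ // (j : ℕ∞) ≤ k}, ∃ ε > 0, ∀ f' : Pot n k,
      (∀ q, ‖iteratedFDeriv ℝ j.1 f'.toFun q - iteratedFDeriv ℝ j.1 f.toFun q‖ < ε) → jet f' j ∈ s j := by
    intro j
    have hb := UniformFun.hasBasis_nhds_of_basis (Vec n × ℝ)
      (ContinuousMultilinearMap ℝ (fun _ : Fin j.1 => Vec n × ℝ) ℝ) (jet f j)
      Metric.uniformity_basis_dist
    obtain ⟨ε, hε, h⟩ := hb.mem_iff.1 (hs j)
    refine ⟨ε, hε, fun f' hf' => h fun q => ?_⟩
    simp only [jet, UniformFun.toFun_ofFun]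
    have := hf' q
    rw [← dist_eq_norm, dist_comm] at this
    exact this
  choose ε hεp hεs using hε
  obtain ⟨r, hrk, hr⟩ : ∃ r : ℕ, (r : ℕ∞) ≤ k ∧ ∀ j ∈ I, j.1 ≤ r := by
    rcases I.eq_empty_or_nonempty with rfl | hne
    · exact ⟨0, by simp, by simp⟩
    · obtain ⟨j0, hj0, hmax⟩ := hI.exists_maximalFor
        (fun j : {j : ℕ // (j : ℕ∞) ≤ k} => j.1) I hne
      refine ⟨j0.1, j0.2, fun j hj => ?_⟩
      by_contra hlt
      push Not at hlt
      exact absurd (hmax hj hlt.le) (not_le.2 hlt)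
  obtain ⟨e, he, hle⟩ : ∃ e > 0, ∀ j ∈ I, e ≤ ε j := by
    rcases I.eq_empty_or_nonempty with rfl | hne
    · exact ⟨1, one_pos, by simp⟩
    · obtain ⟨j0, hj0, hmin⟩ := hI.exists_minimalFor ε I hne
      exact ⟨ε j0, hεp j0, fun j hj => by
        by_contra hlt
        push Not at hlt
        exact absurd (hmin hj hlt.le) (not_le.2 hlt)⟩
  refine ⟨r, e, he, hrk, fun f' hf' => htO (hst fun j hj => hεs j f' fun q => ?_)⟩
  exact (hf' j.1 (hr j hj) q).trans_le (hle j hj)

/-- The space `C^k(𝕋ⁿ × 𝕋)` is a Baire space (it is completely metrizable). -/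
theorem baire (n : ℕ) (k : ℕ∞) : BaireSpace (Pot n k) := by
  have hu : ∀ j : {j : ℕ // (j : ℕ∞) ≤ k}, TopologicalSpace.IsCompletelyPseudoMetrizableSpace
      ((Vec n × ℝ) →ᵤ ContinuousMultilinearMap ℝ (fun _ : Fin j.1 => Vec n × ℝ) ℝ) := fun j => by
    have : (uniformity ((Vec n × ℝ) →ᵤ
      ContinuousMultilinearMap ℝ (fun _ : Fin j.1 => Vec n × ℝ) ℝ)).IsCountablyGenerated :=
        inferInstance
    infer_instance
  have hind : IsInducing (jet : Pot n k → _) := ⟨rfl⟩
  have hinj : Function.Injective (jet : Pot n k → _) := by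
    intro f f' h
    have key : f.toFun = f'.toFun := funext fun q => ?_
    · cases f; cases f'; simp only [Pot.mk.injEq]; exact key
    have h0 := congrFun h ⟨0, by simp⟩
    have h1 : iteratedFDeriv ℝ 0 f.toFun q = iteratedFDeriv ℝ 0 f'.toFun q :=
      congrFun (UniformFun.ofFun.injective h0) q
    rw [iteratedFDeriv_zero_eq_comp, iteratedFDeriv_zero_eq_comp] at h1
    exact (LinearIsometryEquiv.injective _) h1
  have hcl : IsClosed (range (jet : Pot n k → _)) := by
    rw [← closure_subset_iff_isClosed]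
    intro Ψ hΨ
    set l : Filter (Pot n k) := comap jet (𝓝 Ψ) with hl
    have hne : l.NeBot := by
      rw [hl, comap_neBot_iff]
      intro t ht
      obtain ⟨y, hy, f, rfl⟩ := mem_closure_iff_nhds.1 hΨ t ht
      exact ⟨f, hy⟩
    have htend : Tendsto (jet : Pot n k → _) l (𝓝 Ψ) := tendsto_comap
    have hunif : ∀ j (hj : ((j : ℕ) : ℕ∞) ≤ k), TendstoUniformly
        (fun (f : Pot n k) q => iteratedFDeriv ℝ j f.toFun q) (UniformFun.toFun (Ψ ⟨j, hj⟩)) l := by
      intro j hj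
      exact UniformFun.tendsto_iff_tendstoUniformly.1 ((tendsto_pi_nhds.1 htend) ⟨j, hj⟩)
    set p : Vec n × ℝ → FormalMultilinearSeries ℝ (Vec n × ℝ) ℝ := fun q j =>
      if hj : ((j : ℕ) : ℕ∞) ≤ k then UniformFun.toFun (Ψ ⟨j, hj⟩) q else 0 with hp
    have hpj : ∀ j (hj : ((j : ℕ) : ℕ∞) ≤ k) q, p q j = UniformFun.toFun (Ψ ⟨j, hj⟩) q :=
      fun j hj q => by simp only [hp, dif_pos hj]
    set φ : Fun n := fun q => (p q 0).curry0 with hφ
    have hcast : ∀ {m : ℕ}, ((m : WithTop ℕ∞) ≤ (k : WithTop ℕ∞)) → ((m : ℕ∞) ≤ k) :=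
      fun h => WithTop.coe_le_coe.1 h
    have hfd : ∀ (f : Pot n k) (m : ℕ), (m : ℕ∞) ≤ k →
        ContDiff ℝ m f.toFun := fun f m hm => f.contDiff.of_le (WithTop.coe_le_coe.2 hm)
    have htay : HasFTaylorSeriesUpTo k φ p := by
      refine ⟨fun _ => rfl, fun m hm x => ?_, fun m hm => ?_⟩
      · have hm1 : ((m + 1 : ℕ) : ℕ∞) ≤ k := by
          have h1 : (m : ℕ∞) < k := WithTop.coe_lt_coe.1 hm
          push_cast
          exact Order.add_one_le_of_lt h1
        have hm0 : ((m : ℕ) : ℕ∞) ≤ k := hcast hm.le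
        have h1 : TendstoUniformly (fun (f : Pot n k) x => (iteratedFDeriv ℝ (m + 1) f.toFun x).curryLeft)
            (fun x => (p x (m + 1)).curryLeft) l := by
          have h2 := (continuousMultilinearCurryLeftEquiv ℝ
            (fun _ : Fin (m + 1) => Vec n × ℝ) ℝ).isometry.uniformContinuous.comp_tendstoUniformly
              (hunif (m + 1) hm1)
          have e : (fun x => (p x (m + 1)).curryLeft) = (continuousMultilinearCurryLeftEquiv ℝ
              (fun _ : Fin (m + 1) => Vec n × ℝ) ℝ) ∘ (UniformFun.toFun (Ψ ⟨m + 1, hm1⟩)) := by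
            funext x
            rw [hpj (m + 1) hm1]
            rfl
          rw [e]
          exact h2
        refine hasFDerivAt_of_tendstoUniformly (f := fun (f : Pot n k) x => iteratedFDeriv ℝ m f.toFun x)
          (g := fun x => p x m) h1 (fun f x => ?_) (fun x => ?_) x
        · have h5 : ContDiff ℝ (m + 1 : ℕ) f.toFun := hfd f (m + 1) hm1
          have h6 := (contDiff_iff_ftaylorSeries.1 h5).fderiv m (by exact_mod_cast Nat.lt_succ_self m) x
          exact h6
        · rw [hpj m hm0]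
          exact (hunif m hm0).tendsto_at x
      · have hm0 : ((m : ℕ) : ℕ∞) ≤ k := hcast hm
        have e : (fun x => p x m) = UniformFun.toFun (Ψ ⟨m, hm0⟩) := funext fun x => hpj m hm0 x
        rw [e]
        refine (hunif m hm0).continuous (Frequently.of_forall fun f => ?_)
        exact (hfd f m hm0).continuous_iteratedFDeriv le_rfl
    have hφc : ContDiff ℝ k φ := htay.contDiff
    have hφp : IsPeriodic φ := by
      intro m l' x t
      have h0 : ((0 : ℕ) : ℕ∞) ≤ k := by simp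
      have h1 := (hunif 0 h0).tendsto_at (x + vz m, t + l')
      have h2 := (hunif 0 h0).tendsto_at (x, t)
      have h3 : (fun f : Pot n k => iteratedFDeriv ℝ 0 f.toFun
          (x + vz m, t + l')) =
          fun f : Pot n k => iteratedFDeriv ℝ 0 f.toFun (x, t) := by
        funext f
        rw [iteratedFDeriv_zero_eq_comp]
        simp only [Function.comp]
        rw [f.periodic m l' x t]
      rw [h3] at h1
      have h4 := tendsto_nhds_unique h1 h2
      simp only [hφ, hpj 0 h0, h4]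
    refine ⟨⟨φ, hφc, hφp⟩, funext fun j => ?_⟩
    have h5 : ∀ q, iteratedFDeriv ℝ j.1 φ q = UniformFun.toFun (Ψ j) q := fun q => by
      rw [← htay.eq_iteratedFDeriv (WithTop.coe_le_coe.2 j.2), hpj j.1 j.2]
    show UniformFun.ofFun (iteratedFDeriv ℝ j.1 φ) = Ψ j
    rw [show iteratedFDeriv ℝ j.1 φ = UniformFun.toFun (Ψ j) from funext h5, UniformFun.ofFun_toFun]
  have hce : IsClosedEmbedding (jet : Pot n k → _) := ⟨⟨hind, hinj⟩, hcl⟩
  have := hce.IsCompletelyPseudoMetrizableSpace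
  infer_instance

end TT

end EscF.T
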