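import Pool.Agent.EscF.TF
import Pool.Agent.EscF.TT
import Pool.Agent.helper37.Esc.Transfer

/-!
Module TP of project EscF: transfer of potentials between the torus and the state space.
-/

noncomputable section

namespace EscF.T

open Filter Topology Set Esc EscN
open scoped ContDiff

section TP
variable {d : ℕ} {Q : Vec (d + 1) →L[ℝ] Vec (d + 1) →L[ℝ] ℝ} {ρ : Fin (d + 1) → Vec (d + 1)}
  (F : Frame d Q ρ)

namespace TPX

/-- a linear combination with integer coefficients of periods is a period -/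
lemma per_sum {n : ℕ} {V : Type*} [AddCommGroup V] [Module ℝ V] {W : Type*} {f : V → W}
    {v : Fin n → V} (h : ∀ i, Function.Periodic f (v i)) (m : Fin n → ℤ) :
    Function.Periodic f (∑ i, (m i : ℝ) • v i) := by
  classical
  induction (Finset.univ : Finset (Fin n)) using Finset.induction_on with
  | empty => intro x; simp
  | insert i s hi ih =>
    rw [Finset.sum_insert hi]
    have h1 : Function.Periodic f ((m i : ℝ) • v i) := by
      rw [Int.cast_smul_eq_zsmul]
      exact (h i).zsmul (m i)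
    exact h1.add_period ih

/-- periods of functions on the torus -/
lemma per_vz {n : ℕ} {f : Fun n} (hf : IsPeriodic f) (m : Fin n → ℤ) :
    Function.Periodic f (vz m, 0) := by
  intro q
  have := hf m 0 q.1 q.2
  rw [Int.cast_zero] at this
  exact this

lemma per_time {n : ℕ} {f : Fun n} (hf : IsPeriodic f) : Function.Periodic f (0, 1) := by
  intro q
  have := hf 0 1 q.1 q.2
  rw [Int.cast_one] at this
  have e : (vz (0 : Fin n → ℤ)) = 0 := by
    ext i
    show ((0 : ℤ) : ℝ) = 0
    simp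
  rw [e] at this
  exact this

/-- a function with the right periods descends to the torus -/
lemma isPeriodic_of {n : ℕ} {τ : Fin n → Vec n} (hτ : IsZBasis τ) {f : Fun n}
    (h1 : ∀ i, Function.Periodic f (τ i, 0)) (h2 : Function.Periodic f (0, 1)) : IsPeriodic f := by
  intro m l x t
  have hsingle : ∀ j, Function.Periodic f (EuclideanSpace.single j (1 : ℝ), 0) := by
    intro j
    obtain ⟨c, hc⟩ := hτ.2 j
    have h3 := per_sum (v := fun i => ((τ i, 0) : Vec n × ℝ)) h1 c
    have e : ∑ i, (c i : ℝ) • ((τ i, 0) : Vec n × ℝ) = (EuclideanSpace.single j (1 : ℝ), 0) := by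
      rw [hc]
      refine Prod.ext ?_ ?_
      · simp [Prod.fst_sum]
      · simp [Prod.snd_sum]
    rwa [e] at h3
  have h3 := per_sum (v := fun i => ((EuclideanSpace.single i (1 : ℝ), 0) : Vec n × ℝ)) hsingle m
  have e : ∑ i, (m i : ℝ) • ((EuclideanSpace.single i (1 : ℝ), 0) : Vec n × ℝ) = (vz m, 0) := by
    refine Prod.ext ?_ ?_
    · simp only [Prod.fst_sum, Prod.smul_fst]
      ext j
      show (∑ i, (m i : ℝ) • (EuclideanSpace.single i (1 : ℝ) : Vec n)) j = (m j : ℝ)
      rw [WithLp.ofLp_sum, Finset.sum_apply]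
      simp [Pi.single_apply]
    · simp [Prod.snd_sum]
  rw [e] at h3
  have h4 := (h3.add_period (h2.zsmul l)) (x, t)
  have e2 : ((x, t) : Vec n × ℝ) + ((vz m, 0) + l • ((0, 1) : Vec n × ℝ)) = (x + vz m, t + l) := by
    refine Prod.ext ?_ ?_
    · simp
    · simp
  rwa [e2] at h4

/-- smooth perturbations of the state space and of the lattice -/
lemma isSm_lat (L : Lat d (Vec (d + 1))) {G : Vec (d + 1) → ℝ → ℝ} (hG : (sp L).IsSm G) :
    L.IsSm G := by
  refine ⟨hG.smooth, fun i x t => ?_, fun x t => hG.perg x t, hG.pert⟩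
  have h1 := hG.perd (Pi.single i 1) x t
  have e : (sp L).dk (Pi.single i 1) x = x + L.b i := by
    show x + ∑ j, ((Pi.single i 1 : Fin d → ℤ) j : ℝ) • L.b j = x + L.b i
    congr 1
    rw [Finset.sum_eq_single i]
    · simp
    · intro j _ hj
      simp [hj]
    · intro h
      exact absurd (Finset.mem_univ i) h
  rwa [e] at h1

lemma isSm_sp (L : Lat d (Vec (d + 1))) {G : Vec (d + 1) → ℝ → ℝ} (hG : L.IsSm G) :
    (sp L).IsSm G := by
  refine ⟨hG.smooth, fun n x t => ?_, fun x t => hG.perg x t, hG.pert, fun x t h => ?_⟩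
  · have h1 : ∀ i, Function.Periodic (fun x => G x t) (L.b i) := fun i x => hG.perb i x t
    exact per_sum h1 n x
  · rw [sp_Q, sp_R0, norm_zero] at h
    norm_num at h

/-- norms -/
def nrm (L : Lat d (Vec (d + 1))) (N : L.SmNorm) : (sp L).SmNorm where
  nm := N.nm
  sup_le G hG := N.sup_le G (isSm_lat L hG)
  add_le G G' hG hG' := N.add_le G G' (isSm_lat L hG) (isSm_lat L hG')
  smul_le c G hG := N.smul_le c G (isSm_lat L hG)

/-- transport back -/
def back (G : Vec (d + 1) → ℝ → ℝ) : Fun (d + 1) := fun q => F.c⁻¹ * G (F.A q.1) q.2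

lemma back_eq (G : Vec (d + 1) → ℝ → ℝ) : back F G = unc F.A F.c 0 F.L.g G := by
  funext q
  simp [back, unc]

lemma back_periodic (hρ : IsZBasis ρ) {G : Vec (d + 1) → ℝ → ℝ} (hG : (sp F.L).IsSm G) :
    IsPeriodic (back F G) := by
  have hL := isSm_lat F.L hG
  refine isPeriodic_of hρ (fun i => ?_) fun q => ?_
  · refine Fin.lastCases ?_ (fun i => ?_) i
    · intro q
      simp only [back, Prod.fst_add, Prod.snd_add, add_zero, map_add]
      rw [← F.hg, hL.perg]
    · intro q
      simp only [back, Prod.fst_add, Prod.snd_add, add_zero, map_add]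
      rw [← F.hb, hL.perb]
  · simp only [back, Prod.fst_add, Prod.snd_add, add_zero]
    rw [hL.pert]

/-- the transported perturbation as a potential -/
def backPot (hρ : IsZBasis ρ) {G : Vec (d + 1) → ℝ → ℝ} (hG : (sp F.L).IsSm G) (k : ℕ∞) :
    Pot (d + 1) k where
  toFun := back F G
  contDiff := by
    rw [back_eq]
    exact unc_contDiff F.A F.c 0 F.L.g (hG.smooth.of_le (by exact_mod_cast le_top))
  periodic := back_periodic F hρ hG

lemma core_back (f : Fun (d + 1)) (G : Vec (d + 1) → ℝ → ℝ) :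
    core F (f + back F G) = fun X t => core F f X t + G X t := by
  funext X t
  simp only [core, back, Pi.add_apply, mul_add]
  rw [ContinuousLinearEquiv.apply_symm_apply, mul_inv_cancel_left₀ F.c_pos.ne']

end TPX

open TPX

theorem core_isPot (hρ : IsZBasis ρ) {k : ℕ∞} (hk : 2 ≤ k) (f : Pot (d + 1) k) :
    (sp F.L).IsPot (core F f.toFun) := by
  have hper : ∀ i, ∀ (X : Vec (d + 1)) (t : ℝ),
      core F f.toFun (X + F.A (ρ i)) t = core F f.toFun X t := by
    intro i X t
    obtain ⟨m, hm⟩ := hρ.1 i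
    have h1 := per_vz f.periodic m (F.A.symm X, t)
    simp only [core, map_add, ContinuousLinearEquiv.symm_apply_apply]
    rw [hm, ← h1]
    simp
  refine ⟨?_, fun n X t => ?_, fun X t => ?_, fun X t => ?_, fun X t h => ?_⟩
  · have h1 : ContDiff ℝ 2 f.toFun := f.contDiff.of_le (WithTop.coe_le_coe.2 hk)
    exact contDiff_const.mul (h1.comp ((F.A.symm.contDiff.comp contDiff_fst).prodMk contDiff_snd))
  · have h1 : ∀ i : Fin d, Function.Periodic (fun X => core F f.toFun X t) (F.L.b i) := fun i X => by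
      simp only
      rw [F.hb, hper]
    exact per_sum h1 n X
  · have h1 := hper (Fin.last d) X t
    rw [← F.hg] at h1
    exact h1
  · have h1 := per_time f.periodic (F.A.symm X, t)
    simp only [core]
    rw [← h1]
    simp
  · rw [sp_Q, sp_R0, norm_zero] at h
    norm_num at h

/-- open sets of potentials -/
theorem isOpen_of {k : ℕ∞} (hk : 2 ≤ k) (hρ : IsZBasis ρ) (P : (Vec (d + 1) → ℝ → ℝ) → Prop)
    (hP : ∀ f, (sp F.L).IsPot f → P f → ∃ ρ > 0, ∀ f', (sp F.L).IsPot f' →
      (∀ x t, |f x t - f' x t| ≤ ρ) → P f') : IsOpen {f : Pot (d + 1) k | P (core F f.toFun)} := by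
  rw [isOpen_iff_mem_nhds]
  intro f hf
  obtain ⟨r, hr, h⟩ := hP _ (core_isPot F hρ hk f) hf
  have hc := F.c_pos
  filter_upwards [mem_nhds_zero f (ρ := r / F.c) (by positivity)] with f' hf'
  refine h _ (core_isPot F hρ hk f') fun X t => ?_
  simp only [core]
  rw [← mul_sub, abs_mul, abs_of_pos hc]
  calc F.c * |f.toFun (F.A.symm X, t) - f'.toFun (F.A.symm X, t)| ≤ F.c * (r / F.c) :=
        mul_le_mul_of_nonneg_left (hf' _) hc.le
    _ = r := by field_simp

/-- dense sets of potentials -/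
theorem dense_of {k : ℕ∞} (hk : 2 ≤ k) (hρ : IsZBasis ρ) (P : (Vec (d + 1) → ℝ → ℝ) → Prop)
    (f : Pot (d + 1) k)
    (hP : ∀ (N : (sp F.L).SmNorm) (ε : ℝ), 0 < ε → ∃ G, (sp F.L).IsSm G ∧ N.nm G < ε ∧
      P (fun x t => core F f.toFun x t + G x t)) (r : ℕ) {ε : ℝ} (hε : 0 < ε) :
    ∃ G : Pot (d + 1) k, (∀ j ≤ r, ∀ q, ‖iteratedFDeriv ℝ j G.toFun q‖ < ε) ∧
      P (core F (Pot.add f G).toFun) := by
  obtain ⟨N, hN⟩ := unc_small F.L F.A F.c 0 r
  obtain ⟨G, hG, hGε, hPG⟩ := hP (nrm F.L N) ε hε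
  refine ⟨backPot F hρ hG k, fun j hj q => ?_, ?_⟩
  · show ‖iteratedFDeriv ℝ j (back F G) q‖ < ε
    rw [back_eq]
    exact (hN G (isSm_lat F.L hG) j hj q).trans_lt hGε
  · show P (core F (f.toFun + back F G))
    rw [core_back]
    exact hPG

end TP

end EscF.T
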