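import Pool.Agent.EscF.TS1
import Pool.Agent.EscF.TP

/-!
Module TS2 of project EscF: asymptotics of the Lagrangian along the fast velocities.
-/

noncomputable section

namespace EscF.T

open Filter Topology Set Esc EscN
open scoped ContDiff

namespace TS2

section general

variable {E : Type*} [NormedAddCommGroup E] [NormedSpace ℝ E] {W : Type*} [NormedAddCommGroup W]
  [NormedSpace ℝ W]

/-- derivative of a homogeneous function -/
theorem fderiv_hom {C : Set E} (hC : IsOpen C) {G : E → W} {c a : ℝ}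
    (hG : ∀ u ∈ C, G (c • u) = a • G u) {v : E} (hv : v ∈ C) (h1 : DifferentiableAt ℝ G v)
    (h2 : DifferentiableAt ℝ G (c • v)) : c • fderiv ℝ G (c • v) = a • fderiv ℝ G v := by
  have e1 : HasFDerivAt (fun u : E => c • u) (c • ContinuousLinearMap.id ℝ E) v :=
    (hasFDerivAt_id v).const_smul c
  have e2 : HasFDerivAt (fun u => G (c • u)) ((fderiv ℝ G (c • v)).comp
      (c • ContinuousLinearMap.id ℝ E)) v := HasFDerivAt.comp v h2.hasFDerivAt e1
  have e3 : HasFDerivAt (fun u => a • G u) (a • fderiv ℝ G v) v := h1.hasFDerivAt.const_smul a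
  have e4 : (fun u => G (c • u)) =ᶠ[𝓝 v] fun u => a • G u := by
    filter_upwards [hC.mem_nhds hv] with u hu using hG u hu
  have e5 := e2.unique (e3.congr_of_eventuallyEq e4)
  rw [← e5]
  ext w
  simp

/-- second order Taylor estimate -/
theorem taylor2 {h : E → ℝ} (hh : ContDiff ℝ 2 h) {Q : E →L[ℝ] E →L[ℝ] ℝ}
    (hs : ∀ v w, Q v w = Q w v) {p : E} {r ε : ℝ} (hε : 0 ≤ ε)
    (hQ : ∀ u, ‖u - p‖ ≤ r → ‖fderiv ℝ (fderiv ℝ h) u - Q‖ ≤ ε) {η : E} (hη : ‖η‖ ≤ r) :
    |h (p + η) - h p - fderiv ℝ h p η - Q η η / 2| ≤ ε * r ^ 2 := by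
  have hr : 0 ≤ r := (norm_nonneg _).trans hη
  have hd : ContDiff ℝ 1 (fderiv ℝ h) := hh.fderiv_right (by norm_num)
  have hpb : p ∈ Metric.closedBall p r := Metric.mem_closedBall_self hr
  have hcv : Convex ℝ (Metric.closedBall p r) := convex_closedBall p r
  have hT : ∀ u : E, HasFDerivAt (fun u => fderiv ℝ h u - Q (u - p))
      (fderiv ℝ (fderiv ℝ h) u - Q) u := by
    intro u
    have e1 : HasFDerivAt (fderiv ℝ h) (fderiv ℝ (fderiv ℝ h) u) u :=
      (hd.differentiable (by norm_num) u).hasFDerivAt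
    have e2 : HasFDerivAt (fun u => Q (u - p)) Q u :=
      (HasFDerivAt.comp u Q.hasFDerivAt ((hasFDerivAt_id u).sub_const p)).congr_fderiv
        (ContinuousLinearMap.comp_id Q)
    exact e1.sub e2
  have hT1 : ∀ u ∈ Metric.closedBall p r, ‖fderiv ℝ h u - Q (u - p) - fderiv ℝ h p‖ ≤ ε * r := by
    intro u hu
    have e1 := hcv.norm_image_sub_le_of_norm_hasFDerivWithin_le
      (f := fun u => fderiv ℝ h u - Q (u - p)) (C := ε)
      (fun x _ => (hT x).hasFDerivWithinAt) (fun x hx => hQ x (by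
        rwa [mem_closedBall_iff_norm] at hx)) hpb hu
    have e2 : ‖u - p‖ ≤ r := by rwa [mem_closedBall_iff_norm] at hu
    have e3 : fderiv ℝ h u - Q (u - p) - (fderiv ℝ h p - Q (p - p)) =
        fderiv ℝ h u - Q (u - p) - fderiv ℝ h p := by
      rw [sub_self, map_zero, sub_zero]
    rw [e3] at e1
    exact e1.trans (mul_le_mul_of_nonneg_left e2 hε)
  have hΦ : ∀ u : E, HasFDerivAt (fun u => h u - fderiv ℝ h p u - Q (u - p) (u - p) / 2)
      (fderiv ℝ h u - Q (u - p) - fderiv ℝ h p) u := by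
    intro u
    have e1 : HasFDerivAt h (fderiv ℝ h u) u := (hh.differentiable (by norm_num) u).hasFDerivAt
    have e2 : HasFDerivAt (fun u => fderiv ℝ h p u) (fderiv ℝ h p) u := (fderiv ℝ h p).hasFDerivAt
    have e3 : HasFDerivAt (fun u => Q (u - p)) Q u :=
      (HasFDerivAt.comp u Q.hasFDerivAt ((hasFDerivAt_id u).sub_const p)).congr_fderiv
        (ContinuousLinearMap.comp_id Q)
    have e4 : HasFDerivAt (fun u : E => u - p) (ContinuousLinearMap.id ℝ E) u :=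
      (hasFDerivAt_id u).sub_const p
    have e5 := (e3.clm_apply e4).mul_const (1 / 2 : ℝ)
    refine ((e1.sub e2).sub e5).congr_fderiv ?_ |>.congr_of_eventuallyEq ?_
    · ext w
      simp only [sub_apply, add_apply, smul_apply, ContinuousLinearMap.comp_apply,
        ContinuousLinearMap.flip_apply, ContinuousLinearMap.id_apply, smul_eq_mul]
      rw [hs w (u - p)]
      ring
    · refine Eventually.of_forall fun u => ?_
      show h u - fderiv ℝ h p u - Q (u - p) (u - p) / 2 =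
        h u - fderiv ℝ h p u - Q (u - p) (u - p) * (1 / 2)
      ring
  have hmem : p + η ∈ Metric.closedBall p r := by
    rw [mem_closedBall_iff_norm]
    simpa using hη
  have e1 := hcv.norm_image_sub_le_of_norm_hasFDerivWithin_le
    (f := fun u => h u - fderiv ℝ h p u - Q (u - p) (u - p) / 2) (C := ε * r)
    (fun x _ => (hΦ x).hasFDerivWithinAt) hT1 hpb hmem
  have e2 : h (p + η) - fderiv ℝ h p (p + η) - Q (p + η - p) (p + η - p) / 2 -
      (h p - fderiv ℝ h p p - Q (p - p) (p - p) / 2) =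
      h (p + η) - h p - fderiv ℝ h p η - Q η η / 2 := by
    rw [add_sub_cancel_left, sub_self, map_zero, map_add]
    ring
  rw [e2, Real.norm_eq_abs, add_sub_cancel_left] at e1
  calc |h (p + η) - h p - fderiv ℝ h p η - Q η η / 2| ≤ ε * r * ‖η‖ := e1
    _ ≤ ε * r * r := mul_le_mul_of_nonneg_left hη (by positivity)
    _ = ε * r ^ 2 := by ring

theorem hess_near {C : Set E} (hC : IsOpen C) {g : E → ℝ} (hg : ContDiffOn ℝ 2 g C)
    {v : E} (hv : v ∈ C) {ε : ℝ} (hε : 0 < ε) :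
    ∃ δ : ℝ, 0 < δ ∧ ∀ u, ‖u - v‖ < δ →
      ‖fderiv ℝ (fderiv ℝ g) u - fderiv ℝ (fderiv ℝ g) v‖ < ε := by
  have e1 := (hg.contDiffAt (hC.mem_nhds hv)).fderiv_right (m := 1) (by norm_num)
  have e2 : ContinuousAt (fderiv ℝ (fderiv ℝ g)) v :=
    (e1.fderiv_right (m := 0) (by norm_num)).continuousAt
  obtain ⟨δ, hδ, h2⟩ := (Metric.continuousAt_iff (f := fderiv ℝ (fderiv ℝ g)) (a := v)).1 e2 ε hε
  refine ⟨δ, hδ, fun u hu => ?_⟩
  have h3 := h2 (show dist u v < δ by rwa [dist_eq_norm])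
  exact (dist_eq_norm (E := E →L[ℝ] E →L[ℝ] ℝ) (fderiv ℝ (fderiv ℝ g) u)
    (fderiv ℝ (fderiv ℝ g) v)).symm.trans_lt h3

end general

/-- the second derivative of a kinetic energy is homogeneous of degree zero -/
theorem hess_hom {n : ℕ} {C : Set (Vec n)} (hC : IsOpenCone C) {g : Vec n → ℝ} (hg : IsKinetic C g)
    {v : Vec n} (hv : v ∈ C) {c : ℝ} (hc : 0 < c) :
    fderiv ℝ (fderiv ℝ g) (c • v) = fderiv ℝ (fderiv ℝ g) v := by
  have hd : ∀ u ∈ C, DifferentiableAt ℝ g u := fun u hu =>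
    (hg.smooth.contDiffAt (hC.1.mem_nhds hu)).differentiableAt (by norm_num)
  have hd2 : ∀ u ∈ C, DifferentiableAt ℝ (fderiv ℝ g) u := fun u hu =>
    ((hg.smooth.contDiffAt (hC.1.mem_nhds hu)).fderiv_right (m := 1) (by norm_num)).differentiableAt
      (by norm_num)
  have h1 : ∀ u ∈ C, fderiv ℝ g (c • u) = c • fderiv ℝ g u := by
    intro u hu
    have e := fderiv_hom hC.1 (G := g) (c := c) (a := c ^ 2) (fun w hw => hg.hom w hw c hc) hu
      (hd u hu) (hd _ (hC.2.2 u hu c hc))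
    have e2 : c • fderiv ℝ g (c • u) = c • (c • fderiv ℝ g u) := by
      rw [e, smul_smul, sq]
    exact smul_right_injective _ hc.ne' e2
  have e := fderiv_hom hC.1 (G := fderiv ℝ g) (c := c) (a := c) h1 hv (hd2 v hv)
    (hd2 _ (hC.2.2 v hv c hc))
  exact smul_right_injective _ hc.ne' e

theorem rho_castSucc {d : ℕ} (τ : Fin (d + 1) → Vec (d + 1)) (K : ℕ) (i : Fin d) :
    rho τ K i.castSucc = τ i.castSucc - (K : ℝ) • τ (Fin.last d) := by
  unfold rho
  rw [Fin.snoc_castSucc]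

/-- the powers of `s` divided by the highest one -/
theorem pow_lim {d : ℕ} {j : ℕ} (hj : j ≤ d) :
    Tendsto (fun t : ℝ => (t ^ d)⁻¹ * t ^ j) atTop (𝓝 (if j = d then 1 else 0)) := by
  have hpos : ∀ᶠ t : ℝ in atTop, 0 < t := eventually_gt_atTop 0
  split_ifs with h
  · subst h
    refine tendsto_const_nhds.congr' ?_
    filter_upwards [hpos] with t ht
    rw [inv_mul_cancel₀ (pow_pos ht _).ne']
  · have h1 : d - j ≠ 0 := by omega
    have h2 : Tendsto (fun t : ℝ => (t ^ (d - j))⁻¹) atTop (𝓝 0) :=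
      tendsto_inv_atTop_zero.comp (tendsto_pow_atTop h1)
    refine h2.congr' ?_
    filter_upwards [hpos] with t ht
    have h3 : t ^ d = t ^ (d - j) * t ^ j := by
      rw [← pow_add]
      congr 1
      omega
    have h4 : t ^ j ≠ 0 := (pow_pos ht _).ne'
    rw [h3, mul_inv, mul_assoc, inv_mul_cancel₀ h4, mul_one]

/-- the fast velocities in the original coordinates -/
def pv {d : ℕ} (ρ : Fin (d + 1) → Vec (d + 1)) (s : ℝ) : Vec (d + 1) :=
  ∑ i : Fin d, s ^ ((i : ℕ) + 1) • ρ i.castSucc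

/-- their limit direction -/
theorem pv_lim {d : ℕ} (hd : 0 < d) (τ : Fin (d + 1) → Vec (d + 1)) (K : ℕ) :
    Tendsto (fun s => (s ^ d)⁻¹ • pv (rho τ K) s) atTop (𝓝 (top τ K hd)) := by
  have h3 : Tendsto (fun t : ℝ => ∑ i : Fin d, ((t ^ d)⁻¹ * t ^ ((i : ℕ) + 1)) • rho τ K i.castSucc)
      atTop (𝓝 (∑ i : Fin d, (if (i : ℕ) + 1 = d then (1 : ℝ) else 0) • rho τ K i.castSucc)) :=
    tendsto_finsetSum _ fun i _ => (pow_lim (by omega)).smul_const _
  have h4 : ∑ i : Fin d, (if (i : ℕ) + 1 = d then (1 : ℝ) else 0) • rho τ K i.castSucc =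
      top τ K hd := by
    rw [Finset.sum_eq_single ⟨d - 1, Nat.sub_lt hd one_pos⟩]
    · have : (d - 1) + 1 = d := by omega
      simp only [this, if_true, one_smul]
      rw [rho_castSucc]
      rfl
    · intro i _ hi
      have : (i : ℕ) + 1 ≠ d := by
        intro h
        exact hi (Fin.ext (by simp only; omega))
      rw [if_neg this, zero_smul]
    · intro h
      exact absurd (Finset.mem_univ _) h
  rw [h4] at h3
  refine h3.congr fun t => ?_
  unfold pv
  rw [Finset.smul_sum]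
  simp only [smul_smul]

/-- points near the fast velocities, scaled -/
theorem near_dir {d : ℕ} (hd : 0 < d) (τ : Fin (d + 1) → Vec (d + 1)) (K : ℕ) (r : ℝ) {δ : ℝ}
    (hδ : 0 < δ) : ∃ s0 : ℝ, ∀ s, s0 ≤ s → 0 < s ∧ ∀ u, ‖u - pv (rho τ K) s‖ ≤ r →
      ‖(s ^ d)⁻¹ • u - top τ K hd‖ < δ := by
  have h1 := (pv_lim hd τ K).eventually (Metric.ball_mem_nhds _ (half_pos hδ))
  have h2 : Tendsto (fun s : ℝ => (s ^ d)⁻¹ * r) atTop (𝓝 0) := by
    have := (tendsto_inv_atTop_zero.comp (tendsto_pow_atTop (α := ℝ) hd.ne')).mul_const r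
    rwa [zero_mul] at this
  have h3 := h2.eventually (gt_mem_nhds (half_pos hδ))
  obtain ⟨s0, hs0⟩ := eventually_atTop.1 (h1.and (h3.and (eventually_gt_atTop (0 : ℝ))))
  refine ⟨s0, fun s hs => ?_⟩
  obtain ⟨e1, e2, e3⟩ := hs0 s hs
  refine ⟨e3, fun u hu => ?_⟩
  rw [dist_eq_norm] at e1
  have e4 : (s ^ d)⁻¹ • u - top τ K hd = (s ^ d)⁻¹ • (u - pv (rho τ K) s) +
      ((s ^ d)⁻¹ • pv (rho τ K) s - top τ K hd) := by
    rw [smul_sub]
    abel
  have e5 : ‖(s ^ d)⁻¹ • (u - pv (rho τ K) s)‖ ≤ (s ^ d)⁻¹ * r := by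
    have e6 : 0 ≤ (s ^ d)⁻¹ := inv_nonneg.2 (pow_pos e3 _).le
    rw [norm_smul, Real.norm_of_nonneg e6]
    exact mul_le_mul_of_nonneg_left hu e6
  rw [e4]
  refine (norm_add_le _ _).trans_lt ?_
  linarith

/-- points near the fast velocities are in the cone and large -/
theorem near_cone {d : ℕ} (hd : 0 < d) (τ : Fin (d + 1) → Vec (d + 1)) (K : ℕ)
    {C : Set (Vec (d + 1))} (hC : IsOpenCone C) (hK : top τ K hd ∈ C) (r R : ℝ) :
    ∃ s0 : ℝ, ∀ s, s0 ≤ s → ∀ u, ‖u - pv (rho τ K) s‖ ≤ r → u ∈ C ∧ R < ‖u‖ := by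
  obtain ⟨δ, hδ, hδC⟩ := Metric.isOpen_iff.1 hC.1 _ hK
  have htop : 0 < ‖top τ K hd‖ := norm_pos_iff.2 fun h0 => hC.2.1 (h0 ▸ hK)
  obtain ⟨s0, hs0⟩ := near_dir hd τ K r (lt_min hδ (half_pos htop))
  have h2 : Tendsto (fun s : ℝ => s ^ d * (‖top τ K hd‖ / 2)) atTop atTop :=
    (tendsto_pow_atTop hd.ne').atTop_mul_const (half_pos htop)
  obtain ⟨s1, hs1⟩ := eventually_atTop.1 (h2.eventually_gt_atTop R)
  refine ⟨max s0 s1, fun s hs u hu => ?_⟩
  obtain ⟨e1, e2⟩ := hs0 s ((le_max_left _ _).trans hs)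
  have e3 := e2 u hu
  have e4 := hs1 s ((le_max_right _ _).trans hs)
  have hp : 0 < s ^ d := pow_pos e1 _
  have e5 : u = s ^ d • ((s ^ d)⁻¹ • u) := by
    rw [smul_smul, mul_inv_cancel₀ hp.ne', one_smul]
  constructor
  · rw [e5]
    refine hC.2.2 _ (hδC ?_) _ hp
    rw [mem_ball_iff_norm]
    exact e3.trans_le (min_le_left _ _)
  · rw [e5, norm_smul, Real.norm_of_nonneg hp.le]
    refine e4.trans_le (mul_le_mul_of_nonneg_left ?_ hp.le)
    have e6 := e3.trans_le (min_le_right _ _)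
    have e7 := norm_sub_norm_le (top τ K hd) ((s ^ d)⁻¹ • u)
    rw [norm_sub_rev] at e7
    linarith

/-- a function agrees with its second derivative near a point -/
theorem hess_congr {n : ℕ} {g h : Vec n → ℝ} {O : Set (Vec n)} (hO : IsOpen O)
    (hgh : ∀ u ∈ O, h u = g u) {v : Vec n} (hv : v ∈ O) :
    fderiv ℝ (fderiv ℝ h) v = fderiv ℝ (fderiv ℝ g) v := by
  have h1 : fderiv ℝ h =ᶠ[𝓝 v] fderiv ℝ g := by
    filter_upwards [hO.mem_nhds hv] with u hu
    refine Filter.EventuallyEq.fderiv_eq ?_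
    filter_upwards [hO.mem_nhds hu] with w hw using hgh w hw
  exact h1.fderiv_eq

theorem vz_apply {n : ℕ} (m : Fin n → ℤ) (i : Fin n) : vz m i = (m i : ℝ) := rfl

/-- uniform continuity in the velocity at `v0` -/
theorem unif {n : ℕ} {C : Set (Vec n)} (hC : IsOpen C) {k : ℕ∞} {V : Lag n}
    (hV : IsDegreeZero C k V) {v0 : Vec n} (hv0 : v0 ∈ C) {ε : ℝ} (hε : 0 < ε) :
    ∃ δ : ℝ, 0 < δ ∧ ∀ v, ‖v - v0‖ < δ → ∀ x t, |V (x, v, t) - V (x, v0, t)| < ε := by
  -- the compact box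
  set box : Set (Vec n × ℝ) := ((WithLp.toLp 2) '' (Set.univ.pi fun _ : Fin n => Icc (0 : ℝ) 1)) ×ˢ
    Icc (0 : ℝ) 1 with hbox
  have hcb : IsCompact box :=
    ((isCompact_univ_pi fun _ => isCompact_Icc).image (PiLp.continuous_toLp 2 _)).prod isCompact_Icc
  have hUo : IsOpen {q : Vec n × Vec n × ℝ | q.2.1 ∈ C} :=
    hC.preimage (continuous_fst.comp continuous_snd)
  have hVc : ContinuousOn V {q | q.2.1 ∈ C} := hV.smooth.continuousOn
  set D : (Vec n × ℝ) × Vec n → ℝ := fun q => |V (q.1.1, q.2, q.1.2) - V (q.1.1, v0, q.1.2)| with hD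
  have hDc : ContinuousOn D {q | q.2 ∈ C} := by
    have c1 : ContinuousOn (fun q : (Vec n × ℝ) × Vec n => V (q.1.1, q.2, q.1.2)) {q | q.2 ∈ C} := by
      refine hVc.comp (Continuous.continuousOn (by fun_prop)) fun q hq => hq
    have c2 : ContinuousOn (fun q : (Vec n × ℝ) × Vec n => V (q.1.1, v0, q.1.2)) {q | q.2 ∈ C} := by
      refine hVc.comp (Continuous.continuousOn (by fun_prop)) fun q _ => hv0
    exact (c1.sub c2).abs
  have hCo : IsOpen {q : (Vec n × ℝ) × Vec n | q.2 ∈ C} := hC.preimage continuous_snd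
  have hopen : IsOpen ({q : (Vec n × ℝ) × Vec n | q.2 ∈ C} ∩ D ⁻¹' Iio ε) :=
    hDc.isOpen_inter_preimage hCo isOpen_Iio
  have hsub : box ×ˢ {v0} ⊆ {q : (Vec n × ℝ) × Vec n | q.2 ∈ C} ∩ D ⁻¹' Iio ε := by
    rintro ⟨q, v⟩ ⟨_, hv⟩
    have hv' : v = v0 := hv
    subst hv'
    refine ⟨hv0, ?_⟩
    show |V (q.1, v, q.2) - V (q.1, v, q.2)| < ε
    rw [sub_self, abs_zero]
    exact hε
  obtain ⟨U, W, _, hWo, hU, hW, hUW⟩ := generalized_tube_lemma hcb isCompact_singleton hopen hsub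
  obtain ⟨δ, hδ, hδW⟩ := Metric.isOpen_iff.1 hWo v0 (hW rfl)
  refine ⟨δ, hδ, fun v hv x t => ?_⟩
  have hvW : v ∈ W := hδW (by rwa [mem_ball_iff_norm])
  set mm : Fin n → ℤ := fun i => -⌊x i⌋ with hmm
  set ll : ℤ := -⌊t⌋ with hll
  have hx : x + vz mm ∈ (WithLp.toLp 2) '' (Set.univ.pi fun _ : Fin n => Icc (0 : ℝ) 1) := by
    refine ⟨fun i => x i + vz mm i, ?_, ?_⟩
    · intro i _
      show x i + ((mm i : ℤ) : ℝ) ∈ Icc (0 : ℝ) 1
      rw [hmm]
      push_cast
      have e1 := Int.floor_le (x i)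
      have e2 := Int.lt_floor_add_one (x i)
      constructor <;> linarith
    · ext i
      rfl
  have ht : t + (ll : ℝ) ∈ Icc (0 : ℝ) 1 := by
    rw [hll]
    push_cast
    have e1 := Int.floor_le t
    have e2 := Int.lt_floor_add_one t
    constructor <;> linarith
  have hmem : ((x + vz mm, t + (ll : ℝ)) : Vec n × ℝ) ∈ U := hU ⟨hx, ht⟩
  obtain ⟨hvC, hlt⟩ := hUW (show ((x + vz mm, t + (ll : ℝ)), v) ∈ U ×ˢ W from ⟨hmem, hvW⟩)
  have hlt' : |V (x + vz mm, v, t + ll) - V (x + vz mm, v0, t + ll)| < ε := hlt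
  rwa [hV.periodic mm ll x v t hvC, hV.periodic mm ll x v0 t hv0] at hlt'

end TS2

open TS2

variable {d : ℕ} {Q : Vec (d + 1) →L[ℝ] Vec (d + 1) →L[ℝ] ℝ} {ρ : Fin (d + 1) → Vec (d + 1)}
  {h : Vec (d + 1) → ℝ} {B : Lag (d + 1)} {m Λ : ℝ}

variable (F : Frame d Q ρ) (hρ : IsZBasis ρ) (hG : GLag h B m Λ)

/-- asymptotics -/
theorem mkL_asym (hd : 0 < d) {τ : Fin (d + 1) → Vec (d + 1)} {K : ℕ} (hτ : ρ = rho τ K)
    {C : Set (Vec (d + 1))} (hC : IsOpenCone C) {g : Vec (d + 1) → ℝ} (hg : IsKinetic C g) {k : ℕ∞}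
    (hk : 2 ≤ k) {V L : Lag (d + 1)} (hV : IsDegreeZero C k V) {R : ℝ} (hE : Ext C g V L h B m Λ R)
    (hK : top τ K hd ∈ C) (hQ : Q = hess g (top τ K hd)) :
    (mkL F hρ hG).Asym (fun X t => F.c * V (F.A.symm X, top τ K hd, t)) := by
  have hc := F.c_pos
  have hsym : ∀ v w, Q v w = Q w v := by
    intro v w
    have e1 := F.hT v w
    have e2 := F.hT w v
    rw [real_inner_comm, e1] at e2
    exact mul_left_cancel₀ hc.ne' e2
  refine ⟨?_, ?_⟩
  · -- the potential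
    have h1 : ContDiff ℝ k (fun q : Vec (d + 1) × ℝ => V (q.1, top τ K hd, q.2)) := by
      rw [← contDiffOn_univ]
      refine hV.smooth.comp (ContDiff.contDiffOn ?_) fun q _ => hK
      exact contDiff_fst.prodMk (contDiff_const.prodMk contDiff_snd)
    have h2 := core_isPot F hρ hk (⟨fun q => V (q.1, top τ K hd, q.2), h1,
      fun m l x t => hV.periodic m l x _ t hK⟩ : Pot (d + 1) k)
    show (mkL F hρ hG).toSp.IsPot _
    rw [mkL_sp]
    exact h2
  · intro r ε hε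
    have hvel : ∀ s, F.A.symm ((mkL F hρ hG).vel s) = pv (rho τ K) s := by
      intro s
      show F.A.symm ((mkL F hρ hG).toSp.vel s) = pv (rho τ K) s
      rw [mkL_sp]
      unfold Sp.vel pv
      rw [map_sum]
      refine Finset.sum_congr rfl fun i _ => ?_
      rw [map_smul, sp_b, F.hb, ContinuousLinearEquiv.symm_apply_apply, hτ]
    -- size of the displacements
    set r' : ℝ := ‖(F.A.symm : Vec (d + 1) →L[ℝ] Vec (d + 1))‖ * |r| with hr'
    have hr'0 : 0 ≤ r' := by positivity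
    have heta : ∀ w : Vec (d + 1), ‖w‖ ≤ r → ‖F.A.symm w‖ ≤ r' := by
      intro w hw
      refine ((F.A.symm : Vec (d + 1) →L[ℝ] Vec (d + 1)).le_opNorm w).trans ?_
      exact mul_le_mul_of_nonneg_left (hw.trans (le_abs_self r)) (norm_nonneg _)
    -- constants
    set ε1 : ℝ := ε / (3 * F.c * (r' ^ 2 + 1)) with hε1
    have hε1p : 0 < ε1 := by positivity
    set ε2 : ℝ := ε / (3 * F.c) with hε2
    have hε2p : 0 < ε2 := by positivity
    obtain ⟨δ1, hδ1, hδ1'⟩ := hess_near hC.1 hg.smooth hK hε1p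
    obtain ⟨δ2, hδ2, hδ2'⟩ := unif hC.1 hV hK hε2p
    obtain ⟨R1, hR1⟩ := hE.lim ε2 hε2p
    obtain ⟨s0, hs0⟩ := near_dir hd τ K r' (lt_min hδ1 hδ2)
    obtain ⟨s1, hs1⟩ := near_cone hd τ K hC hK r' (max R R1)
    refine ⟨max s0 s1, fun s hs x w t hw => ?_⟩
    obtain ⟨hspos, hnear⟩ := hs0 s ((le_max_left _ _).trans hs)
    have hcone := hs1 s ((le_max_right _ _).trans hs)
    have hsd : 0 < s ^ d := pow_pos hspos _
    set p := pv (rho τ K) s with hp
    set η := F.A.symm w with hetadef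
    have hetar : ‖η‖ ≤ r' := heta w hw
    have hAeta : F.A η = w := F.A.apply_symm_apply w
    -- the second derivative of `h`
    have hhess : ∀ u, ‖u - p‖ ≤ r' → ‖fderiv ℝ (fderiv ℝ h) u - Q‖ ≤ ε1 := by
      intro u hu
      obtain ⟨huC, huR⟩ := hcone u hu
      have huR' : R < ‖u‖ := (le_max_left _ _).trans_lt huR
      have hO : IsOpen (C ∩ {u | R < ‖u‖}) := hC.1.inter (isOpen_lt continuous_const continuous_norm)
      have e1 : fderiv ℝ (fderiv ℝ h) u = fderiv ℝ (fderiv ℝ g) u :=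
        hess_congr hO (fun v hv => hE.h_eq v hv.1 (le_of_lt hv.2)) ⟨huC, huR'⟩
      have e2 : fderiv ℝ (fderiv ℝ g) ((s ^ d)⁻¹ • u) = fderiv ℝ (fderiv ℝ g) u :=
        hess_hom hC hg huC (inv_pos.2 hsd)
      have e5 := hδ1' _ ((hnear u hu).trans_le (min_le_left _ _))
      rw [e2, ← e1] at e5
      rw [hQ]
      exact e5.le
    have hT := taylor2 hG.h_smooth hsym hε1p.le hhess hetar
    -- the bounded part
    have hpeta : ‖p + η - p‖ ≤ r' := by rwa [add_sub_cancel_left]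
    obtain ⟨hC1, hR1'⟩ := hcone (p + η) hpeta
    have hB := hR1 (F.A.symm x) (p + η) t hC1 ((le_max_right _ _).trans hR1'.le)
    have hVV : |V (F.A.symm x, p + η, t) - V (F.A.symm x, top τ K hd, t)| < ε2 := by
      rw [← hV.hom _ _ _ hC1 _ (inv_pos.2 hsd)]
      exact hδ2' _ ((hnear _ hpeta).trans_le (min_le_right _ _)) _ _
    -- the expression
    have hl : (mkL F hρ hG).l x ((mkL F hρ hG).vel s + w) t =
        F.c * (h (p + η) + B (F.A.symm x, p + η, t)) := by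
      rw [mkL_l, map_add, hvel]
    have hh : (mkL F hρ hG).h ((mkL F hρ hG).vel s) = F.c * h p := by
      rw [mkL_h, hvel]
    have hmom : inner ℝ ((mkL F hρ hG).mom s) w = F.c * fderiv ℝ h p η := by
      have e1 := mkL_gh F hρ hG ((mkL F hρ hG).vel s) η
      rw [hAeta, hvel] at e1
      exact e1
    have hww : ‖w‖ ^ 2 = F.c * Q η η := by
      rw [← F.hT, hAeta, real_inner_self_eq_norm_sq]
    rw [hl, hh, hmom, hww]
    have e1 : F.c * (h (p + η) + B (F.A.symm x, p + η, t)) - F.c * h p - F.c * fderiv ℝ h p η -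
        F.c * Q η η / 2 - F.c * V (F.A.symm x, top τ K hd, t) =
        F.c * ((h (p + η) - h p - fderiv ℝ h p η - Q η η / 2) +
          (B (F.A.symm x, p + η, t) - V (F.A.symm x, p + η, t)) +
          (V (F.A.symm x, p + η, t) - V (F.A.symm x, top τ K hd, t))) := by ring
    rw [e1, abs_mul, abs_of_pos hc]
    have e2 : ε1 * r' ^ 2 ≤ ε2 := by
      rw [hε1, hε2, div_mul_eq_mul_div, div_le_div_iff₀ (by positivity) (by positivity)]
      have : 0 ≤ ε * (3 * F.c) := by positivity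
      nlinarith
    have e3 : |(h (p + η) - h p - fderiv ℝ h p η - Q η η / 2) +
          (B (F.A.symm x, p + η, t) - V (F.A.symm x, p + η, t)) +
          (V (F.A.symm x, p + η, t) - V (F.A.symm x, top τ K hd, t))| ≤ ε2 + ε2 + ε2 := by
      refine (abs_add_le _ _).trans (add_le_add ((abs_add_le _ _).trans (add_le_add ?_ hB)) hVV.le)
      exact hT.trans e2
    calc F.c * _ ≤ F.c * (ε2 + ε2 + ε2) := mul_le_mul_of_nonneg_left e3 hc.le
      _ = ε := by
        rw [hε2]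
        field_simp
        ring

end EscF.T
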