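import Pool.Agent.EscF.TDefs

/-!
Module TX1 of project EscF: smooth cutoff near a direction, with scale invariant bounds of the
derivatives.
-/

noncomputable section

namespace EscF.T

open Filter Topology Set
open scoped ContDiff

namespace TX1

section general

variable {E : Type} [NormedAddCommGroup E] [NormedSpace ℝ E]

lemma isOpen_pc : IsOpen ({0}ᶜ : Set E) := isOpen_compl_singleton

/-- The direction, relative to `w`. -/
def dir (w v : E) : E := ‖v‖⁻¹ • v - w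

lemma dir_smul (w v : E) (c : ℝ) (hc : 0 < c) : dir w (c • v) = dir w v := by
  unfold dir
  rw [norm_smul, Real.norm_of_nonneg hc.le, mul_inv, smul_smul, mul_right_comm,
    inv_mul_cancel₀ hc.ne', one_mul]

/-- Scaling of the derivatives of a function of degree zero. -/
lemma scale {F : Type} [NormedAddCommGroup F] [NormedSpace ℝ F] (f : E → F)
    (hf : ∀ v (c : ℝ), 0 < c → f (c • v) = f v) (v : E) (c : ℝ) (hc : 0 < c) (i : ℕ) :
    ‖iteratedFDeriv ℝ i f v‖ ≤ ‖iteratedFDeriv ℝ i f (c • v)‖ * c ^ i := by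
  let g : E ≃L[ℝ] E := ContinuousLinearEquiv.smulLeft (Units.mk0 c hc.ne')
  have hg : ∀ v, g v = c • v := fun v => rfl
  have h1 := ContinuousLinearEquiv.iteratedFDerivWithin_comp_right (𝕜 := ℝ) g f
    (s := (univ : Set E)) uniqueDiffOn_univ (x := v) (mem_univ _) i
  have h2 : f ∘ g = f := by
    funext u
    exact hf u c hc
  rw [h2, preimage_univ, iteratedFDerivWithin_univ, hg] at h1
  rw [h1]
  refine (ContinuousMultilinearMap.norm_compContinuousLinearMap_le _ _).trans ?_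
  have h3 : ‖(g : E →L[ℝ] E)‖ ≤ c := by
    refine ContinuousLinearMap.opNorm_le_bound _ hc.le fun u => ?_
    show ‖g u‖ ≤ c * ‖u‖
    rw [hg, norm_smul, Real.norm_of_nonneg hc.le]
  rw [Finset.prod_const, Finset.card_univ, Fintype.card_fin]
  exact mul_le_mul_of_nonneg_left (pow_le_pow_left₀ (norm_nonneg _) h3 i) (norm_nonneg _)

end general

variable {n : ℕ}

lemma dir_contDiffOn (w : Vec n) : ContDiffOn ℝ ∞ (dir w) ({0}ᶜ : Set (Vec n)) := by
  intro v hv
  have hv' : v ≠ 0 := hv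
  have h1 : ContDiffAt ℝ ∞ (fun v : Vec n => ‖v‖) v := contDiffAt_norm ℝ hv'
  have h2 : ContDiffAt ℝ ∞ (fun v : Vec n => ‖v‖⁻¹) v := h1.inv (norm_ne_zero_iff.2 hv')
  exact ((h2.smul contDiffAt_id).sub contDiffAt_const).contDiffWithinAt

/-- Bounds of the derivatives of the direction. -/
lemma dir_bound (w : Vec n) : ∃ M : ℝ, 1 ≤ M ∧ ∀ i, i ≤ 2 → ∀ v : Vec n, v ≠ 0 →
    ‖iteratedFDerivWithin ℝ i (dir w) ({0}ᶜ : Set (Vec n)) v‖ ≤ M * (‖v‖⁻¹) ^ i := by
  have hs : UniqueDiffOn ℝ ({0}ᶜ : Set (Vec n)) := isOpen_pc.uniqueDiffOn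
  have h1 : ∀ i : ℕ, ∃ M : ℝ, ∀ v ∈ Metric.sphere (0 : Vec n) 1,
      ‖iteratedFDerivWithin ℝ i (dir w) ({0}ᶜ : Set (Vec n)) v‖ ≤ M := by
    intro i
    have h2 : ContinuousOn (iteratedFDerivWithin ℝ i (dir w) ({0}ᶜ : Set (Vec n)))
        (Metric.sphere (0 : Vec n) 1) := by
      refine ((dir_contDiffOn w).continuousOn_iteratedFDerivWithin (m := i) ?_ hs).mono ?_
      · exact_mod_cast le_top
      · intro v hv h0
        rw [mem_singleton_iff] at h0
        rw [mem_sphere_zero_iff_norm, h0, norm_zero] at hv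
        exact zero_ne_one hv
    exact (isCompact_sphere (0 : Vec n) 1).exists_bound_of_continuousOn h2
  choose M hM using h1
  refine ⟨1 + |M 0| + |M 1| + |M 2|, ?_, ?_⟩
  · have := abs_nonneg (M 0)
    have := abs_nonneg (M 1)
    have := abs_nonneg (M 2)
    linarith
  · intro i hi v hv
    have hpos : 0 < ‖v‖ := norm_pos_iff.2 hv
    have e1 : iteratedFDerivWithin ℝ i (dir w) ({0}ᶜ : Set (Vec n)) v =
        iteratedFDeriv ℝ i (dir w) v := iteratedFDerivWithin_of_isOpen i isOpen_pc hv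
    have hu : ‖‖v‖⁻¹ • v‖ = 1 := by
      rw [norm_smul, norm_inv, norm_norm, inv_mul_cancel₀ hpos.ne']
    have hu0 : ‖v‖⁻¹ • v ≠ 0 := by
      intro h
      rw [h, norm_zero] at hu
      exact zero_ne_one hu
    have e2 : iteratedFDerivWithin ℝ i (dir w) ({0}ᶜ : Set (Vec n)) (‖v‖⁻¹ • v) =
        iteratedFDeriv ℝ i (dir w) (‖v‖⁻¹ • v) := iteratedFDerivWithin_of_isOpen i isOpen_pc hu0
    rw [e1]
    refine (scale (dir w) (fun v c hc => dir_smul w v c hc) v (‖v‖⁻¹) (inv_pos.2 hpos) i).trans ?_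
    refine mul_le_mul_of_nonneg_right ?_ (pow_nonneg (inv_nonneg.2 hpos.le) i)
    rw [← e2]
    refine (hM i _ (mem_sphere_zero_iff_norm.2 hu)).trans ?_
    have a0 := abs_nonneg (M 0)
    have a1 := abs_nonneg (M 1)
    have a2 := abs_nonneg (M 2)
    have b := le_abs_self (M i)
    interval_cases i <;> linarith

/-- A smooth function with compact support has bounded derivatives. -/
lemma cs_bound (f : Vec n → ℝ) (hf : ContDiff ℝ ∞ f) (hs : HasCompactSupport f) :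
    ∃ K : ℝ, 1 ≤ K ∧ ∀ i, i ≤ 2 → ∀ v, ‖iteratedFDeriv ℝ i f v‖ ≤ K := by
  have h1 : ∀ i : ℕ, ∃ K : ℝ, ∀ v, ‖iteratedFDeriv ℝ i f v‖ ≤ K := by
    intro i
    refine (hs.iteratedFDeriv i).exists_bound_of_continuous ?_
    exact hf.continuous_iteratedFDeriv (by exact_mod_cast le_top)
  choose K hK using h1
  refine ⟨1 + |K 0| + |K 1| + |K 2|, ?_, ?_⟩
  · have := abs_nonneg (K 0)
    have := abs_nonneg (K 1)
    have := abs_nonneg (K 2)
    linarith
  · intro i hi v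
    refine (hK i v).trans ?_
    have a0 := abs_nonneg (K 0)
    have a1 := abs_nonneg (K 1)
    have a2 := abs_nonneg (K 2)
    have b := le_abs_self (K i)
    interval_cases i <;> linarith

/-- The bump in the variable `dir w / δ`. -/
def be (n : ℕ) : ContDiffBump (0 : Vec n) := ⟨1 / 2, 1, by norm_num, by norm_num⟩

/-- The bump near `0`. -/
def bo (n : ℕ) : ContDiffBump (0 : Vec n) := ⟨1, 2, by norm_num, by norm_num⟩

/-- The radial factor. -/
def fa (v : Vec n) : ℝ := 1 - bo n v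

/-- The angular factor. -/
def fb (w : Vec n) (δ : ℝ) (v : Vec n) : ℝ := be n (δ⁻¹ • dir w v)

lemma fa_contDiff : ContDiff ℝ ∞ (fa (n := n)) := contDiff_const.sub (bo n).contDiff

/-- Bounds of the radial factor. -/
lemma fa_bound (n : ℕ) : ∃ K : ℝ, 1 ≤ K ∧ ∀ i, i ≤ 2 → ∀ v : Vec n,
    ‖iteratedFDeriv ℝ i (fa (n := n)) v‖ ≤ K * ((1 + ‖v‖)⁻¹) ^ i := by
  obtain ⟨K, hK1, hK⟩ := cs_bound (bo n) (bo n).contDiff (bo n).hasCompactSupport
  refine ⟨9 * K, by linarith, ?_⟩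
  intro i hi v
  rcases Nat.eq_zero_or_pos i with h0 | h0
  · subst h0
    rw [pow_zero, mul_one, norm_iteratedFDeriv_zero, Real.norm_eq_abs]
    unfold fa
    have h1 := (bo n).nonneg' v
    have h2 := (bo n).le_one (x := v)
    rw [abs_le]
    constructor <;> linarith
  · have h1 : iteratedFDeriv ℝ i (fa (n := n)) v = - iteratedFDeriv ℝ i (bo n) v := by
      have e1 : (fa (n := n)) = (fun _ : Vec n => (1 : ℝ)) + (fun v => -(bo n v)) := by
        funext u
        show 1 - bo n u = 1 + -(bo n u)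
        ring
      rw [e1, iteratedFDeriv_add contDiff_const (bo n).contDiff.neg,
        iteratedFDeriv_const_of_ne h0.ne', Pi.add_apply, Pi.zero_apply, zero_add]
      exact iteratedFDeriv_neg_apply
    rw [h1, norm_neg]
    by_cases hv : ‖v‖ ≤ 2
    · refine (hK i hi v).trans ?_
      have h3 : (1 / 3 : ℝ) ≤ (1 + ‖v‖)⁻¹ := by
        rw [one_div]
        exact inv_anti₀ (by positivity) (by linarith)
      have h4 : (1 / 9 : ℝ) ≤ ((1 + ‖v‖)⁻¹) ^ i := by
        have h5 : (1 / 3 : ℝ) ^ i ≤ ((1 + ‖v‖)⁻¹) ^ i := pow_le_pow_left₀ (by norm_num) h3 i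
        refine le_trans ?_ h5
        interval_cases i <;> norm_num
      calc K = 9 * K * (1 / 9) := by ring
        _ ≤ 9 * K * ((1 + ‖v‖)⁻¹) ^ i := mul_le_mul_of_nonneg_left h4 (by linarith)
    · have h3 : iteratedFDeriv ℝ i (bo n) v = 0 := by
        have h4 : v ∉ tsupport (bo n) := by
          rw [(bo n).tsupport_eq, mem_closedBall_zero_iff]
          exact hv
        have h5 : v ∉ tsupport (iteratedFDeriv ℝ i (bo n)) := fun h =>
          h4 (tsupport_iteratedFDeriv_subset i h)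
        exact image_eq_zero_of_notMem_tsupport h5
      rw [h3, norm_zero]
      positivity

lemma fb_contDiffOn (w : Vec n) (δ : ℝ) : ContDiffOn ℝ ∞ (fb w δ) ({0}ᶜ : Set (Vec n)) :=
  ((be n).contDiff.contDiffOn (s := univ)).comp ((dir_contDiffOn w).const_smul δ⁻¹)
    (fun _ _ => mem_univ _)

/-- Bounds of the angular factor. -/
lemma fb_bound (w : Vec n) : ∃ K : ℝ, 1 ≤ K ∧ ∀ δ : ℝ, 0 < δ → δ ≤ 1 → ∀ i, i ≤ 2 →
    ∀ v : Vec n, v ≠ 0 →
    ‖iteratedFDerivWithin ℝ i (fb w δ) ({0}ᶜ : Set (Vec n)) v‖ ≤ K * (δ⁻¹ * ‖v‖⁻¹) ^ i := by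
  obtain ⟨K, hK1, hK⟩ := cs_bound (be n) (be n).contDiff (be n).hasCompactSupport
  obtain ⟨M, hM1, hM⟩ := dir_bound w
  have hs : UniqueDiffOn ℝ ({0}ᶜ : Set (Vec n)) := isOpen_pc.uniqueDiffOn
  refine ⟨2 * K * M ^ 2, ?_, ?_⟩
  · have : 1 ≤ M ^ 2 := one_le_pow₀ hM1
    nlinarith
  intro δ hδ hδ1 i hi v hv
  have hpos : 0 < ‖v‖ := norm_pos_iff.2 hv
  have hd1 : 1 ≤ δ⁻¹ := (one_le_inv₀ hδ).2 hδ1
  have h1 := norm_iteratedFDerivWithin_comp_le (𝕜 := ℝ) (g := be n) (f := fun v => δ⁻¹ • dir w v)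
    (n := i) (s := ({0}ᶜ : Set (Vec n))) (t := univ) (x := v) (N := ∞)
    (be n).contDiff.contDiffOn ((dir_contDiffOn w).const_smul δ⁻¹) (by exact_mod_cast le_top)
    uniqueDiffOn_univ hs (fun _ _ => mem_univ _) hv (C := K) (D := M * (δ⁻¹ * ‖v‖⁻¹))
    (by
      intro j hj
      rw [iteratedFDerivWithin_univ]
      exact hK j (hj.trans hi) _)
    (by
      intro j hj1 hj
      have e0 : iteratedFDerivWithin ℝ j (fun v => δ⁻¹ • dir w v) ({0}ᶜ : Set (Vec n)) v =
          δ⁻¹ • iteratedFDerivWithin ℝ j (dir w) ({0}ᶜ : Set (Vec n)) v :=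
        iteratedFDerivWithin_const_smul_apply (a := δ⁻¹) (i := j) (f := dir w)
          (((dir_contDiffOn w) v hv).of_le (by exact_mod_cast le_top)) hs hv
      rw [e0, norm_smul, Real.norm_of_nonneg (inv_nonneg.2 hδ.le)]
      have h2 := hM j (hj.trans hi) v hv
      have h3 : δ⁻¹ ≤ δ⁻¹ ^ j := le_self_pow₀ hd1 (by omega)
      have h4 : M ≤ M ^ j := le_self_pow₀ hM1 (by omega)
      have h5 : 0 ≤ (‖v‖⁻¹) ^ j := by positivity
      calc δ⁻¹ * ‖iteratedFDerivWithin ℝ j (dir w) ({0}ᶜ : Set (Vec n)) v‖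
          ≤ δ⁻¹ * (M * (‖v‖⁻¹) ^ j) := mul_le_mul_of_nonneg_left h2 (by positivity)
        _ ≤ δ⁻¹ ^ j * (M ^ j * (‖v‖⁻¹) ^ j) := by
            refine mul_le_mul h3 (mul_le_mul_of_nonneg_right h4 h5) (by positivity) (by positivity)
        _ = (M * (δ⁻¹ * ‖v‖⁻¹)) ^ j := by
            rw [mul_pow, mul_pow]
            ring)
  have h2 : (be n) ∘ (fun v => δ⁻¹ • dir w v) = fb w δ := rfl
  rw [h2] at h1
  refine h1.trans ?_
  have h3 : ((i.factorial : ℕ) : ℝ) ≤ 2 := by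
    interval_cases i <;> norm_num [Nat.factorial]
  have h4 : M ^ i ≤ M ^ 2 := pow_le_pow_right₀ hM1 hi
  rw [mul_pow]
  have h5 : 0 ≤ (δ⁻¹ * ‖v‖⁻¹) ^ i := by positivity
  calc ((i.factorial : ℕ) : ℝ) * K * (M ^ i * (δ⁻¹ * ‖v‖⁻¹) ^ i)
      ≤ 2 * K * (M ^ 2 * (δ⁻¹ * ‖v‖⁻¹) ^ i) := by
        refine mul_le_mul (mul_le_mul_of_nonneg_right h3 (by linarith))
          (mul_le_mul_of_nonneg_right h4 h5) (by positivity) (by positivity)
    _ = 2 * K * M ^ 2 * (δ⁻¹ * ‖v‖⁻¹) ^ i := by ring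

end TX1

open TX1

variable {n : ℕ}

/-- cutoff near a direction: smooth, homogeneous of degree zero for `|v| ≥ 2`, zero for `|v| ≤ 1` and
outside the cone of opening `δ`, equal to one in the cone of opening `δ/2` for `|v| ≥ 2` -/
theorem exists_cutoff (w : Vec n) (hw : ‖w‖ = 1) : ∃ C : ℝ, 1 ≤ C ∧ ∀ δ : ℝ, 0 < δ → δ ≤ 1 / 2 →
    ∃ χ : Vec n → ℝ, ContDiff ℝ ∞ χ ∧ (∀ v, 0 ≤ χ v ∧ χ v ≤ 1) ∧
      (∀ v, ‖v‖ ≤ 1 → χ v = 0) ∧ (∀ v, δ * ‖v‖ ≤ ‖v - ‖v‖ • w‖ → χ v = 0) ∧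
      (∀ v, 2 ≤ ‖v‖ → ‖v - ‖v‖ • w‖ ≤ δ / 2 * ‖v‖ → χ v = 1) ∧
      (∀ v, ‖fderiv ℝ χ v‖ ≤ C / (δ * (1 + ‖v‖))) ∧
      (∀ v, ‖fderiv ℝ (fderiv ℝ χ) v‖ ≤ C / (δ * (1 + ‖v‖)) ^ 2) := by
  obtain ⟨K, hK1, hK⟩ := fa_bound n
  obtain ⟨L, hL1, hL⟩ := fb_bound w
  have hs : UniqueDiffOn ℝ ({0}ᶜ : Set (Vec n)) := isOpen_pc.uniqueDiffOn
  refine ⟨16 * K * L, by nlinarith, ?_⟩
  intro δ hδ hδ2
  have hδ1 : δ ≤ 1 := by linarith
  let χ : Vec n → ℝ := fun v => fa v * fb w δ v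
  have hχ : ∀ v, χ v = fa v * fb w δ v := fun v => rfl
  -- values
  have ha0 : ∀ v : Vec n, ‖v‖ ≤ 1 → fa v = 0 := by
    intro v hv
    unfold fa
    rw [(bo n).one_of_mem_closedBall (by rw [mem_closedBall_zero_iff]; exact hv), sub_self]
  have ha1 : ∀ v : Vec n, 2 ≤ ‖v‖ → fa v = 1 := by
    intro v hv
    unfold fa
    rw [(bo n).zero_of_le_dist (by rw [dist_zero_right]; exact hv), sub_zero]
  have hdir : ∀ v : Vec n, v ≠ 0 → ‖v - ‖v‖ • w‖ = ‖v‖ * ‖dir w v‖ := by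
    intro v hv
    have hpos : 0 < ‖v‖ := norm_pos_iff.2 hv
    have e : v - ‖v‖ • w = ‖v‖ • dir w v := by
      unfold dir
      rw [smul_sub, smul_smul, mul_inv_cancel₀ hpos.ne', one_smul]
    rw [e, norm_smul, norm_norm]
  have hzero : ∀ v : Vec n, ‖v‖ < 1 → χ =ᶠ[𝓝 v] fun _ => 0 := by
    intro v hv
    have h1 : {u : Vec n | ‖u‖ < 1} ∈ 𝓝 v :=
      (isOpen_lt continuous_norm continuous_const).mem_nhds hv
    filter_upwards [h1] with u hu
    rw [hχ, ha0 u (le_of_lt hu), zero_mul]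
  have hsm : ContDiff ℝ ∞ χ := by
    rw [contDiff_iff_contDiffAt]
    intro v
    by_cases hv : v = 0
    · have h1 := hzero v (by rw [hv, norm_zero]; exact one_pos)
      exact contDiffAt_const.congr_of_eventuallyEq h1
    · exact fa_contDiff.contDiffAt.mul ((fb_contDiffOn w δ).contDiffAt (isOpen_pc.mem_nhds hv))
  -- bounds of the derivatives
  have hbd : ∀ i, i ≤ 2 → ∀ v : Vec n,
      ‖iteratedFDeriv ℝ i χ v‖ ≤ 16 * K * L * (1 / (δ * (1 + ‖v‖))) ^ i := by
    intro i hi v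
    have hT : 0 < δ * (1 + ‖v‖) := by positivity
    by_cases hv1 : ‖v‖ < 1
    · have h1 := (hzero v hv1).iteratedFDeriv ℝ i
      have h2 : iteratedFDeriv ℝ i (fun _ : Vec n => (0 : ℝ)) v = 0 := by
        have h3 : iteratedFDeriv ℝ i (fun _ : Vec n => (0 : ℝ)) = 0 := iteratedFDeriv_fun_zero
        rw [h3]
        rfl
      rw [h1.eq_of_nhds, h2, norm_zero]
      positivity
    · rw [not_lt] at hv1
      have hv : v ≠ 0 := by
        intro h
        rw [h, norm_zero] at hv1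
        exact absurd hv1 (by norm_num)
      have hpos : 0 < ‖v‖ := norm_pos_iff.2 hv
      have e1 : iteratedFDerivWithin ℝ i χ ({0}ᶜ : Set (Vec n)) v =
          iteratedFDeriv ℝ i χ v := iteratedFDerivWithin_of_isOpen i isOpen_pc hv
      rw [← e1]
      have h1 := norm_iteratedFDerivWithin_mul_le (𝕜 := ℝ) (N := ∞)
        (fa_contDiff (n := n)).contDiffOn (fb_contDiffOn w δ) hs hv (n := i)
        (by exact_mod_cast le_top)
      refine h1.trans ?_
      set T : ℝ := 1 / (δ * (1 + ‖v‖)) with hTd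
      have hT0 : 0 < T := by positivity
      have hA : ∀ j, j ≤ i → ‖iteratedFDerivWithin ℝ j (fa (n := n)) ({0}ᶜ : Set (Vec n)) v‖ ≤
          K * T ^ j := by
        intro j hj
        have e2 : iteratedFDerivWithin ℝ j (fa (n := n)) ({0}ᶜ : Set (Vec n)) v =
            iteratedFDeriv ℝ j (fa (n := n)) v := iteratedFDerivWithin_of_isOpen j isOpen_pc hv
        rw [e2]
        refine (hK j (hj.trans hi) v).trans ?_
        refine mul_le_mul_of_nonneg_left (pow_le_pow_left₀ (by positivity) ?_ j) (by linarith)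
        rw [hTd, one_div]
        refine inv_anti₀ hT ?_
        exact mul_le_of_le_one_left (by positivity) hδ1
      have hB : ∀ j, j ≤ i → ‖iteratedFDerivWithin ℝ j (fb w δ) ({0}ᶜ : Set (Vec n)) v‖ ≤
          4 * L * T ^ j := by
        intro j hj
        refine (hL δ hδ hδ1 j (hj.trans hi) v hv).trans ?_
        have h3 : δ⁻¹ * ‖v‖⁻¹ ≤ 2 * T := by
          rw [hTd, ← mul_inv, mul_one_div, le_div_iff₀ hT, ← div_eq_inv_mul,
            div_le_iff₀ (by positivity)]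
          nlinarith
        have h4 : (δ⁻¹ * ‖v‖⁻¹) ^ j ≤ (2 * T) ^ j := pow_le_pow_left₀ (by positivity) h3 j
        have h5 : (2 : ℝ) ^ j ≤ 4 := by
          have : j ≤ 2 := hj.trans hi
          interval_cases j <;> norm_num
        calc L * (δ⁻¹ * ‖v‖⁻¹) ^ j ≤ L * (2 * T) ^ j :=
              mul_le_mul_of_nonneg_left h4 (by linarith)
          _ = 2 ^ j * (L * T ^ j) := by rw [mul_pow]; ring
          _ ≤ 4 * (L * T ^ j) := mul_le_mul_of_nonneg_right h5 (by positivity)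
          _ = 4 * L * T ^ j := by ring
      have h6 : ∀ j ∈ Finset.range (i + 1), (i.choose j : ℝ) *
          ‖iteratedFDerivWithin ℝ j (fa (n := n)) ({0}ᶜ : Set (Vec n)) v‖ *
          ‖iteratedFDerivWithin ℝ (i - j) (fb w δ) ({0}ᶜ : Set (Vec n)) v‖ ≤
          (i.choose j : ℝ) * (4 * K * L * T ^ i) := by
        intro j hj
        have hj' : j ≤ i := Nat.lt_succ_iff.1 (Finset.mem_range.1 hj)
        have h7 := hA j hj'
        have h8 := hB (i - j) (Nat.sub_le i j)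
        rw [mul_assoc]
        refine mul_le_mul_of_nonneg_left ?_ (Nat.cast_nonneg _)
        calc _ ≤ (K * T ^ j) * (4 * L * T ^ (i - j)) :=
              mul_le_mul h7 h8 (norm_nonneg _) (by positivity)
          _ = 4 * K * L * (T ^ j * T ^ (i - j)) := by ring
          _ = 4 * K * L * T ^ i := by rw [← pow_add, Nat.add_sub_cancel' hj']
      refine (Finset.sum_le_sum h6).trans ?_
      rw [← Finset.sum_mul]
      have h9 : (∑ j ∈ Finset.range (i + 1), (i.choose j : ℝ)) ≤ 4 := by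
        have h10 := Nat.sum_range_choose i
        have h11 : (∑ j ∈ Finset.range (i + 1), (i.choose j : ℝ)) = 2 ^ i := by
          exact_mod_cast h10
        rw [h11]
        interval_cases i <;> norm_num
      calc (∑ j ∈ Finset.range (i + 1), (i.choose j : ℝ)) * (4 * K * L * T ^ i)
          ≤ 4 * (4 * K * L * T ^ i) := mul_le_mul_of_nonneg_right h9 (by positivity)
        _ = 16 * K * L * T ^ i := by ring
  refine ⟨χ, hsm, ?_, ?_, ?_, ?_, ?_, ?_⟩
  · intro v
    have h1 := (bo n).nonneg' v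
    have h2 := (bo n).le_one (x := v)
    have h3 := (be n).nonneg' (δ⁻¹ • dir w v)
    have h4 := (be n).le_one (x := δ⁻¹ • dir w v)
    rw [hχ]
    unfold fa fb
    constructor
    · exact mul_nonneg (by linarith) h3
    · exact mul_le_one₀ (by linarith) h3 h4
  · intro v hv
    rw [hχ, ha0 v hv, zero_mul]
  · intro v hv
    by_cases h0 : v = 0
    · rw [hχ, ha0 v (by rw [h0, norm_zero]; exact zero_le_one), zero_mul]
    · have hpos : 0 < ‖v‖ := norm_pos_iff.2 h0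
      rw [hdir v h0, mul_comm] at hv
      have h1 : δ ≤ ‖dir w v‖ := le_of_mul_le_mul_left hv hpos
      have h2 : fb w δ v = 0 := by
        unfold fb
        apply (be n).zero_of_le_dist
        rw [dist_zero_right, norm_smul, norm_inv, Real.norm_of_nonneg hδ.le]
        show (1 : ℝ) ≤ _
        rw [← div_eq_inv_mul, one_le_div hδ]
        exact h1
      rw [hχ, h2, mul_zero]
  · intro v hv2 hv
    have h0 : v ≠ 0 := by
      intro h
      rw [h, norm_zero] at hv2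
      exact absurd hv2 (by norm_num)
    have hpos : 0 < ‖v‖ := norm_pos_iff.2 h0
    rw [hdir v h0, mul_comm (δ / 2)] at hv
    have h1 : ‖dir w v‖ ≤ δ / 2 := le_of_mul_le_mul_left hv hpos
    have h2 : fb w δ v = 1 := by
      unfold fb
      apply (be n).one_of_mem_closedBall
      rw [mem_closedBall_zero_iff, norm_smul, norm_inv, Real.norm_of_nonneg hδ.le]
      show _ ≤ (1 / 2 : ℝ)
      rw [← div_eq_inv_mul, div_le_iff₀ hδ]
      linarith
    rw [hχ, h2, ha1 v hv2, mul_one]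
  · intro v
    have h1 := hbd 1 (by norm_num) v
    rw [norm_iteratedFDeriv_one, pow_one] at h1
    refine h1.trans (le_of_eq ?_)
    ring
  · intro v
    have h1 := hbd 2 le_rfl v
    have h2 : ‖iteratedFDeriv ℝ 2 χ v‖ = ‖fderiv ℝ (fderiv ℝ χ) v‖ := by
      rw [← norm_iteratedFDeriv_one, norm_iteratedFDeriv_fderiv]
    rw [h2] at h1
    refine h1.trans (le_of_eq ?_)
    rw [one_div, inv_pow, div_eq_mul_inv]

end EscF.T
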