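import Pool.Agent.EscF.TXD
import Pool.Agent.EscF.TX1

/-!
Project EscF, module TXB: the bounded part of the global Lagrangian.
-/

noncomputable section

namespace EscF.T

open Filter Topology Set
open scoped ContDiff

namespace TXB

section generic

variable {E F G : Type*} [NormedAddCommGroup E] [NormedSpace ℝ E] [NormedAddCommGroup F]
  [NormedSpace ℝ F] [NormedAddCommGroup G] [NormedSpace ℝ G]

theorem ifd_comp {f : F → G} (g : E →L[ℝ] F) {Ω : Set F} (hΩ : IsOpen Ω) {N : WithTop ℕ∞}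
    (hf : ContDiffOn ℝ N f Ω) {q : E} (hq : g q ∈ Ω) {j : ℕ} (hj : (j : WithTop ℕ∞) ≤ N) :
    iteratedFDeriv ℝ j (f ∘ g) q = (iteratedFDeriv ℝ j f (g q)).compContinuousLinearMap fun _ => g := by
  have hΩ' : IsOpen (g ⁻¹' Ω) := hΩ.preimage g.continuous
  have h := g.iteratedFDerivWithin_comp_right hf hΩ.uniqueDiffOn hΩ'.uniqueDiffOn hq hj
  rwa [iteratedFDerivWithin_of_isOpen j hΩ' hq, iteratedFDerivWithin_of_isOpen j hΩ hq] at h

theorem ifd_comp_le {f : F → G} (g : E →L[ℝ] F) {Ω : Set F} (hΩ : IsOpen Ω) {N : WithTop ℕ∞}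
    (hf : ContDiffOn ℝ N f Ω) {q : E} (hq : g q ∈ Ω) {j : ℕ} (hj : (j : WithTop ℕ∞) ≤ N)
    (hg : ‖g‖ ≤ 1) : ‖iteratedFDeriv ℝ j (f ∘ g) q‖ ≤ ‖iteratedFDeriv ℝ j f (g q)‖ := by
  rw [ifd_comp g hΩ hf hq hj]
  refine (ContinuousMultilinearMap.norm_compContinuousLinearMap_le _ _).trans ?_
  rw [Finset.prod_const]
  calc ‖iteratedFDeriv ℝ j f (g q)‖ * ‖g‖ ^ (Finset.univ : Finset (Fin j)).card
      ≤ ‖iteratedFDeriv ℝ j f (g q)‖ * 1 := by
        gcongr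
        exact pow_le_one₀ (norm_nonneg _) hg
    _ = _ := mul_one _

theorem ifd_one (f : E → G) (q : E) : ‖fderiv ℝ f q‖ = ‖iteratedFDeriv ℝ 1 f q‖ := by
  rw [← norm_iteratedFDeriv_fderiv, norm_iteratedFDeriv_zero]

theorem ifd_two (f : E → G) (q : E) : ‖fderiv ℝ (fderiv ℝ f) q‖ = ‖iteratedFDeriv ℝ 2 f q‖ := by
  rw [ifd_one, norm_iteratedFDeriv_fderiv]

/-- product with a function supported in a closed set -/
theorem prod_bd {a g : E → ℝ} {Ω K : Set E} (hΩ : IsOpen Ω) (hK : IsClosed K) (hKΩ : K ⊆ Ω)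
    (ha : ContDiff ℝ 2 a) (hg : ContDiffOn ℝ 2 g Ω) (hs : ∀ q, q ∉ K → a q = 0) {A b : ℝ}
    (hb0 : 0 ≤ b) (hA : ∀ j ≤ 2, ∀ q, ‖iteratedFDeriv ℝ j a q‖ ≤ A)
    (hb : ∀ j ≤ 2, ∀ q ∈ K, ‖iteratedFDeriv ℝ j g q‖ ≤ b) :
    ContDiff ℝ 2 (fun q => a q * g q) ∧
      ∀ j ≤ 2, ∀ q, ‖iteratedFDeriv ℝ j (fun q => a q * g q) q‖ ≤ 4 * A * b := by
  have hev : ∀ q, q ∉ K → (fun q => a q * g q) =ᶠ[𝓝 q] fun _ => 0 := by
    intro q hq
    filter_upwards [hK.isOpen_compl.mem_nhds hq] with q' hq'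
    rw [hs q' hq', zero_mul]
  constructor
  · rw [contDiff_iff_contDiffAt]
    intro q
    by_cases hq : q ∈ K
    · exact ha.contDiffAt.mul (hg.contDiffAt (hΩ.mem_nhds (hKΩ hq)))
    · exact (contDiffAt_const (c := (0 : ℝ))).congr_of_eventuallyEq (hev q hq)
  · intro j hj q
    have hA0 : 0 ≤ A := (norm_nonneg _).trans (hA 0 (by norm_num) q)
    by_cases hq : q ∈ K
    · have hqΩ := hKΩ hq
      have hj' : ((j : ℕ) : WithTop ℕ∞) ≤ 2 := by exact_mod_cast hj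
      have h := norm_iteratedFDerivWithin_mul_le (A := ℝ) (n := j) ha.contDiffOn hg
        hΩ.uniqueDiffOn hqΩ hj'
      rw [iteratedFDerivWithin_of_isOpen j hΩ hqΩ] at h
      refine h.trans ?_
      have h1 : ∀ i ∈ Finset.range (j + 1), (j.choose i : ℝ) * ‖iteratedFDerivWithin ℝ i a Ω q‖ *
          ‖iteratedFDerivWithin ℝ (j - i) g Ω q‖ ≤ (j.choose i : ℝ) * (A * b) := by
        intro i hi
        have hi' : i ≤ j := Nat.lt_succ_iff.mp (Finset.mem_range.mp hi)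
        rw [iteratedFDerivWithin_of_isOpen i hΩ hqΩ, iteratedFDerivWithin_of_isOpen (j - i) hΩ hqΩ,
          mul_assoc]
        gcongr
        · exact hA i (hi'.trans hj) q
        · exact hb (j - i) ((Nat.sub_le _ _).trans hj) q hq
      refine (Finset.sum_le_sum h1).trans ?_
      rw [← Finset.sum_mul]
      have h2 : (∑ i ∈ Finset.range (j + 1), (j.choose i : ℝ)) = 2 ^ j := by
        exact_mod_cast Nat.sum_range_choose j
      rw [h2]
      have h3 : (2 : ℝ) ^ j ≤ 2 ^ 2 := pow_le_pow_right₀ (by norm_num) hj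
      have h4 : 0 ≤ A * b := mul_nonneg hA0 hb0
      nlinarith
    · have h0 : iteratedFDeriv ℝ j (fun q => a q * g q) q = iteratedFDeriv ℝ j (fun _ => (0 : ℝ)) q :=
        ((hev q hq).iteratedFDeriv (𝕜 := ℝ) j).eq_of_nhds
      rw [h0, iteratedFDeriv_fun_zero, Pi.zero_apply, norm_zero]
      positivity

end generic

section bdext

variable {n : ℕ}

/-- the velocity -/
def pv (n : ℕ) : (Vec n × Vec n × ℝ) →L[ℝ] Vec n :=
  (ContinuousLinearMap.fst ℝ (Vec n) ℝ).comp (ContinuousLinearMap.snd ℝ (Vec n) (Vec n × ℝ))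

theorem pv_apply (q : Vec n × Vec n × ℝ) : pv n q = q.2.1 := rfl

theorem pv_norm : ‖pv n‖ ≤ 1 := by
  apply ContinuousLinearMap.opNorm_le_bound _ zero_le_one
  intro q
  rw [pv_apply, one_mul]
  exact (norm_fst_le q.2).trans (norm_snd_le q)

/-- scaling of the velocity -/
def sc (n : ℕ) (a : ℝ) : (Vec n × Vec n × ℝ) →L[ℝ] (Vec n × Vec n × ℝ) :=
  (ContinuousLinearMap.fst ℝ (Vec n) (Vec n × ℝ)).prod
    ((a • pv n).prod ((ContinuousLinearMap.snd ℝ (Vec n) ℝ).comp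
      (ContinuousLinearMap.snd ℝ (Vec n) (Vec n × ℝ))))

theorem sc_apply (a : ℝ) (x v : Vec n) (t : ℝ) : sc n a (x, v, t) = (x, a • v, t) := rfl

theorem sc_norm {a : ℝ} (h0 : 0 ≤ a) (h1 : a ≤ 1) : ‖sc n a‖ ≤ 1 := by
  apply ContinuousLinearMap.opNorm_le_bound _ zero_le_one
  rintro ⟨x, v, t⟩
  rw [sc_apply, one_mul]
  simp only [Prod.norm_def]
  refine max_le_max le_rfl (max_le_max ?_ le_rfl)
  rw [norm_smul, Real.norm_of_nonneg h0]
  calc a * ‖v‖ ≤ 1 * ‖v‖ := by gcongr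
    _ = ‖v‖ := one_mul _

theorem cone_sub {C : Set (Vec n)} (hC : IsOpenCone C) {w : Vec n} (hw : w ∈ C) :
    ∃ d0 > 0, d0 ≤ 1 / 2 ∧ ∀ v : Vec n, v ≠ 0 → ‖v - ‖v‖ • w‖ ≤ d0 * ‖v‖ → v ∈ C := by
  obtain ⟨ε, hε, hb⟩ := Metric.isOpen_iff.mp hC.1 w hw
  refine ⟨min (1 / 2) (ε / 2), lt_min (by norm_num) (by positivity), min_le_left _ _, fun v hv h => ?_⟩
  have hvn : 0 < ‖v‖ := norm_pos_iff.mpr hv
  have h1 : ‖v‖⁻¹ • v ∈ C := by
    apply hb
    rw [Metric.mem_ball, dist_eq_norm]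
    have e : ‖v‖⁻¹ • v - w = ‖v‖⁻¹ • (v - ‖v‖ • w) := by
      rw [smul_sub, smul_smul, inv_mul_cancel₀ hvn.ne', one_smul]
    rw [e, norm_smul, norm_inv, norm_norm, inv_mul_lt_iff₀ hvn]
    calc ‖v - ‖v‖ • w‖ ≤ min (1 / 2) (ε / 2) * ‖v‖ := h
      _ ≤ ε / 2 * ‖v‖ := by gcongr; exact min_le_right _ _
      _ < ‖v‖ * ε := by nlinarith
  have h2 := hC.2.2 _ h1 ‖v‖ hvn
  rwa [smul_smul, mul_inv_cancel₀ hvn.ne', one_smul] at h2

theorem vz_round (x : Vec n) : ∃ m : Fin n → ℤ, ‖x + vz m‖ ≤ Real.sqrt n := by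
  refine ⟨fun i => -⌊x i⌋, ?_⟩
  rw [EuclideanSpace.norm_eq]
  apply Real.sqrt_le_sqrt
  have h1 : ∀ i ∈ (Finset.univ : Finset (Fin n)), ‖(x + vz (fun i => -⌊x i⌋)) i‖ ^ 2 ≤ 1 := by
    intro i _
    have e : (x + vz (fun i => -⌊x i⌋)) i = Int.fract (x i) := by
      show x i + (((-⌊x i⌋ : ℤ)) : ℝ) = Int.fract (x i)
      push_cast
      rw [← sub_eq_add_neg, Int.self_sub_floor]
    rw [e, Real.norm_of_nonneg (Int.fract_nonneg _)]
    have := (Int.fract_lt_one (x i)).le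
    have := Int.fract_nonneg (x i)
    nlinarith
  refine (Finset.sum_le_sum h1).trans ?_
  simp

theorem om_open {C : Set (Vec n)} (hC : IsOpenCone C) :
    IsOpen {q : Vec n × Vec n × ℝ | q.2.1 ∈ C} := hC.1.preimage (pv n).continuous

/-- bounds of the derivatives of a function of degree zero -/
theorem vbound {C : Set (Vec n)} (hC : IsOpenCone C) {k : ℕ∞} (hk : 2 ≤ k) {V : Lag n}
    (hV : IsDegreeZero C k V) {w : Vec n} {d0 : ℝ}
    (hd : ∀ v : Vec n, v ≠ 0 → ‖v - ‖v‖ • w‖ ≤ d0 * ‖v‖ → v ∈ C) :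
    ∃ CV : ℝ, 0 ≤ CV ∧ ∀ j ≤ 2, ∀ x v t, 1 ≤ ‖v‖ → ‖v - ‖v‖ • w‖ ≤ d0 * ‖v‖ →
      ‖iteratedFDeriv ℝ j V (x, v, t)‖ ≤ CV := by
  have hΩ := om_open hC
  set Ω := {q : Vec n × Vec n × ℝ | q.2.1 ∈ C} with hΩd
  set K1 : Set (Vec n) := {v | ‖v‖ = 1 ∧ ‖v - ‖v‖ • w‖ ≤ d0 * ‖v‖} with hK1
  have hcK1 : IsCompact K1 := by
    apply (isCompact_closedBall (0 : Vec n) 1).of_isClosed_subset
    · apply IsClosed.inter
      · exact isClosed_eq continuous_norm continuous_const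
      · exact isClosed_le ((continuous_id.sub (continuous_norm.smul continuous_const)).norm)
          (continuous_const.mul continuous_norm)
    · intro v hv
      rw [mem_closedBall_zero_iff]
      exact hv.1.le
  set K : Set (Vec n × Vec n × ℝ) := Metric.closedBall 0 (Real.sqrt n) ×ˢ K1 ×ˢ Icc 0 1 with hK
  have hcK : IsCompact K := (isCompact_closedBall _ _).prod (hcK1.prod isCompact_Icc)
  have hKΩ : K ⊆ Ω := by
    rintro ⟨x, v, t⟩ ⟨-, hv, -⟩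
    have hv1 : ‖v‖ = 1 := hv.1
    exact hd v (by rw [← norm_pos_iff, hv1]; norm_num) hv.2
  have hbd : ∀ j ≤ 2, ∃ Cj, ∀ q ∈ K, ‖iteratedFDeriv ℝ j V q‖ ≤ Cj := by
    intro j hj
    have hj' : ((j : ℕ) : WithTop ℕ∞) ≤ (k : WithTop ℕ∞) := by
      have h1 : ((j : ℕ) : ℕ∞) ≤ k := le_trans (by exact_mod_cast hj) hk
      exact_mod_cast h1
    have h1 : ContinuousOn (iteratedFDeriv ℝ j V) Ω := by
      refine (hV.smooth.continuousOn_iteratedFDerivWithin hj' hΩ.uniqueDiffOn).congr ?_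
      intro q hq
      exact (iteratedFDerivWithin_of_isOpen j hΩ hq).symm
    exact hcK.exists_bound_of_continuousOn (h1.mono hKΩ)
  choose! Cj hCj using hbd
  refine ⟨max (max (Cj 0) (Cj 1)) (max (Cj 2) 0), (le_max_right _ _).trans (le_max_right _ _), ?_⟩
  intro j hj x v t hv hvc
  have hjC : Cj j ≤ max (max (Cj 0) (Cj 1)) (max (Cj 2) 0) := by
    interval_cases j
    · exact (le_max_left _ _).trans (le_max_left _ _)
    · exact (le_max_right _ _).trans (le_max_left _ _)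
    · exact (le_max_left _ _).trans (le_max_right _ _)
  refine le_trans ?_ hjC
  have hv0 : v ≠ 0 := by
    rw [← norm_pos_iff]; linarith
  have hvC : v ∈ C := hd v hv0 hvc
  -- periodicity
  obtain ⟨m, hm⟩ := vz_round x
  have e1 : iteratedFDeriv ℝ j V (x, v, t) = iteratedFDeriv ℝ j V (x + vz m, v, t + (-⌊t⌋ : ℤ)) := by
    have h1 : V =ᶠ[𝓝 (x, v, t)] fun q => V (q + (vz m, 0, ((-⌊t⌋ : ℤ) : ℝ))) := by
      filter_upwards [hΩ.mem_nhds (show (x, v, t) ∈ Ω from hvC)] with q hq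
      obtain ⟨x', v', t'⟩ := q
      have := hV.periodic m (-⌊t⌋) x' v' t' hq
      rw [← this]
      simp only [Prod.mk_add_mk, add_zero]
    have h2 := (h1.iteratedFDeriv (𝕜 := ℝ) j).eq_of_nhds
    rw [h2, iteratedFDeriv_comp_add_right]
    simp only [Prod.mk_add_mk, add_zero]
  rw [e1]
  -- homogeneity
  have hvn : 0 < ‖v‖ := by linarith
  set y := x + vz m with hy
  set τ : ℝ := t + ((-⌊t⌋ : ℤ) : ℝ) with hτ
  have h3 : V =ᶠ[𝓝 (y, v, τ)] V ∘ (sc n ‖v‖⁻¹) := by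
    filter_upwards [hΩ.mem_nhds (show (y, v, τ) ∈ Ω from hvC)] with q hq
    obtain ⟨x', v', t'⟩ := q
    rw [Function.comp_apply, sc_apply]
    exact (hV.hom x' v' t' hq _ (inv_pos.mpr hvn)).symm
  rw [(h3.iteratedFDeriv (𝕜 := ℝ) j).eq_of_nhds]
  have hun : ‖‖v‖⁻¹ • v‖ = 1 := by
    rw [norm_smul, norm_inv, norm_norm, inv_mul_cancel₀ hvn.ne']
  have huK : ‖v‖⁻¹ • v ∈ K1 := by
    refine ⟨hun, ?_⟩
    rw [hun, one_smul, mul_one]
    have e : ‖v‖⁻¹ • v - w = ‖v‖⁻¹ • (v - ‖v‖ • w) := by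
      rw [smul_sub, smul_smul, inv_mul_cancel₀ hvn.ne', one_smul]
    rw [e, norm_smul, norm_inv, norm_norm, inv_mul_le_iff₀ hvn]
    linarith
  have hq : sc n ‖v‖⁻¹ (y, v, τ) ∈ K := by
    rw [sc_apply]
    refine ⟨?_, huK, ?_⟩
    · simp only [mem_closedBall_zero_iff]
      exact hm
    · have e2 : τ = Int.fract t := by
        rw [hτ]; push_cast
        rw [← sub_eq_add_neg, Int.self_sub_floor]
      simp only [e2]
      exact ⟨Int.fract_nonneg _, (Int.fract_lt_one _).le⟩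
  have hj' : ((j : ℕ) : WithTop ℕ∞) ≤ (k : WithTop ℕ∞) := by
    have h1 : ((j : ℕ) : ℕ∞) ≤ k := le_trans (by exact_mod_cast hj) hk
    exact_mod_cast h1
  refine (ifd_comp_le (sc n ‖v‖⁻¹) hΩ hV.smooth (hKΩ hq) hj'
    (sc_norm (by positivity) (inv_le_one_of_one_le₀ hv))).trans ?_
  exact hCj j hj _ hq

end bdext

end TXB

section result

open TXB

variable {n : ℕ}

/-- the bounded part of the global Lagrangian -/
theorem bd_ext {C : Set (Vec n)} (hC : IsOpenCone C) {k : ℕ∞} (hk : 2 ≤ k) {V r : Lag n}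
    (hV : IsDegreeZero C k V) {R : ℝ} (hr : IsSmallAtInfinity C R r) {w : Vec n} (hw : w ∈ C)
    (hw1 : ‖w‖ = 1) : ∃ d0 > 0, ∀ d, 0 < d → d ≤ d0 → ∀ μ, 0 < μ → ∃ (B : Lag n) (Λ R' : ℝ),
      1 ≤ Λ ∧ ContDiff ℝ 2 B ∧ (∀ q, |B q| ≤ Λ) ∧ (∀ q, ‖fderiv ℝ B q‖ ≤ Λ) ∧
      (∀ q, ‖fderiv ℝ (fderiv ℝ B) q‖ ≤ Λ) ∧
      (∀ (m : Fin n → ℤ) (l : ℤ) x v t, B (x + vz m, v, t + l) = B (x, v, t)) ∧
      (∀ x v t ξ, |fderiv ℝ (fderiv ℝ B) (x, v, t) (0, ξ, 0) (0, ξ, 0)| ≤ μ * ‖ξ‖ ^ 2) ∧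
      (∀ x v t, v ∈ cone w (d / 2) → R' ≤ ‖v‖ → B (x, v, t) = V (x, v, t) + r (x, v, t)) := by
  obtain ⟨d0, hd0, hd1, hcone⟩ := cone_sub hC hw
  obtain ⟨CV, hCV0, hCV⟩ := vbound hC hk hV hcone
  obtain ⟨Cχ, hCχ, hχ⟩ := exists_cutoff w hw1
  refine ⟨d0, hd0, fun d hd hdd0 μ hμ => ?_⟩
  obtain ⟨χ, hχs, hχ01, hχ1, hχ2, hχ3, hχ4, hχ5⟩ := hχ d hd (hdd0.trans hd1)
  have hΩ := om_open hC
  set Ω := {q : Vec n × Vec n × ℝ | q.2.1 ∈ C} with hΩd
  have gen : ∀ j : ℕ, j ≤ 2 → ((j : ℕ) : WithTop ℕ∞) ≤ (k : WithTop ℕ∞) := by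
    intro j hj
    have h1 : ((j : ℕ) : ℕ∞) ≤ k := le_trans (by exact_mod_cast hj) hk
    exact_mod_cast h1
  have hk' : (2 : WithTop ℕ∞) ≤ (k : WithTop ℕ∞) := gen 2 le_rfl
  have geni : ∀ j : ℕ, ((j : ℕ) : WithTop ℕ∞) ≤ (∞ : WithTop ℕ∞) := by
    intro j
    exact_mod_cast le_top
  have h2i : (2 : WithTop ℕ∞) ≤ (∞ : WithTop ℕ∞) := geni 2
  -- the cutoff as a function of all variables
  set a : Lag n := χ ∘ pv n with ha
  have has : ContDiff ℝ 2 a := (hχs.of_le h2i).comp (pv n).contDiff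
  set A : ℝ := Cχ / d ^ 2 with hA
  have hd12 : d ≤ 1 / 2 := hdd0.trans hd1
  have hA1 : 1 ≤ A := by
    rw [hA, le_div_iff₀ (by positivity)]
    nlinarith
  have hA0 : 0 < A := by linarith
  have hχA : ∀ j ≤ 2, ∀ v, ‖iteratedFDeriv ℝ j χ v‖ ≤ A := by
    intro j hj v
    interval_cases j
    · rw [norm_iteratedFDeriv_zero, Real.norm_eq_abs, abs_le]
      constructor <;> linarith [(hχ01 v).1, (hχ01 v).2]
    · rw [← ifd_one]
      refine (hχ4 v).trans ?_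
      rw [hA]
      apply div_le_div_of_nonneg_left (by linarith) (by positivity)
      nlinarith [norm_nonneg v]
    · rw [← ifd_two]
      refine (hχ5 v).trans ?_
      rw [hA]
      apply div_le_div_of_nonneg_left (by linarith) (by positivity)
      have : d ≤ d * (1 + ‖v‖) := by nlinarith [norm_nonneg v]
      gcongr
  have haA : ∀ j ≤ 2, ∀ q, ‖iteratedFDeriv ℝ j a q‖ ≤ A := by
    intro j hj q
    have hj' : ((j : ℕ) : WithTop ℕ∞) ≤ (∞ : WithTop ℕ∞) := by exact_mod_cast le_top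
    refine (ifd_comp_le (pv n) isOpen_univ hχs.contDiffOn (mem_univ _) hj' pv_norm).trans ?_
    exact hχA j hj _
  -- support
  have hsupp : ∀ v, χ v ≠ 0 → 1 < ‖v‖ ∧ ‖v - ‖v‖ • w‖ < d * ‖v‖ := by
    intro v hv
    constructor
    · by_contra hc
      exact hv (hχ1 v (not_lt.mp hc))
    · by_contra hc
      exact hv (hχ2 v (not_lt.mp hc))
  have hclosed : ∀ s : ℝ, IsClosed {q : Vec n × Vec n × ℝ | s ≤ ‖q.2.1‖ ∧
      ‖q.2.1 - ‖q.2.1‖ • w‖ ≤ d * ‖q.2.1‖} := by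
    intro s
    have hc : Continuous (fun q : Vec n × Vec n × ℝ => q.2.1) := (pv n).continuous
    apply IsClosed.inter
    · exact isClosed_le continuous_const hc.norm
    · exact isClosed_le (hc.sub (hc.norm.smul continuous_const)).norm (continuous_const.mul hc.norm)
  -- the part of degree zero
  set CW : ℝ := 4 * A * CV with hCW
  have hCW0 : 0 ≤ CW := by positivity
  obtain ⟨hWs, hWb⟩ := prod_bd (a := a) (g := V) (A := A) (b := CV) hΩ (hclosed 1) (by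
      rintro q ⟨h1, h2⟩
      have h3 : 0 < ‖q.2.1‖ := by linarith
      exact hcone _ (norm_pos_iff.mp h3) (h2.trans (by gcongr)))
    has (hV.smooth.of_le hk') (by
      intro q hq
      by_contra hc
      obtain ⟨h1, h2⟩ := hsupp _ hc
      exact hq ⟨h1.le, h2.le⟩) hCV0 haA (by
      rintro j hj ⟨x, v, t⟩ ⟨h1, h2⟩
      exact hCV j hj x v t h1 (h2.trans (by gcongr)))
  set W : Lag n := fun q => a q * V q with hW
  -- choice of the scale
  set ε : ℝ := μ / (8 * A) with hε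
  have hε0 : 0 < ε := by positivity
  obtain ⟨S0, hS0⟩ := hr.small 0 (by norm_num) ε hε0
  obtain ⟨S1, hS1⟩ := hr.small 1 (by norm_num) ε hε0
  obtain ⟨S2, hS2⟩ := hr.small 2 (by norm_num) ε hε0
  obtain ⟨s, hs1, hsR, hsS0, hsS1, hsS2, hsμ⟩ : ∃ s : ℝ, 1 ≤ s ∧ R < s ∧ S0 < s ∧ S1 < s ∧ S2 < s ∧
      CW / s ^ 2 ≤ μ / 2 := by
    set s : ℝ := 1 + |R| + |S0| + |S1| + |S2| + 2 * CW / μ with hs
    have p1 := abs_nonneg R
    have p2 := abs_nonneg S0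
    have p3 := abs_nonneg S1
    have p4 := abs_nonneg S2
    have p5 : 0 ≤ 2 * CW / μ := by positivity
    have q1 := le_abs_self R
    have q2 := le_abs_self S0
    have q3 := le_abs_self S1
    have q4 := le_abs_self S2
    have hs1 : 1 ≤ s := by linarith
    refine ⟨s, hs1, by linarith, by linarith, by linarith, by linarith, ?_⟩
    have h1 : 2 * CW / μ ≤ s := by linarith
    rw [div_le_iff₀ hμ] at h1
    rw [div_le_iff₀ (by positivity)]
    have h2 : s * μ ≤ s ^ 2 * μ := by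
      apply mul_le_mul_of_nonneg_right _ hμ.le
      nlinarith
    linarith
  have hs0 : 0 < s := by linarith
  have hinv0 : 0 < s⁻¹ := inv_pos.mpr hs0
  have hinv1 : s⁻¹ ≤ 1 := inv_le_one_of_one_le₀ hs1
  have hscn : ‖sc n s⁻¹‖ ≤ 1 := sc_norm hinv0.le hinv1
  -- support of the scaled cutoff
  have hsupp2 : ∀ v, χ (s⁻¹ • v) ≠ 0 → s < ‖v‖ ∧ ‖v - ‖v‖ • w‖ < d * ‖v‖ := by
    intro v hv
    obtain ⟨h1, h2⟩ := hsupp _ hv
    rw [norm_smul, Real.norm_of_nonneg hinv0.le] at h1 h2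
    constructor
    · rw [lt_inv_mul_iff₀ hs0] at h1
      linarith
    · have e : s⁻¹ • v - (s⁻¹ * ‖v‖) • w = s⁻¹ • (v - ‖v‖ • w) := by
        rw [smul_sub, smul_smul]
      rw [e, norm_smul, Real.norm_of_nonneg hinv0.le] at h2
      have h3 : s⁻¹ * ‖v - ‖v‖ • w‖ < s⁻¹ * (d * ‖v‖) := by linarith
      exact lt_of_mul_lt_mul_left h3 hinv0.le
  have hinC : ∀ v, χ (s⁻¹ • v) ≠ 0 → v ∈ C ∧ R < ‖v‖ := by
    intro v hv
    obtain ⟨h1, h2⟩ := hsupp2 v hv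
    have h3 : 0 < ‖v‖ := by linarith
    exact ⟨hcone v (norm_pos_iff.mp h3) (h2.le.trans (by gcongr)), by linarith⟩
  -- the small part
  set a' : Lag n := a ∘ sc n s⁻¹ with ha'
  have ha's : ContDiff ℝ 2 a' := has.comp (sc n s⁻¹).contDiff
  have ha'A : ∀ j ≤ 2, ∀ q, ‖iteratedFDeriv ℝ j a' q‖ ≤ A := by
    intro j hj q
    have hj' : ((j : ℕ) : WithTop ℕ∞) ≤ 2 := by exact_mod_cast hj
    exact (ifd_comp_le (sc n s⁻¹) isOpen_univ has.contDiffOn (mem_univ _) hj' hscn).trans (haA j hj _)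
  have hΩR : IsOpen {q : Vec n × Vec n × ℝ | q.2.1 ∈ C ∧ R < ‖q.2.1‖} := by
    have hc : Continuous (fun q : Vec n × Vec n × ℝ => q.2.1) := (pv n).continuous
    exact hΩ.inter (isOpen_lt continuous_const hc.norm)
  obtain ⟨hρs, hρb⟩ := prod_bd (a := a') (g := r) (A := A) (b := ε) hΩR (hclosed s) (by
      rintro q ⟨h1, h2⟩
      have h3 : 0 < ‖q.2.1‖ := by linarith
      exact ⟨hcone _ (norm_pos_iff.mp h3) (h2.trans (by gcongr)), by linarith⟩)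
    ha's hr.smooth (by
      intro q hq
      by_contra hc
      obtain ⟨h1, h2⟩ := hsupp2 _ hc
      exact hq ⟨h1.le, h2.le⟩) hε0.le ha'A (by
      rintro j hj ⟨x, v, t⟩ ⟨h1, h2⟩
      simp only at h1 h2
      have h3 : 0 < ‖v‖ := by linarith
      have h4 : v ∈ C := hcone _ (norm_pos_iff.mp h3) (h2.trans (by gcongr))
      interval_cases j
      · exact hS0 x v t h4 (by linarith)
      · exact hS1 x v t h4 (by linarith)
      · exact hS2 x v t h4 (by linarith))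
  set ρ : Lag n := fun q => a' q * r q with hρ
  have e4 : 4 * A * ε = μ / 2 := by
    rw [hε]; field_simp; norm_num
  rw [e4] at hρb
  -- the sum
  have hWc : ContDiff ℝ 2 (W ∘ sc n s⁻¹) := hWs.comp (sc n s⁻¹).contDiff
  set B : Lag n := (W ∘ sc n s⁻¹) + ρ with hB
  have hBs : ContDiff ℝ 2 B := hWc.add hρs
  have hBadd : ∀ j ≤ 2, ∀ q, iteratedFDeriv ℝ j B q =
      iteratedFDeriv ℝ j (W ∘ sc n s⁻¹) q + iteratedFDeriv ℝ j ρ q := by
    intro j hj q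
    have hj' : ((j : ℕ) : WithTop ℕ∞) ≤ 2 := by exact_mod_cast hj
    exact iteratedFDeriv_add_apply (hWc.of_le hj').contDiffAt (hρs.of_le hj').contDiffAt
  have hBb : ∀ j ≤ 2, ∀ q, ‖iteratedFDeriv ℝ j B q‖ ≤ 1 + CW + μ / 2 := by
    intro j hj q
    have hj' : ((j : ℕ) : WithTop ℕ∞) ≤ 2 := by exact_mod_cast hj
    rw [hBadd j hj q]
    refine (norm_add_le _ _).trans ?_
    have h1 := (ifd_comp_le (sc n s⁻¹) isOpen_univ hWs.contDiffOn (mem_univ _) hj' hscn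
      (q := q)).trans (hWb j hj _)
    have h2 := hρb j hj q
    linarith
  have hBq : ∀ x v t, B (x, v, t) = χ (s⁻¹ • v) * V (x, s⁻¹ • v, t) + χ (s⁻¹ • v) * r (x, v, t) :=
    fun x v t => rfl
  refine ⟨B, 1 + CW + μ / 2, 2 * s, by linarith, hBs, ?_, ?_, ?_, ?_, ?_, ?_⟩
  · intro q
    have := hBb 0 (by norm_num) q
    rwa [norm_iteratedFDeriv_zero, Real.norm_eq_abs] at this
  · intro q
    rw [ifd_one]
    exact hBb 1 (by norm_num) q
  · intro q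
    rw [ifd_two]
    exact hBb 2 le_rfl q
  · intro m l x v t
    rw [hBq, hBq]
    by_cases hz : χ (s⁻¹ • v) = 0
    · rw [hz]; ring
    · obtain ⟨h1, h2⟩ := hinC v hz
      rw [hV.periodic m l x (s⁻¹ • v) t (hC.2.2 v h1 _ hinv0), hr.periodic m l x v t h1 h2]
  · intro x v t ξ
    have e1 : fderiv ℝ (fderiv ℝ B) (x, v, t) (0, ξ, 0) (0, ξ, 0) =
        iteratedFDeriv ℝ 2 B (x, v, t) ![(0, ξ, 0), (0, ξ, 0)] := by
      rw [iteratedFDeriv_two_apply]; rfl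
    rw [e1, hBadd 2 le_rfl]
    show |iteratedFDeriv ℝ 2 (W ∘ sc n s⁻¹) (x, v, t) ![(0, ξ, 0), (0, ξ, 0)] +
      iteratedFDeriv ℝ 2 ρ (x, v, t) ![(0, ξ, 0), (0, ξ, 0)]| ≤ μ * ‖ξ‖ ^ 2
    refine (abs_add_le _ _).trans ?_
    have hη : ‖((0 : Vec n), ξ, (0 : ℝ))‖ = ‖ξ‖ := by
      simp [Prod.norm_def]
    have h1 : |iteratedFDeriv ℝ 2 ρ (x, v, t) ![(0, ξ, 0), (0, ξ, 0)]| ≤ μ / 2 * ‖ξ‖ ^ 2 := by
      have h2 := ContinuousMultilinearMap.le_opNorm (iteratedFDeriv ℝ 2 ρ (x, v, t))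
        ![(0, ξ, 0), (0, ξ, 0)]
      rw [Fin.prod_univ_two] at h2
      simp only [Matrix.cons_val_zero, Matrix.cons_val_one] at h2
      rw [hη, Real.norm_eq_abs] at h2
      refine h2.trans ?_
      rw [← pow_two]
      gcongr
      exact hρb 2 le_rfl _
    have h3 : |iteratedFDeriv ℝ 2 (W ∘ sc n s⁻¹) (x, v, t) ![(0, ξ, 0), (0, ξ, 0)]| ≤
        μ / 2 * ‖ξ‖ ^ 2 := by
      rw [ifd_comp (sc n s⁻¹) isOpen_univ hWs.contDiffOn (mem_univ _) le_rfl,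
        ContinuousMultilinearMap.compContinuousLinearMap_apply]
      have h2 := ContinuousMultilinearMap.le_opNorm (iteratedFDeriv ℝ 2 W (sc n s⁻¹ (x, v, t)))
        (fun i => sc n s⁻¹ (![((0 : Vec n), ξ, (0 : ℝ)), ((0 : Vec n), ξ, (0 : ℝ))] i))
      rw [Fin.prod_univ_two] at h2
      simp only [Matrix.cons_val_zero, Matrix.cons_val_one, sc_apply] at h2
      have hη' : ‖((0 : Vec n), s⁻¹ • ξ, (0 : ℝ))‖ = s⁻¹ * ‖ξ‖ := by
        simp [Prod.norm_def, norm_smul, abs_of_pos hs0]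
        positivity
      rw [hη', Real.norm_eq_abs] at h2
      refine h2.trans ?_
      have h4 := hWb 2 le_rfl (sc n s⁻¹ (x, v, t))
      calc ‖iteratedFDeriv ℝ 2 W (x, s⁻¹ • v, t)‖ * (s⁻¹ * ‖ξ‖ * (s⁻¹ * ‖ξ‖))
          ≤ CW * (s⁻¹ * ‖ξ‖ * (s⁻¹ * ‖ξ‖)) := by gcongr; exact h4
        _ = CW / s ^ 2 * ‖ξ‖ ^ 2 := by field_simp
        _ ≤ μ / 2 * ‖ξ‖ ^ 2 := by gcongr
    linarith
  · intro x v t hv hvR
    have hvn : 0 < ‖v‖ := by linarith
    have hvC : v ∈ C := by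
      refine hcone v hv.1 (hv.2.le.trans ?_)
      gcongr
      linarith
    have h1 : χ (s⁻¹ • v) = 1 := by
      apply hχ3
      · rw [norm_smul, Real.norm_of_nonneg hinv0.le, le_inv_mul_iff₀ hs0]
        linarith
      · rw [norm_smul, Real.norm_of_nonneg hinv0.le]
        have e : s⁻¹ • v - (s⁻¹ * ‖v‖) • w = s⁻¹ • (v - ‖v‖ • w) := by
          rw [smul_sub, smul_smul]
        rw [e, norm_smul, Real.norm_of_nonneg hinv0.le]
        have h3 : s⁻¹ * ‖v - ‖v‖ • w‖ ≤ s⁻¹ * (d / 2 * ‖v‖) := by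
          gcongr
          exact hv.2.le
        linarith
    rw [hBq, h1, hV.hom x v t hvC _ hinv0]
    ring

end result

end EscF.T
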