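import Pool.Agent.EscF.TXK
import Pool.Agent.EscF.TXB

/-!
Extension of an asymptotic Lagrangian near a direction to a global Lagrangian.
-/

noncomputable section

namespace EscF.T

open Filter Topology Set Metric
open scoped ContDiff

theorem exists_ext {n : ℕ} {C : Set (Vec n)} (hC : IsOpenCone C) {h : Vec n → ℝ} (hh : IsKinetic C h)
    {k : ℕ∞} (hk : 2 ≤ k) {V r L : Lag n} (hV : IsDegreeZero C k V) {R : ℝ}
    (hr : IsSmallAtInfinity C R r)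
    (hL : ∀ x v t, v ∈ C → R < ‖v‖ → L (x, v, t) = h v + V (x, v, t) + r (x, v, t))
    {w : Vec n} (hw : w ∈ C) : ∃ (C' : Set (Vec n)) (h' : Vec n → ℝ) (B : Lag n) (m Λ R' : ℝ),
      IsOpenCone C' ∧ w ∈ C' ∧ C' ⊆ C ∧ Ext C' h V L h' B m Λ R' := by
  have hw0 : w ≠ 0 := fun h0 => hC.2.1 (h0 ▸ hw)
  have hwn : 0 < ‖w‖ := norm_pos_iff.mpr hw0
  obtain ⟨u, hu⟩ : ∃ u : Vec n, u = ‖w‖⁻¹ • w := ⟨_, rfl⟩
  have huC : u ∈ C := by rw [hu]; exact hC.2.2 w hw _ (inv_pos.mpr hwn)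
  have hu1 : ‖u‖ = 1 := by rw [hu, norm_smul, norm_inv, norm_norm, inv_mul_cancel₀ hwn.ne']
  have hwu : w = ‖w‖ • u := by rw [hu, smul_smul, mul_inv_cancel₀ hwn.ne', one_smul]
  obtain ⟨d1, hd1, -, hcone⟩ := exists_cone hC huC
  obtain ⟨d2, m, ΛK, hd2, hm, hK⟩ := kin_ext hC hh huC hu1
  obtain ⟨d3, hd3, hBd⟩ := bd_ext hC hk hV hr huC hu1
  obtain ⟨d, hd, hdd1, hdd2, hdd3⟩ : ∃ d : ℝ, 0 < d ∧ d ≤ d1 ∧ d ≤ d2 ∧ d ≤ d3 :=
    ⟨min d1 (min d2 d3), lt_min hd1 (lt_min hd2 hd3), min_le_left _ _,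
      (min_le_right _ _).trans (min_le_left _ _), (min_le_right _ _).trans (min_le_right _ _)⟩
  obtain ⟨h', h's, h'b, h'c, h'e⟩ := hK d hd hdd2
  obtain ⟨B, ΛB, R1, hΛB, Bs, B0, B1, B2, Bper, Bv, Be⟩ := hBd d hd hdd3 (m / 2) (half_pos hm)
  have hsub : cone u (d / 2) ⊆ C := fun v hv =>
    hcone v hv.1 (hv.2.le.trans (mul_le_mul_of_nonneg_right (by linarith) (norm_nonneg _)))
  refine ⟨cone u (d / 2), h', B, m / 2, |ΛK| + ΛB, max 2 (max R1 (R + 1)), isOpenCone_cone _ _, ?_,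
    hsub, ⟨⟨half_pos hm, ?_, h's, fun v => ?_, Bs, fun q => ?_, fun q => ?_, fun q => ?_, Bper,
      fun v ξ => ?_, fun x v t ξ => ?_⟩, fun v hv hv2 => ?_, fun x v t hv hv2 => ?_, fun ε hε => ?_⟩⟩
  · rw [hwu]; exact smul_mem_cone (self_mem_cone hu1 (half_pos hd)) hwn
  · linarith [abs_nonneg ΛK]
  · exact (h'b v).trans (by linarith [le_abs_self ΛK])
  · exact (B0 q).trans (by linarith [abs_nonneg ΛK])
  · exact (B1 q).trans (by linarith [abs_nonneg ΛK])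
  · exact (B2 q).trans (by linarith [abs_nonneg ΛK])
  · have := h'c v ξ
    have h2 : 0 ≤ m * ‖ξ‖ ^ 2 := by positivity
    linarith
  · have h1 := h'c v ξ
    have h2 := Bv x v t ξ
    have h3 := neg_abs_le (fderiv ℝ (fderiv ℝ B) (x, v, t) (0, ξ, 0) (0, ξ, 0))
    linarith
  · exact h'e v hv ((le_max_left _ _).trans hv2)
  · have hv3 : 2 ≤ ‖v‖ := (le_max_left _ _).trans hv2
    have hv4 : R1 ≤ ‖v‖ := (le_max_left _ _).trans ((le_max_right _ _).trans hv2)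
    have hv5 : R + 1 ≤ ‖v‖ := (le_max_right _ _).trans ((le_max_right _ _).trans hv2)
    rw [hL x v t (hsub hv) (by linarith), h'e v hv hv3, Be x v t hv hv4]; ring
  · obtain ⟨R2, hR2⟩ := hr.small 0 (by norm_num) ε hε
    refine ⟨max R1 (R2 + 1), fun x v t hv hv2 => ?_⟩
    have h1 := Be x v t hv ((le_max_left _ _).trans hv2)
    have h2 := hR2 x v t (hsub hv) (by linarith [(le_max_right R1 (R2 + 1)).trans hv2])
    rw [norm_iteratedFDeriv_zero, Real.norm_eq_abs] at h2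
    rw [h1, add_sub_cancel_left]; exact h2

end EscF.T
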