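import Pool.Agent.EscF.A2
import Pool.Agent.EscF.Stage
import Pool.Agent.EscF.Open
import Pool.Agent.EscF.Final
import Pool.Agent.EscF.TX2
import Pool.Agent.EscF.TF
import Pool.Agent.EscF.TS2
import Pool.Agent.EscF.TP
import Pool.Agent.EscF.TD
import Pool.Agent.EscF.TO3
import Pool.Agent.EscF.TT

/-!
Project EscF, module TR (helper90): the residual set for one cone of velocities, and the result.
-/

noncomputable section

namespace EscF.T

open Filter Topology Set Esc EscN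
open scoped ContDiff

/-! ### Restriction to a smaller cone -/

lemma IsOpenCone.inter {n : ℕ} {C D : Set (Vec n)} (hC : IsOpenCone C) (hD : IsOpenCone D) :
    IsOpenCone (C ∩ D) :=
  ⟨hC.1.inter hD.1, fun h => hC.2.1 h.1, fun v hv c hc => ⟨hC.2.2 v hv.1 c hc, hD.2.2 v hv.2 c hc⟩⟩

lemma IsKinetic.mono {n : ℕ} {C C' : Set (Vec n)} {h : Vec n → ℝ} (hh : IsKinetic C h) (hC : C' ⊆ C) :
    IsKinetic C' h :=
  ⟨hh.smooth.mono hC, fun v hv => hh.hom v (hC hv), fun v hv => hh.pos v (hC hv)⟩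

lemma IsDegreeZero.mono {n : ℕ} {k : ℕ∞} {C C' : Set (Vec n)} {V : Lag n} (hV : IsDegreeZero C k V)
    (hC : C' ⊆ C) : IsDegreeZero C' k V :=
  ⟨hV.smooth.mono fun _ hq => hC hq, fun x v t hv => hV.hom x v t (hC hv),
    fun m l x v t hv => hV.periodic m l x v t (hC hv)⟩

lemma Ext.mono {n : ℕ} {C C' : Set (Vec n)} {h : Vec n → ℝ} {V L : Lag n} {h' : Vec n → ℝ} {B : Lag n}
    {m Λ R : ℝ} (hE : Ext C h V L h' B m Λ R) (hC : C' ⊆ C) : Ext C' h V L h' B m Λ R :=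
  ⟨hE.gl, fun v hv => hE.h_eq v (hC hv), fun x v t hv => hE.L_eq x v t (hC hv), fun ε hε => by
    obtain ⟨R', h⟩ := hE.lim ε hε
    exact ⟨R', fun x v t hv => h x v t (hC hv)⟩⟩

lemma HasEscapingOrbit.mono {n : ℕ} {L : Lag n} {D D' : Set (Vec n)} (h : HasEscapingOrbit L D)
    (hD : D ⊆ D') : HasEscapingOrbit L D' := by
  obtain ⟨x, h1, h2, h3⟩ := h
  exact ⟨x, h1, fun t ht => hD (h2 t ht), h3⟩

/-! ### The Hessian of the kinetic energy -/

lemma hess_pos {n : ℕ} {C : Set (Vec n)} {h : Vec n → ℝ} (hh : IsKinetic C h) {v : Vec n} (hv : v ∈ C)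
    (w : Vec n) (hw : w ≠ 0) : 0 < hess h v w w := by
  have h1 := hh.pos v hv w hw
  rw [iteratedFDeriv_two_apply] at h1
  simpa [hess] using h1

lemma hess_symm {n : ℕ} {C : Set (Vec n)} (hC : IsOpen C) {h : Vec n → ℝ} (hh : IsKinetic C h)
    {v : Vec n} (hv : v ∈ C) (w w' : Vec n) : hess h v w w' = hess h v w' w := by
  have h1 : ContDiffAt ℝ 2 h v := hh.smooth.contDiffAt (hC.mem_nhds hv)
  exact (h1.isSymmSndFDerivAt (by simp)).eq w w'

/-! ### The data and the stages as subsets of the space of potentials -/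

variable {d : ℕ} {Q : Vec (d + 1) →L[ℝ] Vec (d + 1) →L[ℝ] ℝ} {ρ : Fin (d + 1) → Vec (d + 1)}
  {h : Vec (d + 1) → ℝ} {B : Lag (d + 1)} {m Λ : ℝ}

section sets
variable (F : Frame d Q ρ) (hρ : IsZBasis ρ) (hG : GLag h B m Λ)

lemma datP_open {k : ℕ∞} (hk : 2 ≤ k) (p β M0 : ℝ) :
    IsOpen {f : Pot (d + 1) k | (mkL F hρ hG).Dat p β M0 (core F f.toFun)} := by
  refine isOpen_of F hk hρ (fun g => (mkL F hρ hG).Dat p β M0 g) fun f hf hD => ?_
  rw [← mkL_sp F hρ hG] at hf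
  obtain ⟨r, hr, h⟩ := dat_open (mkL F hρ hG) hf hD
  refine ⟨r, hr, fun f' hf' => ?_⟩
  rw [← mkL_sp F hρ hG] at hf'
  exact h f' hf'

lemma stageP_open {k : ℕ∞} (hk : 2 ≤ k) (p β : ℝ) (q : ℕ) :
    IsOpen {f : Pot (d + 1) k | (mkL F hρ hG).Stage p β q (core F f.toFun)} := by
  refine isOpen_of F hk hρ (fun g => (mkL F hρ hG).Stage p β q g) fun f hf hD => ?_
  rw [← mkL_sp F hρ hG] at hf
  obtain ⟨r, hr, h⟩ := stage_open (mkL F hρ hG) hf hD
  refine ⟨r, hr, fun f' hf' => ?_⟩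
  rw [← mkL_sp F hρ hG] at hf'
  exact h f' hf'

lemma core_pot {k : ℕ∞} (hk : 2 ≤ k) (f : Pot (d + 1) k) :
    (mkL F hρ hG).toSp.IsPot (core F f.toFun) := by
  rw [mkL_sp F hρ hG]
  exact core_isPot F hρ hk f

lemma stageP_dense (hd : 0 < d) {k : ℕ∞} (hk : 2 ≤ k) {p β M0 : ℝ} (f : Pot (d + 1) k)
    (hD : (mkL F hρ hG).Dat p β M0 (core F f.toFun)) {q : ℕ} (hq : M0 ≤ q) (r : ℕ) {ε : ℝ}
    (hε : 0 < ε) :
    ∃ G : Pot (d + 1) k, (∀ j ≤ r, ∀ q, ‖iteratedFDeriv ℝ j G.toFun q‖ < ε) ∧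
      (mkL F hρ hG).Stage p β q (core F (Pot.add f G).toFun) := by
  refine dense_of F hk hρ (fun g => (mkL F hρ hG).Stage p β q g) f (fun N e he => ?_) r hε
  have key : ∀ (S : Sp d (Vec (d + 1))) (_ : (mkL F hρ hG).toSp = S) (N : S.SmNorm),
      ∃ G, S.IsSm G ∧ N.nm G < e ∧
        (mkL F hρ hG).Stage p β q (fun x t => core F f.toFun x t + G x t) := by
    rintro S rfl N
    exact stage_dense (mkL F hρ hG) hd (core_pot F hρ hG hk f) hD hq N he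
  exact key _ (mkL_sp F hρ hG) N

lemma datP_of_sp (hd : 0 < d) {k : ℕ∞} (hk : 2 ≤ k) {τ : Fin (d + 1) → Vec (d + 1)} {K : ℕ}
    (hτ : ρ = rho τ K) {C : Set (Vec (d + 1))} (hC : IsOpenCone C) {g : Vec (d + 1) → ℝ}
    (hg : IsKinetic C g) {V L : Lag (d + 1)} (hV : IsDegreeZero C k V) {R : ℝ}
    (hE : Ext C g V L h B m Λ R) (hK : top τ K hd ∈ C) (hQ : Q = hess g (top τ K hd))
    {p β M0 : ℝ} (f : Pot (d + 1) k)
    (hD : (sp F.L).Dat p β M0 (fun X t => F.c * V (F.A.symm X, top τ K hd, t) + core F f.toFun X t)) :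
    ∃ M1 : ℕ, (mkL F hρ hE.gl).Dat p β M1 (core F f.toFun) := by
  rw [← mkL_sp F hρ hE.gl] at hD
  obtain ⟨M1, _, h⟩ := dat_of_asym (mkL F hρ hE.gl)
    (mkL_asym F hρ hE.gl hd hτ hC hg hk hV hE hK hQ) (core_pot F hρ hE.gl hk f) hD
  exact ⟨M1, h⟩

end sets


/-! ### The Baire argument -/

lemma iteratedFDeriv_addPot {n : ℕ} {k : ℕ∞} (f G : Pot n k) {j : ℕ} (hj : (j : ℕ∞) ≤ k)
    (q : Vec n × ℝ) : iteratedFDeriv ℝ j (Pot.add f G).toFun q - iteratedFDeriv ℝ j f.toFun q =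
      iteratedFDeriv ℝ j G.toFun q := by
  have hj' : ((j : ℕ∞) : WithTop ℕ∞) ≤ (k : WithTop ℕ∞) := WithTop.coe_le_coe.2 hj
  have e : iteratedFDeriv ℝ j (f.toFun + G.toFun) q =
      iteratedFDeriv ℝ j f.toFun q + iteratedFDeriv ℝ j G.toFun q :=
    iteratedFDeriv_add_apply (f.contDiff.of_le hj').contDiffAt (G.contDiff.of_le hj').contDiffAt
  change iteratedFDeriv ℝ j (f.toFun + G.toFun) q - iteratedFDeriv ℝ j f.toFun q = _
  rw [e, add_sub_cancel_left]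

/-- nonempty open sets are reached by small perturbations -/
lemma reach {n : ℕ} {k : ℕ∞} {O : Set (Pot n k)} (hO : IsOpen O) {f : Pot n k} (hf : f ∈ O) :
    ∃ (r : ℕ) (ε : ℝ), 0 < ε ∧ (r : ℕ∞) ≤ k ∧ ∀ G : Pot n k,
      (∀ j ≤ r, ∀ q, ‖iteratedFDeriv ℝ j G.toFun q‖ < ε) → Pot.add f G ∈ O := by
  obtain ⟨r, ε, hε, hr, h⟩ := nhds_small f (hO.mem_nhds hf)
  refine ⟨r, ε, hε, hr, fun G hG => h _ fun j hj q => ?_⟩
  rw [iteratedFDeriv_addPot f G (le_trans (by exact_mod_cast hj) hr) q]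
  exact hG j hj q

/-- residual set for one cone -/
theorem residual_cone {n : ℕ} (hn : 2 ≤ n) {k : ℕ∞} (hk : 2 ≤ k) {C : Set (Vec n)} (hC : IsOpenCone C)
    {h : Vec n → ℝ} (hh : IsKinetic C h) {L : Lag n} (hL : IsAsymptotic C h k L) {D : Set (Vec n)}
    (hD : IsOpenCone D) (hne : D.Nonempty) (hDC : D ⊆ C) :
    {f : Pot n k | HasEscapingOrbit (addPot L f.toFun) D} ∈ residual (Pot n k) := by
  obtain ⟨d, rfl⟩ : ∃ d, n = d + 1 := ⟨n - 1, by omega⟩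
  have hd : 0 < d := by omega
  obtain ⟨V, r, R, hV, hr, hLe⟩ := hL
  obtain ⟨τ, hτ, hτD⟩ := exists_zbasis hD hne
  obtain ⟨C1, h', B, m, Λ, R', hC1, hτ1, hC1C, hE1⟩ := exists_ext hC hh hk hV hr hLe (hDC hτD)
  -- the cone
  set C' : Set (Vec (d + 1)) := C1 ∩ D with hC'
  have hC'o : IsOpenCone C' := hC1.inter hD
  have hC'C : C' ⊆ C := inter_subset_left.trans hC1C
  have hE : Ext C' h V L h' B m Λ R' := hE1.mono inter_subset_left
  have hh' : IsKinetic C' h := hh.mono hC'C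
  have hV' : IsDegreeZero C' k V := hV.mono hC'C
  obtain ⟨K0, hK0⟩ := top_mem hC'o hd (show -τ (Fin.last d) ∈ C' from ⟨hτ1, hτD⟩)
  set Q : ℕ → Vec (d + 1) →L[ℝ] Vec (d + 1) →L[ℝ] ℝ := fun K => hess h (top τ K hd) with hQ
  have hF : ∀ K, K0 ≤ K → Nonempty (Frame d (Q K) (rho τ K)) := fun K hK =>
    exists_frame' (Q K) (fun v w => hess_symm hC'o.1 hh' (hK0 K hK) v w)
      (fun v hv => hess_pos hh' (hK0 K hK) v hv) _ (zbasis_li (zbasis_rho hτ K))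
  obtain ⟨F⟩ : Nonempty (∀ K, K0 ≤ K → Frame d (Q K) (rho τ K)) := ⟨fun K hK => (hF K hK).some⟩
  have hρ : ∀ K, IsZBasis (rho τ K) := fun K => zbasis_rho hτ K
  have := baire (d + 1) k
  -- data and stages
  set U : ({K : ℕ // K0 ≤ K} × ℚ × ℚ × ℕ) → Set (Pot (d + 1) k) := fun i =>
    {f | (mkL (F i.1 i.1.2) (hρ i.1) hE.gl).Dat i.2.1 i.2.2.1 i.2.2.2 (core (F i.1 i.1.2) f.toFun)}
    with hU
  set W : ({K : ℕ // K0 ≤ K} × ℚ × ℚ × ℕ) → ℕ → Set (Pot (d + 1) k) := fun i q =>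
    {f | (mkL (F i.1 i.1.2) (hρ i.1) hE.gl).Stage i.2.1 i.2.2.1 (i.2.2.2 + q)
      (core (F i.1 i.1.2) f.toFun)} with hW
  have hUo : ∀ i, IsOpen (U i) := fun i => datP_open _ _ _ hk _ _ _
  have hWo : ∀ i q, IsOpen (W i q) := fun i q => stageP_open _ _ _ hk _ _ _
  have h1 : (⋃ i, U i) ∈ residual (Pot (d + 1) k) := by
    refine residual_of_dense_open (isOpen_iUnion hUo) (dense_iff_inter_open.2 fun O hO hne => ?_)
    obtain ⟨f, hf⟩ := hne
    obtain ⟨r, ε, hε, hr, h⟩ := reach hO hf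
    obtain ⟨G, hG, K, hK, p, β, M0, hDat⟩ := dense_dat hd hk hτ hC'o ⟨hτ1, hτD⟩ hV' K0 hK0 Q F f r hr hε
    obtain ⟨M1, h2⟩ := datP_of_sp (F K hK) (hρ K) hd hk rfl hC'o hh' hV' hE (hK0 K hK) rfl
      (Pot.add f G) hDat
    exact ⟨Pot.add f G, h G hG, mem_iUnion.2 ⟨⟨⟨K, hK⟩, p, β, M1⟩, h2⟩⟩
  have h2 : ∀ i q, (W i q ∪ (closure (U i))ᶜ) ∈ residual (Pot (d + 1) k) := by
    intro i q
    refine residual_of_dense_open ((hWo i q).union isClosed_closure.isOpen_compl)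
      (dense_iff_inter_open.2 fun O hO hne => ?_)
    by_cases hOU : (O ∩ U i).Nonempty
    · obtain ⟨f, hfO, hfU⟩ := hOU
      obtain ⟨r, ε, hε, hr, h⟩ := reach hO hfO
      obtain ⟨G, hG, hi⟩ := stageP_dense (F i.1 i.1.2) (hρ i.1) hE.gl hd hk f hfU
        (q := i.2.2.2 + q) (by push_cast; linarith [Nat.cast_nonneg (α := ℝ) q]) r hε
      exact ⟨Pot.add f G, h G hG, Or.inl hi⟩
    · obtain ⟨f, hf⟩ := hne
      refine ⟨f, hf, Or.inr fun hcl => hOU ?_⟩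
      exact mem_closure_iff.1 hcl O hO hf
  have h3 : (⋂ i, ⋂ q, (W i q ∪ (closure (U i))ᶜ)) ∈ residual (Pot (d + 1) k) :=
    countable_iInter_mem.2 fun i => countable_iInter_mem.2 fun q => h2 i q
  refine mem_of_superset (inter_mem h1 h3) fun f hf => ?_
  obtain ⟨i, hi⟩ := mem_iUnion.1 hf.1
  have hall : ∀ q : ℕ, (i.2.2.2 : ℝ) ≤ q →
      (mkL (F i.1 i.1.2) (hρ i.1) hE.gl).Stage i.2.1 i.2.2.1 q (core (F i.1 i.1.2) f.toFun) := by
    intro q hq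
    obtain ⟨a, rfl⟩ := Nat.exists_eq_add_of_le (Nat.cast_le.1 hq)
    rcases mem_iInter.1 (mem_iInter.1 hf.2 i) a with h | h
    · exact h
    · exact absurd (subset_closure hi) h
  have hEs := escapes_of_stages (mkL (F i.1 i.1.2) (hρ i.1) hE.gl) hd
    (core_pot (F i.1 i.1.2) (hρ i.1) hE.gl hk f) hi hall
  refine HasEscapingOrbit.mono (escaping_of_escapes (F i.1 i.1.2) (hρ i.1) hE.gl hd hC'o hE ?_
    (hK0 i.1 i.1.2) hk f hEs) inter_subset_right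
  intro a l x v t hv hR
  rw [hE.L_eq _ _ _ hv hR, hE.L_eq _ _ _ hv hR, hE.gl.B_per]

/-! ### All cones -/

/-- the cone generated by a set -/
def coneOf {n : ℕ} (A : Set (Vec n)) : Set (Vec n) := {v | ∃ c : ℝ, 0 < c ∧ c • v ∈ A}

lemma coneOf_subset {n : ℕ} {A D : Set (Vec n)} (hD : IsOpenCone D) (hA : A ⊆ D) : coneOf A ⊆ D := by
  rintro v ⟨c, hc, hv⟩
  have h1 := hD.2.2 _ (hA hv) c⁻¹ (inv_pos.2 hc)
  rwa [smul_smul, inv_mul_cancel₀ hc.ne', one_smul] at h1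

lemma coneOf_open {n : ℕ} {A D : Set (Vec n)} (hD : IsOpenCone D) (hA : A ⊆ D) (hAo : IsOpen A) :
    IsOpenCone (coneOf A) := by
  refine ⟨?_, fun h0 => hD.2.1 (coneOf_subset hD hA h0), ?_⟩
  · have e : coneOf A = ⋃ c : {c : ℝ // 0 < c}, (fun v : Vec n => c.1 • v) ⁻¹' A := by
      ext v
      simp only [coneOf, mem_ofPred_eq, mem_iUnion, mem_preimage, Subtype.exists, exists_prop]
    rw [e]
    exact isOpen_iUnion fun c => hAo.preimage (continuous_const_smul c.1)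
  · rintro v ⟨a, ha, hv⟩ c hc
    refine ⟨a / c, div_pos ha hc, ?_⟩
    rwa [smul_smul, div_mul_cancel₀ _ hc.ne']

lemma subset_coneOf {n : ℕ} (A : Set (Vec n)) : A ⊆ coneOf A := fun v hv =>
  ⟨1, one_pos, by rwa [one_smul]⟩

/-- the result -/
theorem result {n : ℕ} (hn : 2 ≤ n) {k : ℕ∞} (hk : 2 ≤ k) {C : Set (Vec n)} (hC : IsOpenCone C)
    {h : Vec n → ℝ} (hh : IsKinetic C h) {L : Lag n} (hL : IsAsymptotic C h k L) :
    {f : Pot n k | ∀ D : Set (Vec n), IsOpenCone D → D.Nonempty → D ⊆ C →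
        HasEscapingOrbit (addPot L f.toFun) D} ∈ residual (Pot n k) ∧
      Dense {f : Pot n k | ∀ D : Set (Vec n), IsOpenCone D → D.Nonempty → D ⊆ C →
        HasEscapingOrbit (addPot L f.toFun) D} := by
  have := baire n k
  refine (fun h => ⟨h, dense_of_mem_residual h⟩) ?_
  have h1 : ∀ A ∈ TopologicalSpace.countableBasis (Vec n), {f : Pot n k | A.Nonempty → A ⊆ C →
      HasEscapingOrbit (addPot L f.toFun) (coneOf A)} ∈ residual (Pot n k) := by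
    intro A hA
    by_cases hA1 : A.Nonempty ∧ A ⊆ C
    · refine mem_of_superset (residual_cone hn hk hC hh hL
        (coneOf_open hC hA1.2 (TopologicalSpace.isOpen_of_mem_countableBasis hA))
        (hA1.1.mono (subset_coneOf A)) (coneOf_subset hC hA1.2)) fun f hf _ _ => hf
    · exact mem_of_superset univ_mem fun f _ h1 h2 => absurd ⟨h1, h2⟩ hA1
  have h2 := (countable_bInter_mem (TopologicalSpace.countable_countableBasis (Vec n))).2 h1
  refine mem_of_superset h2 fun f hf D hD hne hDC => ?_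
  obtain ⟨w, hw⟩ := hne
  obtain ⟨A, hA, hwA, hAD⟩ := (TopologicalSpace.isBasis_countableBasis (Vec n)).exists_subset_of_mem_open
    hw hD.1
  exact HasEscapingOrbit.mono (mem_iInter₂.1 hf A hA ⟨w, hwA⟩ (hAD.trans hDC)) (coneOf_subset hD hAD)

end EscF.T
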