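import Pool.Agent.EscF.TCore
import Pool.Agent.EscF.TF

/-!
Module TS1 of project EscF: the structure `SpL` of a global Lagrangian.
-/

noncomputable section

namespace EscF.T

open Filter Topology Set Esc EscN
open scoped ContDiff

namespace TS1X

/-! ### Taylor estimates -/

lemma t2 {φ φ' φ'' : ℝ → ℝ} (h1 : ∀ s, HasDerivAt φ (φ' s) s)
    (h2 : ∀ s, HasDerivAt φ' (φ'' s) s) {κ : ℝ} (h : ∀ s, κ ≤ φ'' s) :
    φ 0 + φ' 0 + κ / 2 ≤ φ 1 := by
  have h3 : Monotone fun s => φ' s - κ * s := by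
    refine monotone_of_deriv_nonneg (fun s => ?_) (fun s => ?_)
    · exact ((h2 s).sub ((hasDerivAt_id s).const_mul κ)).differentiableAt
    · have h4 : HasDerivAt (fun s => φ' s - κ * s) (φ'' s - κ * 1) s :=
        (h2 s).sub ((hasDerivAt_id s).const_mul κ)
      rw [h4.deriv]
      linarith [h s]
  have h5 : MonotoneOn (fun s => φ s - φ' 0 * s - κ / 2 * s ^ 2) (Ici 0) := by
    have hd : ∀ s, HasDerivAt (fun s => φ s - φ' 0 * s - κ / 2 * s ^ 2)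
        (φ' s - φ' 0 * 1 - κ / 2 * (2 * s)) s := by
      intro s
      have h6 : HasDerivAt (fun s : ℝ => s ^ 2) (2 * s) s := by
        simpa using hasDerivAt_pow 2 s
      exact ((h1 s).sub ((hasDerivAt_id s).const_mul _)).sub (h6.const_mul _)
    refine monotoneOn_of_deriv_nonneg (convex_Ici 0) ?_ ?_ ?_
    · exact fun s _ => (hd s).continuousAt.continuousWithinAt
    · exact fun s _ => (hd s).differentiableAt.differentiableWithinAt
    · intro s hs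
      rw [interior_Ici] at hs
      rw [(hd s).deriv]
      have h7 := h3 (le_of_lt hs)
      simp only at h7
      linarith
  have h8 := h5 (mem_Ici.2 le_rfl) (mem_Ici.2 zero_le_one) zero_le_one
  simp only at h8
  linarith

lemma t2_abs {φ φ' φ'' : ℝ → ℝ} (h1 : ∀ s, HasDerivAt φ (φ' s) s)
    (h2 : ∀ s, HasDerivAt φ' (φ'' s) s) {κ : ℝ} (h : ∀ s, |φ'' s| ≤ κ) :
    |φ 1 - φ 0 - φ' 0| ≤ κ / 2 := by
  have h3 := t2 h1 h2 (κ := -κ) (fun s => (abs_le.1 (h s)).1)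
  have h4 := t2 (φ := fun s => -φ s) (φ' := fun s => -φ' s) (φ'' := fun s => -φ'' s)
    (fun s => (h1 s).neg) (fun s => (h2 s).neg) (κ := -κ) (fun s => by
      linarith [(abs_le.1 (h s)).2])
  rw [abs_le]
  constructor <;> linarith

section line

variable {W : Type*} [NormedAddCommGroup W] [NormedSpace ℝ W] {G : W → ℝ} (hG : ContDiff ℝ 2 G)
include hG

lemma line1 (q p : W) (s : ℝ) : HasDerivAt (fun s : ℝ => G (q + s • p)) (fderiv ℝ G (q + s • p) p) s := by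
  have h1 : HasFDerivAt G (fderiv ℝ G (q + s • p)) (q + s • p) :=
    (hG.differentiable (by norm_num) _).hasFDerivAt
  have h2 : HasDerivAt (fun s : ℝ => q + s • p) p s := by
    simpa using ((hasDerivAt_id s).smul_const p).const_add q
  exact h1.comp_hasDerivAt s h2

lemma line2 (q p : W) (s : ℝ) : HasDerivAt (fun s : ℝ => fderiv ℝ G (q + s • p) p)
    (fderiv ℝ (fderiv ℝ G) (q + s • p) p p) s := by
  have h0 : ContDiff ℝ 1 (fderiv ℝ G) := hG.fderiv_right (by norm_num)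
  have h1 : HasFDerivAt (fderiv ℝ G) (fderiv ℝ (fderiv ℝ G) (q + s • p)) (q + s • p) :=
    (h0.differentiable (by norm_num) _).hasFDerivAt
  have h2 : HasDerivAt (fun s : ℝ => q + s • p) p s := by
    simpa using ((hasDerivAt_id s).smul_const p).const_add q
  have h3 := h1.comp_hasDerivAt s h2
  exact h3.clm_apply (hasDerivAt_const s p) |>.congr_deriv (by simp)

lemma fderiv_lip {C : ℝ} (hC : ∀ q, ‖fderiv ℝ (fderiv ℝ G) q‖ ≤ C) (q p : W) :
    ‖fderiv ℝ G q - fderiv ℝ G p‖ ≤ C * ‖q - p‖ := by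
  have h0 : ContDiff ℝ 1 (fderiv ℝ G) := hG.fderiv_right (by norm_num)
  exact convex_univ.norm_image_sub_le_of_norm_fderiv_le
    (fun x _ => h0.differentiable (by norm_num) x) (fun x _ => hC x) (mem_univ _) (mem_univ _)

lemma fun_lip {C : ℝ} (hC : ∀ q, ‖fderiv ℝ G q‖ ≤ C) (q p : W) :
    |G q - G p| ≤ C * ‖q - p‖ := by
  rw [← Real.norm_eq_abs]
  exact convex_univ.norm_image_sub_le_of_norm_fderiv_le
    (fun x _ => hG.differentiable (by norm_num) x) (fun x _ => hC x) (mem_univ _) (mem_univ _)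

end line

/-! ### The fields -/

section fields

variable {d : ℕ} {Q : Vec (d + 1) →L[ℝ] Vec (d + 1) →L[ℝ] ℝ} {ρ : Fin (d + 1) → Vec (d + 1)}
  (F : Frame d Q ρ) {h : Vec (d + 1) → ℝ} {B : Lag (d + 1)} {m Λ : ℝ}

/-- `F.A.symm` as a continuous linear map -/
def Ai : Vec (d + 1) →L[ℝ] Vec (d + 1) := F.A.symm.toContinuousLinearMap

lemma Ai_A (x : Vec (d + 1)) : Ai F (F.A x) = x := F.A.symm_apply_apply x

lemma A_Ai (x : Vec (d + 1)) : F.A (Ai F x) = x := F.A.apply_symm_apply x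

/-- embeddings of the coordinates -/
def jx (n : ℕ) : Vec n →L[ℝ] Vec n × Vec n × ℝ := ContinuousLinearMap.inl ℝ (Vec n) (Vec n × ℝ)
@[inherit_doc jx] def jv (n : ℕ) : Vec n →L[ℝ] Vec n × Vec n × ℝ :=
  (ContinuousLinearMap.inr ℝ (Vec n) (Vec n × ℝ)).comp (ContinuousLinearMap.inl ℝ (Vec n) ℝ)

lemma jx_apply (n : ℕ) (x : Vec n) : jx n x = (x, 0, 0) := rfl
lemma jv_apply (n : ℕ) (x : Vec n) : jv n x = (0, x, 0) := rfl

lemma norm_jx (n : ℕ) (x : Vec n) : ‖jx n x‖ = ‖x‖ := by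
  rw [jx_apply, Prod.norm_def, Prod.norm_def]; simp

lemma norm_jv (n : ℕ) (x : Vec n) : ‖jv n x‖ = ‖x‖ := by
  rw [jv_apply, Prod.norm_def, Prod.norm_def]; simp

/-- the dual vector of a linear form composed with `F.A.symm` -/
def dl (φ : Vec (d + 1) →L[ℝ] ℝ) : Vec (d + 1) :=
  (InnerProductSpace.toDual ℝ (Vec (d + 1))).symm (F.c • φ.comp (Ai F))

lemma inner_dl (φ : Vec (d + 1) →L[ℝ] ℝ) (x : Vec (d + 1)) :
    inner ℝ (dl F φ) x = F.c * φ (Ai F x) := by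
  rw [dl, InnerProductSpace.toDual_symm_apply]
  rfl

lemma norm_dl (φ : Vec (d + 1) →L[ℝ] ℝ) {C : ℝ} (hC : ‖φ‖ ≤ C) :
    ‖dl F φ‖ ≤ F.c * C * ‖Ai F‖ := by
  rw [dl, LinearIsometryEquiv.norm_map, norm_smul, Real.norm_eq_abs, abs_of_pos F.c_pos, mul_assoc]
  refine mul_le_mul_of_nonneg_left ?_ F.c_pos.le
  exact (φ.opNorm_comp_le _).trans (mul_le_mul_of_nonneg_right hC (norm_nonneg _))

lemma dl_sub (φ ψ : Vec (d + 1) →L[ℝ] ℝ) : dl F φ - dl F ψ = dl F (φ - ψ) := by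
  rw [dl, dl, dl, ← map_sub, ← smul_sub, ContinuousLinearMap.sub_comp]

variable (h B)

/-- the Lagrangian -/
def fl (X U : Vec (d + 1)) (t : ℝ) : ℝ := F.c * (h (Ai F U) + B (Ai F X, Ai F U, t))
/-- the kinetic energy -/
def fh (U : Vec (d + 1)) : ℝ := F.c * h (Ai F U)
/-- its gradient -/
def fg (U : Vec (d + 1)) : Vec (d + 1) := dl F (fderiv ℝ h (Ai F U))
/-- the gradients of the Lagrangian -/
def fu (X U : Vec (d + 1)) (t : ℝ) : Vec (d + 1) :=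
  dl F (fderiv ℝ h (Ai F U) + (fderiv ℝ B (Ai F X, Ai F U, t)).comp (jv (d + 1)))
@[inherit_doc fu] def fx (X U : Vec (d + 1)) (t : ℝ) : Vec (d + 1) :=
  dl F ((fderiv ℝ B (Ai F X, Ai F U, t)).comp (jx (d + 1)))

/-- constants -/
def lam (Λ : ℝ) : ℝ := 1 + 4 * F.c * Λ * (1 + ‖Ai F‖) ^ 2
@[inherit_doc lam] def mm (m : ℝ) : ℝ := F.c * m / (1 + ‖(F.A : Vec (d + 1) →L[ℝ] Vec (d + 1))‖) ^ 2

variable {h B}

lemma norm_comp_jv (φ : Vec (d + 1) × Vec (d + 1) × ℝ →L[ℝ] ℝ) : ‖φ.comp (jv (d + 1))‖ ≤ ‖φ‖ := by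
  refine ContinuousLinearMap.opNorm_le_bound _ (norm_nonneg _) fun x => ?_
  rw [ContinuousLinearMap.comp_apply]
  refine (φ.le_opNorm _).trans ?_
  rw [norm_jv]

lemma norm_comp_jx (φ : Vec (d + 1) × Vec (d + 1) × ℝ →L[ℝ] ℝ) : ‖φ.comp (jx (d + 1))‖ ≤ ‖φ‖ := by
  refine ContinuousLinearMap.opNorm_le_bound _ (norm_nonneg _) fun x => ?_
  rw [ContinuousLinearMap.comp_apply]
  refine (φ.le_opNorm _).trans ?_
  rw [norm_jx]

/-- the distance of two arguments -/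
lemma dist_q (x v x' v' : Vec (d + 1)) (t t' : ℝ) :
    ‖((Ai F x, Ai F v, t) : Vec (d + 1) × Vec (d + 1) × ℝ) - (Ai F x', Ai F v', t')‖ ≤
      (1 + ‖Ai F‖) * (‖x - x'‖ + ‖v - v'‖ + |t - t'|) := by
  have h1 : ‖Ai F x - Ai F x'‖ ≤ ‖Ai F‖ * ‖x - x'‖ := by
    rw [← map_sub]; exact (Ai F).le_opNorm _
  have h2 : ‖Ai F v - Ai F v'‖ ≤ ‖Ai F‖ * ‖v - v'‖ := by
    rw [← map_sub]; exact (Ai F).le_opNorm _
  have ha := norm_nonneg (Ai F)
  have h3 := norm_nonneg (x - x')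
  have h4 := norm_nonneg (v - v')
  have h5 := abs_nonneg (t - t')
  have h6 : 0 ≤ ‖Ai F‖ * ‖x - x'‖ := mul_nonneg ha h3
  have h7 : 0 ≤ ‖Ai F‖ * ‖v - v'‖ := mul_nonneg ha h4
  have h8 : 0 ≤ ‖Ai F‖ * |t - t'| := mul_nonneg ha h5
  rw [Prod.mk_sub_mk, Prod.mk_sub_mk, Prod.norm_def, Prod.norm_def]
  refine max_le ?_ (max_le ?_ ?_)
  · simp only; nlinarith
  · simp only; nlinarith
  · simp only [Real.norm_eq_abs]; nlinarith

lemma c_nonneg : 0 ≤ F.c := F.c_pos.le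

variable (hG : GLag h B m Λ)
include hG

lemma Λ_pos : 0 < Λ := lt_of_lt_of_le one_pos hG.Λ_ge

/-- `cΛa ≤ lam`, etc. -/
lemma lam_a : F.c * Λ * ‖Ai F‖ ≤ lam F Λ := by
  have h1 := mul_nonneg (c_nonneg F) (Λ_pos hG).le
  have ha := norm_nonneg (Ai F)
  unfold lam
  nlinarith [mul_nonneg h1 ha, mul_nonneg h1 (mul_nonneg ha ha)]

lemma lam_a2 : 2 * (F.c * Λ * (1 + ‖Ai F‖)) * ‖Ai F‖ ≤ lam F Λ := by
  have h1 := mul_nonneg (c_nonneg F) (Λ_pos hG).le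
  have ha := norm_nonneg (Ai F)
  unfold lam
  nlinarith [mul_nonneg h1 ha, mul_nonneg h1 (mul_nonneg ha ha)]

lemma lam_1 : F.c * Λ * (1 + ‖Ai F‖) ≤ lam F Λ := by
  have h1 := mul_nonneg (c_nonneg F) (Λ_pos hG).le
  have ha := norm_nonneg (Ai F)
  unfold lam
  nlinarith [mul_nonneg h1 ha, mul_nonneg h1 (mul_nonneg ha ha)]

lemma lam_0 : F.c * Λ ≤ lam F Λ := by
  have h1 := mul_nonneg (c_nonneg F) (Λ_pos hG).le
  have ha := norm_nonneg (Ai F)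
  unfold lam
  nlinarith [mul_nonneg h1 ha, mul_nonneg h1 (mul_nonneg ha ha)]

lemma mm_pos : 0 < mm F m := by
  unfold mm
  have := F.c_pos
  have := hG.m_pos
  positivity

/-- `mm |w|² ≤ c m |A⁻¹ w|²` -/
lemma mm_le (w : Vec (d + 1)) : mm F m * ‖w‖ ^ 2 ≤ F.c * (m * ‖Ai F w‖ ^ 2) := by
  have h1 : ‖w‖ ≤ (1 + ‖(F.A : Vec (d + 1) →L[ℝ] Vec (d + 1))‖) * ‖Ai F w‖ := by
    have h2 : ‖(F.A : Vec (d + 1) →L[ℝ] Vec (d + 1)) (Ai F w)‖ ≤
      ‖(F.A : Vec (d + 1) →L[ℝ] Vec (d + 1))‖ * ‖Ai F w‖ := ContinuousLinearMap.le_opNorm _ _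
    have h3 : (F.A : Vec (d + 1) →L[ℝ] Vec (d + 1)) (Ai F w) = w := A_Ai F w
    rw [h3] at h2
    nlinarith [norm_nonneg (Ai F w)]
  have h0 : 0 < 1 + ‖(F.A : Vec (d + 1) →L[ℝ] Vec (d + 1))‖ := by positivity
  have h4 : ‖w‖ ^ 2 ≤ (1 + ‖(F.A : Vec (d + 1) →L[ℝ] Vec (d + 1))‖) ^ 2 * ‖Ai F w‖ ^ 2 := by
    rw [← mul_pow]
    exact pow_le_pow_left₀ (norm_nonneg _) h1 2
  unfold mm
  rw [div_mul_eq_mul_div, div_le_iff₀ (by positivity)]
  have h5 : 0 ≤ F.c * m := mul_nonneg (c_nonneg F) hG.m_pos.le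
  nlinarith [mul_le_mul_of_nonneg_left h4 h5]

lemma h_low (u v : Vec (d + 1)) : fh F h v + inner ℝ (fg F h v) (u - v) +
    mm F m / 2 * ‖u - v‖ ^ 2 ≤ fh F h u := by
  have h1 := t2 (line1 hG.h_smooth (Ai F v) (Ai F (u - v))) (line2 hG.h_smooth (Ai F v) (Ai F (u - v)))
    (κ := m * ‖Ai F (u - v)‖ ^ 2) (fun s => hG.conv_h _ _)
  simp only [zero_smul, add_zero, one_smul] at h1
  have h2 : Ai F v + Ai F (u - v) = Ai F u := by rw [map_sub]; abel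
  rw [h2] at h1
  have h3 := mul_le_mul_of_nonneg_left h1 (c_nonneg F)
  have h4 := mm_le F hG (u - v)
  unfold fh fg
  rw [inner_dl]
  nlinarith

lemma gh_lip (u v : Vec (d + 1)) : ‖fg F h u - fg F h v‖ ≤ lam F Λ * ‖u - v‖ := by
  unfold fg
  rw [dl_sub]
  have h1 := fderiv_lip hG.h_smooth hG.h_bd (Ai F u) (Ai F v)
  have h2 : ‖Ai F u - Ai F v‖ ≤ ‖Ai F‖ * ‖u - v‖ := by
    rw [← map_sub]; exact (Ai F).le_opNorm _
  have h3 : ‖fderiv ℝ h (Ai F u) - fderiv ℝ h (Ai F v)‖ ≤ Λ * (‖Ai F‖ * ‖u - v‖) :=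
    h1.trans (mul_le_mul_of_nonneg_left h2 (Λ_pos hG).le)
  refine (norm_dl F _ h3).trans ?_
  have h4 : F.c * (Λ * (‖Ai F‖ * ‖u - v‖)) * ‖Ai F‖ = (F.c * Λ * ‖Ai F‖ * ‖Ai F‖) * ‖u - v‖ := by ring
  rw [h4]
  refine mul_le_mul_of_nonneg_right ?_ (norm_nonneg _)
  have h5 := mul_nonneg (c_nonneg F) (Λ_pos hG).le
  have ha := norm_nonneg (Ai F)
  unfold lam
  nlinarith [mul_nonneg h5 ha, mul_nonneg h5 (mul_nonneg ha ha)]

lemma l_low (x u v : Vec (d + 1)) (t : ℝ) : fl F h B x v t + inner ℝ (fu F h B x v t) (u - v) +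
    mm F m / 2 * ‖u - v‖ ^ 2 ≤ fl F h B x u t := by
  have h0 := line1 hG.h_smooth (Ai F v) (Ai F (u - v))
  have h0' := line2 hG.h_smooth (Ai F v) (Ai F (u - v))
  have h5 := line1 hG.B_smooth (Ai F x, Ai F v, t) (jv (d + 1) (Ai F (u - v)))
  have h5' := line2 hG.B_smooth (Ai F x, Ai F v, t) (jv (d + 1) (Ai F (u - v)))
  have h1 := t2 (fun s => (h0 s).add (h5 s)) (fun s => (h0' s).add (h5' s))
    (κ := m * ‖Ai F (u - v)‖ ^ 2) (fun s => by
      have h6 := hG.conv (Ai F x) (Ai F v + s • Ai F (u - v)) t (Ai F (u - v))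
      have h7 : ((Ai F x, Ai F v, t) : Vec (d + 1) × Vec (d + 1) × ℝ) + s • jv (d + 1) (Ai F (u - v)) =
          (Ai F x, Ai F v + s • Ai F (u - v), t) := by
        rw [jv_apply]; simp
      rw [h7]
      exact h6)
  simp only [Pi.add_apply, zero_smul, add_zero, one_smul] at h1
  have h2 : Ai F v + Ai F (u - v) = Ai F u := by rw [map_sub]; abel
  have h8 : ((Ai F x, Ai F v, t) : Vec (d + 1) × Vec (d + 1) × ℝ) + jv (d + 1) (Ai F (u - v)) =
      (Ai F x, Ai F u, t) := by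
    rw [jv_apply, ← h2]; simp
  rw [h2, h8] at h1
  have h3 := mul_le_mul_of_nonneg_left h1 (c_nonneg F)
  have h4 := mm_le F hG (u - v)
  unfold fl fu
  rw [inner_dl, ContinuousLinearMap.add_apply, ContinuousLinearMap.comp_apply]
  nlinarith

lemma l_tay (x v x' v' : Vec (d + 1)) (t : ℝ) :
    |fl F h B x' v' t - fl F h B x v t - inner ℝ (fx F B x v t) (x' - x) -
      inner ℝ (fu F h B x v t) (v' - v)| ≤ lam F Λ * (‖x' - x‖ + ‖v' - v‖) ^ 2 := by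
  have h0 := line1 hG.h_smooth (Ai F v) (Ai F (v' - v))
  have h0' := line2 hG.h_smooth (Ai F v) (Ai F (v' - v))
  set P : Vec (d + 1) × Vec (d + 1) × ℝ := jx (d + 1) (Ai F (x' - x)) + jv (d + 1) (Ai F (v' - v)) with hP
  have h5 := line1 hG.B_smooth (Ai F x, Ai F v, t) P
  have h5' := line2 hG.B_smooth (Ai F x, Ai F v, t) P
  set D := ‖x' - x‖ + ‖v' - v‖ with hD
  have hx0 := norm_nonneg (x' - x)
  have hv0 := norm_nonneg (v' - v)
  have ha := norm_nonneg (Ai F)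
  have hL := (Λ_pos hG).le
  have hn1 : ‖Ai F (v' - v)‖ ≤ ‖Ai F‖ * D := by
    refine ((Ai F).le_opNorm _).trans (mul_le_mul_of_nonneg_left ?_ ha)
    linarith
  have hn1' : ‖Ai F (v' - v)‖ ≤ ‖Ai F‖ * ‖v' - v‖ := (Ai F).le_opNorm _
  have hn3 : ‖Ai F (x' - x)‖ ≤ ‖Ai F‖ * ‖x' - x‖ := (Ai F).le_opNorm _
  have hn2 : ‖P‖ ≤ ‖Ai F‖ * D := by
    refine (norm_add_le _ _).trans ?_
    rw [norm_jx, norm_jv, hD, mul_add]
    exact add_le_add hn3 hn1'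
  have hb1 : ∀ s : ℝ, |fderiv ℝ (fderiv ℝ h) (Ai F v + s • Ai F (v' - v)) (Ai F (v' - v)) (Ai F (v' - v))| ≤
      Λ * (‖Ai F‖ * D) ^ 2 := by
    intro s
    rw [← Real.norm_eq_abs]
    refine (ContinuousLinearMap.le_opNorm₂ _ _ _).trans ?_
    have h6 := hG.h_bd (Ai F v + s • Ai F (v' - v))
    have h7 := norm_nonneg (Ai F (v' - v))
    calc _ ≤ Λ * (‖Ai F‖ * D) * (‖Ai F‖ * D) := by gcongr
      _ = _ := by ring
  have hb2 : ∀ s : ℝ, |fderiv ℝ (fderiv ℝ B) ((Ai F x, Ai F v, t) + s • P) P P| ≤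
      Λ * (‖Ai F‖ * D) ^ 2 := by
    intro s
    rw [← Real.norm_eq_abs]
    refine (ContinuousLinearMap.le_opNorm₂ _ _ _).trans ?_
    have h6 := hG.B2 ((Ai F x, Ai F v, t) + s • P)
    have h7 := norm_nonneg P
    calc _ ≤ Λ * (‖Ai F‖ * D) * (‖Ai F‖ * D) := by gcongr
      _ = _ := by ring
  have h1 := t2_abs (fun s => (h0 s).add (h5 s)) (fun s => (h0' s).add (h5' s))
    (κ := 2 * (Λ * (‖Ai F‖ * D) ^ 2)) (fun s => by
      refine (abs_add_le _ _).trans ?_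
      linarith [hb1 s, hb2 s])
  simp only [Pi.add_apply, zero_smul, add_zero, one_smul] at h1
  have h2 : Ai F v + Ai F (v' - v) = Ai F v' := by rw [map_sub]; abel
  have h2' : Ai F x + Ai F (x' - x) = Ai F x' := by rw [map_sub]; abel
  have h8 : ((Ai F x, Ai F v, t) : Vec (d + 1) × Vec (d + 1) × ℝ) + P = (Ai F x', Ai F v', t) := by
    rw [hP, jv_apply, jx_apply, ← h2, ← h2']; simp
  rw [h2, h8] at h1
  have h9 : fl F h B x' v' t - fl F h B x v t - inner ℝ (fx F B x v t) (x' - x) -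
      inner ℝ (fu F h B x v t) (v' - v) = F.c * (h (Ai F v') + B (Ai F x', Ai F v', t) -
        (h (Ai F v) + B (Ai F x, Ai F v, t)) - (fderiv ℝ h (Ai F v) (Ai F (v' - v)) +
          fderiv ℝ B (Ai F x, Ai F v, t) P)) := by
    unfold fl fx fu
    rw [inner_dl, inner_dl, ContinuousLinearMap.add_apply, ContinuousLinearMap.comp_apply,
      ContinuousLinearMap.comp_apply, hP, map_add (fderiv ℝ B (Ai F x, Ai F v, t))]
    ring
  rw [h9, abs_mul, abs_of_pos F.c_pos]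
  have h10 := mul_le_mul_of_nonneg_left h1 (c_nonneg F)
  refine h10.trans ?_
  have h11 : F.c * (2 * (Λ * (‖Ai F‖ * D) ^ 2) / 2) = (F.c * Λ * ‖Ai F‖ * ‖Ai F‖) * D ^ 2 := by ring
  rw [h11]
  refine mul_le_mul_of_nonneg_right ?_ (sq_nonneg _)
  have h5 := mul_nonneg (c_nonneg F) hL
  unfold lam
  nlinarith [mul_nonneg h5 ha, mul_nonneg h5 (mul_nonneg ha ha)]

lemma B_lip (x v x' v' : Vec (d + 1)) (t t' : ℝ) :
    |B (Ai F x, Ai F v, t) - B (Ai F x', Ai F v', t')| ≤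
      Λ * ((1 + ‖Ai F‖) * (‖x - x'‖ + ‖v - v'‖ + |t - t'|)) :=
  (fun_lip hG.B_smooth hG.B1 _ _).trans
    (mul_le_mul_of_nonneg_left (dist_q F x v x' v' t t') (Λ_pos hG).le)

lemma DB_lip (x v x' v' : Vec (d + 1)) (t t' : ℝ) :
    ‖fderiv ℝ B (Ai F x, Ai F v, t) - fderiv ℝ B (Ai F x', Ai F v', t')‖ ≤
      Λ * ((1 + ‖Ai F‖) * (‖x - x'‖ + ‖v - v'‖ + |t - t'|)) :=
  (fderiv_lip hG.B_smooth hG.B2 _ _).trans
    (mul_le_mul_of_nonneg_left (dist_q F x v x' v' t t') (Λ_pos hG).le)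

lemma l_xt (x x' v : Vec (d + 1)) (t t' : ℝ) :
    |fl F h B x v t - fl F h B x' v t'| ≤ lam F Λ * (‖x - x'‖ + |t - t'|) := by
  have h1 := B_lip F hG x v x' v t t'
  rw [sub_self, norm_zero, add_zero] at h1
  have h2 : fl F h B x v t - fl F h B x' v t' =
      F.c * (B (Ai F x, Ai F v, t) - B (Ai F x', Ai F v, t')) := by unfold fl; ring
  rw [h2, abs_mul, abs_of_pos F.c_pos]
  refine (mul_le_mul_of_nonneg_left h1 (c_nonneg F)).trans ?_
  have h3 : F.c * (Λ * ((1 + ‖Ai F‖) * (‖x - x'‖ + |t - t'|))) =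
    (F.c * Λ * (1 + ‖Ai F‖)) * (‖x - x'‖ + |t - t'|) := by ring
  rw [h3]
  exact mul_le_mul_of_nonneg_right (lam_1 F hG) (by positivity)

lemma lx_bd (x v : Vec (d + 1)) (t : ℝ) : ‖fx F B x v t‖ ≤ lam F Λ :=
  (norm_dl F _ ((norm_comp_jx _).trans (hG.B1 _))).trans (lam_a F hG)

lemma lx_lip (x v x' v' : Vec (d + 1)) (t t' : ℝ) :
    ‖fx F B x v t - fx F B x' v' t'‖ ≤ lam F Λ * (‖x - x'‖ + ‖v - v'‖ + |t - t'|) := by
  unfold fx
  rw [dl_sub, ← ContinuousLinearMap.sub_comp]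
  have h1 := (norm_comp_jx _).trans (DB_lip F hG x v x' v' t t')
  refine (norm_dl F _ h1).trans ?_
  have h3 : F.c * (Λ * ((1 + ‖Ai F‖) * (‖x - x'‖ + ‖v - v'‖ + |t - t'|))) * ‖Ai F‖ =
    (F.c * Λ * (1 + ‖Ai F‖) * ‖Ai F‖) * (‖x - x'‖ + ‖v - v'‖ + |t - t'|) := by ring
  rw [h3]
  refine mul_le_mul_of_nonneg_right ?_ (by positivity)
  have h5 := mul_nonneg (c_nonneg F) (Λ_pos hG).le
  have ha := norm_nonneg (Ai F)
  unfold lam
  nlinarith [mul_nonneg h5 ha, mul_nonneg h5 (mul_nonneg ha ha)]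

lemma lu_lip (x v x' v' : Vec (d + 1)) (t t' : ℝ) :
    ‖fu F h B x v t - fu F h B x' v' t'‖ ≤ lam F Λ * (‖x - x'‖ + ‖v - v'‖ + |t - t'|) := by
  unfold fu
  rw [dl_sub, add_sub_add_comm, ← ContinuousLinearMap.sub_comp]
  set D := ‖x - x'‖ + ‖v - v'‖ + |t - t'| with hD
  have hx0 := norm_nonneg (x - x')
  have hv0 := norm_nonneg (v - v')
  have ht0 := abs_nonneg (t - t')
  have ha := norm_nonneg (Ai F)
  have hL := (Λ_pos hG).le
  have h1 := (norm_comp_jv _).trans (DB_lip F hG x v x' v' t t')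
  have h2 : ‖fderiv ℝ h (Ai F v) - fderiv ℝ h (Ai F v')‖ ≤ Λ * ((1 + ‖Ai F‖) * D) := by
    refine (fderiv_lip hG.h_smooth hG.h_bd (Ai F v) (Ai F v')).trans
      (mul_le_mul_of_nonneg_left ?_ hL)
    have h3 : ‖Ai F v - Ai F v'‖ ≤ ‖Ai F‖ * ‖v - v'‖ := by
      rw [← map_sub]; exact (Ai F).le_opNorm _
    refine h3.trans ?_
    refine mul_le_mul (by linarith) (by rw [hD]; linarith) hv0 (by linarith)
  have h4 : ‖fderiv ℝ h (Ai F v) - fderiv ℝ h (Ai F v') +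
      (fderiv ℝ B (Ai F x, Ai F v, t) - fderiv ℝ B (Ai F x', Ai F v', t')).comp (jv (d + 1))‖ ≤
      2 * (Λ * ((1 + ‖Ai F‖) * D)) := by
    refine (norm_add_le _ _).trans ?_
    linarith
  refine (norm_dl F _ h4).trans ?_
  have h3 : F.c * (2 * (Λ * ((1 + ‖Ai F‖) * D))) * ‖Ai F‖ =
    (2 * (F.c * Λ * (1 + ‖Ai F‖)) * ‖Ai F‖) * D := by ring
  rw [h3]
  exact mul_le_mul_of_nonneg_right (lam_a2 F hG) (by positivity)

lemma l_h (x v : Vec (d + 1)) (t : ℝ) : |fl F h B x v t - fh F h v| ≤ lam F Λ := by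
  have h2 : fl F h B x v t - fh F h v = F.c * B (Ai F x, Ai F v, t) := by unfold fl fh; ring
  rw [h2, abs_mul, abs_of_pos F.c_pos]
  exact (mul_le_mul_of_nonneg_left (hG.B0 _) (c_nonneg F)).trans (lam_0 F hG)

lemma lu_h (x v : Vec (d + 1)) (t : ℝ) : ‖fu F h B x v t - fg F h v‖ ≤ lam F Λ := by
  unfold fu fg
  rw [dl_sub, add_sub_cancel_left]
  exact (norm_dl F _ ((norm_comp_jv _).trans (hG.B1 _))).trans (lam_a F hG)

lemma l_per0 (hρ : IsZBasis ρ) {y : Vec (d + 1)} (hy : ∃ k : Fin (d + 1) → ℤ, y = vz k)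
    (x v : Vec (d + 1)) (t : ℝ) : fl F h B (x + F.A y) v t = fl F h B x v t := by
  obtain ⟨k, rfl⟩ := hy
  unfold fl
  rw [map_add (Ai F), Ai_A]
  have := hG.B_per k 0 (Ai F x) (Ai F v) t
  rw [Int.cast_zero, add_zero] at this
  rw [this]

lemma l_per1 (x v : Vec (d + 1)) (t : ℝ) : fl F h B x v (t + 1) = fl F h B x v t := by
  unfold fl
  have := hG.B_per 0 1 (Ai F x) (Ai F v) t
  have h0 : (vz (0 : Fin (d + 1) → ℤ)) = 0 := by
    ext i; simp [vz]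
  rw [Int.cast_one, h0, add_zero] at this
  rw [this]

end fields

end TS1X

open TS1X

section TS
variable {d : ℕ} {Q : Vec (d + 1) →L[ℝ] Vec (d + 1) →L[ℝ] ℝ} {ρ : Fin (d + 1) → Vec (d + 1)}
  {h : Vec (d + 1) → ℝ} {B : Lag (d + 1)} {m Λ : ℝ}

/-- the structure of a global Lagrangian -/
def mkL (F : Frame d Q ρ) (hρ : IsZBasis ρ) (hG : GLag h B m Λ) : SpL d (Vec (d + 1)) where
  toSp := sp F.L
  S_univ := sp_S F.L
  O_id := sp_O F.L
  Og_id := sp_Og F.L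
  h := fh F h
  gh := fg F h
  l := fl F h B
  lx := fx F B
  lu := fu F h B
  m := mm F m
  Λ := lam F Λ
  m_pos := mm_pos F hG
  Λ_ge := by
    have h1 := mul_nonneg (c_nonneg F) (Λ_pos hG).le
    unfold lam
    nlinarith [mul_nonneg h1 (sq_nonneg (1 + ‖Ai F‖))]
  h_low := h_low F hG
  gh_lip := gh_lip F hG
  l_low := l_low F hG
  l_tay := l_tay F hG
  l_x x x' v t := by
    have := l_xt F hG x x' v t t
    rwa [sub_self, abs_zero, add_zero] at this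
  l_t x v t t' := by
    have := l_xt F hG x x v t t'
    rwa [sub_self, norm_zero, zero_add] at this
  lx_bd := lx_bd F hG
  lx_lip x v t x' v' t' := lx_lip F hG x v x' v' t t'
  lu_lip x v t x' v' t' := lu_lip F hG x v x' v' t t'
  l_h := l_h F hG
  lu_h := lu_h F hG
  l_dk n x v t := by
    have h1 : (sp F.L).dk n x = x + F.A (∑ i : Fin d, (n i : ℝ) • ρ i.castSucc) := by
      show x + ∑ i : Fin d, (n i : ℝ) • F.L.b i = _
      rw [map_sum]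
      congr 1
      refine Finset.sum_congr rfl fun i _ => ?_
      rw [map_smul, F.hb]
    rw [h1]
    refine l_per0 F hG hρ ?_ x v t
    choose k hk using fun i => hρ.1 i
    refine ⟨∑ i : Fin d, n i • k i.castSucc, ?_⟩
    ext j
    simp only [hk, vz]
    simp [Finset.sum_apply]
  l_gd x v t := by
    have h1 : (sp F.L).gd x = x + F.A (ρ (Fin.last d)) := by
      show x + F.L.g = _
      rw [F.hg]
    rw [h1]
    exact l_per0 F hG hρ (hρ.1 _) x v t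
  l_per := l_per1 F hG

variable (F : Frame d Q ρ) (hρ : IsZBasis ρ) (hG : GLag h B m Λ)

theorem mkL_sp : (mkL F hρ hG).toSp = sp F.L := rfl
theorem mkL_l (X U t) : (mkL F hρ hG).l X U t = F.c * (h (F.A.symm U) + B (F.A.symm X, F.A.symm U, t)) := rfl
theorem mkL_h (U) : (mkL F hρ hG).h U = F.c * h (F.A.symm U) := rfl
theorem mkL_gh (U ξ) : inner ℝ ((mkL F hρ hG).gh U) (F.A ξ) = F.c * fderiv ℝ h (F.A.symm U) ξ := by
  show inner ℝ (fg F h U) (F.A ξ) = _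
  unfold fg
  rw [inner_dl, Ai_A]
  rfl
theorem mkL_lu (X U t ξ) : inner ℝ ((mkL F hρ hG).lu X U t) (F.A ξ) =
    F.c * (fderiv ℝ h (F.A.symm U) ξ + fderiv ℝ B (F.A.symm X, F.A.symm U, t) (0, ξ, 0)) := by
  show inner ℝ (fu F h B X U t) (F.A ξ) = _
  unfold fu
  rw [inner_dl, Ai_A, ContinuousLinearMap.add_apply, ContinuousLinearMap.comp_apply, jv_apply]
  rfl
theorem mkL_lx (X U t ξ) : inner ℝ ((mkL F hρ hG).lx X U t) (F.A ξ) =
    F.c * fderiv ℝ B (F.A.symm X, F.A.symm U, t) (ξ, 0, 0) := by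
  show inner ℝ (fx F B X U t) (F.A ξ) = _
  unfold fx
  rw [inner_dl, Ai_A, ContinuousLinearMap.comp_apply, jx_apply]
  rfl

end TS

end EscF.T
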