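import Pool.Agent.EscF.TXD

/-!
Calculus for the extension of Lagrangians: second derivative of a product, homogeneous functions.
-/

noncomputable section

namespace EscF.T

open Filter Topology Set
open scoped ContDiff

section Calc
variable {X : Type*} [NormedAddCommGroup X] [NormedSpace ℝ X]
  {W : Type*} [NormedAddCommGroup W] [NormedSpace ℝ W]

theorem ev_contDiffAt {f : X → W} {x : X} (h : ContDiffAt ℝ 2 f x) : ∀ᶠ y in 𝓝 x, ContDiffAt ℝ 2 f y :=
  h.eventually (by decide)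

theorem diffAt_of_c2 {f : X → W} {x : X} (h : ContDiffAt ℝ 2 f x) : DifferentiableAt ℝ f x :=
  h.differentiableAt (by decide)

theorem fderiv_diffAt_of_c2 {f : X → W} {x : X} (h : ContDiffAt ℝ 2 f x) :
    DifferentiableAt ℝ (fderiv ℝ f) x :=
  (h.fderiv_right (m := 1) (by norm_num)).differentiableAt one_ne_zero

/-- second derivative of a product -/
theorem hasFDerivAt_fderiv_mul {a b : X → ℝ} {x : X} (ha : ContDiffAt ℝ 2 a x)
    (hb : ContDiffAt ℝ 2 b x) : HasFDerivAt (fderiv ℝ (fun y => a y * b y))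
      ((a x • fderiv ℝ (fderiv ℝ b) x + (fderiv ℝ a x).smulRight (fderiv ℝ b x)) +
        (b x • fderiv ℝ (fderiv ℝ a) x + (fderiv ℝ b x).smulRight (fderiv ℝ a x))) x := by
  have e : (fderiv ℝ (fun y => a y * b y)) =ᶠ[𝓝 x] fun y => a y • fderiv ℝ b y + b y • fderiv ℝ a y := by
    filter_upwards [ev_contDiffAt ha, ev_contDiffAt hb] with y h1 h2
    exact ((diffAt_of_c2 h1).hasFDerivAt.mul (diffAt_of_c2 h2).hasFDerivAt).fderiv
  refine HasFDerivAt.congr_of_eventuallyEq ?_ e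
  exact ((diffAt_of_c2 ha).hasFDerivAt.smul (fderiv_diffAt_of_c2 hb).hasFDerivAt).add
    ((diffAt_of_c2 hb).hasFDerivAt.smul (fderiv_diffAt_of_c2 ha).hasFDerivAt)

theorem fderiv2_mul_apply {a b : X → ℝ} {x : X} (ha : ContDiffAt ℝ 2 a x) (hb : ContDiffAt ℝ 2 b x)
    (ξ η : X) : fderiv ℝ (fderiv ℝ (fun y => a y * b y)) x ξ η =
      a x * fderiv ℝ (fderiv ℝ b) x ξ η + fderiv ℝ a x ξ * fderiv ℝ b x η +
        (b x * fderiv ℝ (fderiv ℝ a) x ξ η + fderiv ℝ b x ξ * fderiv ℝ a x η) := by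
  rw [(hasFDerivAt_fderiv_mul ha hb).fderiv]
  simp only [add_apply, smul_apply,
    ContinuousLinearMap.smulRight_apply, smul_eq_mul]

theorem norm_fderiv_mul_le {a b : X → ℝ} {x : X} (ha : DifferentiableAt ℝ a x)
    (hb : DifferentiableAt ℝ b x) :
    ‖fderiv ℝ (fun y => a y * b y) x‖ ≤ |a x| * ‖fderiv ℝ b x‖ + |b x| * ‖fderiv ℝ a x‖ := by
  have e : fderiv ℝ (fun y => a y * b y) x = a x • fderiv ℝ b x + b x • fderiv ℝ a x :=
    (ha.hasFDerivAt.mul hb.hasFDerivAt).fderiv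
  rw [e]
  refine (norm_add_le _ _).trans (le_of_eq ?_)
  rw [norm_smul, norm_smul, Real.norm_eq_abs, Real.norm_eq_abs]

theorem norm_fderiv2_mul_le {a b : X → ℝ} {x : X} (ha : ContDiffAt ℝ 2 a x)
    (hb : ContDiffAt ℝ 2 b x) : ‖fderiv ℝ (fderiv ℝ (fun y => a y * b y)) x‖ ≤
      |a x| * ‖fderiv ℝ (fderiv ℝ b) x‖ + 2 * (‖fderiv ℝ a x‖ * ‖fderiv ℝ b x‖) +
        |b x| * ‖fderiv ℝ (fderiv ℝ a) x‖ := by
  rw [(hasFDerivAt_fderiv_mul ha hb).fderiv]
  have h1 : ‖a x • fderiv ℝ (fderiv ℝ b) x + (fderiv ℝ a x).smulRight (fderiv ℝ b x)‖ ≤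
      |a x| * ‖fderiv ℝ (fderiv ℝ b) x‖ + ‖fderiv ℝ a x‖ * ‖fderiv ℝ b x‖ := by
    refine (ContinuousLinearMap.opNorm_add_le _ _).trans (le_of_eq ?_)
    rw [norm_smul, Real.norm_eq_abs, ContinuousLinearMap.norm_smulRight_apply]
  have h2 : ‖b x • fderiv ℝ (fderiv ℝ a) x + (fderiv ℝ b x).smulRight (fderiv ℝ a x)‖ ≤
      |b x| * ‖fderiv ℝ (fderiv ℝ a) x‖ + ‖fderiv ℝ b x‖ * ‖fderiv ℝ a x‖ := by
    refine (ContinuousLinearMap.opNorm_add_le _ _).trans (le_of_eq ?_)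
    rw [norm_smul, Real.norm_eq_abs, ContinuousLinearMap.norm_smulRight_apply]
  refine (ContinuousLinearMap.opNorm_add_le _ _).trans ?_
  linarith [h1, h2, mul_comm ‖fderiv ℝ a x‖ ‖fderiv ℝ b x‖]

theorem fderiv2_add {a b : X → W} {x : X} (ha : ContDiffAt ℝ 2 a x) (hb : ContDiffAt ℝ 2 b x) :
    fderiv ℝ (fderiv ℝ (fun y => a y + b y)) x = fderiv ℝ (fderiv ℝ a) x + fderiv ℝ (fderiv ℝ b) x := by
  have e : (fderiv ℝ (fun y => a y + b y)) =ᶠ[𝓝 x] fun y => fderiv ℝ a y + fderiv ℝ b y := by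
    filter_upwards [ev_contDiffAt ha, ev_contDiffAt hb] with y h1 h2
    exact ((diffAt_of_c2 h1).hasFDerivAt.add (diffAt_of_c2 h2).hasFDerivAt).fderiv
  rw [e.fderiv_eq]
  exact ((fderiv_diffAt_of_c2 ha).hasFDerivAt.add (fderiv_diffAt_of_c2 hb).hasFDerivAt).fderiv

theorem fderiv2_sub {a b : X → W} {x : X} (ha : ContDiffAt ℝ 2 a x) (hb : ContDiffAt ℝ 2 b x) :
    fderiv ℝ (fderiv ℝ (fun y => a y - b y)) x = fderiv ℝ (fderiv ℝ a) x - fderiv ℝ (fderiv ℝ b) x := by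
  have e : (fderiv ℝ (fun y => a y - b y)) =ᶠ[𝓝 x] fun y => fderiv ℝ a y - fderiv ℝ b y := by
    filter_upwards [ev_contDiffAt ha, ev_contDiffAt hb] with y h1 h2
    exact ((diffAt_of_c2 h1).hasFDerivAt.sub (diffAt_of_c2 h2).hasFDerivAt).fderiv
  rw [e.fderiv_eq]
  exact ((fderiv_diffAt_of_c2 ha).hasFDerivAt.sub (fderiv_diffAt_of_c2 hb).hasFDerivAt).fderiv

/-- first derivative after an affine change of variables -/
theorem fderiv_comp_affine {Y : Type*} [NormedAddCommGroup Y] [NormedSpace ℝ Y] {f : Y → W}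
    (A : X →L[ℝ] Y) (τ : Y) {x : X} (hf : DifferentiableAt ℝ f (A x + τ)) :
    fderiv ℝ (fun y => f (A y + τ)) x = (fderiv ℝ f (A x + τ)).comp A := by
  have h1 : HasFDerivAt (fun y => A y + τ) A x := A.hasFDerivAt.add_const τ
  exact (hf.hasFDerivAt.comp x h1).fderiv

/-- second derivative after an affine change of variables -/
theorem fderiv2_comp_affine {Y : Type*} [NormedAddCommGroup Y] [NormedSpace ℝ Y] {f : Y → W}
    (A : X →L[ℝ] Y) (τ : Y) {x : X} (hf : ContDiffAt ℝ 2 f (A x + τ)) (ξ η : X) :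
    fderiv ℝ (fderiv ℝ (fun y => f (A y + τ))) x ξ η =
      fderiv ℝ (fderiv ℝ f) (A x + τ) (A ξ) (A η) := by
  have hc : ContinuousAt (fun y => A y + τ) x := by fun_prop
  have e : (fderiv ℝ (fun y => f (A y + τ))) =ᶠ[𝓝 x]
      fun y => (fderiv ℝ f (A y + τ)).comp A := by
    filter_upwards [hc.eventually (ev_contDiffAt hf)] with y h1
    exact fderiv_comp_affine A τ (diffAt_of_c2 h1)
  rw [e.fderiv_eq]
  have h1 : HasFDerivAt (fun y => A y + τ) A x := A.hasFDerivAt.add_const τ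
  have h2 : HasFDerivAt (fun y => fderiv ℝ f (A y + τ)) ((fderiv ℝ (fderiv ℝ f) (A x + τ)).comp A) x :=
    (fderiv_diffAt_of_c2 hf).hasFDerivAt.comp x h1
  have h3 := h2.clm_comp (hasFDerivAt_const A x)
  rw [h3.fderiv]
  simp

end Calc

section hom
variable {n : ℕ} {C : Set (Vec n)} {W : Type*} [NormedAddCommGroup W] [NormedSpace ℝ W]

/-- derivative of a homogeneous function -/
theorem fderiv_hom (hC : IsOpenCone C) {F : Vec n → W} (hF : ∀ v ∈ C, DifferentiableAt ℝ F v) {k : ℕ}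
    (hh : ∀ v ∈ C, ∀ c : ℝ, 0 < c → F (c • v) = c ^ (k + 1) • F v) :
    ∀ v ∈ C, ∀ c : ℝ, 0 < c → fderiv ℝ F (c • v) = c ^ k • fderiv ℝ F v := by
  intro v hv c hc
  have h1 : HasFDerivAt (fun y : Vec n => c • y) (c • ContinuousLinearMap.id ℝ (Vec n)) v :=
    (hasFDerivAt_id v).const_smul c
  have h2 := (hF _ (hC.2.2 v hv c hc)).hasFDerivAt.comp v h1
  have h3 : HasFDerivAt (fun y => c ^ (k + 1) • F y) (c ^ (k + 1) • fderiv ℝ F v) v :=
    (hF v hv).hasFDerivAt.const_smul _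
  have e : (F ∘ fun y : Vec n => c • y) =ᶠ[𝓝 v] fun y => c ^ (k + 1) • F y := by
    filter_upwards [hC.1.mem_nhds hv] with y hy
    exact hh y hy c hc
  have h4 := h2.unique (h3.congr_of_eventuallyEq e)
  have h5 : c • fderiv ℝ F (c • v) = c • (c ^ k • fderiv ℝ F v) := by
    rw [smul_smul, ← pow_succ', ← h4]
    ext ξ
    simp
  exact smul_right_injective _ hc.ne' h5

/-- Euler's identity -/
theorem euler_hom {F : Vec n → W} (hF : ∀ v ∈ C, DifferentiableAt ℝ F v) {k : ℕ}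
    (hh : ∀ v ∈ C, ∀ c : ℝ, 0 < c → F (c • v) = c ^ (k + 1) • F v) :
    ∀ v ∈ C, fderiv ℝ F v v = ((k + 1 : ℕ) : ℝ) • F v := by
  intro v hv
  have h1 : HasDerivAt (fun c : ℝ => c • v) v 1 := by
    simpa using (hasDerivAt_id (1 : ℝ)).smul_const v
  have h0 : DifferentiableAt ℝ F ((1 : ℝ) • v) := by rw [one_smul]; exact hF v hv
  have h2 := h0.hasFDerivAt.comp_hasDerivAt (1 : ℝ) h1
  have h3 : HasDerivAt (fun c : ℝ => c ^ (k + 1) • F v) ((((k + 1 : ℕ) : ℝ) * 1 ^ k) • F v) 1 := by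
    have := (hasDerivAt_pow (k + 1) (1 : ℝ)).smul_const (F v)
    simpa using this
  have e : (F ∘ fun c : ℝ => c • v) =ᶠ[𝓝 1] fun c => c ^ (k + 1) • F v := by
    filter_upwards [Ioi_mem_nhds (zero_lt_one' ℝ)] with c hc
    exact hh v hv c hc
  have h4 := h2.unique (h3.congr_of_eventuallyEq e)
  rw [one_pow, mul_one, one_smul] at h4
  exact h4

end hom

end EscF.T
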