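import Pool.Agent.EscF.TCore

/-!
Cones of velocities around a direction.
-/

noncomputable section

namespace EscF.T

open Filter Topology Set

/-- the open cone of opening `d` around the direction `w` -/
def cone {n : ℕ} (w : Vec n) (d : ℝ) : Set (Vec n) := {v | v ≠ 0 ∧ ‖v - ‖v‖ • w‖ < d * ‖v‖}

theorem mem_cone {n : ℕ} {w v : Vec n} {d : ℝ} :
    v ∈ cone w d ↔ v ≠ 0 ∧ ‖v - ‖v‖ • w‖ < d * ‖v‖ := Iff.rfl

theorem self_mem_cone {n : ℕ} {w : Vec n} (hw : ‖w‖ = 1) {d : ℝ} (hd : 0 < d) : w ∈ cone w d := by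
  refine ⟨fun h => by rw [h, norm_zero] at hw; exact zero_ne_one hw, ?_⟩
  rw [hw, one_smul, sub_self, norm_zero, mul_one]; exact hd

theorem cone_mono {n : ℕ} {w : Vec n} {d e : ℝ} (h : d ≤ e) : cone w d ⊆ cone w e :=
  fun _ hv => ⟨hv.1, hv.2.trans_le (mul_le_mul_of_nonneg_right h (norm_nonneg _))⟩

theorem smul_mem_cone {n : ℕ} {w v : Vec n} {d c : ℝ} (hv : v ∈ cone w d) (hc : 0 < c) :
    c • v ∈ cone w d := by
  refine ⟨smul_ne_zero hc.ne' hv.1, ?_⟩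
  rw [norm_smul, Real.norm_of_nonneg hc.le, mul_smul, ← smul_sub, norm_smul,
    Real.norm_of_nonneg hc.le, mul_left_comm]
  exact mul_lt_mul_of_pos_left hv.2 hc

theorem isOpenCone_cone {n : ℕ} (w : Vec n) (d : ℝ) : IsOpenCone (cone w d) := by
  refine ⟨?_, fun h => h.1 rfl, fun v hv c hc => smul_mem_cone hv hc⟩
  refine IsOpen.inter isOpen_ne ?_
  have h1 : Continuous fun v : Vec n => ‖v - ‖v‖ • w‖ := by fun_prop
  have h2 : Continuous fun v : Vec n => d * ‖v‖ := by fun_prop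
  exact isOpen_lt h1 h2

/-- a small cone around a direction of an open cone, with closure -/
theorem exists_cone {n : ℕ} {C : Set (Vec n)} (hC : IsOpenCone C) {w : Vec n} (hwC : w ∈ C) :
    ∃ d0 : ℝ, 0 < d0 ∧ d0 ≤ 1 / 2 ∧ ∀ v, v ≠ 0 → ‖v - ‖v‖ • w‖ ≤ d0 * ‖v‖ → v ∈ C := by
  obtain ⟨ε, hε, h⟩ := Metric.isOpen_iff.mp hC.1 w hwC
  refine ⟨min (ε / 2) (1 / 2), lt_min (half_pos hε) (by norm_num), min_le_right _ _, fun v hv hv' => ?_⟩
  have hp : 0 < ‖v‖ := norm_pos_iff.mpr hv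
  have h1 : ‖v‖⁻¹ • v ∈ C := by
    refine h ?_
    rw [Metric.mem_ball, dist_eq_norm]
    have : ‖v‖⁻¹ • v - w = ‖v‖⁻¹ • (v - ‖v‖ • w) := by
      rw [smul_sub, smul_smul, inv_mul_cancel₀ hp.ne', one_smul]
    rw [this, norm_smul, norm_inv, norm_norm, inv_mul_lt_iff₀ hp]
    calc ‖v - ‖v‖ • w‖ ≤ min (ε / 2) (1 / 2) * ‖v‖ := hv'
      _ ≤ ε / 2 * ‖v‖ := mul_le_mul_of_nonneg_right (min_le_left _ _) hp.le
      _ < ‖v‖ * ε := by nlinarith
  have h2 := hC.2.2 _ h1 ‖v‖ hp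
  rwa [smul_smul, mul_inv_cancel₀ hp.ne', one_smul] at h2

end EscF.T
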