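import Pool.Agent.EscF.TXC
import Pool.Agent.EscF.TX1

/-!
Global extension of a kinetic energy near a direction.
-/

noncomputable section

namespace EscF.T

open Filter Topology Set Metric
open scoped ContDiff

variable {n : ℕ}

/-! ### the quadratic part -/

/-- derivative of a quadratic form -/
theorem hasFDerivAt_quad {Q : Vec n →L[ℝ] Vec n →L[ℝ] ℝ} (hs : ∀ a b, Q a b = Q b a) (v : Vec n) :
    HasFDerivAt (fun y => 1 / 2 * Q y y) (Q v) v := by
  have h1 := ((Q.hasFDerivAt (x := v)).clm_apply (hasFDerivAt_id v)).const_mul (1 / 2)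
  refine h1.congr_fderiv ?_
  ext ξ
  simp only [one_div, smul_apply, add_apply, ContinuousLinearMap.comp_apply, ContinuousLinearMap.flip_apply,
    ContinuousLinearMap.id_apply, id, smul_eq_mul]
  rw [hs ξ v]; ring

theorem fderiv_quad {Q : Vec n →L[ℝ] Vec n →L[ℝ] ℝ} (hs : ∀ a b, Q a b = Q b a) :
    fderiv ℝ (fun y => 1 / 2 * Q y y) = fun y => Q y := by
  ext1 v; exact (hasFDerivAt_quad hs v).fderiv

theorem fderiv2_quad {Q : Vec n →L[ℝ] Vec n →L[ℝ] ℝ} (hs : ∀ a b, Q a b = Q b a) (v : Vec n) :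
    fderiv ℝ (fderiv ℝ (fun y => 1 / 2 * Q y y)) v = Q := by
  rw [fderiv_quad hs]; exact Q.hasFDerivAt.fderiv

theorem contDiff_quad (Q : Vec n →L[ℝ] Vec n →L[ℝ] ℝ) : ContDiff ℝ 2 (fun y : Vec n => 1 / 2 * Q y y) := by
  fun_prop

/-- a positive definite form is bounded below -/
theorem exists_lower {Q : Vec n →L[ℝ] Vec n →L[ℝ] ℝ} (hp : ∀ v, v ≠ 0 → 0 < Q v v) :
    ∃ m : ℝ, 0 < m ∧ ∀ v, 2 * m * ‖v‖ ^ 2 ≤ Q v v := by
  rcases (sphere (0 : Vec n) 1).eq_empty_or_nonempty with he | hne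
  · refine ⟨1, one_pos, fun v => ?_⟩
    have hv : v = 0 := by
      by_contra h
      have : ‖v‖⁻¹ • v ∈ sphere (0 : Vec n) 1 := by
        rw [mem_sphere_zero_iff_norm, norm_smul, norm_inv, norm_norm,
          inv_mul_cancel₀ (norm_ne_zero_iff.mpr h)]
      rw [he] at this; exact this
    rw [hv]; simp
  · have hc : Continuous fun v : Vec n => Q v v := by fun_prop
    obtain ⟨u, hu, hmin⟩ := (isCompact_sphere (0 : Vec n) 1).exists_isMinOn hne hc.continuousOn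
    have hu0 : u ≠ 0 := by
      intro h; rw [h, mem_sphere_zero_iff_norm, norm_zero] at hu; exact zero_ne_one hu
    refine ⟨Q u u / 2, half_pos (hp u hu0), fun v => ?_⟩
    by_cases hv : v = 0
    · rw [hv]; simp
    · have hn : 0 < ‖v‖ := norm_pos_iff.mpr hv
      have h1 : ‖v‖⁻¹ • v ∈ sphere (0 : Vec n) 1 := by
        rw [mem_sphere_zero_iff_norm, norm_smul, norm_inv, norm_norm, inv_mul_cancel₀ hn.ne']
      have h2 : Q u u ≤ Q (‖v‖⁻¹ • v) (‖v‖⁻¹ • v) := hmin h1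
      have h3 : Q (‖v‖⁻¹ • v) (‖v‖⁻¹ • v) = (‖v‖ ^ 2)⁻¹ * Q v v := by
        rw [map_smul, map_smul, smul_apply, smul_eq_mul, smul_eq_mul]; ring
      rw [h3, inv_mul_eq_div, le_div_iff₀ (by positivity)] at h2
      calc 2 * (Q u u / 2) * ‖v‖ ^ 2 = Q u u * ‖v‖ ^ 2 := by ring
        _ ≤ Q v v := h2

/-! ### the homogeneous remainder -/

section rem
variable {C : Set (Vec n)} {h : Vec n → ℝ}

theorem kin_c2 (hC : IsOpenCone C) (hh : IsKinetic C h) {v : Vec n} (hv : v ∈ C) :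
    ContDiffAt ℝ 2 h v := hh.smooth.contDiffAt (hC.1.mem_nhds hv)

theorem kin_symm (hC : IsOpenCone C) (hh : IsKinetic C h) {v : Vec n} (hv : v ∈ C) (a b : Vec n) :
    hess h v a b = hess h v b a := by
  have := (kin_c2 hC hh hv).isSymmSndFDerivAt (by simp)
  exact this a b

theorem kin_pos (hh : IsKinetic C h) {v : Vec n} (hv : v ∈ C) (a : Vec n) (ha : a ≠ 0) :
    0 < hess h v a a := by
  have := hh.pos v hv a ha
  rw [iteratedFDeriv_two_apply] at this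
  exact this

theorem kin_hom' (hh : IsKinetic C h) : ∀ v ∈ C, ∀ c : ℝ, 0 < c → h (c • v) = c ^ (1 + 1) • h v :=
  fun v hv c hc => by rw [hh.hom v hv c hc, smul_eq_mul]

theorem kin_euler1 (hC : IsOpenCone C) (hh : IsKinetic C h) {v : Vec n} (hv : v ∈ C) :
    fderiv ℝ h v v = 2 * h v := by
  have := euler_hom (fun v hv => diffAt_of_c2 (kin_c2 hC hh hv)) (kin_hom' hh) v hv
  rw [this]; norm_num

theorem kin_euler2 (hC : IsOpenCone C) (hh : IsKinetic C h) {v : Vec n} (hv : v ∈ C) :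
    hess h v v = fderiv ℝ h v := by
  have h1 := fderiv_hom hC (fun v hv => diffAt_of_c2 (kin_c2 hC hh hv)) (kin_hom' hh)
  have h2 := euler_hom (k := 0) (fun v hv => fderiv_diffAt_of_c2 (kin_c2 hC hh hv))
    (fun v hv c hc => by rw [h1 v hv c hc]) v hv
  rw [hess, h2]; norm_num

end rem

/-- a function of class `C²`, homogeneous of degree two, with small second derivative near `w` -/
structure Rem (w : Vec n) (o d : ℝ) (g : Vec n → ℝ) : Prop where
  c2 : ∀ v, v ≠ 0 → ‖v - ‖v‖ • w‖ ≤ d * ‖v‖ → ContDiffAt ℝ 2 g v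
  b0 : ∀ v, v ≠ 0 → ‖v - ‖v‖ • w‖ ≤ d * ‖v‖ → |g v| ≤ o * d ^ 2 * ‖v‖ ^ 2
  b1 : ∀ v, v ≠ 0 → ‖v - ‖v‖ • w‖ ≤ d * ‖v‖ → ‖fderiv ℝ g v‖ ≤ o * d * ‖v‖
  b2 : ∀ v, v ≠ 0 → ‖v - ‖v‖ • w‖ ≤ d * ‖v‖ → ‖fderiv ℝ (fderiv ℝ g) v‖ ≤ o

theorem exists_rem {C : Set (Vec n)} (hC : IsOpenCone C) {h : Vec n → ℝ} (hh : IsKinetic C h)
    {w : Vec n} (hw : w ∈ C) {o : ℝ} (ho : 0 < o) :
    ∃ d0 : ℝ, 0 < d0 ∧ d0 ≤ 1 / 2 ∧ ∀ d, 0 < d → d ≤ d0 →
      Rem w o d (fun v => h v - 1 / 2 * hess h w v v) := by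
  set Q := hess h w with hQ
  set g : Vec n → ℝ := fun v => h v - 1 / 2 * Q v v with hg
  have hs : ∀ a b, Q a b = Q b a := kin_symm hC hh hw
  have gc2 : ∀ v ∈ C, ContDiffAt ℝ 2 g v := fun v hv =>
    (kin_c2 hC hh hv).sub (contDiff_quad Q).contDiffAt
  have g1 : ∀ v ∈ C, fderiv ℝ g v = fderiv ℝ h v - Q v := fun v hv =>
    ((diffAt_of_c2 (kin_c2 hC hh hv)).hasFDerivAt.sub (hasFDerivAt_quad hs v)).fderiv
  have g2 : ∀ v ∈ C, fderiv ℝ (fderiv ℝ g) v = fderiv ℝ (fderiv ℝ h) v - Q := fun v hv => by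
    rw [hg, fderiv2_sub (kin_c2 hC hh hv) (contDiff_quad Q).contDiffAt, fderiv2_quad hs]
  have ghom : ∀ v ∈ C, ∀ c : ℝ, 0 < c → g (c • v) = c ^ (1 + 1) • g v := fun v hv c hc => by
    simp only [hg, hh.hom v hv c hc, map_smul, smul_apply, smul_eq_mul]; ring
  have ghom1 := fderiv_hom hC (fun v hv => diffAt_of_c2 (gc2 v hv)) ghom
  have ghom2 := fderiv_hom (k := 0) hC (fun v hv => fderiv_diffAt_of_c2 (gc2 v hv))
    (fun v hv c hc => by rw [ghom1 v hv c hc])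
  have g0w : g w = 0 := by
    have h1 := kin_euler1 hC hh hw
    have h2 := kin_euler2 hC hh hw
    simp only [hg, hQ, h2, h1]; ring
  have g1w : fderiv ℝ g w = 0 := by
    rw [g1 w hw, hQ, kin_euler2 hC hh hw, sub_self]
  have g2w : fderiv ℝ (fderiv ℝ g) w = 0 := by
    rw [g2 w hw, hQ, hess, sub_self]
  -- continuity of the second derivative
  have hcont : ContinuousAt (fderiv ℝ (fderiv ℝ g)) w := by
    have h1 : ContDiffAt ℝ 1 (fderiv ℝ g) w := (gc2 w hw).fderiv_right (m := 1) (by norm_num)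
    exact (h1.fderiv_right (m := 0) (by norm_num)).continuousAt
  have hev : ∀ᶠ v in 𝓝 w, ‖fderiv ℝ (fderiv ℝ g) v‖ ≤ o ∧ v ∈ C := by
    refine Filter.Eventually.and ?_ (hC.1.mem_nhds hw)
    have h1 : Tendsto (fun v => ‖fderiv ℝ (fderiv ℝ g) v‖) (𝓝 w) (𝓝 0) := by
      have h2 := ((continuous_norm (E := Vec n →L[ℝ] Vec n →L[ℝ] ℝ)).tendsto _).comp hcont
      rw [g2w, ContinuousLinearMap.opNorm_zero] at h2
      exact h2
    exact h1.eventually (ge_mem_nhds ho)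
  obtain ⟨ε, hε, hball⟩ := Metric.eventually_nhds_iff.mp hev
  refine ⟨min (ε / 2) (1 / 2), lt_min (half_pos hε) (by norm_num), min_le_right _ _, fun d hd hd0 => ?_⟩
  have hdε : d < ε := by linarith [hd0.trans (min_le_left _ _)]
  have hB : ∀ u ∈ closedBall w d, ‖fderiv ℝ (fderiv ℝ g) u‖ ≤ o ∧ u ∈ C := fun u hu =>
    hball ((mem_closedBall.mp hu).trans_lt hdε)
  have hww : w ∈ closedBall w d := mem_closedBall_self hd.le
  have B1 : ∀ u ∈ closedBall w d, ‖fderiv ℝ g u‖ ≤ o * d := by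
    intro u hu
    have := (convex_closedBall w d).norm_image_sub_le_of_norm_fderiv_le (𝕜 := ℝ)
      (fun x hx => fderiv_diffAt_of_c2 (gc2 x (hB x hx).2)) (fun x hx => (hB x hx).1) hww hu
    rw [g1w, sub_zero] at this
    exact this.trans (mul_le_mul_of_nonneg_left (mem_closedBall_iff_norm.mp hu) ho.le)
  have B0 : ∀ u ∈ closedBall w d, |g u| ≤ o * d * d := by
    intro u hu
    have := (convex_closedBall w d).norm_image_sub_le_of_norm_fderiv_le (𝕜 := ℝ)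
      (fun x hx => diffAt_of_c2 (gc2 x (hB x hx).2)) B1 hww hu
    rw [g0w, sub_zero] at this
    exact this.trans (mul_le_mul_of_nonneg_left (mem_closedBall_iff_norm.mp hu) (by positivity))
  have key : ∀ v, v ≠ 0 → ‖v - ‖v‖ • w‖ ≤ d * ‖v‖ → ‖v‖⁻¹ • v ∈ closedBall w d := by
    intro v hv hv'
    have hp : 0 < ‖v‖ := norm_pos_iff.mpr hv
    rw [mem_closedBall_iff_norm]
    have : ‖v‖⁻¹ • v - w = ‖v‖⁻¹ • (v - ‖v‖ • w) := by
      rw [smul_sub, smul_smul, inv_mul_cancel₀ hp.ne', one_smul]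
    rw [this, norm_smul, norm_inv, norm_norm, inv_mul_le_iff₀ hp, mul_comm]
    exact hv'
  have back : ∀ v : Vec n, v ≠ 0 → v = ‖v‖ • (‖v‖⁻¹ • v) := fun v hv => by
    rw [smul_smul, mul_inv_cancel₀ (norm_ne_zero_iff.mpr hv), one_smul]
  have memC : ∀ v, v ≠ 0 → ‖v - ‖v‖ • w‖ ≤ d * ‖v‖ → v ∈ C := fun v hv hv' => by
    rw [back v hv]; exact hC.2.2 _ (hB _ (key v hv hv')).2 _ (norm_pos_iff.mpr hv)
  refine ⟨fun v hv hv' => gc2 v (memC v hv hv'), fun v hv hv' => ?_, fun v hv hv' => ?_,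
    fun v hv hv' => ?_⟩
  · have hk := key v hv hv'
    have h1 := ghom _ (hB _ hk).2 ‖v‖ (norm_pos_iff.mpr hv)
    rw [← back v hv] at h1
    rw [h1, smul_eq_mul, abs_mul, abs_of_nonneg (by positivity)]
    calc ‖v‖ ^ (1 + 1) * |g (‖v‖⁻¹ • v)| ≤ ‖v‖ ^ (1 + 1) * (o * d * d) :=
          mul_le_mul_of_nonneg_left (B0 _ hk) (by positivity)
      _ = o * d ^ 2 * ‖v‖ ^ 2 := by ring
  · have hk := key v hv hv'
    have h1 := ghom1 _ (hB _ hk).2 ‖v‖ (norm_pos_iff.mpr hv)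
    rw [← back v hv] at h1
    rw [h1, norm_smul, Real.norm_of_nonneg (by positivity)]
    calc ‖v‖ ^ 1 * ‖fderiv ℝ g (‖v‖⁻¹ • v)‖ ≤ ‖v‖ ^ 1 * (o * d) :=
          mul_le_mul_of_nonneg_left (B1 _ hk) (by positivity)
      _ = o * d * ‖v‖ := by ring
  · have hk := key v hv hv'
    have h1 := ghom2 _ (hB _ hk).2 ‖v‖ (norm_pos_iff.mpr hv)
    rw [← back v hv, pow_zero, one_smul] at h1
    rw [h1]; exact (hB _ hk).1

theorem kin_ext {C : Set (Vec n)} (hC : IsOpenCone C) {h : Vec n → ℝ} (hh : IsKinetic C h)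
    {w : Vec n} (hw : w ∈ C) (hw1 : ‖w‖ = 1) :
    ∃ d0 m Λ : ℝ, 0 < d0 ∧ 0 < m ∧ ∀ d, 0 < d → d ≤ d0 → ∃ h' : Vec n → ℝ, ContDiff ℝ 2 h' ∧
      (∀ v, ‖fderiv ℝ (fderiv ℝ h') v‖ ≤ Λ) ∧
      (∀ v ξ, m * ‖ξ‖ ^ 2 ≤ fderiv ℝ (fderiv ℝ h') v ξ ξ) ∧
      ∀ v ∈ cone w (d / 2), 2 ≤ ‖v‖ → h' v = h v := by
  obtain ⟨m, hm, hlow⟩ := exists_lower (kin_pos hh hw)
  obtain ⟨K, hK1, hcut⟩ := exists_cutoff w hw1
  set Q := hess h w with hQ
  have hs : ∀ a b, Q a b = Q b a := kin_symm hC hh hw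
  have hK0 : 0 < K := one_pos.trans_le hK1
  obtain ⟨d0, hd0, hd02, hrem⟩ := exists_rem hC hh hw (o := m / (1 + 3 * K)) (by positivity)
  refine ⟨d0, m, ‖Q‖ + m, hd0, hm, fun d hd hdd0 => ?_⟩
  obtain ⟨χ, χs, χ01, χz, χz', χ1, χd, χdd⟩ := hcut d hd (hdd0.trans hd02)
  have hR := hrem d hd hdd0
  rw [← hQ] at hR
  set g : Vec n → ℝ := fun v => h v - 1 / 2 * Q v v with hg
  set o := m / (1 + 3 * K) with hO
  have ho : 0 < o := by positivity
  -- the closed set where the product is not locally zero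
  set F : Set (Vec n) := {v | 1 ≤ ‖v‖ ∧ ‖v - ‖v‖ • w‖ ≤ d * ‖v‖} with hF
  have Fcl : IsClosed F := by
    refine IsClosed.inter ?_ ?_
    · have h1 : Continuous fun v : Vec n => ‖v‖ := by fun_prop
      exact isClosed_le continuous_const h1
    · have h1 : Continuous fun v : Vec n => ‖v - ‖v‖ • w‖ := by fun_prop
      have h2 : Continuous fun v : Vec n => d * ‖v‖ := by fun_prop
      exact isClosed_le h1 h2
  have Fne : ∀ v ∈ F, v ≠ 0 := fun v hv h0 => by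
    have := hv.1; rw [h0, norm_zero] at this; linarith
  set p : Vec n → ℝ := fun v => χ v * g v with hp
  have pz : ∀ v ∉ F, p =ᶠ[𝓝 v] fun _ => 0 := by
    intro v hv
    filter_upwards [Fcl.isOpen_compl.mem_nhds hv] with y hy
    have : χ y = 0 := by
      by_contra hne
      refine hy ⟨?_, ?_⟩
      · by_contra h1; exact hne (χz y (not_le.mp h1).le)
      · by_contra h1; exact hne (χz' y (not_le.mp h1).le)
    simp only [hp, this, zero_mul]
  have χc2 : ∀ v, ContDiffAt ℝ 2 χ v := fun v => (χs.of_le (by norm_cast)).contDiffAt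
  have pc2 : ∀ v, ContDiffAt ℝ 2 p v := by
    intro v
    by_cases hv : v ∈ F
    · exact (χc2 v).mul (hR.c2 v (Fne v hv) hv.2)
    · exact contDiffAt_const.congr_of_eventuallyEq (pz v hv)
  have pdd : ∀ v, ‖fderiv ℝ (fderiv ℝ p) v‖ ≤ m := by
    intro v
    by_cases hv : v ∈ F
    · have hv0 := Fne v hv
      have hn : 1 ≤ ‖v‖ := hv.1
      refine (norm_fderiv2_mul_le (χc2 v) (hR.c2 v hv0 hv.2)).trans ?_
      have e1 : |χ v| ≤ 1 := by rw [abs_of_nonneg (χ01 v).1]; exact (χ01 v).2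
      have e2 := hR.b0 v hv0 hv.2
      have e3 := hR.b1 v hv0 hv.2
      have e4 := hR.b2 v hv0 hv.2
      have e5 := χd v
      have e6 := χdd v
      have t1 : |χ v| * ‖fderiv ℝ (fderiv ℝ g) v‖ ≤ o := by
        calc |χ v| * ‖fderiv ℝ (fderiv ℝ g) v‖ ≤ 1 * o := mul_le_mul e1 e4 (ContinuousLinearMap.opNorm_nonneg _) zero_le_one
          _ = o := one_mul _
      have t2 : ‖fderiv ℝ χ v‖ * ‖fderiv ℝ g v‖ ≤ o * K := by
        calc ‖fderiv ℝ χ v‖ * ‖fderiv ℝ g v‖ ≤ K / (d * (1 + ‖v‖)) * (o * d * ‖v‖) :=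
              mul_le_mul e5 e3 (norm_nonneg _) (by positivity)
          _ = o * K * (‖v‖ / (1 + ‖v‖)) := by field_simp
          _ ≤ o * K * 1 := by
              refine mul_le_mul_of_nonneg_left ?_ (by positivity)
              rw [div_le_one (by positivity)]; linarith
          _ = o * K := mul_one _
      have t3 : |g v| * ‖fderiv ℝ (fderiv ℝ χ) v‖ ≤ o * K := by
        calc |g v| * ‖fderiv ℝ (fderiv ℝ χ) v‖ ≤ (o * d ^ 2 * ‖v‖ ^ 2) * (K / (d * (1 + ‖v‖)) ^ 2) :=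
              mul_le_mul e2 e6 (ContinuousLinearMap.opNorm_nonneg _) (by positivity)
          _ = o * K * (‖v‖ / (1 + ‖v‖)) ^ 2 := by field_simp
          _ ≤ o * K * 1 := by
              refine mul_le_mul_of_nonneg_left ?_ (by positivity)
              refine pow_le_one₀ (by positivity) ?_
              rw [div_le_one (by positivity)]; linarith
          _ = o * K := mul_one _
      have t4 : o * (1 + 3 * K) = m := by rw [hO]; field_simp
      linarith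
    · have e1 : fderiv ℝ p =ᶠ[𝓝 v] fun _ => 0 := by
        filter_upwards [Fcl.isOpen_compl.mem_nhds hv] with y hy
        rw [(pz y hy).fderiv_eq]; exact fderiv_const_apply _
      rw [e1.fderiv_eq, fderiv_const_apply, ContinuousLinearMap.opNorm_zero]; exact hm.le
  have hsum : ∀ v, fderiv ℝ (fderiv ℝ (fun y => 1 / 2 * Q y y + p y)) v = Q + fderiv ℝ (fderiv ℝ p) v :=
    fun v => by rw [fderiv2_add (contDiff_quad Q).contDiffAt (pc2 v), fderiv2_quad hs]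
  refine ⟨fun v => 1 / 2 * Q v v + p v, (contDiff_quad Q).add (contDiff_iff_contDiffAt.mpr pc2),
    fun v => ?_, fun v ξ => ?_, fun v hv hv2 => ?_⟩
  · rw [hsum]
    exact (ContinuousLinearMap.opNorm_add_le _ _).trans (add_le_add le_rfl (pdd v))
  · rw [hsum, add_apply, add_apply]
    have h1 := hlow ξ
    have h2 : |fderiv ℝ (fderiv ℝ p) v ξ ξ| ≤ m * ‖ξ‖ ^ 2 := by
      calc |fderiv ℝ (fderiv ℝ p) v ξ ξ| ≤ ‖fderiv ℝ (fderiv ℝ p) v‖ * ‖ξ‖ * ‖ξ‖ := by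
            rw [← Real.norm_eq_abs]; exact ContinuousLinearMap.le_opNorm₂ _ _ _
        _ ≤ m * ‖ξ‖ * ‖ξ‖ := by gcongr; exact pdd v
        _ = m * ‖ξ‖ ^ 2 := by ring
    linarith [neg_abs_le (fderiv ℝ (fderiv ℝ p) v ξ ξ)]
  · have : χ v = 1 := χ1 v hv2 hv.2.le
    simp only [hp, hg, this, one_mul]; ring

end EscF.T
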